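import Pool.Agent.MP_f7db47_al.KN.Defs

/-!
Basic facts about matrices over labelled rings.
-/

namespace Pool.Agent.MP_f7db47_al.KN

open Matrix

universe v

variable {A : Type v} [Ring A] {Λ ι : Type} {H H' : Fam A Λ} {S : ι → Submonoid A}

/-- A central element that acts on `H`. -/
def Sc (H : Fam A Λ) (w : A) : Prop :=
  (∀ x, w * x = x * w) ∧ ∀ ⦃i j : Λ⦄ ⦃x : A⦄, x ∈ H i j → w * x ∈ H i j

theorem Sc.one : Sc H 1 := ⟨fun x => by simp, fun _ _ _ h => by simpa using h⟩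

theorem Sc.mul {w w' : A} (h : Sc H w) (h' : Sc H w') : Sc H (w * w') :=
  ⟨fun x => by rw [mul_assoc, h'.1, ← mul_assoc, h.1, mul_assoc],
    fun _ _ _ hx => by rw [mul_assoc]; exact h.2 (h'.2 hx)⟩

theorem Sc.pow {w : A} (h : Sc H w) (n : ℕ) : Sc H (w ^ n) := by
  induction n with
  | zero => simpa using Sc.one
  | succ n ih => rw [pow_succ]; exact ih.mul h

theorem Good.sc (h : Good H S) {a : ι} {w : A} (hw : w ∈ S a) : Sc H w :=
  ⟨h.cen a w hw, h.stab a w hw⟩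

theorem Gr.sc {𝓗 : ℕ → Fam A Λ} (h : Gr 𝓗 S) {a : ι} {w : A} (hw : w ∈ S a) (k : ℕ) :
    Sc (𝓗 k) w := ⟨h.cen a w hw, fun _ _ _ hx => h.stab a w hw hx⟩

theorem Good.gr (h : Good H S) : Gr (fun _ => H) S :=
  ⟨fun _ _ _ => le_rfl, fun _ _ _ _ _ _ _ hx hy => h.mul hx hy, h.cen,
    fun a w hw _ _ _ _ hx => h.stab a w hw hx⟩

theorem mul_smul_cen {I J K : Type} [Fintype J] {w : A} (hw : ∀ x, w * x = x * w)
    (M : Matrix I J A) (N : Matrix J K A) : M * (w • N) = w • (M * N) := by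
  ext i k
  simp only [Matrix.mul_apply, Matrix.smul_apply, smul_eq_mul, Finset.mul_sum]
  exact Finset.sum_congr rfl fun j _ => by rw [← mul_assoc, ← hw, mul_assoc]

section Hm

variable {d d' : ℤ} {I I' J J' K : Type} {s : I → Λ × ℤ} {s' : I' → Λ × ℤ} {t : J → Λ × ℤ}
  {t' : J' → Λ × ℤ} {u : K → Λ × ℤ} {f g : Matrix I J A}

theorem Hm.zero (s : I → Λ × ℤ) (t : J → Λ × ℤ) : Hm H d s t 0 :=
  fun _ _ => ⟨zero_mem _, fun h => absurd rfl h⟩

theorem Hm.add (h : Hm H d s t f) (h' : Hm H d s t g) : Hm H d s t (f + g) := fun i j =>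
  ⟨add_mem (h i j).1 (h' i j).1, fun e => by
    by_cases e1 : f i j = 0
    · exact (h' i j).2 fun e2 => e (by rw [Matrix.add_apply, e1, e2, add_zero])
    · exact (h i j).2 e1⟩

theorem Hm.neg (h : Hm H d s t f) : Hm H d s t (-f) := fun i j =>
  ⟨neg_mem (h i j).1, fun e => (h i j).2 fun e1 => e (by rw [Matrix.neg_apply, e1, neg_zero])⟩

theorem Hm.sub (h : Hm H d s t f) (h' : Hm H d s t g) : Hm H d s t (f - g) :=
  sub_eq_add_neg f g ▸ h.add h'.neg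

theorem Hm.sum {κ : Type*} (T : Finset κ) {F : κ → Matrix I J A}
    (h : ∀ x ∈ T, Hm H d s t (F x)) : Hm H d s t (∑ x ∈ T, F x) :=
  Finset.sum_induction _ _ (fun _ _ => Hm.add) (Hm.zero _ _) h

theorem Hm.mono (h : Hm H d s t f) (hH : H ≤ H') : Hm H' d s t f :=
  fun i j => ⟨hH _ _ (h i j).1, (h i j).2⟩

theorem Hm.smul {w : A} (hw : Sc H w) (h : Hm H d s t f) : Hm H d s t (w • f) := fun i j =>
  ⟨hw.2 (h i j).1, fun e => (h i j).2 fun e1 => e (by rw [Matrix.smul_apply, e1, smul_zero])⟩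

/-- Products, for three families. -/
theorem Hm.mul3 [Fintype J] {H₁ H₂ H₃ : Fam A Λ}
    (hm : ∀ ⦃a b c : Λ⦄ ⦃x y : A⦄, x ∈ H₁ a b → y ∈ H₂ b c → x * y ∈ H₃ a c) {e : ℤ}
    {g : Matrix J K A} (h : Hm H₁ d s t f) (h' : Hm H₂ d' t u g) (he : e = d + d') :
    Hm H₃ e s u (f * g) := fun i k => by
  rw [Matrix.mul_apply]
  refine ⟨sum_mem fun j _ => hm (h i j).1 (h' j k).1, fun e0 => ?_⟩
  obtain ⟨j, -, hj⟩ := Finset.exists_ne_zero_of_sum_ne_zero e0
  have h1 := (h i j).2 (left_ne_zero_of_mul hj)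
  have h2 := (h' j k).2 (right_ne_zero_of_mul hj)
  omega

theorem Hm.mul [Fintype J] (hH : LR H) {e : ℤ} {g : Matrix J K A} (h : Hm H d s t f)
    (h' : Hm H d' t u g) (he : e = d + d') : Hm H e s u (f * g) := Hm.mul3 hH h h' he

theorem Hm.mul_gr [Fintype J] {𝓗 : ℕ → Fam A Λ} (hH : Gr 𝓗 S) {k k' k'' : ℕ} {e : ℤ}
    {g : Matrix J K A} (h : Hm (𝓗 k) d s t f) (h' : Hm (𝓗 k') d' t u g) (he : e = d + d')
    (hk : k + k' ≤ k'') : Hm (𝓗 k'') e s u (f * g) :=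
  (Hm.mul3 (hH.mul (k := k) (k' := k')) h h' he).mono (hH.mono hk)

theorem Hm.blocks {a : Matrix I J A} {b : Matrix I J' A} {c : Matrix I' J A} {e : Matrix I' J' A}
    (ha : Hm H d s t a) (hb : Hm H d s t' b) (hc : Hm H d s' t c) (he : Hm H d s' t' e) :
    Hm H d (Sum.elim s s') (Sum.elim t t') (fromBlocks a b c e) := by
  rintro (i | i) (j | j)
  exacts [ha i j, hb i j, hc i j, he i j]

theorem Hm.rows {a : Matrix I J A} {c : Matrix I' J A} (ha : Hm H d s t a) (hc : Hm H d s' t c) :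
    Hm H d (Sum.elim s s') t (fromRows a c) := by
  rintro (i | i) j
  exacts [ha i j, hc i j]

theorem Hm.cols {a : Matrix I J A} {b : Matrix I J' A} (ha : Hm H d s t a) (hb : Hm H d s t' b) :
    Hm H d s (Sum.elim t t') (fromCols a b) := by
  rintro i (j | j)
  exacts [ha i j, hb i j]

theorem Hm.submatrix (h : Hm H d s t f) (e : I' → I) (e' : J' → J) :
    Hm H d (fun i => s (e i)) (fun j => t (e' j)) (f.submatrix e e') := fun _ _ => h _ _

theorem Hm.b11 {M : Matrix (I ⊕ I') (J ⊕ J') A} (h : Hm H d (Sum.elim s s') (Sum.elim t t') M) :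
    Hm H d s t M.toBlocks₁₁ := fun i j => h (.inl i) (.inl j)

theorem Hm.b12 {M : Matrix (I ⊕ I') (J ⊕ J') A} (h : Hm H d (Sum.elim s s') (Sum.elim t t') M) :
    Hm H d s t' M.toBlocks₁₂ := fun i j => h (.inl i) (.inr j)

theorem Hm.b21 {M : Matrix (I ⊕ I') (J ⊕ J') A} (h : Hm H d (Sum.elim s s') (Sum.elim t t') M) :
    Hm H d s' t M.toBlocks₂₁ := fun i j => h (.inr i) (.inl j)

theorem Hm.b22 {M : Matrix (I ⊕ I') (J ⊕ J') A} (h : Hm H d (Sum.elim s s') (Sum.elim t t') M) :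
    Hm H d s' t' M.toBlocks₂₂ := fun i j => h (.inr i) (.inr j)

/-- Shifting the degrees of source and target. -/
theorem Hm.shift (h : Hm H d s t f) (m n : ℤ) (he : d' = d + m - n) :
    Hm H d' (fun i => ((s i).1, (s i).2 + m)) (fun j => ((t j).1, (t j).2 + n)) f := fun i j =>
  ⟨(h i j).1, fun e => by have := (h i j).2 e; simp only; omega⟩

theorem Hm.shift_right (h : Hm H d s t f) (n : ℤ) (he : d' = d - n) :
    Hm H d' s (fun j => ((t j).1, (t j).2 + n)) f := fun i j =>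
  ⟨(h i j).1, fun e => by have := (h i j).2 e; simp only; omega⟩

theorem Hm.shift_left (h : Hm H d s t f) (m : ℤ) (he : d' = d + m) :
    Hm H d' (fun i => ((s i).1, (s i).2 + m)) t f := fun i j =>
  ⟨(h i j).1, fun e => by have := (h i j).2 e; simp only; omega⟩

theorem Hm.unshift {m n : ℤ}
    (h : Hm H d' (fun i => ((s i).1, (s i).2 + m)) (fun j => ((t j).1, (t j).2 + n)) f)
    (he : d' = d + m - n) : Hm H d s t f := fun i j =>
  ⟨(h i j).1, fun e => by have := (h i j).2 e; simp only at this; omega⟩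

open Classical in
/-- The projection to a set of indices. -/
noncomputable def ind (A : Type v) [Ring A] {J : Type} [DecidableEq J] (U : Set J) :
    Matrix J J A := diagonal fun j => if j ∈ U then 1 else 0

open Classical in
theorem ind_mul_apply [Fintype I] [DecidableEq I] (U : Set I) (f : Matrix I J A) (i : I) (j : J) :
    (ind A U * f) i j = if i ∈ U then f i j else 0 := by
  rw [ind, diagonal_mul]
  split_ifs <;> simp

open Classical in
theorem mul_ind_apply [Fintype J] [DecidableEq J] (U : Set J) (f : Matrix I J A) (i : I) (j : J) :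
    (f * ind A U) i j = if j ∈ U then f i j else 0 := by
  rw [ind, mul_diagonal]
  split_ifs <;> simp

theorem ind_mul_ind [Fintype I] [DecidableEq I] (U V : Set I) :
    ind A U * ind A V = ind A (U ∩ V) := by
  classical
  ext i j
  rw [ind_mul_apply, ind, ind, diagonal_apply, diagonal_apply]
  by_cases h1 : i ∈ U <;> by_cases h2 : i ∈ V <;> simp [h1, h2]

theorem Hm.ind_mul [Fintype I] [DecidableEq I] (h : Hm H d s t f) (U : Set I) :
    Hm H d s t (ind A U * f) := fun i j => by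
  rw [ind_mul_apply]
  split_ifs
  exacts [h i j, ⟨zero_mem _, fun e => absurd rfl e⟩]

theorem Hm.mul_ind [Fintype J] [DecidableEq J] (h : Hm H d s t f) (U : Set J) :
    Hm H d s t (f * ind A U) := fun i j => by
  rw [mul_ind_apply]
  split_ifs
  exacts [h i j, ⟨zero_mem _, fun e => absurd rfl e⟩]

end Hm

variable {X Y : Cx A Λ} {K : Finset ι} {W W' : Set ℤ}

theorem Ok.ext {t : Matrix X.J Y.J A} (hX : Ok H X) (hY : Ok H Y) (ht : Tw H X Y t) :
    Ok H (X.ext Y t) where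
  hp := Hm.blocks hX.hp (Hm.zero _ _) (Hm.zero _ _) hY.hp
  hD := Hm.blocks hX.hD ht.hm (Hm.zero _ _) hY.hD
  pp := by simp [fromBlocks_multiply, hX.pp, hY.pp]
  pD := by simp [fromBlocks_multiply, hX.pD, hY.pD, ht.pl]
  Dp := by simp [fromBlocks_multiply, hX.Dp, hY.Dp, ht.pr]
  DD := by simp [fromBlocks_multiply, hX.DD, hY.DD, ht.cm]

theorem Mp.zero (d : ℤ) (X Y : Cx A Λ) : Mp H d X Y 0 :=
  ⟨Hm.zero _ _, Matrix.mul_zero _, Matrix.zero_mul _⟩

theorem Tw.zero (X Y : Cx A Λ) : Tw H X Y 0 := ⟨Mp.zero _ _ _, by simp⟩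

theorem Ch.zero (X Y : Cx A Λ) : Ch H X Y 0 := ⟨Mp.zero _ _ _, by simp⟩

theorem Ok.sum (hX : Ok H X) (hY : Ok H Y) : Ok H (X.sum Y) := hX.ext hY (Tw.zero _ _)

theorem Ok.sh (hX : Ok H X) (n : ℤ) : Ok H (X.sh n) where
  hp := hX.hp.shift n n (by omega)
  hD := hX.hD.neg.shift n n (by omega)
  pp := hX.pp
  pD := by simp [hX.pD]
  Dp := by simp [hX.Dp]
  DD := by simp [hX.DD]

theorem Ok.zero : Ok H (Cx.zero A Λ) :=
  ⟨Hm.zero _ _, Hm.zero _ _, by simp, by simp, by simp, by simp⟩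

theorem Ch.tw {f : Matrix Y.J X.J A} (h : Ch H Y X f) : Tw H Y (X.sh 1) f :=
  ⟨⟨h.hm.shift_right 1 (by omega), h.pl, h.pr⟩, by simp [h.cm]⟩

theorem Tw.ch {f : Matrix Y.J X.J A} (h : Tw H Y X f) : Ch H Y (X.sh (-1)) f :=
  ⟨⟨h.hm.shift_right (-1) (by omega), h.pl, h.pr⟩, by
    simpa [eq_neg_iff_add_eq_zero] using h.cm⟩

theorem Ok.cone {f : Matrix Y.J X.J A} (hY : Ok H Y) (hX : Ok H X) (h : Ch H Y X f) :
    Ok H (Y.cone X f) := hY.ext (hX.sh 1) h.tw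

theorem Nul.sh {w : A} (h : Nul H w X) (n : ℤ) : Nul H w (X.sh n) := by
  obtain ⟨s, h1, h2⟩ := h
  exact ⟨-s, h1.neg.shift n n (by omega), by simpa using h2⟩

theorem Obj.sh (h : Obj H S K X) (n : ℤ) : Obj H S K (X.sh n) :=
  ⟨h.ok.sh n, fun a ha => (h.tor a ha).imp fun _ c => ⟨c.1, c.2.sh n⟩⟩

theorem Nul.zero (w : A) : Nul H w (Cx.zero A Λ) := ⟨0, Hm.zero _ _, by simp⟩

theorem Obj.zero : Obj H S K (Cx.zero A Λ) :=
  ⟨Ok.zero, fun _ _ => ⟨1, one_mem _, Nul.zero _⟩⟩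

theorem Nul.smul {w w' : A} (hw : Sc H w') (h : Nul H w X) : Nul H (w' * w) X := by
  obtain ⟨s, h1, h2⟩ := h
  exact ⟨w' • s, h1.smul hw, by
    rw [mul_smul_cen hw.1, Matrix.smul_mul, ← smul_add, h2, smul_smul]⟩

theorem Nul.tor (h : Nul H 1 X) : Tor H S K X := fun _ _ => ⟨1, one_mem _, h⟩

theorem Ok.mono (h : Ok H X) (hH : H ≤ H') : Ok H' X :=
  ⟨h.hp.mono hH, h.hD.mono hH, h.pp, h.pD, h.Dp, h.DD⟩

theorem Mp.mono {d : ℤ} {f : Matrix Y.J X.J A} (h : Mp H d Y X f) (hH : H ≤ H') :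
    Mp H' d Y X f := ⟨h.hm.mono hH, h.pl, h.pr⟩

theorem Ch.mono {f : Matrix Y.J X.J A} (h : Ch H Y X f) (hH : H ≤ H') : Ch H' Y X f :=
  ⟨h.toMp.mono hH, h.cm⟩

theorem Tw.mono {f : Matrix Y.J X.J A} (h : Tw H Y X f) (hH : H ≤ H') : Tw H' Y X f :=
  ⟨h.toMp.mono hH, h.cm⟩

theorem Nul.mono {w : A} (h : Nul H w X) (hH : H ≤ H') : Nul H' w X :=
  h.imp fun _ c => ⟨c.1.mono hH, c.2⟩

theorem Tor.mono (h : Tor H S K X) (hH : H ≤ H') : Tor H' S K X :=
  fun a ha => (h a ha).imp fun _ c => ⟨c.1, c.2.mono hH⟩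

theorem Obj.mono (h : Obj H S K X) (hH : H ≤ H') : Obj H' S K X := ⟨h.ok.mono hH, h.tor.mono hH⟩

theorem Obj.anti {K' : Finset ι} (h : Obj H S K X) (hK : K' ⊆ K) : Obj H S K' X :=
  ⟨h.ok, fun a ha => h.tor a (hK ha)⟩

theorem HE.mono (h : HE H X Y) (hH : H ≤ H') : HE H' X Y := by
  obtain ⟨f, g, a, b, c⟩ := h
  exact ⟨f, g, a, b, c.hf.mono hH, c.hg.mono hH, c.hh.mono hH, c.hk.mono hH, c.gf, c.fg⟩

theorem Wd.mono (h : Wd W X) (hW : W ⊆ W') : Wd W' X := fun j => hW (h j)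

theorem Wd.univ (X : Cx A Λ) : Wd Set.univ X := fun _ => trivial

theorem Wd.ext (h : Wd W X) (h' : Wd W Y) (t : Matrix X.J Y.J A) : Wd W (X.ext Y t) := by
  rintro (j | j)
  exacts [h j, h' j]

theorem Wd.inW (h : Wd W X) : InW W X := fun i _ _ => h i

theorem exists_bd (X : Cx A Λ) : ∃ L : ℕ, Bd L X := by
  refine ⟨Finset.univ.sup fun j => (X.t j).2.natAbs, fun j => ?_⟩
  have : (X.t j).2.natAbs ≤ Finset.univ.sup fun j => (X.t j).2.natAbs :=
    Finset.le_sup (f := fun j => (X.t j).2.natAbs) (Finset.mem_univ j)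
  constructor <;> omega

theorem Cert.mono (h : Cert H S K W X) (hH : H ≤ H') (hW : W ⊆ W') : Cert H' S K W' X := by
  obtain ⟨P, Q, B, t, t', c, e, e'⟩ := h
  exact ⟨P, Q, B, t, t', ⟨c.oP.mono hH, c.oQ.mono hH, c.oB.mono hH, c.wP.mono hW, c.wQ.mono hW,
    c.wB.mono hW, c.ht.mono hH, c.ht'.mono hH⟩, e.mono hH, e'.mono hH⟩

end Pool.Agent.MP_f7db47_al.KN
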