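import Pool.Agent.MP_f7db47_al.KN.A3

/-!
Entrywise functors. No closure property of the families is needed.
-/

namespace Pool.Agent.MP_f7db47_al.KN

open Matrix

universe v w

variable {A : Type v} [Ring A] {Λ ι : Type} {H H' I I' : Fam A Λ} {S : ι → Submonoid A}
  {K K' : Finset ι} {W : Set ℤ} {X X' Y Y' Z : Cx A Λ} {w w' : A}
  {A' : Type w} [Ring A'] {Λ' : Type} {G : Fam A' Λ'} {S' : ι → Submonoid A'}

variable {φ : A →+ A'} {π : Λ → Λ'}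

theorem Hm.sf (hφ : Sf H G S S' φ π) {d : ℤ} {J₁ J₂ : Type} {s : J₁ → Λ × ℤ} {t : J₂ → Λ × ℤ}
    {f : Matrix J₁ J₂ A} (hf : Hm H d s t f) :
    Hm G d (fun i => (π (s i).1, (s i).2)) (fun j => (π (t j).1, (t j).2)) (f.map φ) :=
  fun i j => ⟨hφ.mem (hf i j).1, fun e => (hf i j).2 fun e1 =>
    e (by rw [Matrix.map_apply, e1, map_zero])⟩

theorem Sf.map_mul (hφ : Sf H G S S' φ π) {d d' : ℤ} {J₁ J₂ J₃ : Type} [Fintype J₂]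
    {s : J₁ → Λ × ℤ} {t : J₂ → Λ × ℤ} {u : J₃ → Λ × ℤ} {f : Matrix J₁ J₂ A} {g : Matrix J₂ J₃ A}
    (hf : Hm H d s t f) (hg : Hm H d' t u g) : (f * g).map φ = f.map φ * g.map φ := by
  ext i k
  simp only [Matrix.map_apply, Matrix.mul_apply, map_sum]
  exact Finset.sum_congr rfl fun j _ => hφ.mul (hf i j).1 (hg j k).1

theorem a10_add {I J : Type} (f g : Matrix I J A) : (f + g).map φ = f.map φ + g.map φ :=
  Matrix.map_add φ (map_add φ) f g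

theorem a10_zero {I J : Type} : (0 : Matrix I J A).map φ = 0 := Matrix.map_zero φ (map_zero φ)

theorem a10_mp (hφ : Sf H G S S' φ π) {d : ℤ} {f : Matrix Y.J X.J A} (hY : Ok H Y) (hX : Ok H X)
    (h : Mp H d Y X f) : Mp G d (Y.smap φ π) (X.smap φ π) (f.map φ) :=
  ⟨h.hm.sf hφ, by rw [← hφ.map_mul hY.hp h.hm, h.pl], by rw [← hφ.map_mul h.hm hX.hp, h.pr]⟩

theorem a10_nul (hφ : Sf H G S S' φ π) (hX : Ok H X) {v : A'}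
    (hw : ∀ ⦃i j x⦄, x ∈ H i j → φ (w * x) = v * φ x) (h : Nul H w X) :
    Nul G v (X.smap φ π) := by
  obtain ⟨s, h1, h2⟩ := h
  refine ⟨s.map φ, h1.sf hφ, ?_⟩
  rw [← hφ.map_mul hX.hD h1, ← hφ.map_mul h1 hX.hD, ← a10_add, h2]
  ext i j
  exact hw (hX.hp i j).1

theorem Ok.sf (hφ : Sf H G S S' φ π) (h : Ok H X) : Ok G (X.smap φ π) :=
  ⟨h.hp.sf hφ, h.hD.sf hφ, by rw [← hφ.map_mul h.hp h.hp, h.pp],
    by rw [← hφ.map_mul h.hp h.hD, h.pD], by rw [← hφ.map_mul h.hD h.hp, h.Dp],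
    by rw [← hφ.map_mul h.hD h.hD, h.DD, a10_zero]⟩

theorem Ch.sf (hφ : Sf H G S S' φ π) {f : Matrix Y.J X.J A} (hY : Ok H Y) (hX : Ok H X)
    (h : Ch H Y X f) : Ch G (Y.smap φ π) (X.smap φ π) (f.map φ) :=
  ⟨a10_mp hφ hY hX h.toMp, by rw [← hφ.map_mul hY.hD h.hm, ← hφ.map_mul h.hm hX.hD, h.cm]⟩

theorem Tw.sf (hφ : Sf H G S S' φ π) {f : Matrix Y.J X.J A} (hY : Ok H Y) (hX : Ok H X)
    (h : Tw H Y X f) : Tw G (Y.smap φ π) (X.smap φ π) (f.map φ) :=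
  ⟨a10_mp hφ hY hX h.toMp, by
    rw [← hφ.map_mul hY.hD h.hm, ← hφ.map_mul h.hm hX.hD, ← a10_add, h.cm, a10_zero]⟩

theorem HE.sf (hφ : Sf H G S S' φ π) (hX : Ok H X) (hY : Ok H Y) (h : HE H X Y) :
    HE G (X.smap φ π) (Y.smap φ π) := by
  obtain ⟨f, g, a, b, c⟩ := h
  refine ⟨f.map φ, g.map φ, a.map φ, b.map φ, c.hf.sf hφ hY hX, c.hg.sf hφ hX hY, c.hh.sf hφ,
    c.hk.sf hφ, ?_, ?_⟩
  · rw [← hφ.map_mul c.hg.hm c.hf.hm, ← hφ.map_mul hX.hD c.hh, ← hφ.map_mul c.hh hX.hD,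
      ← a10_add, ← a10_add, c.gf]
  · rw [← hφ.map_mul c.hf.hm c.hg.hm, ← hφ.map_mul hY.hD c.hk, ← hφ.map_mul c.hk hY.hD,
      ← a10_add, ← a10_add, c.fg]

theorem Nul.sf_one (hφ : Sf H G S S' φ π) (hX : Ok H X) (h : Nul H 1 X) :
    Nul G 1 (X.smap φ π) :=
  a10_nul hφ hX (fun _ _ _ _ => by rw [one_mul, one_mul]) h

theorem Obj.sf (hφ : Sf H G S S' φ π) (h : Obj H S K X) : Obj G S' K (X.smap φ π) :=
  ⟨h.ok.sf hφ, fun a ha => by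
    obtain ⟨w, hw, hn⟩ := h.tor a ha
    obtain ⟨v, hv, e⟩ := hφ.lin a w hw
    exact ⟨v, hv, a10_nul hφ h.ok e hn⟩⟩

theorem smap_ext (t : Matrix X.J Y.J A) :
    (X.ext Y t).smap φ π = (X.smap φ π).ext (Y.smap φ π) (t.map φ) := by
  simp only [Cx.smap, Cx.ext, fromBlocks_map, a10_zero]
  congr 1
  funext j
  cases j <;> rfl

theorem Cert.sf (hφ : Sf H G S S' φ π) (hX : Ok H X) (h : Cert H S K W X) :
    Cert G S' K W (X.smap φ π) := by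
  obtain ⟨P, Q, B, t, t', c, e, e'⟩ := h
  have e1 := e.sf hφ (c.oP.ok.ext c.oQ.ok c.ht) (hX.sum c.oB.ok)
  have e2 := e'.sf hφ (c.oP.ok.ext c.oQ.ok c.ht') c.oB.ok
  rw [smap_ext, smap_ext, a10_zero] at e1
  rw [smap_ext] at e2
  exact ⟨P.smap φ π, Q.smap φ π, B.smap φ π, t.map φ, t'.map φ,
    ⟨c.oP.sf hφ, c.oQ.sf hφ, c.oB.sf hφ, c.wP, c.wQ, c.wB, c.ht.sf hφ c.oP.ok c.oQ.ok,
      c.ht'.sf hφ c.oP.ok c.oQ.ok⟩, e1, e2⟩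

theorem a10_lift {G : Fam A' Λ} (hs : ∀ a b, ∀ y ∈ G a b, ∃ x ∈ H a b, φ x = y)
    (hi : Function.Injective φ) {d : ℤ} {I J : Type} {s : I → Λ × ℤ} {t : J → Λ × ℤ}
    {f' : Matrix I J A'} (h : Hm G d s t f') : ∃ f, Hm H d s t f ∧ f.map φ = f' := by
  choose f h1 h2 using fun i j => hs _ _ _ (h i j).1
  refine ⟨Matrix.of f, fun i j => ⟨h1 i j, fun e => (h i j).2 fun e1 => e (hi ?_)⟩,
    Matrix.ext h2⟩
  rw [map_zero, ← e1]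
  exact h2 i j

/-- Lifting along an injective functor that is onto on the families. -/
theorem Ok.lift {G : Fam A' Λ} (hφ : Sf H G S S' φ id) (hi : Function.Injective φ)
    (hs : ∀ a b, ∀ y ∈ G a b, ∃ x ∈ H a b, φ x = y) {Y : Cx A' Λ} (h : Ok G Y) :
    ∃ X : Cx A Λ, Ok H X ∧ X.smap φ id = Y := by
  obtain ⟨p, hp, ep⟩ := a10_lift hs hi h.hp
  obtain ⟨D, hD, eD⟩ := a10_lift hs hi h.hD
  have inj : ∀ {f g : Matrix Y.J Y.J A}, f.map φ = g.map φ → f = g := fun e =>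
    Matrix.map_injective hi e
  refine ⟨⟨Y.J, Y.t, p, D⟩, ⟨hp, hD, inj ?_, inj ?_, inj ?_, inj ?_⟩, ?_⟩
  · rw [hφ.map_mul hp hp, ep, h.pp]
  · rw [hφ.map_mul hp hD, ep, eD, h.pD]
  · rw [hφ.map_mul hD hp, ep, eD, h.Dp]
  · rw [hφ.map_mul hD hD, eD, h.DD, a10_zero]
  · change (⟨Y.J, Y.t, p.map φ, D.map φ⟩ : Cx A' Λ) = Y
    rw [ep, eD]

theorem Obj.lift {G : Fam A' Λ} (hφ : Sf H G S S' φ id) (hi : Function.Injective φ)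
    (hs : ∀ a b, ∀ y ∈ G a b, ∃ x ∈ H a b, φ x = y)
    (hS : ∀ a, ∀ w' ∈ S' a, ∃ w ∈ S a, ∀ ⦃i j x⦄, x ∈ H i j → φ (w * x) = w' * φ x) {Y : Cx A' Λ}
    (h : Obj G S' K Y) : ∃ X : Cx A Λ, Obj H S K X ∧ X.smap φ id = Y := by
  obtain ⟨X, hX, rfl⟩ := h.ok.lift hφ hi hs
  refine ⟨X, ⟨hX, fun a ha => ?_⟩, rfl⟩
  obtain ⟨v, hv, s', h1, h2⟩ := h.tor a ha
  obtain ⟨w, hw, e⟩ := hS a v hv
  obtain ⟨s, h3, rfl⟩ := a10_lift hs hi h1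
  have h4 : Hm H 1 X.t X.t s := h3
  refine ⟨w, hw, s, h4, Matrix.map_injective hi ?_⟩
  change (X.D * s + s * X.D).map φ = (w • X.p).map φ
  rw [a10_add, hφ.map_mul hX.hD h4, hφ.map_mul h4 hX.hD]
  refine h2.trans ?_
  ext i j
  exact (e (hX.hp i j).1).symm

theorem NullAll.pull {G : Fam A' Λ} (hφ : Sf H G S S' φ id) (hi : Function.Injective φ)
    (hs : ∀ a b, ∀ y ∈ G a b, ∃ x ∈ H a b, φ x = y)
    (hS : ∀ a, ∀ w' ∈ S' a, ∃ w ∈ S a, ∀ ⦃i j x⦄, x ∈ H i j → φ (w * x) = w' * φ x)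
    (h : NullAll H S K) : NullAll G S' K := fun Y hY => by
  obtain ⟨X, hX, rfl⟩ := hY.lift hφ hi hs hS
  exact (h X hX).sf hφ hX.ok

end Pool.Agent.MP_f7db47_al.KN
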