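import Pool.Agent.MP_f7db47_al.KN.A3

/-!
Duality.
-/

namespace Pool.Agent.MP_f7db47_al.KN

open Matrix

universe v w

variable {A : Type v} [Ring A] {Λ ι : Type} {H H' I I' : Fam A Λ} {S : ι → Submonoid A}
  {K K' : Finset ι} {W : Set ℤ} {X X' Y Y' Z : Cx A Λ} {w w' : A}
  {A' : Type w} [Ring A'] {S' : ι → Submonoid A'}

variable {G : Fam A' Λ} {τ : A →+ A'}

theorem a10b_mul (hτ : Af H G S S' τ) {P Q R : Type} [Fintype Q] (f : Matrix P Q A)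
    (g : Matrix Q R A) : (g.map τ)ᵀ * (f.map τ)ᵀ = ((f * g).map τ)ᵀ := by
  ext k i
  simp only [Matrix.mul_apply, transpose_apply, Matrix.map_apply, map_sum, hτ.mul]

theorem a10b_add {P Q : Type} (f g : Matrix P Q A) :
    (f.map τ)ᵀ + (g.map τ)ᵀ = ((f + g).map τ)ᵀ := by
  ext k i
  simp only [Matrix.add_apply, transpose_apply, Matrix.map_apply, map_add]

theorem a10b_zero {P Q : Type} : ((0 : Matrix P Q A).map τ)ᵀ = 0 := by
  ext k i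
  simp only [Matrix.zero_apply, transpose_apply, Matrix.map_apply, map_zero]

theorem a10b_hm (hτ : Af H G S S' τ) {d : ℤ} {P Q : Type} {s : P → Λ × ℤ} {t : Q → Λ × ℤ}
    {f : Matrix P Q A} (h : Hm H d s t f) :
    Hm G d (fun j => ((t j).1, -(t j).2)) (fun i => ((s i).1, -(s i).2)) (f.map τ)ᵀ := fun j i =>
  ⟨hτ.mem (h i j).1, fun e => by
    have := (h i j).2 fun e1 => e (by rw [transpose_apply, Matrix.map_apply, e1, map_zero])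
    simp only
    omega⟩

theorem a10b_mp (hτ : Af H G S S' τ) {d : ℤ} {f : Matrix Y.J X.J A} (h : Mp H d Y X f) :
    Mp G d (X.op τ) (Y.op τ) (f.map τ)ᵀ :=
  ⟨a10b_hm hτ h.hm, by rw [a10b_mul hτ, h.pr], by rw [a10b_mul hτ, h.pl]⟩

theorem a10b_ch (hτ : Af H G S S' τ) {f : Matrix Y.J X.J A} (h : Ch H Y X f) :
    Ch G (X.op τ) (Y.op τ) (f.map τ)ᵀ :=
  ⟨a10b_mp hτ h.toMp, by rw [a10b_mul hτ, a10b_mul hτ, h.cm]⟩

theorem a10b_tw (hτ : Af H G S S' τ) {f : Matrix X.J Y.J A} (h : Tw H X Y f) :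
    Tw G (Y.op τ) (X.op τ) (f.map τ)ᵀ :=
  ⟨a10b_mp hτ h.toMp, by
    rw [a10b_mul hτ, a10b_mul hτ, a10b_add, add_comm, h.cm, a10b_zero]⟩

theorem Ok.op (hτ : Af H G S S' τ) (h : Ok H X) : Ok G (X.op τ) where
  hp := a10b_hm hτ h.hp
  hD := a10b_hm hτ h.hD
  pp := by rw [a10b_mul hτ, h.pp]
  pD := by rw [a10b_mul hτ, h.Dp]
  Dp := by rw [a10b_mul hτ, h.pD]
  DD := by rw [a10b_mul hτ, h.DD, a10b_zero]

theorem Obj.op (hτ : Af H G S S' τ) (h : Obj H S K X) : Obj G S' K (X.op τ) := by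
  refine ⟨h.ok.op hτ, fun a ha => ?_⟩
  obtain ⟨u, hu, s, h1, h2⟩ := h.tor a ha
  obtain ⟨u', hu', h3⟩ := hτ.lin a u hu
  refine ⟨u', hu', (s.map τ)ᵀ, a10b_hm hτ h1, ?_⟩
  rw [a10b_mul hτ, a10b_mul hτ, a10b_add, add_comm, h2]
  ext k i
  exact h3 _

theorem HE.op (hτ : Af H G S S' τ) (h : HE H X Y) : HE G (X.op τ) (Y.op τ) := by
  obtain ⟨f, g, a, b, c⟩ := h
  refine ⟨(g.map τ)ᵀ, (f.map τ)ᵀ, (a.map τ)ᵀ, (b.map τ)ᵀ, a10b_ch hτ c.hg, a10b_ch hτ c.hf,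
    a10b_hm hτ c.hh, a10b_hm hτ c.hk, ?_, ?_⟩
  · rw [a10b_mul hτ, a10b_mul hτ, a10b_mul hτ, a10b_add, a10b_add, add_comm (a * X.D), c.gf]
  · rw [a10b_mul hτ, a10b_mul hτ, a10b_mul hτ, a10b_add, a10b_add, add_comm (b * Y.D), c.fg]

theorem Wd.op {a b : ℤ} (h : Wd (Set.Icc a b) X) : Wd (Set.Icc (-b) (-a)) (X.op τ) := fun j =>
  ⟨neg_le_neg (h j).2, neg_le_neg (h j).1⟩

theorem a10b_ext (X Y : Cx A Λ) (t : Matrix X.J Y.J A) :
    Sub ((Y.op τ).ext (X.op τ) (t.map τ)ᵀ) ((X.ext Y t).op τ) := by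
  refine (Sub.of_equiv (X' := (Y.op τ).ext (X.op τ) (t.map τ)ᵀ) (X := (X.ext Y t).op τ)
    (Equiv.sumComm Y.J X.J) ?_ ?_ ?_).1
  · rintro (i | i) <;> rfl
  · ext (i | i) (j | j)
    exacts [rfl, (map_zero τ).symm, (map_zero τ).symm, rfl]
  · ext (i | i) (j | j)
    exacts [rfl, rfl, (map_zero τ).symm, rfl]

theorem a10b_sum (X Y : Cx A Λ) : Sub ((X.op τ).sum (Y.op τ)) ((X.sum Y).op τ) := by
  refine (Sub.of_equiv (X' := (X.op τ).sum (Y.op τ)) (X := (X.sum Y).op τ)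
    (Equiv.refl (X.J ⊕ Y.J)) ?_ ?_ ?_).1
  · rintro (i | i) <;> rfl
  · ext (i | i) (j | j)
    exacts [rfl, (map_zero τ).symm, (map_zero τ).symm, rfl]
  · ext (i | i) (j | j)
    exacts [rfl, (map_zero τ).symm, (map_zero τ).symm, rfl]

theorem Cert.op (hτ : Af H G S S' τ) {a b : ℤ} (h : Cert H S K (Set.Icc a b) X) :
    Cert G S' K (Set.Icc (-b) (-a)) (X.op τ) := by
  obtain ⟨P, Q, B, t, t', c, e, e'⟩ := h
  exact ⟨Q.op τ, P.op τ, B.op τ, (t.map τ)ᵀ, (t'.map τ)ᵀ,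
    ⟨c.oQ.op hτ, c.oP.op hτ, c.oB.op hτ, c.wQ.op, c.wP.op, c.wB.op, a10b_tw hτ c.ht,
      a10b_tw hτ c.ht'⟩,
    (a10b_ext P Q t).he_left.2 ((a10b_sum X B).he_right.2 (e.op hτ)),
    (a10b_ext P Q t').he_left.2 (e'.op hτ)⟩

theorem op_op {τ' : A' →+ A} (h : ∀ x, τ' (τ x) = x) : (X.op τ).op τ' = X := by
  have e : ∀ M : Matrix X.J X.J A, (((M.map τ)ᵀ).map τ')ᵀ = M := fun M => by
    ext i j
    exact h _
  cases X
  simp only [Cx.op, neg_neg, e]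

/-- The opposite labelled ring. -/
theorem exists_op (hH : Good H S) :
    ∃ (G : Fam Aᵐᵒᵖ Λ) (S' : ι → Submonoid Aᵐᵒᵖ) (τ : A →+ Aᵐᵒᵖ) (τ' : Aᵐᵒᵖ →+ A),
      Good G S' ∧ Af H G S S' τ ∧ Af G H S' S τ' ∧ ∀ x, τ' (τ x) = x := by
  refine ⟨fun a b => (H b a).comap (MulOpposite.opAddEquiv (α := A)).symm.toAddMonoidHom,
    fun a => (S a).op, (MulOpposite.opAddEquiv (α := A)).toAddMonoidHom,
    (MulOpposite.opAddEquiv (α := A)).symm.toAddMonoidHom, ⟨?_, ?_, ?_⟩, ⟨?_, ?_, ?_⟩,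
    ⟨?_, ?_, ?_⟩, fun _ => rfl⟩
  · intro a b c x y hx hy
    exact hH.mul (x := y.unop) (y := x.unop) hy hx
  · intro a u hu x
    exact MulOpposite.unop_injective (hH.cen a u.unop hu x.unop).symm
  · intro a u hu i j x hx
    have e : u.unop * x.unop ∈ H j i := hH.stab a u.unop hu hx
    rw [hH.cen a u.unop hu] at e
    exact e
  · intro a b x hx
    exact hx
  · intro x y
    rfl
  · intro a u hu
    exact ⟨MulOpposite.op u, hu, fun x => congrArg MulOpposite.op (hH.cen a u hu x)⟩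
  · intro a b x hx
    exact hx
  · intro x y
    rfl
  · intro a u hu
    exact ⟨u.unop, hu, fun x => (hH.cen a u.unop hu x.unop).symm⟩

end Pool.Agent.MP_f7db47_al.KN
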