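import Pool.Agent.MP_f7db47_al.KN.A6

/-!
Koszul complexes.
-/

namespace Pool.Agent.MP_f7db47_al.KN

open Matrix

universe v w

variable {A : Type v} [Ring A] {Λ ι : Type} {H H' I I' : Fam A Λ} {S : ι → Submonoid A}
  {K K' : Finset ι} {W : Set ℤ} {X X' Y Y' Z : Cx A Λ} {w w' : A}

theorem a11_obj [DecidableEq ι] (hI : Good I S) {a : ι} (hw : w ∈ S a) (hX : Obj I S K X) :
    Obj I S (insert a K) (X.cone X (w • X.p)) := by
  have h := Obj.ext hI ((Ch.id hX.ok).smul (hI.sc hw)).tw hX (hX.sh 1)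
  refine ⟨h.ok, fun b hb => ?_⟩
  rcases Finset.mem_insert.1 hb with rfl | hb
  · exact ⟨w, hw, cone_smul hX.ok (hI.sc hw)⟩
  · exact h.tor b hb

theorem a11_inc (hX : Ok I X) (w : A) : Ch I (X.cone X (w • X.p)) X (fromRows X.p 0) where
  hm := Hm.rows hX.hp (Hm.zero _ _)
  pl := by simp [fromBlocks_mul_fromRows, hX.pp]
  pr := by simp [fromRows_mul, hX.pp]
  cm := by simp [fromBlocks_mul_fromRows, fromRows_mul, hX.pD, hX.Dp]

theorem a11_wd {c d : ℤ} (h : Wd (Set.Icc c d) X) (f : Matrix X.J X.J A) :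
    Wd (Set.Icc c (d + 1)) (X.cone X f) := by
  rintro (j | j)
  · have := h j
    exact ⟨this.1, this.2.trans (by omega)⟩
  · have := h j
    exact ⟨this.1.trans (by simp), by simpa using this.2⟩

theorem a11_map (hH : LR H) (hw : ∀ x, w * x = x * w) {s : Matrix Y.J Y.J A}
    (hs : Hm H 1 Y.t Y.t s) (hp : Y.p * s = s) (hD : Y.D * s + s * Y.D = w • Y.p)
    {f : Matrix Y.J X.J A} (hf : Ch H Y X f) :
    Ch H Y (X.cone X (w • X.p)) (fromCols f (s * f)) where
  hm := Hm.cols hf.hm ((hs.mul hH hf.hm (e := 1) (by omega)).shift_right 1 (by omega))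
  pl := by rw [mul_fromCols, hf.pl, ← Matrix.mul_assoc, hp]
  pr := by simp [fromCols_mul_fromBlocks, hf.pr, Matrix.mul_assoc]
  cm := by
    have e : Y.D * (s * f) = f * (w • X.p) + s * f * -X.D := by
      rw [mul_smul_cen hw, hf.pr, Matrix.mul_neg, Matrix.mul_assoc, ← hf.cm, ← Matrix.mul_assoc,
        ← Matrix.mul_assoc, ← sub_eq_add_neg, eq_sub_iff_add_eq, ← Matrix.add_mul, hD,
        Matrix.smul_mul, hf.pl]
    rw [mul_fromCols, fromCols_mul_fromBlocks, e, hf.cm, Matrix.mul_zero, add_zero]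

theorem a11_ext (hH : LR H) (hw : Sc H w) (hw' : Sc H w') {t : Matrix X.J Y.J A}
    (ht : Tw H X Y t) {h : Matrix X.J X.J A} {h' : Matrix Y.J Y.J A} (m : Mp H 1 X X h)
    (e : X.D * h + h * X.D = w • X.p) (m' : Mp H 1 Y Y h') (e' : Y.D * h' + h' * Y.D = w' • Y.p)
    {a : Matrix X.J Z.J A} {f : Matrix Y.J Z.J A} (hf : Ch H (X.ext Y t) Z (fromRows a f)) :
    ∃ b, Ch H (X.ext Y t) (Z.cone Z ((w * w') • Z.p))
      (fromRows b (fromCols f ((w • h') * f))) := by
  have key := a11_map (Y := X.ext Y t) hH (hw.mul hw').1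
    (s := fromBlocks (w' • h) (-(h * t * h')) 0 (w • h'))
    (Hm.blocks (m.hm.smul hw') ((m.hm.mul hH ht.hm (e := 0) (by omega)).mul hH m'.hm
      (by omega)).neg (Hm.zero _ _) (m'.hm.smul hw)) ?_ ?_ hf
  · refine ⟨fromCols a ((w' • h) * a + -(h * t * h') * f), ?_⟩
    convert key using 1
    rw [fromBlocks_mul_fromRows, Matrix.zero_mul, zero_add]
    ext (i | i) (j | j) <;> rfl
  · simp only [fromBlocks_multiply, Matrix.mul_zero, Matrix.zero_mul, add_zero, zero_add,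
      mul_smul_cen hw.1, mul_smul_cen hw'.1, Matrix.mul_neg, ← Matrix.mul_assoc, m.pl, m'.pl,
      smul_zero, neg_zero]
  · have e1 : X.D * h = w • X.p - h * X.D := eq_sub_of_add_eq e
    have e2 : h' * Y.D = w' • Y.p - Y.D * h' := eq_sub_of_add_eq' e'
    have e3 : X.D * t = -(t * Y.D) := eq_neg_of_add_eq_zero_left ht.cm
    have e4 : X.D * (h * t * h') = w • (t * h') + h * t * (Y.D * h') := by
      rw [← Matrix.mul_assoc, ← Matrix.mul_assoc, e1, Matrix.sub_mul, Matrix.smul_mul, ht.pl,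
        Matrix.mul_assoc h, e3]
      simp only [Matrix.mul_neg, sub_neg_eq_add, Matrix.add_mul, Matrix.smul_mul, Matrix.mul_assoc]
    have e5 : h * t * h' * Y.D = w' • (h * t) - h * t * (Y.D * h') := by
      rw [Matrix.mul_assoc (h * t), e2, Matrix.mul_sub, mul_smul_cen hw'.1,
        Matrix.mul_assoc h t Y.p, ht.pr]
    simp only [fromBlocks_multiply, fromBlocks_add, fromBlocks_smul, Matrix.mul_zero,
      Matrix.zero_mul, add_zero, zero_add, smul_zero, mul_smul_cen hw.1, mul_smul_cen hw'.1,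
      Matrix.smul_mul, Matrix.mul_neg, Matrix.neg_mul, e4, e5, ← smul_add, e, e', smul_smul,
      neg_zero, ← hw.1 w']
    congr 1
    abel

/-- A map to a torsion complex extends over a Koszul complex. -/
theorem kos (hI : Good I S) (hH : Good H S) (hle : I ≤ H) (K : Finset ι) {P : Cx A Λ}
    (hP : Ok I P) (hY : Obj H S K Y) {f : Matrix Y.J P.J A} (hf : Ch H Y P f) :
    ∃ (P' : Cx A Λ) (f' : Matrix Y.J P'.J A) (i : Matrix P'.J P.J A), Obj I S K P' ∧
      Ch H Y P' f' ∧ Ch I P' P i ∧ f' * i = f ∧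
      ∀ a b : ℤ, Wd (Set.Icc a b) P → Wd (Set.Icc a (b + K.card)) P' := by
  classical
  induction K using Finset.induction_on with
  | empty =>
    exact ⟨P, f, P.p, ⟨hP, fun _ h => absurd h (Finset.notMem_empty _)⟩, hf, Ch.id hP, hf.pr,
      fun a b h => by simpa using h⟩
  | insert x K hx ih =>
    obtain ⟨P', f', i, h1, h2, h3, h4, h5⟩ := ih (hY.anti (Finset.subset_insert x K))
    obtain ⟨w, hw, hn⟩ := hY.tor x (Finset.mem_insert_self x K)
    obtain ⟨s, m, e⟩ := hn.sand hH.mul hY.ok (hH.cen x w hw)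
    refine ⟨P'.cone P' (w • P'.p), fromCols f' (s * f'), fromRows P'.p 0 * i, a11_obj hI hw h1,
      a11_map hH.mul (hH.cen x w hw) m.hm m.pl e h2, (a11_inc h1.ok w).comp hI.mul h3, ?_,
      fun a b h => ?_⟩
    · rw [← Matrix.mul_assoc, fromCols_mul_fromRows, h2.pr, Matrix.mul_zero, add_zero, h4]
    · rw [Finset.card_insert_of_notMem hx, Nat.cast_add, Nat.cast_one, ← add_assoc]
      exact a11_wd (h5 a b h) _

/-- The same for two extensions with the same quotient. -/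
theorem kos2 (hH : Good H S) (K : Finset ι) {P : Cx A Λ} (hP : Ok H P) (hX : Obj H S K X)
    (hY : Obj H S K Y) {t t' : Matrix X.J Y.J A} (ht : Tw H X Y t) (ht' : Tw H X Y t')
    {a a' : Matrix X.J P.J A} {f : Matrix Y.J P.J A} (hf : Ch H (X.ext Y t) P (fromRows a f))
    (hf' : Ch H (X.ext Y t') P (fromRows a' f)) :
    ∃ (P' : Cx A Λ) (b b' : Matrix X.J P'.J A) (g : Matrix Y.J P'.J A) (i : Matrix P'.J P.J A),
      Obj H S K P' ∧ Ch H (X.ext Y t) P' (fromRows b g) ∧ Ch H (X.ext Y t') P' (fromRows b' g) ∧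
      Ch H P' P i ∧ g * i = f ∧
      ∀ c d : ℤ, Wd (Set.Icc c d) P → Wd (Set.Icc c (d + K.card)) P' := by
  classical
  have pr : ∀ {Q : Cx A Λ} {b : Matrix X.J Q.J A} {g : Matrix Y.J Q.J A},
      Ch H (X.ext Y t) Q (fromRows b g) → g * Q.p = g := by
    intro Q b g h
    have := h.pr
    rw [fromRows_mul] at this
    exact ((fromRows_ext_iff _ _ _ _).1 this).2
  induction K using Finset.induction_on with
  | empty =>
    exact ⟨P, a, a', f, P.p, ⟨hP, fun _ h => absurd h (Finset.notMem_empty _)⟩, hf, hf', Ch.id hP,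
      pr hf, fun a b h => by simpa using h⟩
  | insert x K hx ih =>
    obtain ⟨P', b, b', g, i, h1, h2, h2', h3, h4, h5⟩ :=
      ih (hX.anti (Finset.subset_insert x K)) (hY.anti (Finset.subset_insert x K))
    obtain ⟨w, hw, hn⟩ := hX.tor x (Finset.mem_insert_self x K)
    obtain ⟨w', hw', hn'⟩ := hY.tor x (Finset.mem_insert_self x K)
    obtain ⟨s, m, e⟩ := hn.sand hH.mul hX.ok (hH.cen x w hw)
    obtain ⟨s', m', e'⟩ := hn'.sand hH.mul hY.ok (hH.cen x w' hw')
    obtain ⟨c, hc⟩ := a11_ext hH.mul (hH.sc hw) (hH.sc hw') ht m e m' e' h2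
    obtain ⟨c', hc'⟩ := a11_ext hH.mul (hH.sc hw) (hH.sc hw') ht' m e m' e' h2'
    refine ⟨P'.cone P' ((w * w') • P'.p), c, c', _, fromRows P'.p 0 * i,
      a11_obj hH (mul_mem hw hw') h1, hc, hc', (a11_inc h1.ok _).comp hH.mul h3, ?_,
      fun a b h => ?_⟩
    · rw [← Matrix.mul_assoc, fromCols_mul_fromRows, pr h2, Matrix.mul_zero, add_zero, h4]
    · rw [Finset.card_insert_of_notMem hx, Nat.cast_add, Nat.cast_one, ← add_assoc]
      exact a11_wd (h5 a b h) _

end Pool.Agent.MP_f7db47_al.KN
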