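import Pool.Agent.MP_f7db47_al.KN.A2

/-!
Complexes over an ideal.
-/

namespace Pool.Agent.MP_f7db47_al.KN

open Matrix

universe v w

variable {A : Type v} [Ring A] {Λ ι : Type} {H H' I I' : Fam A Λ} {S : ι → Submonoid A}
  {K K' : Finset ι} {W : Set ℤ} {X X' Y Y' Z : Cx A Λ} {w w' : A}

theorem a12a_com (hX : Ok H X) (s : Matrix X.J X.J A) :
    X.D * (X.p * s) + X.p * s * X.D = X.p * (X.D * s + s * X.D) := by
  rw [Matrix.mul_add, ← Matrix.mul_assoc, ← Matrix.mul_assoc, ← Matrix.mul_assoc, hX.Dp, hX.pD]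

theorem Mp.idl_left (hI : Idl I H) {d : ℤ} {f : Matrix Y.J X.J A} (hY : Hm I 0 Y.t Y.t Y.p)
    (h : Mp H d Y X f) : Mp I d Y X f :=
  ⟨h.pl ▸ Hm.mul3 hI.right hY h.hm (zero_add d).symm, h.pl, h.pr⟩

theorem Mp.idl_right (hI : Idl I H) {d : ℤ} {f : Matrix Y.J X.J A} (hX : Hm I 0 X.t X.t X.p)
    (h : Mp H d Y X f) : Mp I d Y X f :=
  ⟨h.pr ▸ Hm.mul3 hI.left h.hm hX (add_zero d).symm, h.pl, h.pr⟩

theorem Idl.lr (hI : Idl I H) : LR I := fun _ _ _ _ _ hx hy => hI.left (hI.le _ _ hx) hy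

theorem Ok.idl (hI : Idl I H) (hp : Hm I 0 X.t X.t X.p) (h : Ok H X) : Ok I X :=
  ⟨hp, h.pD ▸ Hm.mul3 hI.right hp h.hD (zero_add _).symm, h.pp, h.pD, h.Dp, h.DD⟩

theorem Nul.idl (hH : LR H) (hI : Idl I H) (hX : Ok I X) (hw : ∀ x, w * x = x * w)
    (h : Nul H w X) : Nul I w X := by
  obtain ⟨s, h1, h2⟩ := h
  have _ := hH
  exact ⟨X.p * s, Hm.mul3 hI.right hX.hp h1 rfl, by
    rw [a12a_com hX, h2, mul_smul_cen hw, hX.pp]⟩

theorem Obj.idl (hH : Good H S) (hI : Idl I H) (hp : Hm I 0 X.t X.t X.p) (h : Obj H S K X) :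
    Obj I S K X :=
  ⟨h.ok.idl hI hp, fun a ha => (h.tor a ha).imp fun w c =>
    ⟨c.1, c.2.idl hH.mul hI (h.ok.idl hI hp) (hH.cen a w c.1)⟩⟩

theorem HE.idl (hH : LR H) (hI : Idl I H) (hX : Ok I X) (hY : Ok I Y) (h : HE H X Y) :
    HE I X Y := by
  obtain ⟨f, g, a, b, c⟩ := h
  have _ := hH
  refine ⟨f, g, X.p * a, Y.p * b, ⟨c.hf.toMp.idl_left hI hY.hp, c.hf.cm⟩,
    ⟨c.hg.toMp.idl_left hI hX.hp, c.hg.cm⟩, Hm.mul3 hI.right hX.hp c.hh rfl,
    Hm.mul3 hI.right hY.hp c.hk rfl, ?_, ?_⟩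
  · rw [a12a_com hX, ← c.hg.pl, Matrix.mul_assoc, ← Matrix.mul_add, c.gf, hX.pp]
  · rw [a12a_com hY, ← c.hf.pl, Matrix.mul_assoc, ← Matrix.mul_add, c.fg, hY.pp]

theorem NulMod.he (hH : LR H) (hI : Idl I H) (hw : Sc H w) (h : NulMod H I w X) (e : HE H X Y) :
    NulMod H I w Y := by
  obtain ⟨f, g, a, b, c⟩ := e
  obtain ⟨s, h1, h2⟩ := h
  refine ⟨f * s * g + w • b,
    ((c.hf.hm.mul hH h1 (e := 1) rfl).mul hH c.hg.hm rfl).add (c.hk.smul hw), ?_⟩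
  have e1 : w • Y.p - (Y.D * (f * s * g + w • b) + (f * s * g + w • b) * Y.D)
      = f * (w • X.p - (X.D * s + s * X.D)) * g := by
    have a1 : Y.D * (f * s * g) = f * (X.D * s) * g := by
      simp only [← Matrix.mul_assoc, c.hf.cm]
    have a2 : f * s * g * Y.D = f * (s * X.D) * g := by
      simp only [Matrix.mul_assoc, c.hg.cm]
    rw [Matrix.mul_add, Matrix.add_mul, a1, a2, mul_smul_cen hw.1, Matrix.smul_mul,
      Matrix.mul_sub, Matrix.sub_mul, Matrix.mul_add, Matrix.add_mul, mul_smul_cen hw.1,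
      c.hf.pr, Matrix.smul_mul, ← c.fg, smul_add, smul_add]
    abel
  rw [e1]
  exact Hm.mul3 hI.right (Hm.mul3 hI.left c.hf.hm h2 (e := 0) rfl) c.hg.hm rfl

theorem NulMod.ext (hI : Idl I H) (hw : Sc I w) {t : Matrix X.J Y.J A} (ht : Tw H X Y t)
    (hY : Ok I Y) (h : NulMod H I w X) : NulMod H I w (X.ext Y t) := by
  obtain ⟨s, h1, h2⟩ := h
  refine ⟨fromBlocks s 0 0 0, Hm.blocks h1 (Hm.zero _ _) (Hm.zero _ _) (Hm.zero _ _), ?_⟩
  have e1 : w • (X.ext Y t).p - ((X.ext Y t).D * fromBlocks s 0 0 0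
      + fromBlocks s 0 0 0 * (X.ext Y t).D)
      = fromBlocks (w • X.p - (X.D * s + s * X.D)) (-(s * t)) 0 (w • Y.p) := by
    simp only [fromBlocks_multiply, fromBlocks_smul, fromBlocks_add, sub_eq_add_neg,
      fromBlocks_neg]
    simp
  rw [e1]
  exact Hm.blocks h2 (Hm.mul3 hI.left h1 (ht.toMp.idl_right hI hY.hp).hm rfl).neg (Hm.zero _ _)
    (hY.hp.smul hw)

theorem NulMod.quo (hH : LR H) {I₁ I₂ : Fam A Λ} (h1 : Idl I₁ H) (h2 : Idl I₂ H)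
    (h21 : ∀ ⦃a b c : Λ⦄ ⦃x y : A⦄, x ∈ I₂ a b → y ∈ I₁ b c → x * y ∈ I a c) (hX : Ok H X)
    (hw : ∀ x, w * x = x * w) {e : Matrix X.J X.J A} (he : Cut H X e) (e1 : Hm I₁ 0 X.t X.t e)
    (e2 : Hm I₂ 0 X.t X.t (X.p - e)) (h : Nul H w X) : NulMod H I w (X.quo e) := by
  obtain ⟨s, h3, h4⟩ := h
  have hq : Hm H 0 X.t X.t (X.p - e) := hX.hp.sub he.hm
  refine ⟨(X.p - e) * s * (X.p - e), (hq.mul hH h3 (e := 1) rfl).mul hH hq rfl, ?_⟩
  have a1 : (X.p - e) * X.p = X.p - e := by rw [sub_mul, hX.pp, he.ep]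
  have a2 : (X.p - e) * (X.p - e) = X.p - e := by
    rw [mul_sub, a1, sub_mul, he.pe, he.ee, sub_self, sub_zero]
  have a3 : (X.p - e) * X.D * (X.p - e) = (X.p - e) * X.D := by
    rw [mul_sub, mul_assoc, hX.Dp, sub_mul _ _ X.D, sub_mul, hX.pD, he.De, sub_self, sub_zero]
  have a4 : e * X.D = X.D - (X.p - e) * X.D := by rw [sub_mul, hX.pD, sub_sub_cancel]
  have e3 : w • (X.quo e).p - ((X.quo e).D * ((X.p - e) * s * (X.p - e))
      + (X.p - e) * s * (X.p - e) * (X.quo e).D)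
      = (X.p - e) * s * (e * (X.D * (X.p - e))) := by
    show w • (X.p - e) - ((X.p - e) * X.D * ((X.p - e) * s * (X.p - e))
      + (X.p - e) * s * (X.p - e) * ((X.p - e) * X.D)) = _
    rw [← mul_assoc e, a4]
    generalize X.p - e = q at a1 a2 a3 ⊢
    have b1 : w • q = q * (X.D * s + s * X.D) * q := by
      rw [h4, mul_smul_cen hw, a1, smul_mul_assoc, a2]
    have b2 : q * X.D * (q * s * q) = q * X.D * s * q := by
      simp only [← mul_assoc, a3]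
    have b3 : q * s * q * (q * X.D) = q * s * (q * X.D * q) := by
      rw [a3, mul_assoc (q * s), ← mul_assoc q q, a2]
    rw [b1, b2, b3]
    noncomm_ring
  rw [e3]
  exact Hm.mul3 h21 (Hm.mul3 h2.right e2 h3 (e := 1) rfl)
    (Hm.mul3 h1.right e1 (hX.hD.mul hH hq (e := -1) rfl) (e := -1) rfl) rfl

/-- Left units for all columns of a matrix, degree by degree. -/
theorem LU.mat (h : LU I) {J J' : Type} [Fintype J] [DecidableEq J] [Fintype J'] {d : ℤ}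
    {s : J → Λ × ℤ} {t : J' → Λ × ℤ} {f : Matrix J J' A} (hf : Hm I d s t f) :
    ∃ e : Matrix J J A, Hm I 0 s s e ∧ e * e = e ∧ e * f = f ∧ ∀ i j, i ≠ j → e i j = 0 := by
  classical
  have h1 : ∀ i, ∃ e ∈ I (s i).1 (s i).1, e * e = e ∧ ∀ j, e * f i j = f i j := fun i => by
    obtain ⟨e, a1, a2, a3⟩ := h (s i).1 (Finset.univ.image (f i)) fun x hx => by
      obtain ⟨j, -, rfl⟩ := Finset.mem_image.1 hx
      exact ⟨_, (hf i j).1⟩
    exact ⟨e, a1, a2, fun j => a3 _ (Finset.mem_image_of_mem _ (Finset.mem_univ j))⟩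
  choose e a1 a2 a3 using h1
  refine ⟨diagonal e, fun i j => ?_, ?_, ?_, fun i j => diagonal_apply_ne e⟩
  · by_cases hij : i = j
    · subst hij
      rw [diagonal_apply_eq]
      exact ⟨a1 i, fun _ => (add_zero _).symm⟩
    · rw [diagonal_apply_ne e hij]
      exact ⟨zero_mem _, fun c => absurd rfl c⟩
  · rw [diagonal_mul_diagonal]
    exact congrArg _ (funext a2)
  · ext i j
    rw [diagonal_mul, a3]

end Pool.Agent.MP_f7db47_al.KN
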