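import Pool.Agent.MP_f7db47_al.KN.A1

/-!
Extension by zero and reindexing. No closure property of the family is needed.
-/

namespace Pool.Agent.MP_f7db47_al.KN

open Matrix

universe v w

variable {A : Type v} [Ring A] {Λ ι : Type} {H H' I I' : Fam A Λ} {S : ι → Submonoid A}
  {K K' : Finset ι} {W : Set ℤ} {X X' Y Y' Z : Cx A Λ} {w w' : A}

/-- The inclusion and the projection as matrices. -/
structure a3_Em (H : Fam A Λ) (X' X : Cx A Λ) (E : Matrix X.J X'.J A) (R : Matrix X'.J X.J A) :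
    Prop where
  RE : R * E = 1
  p : X.p = E * X'.p * R
  D : X.D = E * X'.D * R
  sm : ∀ (w : A) (M : Matrix X'.J X'.J A), E * (w • M) = w • (E * M)
  lE : ∀ {d : ℤ} {L : Type} {u : L → Λ × ℤ} {M : Matrix X'.J L A},
    Hm H d X'.t u M → Hm H d X.t u (E * M)
  lR : ∀ {d : ℤ} {L : Type} {u : L → Λ × ℤ} {M : Matrix X.J L A},
    Hm H d X.t u M → Hm H d X'.t u (R * M)
  rE : ∀ {d : ℤ} {L : Type} {u : L → Λ × ℤ} {M : Matrix L X.J A},
    Hm H d u X.t M → Hm H d u X'.t (M * E)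
  rR : ∀ {d : ℤ} {L : Type} {u : L → Λ × ℤ} {M : Matrix L X'.J A},
    Hm H d u X'.t M → Hm H d u X.t (M * R)

theorem a3_em (H : Fam A Λ) (h : Sub X' X) : ∃ E R, a3_Em H X' X E R := by
  obtain ⟨e, he, ht, hp, hD, sp, sD⟩ := h
  let E : Matrix X.J X'.J A := of fun i j => if i = e j then 1 else 0
  let R : Matrix X'.J X.J A := of fun i j => if j = e i then 1 else 0
  have rE : ∀ {L : Type} (M : Matrix L X.J A) i j, (M * E) i j = M i (e j) := fun M i j => by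
    simp [E, mul_apply]
  have lR : ∀ {L : Type} (M : Matrix X.J L A) i j, (R * M) i j = M (e i) j := fun M i j => by
    simp [R, mul_apply]
  have lE : ∀ {L : Type} (M : Matrix X'.J L A) i j, (E * M) (e i) j = M i j := fun M i j => by
    simp [E, mul_apply, he.eq_iff]
  have rR : ∀ {L : Type} (M : Matrix L X'.J A) i j, (M * R) i (e j) = M i j := fun M i j => by
    simp [R, mul_apply, he.eq_iff]
  have lE0 : ∀ {L : Type} (M : Matrix X'.J L A) i j, i ∉ Set.range e → (E * M) i j = 0 :=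
    fun M i j hi => Finset.sum_eq_zero fun k _ => by
      simp [E, show i ≠ e k from fun c => hi ⟨k, c.symm⟩]
  have rR0 : ∀ {L : Type} (M : Matrix L X'.J A) i j, j ∉ Set.range e → (M * R) i j = 0 :=
    fun M i j hi => Finset.sum_eq_zero fun k _ => by
      simp [R, show j ≠ e k from fun c => hi ⟨k, c.symm⟩]
  have key : ∀ M : Matrix X.J X.J A, (∀ i j, M i j ≠ 0 → i ∈ Set.range e ∧ j ∈ Set.range e) →
      M = E * M.submatrix e e * R := fun M hM => by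
    ext i j
    by_cases hj : j ∈ Set.range e
    · obtain ⟨b, rfl⟩ := hj
      rw [rR]
      by_cases hi : i ∈ Set.range e
      · obtain ⟨a, rfl⟩ := hi
        rw [lE, submatrix_apply]
      · rw [lE0 _ _ _ hi]
        exact by_contra fun c => hi (hM _ _ c).1
    · rw [rR0 _ _ _ hj]
      exact by_contra fun c => hj (hM _ _ c).2
  refine ⟨E, R, ?_, hp ▸ key _ sp, hD ▸ key _ sD, fun w M => ?_, fun hM i j => ?_,
    fun hM i j => ?_, fun hM i j => ?_, fun hM i j => ?_⟩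
  · ext i j
    simp [lR, E, he.eq_iff, one_apply]
  · ext i j
    by_cases hi : i ∈ Set.range e
    · obtain ⟨a, rfl⟩ := hi
      rw [lE, Matrix.smul_apply, Matrix.smul_apply, lE]
    · rw [lE0 _ _ _ hi, Matrix.smul_apply, lE0 _ _ _ hi, smul_zero]
  · by_cases hi : i ∈ Set.range e
    · obtain ⟨a, rfl⟩ := hi
      rw [lE, ← ht]
      exact hM a j
    · rw [lE0 _ _ _ hi]
      exact ⟨zero_mem _, fun c => absurd rfl c⟩
  · rw [lR, ht]
    exact hM _ _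
  · rw [rE, ht]
    exact hM _ _
  · by_cases hj : j ∈ Set.range e
    · obtain ⟨a, rfl⟩ := hj
      rw [rR, ← ht]
      exact hM i a
    · rw [rR0 _ _ _ hj]
      exact ⟨zero_mem _, fun c => absurd rfl c⟩

section
variable {E : Matrix X.J X'.J A} {R : Matrix X'.J X.J A} (c : a3_Em H X' X E R)
include c

theorem a3_Em.can {L : Type} (M : Matrix X'.J L A) : R * (E * M) = M := by
  rw [← Matrix.mul_assoc, c.RE, Matrix.one_mul]

theorem a3_Em.sand (M : Matrix X'.J X'.J A) : R * (E * M * R) * E = M := by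
  simp only [Matrix.mul_assoc, c.can, c.RE, Matrix.mul_one]

theorem a3_Em.pE : X.p * E = E * X'.p := by
  rw [c.p, Matrix.mul_assoc, c.RE, Matrix.mul_one]

theorem a3_Em.DE : X.D * E = E * X'.D := by
  rw [c.D, Matrix.mul_assoc, c.RE, Matrix.mul_one]

theorem a3_Em.Rp : R * X.p = X'.p * R := by rw [c.p, Matrix.mul_assoc E, c.can]

theorem a3_Em.RD : R * X.D = X'.D * R := by rw [c.D, Matrix.mul_assoc E, c.can]

theorem a3_Em.up (h : Matrix X'.J X'.J A) :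
    X.D * (E * h * R) + E * h * R * X.D = E * (X'.D * h + h * X'.D) * R := by
  rw [c.D]
  simp only [Matrix.mul_assoc, c.can, Matrix.mul_add, Matrix.add_mul]

theorem a3_Em.down (h : Matrix X.J X.J A) :
    X'.D * (R * h * E) + R * h * E * X'.D = R * (X.D * h + h * X.D) * E := by
  rw [c.D]
  simp only [Matrix.mul_assoc, c.can, c.RE, Matrix.mul_add, Matrix.add_mul, Matrix.mul_one]

theorem a3_Em.mul_iff {a b d : Matrix X'.J X'.J A} :
    a * b = d ↔ E * a * R * (E * b * R) = E * d * R := by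
  have e : E * a * R * (E * b * R) = E * (a * b) * R := by simp only [Matrix.mul_assoc, c.can]
  rw [e]
  exact ⟨fun h => by rw [h], fun h => by rw [← c.sand (a * b), h, c.sand]⟩

theorem a3_Em.hm_iff {d : ℤ} {a : Matrix X'.J X'.J A} :
    Hm H d X'.t X'.t a ↔ Hm H d X.t X.t (E * a * R) :=
  ⟨fun h => c.rR (c.lE h), fun h => c.sand a ▸ c.rE (c.lR h)⟩

end

theorem a3_symm (h : HE H X Y) : HE H Y X := by
  obtain ⟨f, g, a, b, c⟩ := h
  exact ⟨g, f, b, a, c.hg, c.hf, c.hk, c.hh, c.fg, c.gf⟩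

theorem Sub.refl (X : Cx A Λ) : Sub X X :=
  ⟨id, Function.injective_id, fun _ => rfl, rfl, rfl, fun i j _ => ⟨⟨i, rfl⟩, j, rfl⟩,
    fun i j _ => ⟨⟨i, rfl⟩, j, rfl⟩⟩

theorem Sub.trans (h : Sub X Y) (h' : Sub Y Z) : Sub X Z := by
  obtain ⟨e, he, ht, hp, hD, sp, sD⟩ := h
  obtain ⟨e', he', ht', hp', hD', sp', sD'⟩ := h'
  refine ⟨e' ∘ e, he'.comp he, fun i => (ht i).trans (ht' _), by rw [hp, hp']; rfl,
    by rw [hD, hD']; rfl, fun i j c => ?_, fun i j c => ?_⟩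
  · obtain ⟨⟨a, rfl⟩, b, rfl⟩ := sp' i j c
    obtain ⟨⟨a, rfl⟩, b, rfl⟩ := sp a b (by rw [hp']; exact c)
    exact ⟨⟨a, rfl⟩, b, rfl⟩
  · obtain ⟨⟨a, rfl⟩, b, rfl⟩ := sD' i j c
    obtain ⟨⟨a, rfl⟩, b, rfl⟩ := sD a b (by rw [hD']; exact c)
    exact ⟨⟨a, rfl⟩, b, rfl⟩

theorem Sub.of_equiv (e : X'.J ≃ X.J) (ht : ∀ i, X'.t i = X.t (e i))
    (hp : X'.p = X.p.submatrix e e) (hD : X'.D = X.D.submatrix e e) : Sub X' X ∧ Sub X X' :=
  ⟨⟨e, e.injective, ht, hp, hD, fun i j _ => ⟨e.surjective i, e.surjective j⟩,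
      fun i j _ => ⟨e.surjective i, e.surjective j⟩⟩,
    e.symm, e.symm.injective, fun i => by rw [ht, e.apply_symm_apply], by simp [hp], by simp [hD],
      fun i j _ => ⟨e.symm.surjective i, e.symm.surjective j⟩,
      fun i j _ => ⟨e.symm.surjective i, e.symm.surjective j⟩⟩

theorem Sub.ok_iff (h : Sub X' X) : Ok H X' ↔ Ok H X := by
  obtain ⟨E, R, c⟩ := a3_em H h
  have z : E * (0 : Matrix X'.J X'.J A) * R = 0 := by simp
  constructor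
  · intro o
    refine ⟨?_, ?_, ?_, ?_, ?_, ?_⟩ <;> simp only [c.p, c.D]
    exacts [c.hm_iff.1 o.hp, c.hm_iff.1 o.hD, c.mul_iff.1 o.pp, c.mul_iff.1 o.pD,
      c.mul_iff.1 o.Dp, (c.mul_iff.1 o.DD).trans z]
  · rintro ⟨a1, a2, a3, a4, a5, a6⟩
    simp only [c.p, c.D] at a1 a2 a3 a4 a5 a6
    exact ⟨c.hm_iff.2 a1, c.hm_iff.2 a2, c.mul_iff.2 a3, c.mul_iff.2 a4, c.mul_iff.2 a5,
      c.mul_iff.2 (a6.trans z.symm)⟩

theorem Sub.nul_iff (h : Sub X' X) : Nul H w X' ↔ Nul H w X := by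
  obtain ⟨E, R, c⟩ := a3_em H h
  have e : w • X.p = E * (w • X'.p) * R := by rw [c.sm, Matrix.smul_mul, ← c.p]
  constructor
  · rintro ⟨s, h1, h2⟩
    exact ⟨E * s * R, c.hm_iff.1 h1, by rw [c.up, h2, e]⟩
  · rintro ⟨s, h1, h2⟩
    exact ⟨R * s * E, c.rE (c.lR h1), by rw [c.down, h2, e, c.sand]⟩

theorem Sub.obj_iff (h : Sub X' X) : Obj H S K X' ↔ Obj H S K X :=
  ⟨fun o => ⟨h.ok_iff.1 o.ok, fun a ha => (o.tor a ha).imp fun _ c => ⟨c.1, h.nul_iff.1 c.2⟩⟩,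
    fun o => ⟨h.ok_iff.2 o.ok, fun a ha => (o.tor a ha).imp fun _ c => ⟨c.1, h.nul_iff.2 c.2⟩⟩⟩

theorem Sub.he_left (h : Sub X' X) : HE H X' Y ↔ HE H X Y := by
  obtain ⟨E, R, c⟩ := a3_em H h
  constructor
  · rintro ⟨f, g, s, k, hf, hg, hs, hk, gf, fg⟩
    refine ⟨f * R, E * g, E * s * R, k, ⟨⟨c.rR hf.hm, ?_, ?_⟩, ?_⟩, ⟨⟨c.lE hg.hm, ?_, ?_⟩, ?_⟩,
      c.hm_iff.1 hs, hk, ?_, ?_⟩
    · rw [← Matrix.mul_assoc, hf.pl]
    · rw [Matrix.mul_assoc, c.Rp, ← Matrix.mul_assoc, hf.pr]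
    · rw [← Matrix.mul_assoc, hf.cm, Matrix.mul_assoc, Matrix.mul_assoc, c.RD]
    · rw [← Matrix.mul_assoc, c.pE, Matrix.mul_assoc, hg.pl]
    · rw [Matrix.mul_assoc, hg.pr]
    · rw [← Matrix.mul_assoc, c.DE, Matrix.mul_assoc, Matrix.mul_assoc, hg.cm]
    · rw [c.up, c.p, ← gf]
      simp only [Matrix.mul_assoc, Matrix.mul_add, Matrix.add_mul]
    · rw [Matrix.mul_assoc, c.can, fg]
  · rintro ⟨f, g, s, k, hf, hg, hs, hk, gf, fg⟩
    refine ⟨f * E, R * g, R * s * E, k, ⟨⟨c.rE hf.hm, ?_, ?_⟩, ?_⟩, ⟨⟨c.lR hg.hm, ?_, ?_⟩, ?_⟩,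
      c.rE (c.lR hs), hk, ?_, ?_⟩
    · rw [← Matrix.mul_assoc, hf.pl]
    · rw [Matrix.mul_assoc, ← c.pE, ← Matrix.mul_assoc, hf.pr]
    · rw [← Matrix.mul_assoc, hf.cm, Matrix.mul_assoc, Matrix.mul_assoc, c.DE]
    · rw [← Matrix.mul_assoc, ← c.Rp, Matrix.mul_assoc, hg.pl]
    · rw [Matrix.mul_assoc, hg.pr]
    · rw [← Matrix.mul_assoc, ← c.RD, Matrix.mul_assoc, Matrix.mul_assoc, hg.cm]
    · rw [c.down, ← c.sand X'.p, ← c.p, ← gf]
      simp only [Matrix.mul_assoc, Matrix.mul_add, Matrix.add_mul]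
    · have e : E * (R * g) = g := by
        rw [← hg.pl, ← Matrix.mul_assoc R, c.Rp, c.p]
        simp only [Matrix.mul_assoc]
      rw [Matrix.mul_assoc, e, fg]

theorem Sub.he_right (h : Sub X' X) : HE H Y X' ↔ HE H Y X :=
  ⟨fun c => a3_symm (h.he_left.1 (a3_symm c)), fun c => a3_symm (h.he_left.2 (a3_symm c))⟩

theorem Sub.he (h : Sub X' X) (hX : Ok H X) : HE H X' X :=
  have c : Ch H X X X.p := ⟨⟨hX.hp, hX.pp, hX.pp⟩, hX.Dp.trans hX.pD.symm⟩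
  h.he_left.2 ⟨X.p, X.p, 0, 0, c, c, Hm.zero _ _, Hm.zero _ _, by simp [hX.pp], by simp [hX.pp]⟩

theorem Sub.sum (h : Sub X' X) (h' : Sub Y' Y) : Sub (X'.sum Y') (X.sum Y) := by
  obtain ⟨e, he, ht, hp, hD, sp, sD⟩ := h
  obtain ⟨e', he', ht', hp', hD', sp', sD'⟩ := h'
  have key : ∀ (M : Matrix X.J X.J A) (N : Matrix Y.J Y.J A),
      (∀ i j, M i j ≠ 0 → i ∈ Set.range e ∧ j ∈ Set.range e) →
      (∀ i j, N i j ≠ 0 → i ∈ Set.range e' ∧ j ∈ Set.range e') → ∀ i j,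
      fromBlocks M 0 0 N i j ≠ 0 →
        i ∈ Set.range (Sum.map e e') ∧ j ∈ Set.range (Sum.map e e') := by
    rintro M N hM hN (i | i) (j | j) c
    · obtain ⟨⟨a, rfl⟩, b, rfl⟩ := hM i j c
      exact ⟨⟨.inl a, rfl⟩, .inl b, rfl⟩
    · exact absurd rfl c
    · exact absurd rfl c
    · obtain ⟨⟨a, rfl⟩, b, rfl⟩ := hN i j c
      exact ⟨⟨.inr a, rfl⟩, .inr b, rfl⟩
  refine ⟨Sum.map e e', he.sumMap he', ?_, ?_, ?_, key _ _ sp sp', key _ _ sD sD'⟩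
  · rintro (i | i)
    exacts [ht i, ht' i]
  · simp only [hp, hp']
    ext (i | i) (j | j) <;> rfl
  · simp only [hD, hD']
    ext (i | i) (j | j) <;> rfl

theorem Sub.cert_iff (h : Sub X' X) : Cert H S K W X' ↔ Cert H S K W X :=
  ⟨fun ⟨P, Q, B, t, t', c, e, e'⟩ =>
      ⟨P, Q, B, t, t', c, (h.sum (Sub.refl B)).he_right.1 e, e'⟩,
    fun ⟨P, Q, B, t, t', c, e, e'⟩ =>
      ⟨P, Q, B, t, t', c, (h.sum (Sub.refl B)).he_right.2 e, e'⟩⟩

theorem Sub.wd (h : Sub X' X) (hW : Wd W X) : Wd W X' := by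
  obtain ⟨e, -, ht, -⟩ := h
  exact fun j => ht j ▸ hW (e j)

/-- Restriction to a set of indices that supports the idempotent. -/
theorem Sub.res (hX : Ok H X) (U : X.J → Prop) [DecidablePred U]
    (hU : ∀ i j, X.p i j ≠ 0 → U i ∧ U j) : Sub (X.res (Subtype.val : {j // U j} → X.J)) X := by
  refine ⟨Subtype.val, Subtype.val_injective, fun _ => rfl, rfl, rfl, fun i j c =>
    ⟨⟨⟨i, (hU i j c).1⟩, rfl⟩, ⟨j, (hU i j c).2⟩, rfl⟩, fun i j c => ⟨⟨⟨i, ?_⟩, rfl⟩, ⟨j, ?_⟩, rfl⟩⟩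
  · rw [← hX.pD, mul_apply] at c
    obtain ⟨k, -, hk⟩ := Finset.exists_ne_zero_of_sum_ne_zero c
    exact (hU _ _ (left_ne_zero_of_mul hk)).1
  · rw [← hX.Dp, mul_apply] at c
    obtain ⟨k, -, hk⟩ := Finset.exists_ne_zero_of_sum_ne_zero c
    exact (hU _ _ (right_ne_zero_of_mul hk)).2

theorem trim (hX : Ok H X) (hW : InW W X) : ∃ X', Wd W X' ∧ Sub X' X := by
  classical
  refine ⟨X.res (Subtype.val : {j // (X.t j).2 ∈ W} → X.J), fun j => j.2,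
    Sub.res hX (fun j => (X.t j).2 ∈ W) fun i j c => ⟨hW i j c, ?_⟩⟩
  have := (hX.hp i j).2 c
  rw [add_zero] at this
  exact this ▸ hW i j c

theorem Std.trim (hX : Ok H X) (h : Std X) : ∃ X', Sub X' X ∧ X'.p = 1 := by
  classical
  refine ⟨_, Sub.res hX (fun j => X.p j j = 1) fun i j c => ?_, ?_⟩
  · obtain rfl : i = j := by_contra fun e => c (h.1 i j e)
    exact ⟨(h.2 i).resolve_right c, (h.2 i).resolve_right c⟩
  · ext i j
    by_cases e : i = j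
    · rw [e, one_apply_eq]
      exact j.2
    · rw [one_apply_ne e]
      exact h.1 _ _ fun c => e (Subtype.ext c)

theorem Stdz.one (h : Stdz H Std) : Stdz H fun Y => Y.p = 1 := by
  intro X hX
  obtain ⟨Y, o, s, e⟩ := h X hX
  obtain ⟨Y', c, c'⟩ := s.trim o
  exact ⟨Y', c.ok_iff.2 o, c', c.he_right.2 e⟩

theorem sub_sum_comm (X Y : Cx A Λ) : Sub (X.sum Y) (Y.sum X) :=
  (Sub.of_equiv (X' := X.sum Y) (X := Y.sum X) (Equiv.sumComm _ _) (by rintro (i | i) <;> rfl)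
    (by ext (i | i) (j | j) <;> rfl) (by ext (i | i) (j | j) <;> rfl)).1

theorem sub_sum_assoc (X Y Z : Cx A Λ) :
    Sub ((X.sum Y).sum Z) (X.sum (Y.sum Z)) ∧ Sub (X.sum (Y.sum Z)) ((X.sum Y).sum Z) :=
  Sub.of_equiv (Equiv.sumAssoc _ _ _) (by rintro ((i | i) | i) <;> rfl)
    (by ext ((i | i) | i) ((j | j) | j) <;> rfl) (by ext ((i | i) | i) ((j | j) | j) <;> rfl)

theorem sub_zero_sum (X : Cx A Λ) : Sub X ((Cx.zero A Λ).sum X) ∧ Sub X (X.sum (Cx.zero A Λ)) :=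
  ⟨(Sub.of_equiv (X := (Cx.zero A Λ).sum X) (Equiv.emptySum Empty _).symm (fun _ => rfl) rfl
      rfl).1,
    (Sub.of_equiv (X := X.sum (Cx.zero A Λ)) (Equiv.sumEmpty _ Empty).symm (fun _ => rfl) rfl
      rfl).1⟩

theorem sub_sh_sh (X : Cx A Λ) (n : ℤ) : Sub X ((X.sh n).sh (-n)) :=
  (Sub.of_equiv (X' := X) (X := (X.sh n).sh (-n)) (Equiv.refl X.J) (fun _ => by simp) rfl
    (by simp)).1

theorem sub_ext_assoc (t : Matrix X.J Y.J A) (a : Matrix X.J Z.J A) (b : Matrix Y.J Z.J A) :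
    Sub ((X.ext Y t).ext Z (fromRows a b)) (X.ext (Y.ext Z b) (fromCols t a)) ∧
    Sub (X.ext (Y.ext Z b) (fromCols t a)) ((X.ext Y t).ext Z (fromRows a b)) :=
  Sub.of_equiv (Equiv.sumAssoc _ _ _) (by rintro ((i | i) | i) <;> rfl)
    (by ext ((i | i) | i) ((j | j) | j) <;> rfl) (by ext ((i | i) | i) ((j | j) | j) <;> rfl)

theorem sub_ext_sum (t : Matrix X.J Y.J A) (t' : Matrix X'.J Y'.J A) :
    Sub ((X.sum X').ext (Y.sum Y') (fromBlocks t 0 0 t')) ((X.ext Y t).sum (X'.ext Y' t')) :=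
  (Sub.of_equiv (X' := (X.sum X').ext (Y.sum Y') (fromBlocks t 0 0 t'))
    (X := (X.ext Y t).sum (X'.ext Y' t')) (Equiv.sumSumSumComm _ _ _ _)
    (by rintro ((i | i) | (i | i)) <;> rfl)
    (by ext ((i | i) | (i | i)) ((j | j) | (j | j)) <;> rfl)
    (by ext ((i | i) | (i | i)) ((j | j) | (j | j)) <;> rfl)).1

theorem a3_rows {t : Matrix X.J Y.J A} {a : Matrix X.J Z.J A} {b : Matrix Y.J Z.J A} :
    Tw H (X.ext Y t) Z (fromRows a b) ↔
      (Mp H (-1) X Z a ∧ X.D * a + t * b + a * Z.D = 0) ∧ Tw H Y Z b := by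
  have z : (0 : Matrix (X.J ⊕ Y.J) Z.J A) = fromRows 0 0 := fromRows_zero.symm
  have ad : ∀ (a a' : Matrix X.J Z.J A) (b b' : Matrix Y.J Z.J A),
      fromRows a b + fromRows a' b' = fromRows (a + a') (b + b') := fun _ _ _ _ => by
    ext (i | i) j <;> rfl
  constructor
  · rintro ⟨⟨h1, h2, h3⟩, h4⟩
    simp only [fromBlocks_mul_fromRows, fromRows_mul, ad, z, fromRows_ext_iff, Matrix.zero_mul,
      add_zero, zero_add] at h2 h3 h4
    exact ⟨⟨⟨fun i j => h1 (.inl i) j, h2.1, h3.1⟩, h4.1⟩,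
      ⟨fun i j => h1 (.inr i) j, h2.2, h3.2⟩, h4.2⟩
  · rintro ⟨⟨h1, h2⟩, h3⟩
    refine ⟨⟨h1.hm.rows h3.hm, ?_, ?_⟩, ?_⟩ <;>
      simp only [fromBlocks_mul_fromRows, fromRows_mul, ad, z, fromRows_ext_iff, Matrix.zero_mul,
        add_zero, zero_add]
    exacts [⟨h1.pl, h3.pl⟩, ⟨h1.pr, h3.pr⟩, ⟨h2, h3.cm⟩]

theorem a3_cols {t : Matrix X.J Y.J A} {a : Matrix X.J Z.J A} {b : Matrix Y.J Z.J A} :
    Tw H X (Y.ext Z b) (fromCols t a) ↔
      (Mp H (-1) X Z a ∧ X.D * a + t * b + a * Z.D = 0) ∧ Tw H X Y t := by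
  have z : (0 : Matrix X.J (Y.J ⊕ Z.J) A) = fromCols 0 0 := fromCols_zero.symm
  have ad : ∀ (a a' : Matrix X.J Y.J A) (b b' : Matrix X.J Z.J A),
      fromCols a b + fromCols a' b' = fromCols (a + a') (b + b') := fun _ _ _ _ => by
    ext i (j | j) <;> rfl
  constructor
  · rintro ⟨⟨h1, h2, h3⟩, h4⟩
    simp only [fromCols_mul_fromBlocks, mul_fromCols, ad, z, fromCols_ext_iff, Matrix.mul_zero,
      add_zero, zero_add, ← add_assoc] at h2 h3 h4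
    exact ⟨⟨⟨fun i j => h1 i (.inr j), h2.2, h3.2⟩, h4.2⟩,
      ⟨fun i j => h1 i (.inl j), h2.1, h3.1⟩, h4.1⟩
  · rintro ⟨⟨h1, h2⟩, h3⟩
    refine ⟨⟨h3.hm.cols h1.hm, ?_, ?_⟩, ?_⟩ <;>
      simp only [fromCols_mul_fromBlocks, mul_fromCols, ad, z, fromCols_ext_iff, Matrix.mul_zero,
        add_zero, zero_add, ← add_assoc]
    exacts [⟨h3.pl, h1.pl⟩, ⟨h3.pr, h1.pr⟩, ⟨h3.cm, h2⟩]

theorem tw_rows {t : Matrix X.J Y.J A} {a : Matrix X.J Z.J A} {b : Matrix Y.J Z.J A}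
    (ht : Tw H X Y t) (h : Tw H (X.ext Y t) Z (fromRows a b)) :
    Tw H Y Z b ∧ Tw H X (Y.ext Z b) (fromCols t a) :=
  ⟨(a3_rows.1 h).2, a3_cols.2 ⟨(a3_rows.1 h).1, ht⟩⟩

theorem tw_cols {t : Matrix X.J Y.J A} {a : Matrix X.J Z.J A} {b : Matrix Y.J Z.J A}
    (hb : Tw H Y Z b) (h : Tw H X (Y.ext Z b) (fromCols t a)) :
    Tw H X Y t ∧ Tw H (X.ext Y t) Z (fromRows a b) :=
  ⟨(a3_cols.1 h).2, a3_rows.2 ⟨(a3_cols.1 h).1, hb⟩⟩

theorem tw_sum {t : Matrix X.J Y.J A} {t' : Matrix X'.J Y'.J A} (h : Tw H X Y t)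
    (h' : Tw H X' Y' t') : Tw H (X.sum X') (Y.sum Y') (fromBlocks t 0 0 t') :=
  ⟨⟨Hm.blocks h.hm (Hm.zero _ _) (Hm.zero _ _) h'.hm, by simp [fromBlocks_multiply, h.pl, h'.pl],
    by simp [fromBlocks_multiply, h.pr, h'.pr]⟩,
    by simp [fromBlocks_multiply, fromBlocks_add, h.cm, h'.cm]⟩

end Pool.Agent.MP_f7db47_al.KN
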