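import Pool.Agent.MP_f7db47_al.KN.A2
import Pool.Agent.MP_f7db47_al.KN.A3

/-!
Splitting off summands, and the perturbation lemma.
-/

namespace Pool.Agent.MP_f7db47_al.KN

open Matrix

universe v w

variable {A : Type v} [Ring A] {Λ ι : Type} {H H' I I' : Fam A Λ} {S : ι → Submonoid A}
  {K K' : Finset ι} {W : Set ℤ} {X X' Y Y' Z : Cx A Λ} {w w' : A}

theorem spl (hH : LR H) (hX : Ok H X) {s ε : Matrix X.J X.J A} (hs : Mp H 1 X X s)
    (hε : ε = X.D * s + s * X.D) (h : ε * ε = ε) :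
    Ok H (X.re (X.p - ε) (X.D - X.D * ε)) ∧ HE H X (X.re (X.p - ε) (X.D - X.D * ε)) := by
  have h0 : Hm H 0 X.t X.t ε :=
    hε ▸ (hX.hD.mul hH hs.hm (by omega)).add (hs.hm.mul hH hX.hD (by omega))
  have h1 : X.p * ε = ε := by rw [hε, mul_add, ← mul_assoc, ← mul_assoc, hX.pD, hs.pl]
  have h2 : ε * X.p = ε := by rw [hε, add_mul, mul_assoc, mul_assoc, hX.Dp, hs.pr]
  have h3 : ε * X.D = X.D * ε := by
    rw [hε, mul_add, add_mul, ← mul_assoc X.D X.D, hX.DD, mul_assoc s, hX.DD, zero_mul, mul_zero,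
      zero_add, add_zero, mul_assoc]
  have hq : Hm H 0 X.t X.t (X.p - ε) := hX.hp.sub h0
  have qq : (X.p - ε) * (X.p - ε) = X.p - ε := by
    rw [mul_sub, sub_mul, sub_mul, hX.pp, h1, h2, h, sub_self, sub_zero]
  have pq : X.p * (X.p - ε) = X.p - ε := by rw [mul_sub, hX.pp, h1]
  have qp : (X.p - ε) * X.p = X.p - ε := by rw [sub_mul, hX.pp, h2]
  have Dq : X.D * (X.p - ε) = X.D - X.D * ε := by rw [mul_sub, hX.Dp]
  have qD : (X.p - ε) * X.D = X.D - X.D * ε := by rw [sub_mul, hX.pD, h3]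
  have e1 : (X.p - ε) * (X.D - X.D * ε) = X.D - X.D * ε := by rw [← qD, ← mul_assoc, qq]
  have e2 : (X.D - X.D * ε) * (X.p - ε) = X.D - X.D * ε := by rw [← Dq, mul_assoc, qq]
  have e3 : (X.D - X.D * ε) * (X.D - X.D * ε) = 0 := by
    nth_rewrite 1 [← qD]
    rw [← Dq, mul_assoc, ← mul_assoc X.D, hX.DD, zero_mul, mul_zero]
  refine ⟨⟨hq, hX.hD.sub (hX.hD.mul hH h0 (by omega)), qq, e1, e2, e3⟩, X.p - ε, X.p - ε, s, 0,
    ⟨⟨hq, qq, qp⟩, e2.trans qD.symm⟩, ⟨⟨hq, pq, qq⟩, Dq.trans e1.symm⟩, hs.hm, Hm.zero _ _, ?_, ?_⟩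
  · rw [qq, ← hε, sub_add_cancel]
  · simpa using qq

/-- Cancellation of the bottom degree. -/
theorem cancel_bot (hH : LR H) (hX : Ok H X) {a b : ℤ} (hW : Wd (Set.Icc a b) X)
    {s : Matrix X.J X.J A} (hs : Hm H 1 X.t X.t s)
    (h : X.D * s * ind A {j | (X.t j).2 = a} = X.p * ind A {j | (X.t j).2 = a}) :
    ∃ Y, Ok H Y ∧ Wd (Set.Icc (a + 1) b) Y ∧ HE H X Y := by
  set π := ind A {j | (X.t j).2 = a} with hπ
  have ππ : π * π = π := by rw [hπ, ind_mul_ind, Set.inter_self]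
  have pπ : π * X.p = X.p * π := by
    ext i j
    rw [hπ, ind_mul_apply, mul_ind_apply]
    by_cases e : X.p i j = 0
    · simp [e]
    · have := (hX.hp i j).2 e
      by_cases e' : (X.t j).2 = a <;> simp [this, e']
  have πs : π * s = 0 := by
    ext i j
    rw [hπ, ind_mul_apply, Matrix.zero_apply]
    split_ifs with e
    · by_contra e'
      have h1 := (hs i j).2 e'
      have h2 := (hW j).1
      have h3 : (X.t i).2 = a := e
      omega
    · rfl
  have Dπ : X.D * π = 0 := by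
    ext i j
    rw [hπ, mul_ind_apply, Matrix.zero_apply]
    split_ifs with e
    · by_contra e'
      have h1 := (hX.hD i j).2 e'
      have h2 := (hW i).1
      have h3 : (X.t j).2 = a := e
      omega
    · rfl
  have hs' : Mp H 1 X X (X.p * s * π * X.p) :=
    ⟨((hX.hp.mul hH hs (e := 1) (by omega)).mul_ind _).mul hH hX.hp (by omega),
      by simp only [← mul_assoc, hX.pp], by rw [mul_assoc _ X.p, hX.pp]⟩
  have e1 : X.D * (X.p * s * π * X.p) = π * X.p := by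
    rw [← mul_assoc, ← mul_assoc, ← mul_assoc, hX.Dp, h, ← pπ, mul_assoc, hX.pp]
  have e2 : π * (X.p * s * π * X.p) = 0 := by
    rw [← mul_assoc, ← mul_assoc, ← mul_assoc, pπ, mul_assoc X.p, πs, mul_zero, zero_mul, zero_mul]
  have e3 : π * X.p * (π * X.p) = π * X.p := by
    rw [← mul_assoc, mul_assoc π, ← pπ, ← mul_assoc, ππ, mul_assoc, hX.pp]
  have e4 : X.p * s * π * X.p * (π * X.p) = X.p * s * π * X.p := by
    rw [mul_assoc _ π, mul_assoc _ (π * X.p), e3]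
  generalize X.p * s * π * X.p = s' at hs' e1 e2 e4
  obtain ⟨h1, h2⟩ := spl hH hX hs' rfl (by
    rw [e1, add_mul, mul_add, mul_add, e3, ← mul_assoc (π * X.p), mul_assoc π, hs'.pl, e2,
      zero_mul, add_zero, mul_assoc s', ← mul_assoc X.D π, Dπ, zero_mul, mul_zero, zero_add,
      mul_assoc s', ← mul_assoc X.D, e1, ← mul_assoc, e4])
  have e5 : π * (X.p - (X.D * s' + s' * X.D)) = 0 := by
    rw [e1, mul_sub, mul_add, ← mul_assoc, ← mul_assoc, ππ, e2, zero_mul, add_zero, sub_self]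
  obtain ⟨Y, h3, h4⟩ := trim (W := Set.Icc (a + 1) b) h1 fun i j e => by
    have h5 : (X.t i).2 ≠ a := fun e' => e (by
      have h6 := congrFun (congrFun e5 i) j
      rwa [hπ, ind_mul_apply, if_pos (show i ∈ {j | (X.t j).2 = a} from e')] at h6)
    have h6 := hW i
    exact ⟨by have := h6.1; show a + 1 ≤ (X.t i).2; omega, h6.2⟩
  exact ⟨Y, h4.ok_iff.2 h1, h3, h4.he_right.2 h2⟩

theorem tri (hH : LR H) (hX : Ok H X) {e : Matrix X.J X.J A} (he : Cut H X e) :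
    Ok H (X.sub e) ∧ Ok H (X.quo e) ∧ Tw H (X.sub e) (X.quo e) (e * X.D * (X.p - e)) ∧
      HE H X ((X.sub e).ext (X.quo e) (e * X.D * (X.p - e))) := by
  have hq : Hm H 0 X.t X.t (X.p - e) := hX.hp.sub he.hm
  have qq : (X.p - e) * (X.p - e) = X.p - e := by
    rw [mul_sub, sub_mul, sub_mul, hX.pp, he.pe, he.ep, he.ee, sub_self, sub_zero]
  have pq : X.p * (X.p - e) = X.p - e := by rw [mul_sub, hX.pp, he.pe]
  have qp : (X.p - e) * X.p = X.p - e := by rw [sub_mul, hX.pp, he.ep]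
  have eq : e * (X.p - e) = 0 := by rw [mul_sub, he.ep, he.ee, sub_self]
  have qe : (X.p - e) * e = 0 := by rw [sub_mul, he.pe, he.ee, sub_self]
  have qDq : (X.p - e) * X.D * (X.p - e) = (X.p - e) * X.D := by
    rw [mul_sub, mul_assoc _ _ X.p, hX.Dp, sub_mul, sub_mul, hX.pD, he.De, sub_self, sub_zero]
  have eDe : e * (X.D * e) = X.D * e := by rw [← mul_assoc, he.De]
  have DeD : X.D * e * (X.D * e) = 0 := by rw [mul_assoc, eDe, ← mul_assoc, hX.DD, zero_mul]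
  have eDq : e * X.D * (X.p - e) = e * X.D - X.D * e := by
    rw [mul_sub, mul_assoc _ _ X.p, hX.Dp, he.De]
  have et : e * (e * X.D * (X.p - e)) = e * X.D * (X.p - e) := by
    rw [← mul_assoc, ← mul_assoc, he.ee]
  have tq : e * X.D * (X.p - e) * (X.p - e) = e * X.D * (X.p - e) := by rw [mul_assoc _ _ (X.p - e), qq]
  have qqD : (X.p - e) * ((X.p - e) * X.D) = (X.p - e) * X.D := by rw [← mul_assoc, qq]
  have Dee : X.D * e * e = X.D * e := by rw [mul_assoc, he.ee]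
  refine ⟨⟨he.hm, hX.hD.mul hH he.hm (by omega), he.ee, eDe, Dee, DeD⟩,
    ⟨hq, hq.mul hH hX.hD (by omega), qq, qqD, qDq, ?_⟩,
    ⟨⟨(he.hm.mul hH hX.hD (e := -1) (by omega)).mul hH hq (by omega), et, tq⟩, ?_⟩,
    HE.of_iso (f := fromRows e (X.p - e)) (g := fromCols e (X.p - e))
      ⟨⟨he.hm.rows hq, ?_, ?_⟩, ?_⟩ ⟨⟨he.hm.cols hq, ?_, ?_⟩, ?_⟩ ?_ ?_⟩
  · show (X.p - e) * X.D * ((X.p - e) * X.D) = 0
    rw [← mul_assoc, qDq, mul_assoc, hX.DD, mul_zero]
  · show X.D * e * (e * X.D * (X.p - e)) + e * X.D * (X.p - e) * ((X.p - e) * X.D) = 0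
    rw [mul_assoc X.D, et, ← mul_assoc _ (X.p - e), tq, eDq, mul_sub, sub_mul, mul_assoc e, hX.DD,
      ← mul_assoc X.D X.D, hX.DD, zero_mul, mul_zero, sub_zero, zero_sub, mul_assoc,
      add_neg_cancel]
  · simp [fromBlocks_mul_fromRows, he.ee, qq]
  · simp [fromRows_mul, he.ep, qp]
  · rw [fromBlocks_mul_fromRows, fromRows_mul, Dee, tq, eDq, qDq, Matrix.zero_mul, zero_add,
      add_sub_cancel]
  · simp [mul_fromCols, he.pe, pq]
  · simp [fromCols_mul_fromBlocks, he.ee, qq]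
  · rw [fromCols_mul_fromBlocks, mul_fromCols, eDe, et, qqD, Matrix.mul_zero, add_zero, ← qDq,
      ← add_mul, ← add_mul, add_sub_cancel, hX.pD]
  · rw [fromCols_mul_fromRows, he.ee, qq, add_sub_cancel]
  · rw [fromRows_mul_fromCols, he.ee, qq, eq, qe]

theorem a7_conj (hH : LR H) (hX : Ok H X) {P E : Matrix X.J X.J A} (hP : Hm H 0 X.t X.t P)
    (PP : P * P = P) (h1 : X.p * P * X.p = X.p) (h2 : P * X.p * P = P) (hE : E = P * X.D * P) :
    HE H X (X.re P E) := by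
  refine HE.of_iso (f := P * X.p) (g := X.p * P)
    ⟨⟨hP.mul hH hX.hp (by omega), by rw [← mul_assoc, PP], by rw [mul_assoc, hX.pp]⟩, ?_⟩
    ⟨⟨hX.hp.mul hH hP (by omega), by rw [← mul_assoc, hX.pp], by rw [mul_assoc, PP]⟩, ?_⟩ ?_ ?_
  · show E * (P * X.p) = P * X.p * X.D
    have h3 : X.D * P * X.p = X.D := by
      rw [← hX.Dp, mul_assoc X.D, mul_assoc X.D, h1]
    rw [hE, ← mul_assoc, mul_assoc _ P P, PP, mul_assoc P X.p, hX.pD, mul_assoc P, mul_assoc P, h3]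
  · show X.D * (X.p * P) = X.p * P * E
    have h3 : X.p * P * X.D = X.D := by
      rw [← hX.pD, ← mul_assoc, h1]
    rw [hE, ← mul_assoc, ← mul_assoc, ← mul_assoc, mul_assoc _ P P, PP, hX.Dp, h3]
  · rw [← mul_assoc, mul_assoc _ P P, PP, h1]
  · show P * X.p * (X.p * P) = P
    rw [← mul_assoc, mul_assoc _ X.p X.p, hX.pp, h2]

theorem a7_blocks (hH : LR H) {n m : Matrix X.J Y.J A}
    (h : Ok H ((X.sum Y).re (fromBlocks X.p n 0 Y.p) (fromBlocks X.D m 0 Y.D))) :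
    Ok H X ∧ Ok H Y ∧ Tw H X Y (X.p * m * Y.p) ∧
      HE H ((X.sum Y).re (fromBlocks X.p n 0 Y.p) (fromBlocks X.D m 0 Y.D))
        (X.ext Y (X.p * m * Y.p)) := by
  have pp := h.pp
  have pD := h.pD
  have Dp := h.Dp
  have DD := h.DD
  rw [← fromBlocks_zero] at DD
  simp only [fromBlocks_multiply, fromBlocks_inj, Matrix.mul_zero, Matrix.zero_mul, add_zero,
    zero_add, true_and] at pp pD Dp DD
  have hX : Ok H X := ⟨h.hp.b11, h.hD.b11, pp.1, pD.1, Dp.1, DD.1⟩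
  have hY : Ok H Y := ⟨h.hp.b22, h.hD.b22, pp.2.2, pD.2.2, Dp.2.2, DD.2.2⟩
  have hm : Hm H (-1) X.t Y.t m := h.hD.b12
  have e1 : X.p * n * Y.p = 0 := by
    have h1 := congrArg (X.p * ·) pp.2.1
    simp only [Matrix.mul_add, ← Matrix.mul_assoc, pp.1] at h1
    exact add_eq_left.1 h1
  refine ⟨hX, hY, ⟨⟨(hX.hp.mul hH hm (e := -1) (by omega)).mul hH hY.hp (by omega),
    by simp only [← Matrix.mul_assoc, pp.1], by rw [Matrix.mul_assoc _ Y.p, pp.2.2]⟩, ?_⟩,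
    a7_conj hH h (P := fromBlocks X.p 0 0 Y.p) (hX.sum hY).hp (hX.sum hY).pp ?_ ?_ ?_⟩
  · have h1 : X.D * m = -(m * Y.D) := eq_neg_of_add_eq_zero_left DD.2.1
    have h2 : X.p * (m * Y.D) = m * Y.D := by
      rw [← neg_neg (m * Y.D), ← h1, Matrix.mul_neg, ← Matrix.mul_assoc, pD.1]
    rw [← Matrix.mul_assoc, ← Matrix.mul_assoc, Dp.1, h1, Matrix.mul_assoc _ Y.p, pD.2.2,
      Matrix.mul_assoc X.p, h2, Matrix.neg_mul, Matrix.mul_assoc, Dp.2.2, neg_add_cancel]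
  · simp [fromBlocks_multiply, Matrix.mul_assoc, pp.1, pp.2.2, pp.2.1]
  · simp [fromBlocks_multiply, pp.1, pp.2.2, e1]
  · simp [fromBlocks_multiply, pD.1, pD.2.2, Dp.1, Dp.2.2]

/-- A block triangular complex is an extension of its diagonal blocks. -/
theorem tri_res (hH : LR H) (hX : Ok H X) (U : X.J → Prop) [DecidablePred U]
    (hp : ∀ i j, ¬U i → U j → X.p i j = 0) (hD : ∀ i j, ¬U i → U j → X.D i j = 0) :
    Ok H (X.res (Subtype.val : {j // U j} → X.J)) ∧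
      Ok H (X.res (Subtype.val : {j // ¬U j} → X.J)) ∧
      ∃ t, Tw H (X.res (Subtype.val : {j // U j} → X.J)) (X.res (Subtype.val : {j // ¬U j} → X.J)) t ∧
        HE H X ((X.res (Subtype.val : {j // U j} → X.J)).ext
          (X.res (Subtype.val : {j // ¬U j} → X.J)) t) := by
  have hS : Sub (((X.res (Subtype.val : {j // U j} → X.J)).sum
      (X.res (Subtype.val : {j // ¬U j} → X.J))).re
      (fromBlocks (X.res (Subtype.val : {j // U j} → X.J)).p (X.p.submatrix Subtype.val Subtype.val)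
        0 (X.res (Subtype.val : {j // ¬U j} → X.J)).p)
      (fromBlocks (X.res (Subtype.val : {j // U j} → X.J)).D (X.D.submatrix Subtype.val Subtype.val)
        0 (X.res (Subtype.val : {j // ¬U j} → X.J)).D)) X := by
    refine (Sub.of_equiv (Equiv.sumCompl U) ?_ ?_ ?_).1
    · rintro (i | i) <;> rfl
    · ext (i | i) (j | j)
      exacts [rfl, rfl, (hp _ _ i.2 j.2).symm, rfl]
    · ext (i | i) (j | j)
      exacts [rfl, rfl, (hD _ _ i.2 j.2).symm, rfl]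
  obtain ⟨h1, h2, h3, h4⟩ := a7_blocks hH (hS.ok_iff.2 hX)
  exact ⟨h1, h2, _, h3, hS.he_left.1 h4⟩

/-- An idempotent that is only compatible with `p` on one side. -/
theorem Cut.of_left (hH : LR H) (hX : Ok H X) {e : Matrix X.J X.J A} (hm : Hm H 0 X.t X.t e)
    (ee : e * e = e) (pe : X.p * e = e) (De : e * X.D * e = X.D * e) : Cut H X (e * X.p) where
  hm := hm.mul hH hX.hp (by omega)
  ee := by rw [← mul_assoc, mul_assoc e X.p e, pe, ee]
  pe := by rw [← mul_assoc, pe]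
  ep := by rw [mul_assoc, hX.pp]
  De := by rw [mul_assoc e, hX.pD, ← mul_assoc, De, mul_assoc]

theorem retract (hH : LR H) (hX : Ok H X) (hY : Ok H Y) {i : Matrix X.J Y.J A}
    {r : Matrix Y.J X.J A} (hi : Ch H X Y i) (hr : Ch H Y X r) (h : r * i = Y.p) :
    Ok H (X.quo (i * r)) ∧ HE H X (Y.sum (X.quo (i * r))) ∧
      ∀ w, (∀ x, w * x = x * w) → Nul H w X → Nul H w (X.quo (i * r)) := by
  have hm : Hm H 0 X.t X.t (i * r) := hi.hm.mul hH hr.hm (by omega)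
  have ei : i * r * i = i := by rw [Matrix.mul_assoc, h, hi.pr]
  have re : r * (i * r) = r := by rw [← Matrix.mul_assoc, h, hr.pl]
  have ee : i * r * (i * r) = i * r := by rw [← Matrix.mul_assoc, ei]
  have pe : X.p * (i * r) = i * r := by rw [← Matrix.mul_assoc, hi.pl]
  have ep : i * r * X.p = i * r := by rw [Matrix.mul_assoc, hr.pr]
  have eD : i * r * X.D = X.D * (i * r) := by
    rw [← Matrix.mul_assoc, hi.cm, Matrix.mul_assoc, Matrix.mul_assoc, hr.cm]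
  have hq := (tri hH hX ⟨hm, ee, pe, ep, by rw [eD, mul_assoc, ee]⟩).2.1
  have qq : (X.p - i * r) * (X.p - i * r) = X.p - i * r := hq.pp
  have pq : X.p * (X.p - i * r) = X.p - i * r := by rw [mul_sub, hX.pp, pe]
  have qp : (X.p - i * r) * X.p = X.p - i * r := by rw [sub_mul, hX.pp, ep]
  have qD : (X.p - i * r) * X.D = X.D * (X.p - i * r) := by
    rw [mul_sub, sub_mul, hX.pD, hX.Dp, eD]
  have rq : r * (X.p - i * r) = 0 := by rw [Matrix.mul_sub, hr.pr, re, sub_self]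
  have qi : (X.p - i * r) * i = 0 := by rw [Matrix.sub_mul, hi.pl, ei, sub_self]
  have hq' : Hm H 0 X.t X.t (X.p - i * r) := hq.hp
  have e1 : (X.p - i * r) * X.D * (X.p - i * r) = (X.p - i * r) * X.D := hq.Dp
  have e2 : (X.p - i * r) * ((X.p - i * r) * X.D) = (X.p - i * r) * X.D := hq.pD
  refine ⟨hq, HE.of_iso (f := fromRows r (X.p - i * r)) (g := fromCols i (X.p - i * r))
    ⟨⟨hr.hm.rows hq', ?_, ?_⟩, ?_⟩ ⟨⟨hi.hm.cols hq', ?_, ?_⟩, ?_⟩ ?_ ?_, ?_⟩
  · simp [fromBlocks_mul_fromRows, hr.pl, qq]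
  · simp [fromRows_mul, hr.pr, qp]
  · simp [fromBlocks_mul_fromRows, fromRows_mul, hr.cm, e1]
  · simp [mul_fromCols, hi.pl, pq]
  · simp [fromCols_mul_fromBlocks, hi.pr, qq]
  · rw [fromCols_mul_fromBlocks, mul_fromCols, hi.cm, e2, qD, Matrix.mul_zero, Matrix.mul_zero,
      add_zero, zero_add]
  · rw [fromCols_mul_fromRows, qq, add_sub_cancel]
  · rw [fromRows_mul_fromCols, h, qq, rq, qi]
  · rintro w hw ⟨s, h1, h2⟩
    refine ⟨(X.p - i * r) * s * (X.p - i * r),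
      (hq'.mul hH h1 (e := 1) (by omega)).mul hH hq' (by omega), ?_⟩
    show (X.p - i * r) * X.D * ((X.p - i * r) * s * (X.p - i * r)) +
      (X.p - i * r) * s * (X.p - i * r) * ((X.p - i * r) * X.D) = w • (X.p - i * r)
    generalize X.p - i * r = q at *
    rw [← mul_assoc, ← mul_assoc, e1, mul_assoc _ q, e2, qD, ← qD, mul_assoc q X.D, qD,
      ← mul_assoc (q * s), mul_assoc q s, ← add_mul, ← mul_add, h2, mul_smul_cen hw, qp,
      smul_mul_assoc, qq]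

theorem pert_gr {𝓗 : ℕ → Fam A Λ} (hH : Gr 𝓗 S) (hw : ∀ k, Sc (𝓗 k) w) {k m : ℕ}
    {h N : Matrix X.J X.J A} (hDD : X.D * X.D = 0) (pD : X.p * X.D = X.D) (Dp : X.D * X.p = X.D)
    (hh : Hm (𝓗 k) 1 X.t X.t h) (hN : Hm (𝓗 k) 0 X.t X.t N) (pN : X.p * N = N)
    (e : X.D * h + h * X.D = w • X.p + N) (hm : N ^ (m + 1) = 0) :
    Nul (𝓗 ((m + 1) * k)) (w ^ (m + 1)) X := by
  have hc := (hw 0).1
  have c : Commute X.D N := by
    have h1 : X.D * (X.D * h + h * X.D) = (X.D * h + h * X.D) * X.D := by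
      rw [mul_add, add_mul, ← mul_assoc, hDD, mul_assoc h, hDD, zero_mul, mul_zero, zero_add,
        add_zero, mul_assoc]
    rw [e, mul_add, add_mul, mul_smul_cen hc, Dp, smul_mul_assoc, pD] at h1
    exact add_left_cancel h1
  have key : ∀ n : ℕ, Hm (𝓗 ((n + 1) * k)) 0 X.t X.t ((-N) ^ (n + 1)) ∧
      ∃ s, Hm (𝓗 ((n + 1) * k)) 1 X.t X.t s ∧
        X.D * s + s * X.D = w ^ (n + 1) • X.p - (-N) ^ (n + 1) := by
    intro n
    induction n with
    | zero =>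
      simp only [zero_add, one_mul, pow_one, sub_neg_eq_add]
      exact ⟨hN.neg, h, hh, e⟩
    | succ n ih =>
      obtain ⟨h1, s, h2, h3⟩ := ih
      have hk : k + (n + 1) * k ≤ (n + 1 + 1) * k := le_of_eq (by ring)
      have h4 : X.p * (-N) ^ (n + 1) = (-N) ^ (n + 1) := by
        rw [pow_succ', ← mul_assoc, mul_neg, pN]
      refine ⟨pow_succ' (-N) (n + 1) ▸ hN.neg.mul_gr hH h1 (by omega) hk,
        w • s + h * (-N) ^ (n + 1), ((h2.smul (hw _)).mono (hH.mono (by omega))).add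
          (hh.mul_gr hH h1 (by omega) hk), ?_⟩
      rw [mul_add, add_mul, mul_smul_cen hc, smul_mul_assoc, add_add_add_comm, ← smul_add, h3,
        mul_assoc h, ← (c.neg_right.pow_right (n + 1)).eq, ← mul_assoc, ← mul_assoc, ← add_mul, e,
        add_mul, smul_mul_assoc, h4, smul_sub, smul_smul, ← pow_succ', pow_succ' (-N) (n + 1),
        neg_mul]
      abel
  obtain ⟨-, s, h1, h2⟩ := key m
  rw [neg_pow, hm, mul_zero, sub_zero] at h2
  exact ⟨s, h1, h2⟩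

theorem pert (hH : LR H) (hX : Ok H X) (hw : Sc H w) {m : ℕ} {h N : Matrix X.J X.J A}
    (hh : Hm H 1 X.t X.t h) (hN : Hm H 0 X.t X.t N) (pN : X.p * N = N)
    (e : X.D * h + h * X.D = w • X.p + N) (hm : N ^ (m + 1) = 0) : Nul H (w ^ (m + 1)) X :=
  pert_gr (S := (Empty.elim : Empty → Submonoid A)) (𝓗 := fun _ => H) (k := 0)
    ⟨fun _ _ _ => le_rfl, fun _ _ _ _ _ _ _ hx hy => hH hx hy, fun a => a.elim, fun a => a.elim⟩
    (fun _ => hw) hX.DD hX.pD hX.Dp hh hN pN e hm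

end Pool.Agent.MP_f7db47_al.KN
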