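import Pool.Agent.MP_f7db47_al.KN.A6
import Pool.Agent.MP_f7db47_al.KN.A7
import Pool.Agent.MP_f7db47_al.KN.A12a

/-!
Complexes that are contractible modulo an ideal.
-/

namespace Pool.Agent.MP_f7db47_al.KN

open Matrix

universe v w

variable {A : Type v} [Ring A] {Λ ι : Type} {H H' I I' : Fam A Λ} {S : ι → Submonoid A}
  {K K' : Finset ι} {W : Set ℤ} {X X' Y Y' Z : Cx A Λ} {w w' : A}

theorem a12_comm {f : Matrix X.J X.J A} (hf : Hm H 0 X.t X.t f) (a : ℤ) :
    ind A {j | (X.t j).2 = a} * f = f * ind A {j | (X.t j).2 = a} := by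
  ext i j
  rw [ind_mul_apply, mul_ind_apply]
  by_cases h : f i j = 0
  · simp [h]
  · have := (hf i j).2 h
    by_cases h1 : (X.t j).2 = a <;> simp [this, h1]

theorem a12_bot (hX : Ok H X) {a b : ℤ} (hW : Wd (Set.Icc a b) X) :
    X.D * ind A {j | (X.t j).2 = a} = 0 := by
  ext i j
  rw [mul_ind_apply]
  split_ifs with h
  · by_contra h0
    have h1 := (hX.hD i j).2 h0
    have h2 := (hW i).1
    have h3 : (X.t j).2 = a := h
    omega
  · rfl

theorem a12_EF {J : Type} [Fintype J] [DecidableEq J] (U : J → Prop) [DecidablePred U]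
    {E : Matrix J {j // U j} A} {F : Matrix {j // U j} J A}
    (hE : E = (1 : Matrix J J A).submatrix id Subtype.val)
    (hF : F = (1 : Matrix J J A).submatrix Subtype.val id) : E * F = ind A {j | U j} := by
  subst hE hF
  ext i j
  rw [Matrix.mul_apply, ind, diagonal_apply]
  by_cases h : U i
  · rw [Finset.sum_eq_single ⟨i, h⟩]
    · simp [one_apply, h]
    · rintro ⟨k, hk⟩ _ hne
      have : i ≠ k := fun e => hne (Subtype.ext e.symm)
      simp [one_apply, this]
    · simp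
  · rw [Finset.sum_eq_zero]
    · simp [h]
    · rintro ⟨k, hk⟩ _
      have : i ≠ k := fun e => h (e ▸ hk)
      simp [one_apply, this]

theorem a12_E {J J' T : Type} [Fintype J] [DecidableEq J] (e : T → J) (M : Matrix J' J A) :
    M * (1 : Matrix J J A).submatrix id e = M.submatrix id e := by
  ext i j
  simp [Matrix.mul_apply, one_apply]

theorem a12_F {J J' T : Type} [Fintype J] [DecidableEq J] (e : T → J) (M : Matrix J J' A) :
    (1 : Matrix J J A).submatrix e id * M = M.submatrix e id := by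
  ext i j
  simp [Matrix.mul_apply, one_apply]

theorem a12_step (hH : LR H) (hI : Idl I H) (hu : LU I) (hX : Ok H X) (h : NulMod H I 1 X)
    {a b : ℤ} (hab : a + 1 ≤ b) (hW : Wd (Set.Icc a b) X) :
    ∃ (Y : Cx A Λ) (i : Matrix X.J Y.J A), Ok I Y ∧ Ch H X Y i ∧
      ∃ Z, Ok H Z ∧ Wd (Set.Icc (a + 1) b) Z ∧ HE H (X.cone Y i) Z := by
  classical
  obtain ⟨h, hh, hr⟩ := h
  rw [one_smul] at hr
  obtain ⟨u, hu1, uu, ur, -⟩ := hu.mat hr
  have hD := a12_bot hX hW
  have cu := a12_comm hu1 a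
  have cr := a12_comm hr a
  have hEF := a12_EF (A := A) (fun j => (X.t j).2 = a) rfl rfl
  have hqE : ind A {j | (X.t j).2 = a} * (1 : Matrix X.J X.J A).submatrix id
      (Subtype.val : {j // (X.t j).2 = a} → X.J) = (1 : Matrix X.J X.J A).submatrix id
        Subtype.val := by
    ext i j
    rw [ind_mul_apply]
    split_ifs with h1
    · rfl
    · have : i ≠ j.1 := fun e => h1 (e ▸ j.2)
      simp [one_apply, this]
  have qq : ind A {j | (X.t j).2 = a} * ind A {j | (X.t j).2 = a} = ind A {j | (X.t j).2 = a} := by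
    rw [ind_mul_ind, Set.inter_self]
  have m1 : Hm I 0 (fun j : {j // (X.t j).2 = a} => X.t j) (fun j : {j // (X.t j).2 = a} => X.t j)
      ((1 : Matrix X.J X.J A).submatrix Subtype.val id *
        (u * (1 : Matrix X.J X.J A).submatrix id Subtype.val)) := by
    rw [a12_E, a12_F]
    exact hu1.submatrix _ _
  have m2 : Hm H 0 X.t (fun j : {j // (X.t j).2 = a} => X.t j)
      (X.p * u * (1 : Matrix X.J X.J A).submatrix id Subtype.val) := by
    rw [a12_E]
    exact (Hm.mul hH hX.hp (hu1.mono hI.le) rfl).submatrix id _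
  have m3 : Hm H 0 (fun j : {j // (X.t j).2 = a} => X.t j) X.t
      ((1 : Matrix X.J X.J A).submatrix Subtype.val id * (X.p - (X.D * h + h * X.D))) := by
    rw [a12_F]
    exact (hr.mono hI.le).submatrix _ id
  have hq1 : ind A {j : X.J ⊕ {j // (X.t j).2 = a} | (Sum.elim X.t
      (fun j : {j // (X.t j).2 = a} => ((X.t j).1, (X.t j).2 + 1)) j).2 = a} =
      fromBlocks (ind A {j | (X.t j).2 = a}) 0 0 0 := by
    ext (i | i) (j | j)
    · by_cases h1 : (X.t i).2 = a <;> simp [ind, diagonal_apply, h1]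
    · simp [ind]
    · simp [ind]
    · simp [ind, diagonal_apply, i.2]
  generalize ind A {j | (X.t j).2 = a} = q at hD cu cr hEF hqE qq hq1
  generalize (1 : Matrix X.J X.J A).submatrix id (Subtype.val : {j // (X.t j).2 = a} → X.J) = E
    at hEF hqE m1 m2
  generalize (1 : Matrix X.J X.J A).submatrix (Subtype.val : {j // (X.t j).2 = a} → X.J) id = F
    at hEF m1 m3
  have k1 : u * E * (F * (u * E)) = u * E := by
    rw [Matrix.mul_assoc, ← Matrix.mul_assoc E, hEF, ← Matrix.mul_assoc q, cu, Matrix.mul_assoc,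
      hqE, ← Matrix.mul_assoc, uu]
  let Y : Cx A Λ := ⟨{j // (X.t j).2 = a}, fun j => X.t j, F * (u * E), 0⟩
  have hY : Ok I Y := ⟨m1, Hm.zero _ _, by
    change F * (u * E) * (F * (u * E)) = F * (u * E)
    rw [Matrix.mul_assoc, k1], Matrix.mul_zero _, Matrix.zero_mul _, Matrix.mul_zero _⟩
  have hi : Ch H X Y (X.p * u * E) := ⟨⟨m2, by
    rw [← Matrix.mul_assoc, ← Matrix.mul_assoc, hX.pp], by
    change X.p * u * E * (F * (u * E)) = _
    rw [Matrix.mul_assoc X.p, Matrix.mul_assoc X.p, k1]⟩, by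
    change _ = X.p * u * E * (0 : Matrix Y.J Y.J A)
    rw [Matrix.mul_zero, ← Matrix.mul_assoc, ← Matrix.mul_assoc, hX.Dp, ← hqE,
      ← Matrix.mul_assoc, Matrix.mul_assoc X.D, ← cu, ← Matrix.mul_assoc, hD, Matrix.zero_mul,
      Matrix.zero_mul]⟩
  refine ⟨Y, _, hY, hi, cancel_bot hH (hX.cone (hY.mono hI.le) hi) (Wd.ext hW (fun j => ?_) _)
    (s := fromBlocks h 0 (F * (X.p - (X.D * h + h * X.D))) 0)
    (Hm.blocks hh (Hm.zero _ _) (m3.shift_left 1 rfl) (Hm.zero _ _)) ?_⟩
  · have := j.2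
    change (X.t j).2 + 1 ∈ _
    constructor <;> omega
  · have k2 : (X.D * h + X.p * u * E * (F * (X.p - (X.D * h + h * X.D)))) * q = X.p * q := by
      rw [Matrix.mul_assoc (X.p * u), ← Matrix.mul_assoc E, hEF, cr, Matrix.add_mul,
        Matrix.mul_assoc (X.p * u), Matrix.mul_assoc _ q, qq, Matrix.mul_assoc X.p,
        ← Matrix.mul_assoc u, ur, Matrix.sub_mul, Matrix.add_mul, Matrix.mul_assoc h, hD,
        Matrix.mul_zero, add_zero, Matrix.mul_sub, ← Matrix.mul_assoc, hX.pp, ← Matrix.mul_assoc,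
        ← Matrix.mul_assoc, hX.pD]
      abel
    refine (congrArg _ hq1).trans (Eq.trans ?_ (congrArg _ hq1).symm)
    change fromBlocks X.D (X.p * u * E) 0 (-(0 : Matrix Y.J Y.J A)) * _ * _ =
      fromBlocks X.p 0 0 (F * (u * E)) * _
    simp only [fromBlocks_multiply, Matrix.mul_zero, Matrix.zero_mul, add_zero, neg_zero, k2]

theorem a12_ind (hH : LR H) (hI : Idl I H) (hu : LU I) (n : ℕ) : ∀ (a : ℤ) (X : Cx A Λ), Ok H X →
    Wd (Set.Icc a (a + n)) X → NulMod H I 1 X → ∃ M, Ok I M ∧ HE H X M := by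
  induction n with
  | zero =>
    intro a X hX hW ⟨h, _, hr⟩
    have hD : X.D = 0 := by
      ext i j
      by_contra h0
      have h1 := (hX.hD i j).2 h0
      have h2 := (hW i).1
      have h3 := (hW j).2
      omega
    rw [hD, Matrix.mul_zero, Matrix.zero_mul, add_zero, sub_zero, one_smul] at hr
    exact ⟨X, hX.idl hI hr, HE.refl hX⟩
  | succ n ih =>
    intro a X hX hW h
    obtain ⟨Y, i, hY, hi, Z, hZ, wZ, e⟩ := a12_step hH hI hu hX h (by omega) hW
    have hY' := hY.mono hI.le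
    obtain ⟨M, hM, e'⟩ := ih (a + 1) Z hZ (by rwa [add_assoc, add_comm 1, ← Nat.cast_succ])
      ((h.ext hI Sc.one hi.tw (hY.sh 1)).he hH hI Sc.one e)
    obtain ⟨t0, e0⟩ := cone_rot hY' hX hi
    obtain ⟨t, ht, e1⟩ := ext_congr hH hY' hY' (hX.cone hY' hi) (hM.mono hI.le) (HE.refl hY')
      (e.trans hH e') t0
    exact ⟨Y.ext M t, hY.ext hM ⟨ht.toMp.idl_left hI hY.hp, ht.cm⟩, e0.symm.trans hH e1⟩

theorem ran (hH : LR H) (hI : Idl I H) (hu : LU I) (hX : Ok H X) (h : NulMod H I 1 X) :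
    ∃ M, Ok I M ∧ HE H X M := by
  obtain ⟨L, hL⟩ := exists_bd X
  refine a12_ind hH hI hu (2 * L) (-L) X hX (hL.mono (Set.Icc_subset_Icc_right ?_)) h
  omega

end Pool.Agent.MP_f7db47_al.KN
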