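import Pool.Agent.MP_f7db47_al.KN.A4

/-!
Localisations.
-/

namespace Pool.Agent.MP_f7db47_al.KN

open Matrix

universe v w

variable {A : Type v} [Ring A] {Λ ι : Type} {H H' I I' : Fam A Λ} {S : ι → Submonoid A}
  {K K' : Finset ι} {W : Set ℤ} {X X' Y Y' Z : Cx A Λ} {w w' : A}

variable {a : ι}

theorem a13a_swap {u : A} (hu : ∀ x, u * x = x * u) (y x : A) : y * (u * x) = u * (y * x) := by
  rw [← mul_assoc, ← hu, mul_assoc]

theorem a13a_mul {u : A} (hu : ∀ x, u * x = x * u) (y x z : A) :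
    y * u * (x * z) = y * x * (u * z) := by
  rw [mul_assoc, mul_assoc, a13a_swap hu x z]

theorem exists_loc (hH : Good H S) (a : ι) : ∃ H', IsLoc H (S a) H' := by
  refine ⟨fun i j =>
    { carrier := {x | ∃ w ∈ S a, w * x ∈ H i j}
      zero_mem' := ⟨1, one_mem _, by simp⟩
      add_mem' := ?_
      neg_mem' := ?_ }, fun _ _ _ => Iff.rfl⟩
  · rintro x y ⟨u, hu, hx⟩ ⟨u', hu', hy⟩
    refine ⟨u * u', mul_mem hu hu', ?_⟩
    rw [mul_add, mul_assoc, mul_assoc, a13a_swap (hH.cen a u' hu') u x]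
    exact add_mem (hH.stab a u' hu' hx) (hH.stab a u hu hy)
  · rintro x ⟨u, hu, hx⟩
    exact ⟨u, hu, by rw [mul_neg]; exact neg_mem hx⟩

theorem IsLoc.le (h : IsLoc H (S a) H') : H ≤ H' :=
  fun i j x hx => (h i j x).2 ⟨1, one_mem _, by rwa [one_mul]⟩

theorem a13a_mul3 {H₁ H₂ H₃ H₁' H₂' H₃' : Fam A Λ} (hc : Cen S)
    (hm : ∀ ⦃a b c : Λ⦄ ⦃x y : A⦄, x ∈ H₁ a b → y ∈ H₂ b c → x * y ∈ H₃ a c)
    (h₁ : IsLoc H₁ (S a) H₁') (h₂ : IsLoc H₂ (S a) H₂') (h₃ : IsLoc H₃ (S a) H₃') ⦃i j k : Λ⦄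
    ⦃x y : A⦄ (hx : x ∈ H₁' i j) (hy : y ∈ H₂' j k) : x * y ∈ H₃' i k := by
  obtain ⟨u, hu, hx⟩ := (h₁ _ _ _).1 hx
  obtain ⟨u', hu', hy⟩ := (h₂ _ _ _).1 hy
  refine (h₃ _ _ _).2 ⟨u * u', mul_mem hu hu', ?_⟩
  rw [a13a_mul (hc a u' hu')]
  exact hm hx hy

theorem IsLoc.good (hH : Good H S) (h : IsLoc H (S a) H') : Good H' S := by
  refine ⟨a13a_mul3 hH.cen hH.mul h h h, hH.cen, fun b u hu i j x hx => ?_⟩
  obtain ⟨u', hu', hx⟩ := (h _ _ _).1 hx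
  refine (h _ _ _).2 ⟨u', hu', ?_⟩
  rw [a13a_swap (hH.cen b u hu)]
  exact hH.stab b u hu hx

theorem IsLoc.idl (hH : Good H S) (hI : Idl I H) (h : IsLoc H (S a) H') (h' : IsLoc I (S a) I') :
    Idl I' H' := by
  refine ⟨fun i j x hx => ?_, a13a_mul3 hH.cen hI.left h h' h', a13a_mul3 hH.cen hI.right h' h h'⟩
  obtain ⟨u, hu, hx⟩ := (h' _ _ _).1 hx
  exact (h _ _ _).2 ⟨u, hu, hI.le _ _ hx⟩

theorem IsLoc.lu (hI : Good I S) (hU : Uni S) (hu : LU I) (h : IsLoc I (S a) I') : LU I' := by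
  classical
  intro c T hT
  have h1 : ∀ x : T, ∃ u ∈ S a, ∃ b, u * x.1 ∈ I c b := fun x => by
    obtain ⟨b, hb⟩ := hT x.1 x.2
    obtain ⟨u, hu, hx⟩ := (h _ _ _).1 hb
    exact ⟨u, hu, b, hx⟩
  choose u h2 h3 using h1
  obtain ⟨e, e1, e2, e3⟩ := hu c (Finset.univ.image fun x : T => u x * x.1) (by
    intro y hy
    obtain ⟨x, -, rfl⟩ := Finset.mem_image.1 hy
    exact h3 x)
  refine ⟨e, h.le _ _ e1, e2, fun x hx => ?_⟩
  have e4 := e3 _ (Finset.mem_image_of_mem _ (Finset.mem_univ (⟨x, hx⟩ : T)))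
  rw [a13a_swap (hI.cen a _ (h2 _))] at e4
  exact (hU a _ (h2 ⟨x, hx⟩)).mul_left_cancel e4

theorem IsLoc.clear (hH : Good H S) (hU : Uni S) (h : IsLoc H (S a) H') {J J' : Type} [Finite J]
    [Finite J'] {d : ℤ} {s : J → Λ × ℤ} {t : J' → Λ × ℤ} {f : Matrix J J' A}
    (hf : Hm H' d s t f) : ∃ w ∈ S a, Hm H d s t (w • f) := by
  classical
  have h1 : ∀ T : Finset (J × J'), ∃ w ∈ S a, ∀ p ∈ T,
      w * f p.1 p.2 ∈ H (s p.1).1 (t p.2).1 := by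
    intro T
    induction T using Finset.induction_on with
    | empty => exact ⟨1, one_mem _, fun p hp => absurd hp (Finset.notMem_empty p)⟩
    | insert q T _ ih =>
      obtain ⟨u, hu, h2⟩ := ih
      obtain ⟨u', hu', h3⟩ := (h _ _ _).1 (hf q.1 q.2).1
      refine ⟨u * u', mul_mem hu hu', fun p hp => ?_⟩
      rw [mul_assoc]
      rcases Finset.mem_insert.1 hp with rfl | hp
      · exact hH.stab a u hu h3
      · rw [a13a_swap (hH.cen a u' hu')]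
        exact hH.stab a u' hu' (h2 p hp)
  have := Fintype.ofFinite (J × J')
  obtain ⟨u, hu, h2⟩ := h1 Finset.univ
  exact ⟨u, hu, fun i j => ⟨h2 (i, j) (Finset.mem_univ _),
    fun e => (hf i j).2 fun e1 => e (by rw [Matrix.smul_apply, e1, smul_zero])⟩⟩

theorem a13a_inv (hH : Good H S) (h : IsLoc H (S a) H') (hw : w ∈ S a) (e : w' * w = 1) :
    Sc H' w' := by
  have hc := hH.cen a w hw
  have e' : w * w' = 1 := by rw [hc, e]
  refine ⟨fun x => ?_, fun i j x hx => ?_⟩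
  · calc w' * x = w' * (x * (w * w')) := by rw [e', mul_one]
      _ = w' * w * (x * w') := by rw [a13a_swap hc x w', mul_assoc]
      _ = x * w' := by rw [e, one_mul]
  · obtain ⟨u, hu, hx⟩ := (h _ _ _).1 hx
    refine (h _ _ _).2 ⟨u * w, mul_mem hu hw, ?_⟩
    rwa [mul_assoc, ← mul_assoc w, e', one_mul]

theorem IsLoc.inv (hH : Good H S) (hU : Uni S) (h : IsLoc H (S a) H') (hw : w ∈ S a) :
    ∃ w', w' * w = 1 ∧ Sc H' w' := by
  obtain ⟨w', e⟩ := (hU a w hw).exists_left_inv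
  exact ⟨w', e, a13a_inv hH h hw e⟩

theorem IsLoc.nul (hH : Good H S) (hU : Uni S) (h : IsLoc H (S a) H') (hX : Nul H' 1 X) :
    ∃ w ∈ S a, Nul H w X := by
  obtain ⟨s, h1, h2⟩ := hX
  obtain ⟨u, hu, h3⟩ := h.clear hH hU h1
  refine ⟨u, hu, u • s, h3, ?_⟩
  rw [mul_smul_cen (hH.cen a u hu), Matrix.smul_mul, ← smul_add, h2, one_smul]

theorem IsLoc.nulMod (hH : Good H S) (hI : Good I S) (hU : Uni S) (h : IsLoc H (S a) H')
    (h' : IsLoc I (S a) I') (hw : w ∈ S a) (hX : NulMod H I w X) : NulMod H' I' 1 X := by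
  obtain ⟨s, h1, h2⟩ := hX
  obtain ⟨u, e, hu⟩ := h.inv hH hU hw
  refine ⟨u • s, (h1.mono h.le).smul hu, ?_⟩
  have h3 := (h2.mono h'.le).smul (a13a_inv hI h' hw e)
  rwa [smul_sub, smul_smul, e, smul_add, ← mul_smul_cen hu.1, ← Matrix.smul_mul] at h3

theorem a13a_zpow {u : Aˣ} (h : Sc H (u : A)) (h' : Sc H ((u⁻¹ : Aˣ) : A)) (n : ℤ) :
    Sc H ((u ^ n : Aˣ) : A) := by
  obtain ⟨k, rfl | rfl⟩ := n.eq_nat_or_neg
  · rw [zpow_natCast, Units.val_pow_eq_pow_val]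
    exact h.pow k
  · rw [_root_.zpow_neg, zpow_natCast, ← inv_pow, Units.val_pow_eq_pow_val]
    exact h'.pow k

theorem a13a_hm {J J' : Type} [Fintype J] [DecidableEq J] {d : ℤ} {s : J → Λ × ℤ}
    {t : J' → Λ × ℤ} {f : Matrix J J' A} {c : J → A} (hc : ∀ i, Sc H (c i))
    (hf : Hm H d s t f) : Hm H d s t (diagonal c * f) := fun i j => by
  rw [diagonal_mul]
  exact ⟨(hc i).2 (hf i j).1, fun e => (hf i j).2 (right_ne_zero_of_mul e)⟩

theorem a13a_comm {J : Type} [Fintype J] [DecidableEq J] {d : ℤ} {s : J → Λ × ℤ}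
    {f : Matrix J J A} {c : ℤ → A} (hc : ∀ n, Sc H (c n)) {x : A}
    (hx : ∀ n, c (n + d) = x * c n) (hf : Hm H d s s f) :
    diagonal (fun i => c (s i).2) * f = (x • f) * diagonal fun i => c (s i).2 := by
  ext i j
  rw [diagonal_mul, mul_diagonal, Matrix.smul_apply, smul_eq_mul]
  by_cases e : f i j = 0
  · simp [e]
  · rw [(hf i j).2 e, hx, mul_assoc, mul_assoc, (hc _).1]

theorem he_scale (hX : Ok H X) (hw : Sc H w) (hw' : Sc H w') (h : w' * w = 1) :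
    Ok H (X.re X.p (w • X.D)) ∧ HE H X (X.re X.p (w • X.D)) := by
  have pD : X.p * w • X.D = w • X.D := by rw [mul_smul_cen hw.1, hX.pD]
  have Dp : (w • X.D) * X.p = w • X.D := by rw [Matrix.smul_mul, hX.Dp]
  refine ⟨⟨hX.hp, hX.hD.smul hw, hX.pp, pD, Dp, ?_⟩, ?_⟩
  · change (w • X.D) * (w • X.D) = 0
    rw [mul_smul_cen hw.1, Matrix.smul_mul, hX.DD, smul_zero, smul_zero]
  obtain ⟨u, rfl, rfl⟩ : ∃ u : Aˣ, (u : A) = w ∧ ((u⁻¹ : Aˣ) : A) = w' :=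
    ⟨⟨w, w', by rw [hw.1, h], h⟩, rfl, rfl⟩
  have hc := a13a_zpow hw hw'
  obtain ⟨C, hC⟩ : ∃ C, C = diagonal fun i => ((u ^ (-(X.t i).2) : Aˣ) : A) := ⟨_, rfl⟩
  obtain ⟨C', hC'⟩ : ∃ C', C' = diagonal fun i => ((u ^ (X.t i).2 : Aˣ) : A) := ⟨_, rfl⟩
  have e1 : C * C' = 1 := by
    rw [hC, hC', diagonal_mul_diagonal, ← diagonal_one]
    congr 1
    funext i
    rw [← Units.val_mul, ← _root_.zpow_add, neg_add_cancel, zpow_zero, Units.val_one]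
  have e2 : C' * C = 1 := by
    rw [hC, hC', diagonal_mul_diagonal, ← diagonal_one]
    congr 1
    funext i
    rw [← Units.val_mul, ← _root_.zpow_add, add_neg_cancel, zpow_zero, Units.val_one]
  have e3 : C * X.p = X.p * C := by
    have := a13a_comm (c := fun n => ((u ^ (-n) : Aˣ) : A)) (fun n => hc _) (x := 1)
      (fun n => by rw [add_zero, one_mul]) hX.hp
    rwa [one_smul, ← hC] at this
  have e4 : C' * X.p = X.p * C' := by
    have := a13a_comm (c := fun n => ((u ^ n : Aˣ) : A)) hc (x := 1)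
      (fun n => by rw [add_zero, one_mul]) hX.hp
    rwa [one_smul, ← hC'] at this
  have e5 : C * X.D = ((u : A) • X.D) * C := by
    have := a13a_comm (c := fun n => ((u ^ (-n) : Aˣ) : A)) (fun n => hc _) (x := u)
      (fun n => by rw [neg_add, neg_neg, add_comm, _root_.zpow_one_add, Units.val_mul]) hX.hD
    rwa [← hC] at this
  have e6 : X.D * C' = C' * ((u : A) • X.D) := by
    calc X.D * C' = C' * (C * X.D) * C' := by rw [← Matrix.mul_assoc, e2, Matrix.one_mul]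
      _ = _ := by rw [e5, Matrix.mul_assoc, Matrix.mul_assoc, e1, Matrix.mul_one]
  have pC : ∀ B : Matrix X.J X.J A, B * X.p = X.p * B → X.p * (B * X.p) = B * X.p := by
    intro B hB
    rw [← Matrix.mul_assoc, ← hB, Matrix.mul_assoc, hX.pp]
  have Cp : ∀ B : Matrix X.J X.J A, B * X.p * X.p = B * X.p := by
    intro B
    rw [Matrix.mul_assoc, hX.pp]
  refine ⟨C * X.p, C' * X.p, 0, 0, ⟨⟨?_, pC C e3, Cp C⟩, ?_⟩, ⟨⟨?_, pC C' e4, Cp C'⟩, ?_⟩,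
    Hm.zero _ _, Hm.zero _ _, ?_, ?_⟩
  · rw [hC]
    exact a13a_hm (fun i => hc _) hX.hp
  · change ((u : A) • X.D) * (C * X.p) = C * X.p * X.D
    rw [← Matrix.mul_assoc, ← e5, Matrix.mul_assoc, Matrix.mul_assoc, hX.Dp, hX.pD]
  · rw [hC']
    exact a13a_hm (fun i => hc _) hX.hp
  · change X.D * (C' * X.p) = C' * X.p * ((u : A) • X.D)
    rw [← Matrix.mul_assoc, e6, Matrix.mul_assoc, Matrix.mul_assoc, Dp, pD]
  · rw [Matrix.mul_assoc, pC C e3, ← Matrix.mul_assoc, e2]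
    simp
  · change C * X.p * (C' * X.p) + _ = X.p
    rw [Matrix.mul_assoc, pC C' e4, ← Matrix.mul_assoc, e1]
    simp

theorem a13a_ch (hX : Ok H X) (hY : Ok H Y) (hw : Sc H w) {t : Matrix X.J Y.J A}
    (ht : Tw H X Y t) :
    Ch H (X.ext Y (w • t)) (X.ext Y t) (fromBlocks (w • X.p) 0 0 Y.p) := by
  refine ⟨⟨Hm.blocks (hX.hp.smul hw) (Hm.zero _ _) (Hm.zero _ _) hY.hp, ?_, ?_⟩, ?_⟩
  · simp [fromBlocks_multiply, mul_smul_cen hw.1, hX.pp, hY.pp]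
  · simp [fromBlocks_multiply, hX.pp, hY.pp]
  · simp [fromBlocks_multiply, mul_smul_cen hw.1, hX.pD, hX.Dp, hY.pD, hY.Dp, ht.pl, ht.pr]

theorem he_scale_tw (hX : Ok H X) (hY : Ok H Y) (hw : Sc H w) (hw' : Sc H w') (h : w' * w = 1)
    {t : Matrix X.J Y.J A} (ht : Tw H X Y t) : HE H (X.ext Y t) (X.ext Y (w • t)) := by
  have h' : w * w' = 1 := by rw [hw.1, h]
  have ht' : Tw H X Y (w • t) :=
    ⟨⟨ht.hm.smul hw, by rw [mul_smul_cen hw.1, ht.pl], by rw [Matrix.smul_mul, ht.pr]⟩, by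
      rw [mul_smul_cen hw.1, Matrix.smul_mul, ← smul_add, ht.cm, smul_zero]⟩
  have h2 := a13a_ch hX hY hw' ht'
  rw [smul_smul, h, one_smul] at h2
  refine ⟨_, _, 0, 0, a13a_ch hX hY hw ht, h2, Hm.zero _ _, Hm.zero _ _, ?_, ?_⟩
  · simp [fromBlocks_multiply, mul_smul_cen hw.1, hX.pp, hY.pp, smul_smul, h']
  · simp [fromBlocks_multiply, mul_smul_cen hw'.1, hX.pp, hY.pp, smul_smul, h]

end Pool.Agent.MP_f7db47_al.KN
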