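import Pool.Agent.MP_f7db47_al.KN.A7
import Pool.Agent.MP_f7db47_al.KN.A11
import Pool.Agent.MP_f7db47_al.KN.A12a
import Pool.Agent.MP_f7db47_al.KN.A13a

/-!
Lifting complexes from a localisation.
-/

namespace Pool.Agent.MP_f7db47_al.KN

open Matrix

universe v w

variable {A : Type v} [Ring A] {Λ ι : Type} {H H' I I' : Fam A Λ} {S : ι → Submonoid A}
  {K K' : Finset ι} {W : Set ℤ} {X X' Y Y' Z : Cx A Λ} {w w' : A}

variable {a : ι}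

/-- Complexes that come from `I`. -/
def Lf (I I' : Fam A Λ) (S : ι → Submonoid A) (K : Finset ι) (X : Cx A Λ) : Prop :=
  ∃ Z, Obj I S K Z ∧ HE I' X Z

theorem a13_he (hH : LR I') (h : Lf I I' S K Y) (e : HE I' X Y) : Lf I I' S K X :=
  h.imp fun _ c => ⟨c.1, e.trans hH c.2⟩

theorem a13_self (hle : I ≤ I') (h : Obj I S K X) : Lf I I' S K X :=
  ⟨X, h, HE.refl (h.ok.mono hle)⟩

theorem a13_dense (hI : Good I S) (hU : Uni S) (hu : LU I) (h : IsLoc I (S a) I')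
    (hX : Obj I' S K X) (hD : Hm I (-1) X.t X.t X.D) :
    ∃ X', Obj I' S K X' ∧ Lf I I' S K (X.sum X') := by
  have hI' := IsLoc.good hI h
  have o := hX.ok
  obtain ⟨w, hw, h1⟩ := IsLoc.clear hI hU h o.hp
  obtain ⟨w', h2, -⟩ := IsLoc.inv hI hU h hw
  obtain ⟨u, u1, u2, u3, -⟩ := hu.mat h1
  have up : u * X.p = X.p := by
    have := congrArg (fun M => w' • M) u3
    simpa only [mul_smul_cen (hI.cen a w hw), smul_smul, h2, one_smul] using this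
  have uD : u * X.D = X.D := by rw [← o.pD, ← Matrix.mul_assoc, up]
  have hY : Ok I (X.re u (X.D * u)) :=
    ⟨u1, Hm.mul hI.mul hD u1 (by omega), u2, by rw [← Matrix.mul_assoc, uD],
      by rw [Matrix.mul_assoc, u2],
      by rw [Matrix.mul_assoc, ← Matrix.mul_assoc u, uD, ← Matrix.mul_assoc, o.DD, Matrix.zero_mul]⟩
  have hi : Ch I' (X.re u (X.D * u)) X X.p :=
    ⟨⟨o.hp, up, o.pp⟩, by rw [Matrix.mul_assoc, up, o.Dp, o.pD]⟩
  have hr : Ch I' X (X.re u (X.D * u)) (X.p * u) :=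
    ⟨⟨Hm.mul hI'.mul o.hp (u1.mono h.le) (by omega), by rw [← Matrix.mul_assoc, o.pp],
      by rw [Matrix.mul_assoc, u2]⟩, by
      rw [← Matrix.mul_assoc, o.Dp, Matrix.mul_assoc, ← Matrix.mul_assoc u, uD,
        ← Matrix.mul_assoc, o.pD]⟩
  obtain ⟨P, f, i, p1, p2, p3, p4, -⟩ := kos hI hI' h.le K hY hX hr
  obtain ⟨q1, q2, q3⟩ := retract hI'.mul (p1.ok.mono h.le) o
    (Ch.comp hI'.mul (p3.mono h.le) hi) p2
    (by rw [← Matrix.mul_assoc, p4, Matrix.mul_assoc, up, o.pp])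
  exact ⟨_, ⟨q1, fun b hb => (p1.tor b hb).imp fun c hc =>
    ⟨hc.1, q3 c (hI.cen b c hc.1) (hc.2.mono h.le)⟩⟩, P, p1, q2.symm⟩

theorem Lf.dense (hI : Good I S) (hU : Uni S) (hu : LU I) (h : IsLoc I (S a) I')
    (hX : Obj I' S K X) : ∃ X', Obj I' S K X' ∧ Lf I I' S K (X.sum X') := by
  have hI' := IsLoc.good hI h
  obtain ⟨w, hw, h1⟩ := IsLoc.clear hI hU h hX.ok.hD
  obtain ⟨w', h2, h3⟩ := IsLoc.inv hI hU h hw
  obtain ⟨o, e⟩ := he_scale hX.ok (hI'.sc hw) h3 h2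
  obtain ⟨X', h4, h5⟩ := a13_dense hI hU hu h (hX.he hI' o e) h1
  exact ⟨X', h4, a13_he hI'.mul h5 (e.sum_left h4.ok)⟩

theorem Lf.ext (hI : Good I S) (hU : Uni S) (h : IsLoc I (S a) I') (hX : Ok I' X) (hY : Ok I' Y)
    {t : Matrix X.J Y.J A} (ht : Tw I' X Y t) (h1 : Lf I I' S K X) (h2 : Lf I I' S K Y) :
    Lf I I' S K (X.ext Y t) := by
  have hI' := IsLoc.good hI h
  obtain ⟨P, p1, p2⟩ := h1
  obtain ⟨Q, q1, q2⟩ := h2
  obtain ⟨t', t1, t2⟩ := ext_congr hI'.mul hX (p1.ok.mono h.le) hY (q1.ok.mono h.le) p2 q2 ht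
  obtain ⟨w, hw, h3⟩ := IsLoc.clear hI hU h t1.hm
  obtain ⟨w', h4, h5⟩ := IsLoc.inv hI hU h hw
  have t3 := t1.smul (hI'.sc hw)
  exact ⟨_, Obj.ext hI ⟨⟨h3, t3.pl, t3.pr⟩, t3.cm⟩ p1 q1, t2.trans hI'.mul
    (he_scale_tw (p1.ok.mono h.le) (q1.ok.mono h.le) (hI'.sc hw) h5 h4 t1)⟩

theorem Lf.cancel (hI : Good I S) (hU : Uni S) (h : IsLoc I (S a) I') (hX : Ok I' X)
    (hY : Ok I' Y) (h1 : Lf I I' S K (X.sum Y)) (h2 : Lf I I' S K Y) : Lf I I' S K X := by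
  have hI' := IsLoc.good hI h
  obtain ⟨P, p1, p2⟩ := h1
  obtain ⟨Q, q1, q2⟩ := h2
  obtain ⟨g, g1, g2⟩ := cone_sum hI'.mul hX (q1.ok.mono h.le) (p1.ok.mono h.le)
    (p2.symm.trans hI'.mul (q2.sum_right hX))
  exact a13_he hI'.mul (Lf.ext hI hU h (p1.ok.mono h.le) ((q1.ok.mono h.le).sh 1) g1.tw
    (a13_self h.le p1) (a13_self h.le (q1.sh 1))) g2.symm

theorem lift (hI : Good I S) (hU : Uni S) (hu : LU I) (h : IsLoc I (S a) I')
    (hX : Obj I' S K X) (hc : Cert I' S K W X) : Lf I I' S K X := by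
  have hI' := IsLoc.good hI h
  obtain ⟨P, Q, B, t, t', c, e, e'⟩ := hc
  obtain ⟨P', p1, p2⟩ := Lf.dense hI hU hu h c.oP
  obtain ⟨Q', q1, q2⟩ := Lf.dense hI hU hu h c.oQ
  have hR := p1.ok.sum q1.ok
  have key : ∀ (s : Matrix P.J Q.J A) (Y : Cx A Λ), Tw I' P Q s → HE I' (P.ext Q s) Y →
      Lf I I' S K (Y.sum (P'.sum Q')) := fun s Y hs he =>
    a13_he hI'.mul (Lf.ext hI hU h (c.oP.ok.sum p1.ok) (c.oQ.ok.sum q1.ok)
      (tw_sum hs (Tw.zero P' Q')) p2 q2)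
      (((sub_ext_sum s 0).he_left.2 (he.sum_left hR)).symm)
  exact Lf.cancel hI hU h hX.ok (c.oB.ok.sum hR)
    (a13_he hI'.mul (key t _ c.ht e)
      ((sub_sum_assoc X B _).2.he ((hX.ok.sum c.oB.ok).sum hR))) (key t' _ c.ht' e')

end Pool.Agent.MP_f7db47_al.KN
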