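import Pool.Agent.MP_f7db47_al.KN.A14a

/-!
Cutting a complex into two pieces.
-/

namespace Pool.Agent.MP_f7db47_al.KN

open Matrix

universe v w

variable {A : Type v} [Ring A] {Λ ι : Type} {H H' I I' : Fam A Λ} {S : ι → Submonoid A}
  {K K' : Finset ι} {W : Set ℤ} {X X' Y Y' Z : Cx A Λ} {w w' : A}

theorem cut {I₁ I₂ : Fam A Λ} (hH : Good H S) (hI : Good I S) (hU : Uni S) (hid : Idl I H)
    (h1 : Idl I₁ H) (h2 : Idl I₂ H) (l1 : I ≤ I₁) (l2 : I ≤ I₂)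
    (h21 : ∀ ⦃a b c : Λ⦄ ⦃x y : A⦄, x ∈ I₂ a b → y ∈ I₁ b c → x * y ∈ I a c) (hu : LU I)
    (hL : NL I S K) {Fr : Cx A Λ → Prop} (hFr : Stdz I Fr) (hX : Obj H S K X)
    {e : Matrix X.J X.J A} (he : Cut H X e) (e1 : Hm I₁ 0 X.t X.t e)
    (e2 : Hm I₂ 0 X.t X.t (X.p - e)) :
    ∃ (Z : Cx A Λ) (t₁ : Matrix X.J Z.J A) (t₂ : Matrix X.J Z.J A)
      (τ : Matrix (X.J ⊕ Z.J) (X.J ⊕ Z.J) A), Fr Z ∧
      Obj I₁ S K ((X.sub e).ext (Z.sh (-1)) t₁) ∧ Obj I₂ S K ((X.quo e).ext Z t₂) ∧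
      Tw H ((X.sub e).ext (Z.sh (-1)) t₁) ((X.quo e).ext Z t₂) τ ∧
      HE H (((X.sub e).ext (Z.sh (-1)) t₁).ext ((X.quo e).ext Z t₂) τ) X := by
  obtain ⟨o1, o2, tw, h0⟩ := tri hH.mul hX.ok he
  obtain ⟨Z₀, t, z0, t0, ob⟩ := approx hH hI hU hid hu hL o2 fun a ha => by
    obtain ⟨w, hw, h⟩ := hX.tor a ha
    exact ⟨w, hw, NulMod.quo hH.mul h1 h2 h21 hX.ok (hH.cen a w hw) he e1 e2 h⟩
  obtain ⟨Z, z1, fr, hz⟩ := hFr Z₀ z0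
  obtain ⟨f, g, h, k, hz⟩ := hz.mono hid.le
  have z2 := z1.mono hid.le
  have t1 := t0.comp_right hH.mul hz.hg
  have b2 := ob.he hH (o2.ext z2 t1) (ext_congr_right hH.mul o2 (z0.mono hid.le) z2 hz t0)
  obtain ⟨m1, m2, m3⟩ := ext_mod hH.mul o1 o2 z2 tw t1
  have k1 := o1.ext (z2.sh (-1)) m1
  have m4 := m3.trans hH.mul h0.symm
  have b1 := Obj.left hH m2 k1 (hX.he hH (k1.ext b2.ok m2) m4.symm) b2
  exact ⟨Z, _, _, _, fr,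
    b1.idl hH h1 (Hm.blocks e1 (Hm.zero _ _) (Hm.zero _ _) ((z1.sh (-1)).hp.mono l1)),
    b2.idl hH h2 (Hm.blocks e2 (Hm.zero _ _) (Hm.zero _ _) (z1.hp.mono l2)), m2, m4⟩

end Pool.Agent.MP_f7db47_al.KN
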