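import Pool.Agent.MP_f7db47_al.KN.A12
import Pool.Agent.MP_f7db47_al.KN.A13

/-!
Approximation by complexes over an ideal.
-/

namespace Pool.Agent.MP_f7db47_al.KN

open Matrix

universe v w

variable {A : Type v} [Ring A] {Λ ι : Type} {H H' I I' : Fam A Λ} {S : ι → Submonoid A}
  {K K' : Finset ι} {W : Set ℤ} {X X' Y Y' Z : Cx A Λ} {w w' : A}

theorem approx_step [DecidableEq ι] (hH : Good H S) (hI : Good I S) (hU : Uni S) (hid : Idl I H)
    (hu : LU I) {a : ι} (h' : IsLoc I (S a) I') (hN : NullAll I' S K) (hX : Obj H S K X)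
    (hw : w ∈ S a) (h : NulMod H I w X) :
    ∃ Z t, Ok I Z ∧ Tw H X Z t ∧ Obj H S (insert a K) (X.ext Z t) := by
  obtain ⟨H', hl⟩ := exists_loc hH a
  have hH' : Good H' S := hl.good hH
  have hid' : Idl I' H' := hl.idl hH hid h'
  have hX' : Obj H' S K X := hX.mono hl.le
  obtain ⟨M, hM, e⟩ := ran hH'.mul hid' (h'.lu hI hU hu) hX'.ok (hl.nulMod hH hI hU h' hw h)
  have hMo : Obj I' S K M := (hX'.he hH' (hM.mono hid'.le) e).idl hH' hid' hM.hp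
  obtain ⟨Z, hZ, e'⟩ := lift hI hU hu h' hMo (hN M hMo)
  obtain ⟨f, g, s, k, c⟩ := (e.trans hH'.mul (e'.mono hid'.le)).symm
  obtain ⟨u, hu1, hf⟩ := hl.clear hH hU c.hf.hm
  obtain ⟨u', huu, hu'⟩ := hl.inv hH hU hu1
  have hsc : Sc H' u := hH'.sc hu1
  have hf' : Ch H' X Z (u • f) := c.hf.smul hsc
  have hfH : Ch H X Z (u • f) := ⟨⟨hf, hf'.pl, hf'.pr⟩, hf'.cm⟩
  have hZH : Obj H S K Z := hZ.mono hid.le
  have c' : HEd H' Z X (u • f) (u' • g) s k := by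
    refine ⟨hf', c.hg.smul hu', c.hh, c.hk, ?_, ?_⟩
    · rw [mul_smul_cen hsc.1, Matrix.smul_mul, smul_smul, hsc.1, huu, one_smul]
      exact c.gf
    · rw [mul_smul_cen hu'.1, Matrix.smul_mul, smul_smul, huu, one_smul]
      exact c.fg
  obtain ⟨u₂, hu₂, hn⟩ := hl.nul hH hU (cone_nul hH'.mul (hZH.ok.mono hl.le) hX'.ok c')
  have ho : Obj H S K (X.ext (Z.sh 1) (u • f)) := hX.ext hH hfH.tw (hZH.sh 1)
  refine ⟨Z.sh 1, u • f, hZ.ok.sh 1, hfH.tw, ho.ok, fun b hb => ?_⟩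
  rcases Finset.mem_insert.1 hb with rfl | hb
  · exact ⟨u₂, hu₂, hn⟩
  · exact ho.tor b hb

theorem approx (hH : Good H S) (hI : Good I S) (hU : Uni S) (hid : Idl I H) (hu : LU I)
    (hL : NL I S K) (hX : Ok H X) (h : ∀ a ∈ K, ∃ w ∈ S a, NulMod H I w X) :
    ∃ Z t, Ok I Z ∧ Tw H X Z t ∧ Obj H S K (X.ext Z t) := by
  classical
  suffices key : ∀ T : Finset ι, T ⊆ K →
      ∃ Z t, Ok I Z ∧ Tw H X Z t ∧ Obj H S T (X.ext Z t) from key K Finset.Subset.rfl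
  intro T
  induction T using Finset.induction_on with
  | empty =>
    exact fun _ => ⟨Cx.zero A Λ, 0, Ok.zero, Tw.zero _ _, hX.ext Ok.zero (Tw.zero _ _),
      fun a ha => absurd ha (Finset.notMem_empty a)⟩
  | insert a T ha ih =>
    intro hT
    have haK : a ∈ K := hT (Finset.mem_insert_self a T)
    have hTK : T ⊆ K := (Finset.subset_insert a T).trans hT
    obtain ⟨Z, t, hZ, ht, ho⟩ := ih hTK
    obtain ⟨I', h', hN⟩ := hL a haK
    obtain ⟨w, hw, hn⟩ := h a haK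
    obtain ⟨Z', t', hZ', ht', ho'⟩ := approx_step hH hI hU hid hu h' (hN T hTK ha) ho hw
      (hn.ext hid (hI.sc hw) ht hZ)
    obtain ⟨c, b, rfl⟩ : ∃ c b, t' = fromRows c b := ⟨_, _, (fromRows_toRows t').symm⟩
    obtain ⟨hb, hc⟩ := tw_rows ht ht'
    exact ⟨Z.ext Z' b, fromCols t c, hZ.ext hZ' ⟨hb.toMp.idl_left hid hZ.hp, hb.cm⟩, hc,
      (sub_ext_assoc t c b).1.obj_iff.1 ho'⟩

end Pool.Agent.MP_f7db47_al.KN
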