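import Pool.Agent.MP_f7db47_al.KN.A15b
import Pool.Agent.MP_f7db47_al.KN.A10b

/-!
Certificates of bounded length.
-/

namespace Pool.Agent.MP_f7db47_al.KN

open Matrix

universe v w

variable {A : Type v} [Ring A] {Λ ι : Type} {H H' I I' : Fam A Λ} {S : ι → Submonoid A}
  {K K' : Finset ι} {W : Set ℤ} {X X' Y Y' Z : Cx A Λ} {w w' : A}

theorem window_bot (hH : Good H S) {a b : ℤ} (hab : a + K.card + 1 ≤ b) (hX : Obj H S K X)
    (hW : Wd (Set.Icc (a + 1) b) X) (h : Cert H S K (Set.Icc a b) X) :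
    Cert H S K (Set.Icc (a + 1) b) X := by
  obtain ⟨P, Q, B, t, t', d, e1, e2⟩ := h
  obtain ⟨R, P₀, Q₀, τ, τ', κ, κ', oP, oQ, wP, wQ, h1, h2, c1, c2⟩ :=
    horseshoe hH hab d.oP d.oQ d.wP d.wQ d.ht d.ht'
  obtain ⟨R', B₀, β, c⟩ := exists_cov hH hab d.oB d.wB
  obtain ⟨M, _, ⟨E⟩⟩ := exists_KS hH K (Set.Icc (a + 1) b)
  have s1 := Cov.schanuel hH E (d.oP.ok.ext d.oQ.ok d.ht) (hX.ok.sum d.oB.ok) e1 c1
    (Cov.sum hH hX hW d.oB.ok c)
  have s2 := Cov.schanuel hH E (d.oP.ok.ext d.oQ.ok d.ht') d.oB.ok e2 c2 c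
  rw [E.ext oP oQ wP wQ h1, E.sum hX c.o0 hW c.w0] at s1
  rw [E.ext oP oQ wP wQ h2, s1, add_left_inj, add_eq_right] at s2
  exact (E.zero_iff hX hW).1 s2

theorem window_top (hH : Good H S) {a b : ℤ} (hab : a + K.card + 1 ≤ b) (hX : Obj H S K X)
    (hW : Wd (Set.Icc a (b - 1)) X) (h : Cert H S K (Set.Icc a b) X) :
    Cert H S K (Set.Icc a (b - 1)) X := by
  obtain ⟨G, S', τ, τ', hG, h1, h2, h3⟩ := exists_op hH
  have h4 := hW.op (τ := τ)
  rw [show -(b - 1) = -b + 1 by ring] at h4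
  have h5 := (window_bot hG (by omega) (hX.op h1) h4 (h.op h1)).op h2
  rwa [op_op h3, neg_neg, show -(-b + 1) = b - 1 by ring] at h5

theorem a15_step (hH : Good H S) {L : ℕ} (hX : Obj H S K X) (hL : Bd L X) (m : ℕ)
    (h : Cert H S K (Set.Icc (-((L + K.card + 1 + m : ℕ) : ℤ)) ((L + K.card + 1 + m : ℕ) : ℤ)) X) :
    Cert H S K (Set.Icc (-((L + K.card + 1 : ℕ) : ℤ)) ((L + K.card + 1 : ℕ) : ℤ)) X := by
  induction m with
  | zero => exact h
  | succ m ih =>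
    have h1 := window_bot hH (by omega) hX (hL.mono (Set.Icc_subset_Icc (by omega) (by omega))) h
    have h2 := window_top hH (by omega) hX (hL.mono (Set.Icc_subset_Icc (by omega) (by omega))) h1
    exact ih (h2.mono le_rfl (Set.Icc_subset_Icc (by omega) (by omega)))

theorem window (hH : Good H S) {L : ℕ} (hX : Obj H S K X) (hL : Bd L X)
    (h : Cert H S K Set.univ X) :
    Cert H S K (Set.Icc (-((L + K.card + 1 : ℕ) : ℤ)) ((L + K.card + 1 : ℕ) : ℤ)) X := by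
  obtain ⟨P, Q, B, t, t', d, e1, e2⟩ := h
  obtain ⟨L1, h1⟩ := exists_bd P
  obtain ⟨L2, h2⟩ := exists_bd Q
  obtain ⟨L3, h3⟩ := exists_bd B
  exact a15_step hH hX hL (L1 + L2 + L3) ⟨P, Q, B, t, t', ⟨d.oP, d.oQ, d.oB,
    h1.mono (Set.Icc_subset_Icc (by omega) (by omega)),
    h2.mono (Set.Icc_subset_Icc (by omega) (by omega)),
    h3.mono (Set.Icc_subset_Icc (by omega) (by omega)), d.ht, d.ht'⟩, e1, e2⟩

end Pool.Agent.MP_f7db47_al.KN
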