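import Pool.Agent.MP_f7db47_al.KN.A8a

/-!
The Grothendieck group.
-/

namespace Pool.Agent.MP_f7db47_al.KN

open Matrix

universe v w

variable {A : Type v} [Ring A] {Λ ι : Type} {H H' I I' : Fam A Λ} {S : ι → Submonoid A}
  {K K' : Finset ι} {W : Set ℤ} {X X' Y Y' Z : Cx A Λ} {w w' : A}

theorem a8_wd_zero (W : Set ℤ) : Wd W (Cx.zero A Λ) := fun j => j.elim

/-- The objects in the window. -/
abbrev a8_O (H : Fam A Λ) (S : ι → Submonoid A) (K : Finset ι) (W : Set ℤ) : Type (max 1 v) :=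
  {X : Cx A Λ // Obj H S K X ∧ Wd W X}

/-- The relation on the objects in the window. -/
def a8_setoid (hH : Good H S) (K : Finset ι) (W : Set ℤ) : Setoid (a8_O H S K W) where
  r X Y := Sim H S K W X.1 Y.1
  iseqv :=
    ⟨fun X => Sim.of_he hH X.2.1 X.2.2 X.2.1.ok (HE.refl X.2.1.ok), fun h => h.symm,
      fun {X Y Z} h h' => Sim.trans hH X.2.1.ok Y.2.1 Y.2.2 Z.2.1.ok h h'⟩

/-- The sum of objects in the window. -/
def a8_add (hH : Good H S) (X Y : a8_O H S K W) : a8_O H S K W :=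
  ⟨X.1.sum Y.1, Obj.sum hH X.2.1 Y.2.1, X.2.2.ext Y.2.2 _⟩

theorem a8_of_he (hH : Good H S) {X Y : a8_O H S K W} (e : HE H X.1 Y.1) :
    (a8_setoid hH K W).r X Y := Sim.of_he hH X.2.1 X.2.2 Y.2.1.ok e

theorem a8_comm (hH : Good H S) (X Y : a8_O H S K W) :
    (a8_setoid hH K W).r (a8_add hH X Y) (a8_add hH Y X) :=
  a8_of_he hH ((sub_sum_comm X.1 Y.1).he (a8_add hH Y X).2.1.ok)

theorem a8_left (hH : Good H S) {X Y : a8_O H S K W} (Z : a8_O H S K W)
    (h : (a8_setoid hH K W).r X Y) : (a8_setoid hH K W).r (a8_add hH X Z) (a8_add hH Y Z) :=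
  Sim.sum hH X.2.1.ok Y.2.1.ok Z.2.1 Z.2.2 h

/-- The monoid of classes. -/
def a8_Q (hH : Good H S) (K : Finset ι) (W : Set ℤ) : Type (max 1 v) :=
  Quotient (a8_setoid hH K W)

/-- The class of an object. -/
def a8_mk (hH : Good H S) (X : a8_O H S K W) : a8_Q hH K W := Quotient.mk _ X

theorem a8_ind (hH : Good H S) {P : a8_Q hH K W → Prop} (h : ∀ X, P (a8_mk hH X))
    (x : a8_Q hH K W) : P x := Quotient.inductionOn x h

theorem a8_eq (hH : Good H S) {X Y : a8_O H S K W} :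
    a8_mk hH X = a8_mk hH Y ↔ Sim H S K W X.1 Y.1 := Quotient.eq

instance a8_instAdd (hH : Good H S) (K : Finset ι) (W : Set ℤ) : Add (a8_Q hH K W) :=
  ⟨Quotient.map₂ (a8_add hH) fun X X' h Y Y' h' =>
    (a8_setoid hH K W).trans (a8_left hH Y h) <|
      (a8_setoid hH K W).trans (a8_comm hH X' Y) <|
        (a8_setoid hH K W).trans (a8_left hH X' h') (a8_comm hH Y' X')⟩

instance a8_instZero (hH : Good H S) (K : Finset ι) (W : Set ℤ) : Zero (a8_Q hH K W) :=
  ⟨a8_mk hH ⟨Cx.zero A Λ, Obj.zero, a8_wd_zero W⟩⟩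

theorem a8_mk_add (hH : Good H S) (X Y : a8_O H S K W) :
    a8_mk hH X + a8_mk hH Y = a8_mk hH (a8_add hH X Y) := rfl

theorem a8_zero (hH : Good H S) :
    (0 : a8_Q hH K W) = a8_mk hH ⟨Cx.zero A Λ, Obj.zero, a8_wd_zero W⟩ := rfl

theorem a8_add_comm (hH : Good H S) (x y : a8_Q hH K W) : x + y = y + x := by
  induction x using a8_ind hH with
  | h X =>
    induction y using a8_ind hH with
    | h Y => exact (a8_eq hH).2 (a8_comm hH X Y)

theorem a8_add_zero (hH : Good H S) (x : a8_Q hH K W) : x + 0 = x := by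
  induction x using a8_ind hH with
  | h X =>
    rw [a8_zero, a8_mk_add]
    exact ((a8_eq hH).2 (a8_of_he hH ((sub_zero_sum X.1).2.he
      (a8_add hH X ⟨Cx.zero A Λ, Obj.zero, a8_wd_zero W⟩).2.1.ok))).symm

instance a8_inst (hH : Good H S) (K : Finset ι) (W : Set ℤ) :
    AddCancelCommMonoid (a8_Q hH K W) where
  add_assoc x y z := by
    induction x using a8_ind hH with
    | h X =>
      induction y using a8_ind hH with
      | h Y =>
        induction z using a8_ind hH with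
        | h Z =>
          exact (a8_eq hH).2 (a8_of_he hH ((sub_sum_assoc X.1 Y.1 Z.1).1.he
            (a8_add hH X (a8_add hH Y Z)).2.1.ok))
  zero_add x := by rw [a8_add_comm, a8_add_zero]
  add_zero := a8_add_zero hH
  nsmul := nsmulRec
  add_comm := a8_add_comm hH
  add_left_cancel x y z h := by
    induction x using a8_ind hH with
    | h X =>
      induction y using a8_ind hH with
      | h Y =>
        induction z using a8_ind hH with
        | h Z =>
          have h' : a8_mk hH Y + a8_mk hH X = a8_mk hH Z + a8_mk hH X := by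
            rw [a8_add_comm hH (a8_mk hH Y), a8_add_comm hH (a8_mk hH Z)]
            exact h
          exact (a8_eq hH).2 (Sim.cancel hH X.2.1 X.2.2 ((a8_eq hH).1 h'))

open Classical in
/-- The class in the Grothendieck group. -/
noncomputable def a8_cls (hH : Good H S) (K : Finset ι) (W : Set ℤ) (X : Cx A Λ) :
    Algebra.GrothendieckAddGroup (a8_Q hH K W) :=
  if h : Obj H S K X ∧ Wd W X then Algebra.GrothendieckAddGroup.of (a8_mk hH ⟨X, h⟩) else 0

theorem a8_cls_eq (hH : Good H S) (hX : Obj H S K X) (wX : Wd W X) :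
    a8_cls hH K W X = Algebra.GrothendieckAddGroup.of (a8_mk hH ⟨X, hX, wX⟩) :=
  dif_pos ⟨hX, wX⟩

theorem exists_KS (hH : Good H S) (K : Finset ι) (W : Set ℤ) :
    ∃ (M : Type (max 1 v)) (_ : AddCommGroup M), Nonempty (KS H S K W M) := by
  refine ⟨Algebra.GrothendieckAddGroup (a8_Q hH K W), inferInstance, ⟨⟨a8_cls hH K W, ?_, ?_, ?_⟩⟩⟩
  · intro X Y hX hY wX wY e
    rw [a8_cls_eq hH hX wX, a8_cls_eq hH hY wY]
    exact congrArg _ ((a8_eq hH).2 (Sim.of_he hH hX wX hY.ok e))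
  · intro X Y t hX hY wX wY ht
    rw [a8_cls_eq hH hX wX, a8_cls_eq hH hY wY, a8_cls_eq hH (Obj.ext hH ht hX hY) (wX.ext wY t),
      ← map_add, a8_mk_add]
    exact congrArg _ ((a8_eq hH).2 (Sim.ext hH hX hY wX wY ht))
  · intro X hX wX
    rw [a8_cls_eq hH hX wX, ← map_zero (Algebra.GrothendieckAddGroup.of (M := a8_Q hH K W)),
      Algebra.GrothendieckAddGroup.of_injective.eq_iff, a8_zero, a8_eq, sim_zero_iff]

variable {M : Type w} [AddCommGroup M] (E : KS H S K W M)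

theorem KS.sum (hX : Obj H S K X) (hY : Obj H S K Y) (wX : Wd W X) (wY : Wd W Y) :
    E.cls (X.sum Y) = E.cls X + E.cls Y := E.ext hX hY wX wY (Tw.zero _ _)

theorem KS.nul (hX : Ok H X) (wX : Wd W X) (h : Nul H 1 X) : E.cls X = 0 := by
  have z : Obj H S K (Cx.zero A Λ) := Obj.zero
  have w0 : Wd W (Cx.zero A Λ) := a8_wd_zero W
  have e1 := E.sum z z w0 w0
  have s := (sub_zero_sum (Cx.zero A Λ)).1
  have e2 := E.he z (s.obj_iff.1 z) w0 (w0.ext w0 _) (s.he (Ok.zero.sum Ok.zero))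
  have e3 : E.cls (Cx.zero A Λ) = 0 := by
    rw [← e2] at e1
    exact left_eq_add.1 e1
  rw [E.he ⟨hX, h.tor⟩ z wX w0 h.he_zero, e3]

theorem KS.sh (hH : Good H S) (hX : Obj H S K X) (wX : Wd W X) (wX' : Wd W (X.sh 1)) :
    E.cls (X.sh 1) = -E.cls X := by
  have hf : Ch H X X ((1 : A) • X.p) := (Ch.id hX.ok).smul Sc.one
  have e1 := E.ext hX (hX.sh 1) wX wX' hf.tw
  have e2 := E.nul (hX.ok.cone hX.ok hf) (wX.ext wX' _) (cone_smul hX.ok Sc.one)
  exact eq_neg_of_add_eq_zero_right (e1.symm.trans e2)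

theorem KS.he_ext (hH : Good H S) (hX : Obj H S K X) (hY : Obj H S K Y) (hZ : Obj H S K Z)
    (wX : Wd W X) (wY : Wd W Y) (wZ : Wd W Z) {t : Matrix X.J Y.J A} (ht : Tw H X Y t)
    (e : HE H (X.ext Y t) Z) : E.cls Z = E.cls X + E.cls Y :=
  (E.he (Obj.ext hH ht hX hY) hZ (wX.ext wY t) wZ e).symm.trans (E.ext hX hY wX wY ht)

theorem Cert.ext (hH : Good H S) (hX : Obj H S K X) (hY : Obj H S K Y) (wX : Wd W X)
    (wY : Wd W Y) {t : Matrix X.J Y.J A} (ht : Tw H X Y t) (h : Cert H S K W X)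
    (h' : Cert H S K W Y) : Cert H S K W (X.ext Y t) := by
  obtain ⟨M, _, ⟨E⟩⟩ := exists_KS hH K W
  rw [← E.zero_iff (Obj.ext hH ht hX hY) (wX.ext wY t), E.ext hX hY wX wY ht,
    (E.zero_iff hX wX).2 h, (E.zero_iff hY wY).2 h', add_zero]

theorem Cert.of_nul (hH : Good H S) (hX : Ok H X) (wX : Wd W X) (h : Nul H 1 X) :
    Cert H S K W X := by
  obtain ⟨M, _, ⟨E⟩⟩ := exists_KS hH K W
  exact (E.zero_iff ⟨hX, h.tor⟩ wX).1 (E.nul hX wX h)

end Pool.Agent.MP_f7db47_al.KN
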