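import Pool.Agent.MP_f7db47_al.KN.A7
import Pool.Agent.MP_f7db47_al.KN.A8
import Pool.Agent.MP_f7db47_al.KN.A11

/-!
Covers of the bottom degree.
-/

namespace Pool.Agent.MP_f7db47_al.KN

open Matrix

universe v w

variable {A : Type v} [Ring A] {Λ ι : Type} {H H' I I' : Fam A Λ} {S : ι → Submonoid A}
  {K K' : Finset ι} {W : Set ℤ} {X X' Y Y' Z : Cx A Λ} {w w' : A}

/-- `κ : P → X` is a cover and `X₀` is its cone with the degree `a` removed. -/
structure Cov (H : Fam A Λ) (S : ι → Submonoid A) (K : Finset ι) (a b : ℤ) (X P X₀ : Cx A Λ)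
    (κ : Matrix X.J P.J A) : Prop where
  oP : Obj H S K P
  wP : Wd (Set.Icc (a + 1) b) (P.sh 1)
  ch : Ch H X P κ
  o0 : Obj H S K X₀
  w0 : Wd (Set.Icc (a + 1) b) X₀
  he : HE H (X.cone P κ) X₀

variable {a b : ℤ}

/-- The part of degree `a`, with zero differential. -/
@[reducible] def a15a_bot (X : Cx A Λ) (a : ℤ) : Cx A Λ where
  J := {j : X.J // (X.t j).2 = a}
  t j := X.t j.1
  p := X.p.submatrix Subtype.val Subtype.val
  D := 0

theorem a15a_mul (hX : Ok H X) (a : ℤ) (i j : X.J) (hj : (X.t j).2 = a) :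
    ∑ k : {j : X.J // (X.t j).2 = a}, X.p i k.1 * X.p k.1 j = X.p i j := by
  conv_rhs => rw [← hX.pp, Matrix.mul_apply]
  refine Fintype.sum_of_injective Subtype.val Subtype.val_injective _ _ (fun k hk => ?_)
    fun _ => rfl
  by_contra h0
  have := (hX.hp k j).2 (right_ne_zero_of_mul h0)
  exact hk ⟨⟨k, by omega⟩, rfl⟩

theorem a15a_ok (hX : Ok H X) (a : ℤ) : Ok H (a15a_bot X a) where
  hp := hX.hp.submatrix _ _
  hD := Hm.zero _ _
  pp := by
    ext i j
    exact a15a_mul hX a i.1 j.1 j.2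
  pD := Matrix.mul_zero _
  Dp := Matrix.zero_mul _
  DD := Matrix.zero_mul _

theorem a15a_ch (hX : Ok H X) (hW : Wd (Set.Icc a b) X) :
    Ch H X (a15a_bot X a) (X.p.submatrix id Subtype.val) where
  hm := hX.hp.submatrix id Subtype.val
  pl := by
    ext i j
    conv_rhs => rw [← hX.pp]
    rfl
  pr := by
    ext i j
    exact a15a_mul hX a i j.1 j.2
  cm := by
    ext i j
    have h1 : (X.D * X.p.submatrix id (Subtype.val : {j : X.J // (X.t j).2 = a} → X.J)) i j =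
        X.D i j.1 := by
      conv_rhs => rw [← hX.Dp]
      rfl
    rw [h1, Matrix.mul_zero, Matrix.zero_apply]
    by_contra h0
    have h2 := (hX.hD i j.1).2 h0
    have h3 := (hW i).1
    have h4 := j.2
    omega

theorem exists_cov (hH : Good H S) (hab : a + K.card + 1 ≤ b) (hX : Obj H S K X)
    (hW : Wd (Set.Icc a b) X) : ∃ P X₀ κ, Cov H S K a b X P X₀ κ := by
  obtain ⟨P, κ, i, hP, hκ, hi, hf, hw⟩ :=
    kos hH hH le_rfl K (a15a_ok hX.ok a) hX (a15a_ch hX.ok hW)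
  have wP : Wd (Set.Icc a (a + K.card)) P := hw a a fun j => ⟨j.2.ge, j.2.le⟩
  have wP' : Wd (Set.Icc (a + 1) b) (P.sh 1) := fun j => by
    have h1 := (wP j).1
    have h2 := (wP j).2
    constructor <;> simp only <;> omega
  have oC : Obj H S K (X.cone P κ) := Obj.ext hH hκ.tw hX (hP.sh 1)
  have wC : Wd (Set.Icc a b) (X.cone P κ) :=
    hW.ext (wP'.mono (Set.Icc_subset_Icc (by omega) le_rfl)) _
  let g : Matrix (a15a_bot X a).J X.J A := X.p.submatrix Subtype.val id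
  have hg : Hm H 0 (a15a_bot X a).t X.t g := hX.ok.hp.submatrix Subtype.val id
  have hs : Hm H 1 (X.cone P κ).t (X.cone P κ).t (fromBlocks 0 0 (i * g) 0) :=
    Hm.blocks (Hm.zero _ _) (Hm.zero _ _)
      ((hi.hm.mul hH.mul hg (e := 0) (by omega)).shift_left 1 (by omega)) (Hm.zero _ _)
  have hD : P.D * (i * g) = 0 := by
    rw [← Matrix.mul_assoc, hi.cm]
    simp
  obtain ⟨Y, hY, wY, e⟩ := cancel_bot hH.mul oC.ok wC hs (by
    ext x y
    rw [mul_ind_apply, mul_ind_apply]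
    split_ifs with hy
    · rcases y with y | y
      · rcases x with x | x
        · simp only [fromBlocks_multiply, Matrix.mul_zero, zero_add, fromBlocks_apply₁₁]
          rw [← Matrix.mul_assoc, hf]
          exact a15a_mul hX.ok a x y hy
        · simp [fromBlocks_multiply, hD]
      · have h1 := (wP' y).1
        have h2 : ((P.sh 1).t y).2 = a := hy
        omega
    · rfl)
  exact ⟨P, Y, κ, hP, wP', hκ, oC.he hH hY e, wY, e⟩

theorem a15a_tw {u : Matrix X.J Z.J A} (hu : Tw H X Z u) (t : Matrix X.J Y.J A) :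
    Tw H (X.ext Y t) Z (fromRows u 0) where
  hm := Hm.rows hu.hm (Hm.zero _ _)
  pl := by simp [fromBlocks_mul_fromRows, hu.pl]
  pr := by simp [fromRows_mul, hu.pr]
  cm := by
    have := hu.cm
    ext (i | i) j
    · simpa [fromBlocks_mul_fromRows, fromRows_mul] using congrFun (congrFun this i) j
    · simp [fromBlocks_mul_fromRows, fromRows_mul]

theorem a15a_swap (t : Matrix X.J Y.J A) (u : Matrix X.J Z.J A) :
    Sub ((X.ext Y t).ext Z (fromRows u 0)) ((X.ext Z u).ext Y (fromRows t 0)) := by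
  refine (Sub.of_equiv (X' := (X.ext Y t).ext Z (fromRows u 0))
    (X := (X.ext Z u).ext Y (fromRows t 0))
    ((Equiv.sumAssoc _ _ _).trans (((Equiv.refl _).sumCongr (Equiv.sumComm _ _)).trans
      (Equiv.sumAssoc _ _ _).symm)) ?_ ?_ ?_).1
  · rintro ((i | i) | i) <;> rfl
  · ext ((i | i) | i) ((j | j) | j) <;> rfl
  · ext ((i | i) | i) ((j | j) | j) <;> rfl

/-- The lemma of Schanuel. -/
theorem Cov.schanuel (hH : Good H S) {M : Type w} [AddCommGroup M]
    (E : KS H S K (Set.Icc (a + 1) b) M) (hX : Ok H X) (hY : Ok H Y) (e : HE H X Y)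
    {P Q X₀ Y₀ : Cx A Λ} {κ : Matrix X.J P.J A} {κ' : Matrix Y.J Q.J A}
    (h : Cov H S K a b X P X₀ κ) (h' : Cov H S K a b Y Q Y₀ κ') :
    E.cls X₀ + E.cls (Q.sh 1) = E.cls Y₀ + E.cls (P.sh 1) := by
  obtain ⟨f, g, s, k, e⟩ := e
  have oP := h.oP.sh 1
  have oQ := h'.oP.sh 1
  have t1 : Tw H Y (P.sh 1) (f * κ) := Tw.comp_left hH.mul e.hf h.ch.tw
  have t2 : Tw H Y (Q.sh 1) κ' := h'.ch.tw
  have e1 : HE H (Y.ext (P.sh 1) (f * κ)) X₀ :=
    (ext_congr_left hH.mul hX hY oP.ok e h.ch.tw).symm.trans hH.mul h.he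
  obtain ⟨u, hu, e2⟩ := ext_congr hH.mul (hY.ext oP.ok t1) h.o0.ok oQ.ok oQ.ok e1 (HE.refl oQ.ok)
    (a15a_tw (Y := P.sh 1) t2 (f * κ))
  obtain ⟨u', hu', e3⟩ := ext_congr hH.mul (hY.ext oQ.ok t2) h'.o0.ok oP.ok oP.ok h'.he
    (HE.refl oP.ok) (a15a_tw (Y := Q.sh 1) t1 κ')
  have e4 : HE H (X₀.ext (Q.sh 1) u) (Y₀.ext (P.sh 1) u') :=
    e2.symm.trans hH.mul ((a15a_swap (Y := P.sh 1) (Z := Q.sh 1) (f * κ) κ').he_left.2 e3)
  rw [← E.ext h.o0 oQ h.w0 h'.wP hu, ← E.ext h'.o0 oP h'.w0 h.wP hu']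
  exact E.he (Obj.ext hH hu h.o0 oQ) (Obj.ext hH hu' h'.o0 oP) (h.w0.ext h'.wP _)
    (h'.w0.ext h.wP _) e4

theorem Cov.sum (hH : Good H S) (hX : Obj H S K X) (hW : Wd (Set.Icc (a + 1) b) X) (hY : Ok H Y)
    {Q Y₀ : Cx A Λ} {κ : Matrix Y.J Q.J A} (h : Cov H S K a b Y Q Y₀ κ) :
    Cov H S K a b (X.sum Y) Q (X.sum Y₀) (fromRows 0 κ) where
  oP := h.oP
  wP := h.wP
  ch :=
    { hm := Hm.rows (Hm.zero _ _) h.ch.hm
      pl := by simp [fromBlocks_mul_fromRows, h.ch.pl]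
      pr := by simp [fromRows_mul, h.ch.pr]
      cm := by simp [fromBlocks_mul_fromRows, fromRows_mul, h.ch.cm] }
  o0 := Obj.sum hH hX h.o0
  w0 := hW.ext h.w0 _
  he := by
    have h1 := (sub_ext_assoc (X := X) (Y := Y) (Z := Q.sh 1) 0 0 κ).1
    rw [fromCols_zero] at h1
    exact h1.he_left.2 (h.he.sum_right hX.ok)

end Pool.Agent.MP_f7db47_al.KN
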