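import Pool.Agent.MP_f7db47_al.KN.A15a

/-!
The horseshoe lemma for covers.
-/

namespace Pool.Agent.MP_f7db47_al.KN

open Matrix

universe v w

variable {A : Type v} [Ring A] {Λ ι : Type} {H H' I I' : Fam A Λ} {S : ι → Submonoid A}
  {K K' : Finset ι} {W : Set ℤ} {X X' Y Y' Z : Cx A Λ} {w w' : A}

theorem a15b_low {a b : ℤ} (wX : Wd (Set.Icc a b) X) {J : Type} {u : J → Λ × ℤ}
    (hu : ∀ j, (u j).2 = a) {M : Matrix X.J J A} (h : Hm H (-1) X.t u M) : M = 0 := by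
  ext i j
  by_contra e
  have h1 := (h i j).2 e
  have h2 := (wX i).1
  have h3 := hu j
  omega

theorem a15b_sub (hY : Ok H Y) (a : ℤ) (i j : Y.J) (hj : (Y.t j).2 = a) :
    ∑ k : {j // (Y.t j).2 = a}, Y.p i k * Y.p k j = Y.p i j := by
  rw [← Finset.sum_subtype (Finset.univ.filter fun j => (Y.t j).2 = a) (by simp)
    fun k => Y.p i k * Y.p k j, Finset.sum_filter_of_ne, ← Matrix.mul_apply, hY.pp]
  intro k _ e
  have := (hY.hp k j).2 (right_ne_zero_of_mul e)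
  omega

theorem a15b_bot (hH : Good H S) {a b : ℤ} (hab : a + K.card + 1 ≤ b) (hX : Obj H S K X)
    (hY : Obj H S K Y) (wX : Wd (Set.Icc a b) X) (wY : Wd (Set.Icc a b) Y)
    {t t' : Matrix X.J Y.J A} (ht : Tw H X Y t) (ht' : Tw H X Y t') :
    ∃ (Q Y₀ : Cx A Λ) (c c' : Matrix X.J Q.J A) (g : Matrix Y.J Q.J A),
      Ch H (X.ext Y t) Q (fromRows c g) ∧ Ch H (X.ext Y t') Q (fromRows c' g) ∧
      Cov H S K a b Y Q Y₀ g := by
  let P : Cx A Λ := (Y.re Y.p 0).res (Subtype.val : {j // (Y.t j).2 = a} → Y.J)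
  let f : Matrix Y.J P.J A := Y.p.submatrix id Subtype.val
  have hf : Hm H 0 Y.t P.t f := hY.ok.hp.submatrix id Subtype.val
  have PD : P.D = 0 := rfl
  have hP : Ok H P := ⟨hY.ok.hp.submatrix _ _, Hm.zero _ _,
    Matrix.ext fun i j => a15b_sub hY.ok a i j j.2, Matrix.mul_zero _, Matrix.zero_mul _,
    Matrix.mul_zero _⟩
  have pf : Y.p * f = f := Matrix.ext fun i j => congrFun₂ hY.ok.pp i j
  have fp : f * P.p = f := Matrix.ext fun i j => a15b_sub hY.ok a i j j.2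
  have Df : Y.D * f = 0 := a15b_low wY (fun j => j.2) (hY.ok.hD.mul hH.mul hf rfl)
  have ch : ∀ {s : Matrix X.J Y.J A}, Tw H X Y s → Ch H (X.ext Y s) P (fromRows 0 f) := by
    intro s hs
    have sf : s * f = 0 := a15b_low wX (fun j => j.2) (hs.hm.mul hH.mul hf rfl)
    exact ⟨⟨(Hm.zero _ _).rows hf, by simp [fromBlocks_mul_fromRows, pf],
      by simp [fromRows_mul, fp]⟩, by simp [fromBlocks_mul_fromRows, PD, sf, Df]⟩
  obtain ⟨Q, c, c', g, i, oQ, h1, h2, hi, gi, wQ⟩ :=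
    kos2 hH K hP hX hY ht ht' (ch ht) (ch ht')
  have wQ1 : Wd (Set.Icc (a + 1) b) (Q.sh 1) := fun j => by
    have := wQ a a (fun j => ⟨j.2.ge, j.2.le⟩) j
    exact ⟨by have := this.1; simp only; omega, by have := this.2; simp only; omega⟩
  have tg : Tw H Y (Q.sh 1) g := (tw_rows ht h1.tw).1
  have oC : Obj H S K (Y.cone Q g) := hY.ext hH tg (oQ.sh 1)
  let r : Matrix P.J Y.J A := Y.p.submatrix Subtype.val id
  have hr : Hm H 0 P.t Y.t r := hY.ok.hp.submatrix Subtype.val id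
  have Di : Q.D * i = 0 := by rw [hi.cm, PD, Matrix.mul_zero]
  obtain ⟨Y₀, o0, w0, e0⟩ := cancel_bot hH.mul oC.ok (a := a) (b := b)
    (wY.ext (wQ1.mono (Set.Icc_subset_Icc_left (by omega))) g)
    (s := fromBlocks 0 0 (i * r) 0) (Hm.blocks (Hm.zero _ _) (Hm.zero _ _)
      ((hi.hm.mul hH.mul hr rfl).shift_left 1 rfl) (Hm.zero _ _)) (by
      have e : (Y.cone Q g).D * fromBlocks 0 0 (i * r) (0 : Matrix Q.J Q.J A) =
          fromBlocks (f * r) 0 0 0 := by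
        simp [fromBlocks_multiply, ← Matrix.mul_assoc, gi, Di]
      rw [e]
      ext k j
      rw [mul_ind_apply, mul_ind_apply]
      split_ifs with hj
      · rcases j with j | j
        · rcases k with k | k
          · exact a15b_sub hY.ok a k j hj
          · rfl
        · have h3 := (wQ1 j).1
          have h4 : ((Q.sh 1).t j).2 = a := hj
          omega
      · rfl)
  refine ⟨Q, Y₀, c, c', g, h1, h2, oQ, wQ1, ⟨⟨fun k j => h1.hm (.inr k) j, tg.pl, tg.pr⟩, ?_⟩,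
    oC.he hH o0 e0, w0, e0⟩
  simpa [add_neg_eq_zero] using tg.cm

theorem a15b_cov (hH : Good H S) {a b : ℤ} (hX : Obj H S K X) (hY : Obj H S K Y)
    {t : Matrix X.J Y.J A} (ht : Tw H X Y t) {P Q X₀ Y₀ : Cx A Λ} {κ : Matrix X.J P.J A}
    {c : Matrix X.J Q.J A} {g : Matrix Y.J Q.J A} (h : Cov H S K a b X P X₀ κ)
    (h' : Cov H S K a b Y Q Y₀ g) (hc : Ch H (X.ext Y t) Q (fromRows c g)) :
    ∃ τ, Tw H X₀ Y₀ τ ∧
      Cov H S K a b (X.ext Y t) (P.sum Q) (X₀.ext Y₀ τ) (fromBlocks κ c 0 g) := by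
  have u := (tw_rows ht hc.tw).2
  have T : Tw H (X.cone P κ) (Y.cone Q g) (fromRows (fromCols t c) 0) :=
    ⟨⟨u.hm.rows (Hm.zero _ _), by simp [fromBlocks_mul_fromRows, u.pl],
      by rw [fromRows_mul, u.pr, Matrix.zero_mul]⟩, by
      rw [fromRows_mul, Matrix.zero_mul, fromBlocks_mul_fromRows]
      ext (i | i) j
      · simpa using congrFun₂ u.cm i j
      · simp⟩
  obtain ⟨τ, hτ, e⟩ := ext_congr hH.mul (hX.ok.cone h.oP.ok h.ch) h.o0.ok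
    (hY.ok.cone h'.oP.ok h'.ch) h'.o0.ok h.he h'.he T
  refine ⟨τ, hτ, h.oP.sum hH h'.oP, ?_, ?_, h.o0.ext hH hτ h'.o0, h.w0.ext h'.w0 τ, ?_⟩
  · rintro (j | j)
    exacts [h.wP j, h'.wP j]
  · have c1 := hc.pl
    have c2 := hc.pr
    have c3 := hc.cm
    simp only [fromBlocks_mul_fromRows, fromRows_mul, fromRows_ext_iff, Matrix.zero_mul, add_zero,
      zero_add] at c1 c2 c3
    exact ⟨⟨Hm.blocks h.ch.hm (fun i j => hc.hm (.inl i) j) (Hm.zero _ _) h'.ch.hm,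
      by simp [fromBlocks_multiply, h.ch.pl, c1.1, c1.2],
      by simp [fromBlocks_multiply, h.ch.pr, c2.1, c2.2]⟩,
      by simp [fromBlocks_multiply, h.ch.cm, c3.1, c3.2]⟩
  · refine (Sub.of_equiv (Equiv.sumSumSumComm _ _ _ _) ?_ ?_ ?_).1.he_left.2 e
    · rintro ((i | i) | (i | i)) <;> rfl
    · ext ((i | i) | (i | i)) ((j | j) | (j | j)) <;> rfl
    · ext ((i | i) | (i | i)) ((j | j) | (j | j)) <;> first | rfl | exact neg_zero

theorem horseshoe (hH : Good H S) {a b : ℤ} (hab : a + K.card + 1 ≤ b) (hX : Obj H S K X)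
    (hY : Obj H S K Y) (wX : Wd (Set.Icc a b) X) (wY : Wd (Set.Icc a b) Y)
    {t t' : Matrix X.J Y.J A} (ht : Tw H X Y t) (ht' : Tw H X Y t') :
    ∃ (P X₀ Y₀ : Cx A Λ) (τ τ' : Matrix X₀.J Y₀.J A) (κ κ' : Matrix (X.J ⊕ Y.J) P.J A),
      Obj H S K X₀ ∧ Obj H S K Y₀ ∧ Wd (Set.Icc (a + 1) b) X₀ ∧ Wd (Set.Icc (a + 1) b) Y₀ ∧
      Tw H X₀ Y₀ τ ∧ Tw H X₀ Y₀ τ' ∧ Cov H S K a b (X.ext Y t) P (X₀.ext Y₀ τ) κ ∧
      Cov H S K a b (X.ext Y t') P (X₀.ext Y₀ τ') κ' := by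
  obtain ⟨P, X₀, κ, h⟩ := exists_cov hH hab hX wX
  obtain ⟨Q, Y₀, c, c', g, h1, h2, h'⟩ := a15b_bot hH hab hX hY wX wY ht ht'
  obtain ⟨τ, k1, k2⟩ := a15b_cov hH hX hY ht h h' h1
  obtain ⟨τ', k3, k4⟩ := a15b_cov hH hX hY ht' h h' h2
  exact ⟨P.sum Q, X₀, Y₀, τ, τ', _, _, h.o0, h'.o0, h.w0, h'.w0, k1, k3, k2, k4⟩

end Pool.Agent.MP_f7db47_al.KN
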