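import Pool.Agent.MP_f7db47_al.KN.A16b

/-!
Excision for the double along an ideal.
-/

namespace Pool.Agent.MP_f7db47_al.KN

open Matrix

universe v w

variable {A : Type v} [Ring A] {Λ ι : Type} {H H' I I' : Fam A Λ} {S : ι → Submonoid A}
  {K K' : Finset ι} {W : Set ℤ} {X X' Y Y' Z : Cx A Λ} {w w' : A}

theorem a16_fin (hH : Good H S) (hI : Good I S) (hid : Idl I H) {M : Type w} [AddCommGroup M]
    (E : KS I S K Set.univ M) {T₁ T₂ Q C₁ C₂ : Cx A Λ} {τ₁ : Matrix T₁.J Q.J A}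
    {τ₂ : Matrix T₂.J Q.J A} (o1 : Obj I S K T₁) (o2 : Obj I S K T₂) (hQ : Ok H Q)
    (t1 : Tw H T₁ Q τ₁) (t2 : Tw H T₂ Q τ₂) (e1 : HE H (T₁.ext Q τ₁) C₁)
    (e2 : HE H (T₂.ext Q τ₂) C₂) (n1 : Nul H 1 C₁) (hY : Obj I S K Y) (e3 : HE H C₂ Y) :
    E.cls Y = E.cls T₂ - E.cls T₁ := by
  have a1 := o1.ok.mono hid.le
  have a2 := o2.ok.mono hid.le
  have e4 := he_of_ext_nul hH.mul a1 hQ t1 (n1.he hH.mul Sc.one e1.symm)
  obtain ⟨t, b1, b2⟩ := ext_congr hH.mul a2 a2 hQ (a1.sh 1) (HE.refl a2) e4.symm t2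
  have b3 : Tw I T₂ (T₁.sh 1) t := ⟨b1.toMp.idl_left hid o2.ok.hp, b1.cm⟩
  have e5 := (b2.symm.trans hH.mul (e2.trans hH.mul e3)).idl hH.mul hid
    (o2.ok.ext (o1.ok.sh 1) b3) hY.ok
  rw [E.he_ext hI o2 (o1.sh 1) hY (Wd.univ _) (Wd.univ _) (Wd.univ _) b3 e5,
    E.sh hI o1 (Wd.univ _) (Wd.univ _), sub_eq_add_neg]

theorem sf_swap : Sf (trg (dbl H I)) (dbl (trg H) (trg I)) (dS (dS S)) (dS (dS S))
    (AddEquiv.prodProdProdComm A A A A).toAddMonoidHom id := by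
  refine ⟨?_, fun _ _ _ _ _ _ _ => rfl, ?_⟩
  · rintro a b ⟨⟨x, y⟩, z, u⟩ ⟨h1, h2, h3, h4⟩
    refine ⟨⟨h1.1, h2.1, fun e => congrArg Prod.fst (h3 e), fun e => ?_⟩,
      ⟨h1.2.1, h2.2.1, fun e => congrArg Prod.snd (h3 e), fun e => ?_⟩,
      ⟨h1.2.2, h2.2.2, fun e => congrArg (fun p : A × A => p.2 - p.1) (h3 e), fun e => ?_⟩⟩
    all_goals
      have := h4 e
      simp only [Prod.mk_eq_zero] at this
      obtain ⟨⟨rfl, rfl⟩, rfl, rfl⟩ := this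
      simp
  · rintro a _ ⟨_, ⟨w, hw, rfl⟩, rfl⟩
    exact ⟨((w, w), w, w), ⟨(w, w), ⟨w, hw, rfl⟩, rfl⟩, fun _ _ _ _ => rfl⟩

/-- Two iterated extensions with the same three pieces form an object over the pairs. -/
theorem a16_pair (hH : Good H S) {P Q B : Cx A Λ} (hP : Obj H S K P) (hQ : Obj H S K Q)
    (hB : Obj H S K B) (p1 : P.p = 1) (q1 : Q.p = 1) (b1 : B.p = 1) {u u' : Matrix P.J Q.J A}
    (hu : Tw H P Q u) (hu' : Tw H P Q u') {g g' : Matrix (P.J ⊕ Q.J) B.J A}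
    (hg : Tw H (P.ext Q u) B g) (hg' : Tw H (P.ext Q u') B g') :
    ∃ C : Cx (A × A) (Λ × ℤ), Obj (trg H) (dS S) K C ∧ C.p = 1 ∧
      C.smap (AddMonoidHom.fst A A) Prod.fst = (P.ext Q u).ext B g ∧
      C.smap (AddMonoidHom.snd A A) Prod.fst = (P.ext Q u').ext B g' := by
  let δ := (AddMonoidHom.id A).prod (AddMonoidHom.id A)
  have t1 : Tw (trg H) (P.smap δ fun a => (a, (0 : ℤ))) (Q.smap δ fun a => (a, (1 : ℤ)))
      (Matrix.of fun i j => (u i j, u' i j)) := tw_trg (fun _ _ => zero_lt_one) hu hu'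
  have o1 := Obj.ext (trg_good hH) t1 (hP.sf (sf_diag_trg 0)) (hQ.sf (sf_diag_trg 1))
  have tr : ∀ (X : Cx A Λ) (s : X.J → Λ × ℤ) (p D : Matrix X.J X.J A), s = X.t → p = X.p →
      D = X.D → ∀ {t : Matrix X.J B.J A}, Tw H X B t →
      Tw H ⟨X.J, s, p, D⟩ B t ∧ (Cx.mk X.J s p D).ext B t = X.ext B t := by
    rintro X _ _ _ rfl rfl rfl t h
    exact ⟨h, rfl⟩
  set R := (P.smap δ fun a => (a, (0 : ℤ))).ext (Q.smap δ fun a => (a, (1 : ℤ)))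
    (Matrix.of fun i j => (u i j, u' i j))
  have f1 := tr (P.ext Q u) (R.smap (AddMonoidHom.fst A A) Prod.fst).t
    (R.smap (AddMonoidHom.fst A A) Prod.fst).p (R.smap (AddMonoidHom.fst A A) Prod.fst).D
    (by funext j; rcases j with j | j <;> rfl) (by ext (i | i) (j | j) <;> rfl)
    (by ext (i | i) (j | j) <;> rfl) hg
  have f2 := tr (P.ext Q u') (R.smap (AddMonoidHom.snd A A) Prod.fst).t
    (R.smap (AddMonoidHom.snd A A) Prod.fst).p (R.smap (AddMonoidHom.snd A A) Prod.fst).D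
    (by funext j; rcases j with j | j <;> rfl) (by ext (i | i) (j | j) <;> rfl)
    (by ext (i | i) (j | j) <;> rfl) hg'
  have t2 : Tw (trg H) R (B.smap δ fun a => (a, (2 : ℤ))) (Matrix.of fun i j => (g i j, g' i j)) :=
    tw_trg (by rintro (i | i) j; exacts [zero_lt_two, one_lt_two]) f1.1 f2.1
  refine ⟨_, Obj.ext (trg_good hH) t2 o1 (hB.sf (sf_diag_trg 2)), ?_,
    (smap_ext _).trans f1.2, (smap_ext _).trans f2.2⟩
  have k : ∀ (J : Type) [DecidableEq J], (1 : Matrix J J A).map δ = 1 := fun J _ =>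
    Matrix.map_one _ rfl rfl
  change fromBlocks (fromBlocks (P.p.map δ) 0 0 (Q.p.map δ)) 0 0 (B.p.map δ) = 1
  simp only [p1, q1, b1, k, fromBlocks_one]

theorem exc (hH : Good H S) (hI : Good I S) (hid : Idl I H) (hu : LU I)
    (hstd : Stdz (dbl H I) fun Y => Y.p = 1)
    (hP : NullAll (dbl H I) (dS S) K) : NullAll I S K := by
  intro X hX
  have hG := dbl_good hH hI hid
  have oX := hX.sf (sf_inr_dbl (S := S) hid)
  obtain ⟨P₀, Q₀, B₀, t, t', c, e, e'⟩ := hP _ oX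
  obtain ⟨P, p1, p2, p3⟩ := hstd P₀ c.oP.ok
  obtain ⟨Q, q1, q2, q3⟩ := hstd Q₀ c.oQ.ok
  obtain ⟨B, b1, b2, b3⟩ := hstd B₀ c.oB.ok
  obtain ⟨u, u1, u2⟩ := ext_congr hG.mul c.oP.ok p1 c.oQ.ok q1 p3 q3 c.ht
  obtain ⟨u', v1, v2⟩ := ext_congr hG.mul c.oP.ok p1 c.oQ.ok q1 p3 q3 c.ht'
  obtain ⟨g, g1, g2⟩ := cone_sum hG.mul oX.ok b1 (p1.ext q1 u1)
    (u2.symm.trans hG.mul (e.trans hG.mul (b3.sum_right oX.ok)))
  obtain ⟨g', _, _, _, d⟩ := (v2.symm.trans hG.mul (e'.trans hG.mul b3)).symm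
  have n' := cone_nul hG.mul b1 (p1.ext q1 v1) d
  have k1 := (p1.ext q1 u1).cone b1 g1
  have k2 := (p1.ext q1 v1).cone b1 d.hf
  obtain ⟨C, oC, pC, c1, c2⟩ := a16_pair hG (c.oP.he hG p1 p3) (c.oQ.he hG q1 q3)
    ((c.oB.he hG b1 b3).sh 1) p2 q2 b2 u1 v1 g1.tw d.hf.tw
  obtain ⟨T₁, T₂, R, τ₁, τ₂, o1, o2, oR, t1, t2, h1, h2⟩ := exc_core (trg_good hH) (trg_good hI)
    (trg_idl hid) (trg_lu hu) (oC.sf sf_swap) (by
      simp only [pC]; exact Matrix.map_one _ rfl rfl)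
  obtain ⟨M, _, ⟨E⟩⟩ := exists_KS hI K Set.univ
  have side : ∀ {φ : A × A →+ A}, Sf (trg H) H (dS S) S φ Prod.fst →
      Sf (trg I) I (dS S) S φ Prod.fst → ∀ Y, Obj I S K Y →
      Nul H 1 (((C.smap (AddEquiv.prodProdProdComm A A A A).toAddMonoidHom id).smap
        (AddMonoidHom.fst _ _) id).smap φ Prod.fst) →
      HE H (((C.smap (AddEquiv.prodProdProdComm A A A A).toAddMonoidHom id).smap
        (AddMonoidHom.snd _ _) id).smap φ Prod.fst) Y →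
      E.cls Y = E.cls (T₂.smap φ Prod.fst) - E.cls (T₁.smap φ Prod.fst) := by
    intro φ f1 f2 Y hY n e
    have a1 := o1.ok.mono (trg_idl hid).le
    have a2 := o2.ok.mono (trg_idl hid).le
    have oS := (oC.sf sf_swap).ok
    have x1 := h1.sf f1 (a1.ext oR.ok t1) (oS.sf (sf_fst_dbl (S := dS S)))
    have x2 := h2.sf f1 (a2.ext oR.ok t2) (oS.sf (sf_snd_dbl (S := dS S)))
    rw [smap_ext] at x1 x2
    exact a16_fin hH hI hid E (o1.sf f2) (o2.sf f2) (oR.ok.sf f1) (t1.sf f1 a1 oR.ok)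
      (t2.sf f1 a2 oR.ok) x1 x2 n hY e
  have s1 := side sf_fst_trg sf_fst_trg X hX (by
    change Nul H 1 ((C.smap (AddMonoidHom.fst _ _) Prod.fst).smap (AddMonoidHom.fst A A) id)
    rw [c1]
    refine Nul.he hH.mul Sc.one ⟨0, Hm.zero _ _, ?_⟩
      (g2.sf (sf_fst_dbl (S := S)) k1 oX.ok).symm
    ext i j
    simp) (by
    change HE H ((C.smap (AddMonoidHom.fst _ _) Prod.fst).smap (AddMonoidHom.snd A A) id) X
    rw [c1]
    exact g2.sf (sf_snd_dbl (S := S)) k1 oX.ok)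
  have s2 := side sf_snd_trg sf_snd_trg _ Obj.zero (by
    change Nul H 1 ((C.smap (AddMonoidHom.snd _ _) Prod.fst).smap (AddMonoidHom.fst A A) id)
    rw [c2]
    exact n'.sf_one (sf_fst_dbl (S := S)) k2) (by
    change HE H ((C.smap (AddMonoidHom.snd _ _) Prod.fst).smap (AddMonoidHom.snd A A) id) _
    rw [c2]
    exact (n'.sf_one (sf_snd_dbl (S := S)) k2).he_zero)
  rw [← trg_cls hI E o1, ← trg_cls hI E o2, ← s1, E.nul Ok.zero (Wd.univ _) (Nul.zero _)] at s2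
  exact (E.zero_iff hX (Wd.univ _)).1 s2.symm

end Pool.Agent.MP_f7db47_al.KN
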