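import Pool.Agent.MP_f7db47_al.KN.A7
import Pool.Agent.MP_f7db47_al.KN.A10
import Pool.Agent.MP_f7db47_al.KN.A11
import Pool.Agent.MP_f7db47_al.KN.A12a

/-!
A complex over the double: both components have a common quotient.
-/

namespace Pool.Agent.MP_f7db47_al.KN

open Matrix

universe v w

variable {A : Type v} [Ring A] {Λ ι : Type} {H H' I I' : Fam A Λ} {S : ι → Submonoid A}
  {K K' : Finset ι} {W : Set ℤ} {X X' Y Y' Z : Cx A Λ} {w w' : A}

theorem mem_dS {a : ι} {x : A × A} : x ∈ dS S a ↔ ∃ w ∈ S a, (w, w) = x := Iff.rfl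

theorem dS_cen (h : Cen S) : Cen (dS S) := by
  rintro a _ ⟨w, hw, rfl⟩ x
  exact Prod.ext (h a w hw x.1) (h a w hw x.2)

theorem dbl_good (hH : Good H S) (hI : Good I S) (hid : Idl I H) : Good (dbl H I) (dS S) where
  mul a b c x y hx hy := ⟨hH.mul hx.1 hy.1, hH.mul hx.2.1 hy.2.1, by
    have := add_mem (hid.left hx.2.1 hy.2.2) (hid.right hx.2.2 hy.1)
    rwa [mul_sub, sub_mul, sub_add_sub_cancel] at this⟩
  cen := dS_cen hH.cen
  stab := by
    rintro a _ ⟨w, hw, rfl⟩ i j x hx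
    refine ⟨hH.stab a w hw hx.1, hH.stab a w hw hx.2.1, ?_⟩
    have := hI.stab a w hw hx.2.2
    rwa [mul_sub] at this

theorem sf_fst_dbl : Sf (dbl H I) H (dS S) S (AddMonoidHom.fst A A) id :=
  ⟨fun _ _ _ h => h.1, fun _ _ _ _ _ _ _ => rfl, by
    rintro a _ ⟨w, hw, rfl⟩
    exact ⟨w, hw, fun _ _ _ _ => rfl⟩⟩

theorem sf_snd_dbl : Sf (dbl H I) H (dS S) S (AddMonoidHom.snd A A) id :=
  ⟨fun _ _ _ h => h.2.1, fun _ _ _ _ _ _ _ => rfl, by
    rintro a _ ⟨w, hw, rfl⟩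
    exact ⟨w, hw, fun _ _ _ _ => rfl⟩⟩

theorem sf_inr_dbl (hid : Idl I H) : Sf I (dbl H I) S (dS S) (AddMonoidHom.inr A A) id :=
  ⟨fun _ _ _ h => ⟨zero_mem _, hid.le _ _ h, by simpa using h⟩,
    fun _ _ _ _ _ _ _ => by simp, fun a w hw => ⟨(w, w), ⟨w, hw, rfl⟩, fun _ _ _ _ => by simp⟩⟩

/-- A diagonal idempotent over the ideal that is stable under two differentials. -/
theorem LU.stable (hid : Idl I H) (hu : LU I) {J : Type} [Fintype J] [DecidableEq J]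
    {s : J → Λ × ℤ} {D₁ D₂ R : Matrix J J A} (h1 : Hm H (-1) s s D₁) (h2 : Hm H (-1) s s D₂)
    (hR : Hm I (-1) s s R) :
    ∃ e : Matrix J J A, Hm I 0 s s e ∧ e * e = e ∧ e * D₁ * e = D₁ * e ∧ e * D₂ * e = D₂ * e ∧
      e * R = R := by
  classical
  have key : ∀ (n : ℕ) (c : ℤ), (∀ j, (s j).2 < c + n) → ∃ e : J → A,
      (∀ j, e j ∈ I (s j).1 (s j).1 ∧ e j * e j = e j) ∧ ∀ i, c ≤ (s i).2 → ∀ j,
        e i * (D₁ i j * e j) = D₁ i j * e j ∧ e i * (D₂ i j * e j) = D₂ i j * e j ∧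
        e i * R i j = R i j := by
    intro n
    induction n with
    | zero => exact fun c h => ⟨0, fun _ => ⟨zero_mem _, by simp⟩,
        fun i hi => absurd (h i) (by omega)⟩
    | succ n ih =>
      intro c h
      obtain ⟨e, e1, e2⟩ := ih (c + 1) fun j => by have := h j; omega
      have : ∀ i, ∃ x ∈ I (s i).1 (s i).1, x * x = x ∧ ∀ j,
          x * (D₁ i j * e j) = D₁ i j * e j ∧ x * (D₂ i j * e j) = D₂ i j * e j ∧
          x * R i j = R i j := by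
        intro i
        obtain ⟨x, x1, x2, x3⟩ := hu (s i).1 (Finset.univ.image (fun j => D₁ i j * e j) ∪
            Finset.univ.image (fun j => D₂ i j * e j) ∪ Finset.univ.image (fun j => R i j)) (by
          simp only [Finset.mem_union, Finset.mem_image, Finset.mem_univ, true_and]
          rintro _ ((⟨j, rfl⟩ | ⟨j, rfl⟩) | ⟨j, rfl⟩)
          exacts [⟨_, hid.left (h1 i j).1 (e1 j).1⟩, ⟨_, hid.left (h2 i j).1 (e1 j).1⟩,
            ⟨_, (hR i j).1⟩])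
        exact ⟨x, x1, x2, fun j => ⟨x3 _ (by simp), x3 _ (by simp), x3 _ (by simp)⟩⟩
      choose x x1 x2 x3 using this
      refine ⟨fun j => if (s j).2 = c then x j else e j, fun j => ?_, fun i hi j => ?_⟩
      · dsimp only
        split_ifs
        exacts [⟨x1 j, x2 j⟩, e1 j]
      · have k : ∀ {D : Matrix J J A}, Hm H (-1) s s D → ∀ y : A,
            y * (D i j * e j) = D i j * e j →
            y * (D i j * if (s j).2 = c then x j else e j) =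
              D i j * if (s j).2 = c then x j else e j := by
          intro D hD y hy
          split_ifs with hj
          · have : D i j = 0 := by
              by_contra h0
              have := (hD i j).2 h0
              omega
            simp [this]
          · exact hy
        dsimp only
        by_cases hc : (s i).2 = c
        · rw [if_pos hc]
          exact ⟨k h1 _ (x3 i j).1, k h2 _ (x3 i j).2.1, (x3 i j).2.2⟩
        · rw [if_neg hc]
          have := e2 i (by omega) j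
          exact ⟨k h1 _ this.1, k h2 _ this.2.1, this.2.2⟩
  let L : ℕ := Finset.univ.sup fun j => (s j).2.natAbs
  have hL : ∀ j, (s j).2.natAbs ≤ L := fun j =>
    Finset.le_sup (f := fun j => (s j).2.natAbs) (Finset.mem_univ j)
  obtain ⟨e, e1, e2⟩ := key (2 * L + 1) (-L) fun j => by have := hL j; push_cast; omega
  have e3 := fun i => e2 i (by have := hL i; omega)
  refine ⟨diagonal e, fun i j => ?_, ?_, ?_, ?_, ?_⟩
  · by_cases h : i = j
    · subst h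
      simpa using (e1 i).1
    · simp [diagonal_apply_ne _ h]
  · rw [diagonal_mul_diagonal]
    exact congrArg diagonal (funext fun j => (e1 j).2)
  · ext i j
    simpa [mul_assoc] using (e3 i j).1
  · ext i j
    simpa [mul_assoc] using (e3 i j).2.1
  · ext i j
    simpa using (e3 i j).2.2

theorem a16_inc {τ : Matrix X.J Y.J A} (hX : Ok H X) :
    Ch H (X.ext Y τ) X (fromRows X.p 0) :=
  ⟨⟨Hm.rows hX.hp (Hm.zero _ _), by simp [fromBlocks_mul_fromRows, hX.pp],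
    by simp [fromRows_mul, hX.pp]⟩, by simp [fromBlocks_mul_fromRows, fromRows_mul, hX.pD, hX.Dp]⟩

/-- The cone of the inclusion of the subcomplex is the quotient. -/
theorem a16_quo {τ : Matrix X.J Y.J A} (hX : Ok H X) (hY : Ok H Y) (ht : Tw H X Y τ) :
    HE H ((X.ext Y τ).ext (((X.sh 1).sh 1).sh (-1)) (fromRows X.p 0)) Y := by
  refine ⟨fromCols (fromCols 0 Y.p) 0, fromRows (fromRows 0 Y.p) (-τ),
    fromBlocks 0 0 (fromCols X.p 0) 0, 0,
    ⟨⟨Hm.cols (Hm.cols (Hm.zero _ _) hY.hp) (Hm.zero _ _), ?_, ?_⟩, ?_⟩,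
    ⟨⟨Hm.rows (Hm.rows (Hm.zero _ _) hY.hp) fun i j => ⟨neg_mem (ht.hm i j).1, fun h => ?_⟩,
      ?_, ?_⟩, ?_⟩,
    Hm.blocks (Hm.zero _ _) (Hm.zero _ _) (Hm.cols (fun i j => ⟨(hX.hp i j).1, fun h => ?_⟩)
      (Hm.zero _ _)) (Hm.zero _ _), Hm.zero _ _, ?_, ?_⟩
  · simp [mul_fromCols, hY.pp]
  · simp [fromCols_mul_fromBlocks, hY.pp]
  · simp [fromCols_mul_fromBlocks, mul_fromCols, fromCols_mul_fromRows, hY.pD, hY.Dp]
  · have := (ht.hm i j).2 (by simpa using h)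
    simp only
    omega
  · simp [fromBlocks_mul_fromRows, hY.pp, ht.pl]
  · simp [fromRows_mul, hY.pp, ht.pr]
  · have := eq_neg_of_add_eq_zero_left ht.cm
    simp only [fromBlocks_mul_fromRows, fromRows_mul, hY.pD, hY.Dp, ht.pr, Matrix.mul_neg, ht.pl,
      Matrix.neg_mul, this]
    ext ((i | i) | i) j <;> simp
  · have := (hX.hp i j).2 h
    simp only
    omega
  · simp only [fromBlocks_multiply, fromBlocks_add, fromCols_mul_fromBlocks,
      fromCols_mul_fromRows, mul_fromCols]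
    ext ((i | i) | i) ((j | j) | j) <;> simp [hX.pp, hY.pp, hX.pD, hX.Dp, ht.pl, ht.pr]
  · simp [fromCols_mul_fromRows, hY.pp]

/-- The quotient of a torsion complex by a subcomplex over `I` can be made torsion. -/
theorem a16_fill (hH : Good H S) (hI : Good I S) (hle : I ≤ H) {τ : Matrix X.J Y.J A}
    (hX : Ok I X) (hY : Ok H Y) (ht : Tw H X Y τ) (hC : Obj H S K (X.ext Y τ)) :
    ∃ Z g, Ok I Z ∧ Tw H Y Z g ∧ Obj H S K (Y.ext Z g) := by
  have hX' := hX.mono hle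
  obtain ⟨P, f, i, hP, hf, hi, e, -⟩ := kos hI hH hle K hX hC (a16_inc hX')
  have hg : Tw I (P.sh 1) ((X.sh 1).sh 1) (-i) :=
    ⟨⟨hi.hm.neg.shift_left 1 rfl |>.shift_right 1 rfl |>.shift_right 1 (by omega),
      by simp [hi.pl], by simp [hi.pr]⟩, by simp [hi.cm]⟩
  have hZ : Ok I ((P.sh 1).ext ((X.sh 1).sh 1) (-i)) := (hP.ok.sh 1).ext ((hX.sh 1).sh 1) hg
  obtain ⟨m1, m2, m3⟩ := ext_mod hH.mul hC.ok ((hP.ok.sh 1).mono hle) ((hX'.sh 1).sh 1) hf.tw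
    (hg.mono hle)
  have e' : -(f * -i) = fromRows X.p 0 := by simp [e]
  rw [e'] at m1 m2 m3
  have o1 := hC.ok.ext (((hX'.sh 1).sh 1).sh (-1)) m1
  obtain ⟨g, g1, g2⟩ := ext_congr hH.mul o1 hY (hZ.mono hle) (hZ.mono hle) (a16_quo hX' hY ht)
    (HE.refl (hZ.mono hle)) m2
  exact ⟨_, g, hZ, g1, (Obj.ext hH hf.tw hC ((hP.sh 1).mono hle)).he hH
    (hY.ext (hZ.mono hle) g1) (m3.symm.trans hH.mul g2)⟩

theorem a16_side (hH : Good H S) (hid : Idl I H) {τ : Matrix X.J Y.J A} {C : Cx A Λ}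
    (hX : Ok I X) (hY : Ok H Y) (ht : Tw H X Y τ) (hC : Obj H S K C) (e : HE H C (X.ext Y τ))
    {g : Matrix Y.J Z.J A} (hZ : Ok I Z) (hg : Tw H Y Z g) (hQ : Obj H S K (Y.ext Z g)) :
    ∃ (T : Cx A Λ) (σ : Matrix T.J (Y.ext Z g).J A), Obj I S K T ∧ Tw H T (Y.ext Z g) σ ∧
      HE H (T.ext (Y.ext Z g) σ) C := by
  have hX' := hX.mono hid.le
  obtain ⟨m1, m2, m3⟩ := ext_mod hH.mul hX' hY (hZ.mono hid.le) ht hg
  have o1 := hX'.ext ((hZ.mono hid.le).sh (-1)) m1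
  have e2 := m3.trans hH.mul e.symm
  exact ⟨_, _, (Obj.left hH m2 o1 (hC.he hH (o1.ext hQ.ok m2) e2.symm) hQ).idl hH hid
    (Hm.blocks hX.hp (Hm.zero _ _) (Hm.zero _ _) (hZ.sh (-1)).hp), m2, e2⟩

theorem exc_core (hH : Good H S) (hI : Good I S) (hid : Idl I H) (hu : LU I)
    {C : Cx (A × A) Λ} (hC : Obj (dbl H I) (dS S) K C) (hp : C.p = 1) :
    ∃ (T₁ T₂ Q : Cx A Λ) (τ₁ : Matrix T₁.J Q.J A) (τ₂ : Matrix T₂.J Q.J A),
      Obj I S K T₁ ∧ Obj I S K T₂ ∧ Obj H S K Q ∧ Tw H T₁ Q τ₁ ∧ Tw H T₂ Q τ₂ ∧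
      HE H (T₁.ext Q τ₁) (C.smap (AddMonoidHom.fst A A) id) ∧
      HE H (T₂.ext Q τ₂) (C.smap (AddMonoidHom.snd A A) id) := by
  have h1 := hC.sf (sf_fst_dbl (H := H) (I := I) (S := S))
  have h2 := hC.sf (sf_snd_dbl (H := H) (I := I) (S := S))
  set C₁ := C.smap (AddMonoidHom.fst A A) id with hC₁
  set C₂ := C.smap (AddMonoidHom.snd A A) id with hC₂
  have p1 : C₁.p = 1 := by
    rw [hC₁]; simp only [hp]; exact Matrix.map_one _ rfl rfl
  have p2 : C₂.p = 1 := by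
    rw [hC₂]; simp only [hp]; exact Matrix.map_one _ rfl rfl
  have hR : Hm I (-1) C₁.t C₁.t (C₂.D - C₁.D) := fun i j => ⟨(hC.ok.hD i j).1.2.2, fun h =>
    (hC.ok.hD i j).2 fun h0 => h (by
      change (C.D i j).2 - (C.D i j).1 = 0
      simp [h0])⟩
  obtain ⟨e, e1, e2, e3, e4, e5⟩ := hu.stable hid h1.ok.hD h2.ok.hD hR
  have c1 : Cut H C₁ e := ⟨e1.mono hid.le, e2, by simp [p1], by simp [p1], e3⟩
  have c2 : Cut H C₂ e := ⟨e1.mono hid.le, e2, by simp [p2], by simp [p2], e4⟩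
  obtain ⟨a1, a2, a3, a4⟩ := tri hH.mul h1.ok c1
  obtain ⟨b1, b2, b3, b4⟩ := tri hH.mul h2.ok c2
  have q : C₂.quo e = C₁.quo e := by
    have k1 : C₂.p - e = C₁.p - e := by rw [p1, p2]
    have k2 : (C₂.p - e) * C₂.D = (C₁.p - e) * C₁.D := by
      rw [p1, p2, ← sub_eq_zero, ← Matrix.mul_sub, Matrix.sub_mul, e5, Matrix.one_mul, sub_self]
    change C₁.re (C₂.p - e) ((C₂.p - e) * C₂.D) = _
    rw [k2, k1]
  have s1 := a1.idl hid e1
  have s2 := b1.idl hid e1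
  obtain ⟨Z, g, hZ, hg, hQ⟩ := a16_fill hH hI hid.le s1 a2 a3 (h1.he hH (a1.ext a2 a3) a4)
  obtain ⟨T₁, σ₁, t1, t2, t3⟩ := a16_side hH hid s1 a2 a3 h1 a4 hZ hg hQ
  obtain ⟨τ, b3', b4'⟩ : ∃ τ, Tw H (C₂.sub e) (C₁.quo e) τ ∧
      HE H C₂ ((C₂.sub e).ext (C₁.quo e) τ) := q ▸ ⟨_, b3, b4⟩
  obtain ⟨T₂, σ₂, u1, u2, u3⟩ := a16_side hH hid s2 a2 b3' h2 b4' hZ hg hQ
  exact ⟨T₁, T₂, _, σ₁, σ₂, t1, u1, hQ, t2, u2, t3, u3⟩

end Pool.Agent.MP_f7db47_al.KN
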