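import Pool.Agent.MP_f7db47_al.KN.A8
import Pool.Agent.MP_f7db47_al.KN.A16a

/-!
Pairs of filtered complexes with the same graded pieces.
-/

namespace Pool.Agent.MP_f7db47_al.KN

open Matrix

universe v w

variable {A : Type v} [Ring A] {Λ ι : Type} {H H' I I' : Fam A Λ} {S : ι → Submonoid A}
  {K K' : Finset ι} {W : Set ℤ} {X X' Y Y' Z : Cx A Λ} {w w' : A}

/-- Pairs of triangular matrices with the same diagonal blocks. -/
def trg (H : Fam A Λ) : Fam (A × A) (Λ × ℤ) := fun a b =>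
  { carrier := {x | x.1 ∈ H a.1 b.1 ∧ x.2 ∈ H a.1 b.1 ∧ (a.2 = b.2 → x.1 = x.2) ∧
      (b.2 < a.2 → x = 0)}
    zero_mem' := ⟨zero_mem _, zero_mem _, fun _ => rfl, fun _ => rfl⟩
    add_mem' := fun {x y} h h' => ⟨add_mem h.1 h'.1, add_mem h.2.1 h'.2.1,
      fun e => by rw [Prod.fst_add, Prod.snd_add, h.2.2.1 e, h'.2.2.1 e],
      fun e => by rw [h.2.2.2 e, h'.2.2.2 e, add_zero]⟩
    neg_mem' := fun {x} h => ⟨neg_mem h.1, neg_mem h.2.1,
      fun e => by rw [Prod.fst_neg, Prod.snd_neg, h.2.2.1 e],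
      fun e => by rw [h.2.2.2 e, neg_zero]⟩ }

theorem trg_mul {H₁ H₂ H₃ : Fam A Λ}
    (hm : ∀ ⦃a b c : Λ⦄ ⦃x y : A⦄, x ∈ H₁ a b → y ∈ H₂ b c → x * y ∈ H₃ a c)
    ⦃a b c : Λ × ℤ⦄ ⦃x y : A × A⦄ (hx : x ∈ trg H₁ a b) (hy : y ∈ trg H₂ b c) :
    x * y ∈ trg H₃ a c := by
  refine ⟨hm hx.1 hy.1, hm hx.2.1 hy.2.1, fun e => ?_, fun e => ?_⟩
  · rcases lt_trichotomy a.2 b.2 with h | h | h
    · rw [hy.2.2.2 (e ▸ h), mul_zero]; rfl
    · rw [Prod.fst_mul, Prod.snd_mul, hx.2.2.1 h, hy.2.2.1 (h ▸ e)]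
    · rw [hx.2.2.2 h, zero_mul]; rfl
  · by_cases h : b.2 < a.2
    · rw [hx.2.2.2 h, zero_mul]
    · rw [hy.2.2.2 (by omega), mul_zero]

theorem trg_good (hH : Good H S) : Good (trg H) (dS S) where
  mul := trg_mul hH.mul
  cen := dS_cen hH.cen
  stab := by
    rintro a _ ⟨w, hw, rfl⟩ i j x hx
    exact ⟨hH.stab a w hw hx.1, hH.stab a w hw hx.2.1, fun e => congrArg (w * ·) (hx.2.2.1 e),
      fun e => by rw [hx.2.2.2 e, mul_zero]⟩

theorem trg_idl (hid : Idl I H) : Idl (trg I) (trg H) :=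
  ⟨fun _ _ _ h => ⟨hid.le _ _ h.1, hid.le _ _ h.2.1, h.2.2⟩, trg_mul hid.left, trg_mul hid.right⟩

theorem trg_lu (hu : LU I) : LU (trg I) := by
  classical
  intro a T hT
  obtain ⟨e, e1, e2, e3⟩ := hu a.1 (T.image Prod.fst ∪ T.image Prod.snd) (by
    simp only [Finset.mem_union, Finset.mem_image]
    rintro _ (⟨x, hx, rfl⟩ | ⟨x, hx, rfl⟩)
    · exact let ⟨b, hb⟩ := hT x hx; ⟨b.1, hb.1⟩
    · exact let ⟨b, hb⟩ := hT x hx; ⟨b.1, hb.2.1⟩)
  exact ⟨(e, e), ⟨e1, e1, fun _ => rfl, fun h => absurd h (lt_irrefl _)⟩, Prod.ext e2 e2,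
    fun x hx => Prod.ext (e3 _ (Finset.mem_union_left _ (Finset.mem_image_of_mem _ hx)))
      (e3 _ (Finset.mem_union_right _ (Finset.mem_image_of_mem _ hx)))⟩

theorem sf_fst_trg : Sf (trg H) H (dS S) S (AddMonoidHom.fst A A) Prod.fst :=
  ⟨fun _ _ _ h => h.1, fun _ _ _ _ _ _ _ => rfl, by
    rintro a _ ⟨w, hw, rfl⟩
    exact ⟨w, hw, fun _ _ _ _ => rfl⟩⟩

theorem sf_snd_trg : Sf (trg H) H (dS S) S (AddMonoidHom.snd A A) Prod.fst :=
  ⟨fun _ _ _ h => h.2.1, fun _ _ _ _ _ _ _ => rfl, by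
    rintro a _ ⟨w, hw, rfl⟩
    exact ⟨w, hw, fun _ _ _ _ => rfl⟩⟩

theorem sf_diag_trg (n : ℤ) :
    Sf H (trg H) S (dS S) ((AddMonoidHom.id A).prod (AddMonoidHom.id A)) fun a => (a, n) :=
  ⟨fun _ _ _ h => ⟨h, h, fun _ => rfl, fun h => absurd h (lt_irrefl _)⟩,
    fun _ _ _ _ _ _ _ => rfl, fun _ w hw => ⟨(w, w), ⟨w, hw, rfl⟩, fun _ _ _ _ => rfl⟩⟩

theorem a16_sub_mul {J : Type} [Fintype J] (U : J → Prop) [DecidablePred U] (M N : Matrix J J A)
    (h : ∀ i j k, U i → ¬U j → U k → M i j * N j k = 0) :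
    M.submatrix (Subtype.val : {j // U j} → J) (Subtype.val : {j // U j} → J) *
      N.submatrix (Subtype.val : {j // U j} → J) (Subtype.val : {j // U j} → J) =
      (M * N).submatrix Subtype.val Subtype.val := by
  ext i k
  simp only [Matrix.mul_apply, submatrix_apply]
  rw [← Finset.sum_subtype (Finset.univ.filter U) (by simp) (fun j => M i j * N j k)]
  exact Finset.sum_subset (Finset.subset_univ _) fun j _ hj => h _ _ _ i.2 (by simpa using hj) k.2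

theorem a16_res_tor {T : Cx (A × A) (Λ × ℤ)} (hT : Obj (trg H) (dS S) K T) (U : T.J → Prop)
    [DecidablePred U]
    (hU : ∀ i j k, U i → ¬U j → U k → (T.t j).1.2 < (T.t i).1.2 ∨ (T.t k).1.2 < (T.t j).1.2) :
    Tor (trg H) (dS S) K (T.res (Subtype.val : {j // U j} → T.J)) := by
  intro a ha
  obtain ⟨w, hw, h, h1, h2⟩ := hT.tor a ha
  refine ⟨w, hw, h.submatrix Subtype.val Subtype.val, h1.submatrix _ _, ?_⟩
  have k : ∀ {d d' : ℤ} {M N : Matrix T.J T.J (A × A)}, Hm (trg H) d T.t T.t M →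
      Hm (trg H) d' T.t T.t N → ∀ i j k, U i → ¬U j → U k → M i j * N j k = 0 := by
    intro d d' M N hM hN i j k a b c
    rcases hU i j k a b c with h | h
    · rw [(hM i j).1.2.2.2 h, zero_mul]
    · rw [(hN j k).1.2.2.2 h, mul_zero]
  dsimp only
  rw [a16_sub_mul U _ _ (k hT.ok.hD h1), a16_sub_mul U _ _ (k h1 hT.ok.hD)]
  exact Matrix.ext fun i j => congrFun (congrFun h2 i.1) j.1

theorem trg_cls (hH : Good H S) {M : Type w} [AddCommGroup M] (E : KS H S K Set.univ M)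
    {T : Cx (A × A) (Λ × ℤ)} (hT : Obj (trg H) (dS S) K T) :
    E.cls (T.smap (AddMonoidHom.fst A A) Prod.fst) =
      E.cls (T.smap (AddMonoidHom.snd A A) Prod.fst) := by
  classical
  have one : ∀ T : Cx (A × A) (Λ × ℤ), Ok (trg H) T → (∀ i j, (T.t i).1.2 = (T.t j).1.2) →
      T.smap (AddMonoidHom.fst A A) Prod.fst = T.smap (AddMonoidHom.snd A A) Prod.fst := by
    intro T hT h
    have e1 : T.p.map (AddMonoidHom.fst A A) = T.p.map (AddMonoidHom.snd A A) :=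
      Matrix.ext fun i j => (hT.hp i j).1.2.2.1 (h i j)
    have e2 : T.D.map (AddMonoidHom.fst A A) = T.D.map (AddMonoidHom.snd A A) :=
      Matrix.ext fun i j => (hT.hD i j).1.2.2.1 (h i j)
    unfold Cx.smap
    rw [e1, e2]
  induction hn : Fintype.card T.J using Nat.strong_induction_on generalizing T with
  | _ n ih =>
    by_cases h : ∀ i j, (T.t i).1.2 = (T.t j).1.2
    · rw [one T hT.ok h]
    push Not at h
    obtain ⟨i₀, j₀, h0⟩ := h
    obtain ⟨m, -, hm⟩ := Finset.exists_min_image Finset.univ (fun j => (T.t j).1.2)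
      ⟨i₀, Finset.mem_univ _⟩
    have hm' := fun j => hm j (Finset.mem_univ j)
    let U : T.J → Prop := fun j => (T.t j).1.2 = (T.t m).1.2
    have lt : ∀ i j, ¬U i → U j → (T.t j).1.2 < (T.t i).1.2 := fun i j a b => by
      have := hm' i
      simp only [U] at a b
      omega
    obtain ⟨a1, a2, t, a3, a4⟩ := tri_res (trg_good hH).mul hT.ok U
      (fun i j a b => (hT.ok.hp i j).1.2.2.2 (lt i j a b))
      (fun i j a b => (hT.ok.hD i j).1.2.2.2 (lt i j a b))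
    have o1 : Obj (trg H) (dS S) K _ := ⟨a1, a16_res_tor hT U fun i j k _ b c => .inr (lt j k b c)⟩
    have o2 : Obj (trg H) (dS S) K _ := ⟨a2, a16_res_tor hT (fun j => ¬U j)
      fun i j k a b _ => .inl (lt i j a (not_not.1 b))⟩
    have key : ∀ {φ : A × A →+ A}, Sf (trg H) H (dS S) S φ Prod.fst →
        E.cls (T.smap φ Prod.fst) = E.cls ((T.res (Subtype.val : {j // U j} → T.J)).smap φ
          Prod.fst) + E.cls ((T.res (Subtype.val : {j // ¬U j} → T.J)).smap φ Prod.fst) := by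
      intro φ hφ
      have := (a4.sf hφ hT.ok (a1.ext a2 a3)).symm
      rw [smap_ext] at this
      exact E.he_ext hH (o1.sf hφ) (o2.sf hφ) (hT.sf hφ) (Wd.univ _) (Wd.univ _) (Wd.univ _)
        (a3.sf hφ a1 a2) this
    rw [key sf_fst_trg, key sf_snd_trg, one _ a1 fun i j => i.2.trans j.2.symm,
      ih _ ?_ o2 rfl]
    rw [← hn]
    exact Fintype.card_subtype_lt (x := m) (fun h => h rfl)

/-- Two twisting maps give a twisting map of pairs. -/
theorem tw_trg {X Y : Cx (A × A) (Λ × ℤ)} (h : ∀ i j, (X.t i).1.2 < (Y.t j).1.2)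
    {t₁ t₂ : Matrix X.J Y.J A}
    (h1 : Tw H (X.smap (AddMonoidHom.fst A A) Prod.fst) (Y.smap (AddMonoidHom.fst A A) Prod.fst) t₁)
    (h2 : Tw H (X.smap (AddMonoidHom.snd A A) Prod.fst) (Y.smap (AddMonoidHom.snd A A) Prod.fst) t₂) :
    Tw (trg H) X Y (Matrix.of fun i j => (t₁ i j, t₂ i j)) := by
  have k : ∀ {M N : Matrix X.J Y.J (A × A)}, M.map (RingHom.fst A A) = N.map (RingHom.fst A A) →
      M.map (RingHom.snd A A) = N.map (RingHom.snd A A) → M = N := fun a b =>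
    Matrix.ext fun i j => Prod.ext (congrFun (congrFun a i) j) (congrFun (congrFun b i) j)
  refine ⟨⟨fun i j => ⟨⟨(h1.hm i j).1, (h2.hm i j).1, fun e => absurd e (h i j).ne,
    fun e => absurd e (h i j).not_gt⟩, fun e => ?_⟩, k ?_ ?_, k ?_ ?_⟩, k ?_ ?_⟩
  · by_cases e1 : t₁ i j = 0
    · exact (h2.hm i j).2 fun e2 => e (Prod.ext e1 e2)
    · exact (h1.hm i j).2 e1
  · rw [Matrix.map_mul]; exact h1.pl
  · rw [Matrix.map_mul]; exact h2.pl
  · rw [Matrix.map_mul]; exact h1.pr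
  · rw [Matrix.map_mul]; exact h2.pr
  · rw [Matrix.map_add _ (map_add _), Matrix.map_mul, Matrix.map_mul]; exact h1.cm
  · rw [Matrix.map_add _ (map_add _), Matrix.map_mul, Matrix.map_mul]; exact h2.cm

end Pool.Agent.MP_f7db47_al.KN
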