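import Pool.Agent.MP_f7db47_al.KN.A7
import Pool.Agent.MP_f7db47_al.KN.A8
import Pool.Agent.MP_f7db47_al.KN.A10

/-!
The Eilenberg swindle.
-/

namespace Pool.Agent.MP_f7db47_al.KN

open Matrix

universe v w

variable {A : Type v} [Ring A] {Λ ι : Type} {H H' I I' : Fam A Λ} {S : ι → Submonoid A}
  {K K' : Finset ι} {W : Set ℤ} {X X' Y Y' Z : Cx A Λ} {w w' : A}

theorem a17_right {d : ℤ} {J₁ J₂ : Type} [Fintype J₂] [DecidableEq J₂] {s : J₁ → Λ × ℤ}
    {t : J₂ → Λ × ℤ} {f : Matrix J₁ J₂ A} (h : Hm H d s t f) {c : A}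
    (hc : ∀ ⦃i j x⦄, x ∈ H i j → c * x ∈ H i j ∧ x * c ∈ H i j) :
    Hm H d s t (f * (diagonal fun _ => c : Matrix J₂ J₂ A) : Matrix J₁ J₂ A) := fun i j => by
  rw [mul_diagonal]
  exact ⟨(hc (h i j).1).2, fun e => (h i j).2 (left_ne_zero_of_mul e)⟩

theorem a17_left {d : ℤ} {J₁ J₂ : Type} [Fintype J₁] [DecidableEq J₁] {s : J₁ → Λ × ℤ}
    {t : J₂ → Λ × ℤ} {f : Matrix J₁ J₂ A} (h : Hm H d s t f) {c : A}
    (hc : ∀ ⦃i j x⦄, x ∈ H i j → c * x ∈ H i j ∧ x * c ∈ H i j) :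
    Hm H d s t ((diagonal fun _ => c : Matrix J₁ J₁ A) * f : Matrix J₁ J₂ A) := fun i j => by
  rw [diagonal_mul]
  exact ⟨(hc (h i j).1).1, fun e => (h i j).2 (right_ne_zero_of_mul e)⟩

theorem swindle (hH : Good H S) {σ : A →+ A} (hσ : Sf H H S S σ id) (hm : ∀ x y, σ (x * y) = σ x * σ y)
    {a₀ b₀ a₁ b₁ : A} (m : ∀ c ∈ ({a₀, b₀, a₁, b₁} : Set A), ∀ ⦃i j x⦄, x ∈ H i j →
      c * x ∈ H i j ∧ x * c ∈ H i j)
    (h0 : a₀ * b₀ = 1) (h1 : a₁ * b₁ = σ 1) (h01 : a₀ * b₁ = 0)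
    (he : ∀ x, σ x = b₀ * x * a₀ + b₁ * σ x * a₁) : NullAll H S K := by
  intro X hX
  have s1 : ∀ x, σ x * σ 1 = σ x := fun x => by rw [← hm, mul_one]
  have s2 : ∀ x, σ 1 * σ x = σ x := fun x => by rw [← hm, one_mul]
  have z0 : σ 1 * a₁ * b₀ = 0 := by
    have e1 : σ 1 * b₀ = b₀ + b₁ * (σ 1 * a₁ * b₀) := by
      conv_lhs => rw [he 1]
      rw [add_mul, mul_one, mul_assoc b₀, h0, mul_one]
      simp only [mul_assoc]
    have e2 : σ 1 * b₁ = b₁ * σ 1 := by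
      conv_lhs => rw [he 1]
      rw [add_mul, mul_one, mul_assoc b₀, h01, mul_zero, zero_add, mul_assoc, h1, mul_assoc, s1]
    have e3 : σ 1 * b₀ = σ 1 * b₀ + b₁ * (σ 1 * a₁ * b₀) := by
      conv_lhs => rw [← s1 1, mul_assoc, e1, mul_add, ← mul_assoc (σ 1) b₁, e2, mul_assoc b₁,
        ← mul_assoc (σ 1), ← mul_assoc (σ 1), s1]
    have e4 : b₁ * (σ 1 * a₁ * b₀) = 0 := by simpa using e3
    have e5 : a₁ * (b₁ * (σ 1 * a₁ * b₀)) = 0 := by rw [e4, mul_zero]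
    rwa [← mul_assoc, h1, ← mul_assoc, ← mul_assoc, s1] at e5
  have z1 : ∀ x, σ x * a₁ * b₀ = 0 := fun x => by
    rw [← s1 x, mul_assoc (σ x), mul_assoc (σ x), z0, mul_zero]
  have r0 : ∀ x, a₀ * σ x = x * a₀ := fun x => by
    rw [he x, mul_add, ← mul_assoc, ← mul_assoc, h0, one_mul, ← mul_assoc, ← mul_assoc, h01,
      zero_mul, zero_mul, add_zero]
  have l0 : ∀ x, σ x * b₀ = b₀ * x := fun x => by
    conv_lhs => rw [he x]
    rw [add_mul, mul_assoc (b₀ * x), h0, mul_one, mul_assoc b₁, mul_assoc b₁, z1, mul_zero,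
      add_zero]
  have l1 : ∀ x, σ x * b₁ = b₁ * σ x := fun x => by
    conv_lhs => rw [he x]
    rw [add_mul, mul_assoc (b₀ * x), h01, mul_zero, zero_add, mul_assoc, h1, mul_assoc, s1]
  have r1 : ∀ y x, σ y * a₁ * σ x = σ y * σ x * a₁ := fun y x => by
    conv_lhs => rw [he x]
    rw [mul_add, ← mul_assoc, ← mul_assoc, z1, zero_mul, zero_mul, zero_add, ← mul_assoc,
      ← mul_assoc, mul_assoc (σ y) a₁, h1, s1]
  set A0 : Matrix X.J X.J A := diagonal fun _ => a₀ with hA0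
  set A1 : Matrix X.J X.J A := diagonal fun _ => a₁ with hA1
  set B0 : Matrix X.J X.J A := diagonal fun _ => b₀ with hB0
  set B1 : Matrix X.J X.J A := diagonal fun _ => b₁ with hB1
  have R0 : ∀ M : Matrix X.J X.J A, A0 * M.map σ = M * A0 := fun M => by
    ext i j; rw [hA0, diagonal_mul, mul_diagonal, map_apply, r0]
  have L0 : ∀ M : Matrix X.J X.J A, M.map σ * B0 = B0 * M := fun M => by
    ext i j; rw [hB0, diagonal_mul, mul_diagonal, map_apply, l0]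
  have L1 : ∀ M : Matrix X.J X.J A, M.map σ * B1 = B1 * M.map σ := fun M => by
    ext i j; rw [hB1, diagonal_mul, mul_diagonal, map_apply, l1]
  have R1 : ∀ N M : Matrix X.J X.J A, N.map σ * A1 * M.map σ = N.map σ * M.map σ * A1 :=
    fun N M => by
      ext i j
      rw [hA1, mul_diagonal, Matrix.mul_apply, Matrix.mul_apply, Finset.sum_mul]
      exact Finset.sum_congr rfl fun k _ => by rw [mul_diagonal, map_apply, map_apply, r1]
  have H0 : A0 * B0 = 1 := by rw [hA0, hB0, diagonal_mul_diagonal]; simp only [h0, diagonal_one]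
  have H01 : A0 * B1 = 0 := by rw [hA0, hB1, diagonal_mul_diagonal]; simp only [h01, diagonal_zero]
  have Z1 : ∀ N : Matrix X.J X.J A, N.map σ * A1 * B0 = 0 := fun N => by
    ext i j; rw [hA1, hB0, mul_diagonal, mul_diagonal, map_apply, z1, Matrix.zero_apply]
  have H1 : ∀ N : Matrix X.J X.J A, N.map σ * A1 * B1 = N.map σ := fun N => by
    ext i j; rw [hA1, hB1, mul_diagonal, mul_diagonal, map_apply, mul_assoc, h1, s1]
  have HE' : ∀ M : Matrix X.J X.J A, B0 * M * A0 + B1 * M.map σ * A1 = M.map σ := fun M => by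
    ext i j
    rw [Matrix.add_apply, hA0, hA1, hB0, hB1, mul_diagonal, mul_diagonal, diagonal_mul,
      diagonal_mul, map_apply, ← he]
  have hY : Obj H S K (X.smap σ id) := hX.sf hσ
  have pp : X.p.map σ * X.p.map σ = X.p.map σ := hY.ok.pp
  have pD : X.p.map σ * X.D.map σ = X.D.map σ := hY.ok.pD
  have Dp : X.D.map σ * X.p.map σ = X.D.map σ := hY.ok.Dp
  have hp : Hm H 0 X.t X.t (X.p.map σ) := hY.ok.hp
  have hf : Ch H (X.sum (X.smap σ id)) (X.smap σ id) (fromRows (X.p * A0) (X.p.map σ * A1)) := by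
    refine ⟨⟨Hm.rows (a17_right hX.ok.hp (m _ (by simp))) (a17_right hp (m _ (by simp))), ?_, ?_⟩,
      ?_⟩
    · show fromBlocks X.p 0 0 (X.p.map σ) * fromRows (X.p * A0) (X.p.map σ * A1) =
        fromRows (X.p * A0) (X.p.map σ * A1)
      rw [fromBlocks_mul_fromRows, Matrix.zero_mul, Matrix.zero_mul, add_zero, zero_add,
        ← Matrix.mul_assoc, ← Matrix.mul_assoc, hX.ok.pp, pp]
    · show fromRows (X.p * A0) (X.p.map σ * A1) * X.p.map σ =
        fromRows (X.p * A0) (X.p.map σ * A1)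
      rw [fromRows_mul, R1, pp, Matrix.mul_assoc, R0, ← Matrix.mul_assoc, hX.ok.pp]
    · show fromBlocks X.D 0 0 (X.D.map σ) * _ = _ * X.D.map σ
      rw [fromBlocks_mul_fromRows, Matrix.zero_mul, Matrix.zero_mul, add_zero, zero_add,
        ← Matrix.mul_assoc, ← Matrix.mul_assoc, hX.ok.Dp, Dp, fromRows_mul, R1, pD,
        Matrix.mul_assoc X.p, R0, ← Matrix.mul_assoc, hX.ok.pD]
  have hg : Ch H (X.smap σ id) (X.sum (X.smap σ id)) (fromCols (B0 * X.p) (B1 * X.p.map σ)) := by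
    refine ⟨⟨Hm.cols (a17_left hX.ok.hp (m _ (by simp))) (a17_left hp (m _ (by simp))), ?_, ?_⟩,
      ?_⟩
    · show X.p.map σ * fromCols (B0 * X.p) (B1 * X.p.map σ) =
        fromCols (B0 * X.p) (B1 * X.p.map σ)
      rw [mul_fromCols, ← Matrix.mul_assoc, ← Matrix.mul_assoc, L0, L1, Matrix.mul_assoc,
        Matrix.mul_assoc, hX.ok.pp, pp]
    · show fromCols (B0 * X.p) (B1 * X.p.map σ) * fromBlocks X.p 0 0 (X.p.map σ) =
        fromCols (B0 * X.p) (B1 * X.p.map σ)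
      rw [fromCols_mul_fromBlocks, Matrix.mul_zero, Matrix.mul_zero, add_zero, zero_add,
        Matrix.mul_assoc, Matrix.mul_assoc, hX.ok.pp, pp]
    · show X.D.map σ * _ = _ * fromBlocks X.D 0 0 (X.D.map σ)
      rw [fromCols_mul_fromBlocks, Matrix.mul_zero, Matrix.mul_zero, add_zero, zero_add,
        mul_fromCols, ← Matrix.mul_assoc, ← Matrix.mul_assoc, L0, L1, Matrix.mul_assoc,
        Matrix.mul_assoc, Matrix.mul_assoc, Matrix.mul_assoc, hX.ok.Dp, Dp, hX.ok.pD, pD]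
  have e : HE H (X.smap σ id) (X.sum (X.smap σ id)) := by
    refine HE.of_iso hf hg ?_ ?_
    · show _ = X.p.map σ
      rw [fromCols_mul_fromRows, ← Matrix.mul_assoc, ← Matrix.mul_assoc, Matrix.mul_assoc B0,
        Matrix.mul_assoc B1, hX.ok.pp, pp, HE']
    · show _ = fromBlocks X.p 0 0 (X.p.map σ)
      rw [fromRows_mul_fromCols, ← Matrix.mul_assoc, ← Matrix.mul_assoc, ← Matrix.mul_assoc,
        ← Matrix.mul_assoc, Z1, H1, Matrix.mul_assoc X.p A0 B0, Matrix.mul_assoc X.p A0 B1, H0,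
        H01, Matrix.mul_one, Matrix.mul_zero, Matrix.zero_mul, Matrix.zero_mul, hX.ok.pp, pp]
  obtain ⟨M, _, ⟨E⟩⟩ := exists_KS hH K Set.univ
  have c1 := E.he hY (hX.sum hH hY) (Wd.univ _) (Wd.univ _) e
  rw [E.sum hX hY (Wd.univ _) (Wd.univ _)] at c1
  exact (E.zero_iff hX (Wd.univ _)).1 (by simpa using c1)

end Pool.Agent.MP_f7db47_al.KN
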