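import Pool.Agent.MP_f7db47_al.KN.A1

/-!
Homotopy equivalences.
-/

namespace Pool.Agent.MP_f7db47_al.KN

open Matrix

universe v w

variable {A : Type v} [Ring A] {Λ ι : Type} {H H' I I' : Fam A Λ} {S : ι → Submonoid A}
  {K K' : Finset ι} {W : Set ℤ} {X X' Y Y' Z : Cx A Λ} {w w' : A}

theorem a2_mp {H₁ H₂ H₃ : Fam A Λ}
    (hm : ∀ ⦃a b c : Λ⦄ ⦃x y : A⦄, x ∈ H₁ a b → y ∈ H₂ b c → x * y ∈ H₃ a c) {d d' e : ℤ}
    {g : Matrix Z.J Y.J A} {f : Matrix Y.J X.J A} (hg : Mp H₁ d Z Y g) (hf : Mp H₂ d' Y X f)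
    (he : e = d + d') : Mp H₃ e Z X (g * f) :=
  ⟨Hm.mul3 hm hg.hm hf.hm he, by rw [← Matrix.mul_assoc, hg.pl], by rw [Matrix.mul_assoc, hf.pr]⟩

theorem a2_ch {H₁ H₂ H₃ : Fam A Λ}
    (hm : ∀ ⦃a b c : Λ⦄ ⦃x y : A⦄, x ∈ H₁ a b → y ∈ H₂ b c → x * y ∈ H₃ a c)
    {g : Matrix Z.J Y.J A} {f : Matrix Y.J X.J A} (hg : Ch H₁ Z Y g) (hf : Ch H₂ Y X f) :
    Ch H₃ Z X (g * f) :=
  ⟨a2_mp hm hg.toMp hf.toMp (by omega), by
    rw [← Matrix.mul_assoc, hg.cm, Matrix.mul_assoc, hf.cm, Matrix.mul_assoc]⟩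

theorem a2_smul (hw : Sc H w) {d : ℤ} {f : Matrix Y.J X.J A} (hf : Mp H d Y X f) :
    Mp H d Y X (w • f) :=
  ⟨hf.hm.smul hw, by rw [mul_smul_cen hw.1, hf.pl], by rw [Matrix.smul_mul, hf.pr]⟩

/-- The boundary of a conjugated homotopy. -/
theorem a2_conj {g : Matrix Z.J Y.J A} {s : Matrix Y.J Y'.J A} {f : Matrix Y'.J X.J A}
    (hg : Z.D * g = g * Y.D) (hf : Y'.D * f = f * X.D) :
    Z.D * (g * s * f) + g * s * f * X.D = g * (Y.D * s + s * Y'.D) * f := by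
  rw [Matrix.mul_add, Matrix.add_mul, Matrix.mul_assoc (g * s), ← hf, ← Matrix.mul_assoc Z.D,
    ← Matrix.mul_assoc Z.D, hg]
  simp only [Matrix.mul_assoc]

theorem a2_half {f : Matrix Y.J X.J A} {g : Matrix X.J Y.J A} {f' : Matrix Z.J Y.J A}
    {g' : Matrix Y.J Z.J A} {h : Matrix X.J X.J A} {h' : Matrix Y.J Y.J A}
    (hf : Y.D * f = f * X.D) (hg : X.D * g = g * Y.D) (hp : g * Y.p = g)
    (e : g * f + (X.D * h + h * X.D) = X.p) (e' : g' * f' + (Y.D * h' + h' * Y.D) = Y.p) :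
    g * g' * (f' * f) + (X.D * (h + g * h' * f) + (h + g * h' * f) * X.D) = X.p := by
  have e1 := a2_conj (s := h') hg hf
  have e2 : g * g' * (f' * f) + g * (Y.D * h' + h' * Y.D) * f = g * f := by
    rw [← Matrix.mul_assoc (g * g'), Matrix.mul_assoc g g', ← Matrix.add_mul, ← Matrix.mul_add, e',
      hp]
  rw [Matrix.mul_add, Matrix.add_mul, ← e, ← e2, ← e1]
  abel

theorem a2_blk {f : Matrix Y.J X.J A} {f' : Matrix Y'.J X'.J A} (hf : Ch H Y X f)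
    (hf' : Ch H Y' X' f') : Ch H (Y.sum Y') (X.sum X') (fromBlocks f 0 0 f') :=
  ⟨⟨Hm.blocks hf.hm (Hm.zero _ _) (Hm.zero _ _) hf'.hm,
    by simp [fromBlocks_multiply, hf.pl, hf'.pl], by simp [fromBlocks_multiply, hf.pr, hf'.pr]⟩,
    by simp [fromBlocks_multiply, hf.cm, hf'.cm]⟩

theorem a2_sum (h : HE H X Y) (h' : HE H X' Y') : HE H (X.sum X') (Y.sum Y') := by
  obtain ⟨f, g, a, b, c⟩ := h
  obtain ⟨f', g', a', b', c'⟩ := h'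
  exact ⟨_, _, fromBlocks a 0 0 a', fromBlocks b 0 0 b', a2_blk c.hf c'.hf, a2_blk c.hg c'.hg,
    Hm.blocks c.hh (Hm.zero _ _) (Hm.zero _ _) c'.hh,
    Hm.blocks c.hk (Hm.zero _ _) (Hm.zero _ _) c'.hk,
    by simp [fromBlocks_multiply, fromBlocks_add, c.gf, c'.gf],
    by simp [fromBlocks_multiply, fromBlocks_add, c.fg, c'.fg]⟩

theorem a2_sh {f : Matrix Y.J X.J A} (hf : Ch H Y X f) (n : ℤ) : Ch H (Y.sh n) (X.sh n) f :=
  ⟨⟨hf.hm.shift n n (by omega), hf.pl, hf.pr⟩, by simp [hf.cm]⟩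

theorem Ch.id (h : Ok H X) : Ch H X X X.p := ⟨⟨h.hp, h.pp, h.pp⟩, h.Dp.trans h.pD.symm⟩

theorem Mp.comp (hH : LR H) {d d' e : ℤ} {g : Matrix Z.J Y.J A} {f : Matrix Y.J X.J A}
    (hg : Mp H d Z Y g) (hf : Mp H d' Y X f) (he : e = d + d') : Mp H e Z X (g * f) :=
  a2_mp hH hg hf he

theorem Ch.comp (hH : LR H) {g : Matrix Z.J Y.J A} {f : Matrix Y.J X.J A} (hg : Ch H Z Y g)
    (hf : Ch H Y X f) : Ch H Z X (g * f) := a2_ch hH hg hf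

theorem Ch.smul (hw : Sc H w) {f : Matrix Y.J X.J A} (hf : Ch H Y X f) : Ch H Y X (w • f) :=
  ⟨a2_smul hw hf.toMp, by rw [mul_smul_cen hw.1, Matrix.smul_mul, hf.cm]⟩

theorem Tw.smul (hw : Sc H w) {f : Matrix Y.J X.J A} (hf : Tw H Y X f) : Tw H Y X (w • f) :=
  ⟨a2_smul hw hf.toMp, by rw [mul_smul_cen hw.1, Matrix.smul_mul, ← smul_add, hf.cm, smul_zero]⟩

theorem Tw.comp_left (hH : LR H) {f : Matrix X'.J X.J A} {t : Matrix X.J Y.J A}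
    (hf : Ch H X' X f) (ht : Tw H X Y t) : Tw H X' Y (f * t) :=
  ⟨a2_mp hH hf.toMp ht.toMp (by omega), by
    rw [← Matrix.mul_assoc, hf.cm, Matrix.mul_assoc, Matrix.mul_assoc, ← Matrix.mul_add, ht.cm,
      Matrix.mul_zero]⟩

theorem Tw.comp_right (hH : LR H) {g : Matrix Y.J Y'.J A} {t : Matrix X.J Y.J A}
    (ht : Tw H X Y t) (hg : Ch H Y Y' g) : Tw H X Y' (t * g) :=
  ⟨a2_mp hH ht.toMp hg.toMp (by omega), by
    rw [Matrix.mul_assoc, ← hg.cm, ← Matrix.mul_assoc, ← Matrix.mul_assoc, ← Matrix.add_mul, ht.cm,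
      Matrix.zero_mul]⟩

theorem HE.of_iso {f : Matrix Y.J X.J A} {g : Matrix X.J Y.J A} (hf : Ch H Y X f)
    (hg : Ch H X Y g) (h1 : g * f = X.p) (h2 : f * g = Y.p) : HE H X Y :=
  ⟨f, g, 0, 0, hf, hg, Hm.zero _ _, Hm.zero _ _, by simp [h1], by simp [h2]⟩

theorem HE.refl (h : Ok H X) : HE H X X := HE.of_iso (Ch.id h) (Ch.id h) h.pp h.pp

theorem HE.symm (h : HE H X Y) : HE H Y X := by
  obtain ⟨f, g, a, b, c⟩ := h
  exact ⟨g, f, b, a, c.hg, c.hf, c.hk, c.hh, c.fg, c.gf⟩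

theorem HE.trans_gr {𝓗 : ℕ → Fam A Λ} (hH : Gr 𝓗 S) {k : ℕ} (h : HE (𝓗 k) X Y)
    (h' : HE (𝓗 k) Y Z) : HE (𝓗 (3 * k)) X Z := by
  obtain ⟨f, g, a, b, c⟩ := h
  obtain ⟨f', g', a', b', c'⟩ := h'
  have m1 : 𝓗 k ≤ 𝓗 (3 * k) := hH.mono (by omega)
  have m2 : 𝓗 (k + k) ≤ 𝓗 (3 * k) := hH.mono (by omega)
  have m3 : 𝓗 (k + k + k) ≤ 𝓗 (3 * k) := hH.mono (by omega)
  exact ⟨f' * f, g * g', a + g * a' * f, b' + f' * b * g',
    (a2_ch (@hH.mul k k) c'.hf c.hf).mono m2, (a2_ch (@hH.mul k k) c.hg c'.hg).mono m2,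
    (c.hh.mono m1).add ((Hm.mul3 (@hH.mul (k + k) k)
      (Hm.mul3 (@hH.mul k k) c.hg.hm c'.hh rfl) c.hf.hm (by omega)).mono m3),
    (c'.hk.mono m1).add ((Hm.mul3 (@hH.mul (k + k) k)
      (Hm.mul3 (@hH.mul k k) c'.hf.hm c.hk rfl) c'.hg.hm (by omega)).mono m3),
    a2_half c.hf.cm c.hg.cm c.hg.pr c.gf c'.gf, a2_half c'.hg.cm c'.hf.cm c'.hf.pr c'.fg c.fg⟩

theorem HE.trans (hH : LR H) (h : HE H X Y) (h' : HE H Y Z) : HE H X Z :=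
  HE.trans_gr (𝓗 := fun _ => H) (S := fun a : Empty => a.elim) (k := 0)
    ⟨fun _ _ _ => le_rfl, fun _ _ _ _ _ _ _ hx hy => hH hx hy, fun a => a.elim,
      fun a => a.elim⟩ h h'

/-- A chain map with a left and a right homotopy inverse. -/
theorem HE.of_lr (hH : LR H) {f : Matrix Y.J X.J A} {g g' : Matrix X.J Y.J A}
    {h : Matrix X.J X.J A} {k : Matrix Y.J Y.J A} (hf : Ch H Y X f) (hg : Ch H X Y g)
    (hg' : Ch H X Y g') (hh : Hm H 1 X.t X.t h) (hk : Hm H 1 Y.t Y.t k)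
    (h1 : g * f + (X.D * h + h * X.D) = X.p) (h2 : f * g' + (Y.D * k + k * Y.D) = Y.p) :
    ∃ k', HEd H X Y f g h k' := by
  refine ⟨k + f * h * g' - f * g * k, hf, hg, hh, (hk.add (Hm.mul3 hH
    (Hm.mul3 hH hf.hm hh rfl) hg'.hm (by omega))).sub (Hm.mul3 hH
      (Hm.mul3 hH hf.hm hg.hm rfl) hk (by omega)), h1, ?_⟩
  have e1 := a2_conj (s := h) hf.cm hg'.cm
  have e2 : Y.D * (f * g * k) + f * g * k * Y.D = f * g * (Y.D * k + k * Y.D) := by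
    rw [← Matrix.mul_assoc, (hf.comp hH hg).cm, Matrix.mul_add]
    simp only [Matrix.mul_assoc]
  rw [eq_sub_of_add_eq' h1, Matrix.mul_sub, Matrix.sub_mul, hf.pr] at e1
  rw [eq_sub_of_add_eq' h2, Matrix.mul_sub, (hf.comp hH hg).pr] at e2
  have e3 : f * g * (f * g') = f * (g * f) * g' := by simp only [Matrix.mul_assoc]
  rw [Matrix.mul_sub, Matrix.sub_mul, Matrix.mul_add, Matrix.add_mul, ← h2,
    eq_sub_of_add_eq e1, eq_sub_of_add_eq e2, e3]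
  abel

theorem Nul.he (hH : LR H) (hw : Sc H w) (h : Nul H w X) (e : HE H X Y) : Nul H w Y := by
  obtain ⟨s, h1, h2⟩ := h
  obtain ⟨f, g, a, b, c⟩ := e
  refine ⟨f * s * g + w • b, (Hm.mul3 hH (Hm.mul3 hH c.hf.hm h1 rfl) c.hg.hm (by omega)).add
    (c.hk.smul hw), ?_⟩
  have e1 := a2_conj (s := s) c.hf.cm c.hg.cm
  rw [h2, mul_smul_cen hw.1, c.hf.pr, Matrix.smul_mul] at e1
  rw [Matrix.mul_add, Matrix.add_mul, mul_smul_cen hw.1, Matrix.smul_mul, ← c.fg, smul_add,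
    smul_add, ← e1]
  abel

theorem Obj.he (hH : Good H S) (h : Obj H S K X) (hY : Ok H Y) (e : HE H X Y) : Obj H S K Y :=
  ⟨hY, fun a ha => (h.tor a ha).imp fun _ c => ⟨c.1, c.2.he hH.mul (hH.sc c.1) e⟩⟩

/-- The homotopy can be chosen compatible with the idempotent. -/
theorem Nul.sand (hH : LR H) (hX : Ok H X) (hw : ∀ x, w * x = x * w) (h : Nul H w X) :
    ∃ s, Mp H 1 X X s ∧ X.D * s + s * X.D = w • X.p := by
  obtain ⟨s, h1, h2⟩ := h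
  refine ⟨X.p * s * X.p, ⟨Hm.mul3 hH (Hm.mul3 hH hX.hp h1 rfl) hX.hp (by omega), ?_, ?_⟩, ?_⟩
  · rw [← Matrix.mul_assoc, ← Matrix.mul_assoc, hX.pp]
  · rw [Matrix.mul_assoc, hX.pp]
  · rw [a2_conj (Ch.id hX).cm (Ch.id hX).cm, h2, mul_smul_cen hw, hX.pp, Matrix.smul_mul, hX.pp]

theorem Nul.he_zero (h : Nul H 1 X) : HE H X (Cx.zero A Λ) := by
  obtain ⟨s, h1, h2⟩ := h
  exact ⟨0, 0, s, 0, Ch.zero _ _, Ch.zero _ _, h1, Hm.zero _ _, by simpa using h2, by simp⟩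

theorem HE.nul_of_zero (h : HE H X (Cx.zero A Λ)) : Nul H 1 X := by
  obtain ⟨f, g, a, b, c⟩ := h
  refine ⟨a, c.hh, ?_⟩
  have e : g * f = 0 := by
    ext i j
    simp [Matrix.mul_apply]
  have := c.gf
  rwa [e, zero_add, ← one_smul A X.p] at this

theorem HE.sh (h : HE H X Y) (n : ℤ) : HE H (X.sh n) (Y.sh n) := by
  obtain ⟨f, g, a, b, c⟩ := h
  exact ⟨f, g, -a, -b, a2_sh c.hf n, a2_sh c.hg n, c.hh.neg.shift n n (by omega),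
    c.hk.neg.shift n n (by omega), by simpa using c.gf, by simpa using c.fg⟩

theorem HE.sum_left (h : HE H X Y) (hZ : Ok H Z) : HE H (X.sum Z) (Y.sum Z) :=
  a2_sum h (HE.refl hZ)

theorem HE.sum_right (h : HE H X Y) (hZ : Ok H Z) : HE H (Z.sum X) (Z.sum Y) :=
  a2_sum (HE.refl hZ) h

theorem HE.sum (h : HE H X Y) (h' : HE H X' Y') : HE H (X.sum X') (Y.sum Y') := a2_sum h h'

end Pool.Agent.MP_f7db47_al.KN
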