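import Pool.Agent.MP_f7db47_al.KN.A2

/-!
Extensions: two out of three.
-/

namespace Pool.Agent.MP_f7db47_al.KN

open Matrix

universe v w

variable {A : Type v} [Ring A] {Λ ι : Type} {H H' I I' : Fam A Λ} {S : ι → Submonoid A}
  {K K' : Finset ι} {W : Set ℤ} {X X' Y Y' Z : Cx A Λ} {w w' : A}

variable {t : Matrix X.J Y.J A}

theorem a4_neg (ht : Tw H X Y t) : X.D * t = -(t * Y.D) := eq_neg_of_add_eq_zero_left ht.cm

theorem Nul.ext (hH : LR H) (hw : Sc H w) (hw' : Sc H w') (ht : Tw H X Y t) (h : Nul H w X)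
    (h' : Nul H w' Y) : Nul H (w * w') (X.ext Y t) := by
  obtain ⟨a, a1, a2⟩ := h
  obtain ⟨b, b1, b2⟩ := h'
  refine ⟨fromBlocks (w' • a) (-(a * t * b)) 0 (w • b), Hm.blocks (a1.smul hw')
    (((a1.mul hH ht.hm (e := 0) (by omega)).mul hH b1 (by omega)).neg) (Hm.zero _ _)
    (b1.smul hw), ?_⟩
  have e1 : X.D * a = w • X.p - a * X.D := eq_sub_of_add_eq a2
  have e2 : b * Y.D = w' • Y.p - Y.D * b := eq_sub_of_add_eq' b2
  have e3 : X.D * (a * t * b) = w • (t * b) + a * t * Y.D * b := by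
    rw [← Matrix.mul_assoc, ← Matrix.mul_assoc, e1, Matrix.sub_mul, Matrix.sub_mul,
      Matrix.smul_mul, Matrix.smul_mul, ht.pl, Matrix.mul_assoc a X.D t, a4_neg ht]
    simp [Matrix.mul_assoc]
  have e4 : a * t * b * Y.D = w' • (a * t) - a * t * Y.D * b := by
    rw [Matrix.mul_assoc (a * t) b, e2, Matrix.mul_sub, mul_smul_cen hw'.1,
      Matrix.mul_assoc a t Y.p, ht.pr]
    simp [Matrix.mul_assoc]
  simp only [fromBlocks_multiply, fromBlocks_add, fromBlocks_smul, fromBlocks_inj]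
  refine ⟨?_, ?_, by simp, ?_⟩
  · rw [mul_smul_cen hw'.1, Matrix.smul_mul, Matrix.mul_zero, Matrix.mul_zero, add_zero, add_zero,
      ← smul_add, a2, smul_smul, hw.1]
  · rw [Matrix.mul_neg, Matrix.neg_mul, e3, e4, mul_smul_cen hw.1, Matrix.smul_mul, smul_zero]
    abel
  · rw [mul_smul_cen hw.1, Matrix.smul_mul, Matrix.zero_mul, Matrix.zero_mul, zero_add, zero_add,
      ← smul_add, b2, smul_smul]

theorem a4_blocks (h : Nul H w (X.ext Y t)) :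
    ∃ (a : Matrix X.J X.J A) (c : Matrix Y.J X.J A) (d : Matrix Y.J Y.J A),
      Hm H 1 X.t X.t a ∧ Hm H 1 Y.t X.t c ∧ Hm H 1 Y.t Y.t d ∧
      X.D * a + a * X.D = w • X.p - t * c ∧ c * X.D = -(Y.D * c) ∧
      Y.D * d + d * Y.D = w • Y.p - c * t := by
  obtain ⟨M, m1, m2⟩ := h
  refine ⟨M.toBlocks₁₁, M.toBlocks₂₁, M.toBlocks₂₂, m1.b11, m1.b21, m1.b22, ?_⟩
  rw [← fromBlocks_toBlocks M] at m2
  simp only [fromBlocks_multiply, fromBlocks_add, fromBlocks_smul, fromBlocks_inj,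
    Matrix.zero_mul, Matrix.mul_zero, add_zero, zero_add, smul_zero] at m2
  obtain ⟨e1, -, e3, e4⟩ := m2
  refine ⟨?_, eq_neg_of_add_eq_zero_right e3, ?_⟩
  · rw [← e1]; abel
  · rw [← e4]; abel

theorem Nul.left (hH : LR H) (hw' : Sc H w') (ht : Tw H X Y t) (h : Nul H w (X.ext Y t))
    (h' : Nul H w' Y) : Nul H (w' * w) X := by
  obtain ⟨a, c, d, a1, c1, -, e1, e2, -⟩ := a4_blocks h
  obtain ⟨s, s1, s2⟩ := h'
  refine ⟨w' • a - t * s * c, (a1.smul hw').sub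
    ((ht.hm.mul hH s1 (e := 0) (by omega)).mul hH c1 (by omega)), ?_⟩
  have e3 : X.D * (t * s * c) = -(t * (Y.D * s) * c) := by
    rw [← Matrix.mul_assoc, ← Matrix.mul_assoc, a4_neg ht]
    simp [Matrix.mul_assoc]
  have e4 : t * s * c * X.D = -(t * (s * Y.D) * c) := by
    rw [Matrix.mul_assoc _ c, e2]
    simp [Matrix.mul_assoc]
  have e5 : t * (Y.D * s) * c + t * (s * Y.D) * c = w' • (t * c) := by
    rw [← Matrix.add_mul, ← Matrix.mul_add, s2, mul_smul_cen hw'.1, ht.pr, Matrix.smul_mul]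
  have e6 : w' • (X.D * a) + w' • (a * X.D) = (w' * w) • X.p - w' • (t * c) := by
    rw [← smul_add, e1, smul_sub, smul_smul]
  rw [Matrix.mul_sub, Matrix.sub_mul, mul_smul_cen hw'.1, Matrix.smul_mul, e3, e4,
    eq_sub_iff_add_eq.mp e6 |>.symm, ← e5]
  abel

theorem Nul.right (hH : LR H) (hw' : Sc H w') (ht : Tw H X Y t) (h : Nul H w (X.ext Y t))
    (h' : Nul H w' X) : Nul H (w' * w) Y := by
  obtain ⟨a, c, d, -, c1, d1, -, e2, e1⟩ := a4_blocks h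
  obtain ⟨s, s1, s2⟩ := h'
  refine ⟨w' • d - c * s * t, (d1.smul hw').sub
    ((c1.mul hH s1 (e := 2) (by omega)).mul hH ht.hm (by omega)), ?_⟩
  have e2' : Y.D * c = -(c * X.D) := by rw [e2, neg_neg]
  have e0 : t * Y.D = -(X.D * t) := by rw [a4_neg ht, neg_neg]
  have e3 : Y.D * (c * s * t) = -(c * (X.D * s) * t) := by
    rw [← Matrix.mul_assoc, ← Matrix.mul_assoc, e2']
    simp [Matrix.mul_assoc]
  have e4 : c * s * t * Y.D = -(c * (s * X.D) * t) := by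
    rw [Matrix.mul_assoc _ t, e0]
    simp [Matrix.mul_assoc]
  have e5 : c * (X.D * s) * t + c * (s * X.D) * t = w' • (c * t) := by
    rw [← Matrix.add_mul, ← Matrix.mul_add, s2, mul_smul_cen hw'.1, Matrix.smul_mul,
      Matrix.mul_assoc, ht.pl]
  have e6 : w' • (Y.D * d) + w' • (d * Y.D) = (w' * w) • Y.p - w' • (c * t) := by
    rw [← smul_add, e1, smul_sub, smul_smul]
  rw [Matrix.mul_sub, Matrix.sub_mul, mul_smul_cen hw'.1, Matrix.smul_mul, e3, e4,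
    eq_sub_iff_add_eq.mp e6 |>.symm, ← e5]
  abel

theorem Obj.ext (hH : Good H S) (ht : Tw H X Y t) (h : Obj H S K X) (h' : Obj H S K Y) :
    Obj H S K (X.ext Y t) := by
  refine ⟨h.ok.ext h'.ok ht, fun a ha => ?_⟩
  obtain ⟨u, hu, e⟩ := h.tor a ha
  obtain ⟨u', hu', e'⟩ := h'.tor a ha
  exact ⟨u * u', mul_mem hu hu', Nul.ext hH.mul (hH.sc hu) (hH.sc hu') ht e e'⟩

theorem Obj.sum (hH : Good H S) (h : Obj H S K X) (h' : Obj H S K Y) : Obj H S K (X.sum Y) :=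
  Obj.ext hH (Tw.zero _ _) h h'

theorem Obj.left (hH : Good H S) (ht : Tw H X Y t) (hX : Ok H X) (h : Obj H S K (X.ext Y t))
    (h' : Obj H S K Y) : Obj H S K X := by
  refine ⟨hX, fun a ha => ?_⟩
  obtain ⟨u, hu, e⟩ := h.tor a ha
  obtain ⟨u', hu', e'⟩ := h'.tor a ha
  exact ⟨u' * u, mul_mem hu' hu, Nul.left hH.mul (hH.sc hu') ht e e'⟩

theorem Obj.right (hH : Good H S) (ht : Tw H X Y t) (hY : Ok H Y) (h : Obj H S K (X.ext Y t))
    (h' : Obj H S K X) : Obj H S K Y := by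
  refine ⟨hY, fun a ha => ?_⟩
  obtain ⟨u, hu, e⟩ := h.tor a ha
  obtain ⟨u', hu', e'⟩ := h'.tor a ha
  exact ⟨u' * u, mul_mem hu' hu, Nul.right hH.mul (hH.sc hu') ht e e'⟩

theorem he_ext_left (hH : LR H) (hX : Ok H X) (hY : Ok H Y) (ht : Tw H X Y t) (h : Nul H 1 Y) :
    HE H (X.ext Y t) X := by
  obtain ⟨s, s1, s2⟩ := Nul.sand hH hY (fun x => by simp) h
  rw [one_smul] at s2
  have e1 : X.p * (t * s) = t * s := by rw [← Matrix.mul_assoc, ht.pl]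
  have e2 : t * s * Y.p = t * s := by rw [Matrix.mul_assoc, s1.pr]
  have e3 : -(X.D * (t * s)) = t + -(t * s * Y.D) := by
    rw [← Matrix.mul_assoc, a4_neg ht, Matrix.neg_mul, neg_neg, Matrix.mul_assoc,
      eq_sub_of_add_eq s2, Matrix.mul_sub, ht.pr, Matrix.mul_assoc, sub_eq_add_neg]
  refine ⟨fromCols X.p (-(t * s)), fromRows X.p 0, fromBlocks 0 0 0 s, 0,
    ⟨⟨Hm.cols hX.hp (ht.hm.mul hH s1.hm (by omega)).neg, ?_, ?_⟩, ?_⟩,
    ⟨⟨Hm.rows hX.hp (Hm.zero _ _), ?_, ?_⟩, ?_⟩,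
    Hm.blocks (Hm.zero _ _) (Hm.zero _ _) (Hm.zero _ _) s1.hm, Hm.zero _ _, ?_, ?_⟩
  · simp [mul_fromCols, hX.pp, e1]
  · simp [fromCols_mul_fromBlocks, hX.pp, e2]
  · simp [mul_fromCols, fromCols_mul_fromBlocks, hX.pD, hX.Dp, ht.pl, e3]
  · simp [fromBlocks_mul_fromRows, hX.pp]
  · simp [fromRows_mul, hX.pp]
  · simp [fromBlocks_mul_fromRows, fromRows_mul, hX.pD, hX.Dp]
  · rw [fromRows_mul_fromCols]
    simp [fromBlocks_multiply, fromBlocks_add, hX.pp, e1, s2]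
  · simp [fromCols_mul_fromRows, hX.pp]

theorem he_ext_right (hH : LR H) (hX : Ok H X) (hY : Ok H Y) (ht : Tw H X Y t) (h : Nul H 1 X) :
    HE H (X.ext Y t) Y := by
  obtain ⟨s, s1, s2⟩ := Nul.sand hH hX (fun x => by simp) h
  rw [one_smul] at s2
  have e0 : t * Y.D = -(X.D * t) := by rw [a4_neg ht, neg_neg]
  have e1 : X.p * (s * t) = s * t := by rw [← Matrix.mul_assoc, s1.pl]
  have e2 : s * t * Y.p = s * t := by rw [Matrix.mul_assoc, ht.pr]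
  have e3 : -(X.D * (s * t)) + t = -(s * t * Y.D) := by
    rw [Matrix.mul_assoc s, e0, Matrix.mul_neg, neg_neg, ← Matrix.mul_assoc s,
      eq_sub_of_add_eq' s2, Matrix.sub_mul, ht.pl, Matrix.mul_assoc, neg_add_eq_sub]
  refine ⟨fromCols 0 Y.p, fromRows (-(s * t)) Y.p, fromBlocks s 0 0 0, 0,
    ⟨⟨Hm.cols (Hm.zero _ _) hY.hp, ?_, ?_⟩, ?_⟩,
    ⟨⟨Hm.rows (s1.hm.mul hH ht.hm (by omega)).neg hY.hp, ?_, ?_⟩, ?_⟩,
    Hm.blocks s1.hm (Hm.zero _ _) (Hm.zero _ _) (Hm.zero _ _), Hm.zero _ _, ?_, ?_⟩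
  · simp [mul_fromCols, hY.pp]
  · simp [fromCols_mul_fromBlocks, hY.pp]
  · simp [mul_fromCols, fromCols_mul_fromBlocks, hY.pD, hY.Dp]
  · simp [fromBlocks_mul_fromRows, hY.pp, e1]
  · simp [fromRows_mul, hY.pp, e2]
  · simp [fromBlocks_mul_fromRows, fromRows_mul, hY.pD, hY.Dp, ht.pr, e3]
  · rw [fromRows_mul_fromCols]
    simp [fromBlocks_multiply, fromBlocks_add, hY.pp, e2, s2]
  · simp [fromCols_mul_fromRows, hY.pp]

end Pool.Agent.MP_f7db47_al.KN
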