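import Pool.Agent.MP_f7db47_al.KN.A2

/-!
Extensions and homotopy equivalences.
-/

namespace Pool.Agent.MP_f7db47_al.KN

open Matrix

universe v w

variable {A : Type v} [Ring A] {Λ ι : Type} {H H' I I' : Fam A Λ} {S : ι → Submonoid A}
  {K K' : Finset ι} {W : Set ℤ} {X X' Y Y' Z : Cx A Λ} {w w' : A}

/-- Triangular chain maps between extensions. -/
theorem a5_tri {a : Matrix X'.J X.J A} {b : Matrix Y'.J Y.J A} {u : Matrix X'.J Y.J A}
    {t : Matrix X.J Y.J A} {t' : Matrix X'.J Y'.J A} (ha : Ch H X' X a) (hb : Ch H Y' Y b)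
    (hu : Mp H 0 X' Y u) (e : X'.D * u + t' * b = a * t + u * Y.D) :
    Ch H (X'.ext Y' t') (X.ext Y t) (fromBlocks a u 0 b) :=
  ⟨⟨Hm.blocks ha.hm hu.hm (Hm.zero _ _) hb.hm,
    by simp [fromBlocks_multiply, ha.pl, hb.pl, hu.pl],
    by simp [fromBlocks_multiply, ha.pr, hb.pr, hu.pr]⟩,
    by simp [fromBlocks_multiply, ha.cm, hb.cm, e]⟩

theorem a5_add {d : ℤ} {a b : Matrix Y.J X.J A} (ha : Mp H d Y X a) (hb : Mp H d Y X b) :
    Mp H d Y X (a + b) :=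
  ⟨ha.hm.add hb.hm, by rw [Matrix.mul_add, ha.pl, hb.pl], by rw [Matrix.add_mul, ha.pr, hb.pr]⟩

theorem a5_neg {d : ℤ} {a : Matrix Y.J X.J A} (ha : Mp H d Y X a) : Mp H d Y X (-a) :=
  ⟨ha.hm.neg, by rw [Matrix.mul_neg, ha.pl], by rw [Matrix.neg_mul, ha.pr]⟩

theorem a5_sub {d : ℤ} {a b : Matrix Y.J X.J A} (ha : Mp H d Y X a) (hb : Mp H d Y X b) :
    Mp H d Y X (a - b) := sub_eq_add_neg a b ▸ a5_add ha (a5_neg hb)

theorem a5_half (hH : LR H) (hX : Ok H X) {c h : Matrix X.J X.J A} (hh : Hm H 1 X.t X.t h)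
    (hc : X.p * c * X.p = c) (e : c + (X.D * h + h * X.D) = X.p) :
    Mp H 1 X X (X.p * h * X.p) ∧
      c + (X.D * (X.p * h * X.p) + X.p * h * X.p * X.D) = X.p := by
  refine ⟨⟨Hm.mul hH (Hm.mul hH hX.hp hh rfl) hX.hp (by omega), ?_, ?_⟩, ?_⟩
  · rw [← Matrix.mul_assoc, ← Matrix.mul_assoc, hX.pp]
  · rw [Matrix.mul_assoc, hX.pp]
  · have e1 := congrArg (fun M => X.p * M * X.p) e
    simp only [mul_add, add_mul, hc, hX.pp] at e1
    rw [← mul_assoc, hX.pD, mul_assoc X.p, mul_assoc h, hX.Dp] at e1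
    rw [← mul_assoc, ← mul_assoc, hX.Dp, mul_assoc _ X.p X.D, hX.pD, mul_assoc X.p]
    exact e1

/-- The homotopies can be chosen compatible with the idempotents. -/
theorem a5_sand (hH : LR H) (hX : Ok H X) (hY : Ok H Y) {f : Matrix Y.J X.J A}
    {g : Matrix X.J Y.J A} {h : Matrix X.J X.J A} {k : Matrix Y.J Y.J A}
    (e : HEd H X Y f g h k) :
    ∃ h' k', HEd H X Y f g h' k' ∧ Mp H 1 X X h' ∧ Mp H 1 Y Y k' := by
  have h1 := a5_half hH hX e.hh
    (by rw [← Matrix.mul_assoc, e.hg.pl, Matrix.mul_assoc, e.hf.pr]) e.gf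
  have h2 := a5_half hH hY e.hk
    (by rw [← Matrix.mul_assoc, e.hf.pl, Matrix.mul_assoc, e.hg.pr]) e.fg
  exact ⟨_, _, ⟨e.hf, e.hg, h1.1.hm, h2.1.hm, h1.2, h2.2⟩, h1.1, h2.1⟩

/-- The difference of the two homotopies is a cycle. -/
theorem a5_cyc {f : Matrix Y.J X.J A} {g : Matrix X.J Y.J A} {h : Matrix X.J X.J A}
    {k : Matrix Y.J Y.J A} (e : HEd H X Y f g h k) :
    Y.D * (f * h - k * f) = -((f * h - k * f) * X.D) := by
  have h1 : f * (X.D * h + h * X.D) = f - f * (g * f) := by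
    rw [eq_sub_iff_add_eq', ← Matrix.mul_add, e.gf, e.hf.pr]
  have h2 : (Y.D * k + k * Y.D) * f = f - f * (g * f) := by
    rw [eq_sub_iff_add_eq', ← Matrix.mul_assoc, ← Matrix.add_mul, e.fg, e.hf.pl]
  have h3 := h1.trans h2.symm
  have h4 : f * (X.D * h) = Y.D * (f * h) := by
    rw [← Matrix.mul_assoc, ← e.hf.cm, Matrix.mul_assoc]
  rw [eq_neg_iff_add_eq_zero]
  simp only [Matrix.mul_sub, Matrix.sub_mul, Matrix.mul_add, Matrix.add_mul, Matrix.mul_assoc,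
    e.hf.cm, h4] at h3 ⊢
  rw [sub_add_sub_comm, h3, sub_self]

variable {t : Matrix X.J Y.J A}

theorem ext_congr_left (hH : LR H) (hX : Ok H X) (hX' : Ok H X') (hY : Ok H Y)
    {f : Matrix X'.J X.J A} {g : Matrix X.J X'.J A}
    {h : Matrix X.J X.J A} {k : Matrix X'.J X'.J A} (e : HEd H X X' f g h k) (ht : Tw H X Y t) :
    HE H (X.ext Y t) (X'.ext Y (f * t)) := by
  obtain ⟨h, k, e, hh, hk⟩ := a5_sand hH hX hX' e
  have d1 : t * Y.D = -(X.D * t) := eq_neg_of_add_eq_zero_right ht.cm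
  have m1 : Mp H 0 X Y (-(h * t)) := a5_neg (Mp.comp hH hh ht.toMp (by omega))
  have q1 : X.D * (-(h * t)) + t * Y.p = g * (f * t) + -(h * t) * Y.D := by
    have := congrArg (· * t) e.gf
    simp only [Matrix.add_mul, Matrix.mul_assoc, ht.pl] at this
    rw [ht.pr, Matrix.neg_mul, Matrix.mul_assoc, d1, Matrix.mul_neg, Matrix.mul_neg, neg_neg,
      neg_add_eq_iff_eq_add, add_left_comm, this]
  obtain ⟨c, hc, m2, d2⟩ : ∃ c, c = (f * h - k * f) * t ∧ Mp H 0 X' Y c ∧ X'.D * c = c * Y.D :=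
    ⟨_, rfl, Mp.comp hH (a5_sub (Mp.comp hH e.hf.toMp hh rfl) (Mp.comp hH hk e.hf.toMp (by omega)))
      ht.toMp (by omega), by
        rw [← Matrix.mul_assoc, a5_cyc e, Matrix.mul_assoc _ t, d1, Matrix.mul_neg,
          Matrix.neg_mul, Matrix.mul_assoc]⟩
  have F := a5_tri (t := t) (t' := f * t) e.hf (Ch.id hY) (Mp.zero 0 _ _)
    (by simp [Matrix.mul_assoc, ht.pr])
  have G := a5_tri e.hg (Ch.id hY) m1 q1
  have G' := a5_tri (t := f * t) (t' := t) e.hg (Ch.id hY)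
    (a5_add m1 (Mp.comp hH e.hg.toMp m2 (by omega))) (by
      rw [Matrix.mul_add, Matrix.add_mul, add_right_comm, q1, ← Matrix.mul_assoc X.D, e.hg.cm,
        Matrix.mul_assoc g X'.D, d2, Matrix.mul_assoc g c, add_assoc])
  obtain ⟨k', r⟩ := HE.of_lr hH (h := fromBlocks h 0 0 0) (k := fromBlocks k (k * c) 0 0) F G G'
    (Hm.blocks hh.hm (Hm.zero _ _) (Hm.zero _ _) (Hm.zero _ _))
    (Hm.blocks hk.hm (Hm.mul hH hk.hm m2.hm (by omega)) (Hm.zero _ _) (Hm.zero _ _))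
    (by simp [fromBlocks_multiply, fromBlocks_add, e.gf, hY.pp, Matrix.mul_assoc, ht.pr])
    (by
      have h1 := congrArg (· * c) e.fg
      simp only [Matrix.add_mul, Matrix.mul_assoc, m2.pl, d2] at h1
      have h2 : f * (h * t) = c + k * (f * t) := by
        rw [hc, Matrix.sub_mul, Matrix.mul_assoc, Matrix.mul_assoc, sub_add_cancel]
      simp only [fromBlocks_multiply, fromBlocks_add, Matrix.mul_zero, Matrix.zero_mul, add_zero,
        zero_add, neg_zero, e.fg, hY.pp, Matrix.mul_add, Matrix.mul_neg, Matrix.mul_assoc, h2]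
      congr 1
      refine Eq.trans ?_ (sub_eq_zero.2 h1)
      abel)
  exact ⟨_, _, _, _, r⟩

theorem ext_congr_right (hH : LR H) (hX : Ok H X) (hY : Ok H Y) (hY' : Ok H Y')
    {f : Matrix Y'.J Y.J A} {g : Matrix Y.J Y'.J A}
    {h : Matrix Y.J Y.J A} {k : Matrix Y'.J Y'.J A} (e : HEd H Y Y' f g h k) (ht : Tw H X Y t) :
    HE H (X.ext Y t) (X.ext Y' (t * g)) := by
  obtain ⟨h, k, e, hh, hk⟩ := a5_sand hH hY hY' e
  have e' : HEd H Y' Y g f k h := ⟨e.hg, e.hf, e.hk, e.hh, e.fg, e.gf⟩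
  have d1 : X.D * t = -(t * Y.D) := eq_neg_of_add_eq_zero_left ht.cm
  have m1 : Mp H 0 X Y (-(t * h)) := a5_neg (Mp.comp hH ht.toMp hh (by omega))
  have q1 : X.D * (-(t * h)) + t * g * f = X.p * t + -(t * h) * Y.D := by
    have := congrArg (t * ·) e.gf
    simp only [Matrix.mul_add, ht.pr] at this
    rw [ht.pl, Matrix.mul_neg, ← Matrix.mul_assoc, d1, Matrix.neg_mul, Matrix.neg_mul, neg_neg,
      Matrix.mul_assoc, Matrix.mul_assoc, Matrix.mul_assoc, eq_add_neg_iff_add_eq, add_comm (t * _),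
      add_assoc, this]
  obtain ⟨c, hc, m2, d2⟩ : ∃ c, c = -(t * (g * k - h * g)) ∧ Mp H 0 X Y' c ∧
      X.D * c = c * Y'.D :=
    ⟨_, rfl, a5_neg (Mp.comp hH ht.toMp
      (a5_sub (Mp.comp hH e.hg.toMp hk rfl) (Mp.comp hH hh e.hg.toMp (by omega))) (by omega)), by
        rw [Matrix.mul_neg, ← Matrix.mul_assoc, d1, Matrix.neg_mul, Matrix.mul_assoc, a5_cyc e',
          Matrix.mul_neg, neg_neg, Matrix.neg_mul, Matrix.mul_assoc]⟩
  have G := a5_tri (t := t * g) (t' := t) (Ch.id hX) e.hg (Mp.zero 0 _ _)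
    (by simp [← Matrix.mul_assoc, ht.pl])
  have F := a5_tri (Ch.id hX) e.hf m1 q1
  have F' := a5_tri (t := t) (t' := t * g) (Ch.id hX) e.hf
    (a5_add m1 (Mp.comp hH m2 e.hf.toMp (by omega))) (by
      rw [Matrix.mul_add, Matrix.add_mul, add_right_comm, q1, ← Matrix.mul_assoc X.D, d2,
        Matrix.mul_assoc c Y'.D, e.hf.cm, Matrix.mul_assoc c f, add_assoc])
  obtain ⟨k', r⟩ := HE.of_lr hH (h := fromBlocks 0 (c * k) 0 k) (k := fromBlocks 0 0 0 h) G F' F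
    (Hm.blocks (Hm.zero _ _) (Hm.mul hH m2.hm hk.hm (by omega)) (Hm.zero _ _) hk.hm)
    (Hm.blocks (Hm.zero _ _) (Hm.zero _ _) (Hm.zero _ _) hh.hm)
    (by
      have h1 := congrArg (c * ·) e.fg
      simp only [Matrix.mul_add, m2.pr] at h1
      have h2 : t * (h * g) = c + t * (g * k) := by
        rw [hc, Matrix.mul_sub, neg_sub, sub_add_cancel]
      have h3 : X.D * (c * k) = c * (Y'.D * k) := by rw [← Matrix.mul_assoc, d2, Matrix.mul_assoc]
      simp only [fromBlocks_multiply, fromBlocks_add, Matrix.mul_zero, Matrix.zero_mul, add_zero,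
        zero_add, e.fg, hX.pp, Matrix.add_mul, Matrix.neg_mul, Matrix.mul_assoc, h2, h3]
      congr 1
      refine Eq.trans ?_ (sub_eq_zero.2 h1)
      abel)
    (by simp [fromBlocks_multiply, fromBlocks_add, e.gf, hX.pp, ← Matrix.mul_assoc, ht.pl])
  exact HE.symm ⟨_, _, _, _, r⟩

theorem ext_congr (hH : LR H) (hX : Ok H X) (hX' : Ok H X') (hY : Ok H Y) (hY' : Ok H Y')
    (e : HE H X X') (e' : HE H Y Y') (ht : Tw H X Y t) :
    ∃ t', Tw H X' Y' t' ∧ HE H (X.ext Y t) (X'.ext Y' t') := by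
  obtain ⟨f, g, h, k, e⟩ := e
  obtain ⟨f', g', h', k', e'⟩ := e'
  have h1 := Tw.comp_left hH e.hf ht
  exact ⟨_, Tw.comp_right hH h1 e'.hg, (ext_congr_left hH hX hX' hY e ht).trans hH
    (ext_congr_right hH hX' hY hY' e' h1)⟩

/-- Homotopic twisting maps give isomorphic extensions. -/
theorem ext_htpy (hH : LR H) (hX : Ok H X) (hY : Ok H Y) {s : Matrix X.J Y.J A}
    (hs : Mp H 0 X Y s) (ht : Tw H X Y t) :
    Tw H X Y (t + (X.D * s - s * Y.D)) ∧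
      HE H (X.ext Y t) (X.ext Y (t + (X.D * s - s * Y.D))) := by
  have m : Mp H (-1) X Y (t + (X.D * s - s * Y.D)) := a5_add ht.toMp (a5_sub
    (Mp.comp hH ⟨hX.hD, hX.pD, hX.Dp⟩ hs (by omega))
    (Mp.comp hH hs ⟨hY.hD, hY.pD, hY.Dp⟩ (by omega)))
  refine ⟨⟨m, ?_⟩, HE.of_iso (a5_tri (Ch.id hX) (Ch.id hY) (a5_neg hs) ?_)
    (a5_tri (Ch.id hX) (Ch.id hY) hs ?_) ?_ ?_⟩
  · rw [Matrix.mul_add, Matrix.add_mul, add_add_add_comm, ht.cm, Matrix.mul_sub, Matrix.sub_mul,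
      ← Matrix.mul_assoc, hX.DD, Matrix.mul_assoc s, hY.DD, Matrix.mul_assoc]
    simp
  · rw [m.pr, ht.pl, Matrix.mul_neg, Matrix.neg_mul]
    abel
  · rw [m.pl, ht.pr]
    abel
  · simp [fromBlocks_multiply, hX.pp, hY.pp, hs.pl, hs.pr]
  · simp [fromBlocks_multiply, hX.pp, hY.pp, hs.pl, hs.pr]

end Pool.Agent.MP_f7db47_al.KN
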