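import Pool.Agent.MP_f7db47_al.KN.A3
import Pool.Agent.MP_f7db47_al.KN.A4
import Pool.Agent.MP_f7db47_al.KN.A5

/-!
Mapping cones.
-/

namespace Pool.Agent.MP_f7db47_al.KN

open Matrix

universe v w

variable {A : Type v} [Ring A] {Λ ι : Type} {H H' I I' : Fam A Λ} {S : ι → Submonoid A}
  {K K' : Finset ι} {W : Set ℤ} {X X' Y Y' Z : Cx A Λ} {w w' : A}

variable {f : Matrix Y.J X.J A}

theorem a6_cols_add {I J J' : Type} (a a' : Matrix I J A) (b b' : Matrix I J' A) :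
    fromCols a b + fromCols a' b' = fromCols (a + a') (b + b') := by
  ext i (j | j) <;> rfl

theorem a6_rows_add {I I' J : Type} (a a' : Matrix I J A) (b b' : Matrix I' J A) :
    fromRows a b + fromRows a' b' = fromRows (a + a') (b + b') := by
  ext (i | i) j <;> rfl

theorem a6_smul (hX : Ok H X) (hw : ∀ x, w * x = x * w) : Nul H w (X.cone X (w • X.p)) :=
  ⟨fromBlocks 0 0 X.p 0, Hm.blocks (Hm.zero _ _) (Hm.zero _ _) (hX.hp.shift_left 1 (by omega))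
    (Hm.zero _ _), by
    simp [fromBlocks_multiply, fromBlocks_add, fromBlocks_smul, mul_smul_cen hw, hX.pp, hX.pD,
      hX.Dp]⟩

theorem a6_id (hX : Ok H X) : Nul H 1 (X.cone X X.p) := by
  simpa only [one_smul] using a6_smul (w := 1) hX fun x => by simp

theorem a6_blocks (hH : LR H) (hX : Ok H X) (hY : Ok H Y) {t : Matrix X.J Y.J A}
    (ht : Tw H X Y t) (h : Nul H 1 (X.ext Y t)) :
    ∃ a c d, Hm H 1 X.t X.t a ∧ Mp H 1 Y X c ∧ Hm H 1 Y.t Y.t d ∧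
      t * c + (X.D * a + a * X.D) = X.p ∧ Y.D * c + c * X.D = 0 ∧
      c * t + (Y.D * d + d * Y.D) = Y.p := by
  obtain ⟨s, ⟨h1, h2, h3⟩, h4⟩ := h.sand hH (hX.ext hY ht) fun x => by simp
  rw [← fromBlocks_toBlocks s] at h2 h3 h4
  simp only [fromBlocks_multiply, fromBlocks_add, fromBlocks_inj, one_smul, Matrix.zero_mul,
    Matrix.mul_zero, add_zero, zero_add] at h2 h3 h4
  refine ⟨_, _, _, h1.b11, ⟨h1.b21, h2.2.2.1, h3.2.2.1⟩, h1.b22, ?_, h4.2.2.1, ?_⟩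
  · rw [← h4.1]
    abel
  · rw [← h4.2.2.2]
    abel

theorem cone_nul (hH : LR H) (hX : Ok H X) (hY : Ok H Y) {g : Matrix X.J Y.J A}
    {h : Matrix X.J X.J A} {k : Matrix Y.J Y.J A} (e : HEd H X Y f g h k) :
    Nul H 1 (Y.cone X f) := by
  have h1 := ext_congr_left hH hX hY (hX.sh 1) e (Ch.id hX).tw
  rw [e.hf.pr] at h1
  exact (a6_id hX).he hH Sc.one h1

theorem he_of_cone (hH : LR H) (hX : Ok H X) (hY : Ok H Y) (hf : Ch H Y X f)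
    (h : Nul H 1 (Y.cone X f)) : ∃ g h k, HEd H X Y f g h k := by
  obtain ⟨a, c, d, h1, h2, h3, h4, h5, h6⟩ := a6_blocks hH hY (hX.sh 1) hf.tw h
  refine ⟨c, -d, a, hf, ⟨⟨fun i j => ⟨(h2.hm i j).1, fun e => ?_⟩, h2.pl, h2.pr⟩, ?_⟩,
    h3.neg.unshift (by omega), h1, by simpa using h6, h4⟩
  · have := (h2.hm i j).2 e
    simp only at this
    omega
  · simpa [neg_add_eq_zero] using h5

theorem cone_smul (hX : Ok H X) (hw : Sc H w) : Nul H w (X.cone X (w • X.p)) :=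
  a6_smul hX hw.1

theorem cone_rot (hX : Ok H X) (hY : Ok H Y) (hf : Ch H Y X f) :
    Tw H X (Y.cone X f) (fromCols 0 X.p) ∧ HE H (X.ext (Y.cone X f) (fromCols 0 X.p)) Y := by
  refine ⟨⟨⟨Hm.cols (Hm.zero _ _) (hX.hp.shift_right 1 (by omega)), ?_, ?_⟩, ?_⟩,
    fromCols (-f) (fromCols Y.p 0), fromRows 0 (fromRows Y.p 0),
    fromBlocks 0 0 (fromRows 0 X.p) 0, 0,
    ⟨⟨Hm.cols hf.hm.neg (Hm.cols hY.hp (Hm.zero _ _)), ?_, ?_⟩, ?_⟩,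
    ⟨⟨Hm.rows (Hm.zero _ _) (Hm.rows hY.hp (Hm.zero _ _)), ?_, ?_⟩, ?_⟩,
    Hm.blocks (Hm.zero _ _) (Hm.zero _ _)
      (Hm.rows (Hm.zero _ _) (hX.hp.shift_left 1 (by omega))) (Hm.zero _ _), Hm.zero _ _, ?_, ?_⟩
  all_goals
    simp [fromBlocks_multiply, fromBlocks_add, mul_fromCols, fromRows_mul,
      fromCols_mul_fromRows, fromCols_mul_fromBlocks, fromBlocks_mul_fromRows, a6_cols_add,
      a6_rows_add, hX.pp, hX.pD, hX.Dp, hY.pp, hY.pD, hY.Dp, hf.pl, hf.pr, hf.cm]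
  ext (i | i | i) (j | j | j) <;> simp

theorem cone_sum (hH : LR H) (hX : Ok H X) (hY : Ok H Y) (hZ : Ok H Z) (e : HE H Z (X.sum Y)) :
    ∃ g, Ch H Z Y g ∧ HE H (Z.cone Y g) X := by
  obtain ⟨g, f, h, k, e⟩ := e.symm
  have hi : Ch H (X.sum Y) Y (fromRows 0 Y.p) := by
    refine ⟨⟨Hm.rows (Hm.zero _ _) hY.hp, ?_, ?_⟩, ?_⟩ <;>
      simp [fromRows_mul, fromBlocks_mul_fromRows, hY.pp, hY.pD, hY.Dp]
  refine ⟨_, e.hf.comp hH hi,
    (ext_congr_left hH (hX.sum hY) hZ (hY.sh 1) e hi.tw).symm.trans hH ?_⟩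
  exact (sub_ext_assoc (Z := Y.sh 1) 0 0 Y.p).1.he_left.2 (he_ext_left hH hX (hY.cone hY (Ch.id hY))
    (tw_rows (Tw.zero X Y) hi.tw).2 (a6_id hY))

/-- If an extension is contractible, then the quotient is the shift of the subcomplex. -/
theorem he_of_ext_nul (hH : LR H) (hX : Ok H X) (hY : Ok H Y) {t : Matrix X.J Y.J A}
    (ht : Tw H X Y t) (h : Nul H 1 (X.ext Y t)) : HE H (X.sh 1) Y := by
  obtain ⟨a, c, d, h1, h2, h3, h4, h5, h6⟩ := a6_blocks hH hX hY ht h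
  exact ⟨c, t, -a, d, ⟨⟨h2.hm.shift_right 1 (by omega), h2.pl, h2.pr⟩, by
      simpa [eq_neg_iff_add_eq_zero] using h5⟩,
    ⟨⟨ht.hm.shift_left 1 (by omega), ht.pl, ht.pr⟩, by
      simpa [neg_eq_iff_add_eq_zero] using ht.cm⟩,
    h1.neg.shift 1 1 (by omega), h3, by simpa using h4, h6⟩

/-- Changing subcomplex and quotient of an extension by the same complex `Z`. -/
theorem ext_mod (hH : LR H) (hX : Ok H X) (hY : Ok H Y) (hZ : Ok H Z) {τ : Matrix X.J Y.J A}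
    {g : Matrix Y.J Z.J A} (hτ : Tw H X Y τ) (hg : Tw H Y Z g) :
    Tw H X (Z.sh (-1)) (-(τ * g)) ∧
    Tw H (X.ext (Z.sh (-1)) (-(τ * g))) (Y.ext Z g) (fromBlocks τ 0 0 Z.p) ∧
    HE H ((X.ext (Z.sh (-1)) (-(τ * g))).ext (Y.ext Z g) (fromBlocks τ 0 0 Z.p)) (X.ext Y τ) := by
  have e1 : X.D * τ = -(τ * Y.D) := eq_neg_of_add_eq_zero_left hτ.cm
  have e2 : Y.D * g = -(g * Z.D) := eq_neg_of_add_eq_zero_left hg.cm
  have e3 := (hτ.toMp.comp hH hg.toMp (e := -2) rfl)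
  refine ⟨⟨⟨e3.hm.neg.shift_right (-1) (by omega), ?_, ?_⟩, ?_⟩,
    ⟨⟨Hm.blocks hτ.hm (Hm.zero _ _) (Hm.zero _ _) (hZ.hp.shift_left (-1) (by omega)), ?_, ?_⟩, ?_⟩,
    fromCols (fromBlocks X.p 0 0 (-g)) (fromBlocks 0 0 Y.p 0),
    fromRows (fromBlocks X.p 0 0 0) (fromBlocks 0 Y.p 0 0),
    fromBlocks 0 0 (fromBlocks 0 0 0 Z.p) 0, 0,
    ⟨⟨Hm.cols (Hm.blocks hX.hp (Hm.zero _ _) (Hm.zero _ _) (hg.hm.neg.shift_right (-1) (by omega)))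
      (Hm.blocks (Hm.zero _ _) (Hm.zero _ _) hY.hp (Hm.zero _ _)), ?_, ?_⟩, ?_⟩,
    ⟨⟨Hm.rows (Hm.blocks hX.hp (Hm.zero _ _) (Hm.zero _ _) (Hm.zero _ _))
      (Hm.blocks (Hm.zero _ _) hY.hp (Hm.zero _ _) (Hm.zero _ _)), ?_, ?_⟩, ?_⟩,
    Hm.blocks (Hm.zero _ _) (Hm.zero _ _) (Hm.blocks (Hm.zero _ _) (Hm.zero _ _) (Hm.zero _ _)
      (hZ.hp.shift_right (-1) (by omega))) (Hm.zero _ _), Hm.zero _ _, ?_, ?_⟩
  · simp [e3.pl]
  · simp [e3.pr]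
  · rw [Matrix.mul_neg, ← Matrix.mul_assoc, e1, Matrix.neg_mul, Matrix.mul_assoc, e2]
    simp [Matrix.mul_assoc]
  all_goals
    simp [fromBlocks_multiply, fromBlocks_add, mul_fromCols, fromRows_mul,
      fromCols_mul_fromRows, fromCols_mul_fromBlocks, fromBlocks_mul_fromRows,
      hX.pp, hX.pD, hX.Dp, hY.pp, hY.pD, hY.Dp, hZ.pp, hZ.pD, hZ.Dp, hτ.pl, hτ.pr,
      hg.pl, hg.pr, e1, e2, e3.pl, e3.pr]

end Pool.Agent.MP_f7db47_al.KN
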