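import Pool.Agent.MP_f7db47_al.KN.A6

/-!
The relation `Sim`.
-/

namespace Pool.Agent.MP_f7db47_al.KN

open Matrix

universe v w

variable {A : Type v} [Ring A] {Λ ι : Type} {H H' I I' : Fam A Λ} {S : ι → Submonoid A}
  {K K' : Finset ι} {W : Set ℤ} {X X' Y Y' Z : Cx A Λ} {w w' : A}

theorem Sim.symm (h : Sim H S K W X Y) : Sim H S K W Y X := by
  obtain ⟨P, Q, B, t, t', c, e, e'⟩ := h
  exact ⟨P, Q, B, t', t, ⟨c.oP, c.oQ, c.oB, c.wP, c.wQ, c.wB, c.ht', c.ht⟩, e', e⟩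

theorem a8a_wd : Wd W (Cx.zero A Λ) := fun j => j.elim

theorem Sim.of_he (hH : Good H S) (hX : Obj H S K X) (hW : Wd W X) (hY : Ok H Y) (e : HE H X Y) :
    Sim H S K W X Y :=
  ⟨X, Cx.zero A Λ, Cx.zero A Λ, 0, 0,
    ⟨hX, Obj.zero, Obj.zero, hW, a8a_wd, a8a_wd, Tw.zero _ _, Tw.zero _ _⟩,
    HE.refl (hX.ok.sum Ok.zero), e.sum_left Ok.zero⟩

theorem Sim.trans (hH : Good H S) (hX : Ok H X) (hY : Obj H S K Y) (hW : Wd W Y) (hZ : Ok H Z)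
    (h : Sim H S K W X Y) (h' : Sim H S K W Y Z) : Sim H S K W X Z := by
  obtain ⟨P, Q, B, t, t', c, e, e'⟩ := h
  obtain ⟨P', Q', B', s, s', d, f, f'⟩ := h'
  refine ⟨P.sum P', Q.sum Q', B.sum (Y.sum B'), fromBlocks t 0 0 s, fromBlocks t' 0 0 s',
    ⟨c.oP.sum hH d.oP, c.oQ.sum hH d.oQ, c.oB.sum hH (hY.sum hH d.oB), c.wP.ext d.wP _,
      c.wQ.ext d.wQ _, c.wB.ext (hW.ext d.wB _) _, tw_sum c.ht d.ht, tw_sum c.ht' d.ht'⟩,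
    (sub_ext_sum t s).he_left.2 ((sub_sum_assoc X B (Y.sum B')).1.he_right.1 (e.sum f)),
    (sub_ext_sum t' s').he_left.2 (Sub.he_right ?_ |>.1 (e'.sum f'))⟩
  exact ((sub_sum_comm _ _).trans (sub_sum_assoc Z B' (Y.sum B)).1).trans
    ((Sub.refl Z).sum (((sub_sum_comm _ _).trans ((sub_sum_comm Y B).sum (Sub.refl B'))).trans
      (sub_sum_assoc B Y B').1))

theorem Sim.sum (hH : Good H S) (hX : Ok H X) (hY : Ok H Y) (hZ : Obj H S K Z) (hW : Wd W Z)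
    (h : Sim H S K W X Y) : Sim H S K W (X.sum Z) (Y.sum Z) := by
  obtain ⟨P, Q, B, t, t', c, e, e'⟩ := h
  have h0 : HE H (Z.sum (Cx.zero A Λ)) Z := (sub_zero_sum Z).2.he_left.1 (HE.refl hZ.ok)
  have h1 : ∀ U : Cx A Λ, Sub ((U.sum B).sum Z) ((U.sum Z).sum B) := fun U =>
    ((sub_sum_assoc U B Z).1.trans ((Sub.refl U).sum (sub_sum_comm B Z))).trans
      (sub_sum_assoc U Z B).2
  exact ⟨P.sum Z, Q.sum (Cx.zero A Λ), B, fromBlocks t 0 0 0, fromBlocks t' 0 0 0,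
    ⟨c.oP.sum hH hZ, c.oQ.sum hH Obj.zero, c.oB, c.wP.ext hW _, c.wQ.ext a8a_wd _, c.wB,
      tw_sum c.ht (Tw.zero _ _), tw_sum c.ht' (Tw.zero _ _)⟩,
    (sub_ext_sum t 0).he_left.2 ((h1 X).he_right.1 (e.sum h0)),
    (sub_ext_sum t' 0).he_left.2 ((h1 Y).he_right.1 (e'.sum h0))⟩

theorem Sim.cancel (hH : Good H S) (hZ : Obj H S K Z) (hW : Wd W Z)
    (h : Sim H S K W (X.sum Z) (Y.sum Z)) : Sim H S K W X Y := by
  obtain ⟨P, Q, B, t, t', c, e, e'⟩ := h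
  exact ⟨P, Q, Z.sum B, t, t', ⟨c.oP, c.oQ, hZ.sum hH c.oB, c.wP, c.wQ, hW.ext c.wB _, c.ht, c.ht'⟩,
    (sub_sum_assoc X Z B).1.he_right.1 e, (sub_sum_assoc Y Z B).1.he_right.1 e'⟩

theorem Sim.ext (hH : Good H S) (hX : Obj H S K X) (hY : Obj H S K Y) (wX : Wd W X) (wY : Wd W Y)
    {t : Matrix X.J Y.J A} (ht : Tw H X Y t) : Sim H S K W (X.ext Y t) (X.sum Y) :=
  ⟨X, Y, Cx.zero A Λ, t, 0, ⟨hX, hY, Obj.zero, wX, wY, a8a_wd, ht, Tw.zero _ _⟩,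
    (sub_zero_sum _).2.he_right.1 (HE.refl (hX.ok.ext hY.ok ht)),
    (sub_zero_sum _).2.he_right.1 (HE.refl (hX.ok.sum hY.ok))⟩

theorem sim_zero_iff : Sim H S K W X (Cx.zero A Λ) ↔ Cert H S K W X := by
  constructor
  · rintro ⟨P, Q, B, t, t', c, e, e'⟩
    exact ⟨P, Q, B, t, t', c, e, (sub_zero_sum B).1.he_right.2 e'⟩
  · rintro ⟨P, Q, B, t, t', c, e, e'⟩
    exact ⟨P, Q, B, t, t', c, e, (sub_zero_sum B).1.he_right.1 e'⟩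

theorem Cert.he_gr {𝓗 : ℕ → Fam A Λ} (hH : Gr 𝓗 S) {k : ℕ} (h : Cert (𝓗 k) S K W Y)
    (e : HE (𝓗 k) X Y) : Cert (𝓗 (3 * k)) S K W X := by
  obtain ⟨P, Q, B, t, t', c, f, f'⟩ := h
  have m : 𝓗 k ≤ 𝓗 (3 * k) := hH.mono (by omega)
  exact ⟨P, Q, B, t, t', ⟨c.oP.mono m, c.oQ.mono m, c.oB.mono m, c.wP, c.wQ, c.wB, c.ht.mono m,
    c.ht'.mono m⟩, f.trans_gr hH (e.symm.sum_left c.oB.ok), f'.mono m⟩

theorem Cert.he (hH : LR H) (h : Cert H S K W Y) (e : HE H X Y) : Cert H S K W X := by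
  obtain ⟨P, Q, B, t, t', c, f, f'⟩ := h
  exact ⟨P, Q, B, t, t', c, f.trans hH (e.symm.sum_left c.oB.ok), f'⟩

end Pool.Agent.MP_f7db47_al.KN
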