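import Pool.Agent.MP_f7db47_al.KN.A3

/-!
Matrix valued functors. No closure property of the families is needed.
-/

namespace Pool.Agent.MP_f7db47_al.KN

open Matrix

universe v w

variable {A : Type v} [Ring A] {Λ ι : Type} {H H' I I' : Fam A Λ} {S : ι → Submonoid A}
  {K K' : Finset ι} {W : Set ℤ} {X X' Y Y' Z : Cx A Λ} {w w' : A}
  {A' : Type w} [Ring A'] {Λ' : Type} {G : Fam A' Λ'} {S' : ι → Submonoid A'}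

variable (Φ : Fn H G)

section

variable {d d' : ℤ} {J₁ J₂ J₃ : Type} {s : J₁ → Λ × ℤ} {t : J₂ → Λ × ℤ} {u : J₃ → Λ × ℤ}

theorem Fn.mat_zero : Φ.mat s t 0 = 0 := by
  ext x y
  simp [Fn.mat]

theorem Fn.mat_add (f g : Matrix J₁ J₂ A) : Φ.mat s t (f + g) = Φ.mat s t f + Φ.mat s t g := by
  ext x y
  simp [Fn.mat]

theorem Fn.mat_neg (f : Matrix J₁ J₂ A) : Φ.mat s t (-f) = -Φ.mat s t f := by
  ext x y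
  simp [Fn.mat]

theorem Fn.mat_mul [Fintype J₂] {f : Matrix J₁ J₂ A} {g : Matrix J₂ J₃ A} (hf : Hm H d s t f)
    (hg : Hm H d' t u g) : Φ.mat s u (f * g) = Φ.mat s t f * Φ.mat t u g := by
  ext x y
  rw [Matrix.mul_apply, Fintype.sum_sigma, Fn.mat, Matrix.mul_apply, map_sum, Matrix.sum_apply]
  refine Finset.sum_congr rfl fun j _ => ?_
  rw [Φ.mul (hf x.1 j).1 (hg j y.1).1, Matrix.mul_apply]
  rfl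

theorem Hm.fn {f : Matrix J₁ J₂ A} (hf : Hm H d s t f) :
    Hm G d (fun x : Σ i, Φ.κ (s i).1 => (Φ.lab _ x.2, (s x.1).2))
      (fun x : Σ i, Φ.κ (t i).1 => (Φ.lab _ x.2, (t x.1).2)) (Φ.mat s t f) := fun x y =>
  ⟨Φ.mem (hf x.1 y.1).1 _ _, fun e => (hf x.1 y.1).2 fun e1 => e (by simp [Fn.mat, e1])⟩

theorem a9_smul {w : A} {w' : A'} {f : Matrix J₁ J₂ A} (hf : Hm H d s t f)
    (h : ∀ ⦃i j x⦄, x ∈ H i j → Φ.F i j (w * x) = w' • Φ.F i j x) :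
    Φ.mat s t (w • f) = w' • Φ.mat s t f := by
  ext x y
  rw [Fn.mat, Matrix.smul_apply, smul_eq_mul, h (hf x.1 y.1).1]
  rfl

end

theorem Ok.fn (h : Ok H X) : Ok G (Φ.obj X) where
  hp := h.hp.fn Φ
  hD := h.hD.fn Φ
  pp := by rw [← Φ.mat_mul h.hp h.hp, h.pp]
  pD := by rw [← Φ.mat_mul h.hp h.hD, h.pD]
  Dp := by rw [← Φ.mat_mul h.hD h.hp, h.Dp]
  DD := by rw [← Φ.mat_mul h.hD h.hD, h.DD, Φ.mat_zero]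

theorem a9_mp {d : ℤ} {f : Matrix Y.J X.J A} (hY : Ok H Y) (hX : Ok H X) (h : Mp H d Y X f) :
    Mp G d (Φ.obj Y) (Φ.obj X) (Φ.mat Y.t X.t f) where
  hm := h.hm.fn Φ
  pl := by rw [← Φ.mat_mul hY.hp h.hm, h.pl]
  pr := by rw [← Φ.mat_mul h.hm hX.hp, h.pr]

theorem Ch.fn {f : Matrix Y.J X.J A} (hY : Ok H Y) (hX : Ok H X) (h : Ch H Y X f) :
    Ch G (Φ.obj Y) (Φ.obj X) (Φ.mat Y.t X.t f) :=
  ⟨a9_mp Φ hY hX h.toMp, by rw [← Φ.mat_mul hY.hD h.hm, ← Φ.mat_mul h.hm hX.hD, h.cm]⟩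

theorem Tw.fn {f : Matrix Y.J X.J A} (hY : Ok H Y) (hX : Ok H X) (h : Tw H Y X f) :
    Tw G (Φ.obj Y) (Φ.obj X) (Φ.mat Y.t X.t f) :=
  ⟨a9_mp Φ hY hX h.toMp, by
    rw [← Φ.mat_mul hY.hD h.hm, ← Φ.mat_mul h.hm hX.hD, ← Φ.mat_add, h.cm, Φ.mat_zero]⟩

theorem HE.fn (hX : Ok H X) (hY : Ok H Y) (h : HE H X Y) : HE G (Φ.obj X) (Φ.obj Y) := by
  obtain ⟨f, g, a, b, c⟩ := h
  refine ⟨_, _, _, _, c.hf.fn Φ hY hX, c.hg.fn Φ hX hY, c.hh.fn Φ, c.hk.fn Φ, ?_, ?_⟩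
  · rw [← Φ.mat_mul c.hg.hm c.hf.hm, ← Φ.mat_mul hX.hD c.hh, ← Φ.mat_mul c.hh hX.hD,
      ← Φ.mat_add, ← Φ.mat_add, c.gf]
  · rw [← Φ.mat_mul c.hf.hm c.hg.hm, ← Φ.mat_mul hY.hD c.hk, ← Φ.mat_mul c.hk hY.hD,
      ← Φ.mat_add, ← Φ.mat_add, c.fg]

theorem Obj.fn (hΦ : Φ.Lin S S') (h : Obj H S K X) : Obj G S' K (Φ.obj X) := by
  refine ⟨h.ok.fn Φ, fun a ha => ?_⟩
  obtain ⟨w, hw, s, h1, h2⟩ := h.tor a ha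
  obtain ⟨w', hw', e⟩ := hΦ a w hw
  refine ⟨w', hw', _, h1.fn Φ, ?_⟩
  rw [← Φ.mat_mul h.ok.hD h1, ← Φ.mat_mul h1 h.ok.hD, ← Φ.mat_add, h2, a9_smul Φ h.ok.hp e]

theorem Wd.fn (h : Wd W X) : Wd W (Φ.obj X) := fun x => h x.1

theorem sub_fn_ext (t : Matrix X.J Y.J A) :
    Sub (Φ.obj (X.ext Y t)) ((Φ.obj X).ext (Φ.obj Y) (Φ.mat X.t Y.t t)) ∧
    Sub ((Φ.obj X).ext (Φ.obj Y) (Φ.mat X.t Y.t t)) (Φ.obj (X.ext Y t)) := by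
  refine Sub.of_equiv (Equiv.sumSigmaDistrib fun j => Φ.κ (Sum.elim X.t Y.t j).1) ?_ ?_ ?_
  · rintro ⟨i | i, a⟩ <;> rfl
  · ext ⟨i | i, a⟩ ⟨j | j, b⟩
    · rfl
    · exact congrFun₂ (map_zero (Φ.F _ _)) a b
    · exact congrFun₂ (map_zero (Φ.F _ _)) a b
    · rfl
  · ext ⟨i | i, a⟩ ⟨j | j, b⟩
    · rfl
    · rfl
    · exact congrFun₂ (map_zero (Φ.F _ _)) a b
    · rfl

theorem Cert.fn (hΦ : Φ.Lin S S') (hX : Ok H X) (h : Cert H S K W X) :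
    Cert G S' K W (Φ.obj X) := by
  obtain ⟨P, Q, B, t, t', c, e, e'⟩ := h
  have o1 := c.oP.ok.ext c.oQ.ok c.ht
  have o2 := c.oP.ok.ext c.oQ.ok c.ht'
  have s0 := (sub_fn_ext Φ (0 : Matrix X.J B.J A)).1
  rw [Φ.mat_zero] at s0
  exact ⟨Φ.obj P, Φ.obj Q, Φ.obj B, _, _, ⟨c.oP.fn Φ hΦ, c.oQ.fn Φ hΦ, c.oB.fn Φ hΦ, c.wP.fn Φ,
    c.wQ.fn Φ, c.wB.fn Φ, c.ht.fn Φ c.oP.ok c.oQ.ok, c.ht'.fn Φ c.oP.ok c.oQ.ok⟩,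
    (sub_fn_ext Φ t).1.he_left.1 (s0.he_right.1 (e.fn Φ o1 (hX.sum c.oB.ok))),
    (sub_fn_ext Φ t').1.he_left.1 (e'.fn Φ o2 c.oB.ok)⟩

end Pool.Agent.MP_f7db47_al.KN
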