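import Pool.Agent.MP_f7db47_al.KN.DF
import Pool.Agent.MP_f7db47_al.KN.A2
import Pool.Agent.MP_f7db47_al.KN.A3

/-!
Restriction to a set of labels, change of labels, extensions of certificates.
-/

namespace Pool.Agent.MP_f7db47_al.KN

open Matrix

universe v w

variable {A : Type v} [Ring A] {Λ Λ' ι : Type} {H H' : Fam A Λ} {S : ι → Submonoid A}
  {K : Finset ι} {W : Set ℤ} {X X' Y : Cx A Λ} {w : A}

theorem rs_le (H : Fam A Λ) (U : Set Λ) : rs H U ≤ H := fun _ _ _ h => h.1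

theorem rs_mono {U U' : Set Λ} (h : H ≤ H') (hU : U ⊆ U') : rs H U ≤ rs H' U' :=
  fun _ _ _ c => ⟨h _ _ c.1, fun e => ⟨hU (c.2 e).1, hU (c.2 e).2⟩⟩

theorem Gr.rs {𝓗 : ℕ → Fam A Λ} (h : Gr 𝓗 S) {U : ℕ → Set Λ} (hU : Monotone U) :
    Gr (fun k => rs (𝓗 k) (U k)) S :=
  ⟨fun _ _ e => rs_mono (h.mono e) (hU e), fun k k' _ _ _ _ _ hx hy => ⟨h.mul hx.1 hy.1, fun e =>
    ⟨hU (Nat.le_add_right k k') (hx.2 (left_ne_zero_of_mul e)).1,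
      hU (Nat.le_add_left k' k) (hy.2 (right_ne_zero_of_mul e)).2⟩⟩, h.cen,
    fun a w hw _ _ _ _ hx => ⟨h.stab a w hw hx.1, fun e => hx.2 (right_ne_zero_of_mul e)⟩⟩

theorem IsLoc.rs (hU : Uni S) {a : ι} (h : IsLoc H (S a) H') (U : Set Λ) :
    IsLoc (rs H U) (S a) (rs H' U) := fun i j x =>
  ⟨fun c => ((h i j x).1 c.1).imp fun _ d =>
      ⟨d.1, d.2, fun e => c.2 (right_ne_zero_of_mul e)⟩,
    fun ⟨w, hw, c⟩ => ⟨(h i j x).2 ⟨w, hw, c.1⟩, fun e =>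
      c.2 fun d => e ((hU a w hw).mul_right_eq_zero.1 d)⟩⟩

theorem Sub.std (h : Sub X' X) (hX : Std X) : Std X' := by
  obtain ⟨e, he, -, hp, -⟩ := h
  rw [Std, hp]
  exact ⟨fun i j c => hX.1 _ _ fun d => c (he d), fun i => hX.2 _⟩

theorem Sub.std' (h : Sub X' X) (hX : Std X') : Std X := by
  obtain ⟨e, -, -, hp, -, sp, -⟩ := h
  rw [Std, hp] at hX
  refine ⟨fun i j c => by_contra fun d => ?_, fun i => or_iff_not_imp_right.2 fun d => ?_⟩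
  · obtain ⟨⟨a, rfl⟩, b, rfl⟩ := sp i j d
    exact d (hX.1 a b fun u => c (congrArg e u))
  · obtain ⟨⟨a, rfl⟩, -⟩ := sp i i d
    exact (hX.2 a).resolve_right d

/-- An object that is supported on `U` comes from an object with labels in `U`. -/
theorem restr {U : Set Λ} (hX : Obj (rs H U) S K X) :
    ∃ X' : Cx A U, Obj (fun a b : U => H a b) S K X' ∧ Sub (X'.lab Subtype.val) X := by
  classical
  have s := Sub.res hX.ok (fun j => (X.t j).1 ∈ U) fun i j c => (hX.ok.hp i j).1.2 c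
  have o := (s.obj_iff.2 hX).mono (rs_le H U)
  exact ⟨{ J := {j // (X.t j).1 ∈ U}
           t := fun j => (⟨_, j.2⟩, (X.t j).2)
           p := X.p.submatrix Subtype.val Subtype.val
           D := X.D.submatrix Subtype.val Subtype.val },
    ⟨⟨o.ok.hp, o.ok.hD, o.ok.pp, o.ok.pD, o.ok.Dp, o.ok.DD⟩, o.tor⟩, s⟩

theorem obj_empty : Obj H S ∅ X ↔ Ok H X :=
  ⟨fun h => h.ok, fun h => ⟨h, fun a ha => absurd ha (Finset.notMem_empty a)⟩⟩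

section

variable {G : Fam A Λ'} {π : Λ → Λ'}

theorem Tw.relab (hπ : ∀ ⦃a b x⦄, x ∈ H a b → x ∈ G (π a) (π b)) {t : Matrix X.J Y.J A}
    (h : Tw H X Y t) : Tw G (X.lab π) (Y.lab π) t := ⟨⟨h.hm.lab hπ, h.pl, h.pr⟩, h.cm⟩

theorem HE.relab (hπ : ∀ ⦃a b x⦄, x ∈ H a b → x ∈ G (π a) (π b)) (h : HE H X Y) :
    HE G (X.lab π) (Y.lab π) := by
  obtain ⟨f, g, a, b, c⟩ := h
  exact ⟨f, g, a, b, ⟨⟨c.hf.hm.lab hπ, c.hf.pl, c.hf.pr⟩, c.hf.cm⟩,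
    ⟨⟨c.hg.hm.lab hπ, c.hg.pl, c.hg.pr⟩, c.hg.cm⟩, c.hh.lab hπ, c.hk.lab hπ, c.gf, c.fg⟩

theorem lab_ext (π : Λ → Λ') (t : Matrix X.J Y.J A) :
    (X.ext Y t).lab π = (X.lab π).ext (Y.lab π) t :=
  congrArg (fun s => Cx.mk (X.J ⊕ Y.J) s (fromBlocks X.p 0 0 Y.p) (fromBlocks X.D t 0 Y.D))
    (by funext j; rcases j with j | j <;> rfl)

theorem Cert.relab (hπ : ∀ ⦃a b x⦄, x ∈ H a b → x ∈ G (π a) (π b)) (h : Cert H S K W X) :
    Cert G S K W (X.lab π) := by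
  obtain ⟨P, Q, B, t, t', c, e, e'⟩ := h
  have a := e.relab hπ
  have a' := e'.relab hπ
  rw [lab_ext, lab_ext] at a
  rw [lab_ext] at a'
  exact ⟨P.lab π, Q.lab π, B.lab π, t, t', ⟨c.oP.lab hπ, c.oQ.lab hπ, c.oB.lab hπ, c.wP, c.wQ,
    c.wB, c.ht.relab hπ, c.ht'.relab hπ⟩, a, a'⟩

end

/-- Sums of objects; no products are needed. -/
theorem Obj.sum_sc (hS : ∀ a, ∀ w ∈ S a, Sc H w) (h : Obj H S K X) (h' : Obj H S K Y) :
    Obj H S K (X.sum Y) := by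
  refine ⟨h.ok.sum h'.ok, fun a ha => ?_⟩
  obtain ⟨u, hu, c⟩ := h.tor a ha
  obtain ⟨u', hu', c'⟩ := h'.tor a ha
  obtain ⟨s, s1, s2⟩ := c.smul (hS a u' hu')
  obtain ⟨s', s1', s2'⟩ := c'.smul (hS a u hu)
  rw [(hS a u hu).1] at s2'
  exact ⟨u' * u, mul_mem hu' hu, fromBlocks s 0 0 s',
    Hm.blocks s1 (Hm.zero _ _) (Hm.zero _ _) s1',
    by simp [fromBlocks_multiply, fromBlocks_add, fromBlocks_smul, s2, s2']⟩

/-- Extensions of trivial objects; no products are needed. -/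
theorem Cert.ext_sc (hS : ∀ a, ∀ w ∈ S a, Sc H w) (hX : Obj H S K X) (hY : Obj H S K Y)
    (wX : Wd W X) (wY : Wd W Y) {t : Matrix X.J Y.J A} (ht : Tw H X Y t) (h : Cert H S K W X)
    (h' : Cert H S K W Y) : Cert H S K W (X.ext Y t) := by
  obtain ⟨P, Q, B, s, s', c, e, e'⟩ := h
  obtain ⟨P₂, Q₂, B₂, r, r', d, f, f'⟩ := h'
  have u := sub_ext_sum (X := X) (X' := Y) (Y := B) (Y' := B₂) 0 0
  rw [fromBlocks_zero] at u
  exact ⟨(P.sum P₂).sum X, (Q.sum Q₂).sum Y, (X.sum B).sum (Y.sum B₂), _, _,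
    ⟨(c.oP.sum_sc hS d.oP).sum_sc hS hX, (c.oQ.sum_sc hS d.oQ).sum_sc hS hY,
      (hX.sum_sc hS c.oB).sum_sc hS (hY.sum_sc hS d.oB), (c.wP.ext d.wP _).ext wX _,
      (c.wQ.ext d.wQ _).ext wY _, (wX.ext c.wB _).ext (wY.ext d.wB _) _,
      tw_sum (tw_sum c.ht d.ht) ht, tw_sum (tw_sum c.ht' d.ht') (Tw.zero _ _)⟩,
    ((sub_ext_sum _ _).trans ((sub_ext_sum _ _).sum (Sub.refl _))).he_left.2
      ((sub_sum_comm _ _).he_right.2 ((e.sum f).sum (HE.refl (hX.ok.ext hY.ok ht)))),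
    ((sub_ext_sum _ _).trans ((sub_ext_sum _ _).sum (Sub.refl _))).he_left.2
      (((sub_sum_comm _ _).trans u).he_right.1 ((e'.sum f').sum (HE.refl (hX.ok.sum hY.ok))))⟩

theorem f0_he [IsEmpty X.J] [IsEmpty Y.J] : HE H X Y :=
  ⟨0, 0, 0, 0, Ch.zero _ _, Ch.zero _ _, Hm.zero _ _, Hm.zero _ _,
    Matrix.ext fun i => isEmptyElim i, Matrix.ext fun i => isEmptyElim i⟩

theorem Cert.of_empty [IsEmpty X.J] : Cert H S K W X :=
  ⟨Cx.zero A Λ, Cx.zero A Λ, Cx.zero A Λ, 0, 0, ⟨Obj.zero, Obj.zero, Obj.zero, fun j => j.elim,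
    fun j => j.elim, fun j => j.elim, Tw.zero _ _, Tw.zero _ _⟩, f0_he, f0_he⟩

end Pool.Agent.MP_f7db47_al.KN
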