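import Pool.Agent.MP_f7db47_al.KN.DG
import Pool.Agent.MP_f7db47_al.KN.F0
import Pool.Agent.MP_f7db47_al.KN.A7
import Pool.Agent.MP_f7db47_al.KN.A8
import Pool.Agent.MP_f7db47_al.KN.A15

/-!
Certificates over a groupoid.
-/

namespace Pool.Agent.MP_f7db47_al.KN

open Matrix GN

universe v w

section Gen

variable {A : Type v} [Ring A] {Λ ι : Type} {H : Fam A Λ} {S : ι → Submonoid A} {K : Finset ι}

theorem c2_sub_mul {J : Type} [Fintype J] (U : J → Prop) [DecidablePred U] (M N : Matrix J J A)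
    (h : ∀ i j, U i → ¬U j → M i j = 0) :
    M.submatrix (Subtype.val : {j // U j} → J) (Subtype.val : {j // U j} → J) *
      N.submatrix (Subtype.val : {j // U j} → J) (Subtype.val : {j // U j} → J) =
      (M * N).submatrix Subtype.val Subtype.val := by
  ext i k
  simp only [Matrix.mul_apply, submatrix_apply]
  rw [← Finset.sum_subtype (Finset.univ.filter U) (by simp) (fun j => M i j * N j k)]
  exact Finset.sum_subset (Finset.subset_univ _) fun j _ hj => by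
    rw [h _ _ i.2 (by simpa using hj), zero_mul]

/-- Restriction to a union of blocks. -/
theorem Tor.res {X : Cx A Λ} (hX : Obj H S K X) (U : X.J → Prop) [DecidablePred U]
    (hU : ∀ i j, U i → ¬U j → ∀ x ∈ H (X.t i).1 (X.t j).1, x = 0) :
    Tor H S K (X.res (Subtype.val : {j // U j} → X.J)) := fun a ha => by
  obtain ⟨w, hw, h, h1, h2⟩ := hX.tor a ha
  refine ⟨w, hw, h.submatrix Subtype.val Subtype.val, h1.submatrix _ _, ?_⟩
  dsimp only
  rw [c2_sub_mul U _ _ fun i j a b => hU i j a b _ (hX.ok.hD i j).1,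
    c2_sub_mul U _ _ fun i j a b => hU i j a b _ (h1 i j).1]
  exact Matrix.ext fun i j => congrFun (congrFun h2 i.1) j.1

/-- Certificates can be found block by block. -/
theorem cert_of_blocks (hH : Good H S) (r : Λ → Λ → Prop) (r1 : ∀ a, r a a)
    (r2 : ∀ a b c, ¬(r a c ↔ r b c) → ∀ x ∈ H a b, x = 0) (P : Λ × ℤ → Prop)
    (h : ∀ c (Y : Cx A Λ), Obj H S K Y → (∀ j, P (Y.t j) ∧ r (Y.t j).1 c) →
      Cert H S K Set.univ Y) (X : Cx A Λ) (hX : Obj H S K X) (hP : ∀ j, P (X.t j)) :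
    Cert H S K Set.univ X := by
  classical
  induction hn : Fintype.card X.J using Nat.strong_induction_on generalizing X with
  | _ n ih =>
    rcases isEmpty_or_nonempty X.J with h0 | ⟨⟨m⟩⟩
    · exact Cert.of_nul hH hX.ok (Wd.univ _) ⟨0, Hm.zero _ _, Subsingleton.elim _ _⟩
    let U : X.J → Prop := fun j => r (X.t j).1 (X.t m).1
    have h1 : ∀ i j, ¬U i → U j → ∀ x ∈ H (X.t i).1 (X.t j).1, x = 0 :=
      fun i j a b => r2 _ _ _ fun e => a (e.2 b)
    obtain ⟨a1, a2, t, a3, a4⟩ := tri_res hH.mul hX.ok U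
      (fun i j a b => h1 i j a b _ (hX.ok.hp i j).1) fun i j a b => h1 i j a b _ (hX.ok.hD i j).1
    have o1 : Obj H S K _ := ⟨a1, Tor.res hX U fun i j a b => r2 _ _ _ fun e => b (e.1 a)⟩
    have o2 : Obj H S K _ := ⟨a2, Tor.res hX (fun j => ¬U j)
      fun i j a b => h1 i j a (not_not.1 b)⟩
    refine Cert.he hH.mul (Cert.ext hH o1 o2 (Wd.univ _) (Wd.univ _) a3
      (h _ _ o1 fun j => ⟨hP _, j.2⟩) (ih _ ?_ _ o2 (fun j => hP _) rfl)) a4
    rw [← hn]
    exact Fintype.card_subtype_lt (x := m) fun e => e (r1 _)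

/-- Transport to one label. -/
theorem he_transport (hH : LR H) {X : Cx A Λ} (hX : Ok H X) (c : Λ) (u u' : X.J → A)
    (hu : ∀ j, u j ∈ H (X.t j).1 c) (hu' : ∀ j, u' j ∈ H c (X.t j).1) (e : ∀ j, u j * u' j = 1) :
    ∃ p D, Ok H ((X.re p D).lab fun _ => c) ∧ HE H X ((X.re p D).lab fun _ => c) := by
  have h1 : Hm H 0 X.t (fun j => (c, (X.t j).2)) (diagonal u) := fun i j => by
    rw [diagonal_apply]
    split_ifs with e
    · exact ⟨hu i, fun _ => by simp [e]⟩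
    · exact ⟨zero_mem _, fun e => absurd rfl e⟩
  have h2 : Hm H 0 (fun j => (c, (X.t j).2)) X.t (diagonal u') := fun i j => by
    rw [diagonal_apply]
    split_ifs with e
    · exact ⟨e ▸ hu' i, fun _ => by simp [e]⟩
    · exact ⟨zero_mem _, fun e => absurd rfl e⟩
  have h3 : ∀ M : Matrix X.J X.J A, diagonal u * (diagonal u' * M) = M := fun M => by
    rw [← Matrix.mul_assoc, diagonal_mul_diagonal, funext e, diagonal_one, Matrix.one_mul]
  have h4 : diagonal u * diagonal u' = 1 := by rw [diagonal_mul_diagonal, funext e, diagonal_one]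
  have pp : ∀ M : Matrix X.J X.J A, X.p * (X.p * M) = X.p * M := fun M => by
    rw [← Matrix.mul_assoc, hX.pp]
  have pD : ∀ M : Matrix X.J X.J A, X.p * (X.D * M) = X.D * M := fun M => by
    rw [← Matrix.mul_assoc, hX.pD]
  have Dp : ∀ M : Matrix X.J X.J A, X.D * (X.p * M) = X.D * M := fun M => by
    rw [← Matrix.mul_assoc, hX.Dp]
  have DD : ∀ M : Matrix X.J X.J A, X.D * (X.D * M) = 0 := fun M => by
    rw [← Matrix.mul_assoc, hX.DD, Matrix.zero_mul]
  refine ⟨diagonal u' * (X.p * diagonal u), diagonal u' * (X.D * diagonal u),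
    ⟨h2.mul hH (hX.hp.mul hH h1 rfl) (by omega), h2.mul hH (hX.hD.mul hH h1 rfl) (by omega),
    ?_, ?_, ?_, ?_⟩, HE.of_iso (f := diagonal u' * X.p) (g := X.p * diagonal u)
    ⟨⟨h2.mul hH hX.hp rfl, ?_, ?_⟩, ?_⟩ ⟨⟨hX.hp.mul hH h1 rfl, ?_, ?_⟩, ?_⟩ ?_ ?_⟩ <;>
  simp only [Matrix.mul_assoc, h3, pp, pD, Dp, DD, hX.pp, hX.pD, hX.Dp, Matrix.mul_zero]

end Gen

variable {ι : Type} {κ : Type w} {R : Type v} [Ring R] {G : Type} [Group G]
  [MulSemiringAction G R] {Λ : Type}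

theorem single_mem_ctl (D : Subring R) {r : Λ → G → Λ → Prop} {a b : Λ} {g : G} (h : r a g b) :
    SkewMonoidAlgebra.single g (1 : R) ∈ ctl D r a b := fun k => by
  classical
  rw [SkewMonoidAlgebra.coeff_single_apply]
  split_ifs with e
  · exact ⟨one_mem D, fun _ => e ▸ h⟩
  · exact ⟨zero_mem D, fun c => absurd rfl c⟩

/-- Only the vertex groups of the labels that occur are needed. -/
theorem cert_gpd (C : Coef ι κ R) [C.Inv G] (I : κ) (K : Finset ι) (B : Gpd G Λ)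
    (X : Cx (SkewMonoidAlgebra R G) Λ) (hX : Obj (ctl (C.D I) B.r) (C.S G) K X)
    (hB : ∀ j, NZs C (B.grp (X.t j).1)) : Cert (ctl (C.D I) B.r) (C.S G) K Set.univ X := by
  refine cert_of_blocks (C.good I B) (fun a b => ∃ g, B.r a g b) (fun a => ⟨1, B.refl a⟩)
    (fun a b c h x hx => SkewMonoidAlgebra.ext fun g => by_contra fun e => h
      ⟨fun ⟨_, h⟩ => ⟨_, B.trans (B.symm ((hx g).2 e)) h⟩,
        fun ⟨_, h⟩ => ⟨_, B.trans ((hx g).2 e) h⟩⟩) (fun a => NZs C (B.grp a.1))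
    (fun c₀ Y hY h => ?_) X hX hB
  rcases isEmpty_or_nonempty Y.J with h0 | ⟨⟨m⟩⟩
  · exact Cert.of_nul (C.good I B) hY.ok (Wd.univ _) ⟨0, Hm.zero _ _, Subsingleton.elim _ _⟩
  obtain ⟨g₀, hg₀⟩ := (h m).2
  choose γ₀ hγ₀ using fun j => (h j).2
  obtain ⟨γ, hγ⟩ : ∃ γ : Y.J → G, ∀ j, B.r (Y.t j).1 (γ j) (Y.t m).1 :=
    ⟨_, fun j => B.trans (hγ₀ j) (B.symm hg₀)⟩
  obtain ⟨p, D, h1, h2⟩ := he_transport (C.good I B).mul hY.ok (Y.t m).1
    (fun j => SkewMonoidAlgebra.single (γ j) 1) (fun j => SkewMonoidAlgebra.single (γ j)⁻¹ 1)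
    (fun j => single_mem_ctl _ (hγ j)) (fun j => single_mem_ctl _ (B.symm (hγ j))) fun j => by
      rw [SkewMonoidAlgebra.single_mul_single, mul_inv_cancel, smul_one, one_mul]
      rfl
  have h3 := hY.he (C.good I B) h1 h2
  exact Cert.he (C.good I B).mul (Cert.relab (π := fun _ => (Y.t m).1) (fun _ _ _ hx => hx)
    ((h m).1 I K ((Y.re p D).lab fun _ => ())
      ⟨⟨h1.hp, h1.hD, h1.pp, h1.pD, h1.Dp, h1.DD⟩, h3.tor⟩)) h2

theorem null_gpd (C : Coef ι κ R) [C.Inv G] (B : Gpd G Λ) (hB : ∀ a, NZs C (B.grp a)) (I : κ)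
    (K : Finset ι) : NullAll (ctl (C.D I) B.r) (C.S G) K :=
  fun X hX => cert_gpd C I K B X hX fun _ => hB _

theorem qn_zero (C : Coef ι κ R) [C.Inv G] : QN G C 0 := fun I K k L =>
  ⟨0, L + K.card + 1, fun _ B S hB X hX hL _ => by
    have h1 := hX.mono (H' := ctl (C.D I) B.r) fun _ _ _ hx g =>
      ⟨(hx g).1, fun e => ((hx g).2 e).1⟩
    exact (window (C.good I B) h1 hL (null_gpd C B (fun a => (hB a).2 _ le_rfl) I K X h1)).mono
      (fun _ _ _ hx g => ⟨(hx g).1, fun e => ⟨(hx g).2 e, fun i => i.elim0⟩⟩) subset_rfl⟩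

end Pool.Agent.MP_f7db47_al.KN
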