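import Pool.Agent.MP_f7db47_al.KN.DG
import Pool.Agent.MP_f7db47_al.KN.F0

/-!
Regions that split into blocks.
-/

namespace Pool.Agent.MP_f7db47_al.KN

open Matrix GN

universe v w

variable {ι : Type} {κ : Type w} {R : Type v} [Ring R] {G : Type} [Group G]
  [MulSemiringAction G R] {Λ : Type} (C : Coef ι κ R) [C.Inv G]

/-- The blocks of a region. -/
def blk (B : Gpd G Λ) (s : Spi G Λ) (U : Set Λ) (m : Λ → ℕ) : Gpd G U where
  r a g b := B.r a g b ∧ m a = m b ∧ (m a ≠ 0 → s.leg.r a g b)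
  refl a := ⟨B.refl _, rfl, fun _ => s.leg.refl _⟩
  symm h := ⟨B.symm h.1, h.2.1.symm, fun e => s.leg.symm (h.2.2 (h.2.1 ▸ e))⟩
  trans h h' := ⟨B.trans h.1 h'.1, h.2.1.trans h'.2.1,
    fun e => s.leg.trans (h.2.2 e) (h'.2.2 (h.2.1 ▸ e))⟩

/-- Close labels lie in the same block, and the blocks have diameter at most `c`. -/
structure Blk (s : Spi G Λ) (U : Set Λ) (m : Λ → ℕ) (k c : ℕ) : Prop where
  near : ∀ a ∈ U, ∀ b ∈ U, ∀ g, s.rel k a g b → m a = m b ∧ (m a ≠ 0 → s.leg.r a g b)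
  far : ∀ a ∈ U, ∀ b ∈ U, ∀ g, m a = m b → (m a ≠ 0 → s.leg.r a g b) → s.rel c a g b

variable {C} {N k k' k'' c L L' : ℕ} {I : κ} {K : Finset ι} {B : Gpd G Λ}
  {S : Fin (N + 1) → Spi G Λ} {U U' : Set Λ} {m : Λ → ℕ}

theorem c3_mono {s : Spi G Λ} {a b : Λ} {g : G} (h : s.rel k a g b) (hk : k ≤ k') :
    s.rel k' a g b :=
  ⟨h.1.trans (by omega), h.2.1.trans (by omega), fun e => (h.2.2 e).trans hk⟩

/-- The remaining spiders. -/
def c3_S (S : Fin (N + 1) → Spi G Λ) (U : Set Λ) : Fin N → Spi G U :=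
  fun i => (S i.succ).pull (MonoidHom.id G) Subtype.val

theorem c3_in (D : Subring R) (hb : Blk (S 0) U m k c) :
    (fun a b : U => ctl D ((CR B S).rel k) a b) ≤
      ctl D ((CR (blk B (S 0) U m) (c3_S S U)).rel k) := fun a b _ hx g =>
  ⟨(hx g).1, fun e => ⟨⟨((hx g).2 e).1, hb.near a a.2 b b.2 g (((hx g).2 e).2 0)⟩,
    fun i => ((hx g).2 e).2 i.succ⟩⟩

theorem c3_out (D : Subring R) (hb : Blk (S 0) U m k c) (hU : U ⊆ U') (h1 : k' ≤ k'')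
    (h2 : c ≤ k'') ⦃a b : U⦄ ⦃x : SkewMonoidAlgebra R G⦄
    (hx : x ∈ ctl D ((CR (blk B (S 0) U m) (c3_S S U)).rel k') a b) :
    x ∈ rs (ctl D ((CR B S).rel k'')) U' a.1 b.1 :=
  ⟨fun g => ⟨(hx g).1, fun e => ⟨((hx g).2 e).1.1, fun i => Fin.cases
    (c3_mono (hb.far a a.2 b b.2 g ((hx g).2 e).1.2.1 ((hx g).2 e).1.2.2) h2)
    (fun i => c3_mono (s := S i.succ) (((hx g).2 e).2 i) h1) i⟩⟩, fun _ => ⟨hU a.2, hU b.2⟩⟩

theorem blk_qt (hQ : ∀ (Λ : Type) (B : Gpd G Λ) (S : Fin N → Spi G Λ), (∀ a, QG C (B.grp a)) →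
      Qt (ctl (C.D I) ((CR B S).rel k)) (ctl (C.D I) ((CR B S).rel k')) (C.S G) K Std L L')
    (hb : Blk (S 0) U m k c) (hB : ∀ a, QG C ((blk B (S 0) U m).grp a)) (hU : U ⊆ U')
    (h1 : k' ≤ k'') (h2 : c ≤ k'') :
    Qt (rs (ctl (C.D I) ((CR B S).rel k)) U) (rs (ctl (C.D I) ((CR B S).rel k'')) U') (C.S G) K
      Std L L' := by
  intro X hX hL hS
  obtain ⟨X', h3, h4⟩ := restr hX
  exact h4.cert_iff.1 (Cert.relab (c3_out _ hb hU h1 h2)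
    (hQ U _ (c3_S S U) hB X' (h3.mono (c3_in _ hb)) (h4.wd hL) (h4.std hS)))

theorem blk_sn (hQ : ∀ (Λ : Type) (B : Gpd G Λ) (S : Fin N → Spi G Λ), (∀ a, QG C (B.grp a)) →
      ∀ X, Ok (ctl (C.D I) ((CR B S).rel k)) X → Bd L X →
        ∃ Y, Ok (ctl (C.D I) ((CR B S).rel k')) Y ∧ Std Y ∧ Bd L' Y ∧
          HE (ctl (C.D I) ((CR B S).rel k')) X Y)
    (hb : Blk (S 0) U m k c) (hB : ∀ a, QG C ((blk B (S 0) U m).grp a)) (hU : U ⊆ U')
    (h1 : k' ≤ k'') (h2 : c ≤ k'') (X : Cx (SkewMonoidAlgebra R G) Λ)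
    (hX : Ok (rs (ctl (C.D I) ((CR B S).rel k)) U) X) (hL : Bd L X) :
    ∃ Y, Ok (rs (ctl (C.D I) ((CR B S).rel k'')) U') Y ∧ Std Y ∧ Bd L' Y ∧
      HE (rs (ctl (C.D I) ((CR B S).rel k'')) U') X Y := by
  obtain ⟨X', h3, h4⟩ := restr ((obj_empty (S := C.S G)).2 hX)
  obtain ⟨Y, a1, a2, a3, a4⟩ := hQ U _ (c3_S S U) hB X' (h3.ok.mono (c3_in _ hb)) (h4.wd hL)
  exact ⟨Y.lab Subtype.val, a1.lab (c3_out _ hb hU h1 h2), a2, a3,
    h4.he_left.1 (a4.relab (c3_out _ hb hU h1 h2))⟩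

/-- The slabs of a given parity. -/
def slab (s : Spi G Λ) (w T k : ℕ) : Set Λ :=
  {a | ∃ n, n % 2 = T ∧ n * w ≤ s.ht a + k ∧ s.ht a < (n + 1) * w + k}

variable {s : Spi G Λ} {w : ℕ}

theorem slab_mono (s : Spi G Λ) (w T : ℕ) : Monotone (slab s w T) := by
  rintro k k' h a ⟨n, h1, h2, h3⟩
  exact ⟨n, h1, by omega, by omega⟩

theorem slab_near {T j : ℕ} {a b : Λ} (h : s.ht b ≤ s.ht a + j) (h' : s.ht a ≤ s.ht b + j)
    (ha : a ∈ slab s w T k) : b ∈ slab s w T (k + j) := by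
  obtain ⟨n, h1, h2, h3⟩ := ha
  exact ⟨n, h1, by omega, by omega⟩

theorem slab_cover (hw : 0 < w) (a : Λ) : a ∈ slab s w 0 0 ∨ a ∈ slab s w 1 0 :=
  (Nat.mod_two_eq_zero_or_one (s.ht a / w)).imp
    (fun h => ⟨_, h, Nat.div_mul_le_self _ _, (Nat.div_lt_iff_lt_mul hw).1 (Nat.lt_succ_self _)⟩)
    fun h => ⟨_, h, Nat.div_mul_le_self _ _, (Nat.div_lt_iff_lt_mul hw).1 (Nat.lt_succ_self _)⟩

theorem c3_lt {n n' : ℕ} (h : n * w < n' * w + w + w) : n < n' + 2 :=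
  Nat.lt_of_mul_lt_mul_right (a := w) (by rw [add_mul]; omega)

theorem c3_le {n n' : ℕ} (h : n * w < n' * w + w) : n ≤ n' :=
  Nat.lt_succ_iff.1 (Nat.lt_of_mul_lt_mul_right (a := w) (by rwa [Nat.succ_mul]))

theorem slab_blk (hw : 3 * k < w) (T : ℕ) : ∃ m, Blk s (slab s w T k) m k (2 * w + 2 * k) := by
  have h : ∀ a, ∃ n, a ∈ slab s w T k →
      n % 2 = T ∧ n * w ≤ s.ht a + k ∧ s.ht a < n * w + w + k := fun a => by
    by_cases ha : a ∈ slab s w T k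
    · obtain ⟨n, h1, h2, h3⟩ := ha
      exact ⟨n, fun _ => ⟨h1, h2, by rwa [Nat.succ_mul] at h3⟩⟩
    · exact ⟨0, fun c => absurd c ha⟩
  choose m hm using h
  refine ⟨m, fun a ha b hb g h => ?_, fun a ha b hb g e h => ?_⟩
  · obtain ⟨a1, a2, a3⟩ := hm a ha
    obtain ⟨b1, b2, b3⟩ := hm b hb
    obtain ⟨c1, c2, c3⟩ := h
    have d1 := c3_lt (w := w) (n := m a) (n' := m b) (by omega)
    have d2 := c3_lt (w := w) (n := m b) (n' := m a) (by omega)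
    refine ⟨by omega, fun e => by_contra fun e' => e ?_⟩
    have := c3 e'
    exact Nat.le_zero.1 (c3_le (w := w) (by omega))
  · obtain ⟨a1, a2, a3⟩ := hm a ha
    obtain ⟨b1, b2, b3⟩ := hm b hb
    rw [← e] at b2 b3
    refine ⟨by omega, by omega, fun e' => ?_⟩
    have : m a = 0 := by_contra fun c => e' (h c)
    rw [this] at a3 b3
    omega

theorem c3_zone (hw : 3 * k < w) {a : Λ} (ha : a ∈ slab s w 0 k ∩ slab s w 1 k) :
    ∃ c, (s.ht a + k) / w = c ∧ 1 ≤ c ∧ c * w ≤ s.ht a + k ∧ s.ht a < c * w + k := by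
  have key : ∀ n n', n < n' → n' * w ≤ s.ht a + k → s.ht a < (n + 1) * w + k →
      ∃ c, (s.ht a + k) / w = c ∧ 1 ≤ c ∧ c * w ≤ s.ht a + k ∧ s.ht a < c * w + k :=
    fun n n' h h1 h2 => by
      have := Nat.mul_le_mul_right w (show n + 1 ≤ n' from h)
      exact ⟨n', Nat.div_eq_of_lt_le h1 (by rw [Nat.succ_mul]; omega), by omega, h1, by omega⟩
  obtain ⟨⟨n, a1, a2, a3⟩, n', b1, b2, b3⟩ := ha
  rcases lt_or_gt_of_ne (show n ≠ n' by omega) with h | h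
  exacts [key n n' h b2 a3, key n' n h a2 b3]

theorem zone_blk (hw : 3 * k < w) :
    Blk s (slab s w 0 k ∩ slab s w 1 k) (fun a => (s.ht a + k) / w) k (2 * k) := by
  refine ⟨fun a ha b hb g h => ?_, fun a ha b hb g e h => ?_⟩
  · obtain ⟨c, a1, a2, a3, a4⟩ := c3_zone hw ha
    obtain ⟨d, b1, b2, b3, b4⟩ := c3_zone hw hb
    obtain ⟨c1, c2, c3⟩ := h
    refine ⟨a1.trans ((le_antisymm (c3_le (w := w) (by omega))
      (c3_le (w := w) (by omega))).trans b1.symm), fun _ => by_contra fun e' => ?_⟩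
    have := c3 e'
    have := Nat.mul_le_mul_right w a2
    omega
  · obtain ⟨c, a1, a2, a3, a4⟩ := c3_zone hw ha
    obtain ⟨d, b1, b2, b3, b4⟩ := c3_zone hw hb
    obtain rfl : c = d := a1.symm.trans (e.trans b1)
    exact ⟨by omega, by omega, fun e' => absurd (h (by omega)) e'⟩

theorem zone_blk1 (hw : 3 * k < w) :
    Blk s ({a | s.ht a ≤ w + k} ∩ {a | w ≤ s.ht a + k}) (fun _ => 1) k (2 * k) := by
  refine ⟨fun a ha b _ g h => ⟨rfl, fun _ => by_contra fun e => ?_⟩, fun a ha b hb g _ h => ?_⟩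
  · have a1 : w ≤ s.ht a + k := ha.2
    have := h.2.2 e
    omega
  · have a1 : s.ht a ≤ w + k := ha.1
    have a2 : w ≤ s.ht a + k := ha.2
    have b1 : s.ht b ≤ w + k := hb.1
    have b2 : w ≤ s.ht b + k := hb.2
    exact ⟨by omega, by omega, fun e => absurd (h one_ne_zero) e⟩

end Pool.Agent.MP_f7db47_al.KN
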