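import Pool.Agent.MP_f7db47_al.KN.M3
import Pool.Agent.MP_f7db47_al.KN.A14

/-!
Cutting a sequence of complexes.
-/

namespace Pool.Agent.MP_f7db47_al.KN

open Matrix Filter

universe v w

variable {A : Type v} [Ring A] {Λ : ℕ → Type} {ι : Type} {𝓗 : ∀ ν, ℕ → Fam A (Λ ν)}
  {S : ι → Submonoid A} {K : Finset ι} {U U₁ U₂ : ∀ ν, ℕ → Set (Λ ν)}

/-- The slanted cut. -/
theorem slant {Λ : Type} {H : Fam A Λ} {U₁ : ℕ → Set Λ} {U₂ : Set Λ} (hm : Monotone U₁) {k L : ℕ}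
    (hs : ∀ j ⦃a b x⦄, x ∈ H a b → x ≠ 0 → b ∈ U₁ j → a ∈ U₁ (j + k))
    (hc : ∀ a, a ∈ U₁ 0 ∨ a ∈ U₂) {X : Cx A Λ} (hX : Ok H X) (hL : Bd L X) (hd : Std X) :
    ∃ e, Cut H X e ∧ Hm (rs H (U₁ (2 * L * k))) 0 X.t X.t e ∧ Hm (rs H U₂) 0 X.t X.t (X.p - e) ∧
      Std (X.re e 0) ∧ Std (X.re (X.p - e) 0) := by
  classical
  let V : Set X.J := {j | (X.t j).1 ∈ U₁ (((L : ℤ) - (X.t j).2).toNat * k)}
  have dg : ∀ {i j}, X.p i j ≠ 0 → i = j := fun {i j} h => by_contra fun c => h (hd.1 i j c)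
  have comm : X.p * ind A V = ind A V * X.p := by
    ext i j
    rw [ind_mul_apply, mul_ind_apply]
    by_cases c : i = j
    · rw [c]
    · simp [hd.1 i j c]
  have vv : ind A V * ind A V = ind A V := by rw [ind_mul_ind, Set.inter_self]
  have dv : ind A V * (X.D * ind A V) = X.D * ind A V := by
    ext i j
    rw [ind_mul_apply, mul_ind_apply]
    split_ifs with h1 h2
    · rfl
    · rfl
    · by_contra c
      have c' : X.D i j ≠ 0 := fun e => c e.symm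
      have e1 := (hX.hD i j).2 c'
      have e2 := hL j
      have e3 : ((L : ℤ) - (X.t i).2).toNat = ((L : ℤ) - (X.t j).2).toNat + 1 := by
        have := e2.2
        omega
      refine h1 ?_
      change _ ∈ U₁ _
      rw [e3, add_mul, one_mul]
      exact hs _ (hX.hD i j).1 c' ‹_›
    · rfl
  have he : Hm H 0 X.t X.t (ind A V * X.p) := hX.hp.ind_mul V
  refine ⟨ind A V * X.p, ⟨he, ?_, ?_, ?_, ?_⟩, fun i j => ⟨⟨(he i j).1, fun c => ?_⟩, (he i j).2⟩,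
    fun i j => ⟨⟨((hX.hp.sub he) i j).1, fun c => ?_⟩, ((hX.hp.sub he) i j).2⟩,
    ⟨fun i j c => ?_, fun i => ?_⟩, fun i j c => ?_, fun i => ?_⟩
  · rw [Matrix.mul_assoc, ← Matrix.mul_assoc X.p, comm, Matrix.mul_assoc, hX.pp,
      ← Matrix.mul_assoc, vv]
  · rw [← Matrix.mul_assoc, comm, Matrix.mul_assoc, hX.pp]
  · rw [Matrix.mul_assoc, hX.pp]
  · rw [Matrix.mul_assoc _ X.p, hX.pD, ← Matrix.mul_assoc, Matrix.mul_assoc _ X.D, dv,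
      Matrix.mul_assoc]
  · rw [ind_mul_apply] at c
    split_ifs at c with h
    · obtain rfl := dg c
      have : (X.t i).1 ∈ U₁ (2 * L * k) := hm (Nat.mul_le_mul_right k (by
        have := (hL i).1
        omega)) h
      exact ⟨this, this⟩
    · exact absurd rfl c
  · rw [Matrix.sub_apply, ind_mul_apply] at c
    split_ifs at c with h
    · exact absurd (sub_self _) c
    · obtain rfl := dg (by rwa [sub_zero] at c)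
      have := (hc (X.t i).1).resolve_left fun d => h (hm (Nat.zero_le _) d)
      exact ⟨this, this⟩
  · change (ind A V * X.p) i j = 0
    rw [ind_mul_apply, hd.1 i j c, ite_self]
  · change (ind A V * X.p) i i = 1 ∨ (ind A V * X.p) i i = 0
    rw [ind_mul_apply]
    split_ifs
    exacts [hd.2 i, Or.inr rfl]
  · change (X.p - ind A V * X.p) i j = 0
    rw [Matrix.sub_apply, ind_mul_apply, hd.1 i j c, ite_self, sub_self]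
  · change (X.p - ind A V * X.p) i i = 1 ∨ (X.p - ind A V * X.p) i i = 0
    rw [Matrix.sub_apply, ind_mul_apply]
    split_ifs
    · exact Or.inr (sub_self _)
    · rw [sub_zero]
      exact hd.2 i

/-- The slanted cut for a folded complex. -/
theorem m4_slant {Λ : Type} {H : Fam A Λ} {U₁ : ℕ → Set Λ} {U₂ : Set Λ} (hm : Monotone U₁)
    {k L : ℕ} (hs : ∀ j ⦃a b x⦄, x ∈ H a b → x ≠ 0 → b ∈ U₁ j → a ∈ U₁ (j + k))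
    (hc : ∀ a, a ∈ U₁ 0 ∨ a ∈ U₂) {Z : Cx (Opn A) (Lab Λ)} (hZ : Ok (fold H) Z) (hL : Bd L Z)
    (hd : Std (unf Z)) :
    ∃ e, Cut (fold H) Z e ∧ Hm (fold (rs H (U₁ (2 * L * k)))) 0 Z.t Z.t e ∧
      Hm (fold (rs H U₂)) 0 Z.t Z.t (Z.p - e) ∧
      StdE (CP A) (Z.re e 0) ∧ StdE (CP A) (Z.re (Z.p - e) 0) := by
  obtain ⟨e, c1, c2, c3, c4, c5⟩ := slant hm hs hc (X := unf Z) (hZ.fn (unfFn H)) (wd_unf hL) hd
  obtain ⟨f, f1, f2⟩ := (unf_ff _).mat_surj c2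
  obtain ⟨g, g1, g2⟩ := (unf_ff _).mat_surj c3
  have f3 := f1.mono (fold_mono (rs_le _ _))
  have g3 := g1.mono (fold_mono (rs_le _ _))
  have f4 : (unfFn H).mat Z.t Z.t f = e := f2
  have g4 : (unfFn H).mat Z.t Z.t g = (unfFn H).mat Z.t Z.t Z.p - e := g2
  have e1 : Z.p - f = g := by
    refine (unf_ff H).mat_inj ((hZ.hp.sub f3).mono (unf_ff H).le) (g3.mono (unf_ff H).le) ?_
    rw [sub_eq_add_neg, Fn.mat_add, Fn.mat_neg, f4, g4, sub_eq_add_neg]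
  refine ⟨f, Cut.of_fn (unf_ff H) hZ f3 (f4 ▸ c1), f1, e1 ▸ g1, ?_, ?_⟩
  · refine (std_unf (Z := Z.re f 0) f3).1 ?_
    subst f4
    exact c4
  · rw [e1]
    refine (std_unf (Z := Z.re g 0) g3).1 ?_
    have : Std ((unf Z).re ((unfFn H).mat Z.t Z.t g) 0) := g4 ▸ c5
    exact this

theorem m4_stdE {B : Type v} [Ring B] {Λ : Type} {E : Set B} {X Y : Cx B Λ}
    (hX : StdE E X) (hY : StdE E Y) (t : Matrix X.J Y.J B) : StdE E (X.ext Y t) := by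
  refine ⟨?_, ?_⟩
  · rintro (i | i) (j | j) c
    exacts [hX.1 i j fun e => c (congrArg _ e), rfl, rfl, hY.1 i j fun e => c (congrArg _ e)]
  · rintro (i | i)
    exacts [hX.2 i, hY.2 i]

/-- Unfolding the terms of a germ. -/
theorem m4_down (hG : ∀ ν, Gr (𝓗 ν) S) (hU : Reg 𝓗 U) {Y : SX (Opn A) fun ν => Lab (Λ ν)}
    (h : Obj (gF (rsq 𝓗 U)) (gS (fS S)) K Y.germ) (hs : StdE (gE (CP A)) Y.germ) :
    ∃ k, ∀ᶠ ν in atTop, Obj (rs (𝓗 ν k) (U ν k)) S K (unf (Y.tm ν)) ∧ Std (unf (Y.tm ν)) ∧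
      Ok (fold (𝓗 ν k)) (Y.tm ν) := by
  obtain ⟨k, hk⟩ := (obj_germ fun ν => ((hG ν).rs (hU.mono ν)).fold.mono).1 h
  refine ⟨k, (hk.and (stdE_germ.1 hs)).mono fun ν c => ⟨?_, (std_unf c.1.ok.hp).2 c.2,
    c.1.ok.mono (fold_mono (rs_le _ _))⟩⟩
  exact c.1.fn (unfFn _) (unf_lin _ S)

theorem m4_fin (hG : ∀ ν, Gr (𝓗 ν) S) (r1 : Reg 𝓗 U₁) (r2 : Reg 𝓗 U₂)
    {X : SX (Opn A) fun ν => Lab (Λ ν)} {Y₁ Y₂ : Cx (Gm (Opn A)) (∀ ν, Lab (Λ ν))}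
    {τ : Matrix Y₁.J Y₂.J (Gm (Opn A))} (hX : Ok (gF 𝓗) X.germ)
    (d1 : Obj (gF (rsq 𝓗 U₁)) (gS (fS S)) K Y₁) (d2 : Obj (gF (rsq 𝓗 U₂)) (gS (fS S)) K Y₂)
    (s1 : StdE (gE (CP A)) Y₁) (s2 : StdE (gE (CP A)) Y₂) (d3 : Tw (gF 𝓗) Y₁ Y₂ τ)
    (d4 : HE (gF 𝓗) (Y₁.ext Y₂ τ) X.germ) :
    ∃ k' L' : ℕ, ∀ᶠ ν in atTop, ∃ (Y₁ Y₂ : Cx A (Λ ν)) (τ : Matrix Y₁.J Y₂.J A),
      Obj (rs (𝓗 ν k') (U₁ ν k')) S K Y₁ ∧ Obj (rs (𝓗 ν k') (U₂ ν k')) S K Y₂ ∧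
      Std Y₁ ∧ Std Y₂ ∧ Bd L' Y₁ ∧ Bd L' Y₂ ∧ Tw (𝓗 ν k') Y₁ Y₂ τ ∧
      HE (𝓗 ν k') (Y₁.ext Y₂ τ) (unf (X.tm ν)) := by
  have mH : ∀ ν, Monotone fun k => fold (𝓗 ν k) := fun ν => (hG ν).fold.mono
  obtain ⟨L, hL⟩ := exists_bd (Y₁.ext Y₂ τ)
  obtain ⟨Y₁, rfl⟩ := SX.surj Y₁
  obtain ⟨Y₂, rfl⟩ := SX.surj Y₂
  obtain ⟨τ, rfl⟩ := gm_surj τ
  rw [← SX.germ_ext] at d4
  obtain ⟨k₁, e1⟩ := m4_down hG r1 d1 s1
  obtain ⟨k₂, e2⟩ := m4_down hG r2 d2 s2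
  obtain ⟨k₃, e3⟩ := (tw_germ mH).1 d3
  obtain ⟨k₄, e4⟩ := (he_germ mH).1 d4
  obtain ⟨k₅, e5⟩ := (ok_germ mH).1 hX
  refine ⟨k₁ + k₂ + k₃ + k₄ + k₅, L, ?_⟩
  filter_upwards [e1, e2, e3, e4, e5] with ν f1 f2 f3 f4 f5
  rw [SX.tm_ext] at f4
  generalize hk : k₁ + k₂ + k₃ + k₄ + k₅ = k
  have g1 := f1.2.2.mono (mH ν (show k₁ ≤ k by omega))
  have g2 := f2.2.2.mono (mH ν (show k₂ ≤ k by omega))
  have g3 := f3.mono (mH ν (show k₃ ≤ k by omega))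
  have g4 := f4.mono (mH ν (show k₄ ≤ k by omega))
  have g5 := f5.mono (mH ν (show k₅ ≤ k by omega))
  have g6 := (sub_fn_ext (unfFn _) (τ ν)).1.he_left.1 (g4.fn (unfFn _) (g1.ext g2 g3) g5)
  exact ⟨unf (Y₁.tm ν), unf (Y₂.tm ν), _,
    f1.1.mono (rs_mono ((hG ν).mono (by omega)) (r1.mono ν (by omega))),
    f2.1.mono (rs_mono ((hG ν).mono (by omega)) (r2.mono ν (by omega))), f1.2.1, f2.2.1,
    wd_unf fun j => hL (.inl j), wd_unf fun j => hL (.inr j), g3.fn (unfFn _) g1 g2, g6⟩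

theorem gcut {κ : Type w} (𝓗 : κ → ∀ ν, ℕ → Fam A (Λ ν)) (hG : ∀ I ν, Gr (𝓗 I ν) S) (hu : Uni S)
    (h1 : ∀ I ν k a, (1 : A) ∈ 𝓗 I ν k a a)
    (hl : ∀ a I, ∃ I', ∀ ν k, IsLoc (𝓗 I ν k) (S a) (𝓗 I' ν k))
    (r1 : ∀ I, Reg (𝓗 I) U₁) (r2 : ∀ I, Reg (𝓗 I) U₂) (hc : ∀ ν a, a ∈ U₁ ν 0 ∨ a ∈ U₂ ν 0)
    (hs : ∀ I, SQ (rsq (𝓗 I) fun ν k => U₁ ν k ∩ U₂ ν k))
    (hq : ∀ I K, CQ (rsq (𝓗 I) fun ν k => U₁ ν k ∩ U₂ ν k) S K)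
    (I : κ) (K : Finset ι) (k L : ℕ) (X : ∀ ν, Cx A (Λ ν))
    (hX : ∀ ν, Obj (𝓗 I ν k) S K (X ν) ∧ Bd L (X ν) ∧ Std (X ν)) :
    ∃ k' L' : ℕ, ∀ᶠ ν in atTop, ∃ (Y₁ Y₂ : Cx A (Λ ν)) (τ : Matrix Y₁.J Y₂.J A),
      Obj (rs (𝓗 I ν k') (U₁ ν k')) S K Y₁ ∧ Obj (rs (𝓗 I ν k') (U₂ ν k')) S K Y₂ ∧
      Std Y₁ ∧ Std Y₂ ∧ Bd L' Y₁ ∧ Bd L' Y₂ ∧ Tw (𝓗 I ν k') Y₁ Y₂ τ ∧
      HE (𝓗 I ν k') (Y₁.ext Y₂ τ) (X ν) := by
  have rz := fun I => (r1 I).inter (r2 I)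
  have gz : ∀ I ν, Gr (rsq (𝓗 I) (fun ν k => U₁ ν k ∩ U₂ ν k) ν) S :=
    fun I ν => (hG I ν).rs ((rz I).mono ν)
  have mH : ∀ ν, Monotone fun k => fold (𝓗 I ν k) := fun ν => (hG I ν).fold.mono
  have m1 : ∀ ν, Monotone fun k => fold (rs (𝓗 I ν k) (U₁ ν k)) :=
    fun ν => ((hG I ν).rs ((r1 I).mono ν)).fold.mono
  have m2 : ∀ ν, Monotone fun k => fold (rs (𝓗 I ν k) (U₂ ν k)) :=
    fun ν => ((hG I ν).rs ((r2 I).mono ν)).fold.mono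
  choose μ p D b1 b2 b3 using fun ν => exists_box (hX ν).1.ok (hX ν).2.1
  have b4 : ∀ ν, Obj (fold (𝓗 I ν k)) (fS S) K (box L (μ ν) (p ν) (D ν)) := fun ν =>
    (obj_unf (fun _ _ hw => (hG I ν).sc hw k) (b1 ν)).1 ((b2 ν).obj_iff.2 (hX ν).1)
  choose e c1 c2 c3 c4 c5 using fun ν => m4_slant ((r1 I).mono ν)
    (fun j _ _ _ hx c => ((r1 I).spread ν k j hx c).2) (hc ν) (b1 ν) (fun b => b.2)
    ((b2 ν).std (hX ν).2.2)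
  let 𝒳 : SX (Opn A) fun ν => Lab (Λ ν) := SX.box L μ p D
  have a1 : Obj (gF (𝓗 I)) (gS (fS S)) K 𝒳.germ := (obj_germ mH).2 ⟨k, .of_forall b4⟩
  have a2 : Cut (gF (𝓗 I)) 𝒳.germ (gm e) := (cut_germ mH).2 ⟨k, .of_forall c1⟩
  have a3 : Hm (gF (rsq (𝓗 I) U₁)) 0 𝒳.germ.t 𝒳.germ.t (gm e) :=
    (hm_gm m1).2 ⟨max k (2 * L * k), .of_forall fun ν => (c2 ν).mono (fold_mono
      (rs_mono ((hG I ν).mono (le_max_left _ _)) ((r1 I).mono ν (le_max_right _ _))))⟩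
  have a4 : Hm (gF (rsq (𝓗 I) U₂)) 0 𝒳.germ.t 𝒳.germ.t (𝒳.germ.p - gm e) := by
    change Hm _ 0 _ _ (gm p - gm e)
    rw [gm_sub]
    exact (hm_gm m2).2 ⟨k, .of_forall fun ν => (c3 ν).mono (fold_mono
      (rs_mono le_rfl ((r2 I).mono ν (Nat.zero_le _))))⟩
  have a5 : StdE (gE (CP A)) (𝒳.germ.sub (gm e)) :=
    (stdE_germ (X := SX.box L μ e fun _ => 0)).2 (.of_forall c4)
  have a6 : StdE (gE (CP A)) (𝒳.germ.quo (gm e)) := by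
    have := (stdE_germ (X := SX.box L μ (fun ν => p ν - e ν) fun _ => 0)).2 (.of_forall c5)
    change StdE _ (𝒳.germ.re (gm fun ν => p ν - e ν) (gm fun _ => 0)) at this
    rw [← gm_sub] at this
    exact this
  obtain ⟨Z, t₁, t₂, τ, d0, d1, d2, d3, d4⟩ := cut (gF_good (hG I)) (gF_good (gz I))
    (gS_uni hu.fold) (gF_idl (hG I) (rz I)) (gF_idl (hG I) (r1 I)) (gF_idl (hG I) (r2 I))
    (gF_rs_le (hG I) (r1 I) fun _ _ => Set.inter_subset_left)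
    (gF_rs_le (hG I) (r2 I) fun _ _ => Set.inter_subset_right)
    (gF_cross (hG I) (r1 I) (r2 I)) (gF_lu (hG I) (rz I) (h1 I))
    (fun a _ => (hl a I).elim fun I' h => ⟨_, gF_loc (hG I) hu (rz I) h,
      fun K' _ _ => gnull (gz I') (hs I') (hq I' K')⟩)
    (gstd (gz I) (hs I)) a1 a2 a3 a4
  obtain ⟨k', L', h⟩ := m4_fin (hG I) (r1 I) (r2 I) a1.ok d1 d2
    (m4_stdE a5 (Y := Z.sh (-1)) d0 t₁) (m4_stdE a6 d0 t₂) d3 d4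
  refine ⟨k', L', h.mono fun ν ⟨Y₁, Y₂, τ, f1, f2, f3, f4, f5, f6, f7, f8⟩ => ?_⟩
  exact ⟨Y₁, Y₂, τ, f1, f2, f3, f4, f5, f6, f7, (b2 ν).he_right.1 f8⟩

end Pool.Agent.MP_f7db47_al.KN
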