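import Pool.Agent.MP_f7db47_al.KN.XN
import Pool.Agent.MP_f7db47_al.KN.C2
import Pool.Agent.MP_f7db47_al.KN.C3
import Pool.Agent.MP_f7db47_al.KN.M4

/-!
Controlled certificates over spiders.
-/

namespace Pool.Agent.MP_f7db47_al.KN

open Matrix GN Filter

universe v w

variable {ι : Type} {κ : Type w} {R : Type v} [Ring R] {G : Type} [Group G]
  [MulSemiringAction G R] {Λ : Type} (C : Coef ι κ R) [C.Inv G]

theorem c4_ex {D : Subring R} {r : Λ → G → Λ → Prop} {a b : Λ} {x : SkewMonoidAlgebra R G}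
    (hx : x ∈ ctl D r a b) (h : x ≠ 0) : ∃ g, r a g b :=
  by_contra fun e => h (SkewMonoidAlgebra.ext fun g => by_contra fun e1 => e ⟨g, (hx g).2 e1⟩)

theorem c4_reg {N : ℕ} {Λ : ℕ → Type} (D : Subring R) (B : ∀ ν, Gpd G (Λ ν))
    (S : ∀ ν, Fin (N + 1) → Spi G (Λ ν)) {U : ∀ ν, ℕ → Set (Λ ν)} (h1 : ∀ ν, Monotone (U ν))
    (h2 : ∀ ν j k a b, (S ν 0).ht b ≤ (S ν 0).ht a + j → (S ν 0).ht a ≤ (S ν 0).ht b + j →
      a ∈ U ν k → b ∈ U ν (k + j)) : Reg (fun ν k => ctl D ((CR (B ν) (S ν)).rel k)) U :=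
  ⟨h1, fun ν j k a b _ hx e => by
    obtain ⟨g, -, hg⟩ := c4_ex hx e
    exact ⟨h2 ν j k a b (hg 0).2.1 (hg 0).1, h2 ν j k b a (hg 0).1 (hg 0).2.1⟩⟩

/-- The cut along the first spider. -/
theorem c4_cut {N : ℕ} (h : QN G C N) {Λ : ℕ → Type} (B : ∀ ν, Gpd G (Λ ν))
    (S : ∀ ν, Fin (N + 1) → Spi G (Λ ν)) {U₁ U₂ : ∀ ν, ℕ → Set (Λ ν)}
    (m1 : ∀ ν, Monotone (U₁ ν)) (m2 : ∀ ν, Monotone (U₂ ν))
    (n1 : ∀ ν j k a b, (S ν 0).ht b ≤ (S ν 0).ht a + j → (S ν 0).ht a ≤ (S ν 0).ht b + j →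
      a ∈ U₁ ν k → b ∈ U₁ ν (k + j))
    (n2 : ∀ ν j k a b, (S ν 0).ht b ≤ (S ν 0).ht a + j → (S ν 0).ht a ≤ (S ν 0).ht b + j →
      a ∈ U₂ ν k → b ∈ U₂ ν (k + j)) (hc : ∀ ν a, a ∈ U₁ ν 0 ∨ a ∈ U₂ ν 0)
    (hz : ∀ k, ∀ᶠ ν in atTop, ∃ m, Blk (S ν 0) (U₁ ν k ∩ U₂ ν k) m k (2 * k) ∧
      ∀ a, QG C ((blk (B ν) (S ν 0) (U₁ ν k ∩ U₂ ν k) m).grp a))
    (I : κ) (K : Finset ι) (k L : ℕ) (X : ∀ ν, Cx (SkewMonoidAlgebra R G) (Λ ν))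
    (hX : ∀ ν, Obj (ctl (C.D I) ((CR (B ν) (S ν)).rel k)) (C.S G) K (X ν) ∧ Bd L (X ν) ∧
      Std (X ν)) :
    ∃ k' L' : ℕ, ∀ᶠ ν in atTop, ∃ (Y₁ Y₂ : Cx (SkewMonoidAlgebra R G) (Λ ν))
      (τ : Matrix Y₁.J Y₂.J (SkewMonoidAlgebra R G)),
      Obj (rs (ctl (C.D I) ((CR (B ν) (S ν)).rel k')) (U₁ ν k')) (C.S G) K Y₁ ∧
      Obj (rs (ctl (C.D I) ((CR (B ν) (S ν)).rel k')) (U₂ ν k')) (C.S G) K Y₂ ∧
      Std Y₁ ∧ Std Y₂ ∧ Bd L' Y₁ ∧ Bd L' Y₂ ∧ Tw (ctl (C.D I) ((CR (B ν) (S ν)).rel k')) Y₁ Y₂ τ ∧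
      HE (ctl (C.D I) ((CR (B ν) (S ν)).rel k')) (Y₁.ext Y₂ τ) (X ν) := by
  have hU : ∀ ν {k k'}, k ≤ k' → U₁ ν k ∩ U₂ ν k ⊆ U₁ ν k' ∩ U₂ ν k' := fun ν _ _ e =>
    Set.inter_subset_inter (m1 ν e) (m2 ν e)
  refine gcut (fun I ν k => ctl (C.D I) ((CR (B ν) (S ν)).rel k)) (fun I _ => C.gr I _) C.uni
    (fun _ ν _ a => one_mem_ctl _ ((CR (B ν) (S ν)).mono (Nat.zero_le _) ((CR _ _).refl a)))
    (fun a I => (C.isLoc a I).imp fun _ c _ _ => c _ _) (fun _ => c4_reg _ B S m1 n1)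
    (fun _ => c4_reg _ B S m2 n2) hc (fun I k L => ?_) (fun I K k L => ?_) I K k L X hX
  · obtain ⟨k', hk⟩ := sn (G := G) C N I k L
    exact ⟨k' + 2 * k, L + 1, (hz k).mono fun ν ⟨_, c1, c2⟩ =>
      blk_sn hk c1 c2 (hU ν (by omega)) (by omega) (by omega)⟩
  · obtain ⟨k', L', hk⟩ := h I K k L
    exact ⟨k' + 2 * k, L', (hz k).mono fun ν ⟨_, c1, c2⟩ =>
      blk_qt hk c1 c2 (hU ν (by omega)) (by omega) (by omega)⟩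

theorem qn_succ {N : ℕ} (h : QN G C N) : QN G C (N + 1) := by
  intro I K k L
  by_contra hn
  simp only [not_exists, not_forall, Qt] at hn
  choose Λ B S hB X h1 h2 h3 h4 using fun ν => hn ν ν
  have hb : ∀ ν U m a, QG C ((blk (B ν) (S ν 0) U m).grp a) := fun ν U m a =>
    (hB ν a).le fun _ c => c.1
  obtain ⟨k₁, L₁, c⟩ := c4_cut C h B S (fun ν => slab_mono (S ν 0) (ν / 12 + 1) 0)
    (fun ν => slab_mono (S ν 0) (ν / 12 + 1) 1) (fun _ _ _ _ _ => slab_near)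
    (fun _ _ _ _ _ => slab_near) (fun _ => slab_cover (Nat.succ_pos _))
    (fun k => (eventually_ge_atTop (36 * k)).mono fun ν e =>
      ⟨_, zone_blk (by omega), hb ν _ _⟩) I K k L X fun ν => ⟨h1 ν, h2 ν, h3 ν⟩
  obtain ⟨k₂, L₂, c'⟩ := h I K k₁ L₁
  obtain ⟨ν, e, Y₁, Y₂, τ, a1, a2, b1, b2, d1, d2, ht, he⟩ :=
    ((eventually_ge_atTop (36 * k₁ + 6 * k₂ + L₁ + L₂ + 12)).and c).exists
  have hG := C.gr I (CR (B ν) (S ν))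
  have hm := hG.mono (show k₁ ≤ k₂ + (2 * (ν / 12 + 1) + 2 * k₁) by omega)
  have hW : ∀ {n : ℕ}, n ≤ ν → Set.Icc (-(n : ℤ)) n ⊆ Set.Icc (-(ν : ℤ)) ν := fun e =>
    Set.Icc_subset_Icc (by omega) (by omega)
  have key : ∀ T Y, Obj (rs (ctl (C.D I) ((CR (B ν) (S ν)).rel k₁))
      (slab (S ν 0) (ν / 12 + 1) T k₁)) (C.S G) K Y → Bd L₁ Y → Std Y →
      Cert (ctl (C.D I) ((CR (B ν) (S ν)).rel (k₂ + (2 * (ν / 12 + 1) + 2 * k₁)))) (C.S G) K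
        (Set.Icc (-(ν : ℤ)) ν) Y := fun T Y y1 y2 y3 => by
    obtain ⟨m, hm⟩ := slab_blk (s := S ν 0) (show 3 * k₁ < ν / 12 + 1 by omega) T
    exact (blk_qt c' hm (hb ν _ _) (Set.subset_univ _) (Nat.le_add_right _ _)
      (Nat.le_add_left _ _) Y y1 y2 y3).mono (rs_le _ _) (hW (by omega))
  exact h4 ν ((Cert.he_gr hG (Cert.ext_sc (fun _ _ hw => hG.sc hw _)
    (a1.mono ((rs_le _ _).trans hm)) (a2.mono ((rs_le _ _).trans hm)) (d1.mono (hW (by omega)))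
    (d2.mono (hW (by omega))) (ht.mono hm) (key _ _ a1 d1 b1) (key _ _ a2 d2 b2))
    (he.symm.mono hm)).mono (hG.mono (by omega)) subset_rfl)

theorem qn_all (N : ℕ) : QN G C N := by
  induction N with
  | zero => exact qn_zero C
  | succ N ih => exact qn_succ C ih

end Pool.Agent.MP_f7db47_al.KN
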