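import Pool.Agent.MP_f7db47_al.KN.C4

/-!
The vanishing theorem.
-/

namespace Pool.Agent.MP_f7db47_al.KN

open Matrix GN Filter

universe v w

variable {ι : Type} {κ : Type w} {R : Type v} [Ring R] {G : Type} [Group G]
  [MulSemiringAction G R] {Λ : Type} (C : Coef ι κ R) [C.Inv G]

theorem vn_succ {N : ℕ} (h : VN G C N) : VN G C (N + 1) := by
  intro I K k L
  by_contra hn
  simp only [not_exists, not_forall, VV] at hn
  choose Λ S hS hr X h1 h2 h3 h4 using hn
  have hb : ∀ ν (U : Set (Λ ν)) (a : U), 0 < (S ν 0).ht a →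
      QG C ((blk (Gpd.full G _) (S ν 0) U fun _ => 1).grp a) := fun ν U a e =>
    (hS ν 0 a e).le fun _ c => c.2.2 one_ne_zero
  obtain ⟨k₁, L₁, c⟩ := c4_cut C (qn_all C N) (fun ν => Gpd.full G (Λ ν)) S
    (U₁ := fun ν k => {a | (S ν 0).ht a ≤ ν / 2 + k})
    (U₂ := fun ν k => {a | ν / 2 ≤ (S ν 0).ht a + k})
    (fun _ _ _ e _ c => c.trans (Nat.add_le_add_left e _))
    (fun _ _ _ e _ c => le_trans c (Nat.add_le_add_left e _))
    (fun _ _ _ _ _ c1 c2 c3 => by simp only [Set.mem_ofPred_eq] at c3 ⊢; omega)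
    (fun _ _ _ _ _ c1 c2 c3 => by simp only [Set.mem_ofPred_eq] at c3 ⊢; omega)
    (fun ν a => le_total ((S ν 0).ht a) (ν / 2))
    (fun k => (eventually_ge_atTop (6 * k + 2)).mono fun ν e =>
      ⟨_, zone_blk1 (by omega), fun a => hb ν _ a (by
        have := a.2.2
        simp only [Set.mem_ofPred_eq] at this
        omega)⟩) I K k L X
    fun ν => ⟨(h1 ν).mono fun _ _ _ hx g => ⟨(hx g).1, fun e => ⟨trivial, (hx g).2 e⟩⟩, h2 ν, h3 ν⟩
  obtain ⟨r, c'⟩ := h I K k₁ L₁
  obtain ⟨ν, e, Y₁, Y₂, τ, a1, a2, b1, b2, d1, -, ht, he⟩ :=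
    ((eventually_ge_atTop (6 * k₁ + r + 2)).and c).exists
  have hG := (C.sca (G := G) I).good
  obtain ⟨Z₁, z1, s1⟩ := restr a1
  obtain ⟨Z₂, z2, s2⟩ := restr a2
  have p1 := c' _ (fun i => (S ν i.succ).pull (MonoidHom.id G) Subtype.val)
    (fun i a e => (hS ν i.succ a.1 e).le fun _ c => c) (fun a => by
      obtain ⟨i, hi⟩ := hr ν a.1
      have := a.2
      simp only [Set.mem_ofPred_eq] at this
      induction i using Fin.cases with
      | zero => omega
      | succ i => exact ⟨i, le_trans (by omega) hi⟩) Z₁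
    (z1.mono fun _ _ _ hx g => ⟨(hx g).1, fun e i => ((hx g).2 e).2 i.succ⟩) (s1.wd d1) (s1.std b1)
  have p2 := null_gpd C (blk (Gpd.full G _) (S ν 0) _ fun _ => 1) (fun a => (hb ν _ a (by
      have := a.2
      simp only [Set.mem_ofPred_eq] at this
      omega)).2 _ le_rfl) I K Z₂ (z2.mono fun a b _ hx g => ⟨(hx g).1, fun e =>
      ⟨trivial, rfl, fun _ => by_contra fun e1 => by
        have := (((hx g).2 e).2 0).2.2 e1
        have h1 := a.2
        have h2 := b.2
        simp only [Set.mem_ofPred_eq] at h1 h2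
        omega⟩⟩)
  have he' := he.symm.relab ctl_ful
  rw [lab_ext] at he'
  exact h4 ν (Cert.he hG.mul (Cert.ext hG ((a1.mono (rs_le _ _)).lab ctl_ful)
    ((a2.mono (rs_le _ _)).lab ctl_ful) (Wd.univ _) (Wd.univ _) (ht.relab ctl_ful)
    ((s1.lab _).cert_iff.1 p1) ((s2.lab _).cert_iff.1 (p2.relab ctl_ful :))) he')

theorem van (N : ℕ) : VN G C N := by
  induction N with
  | zero =>
    refine fun I K k L => ⟨0, fun Λ S _ h X _ _ _ => ?_⟩
    have : IsEmpty (X.lab fun _ => ()).J := ⟨fun j => (h (X.t j).1).elim fun i _ => i.elim0⟩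
    exact Cert.of_empty
  | succ N ih => exact vn_succ C ih

end Pool.Agent.MP_f7db47_al.KN
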