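import Pool.Agent.MP_f7db47_al.KN.XV
import Pool.Agent.MP_f7db47_al.TW.OOp

/-!
Folding of index sets and germs of sequences: definitions.
-/

namespace Pool.Agent.MP_f7db47_al.KN

open Matrix Filter OB

universe v w

section

variable {A : Type v} [Ring A] {Λ ι : Type}

/-- The elements of `H` between labels in `U`. -/
def rs (H : Fam A Λ) (U : Set Λ) : Fam A Λ := fun a b =>
  { carrier := {x | x ∈ H a b ∧ (x ≠ 0 → a ∈ U ∧ b ∈ U)}
    zero_mem' := ⟨zero_mem _, fun h => absurd rfl h⟩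
    add_mem' := fun {x y} h h' => ⟨add_mem h.1 h'.1, fun e => by
      by_cases e1 : x = 0
      · exact h'.2 fun e2 => e (by rw [e1, e2, add_zero])
      · exact h.2 e1⟩
    neg_mem' := fun {x} h => ⟨neg_mem h.1, fun e => h.2 fun e1 => e (by rw [e1, neg_zero])⟩ }

/-- The idempotent is diagonal with entries in `E`. -/
def StdE (E : Set A) (X : Cx A Λ) : Prop := (∀ i j, i ≠ j → X.p i j = 0) ∧ ∀ i, X.p i i ∈ E

/-- Products of `H₁` and `H₂` lie in `H₃`. -/
def Mul3 (H₁ H₂ H₃ : Fam A Λ) : Prop :=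
  ∀ ⦃a b c : Λ⦄ ⦃x y : A⦄, x ∈ H₁ a b → y ∈ H₂ b c → x * y ∈ H₃ a c

/-- A fully faithful functor that extends to a labelled ring `T`. -/
structure Fn.FF {A' : Type w} [Ring A'] {Λ' : Type} {H : Fam A Λ} {G : Fam A' Λ'} (Φ : Fn H G)
    (T : Fam A Λ) : Prop where
  lr : LR T
  le : H ≤ T
  mul : ∀ ⦃a b c x y⦄, x ∈ T a b → y ∈ T b c → Φ.F a c (x * y) = Φ.F a b x * Φ.F b c y
  inj : ∀ ⦃a b x y⦄, x ∈ T a b → y ∈ T a b → Φ.F a b x = Φ.F a b y → x = y
  surj : ∀ a b (M : Matrix (Φ.κ a) (Φ.κ b) A'), (∀ i j, M i j ∈ G (Φ.lab a i) (Φ.lab b j)) →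
    ∃ x ∈ H a b, Φ.F a b x = M

/-- The integers of absolute value at most `L`. -/
abbrev Bx (L : ℕ) : Type := Set.Icc (-(L : ℤ)) L

/-- A complex with one index in each degree. -/
@[reducible] noncomputable def box (L : ℕ) (μ : Bx L → Λ) (p D : Matrix (Bx L) (Bx L) A) : Cx A Λ where
  J := Bx L
  t b := (μ b, b.1)
  p := p
  D := D

/-- A certificate whose three complexes have one index in each degree. -/
def CertB (H : Fam A Λ) (S : ι → Submonoid A) (K : Finset ι) (L : ℕ) (X : Cx A Λ) : Prop :=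
  ∃ (a b c : Bx L → Λ) (p D q E r F t t' : Matrix (Bx L) (Bx L) A),
    Simd H S K Set.univ (box L a p D) (box L b q E) (box L c r F) t t' ∧
    HE H ((box L a p D).ext (box L b q E) t) (X.sum (box L c r F)) ∧
    HE H ((box L a p D).ext (box L b q E) t') (box L c r F)

/-- Finite lists of labels. -/
structure Lab (Λ : Type) : Type where
  n : ℕ
  l : Fin n → Λ

instance : Nonempty (Lab Λ) := ⟨⟨0, Fin.elim0⟩⟩

/-- Column finite matrices. -/
def Opn (A : Type v) [Ring A] : Type v := Op A ℕ ℕ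

noncomputable instance : Ring (Opn A) := inferInstanceAs (Ring (Module.End Aᵐᵒᵖ (ℕ →₀ A)))

/-- The entries. -/
noncomputable def en (x : Opn A) : Matrix ℕ ℕ A := ent (show Op A ℕ ℕ from x)

theorem en_inj {x y : Opn A} (h : en x = en y) : x = y := ent_inj h

theorem en_zero : en (0 : Opn A) = 0 := rfl

theorem en_add (x y : Opn A) : en (x + y) = en x + en y := rfl

theorem en_neg (x : Opn A) : en (-x) = -en x := rfl

theorem en_sub (x y : Opn A) : en (x - y) = en x - en y := rfl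

theorem en_one : en (1 : Opn A) = 1 := ent_id

theorem en_mul (x y : Opn A) (i k : ℕ) : en (x * y) i k = ∑ᶠ j, en x i j * en y j k :=
  ent_comp' (show Op A ℕ ℕ from x) (show Op A ℕ ℕ from y) i k

theorem exists_en (a : Matrix ℕ ℕ A) (h : ∀ j, {i | a i j ≠ 0}.Finite) : ∃ x : Opn A, en x = a :=
  ⟨opOf a h, ent_opOf a h⟩

/-- Finite matrices with entries in `H`. -/
def fold (H : Fam A Λ) : Fam (Opn A) (Lab Λ) := fun a b =>
  { carrier := {x | (∀ (i : Fin a.n) (j : Fin b.n), en x i j ∈ H (a.l i) (b.l j)) ∧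
      ∀ m n, en x m n ≠ 0 → m < a.n ∧ n < b.n}
    zero_mem' := ⟨fun _ _ => zero_mem _, fun _ _ h => absurd rfl h⟩
    add_mem' := fun {x y} h h' => ⟨fun i j => add_mem (h.1 i j) (h'.1 i j), fun m n e => by
      by_cases e1 : en x m n = 0
      · exact h'.2 m n fun e2 => e (by rw [en_add, Matrix.add_apply, e1, e2, add_zero])
      · exact h.2 m n e1⟩
    neg_mem' := fun {x} h => ⟨fun i j => neg_mem (h.1 i j), fun m n e => h.2 m n fun e1 =>
      e (by rw [en_neg, Matrix.neg_apply, e1, neg_zero])⟩ }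

/-- The functor that reads off the entries. -/
@[reducible] noncomputable def unfFn (H : Fam A Λ) : Fn (fold H) H where
  κ a := Fin a.n
  lab a := a.l
  F a b := AddMonoidHom.mk' (fun x => Matrix.of fun (i : Fin a.n) (j : Fin b.n) => en x i j)
    fun _ _ => rfl
  mem _ _ _ h := h.1
  mul a b c x y hx _ := by
    ext i k
    change en (x * y) i k = ∑ j : Fin b.n, en x i j * en y j k
    rw [en_mul, Fin.sum_univ_eq_sum_range (fun j => en x i j * en y j k)]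
    refine finsum_eq_sum_of_support_subset _ fun j hj => ?_
    exact Finset.mem_coe.2 (Finset.mem_range.2 (hx.2 i j (left_ne_zero_of_mul hj)).2)

/-- The unfolded complex. -/
@[reducible] noncomputable def unf (X : Cx (Opn A) (Lab Λ)) : Cx A Λ := (unfFn ⊤).obj X

/-- The unfolded matrix. -/
noncomputable abbrev unfM {I J : Type} (s : I → Lab Λ × ℤ) (t : J → Lab Λ × ℤ)
    (f : Matrix I J (Opn A)) : Matrix (Σ i, Fin (s i).1.n) (Σ j, Fin (t j).1.n) A :=
  (unfFn ⊤).mat s t f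

theorem unf_eq (H : Fam A Λ) (X : Cx (Opn A) (Lab Λ)) : (unfFn H).obj X = unf X := rfl

variable (A) in
/-- Scalar matrices. -/
noncomputable def sc : A →+* Opn A := Module.toModuleEnd Aᵐᵒᵖ (ℕ →₀ A)

theorem en_sc (a : A) (x : Opn A) (m n : ℕ) : en (sc A a * x) m n = a * en x m n := rfl

/-- The monoids of scalar matrices. -/
noncomputable def fS (S : ι → Submonoid A) : ι → Submonoid (Opn A) := fun a => (S a).map (sc A)

variable (A) in
/-- Coordinate projections. -/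
def CP : Set (Opn A) :=
  {x | ∀ m n, (m ≠ n → en x m n = 0) ∧ (en x m m = 1 ∨ en x m m = 0)}

end

section

variable {B : Type v} [Ring B] {Λ : ℕ → Type} {ι : Type}

/-- Germs of sequences. -/
abbrev Gm (B : Type v) : Type v := Germ (atTop : Filter ℕ) B

/-- Germs of sequences of bounded level. -/
def gH (𝓗 : ∀ ν, ℕ → Fam B (Λ ν)) : Fam (Gm B) (∀ ν, Λ ν) := fun a b =>
  { carrier := {x | ∃ f : ℕ → B, x = ↑f ∧
      ∀ᶠ k in atTop, ∀ᶠ ν in atTop, f ν ∈ 𝓗 ν k (a ν) (b ν)}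
    zero_mem' := ⟨0, rfl, .of_forall fun _ => .of_forall fun _ => zero_mem _⟩
    add_mem' := by
      rintro _ _ ⟨f, rfl, h⟩ ⟨g, rfl, h'⟩
      exact ⟨f + g, rfl, (h.and h').mono fun _ c => (c.1.and c.2).mono fun _ d => add_mem d.1 d.2⟩
    neg_mem' := by
      rintro _ ⟨f, rfl, h⟩
      exact ⟨-f, rfl, h.mono fun _ c => c.mono fun _ d => neg_mem d⟩ }

/-- Germs of sequences in a set. -/
def gE (E : Set B) : Set (Gm B) := {x | ∃ f : ℕ → B, x = ↑f ∧ ∀ᶠ ν in atTop, f ν ∈ E}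

/-- Germs of sequences in the monoids. -/
def gS (S : ι → Submonoid B) : ι → Submonoid (Gm B) := fun a =>
  { carrier := gE (S a)
    one_mem' := ⟨1, rfl, .of_forall fun _ => one_mem _⟩
    mul_mem' := by
      rintro _ _ ⟨f, rfl, h⟩ ⟨g, rfl, h'⟩
      exact ⟨f * g, rfl, (h.and h').mono fun _ d => mul_mem d.1 d.2⟩ }

/-- The germ of a sequence of matrices. -/
def gm {I J : Type} (f : ℕ → Matrix I J B) : Matrix I J (Gm B) :=
  Matrix.of fun i j => ((fun ν => f ν i j : ℕ → B) : Gm B)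

/-- A sequence of complexes of the same shape. -/
structure SX (B : Type v) [Ring B] (Λ : ℕ → Type) : Type (max 1 v) where
  J : Type
  [fin : Fintype J]
  [dec : DecidableEq J]
  t : J → (∀ ν, Λ ν) × ℤ
  p : ℕ → Matrix J J B
  D : ℕ → Matrix J J B

attribute [instance] SX.fin SX.dec

/-- The germ. -/
@[reducible] def SX.germ (X : SX B Λ) : Cx (Gm B) (∀ ν, Λ ν) where
  J := X.J
  t := X.t
  p := gm X.p
  D := gm X.D

/-- The terms. -/
@[reducible] def SX.tm (X : SX B Λ) (ν : ℕ) : Cx B (Λ ν) where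
  J := X.J
  t j := ((X.t j).1 ν, (X.t j).2)
  p := X.p ν
  D := X.D ν

/-- The extension. -/
@[reducible] def SX.ext (X Y : SX B Λ) (t : ℕ → Matrix X.J Y.J B) : SX B Λ where
  J := X.J ⊕ Y.J
  t := Sum.elim X.t Y.t
  p ν := fromBlocks (X.p ν) 0 0 (Y.p ν)
  D ν := fromBlocks (X.D ν) (t ν) 0 (Y.D ν)

/-- A sequence of complexes with one index in each degree. -/
@[reducible] noncomputable def SX.box (L : ℕ) (μ : ∀ ν, Bx L → Λ ν) (p D : ℕ → Matrix (Bx L) (Bx L) B) :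
    SX B Λ where
  J := Bx L
  t b := (fun ν => μ ν b, b.1)
  p := p
  D := D

theorem SX.tm_box (L : ℕ) (μ : ∀ ν, Bx L → Λ ν) (p D : ℕ → Matrix (Bx L) (Bx L) B) (ν : ℕ) :
    (SX.box L μ p D).tm ν = KN.box L (μ ν) (p ν) (D ν) := rfl

end

section

variable {A : Type v} [Ring A] {Λ : ℕ → Type} {ι : Type}

/-- Germs of folded families. -/
noncomputable abbrev gF (𝓗 : ∀ ν, ℕ → Fam A (Λ ν)) : Fam (Gm (Opn A)) (∀ ν, Lab (Λ ν)) :=
  gH fun ν k => fold (𝓗 ν k)

/-- Uniform standard forms along a sequence. -/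
def SQ (𝓗 : ∀ ν, ℕ → Fam A (Λ ν)) : Prop :=
  ∀ k L : ℕ, ∃ k' L' : ℕ, ∀ᶠ ν in atTop, ∀ X, Ok (𝓗 ν k) X → Bd L X →
    ∃ Y, Ok (𝓗 ν k') Y ∧ Std Y ∧ Bd L' Y ∧ HE (𝓗 ν k') X Y

/-- Uniform certificates along a sequence. -/
def CQ (𝓗 : ∀ ν, ℕ → Fam A (Λ ν)) (S : ι → Submonoid A) (K : Finset ι) : Prop :=
  ∀ k L : ℕ, ∃ k' L' : ℕ, ∀ᶠ ν in atTop, Qt (𝓗 ν k) (𝓗 ν k') S K Std L L'

/-- Neighbourhoods of a region. -/
structure Reg (𝓗 : ∀ ν, ℕ → Fam A (Λ ν)) (U : ∀ ν, ℕ → Set (Λ ν)) : Prop where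
  mono : ∀ ν, Monotone (U ν)
  spread : ∀ ν j k ⦃a b x⦄, x ∈ 𝓗 ν j a b → x ≠ 0 →
    (a ∈ U ν k → b ∈ U ν (k + j)) ∧ (b ∈ U ν k → a ∈ U ν (k + j))

/-- The families supported near a region. -/
abbrev rsq (𝓗 : ∀ ν, ℕ → Fam A (Λ ν)) (U : ∀ ν, ℕ → Set (Λ ν)) : ∀ ν, ℕ → Fam A (Λ ν) :=
  fun ν k => rs (𝓗 ν k) (U ν k)

end

end Pool.Agent.MP_f7db47_al.KN
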