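import Pool.Agent.MP_f7db47_al.KN.XV
import Pool.Agent.MP_f7db47_al.TW.DA

/-!
Complexes with supports over twisted group rings: definitions.
-/

namespace Pool.Agent.MP_f7db47_al.KN

open Matrix GN

universe v w

/-- Coefficients: a family of subrings of a ring `R` that is closed under localisation. -/
structure Coef (ι : Type) (κ : Type w) (R : Type v) [Ring R] where
  D : κ → Subring R
  u : ι → R
  unit : ∀ a, IsUnit (u a)
  cen : ∀ a x, u a * x = x * u a
  mem : ∀ a I, u a ∈ D I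
  loc : ∀ a I, ∃ I', ∀ x, x ∈ D I' ↔ ∃ s : ℕ, u a ^ s * x ∈ D I

variable {ι : Type} {κ : Type w} {R : Type v} [Ring R] {G : Type} [Group G]
  [MulSemiringAction G R] {Λ : Type}

/-- The coefficients are invariant under the action. -/
class Coef.Inv (C : Coef ι κ R) (G : Type) [Group G] [MulSemiringAction G R] : Prop where
  D : ∀ I (g : G), ∀ x ∈ C.D I, g • x ∈ C.D I
  u : ∀ a (g : G), g • C.u a = C.u a

instance (C : Coef ι κ R) [h : C.Inv G] (I : κ) : IsInvariantSubring G (C.D I) :=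
  ⟨fun g x hx => h.D I g x hx⟩

/-- The monoids generated by the central units. -/
noncomputable def Coef.S (C : Coef ι κ R) (G : Type) [Group G] [MulSemiringAction G R] :
    ι → Submonoid (SkewMonoidAlgebra R G) :=
  fun a => Submonoid.powers (SkewMonoidAlgebra.single 1 (C.u a))

theorem dg_pow (c : R) (n : ℕ) :
    (SkewMonoidAlgebra.single (1 : G) c) ^ n = SkewMonoidAlgebra.single 1 (c ^ n) := by
  induction n with
  | zero => rw [pow_zero, pow_zero]; rfl
  | succ n ih => rw [pow_succ, ih, SkewMonoidAlgebra.single_mul_single, one_smul, one_mul, pow_succ]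

theorem Coef.sca (C : Coef ι κ R) [h : C.Inv G] (I : κ) : Sca (C.D I) (C.S G) where
  inv := h.D I
  cen := by
    rintro a _ ⟨n, rfl⟩ x
    refine (Commute.pow_left (?_ : _ * _ = _ * _) n).eq
    induction x using TW.Sk.induction_linear with
    | zero => simp
    | add x y hx hy => rw [mul_add, add_mul, hx, hy]
    | single g r =>
      rw [SkewMonoidAlgebra.single_mul_single, SkewMonoidAlgebra.single_mul_single, one_smul,
        h.u, one_mul, mul_one, C.cen]
  sc := by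
    rintro a _ ⟨n, rfl⟩
    exact ⟨C.u a ^ n, pow_mem (C.mem a I) n, dg_pow _ n⟩

theorem Coef.uni (C : Coef ι κ R) : Uni (C.S G) := by
  rintro a _ ⟨n, rfl⟩
  obtain ⟨c, hc⟩ := C.unit a
  refine IsUnit.pow n ⟨⟨SkewMonoidAlgebra.single 1 (C.u a), SkewMonoidAlgebra.single 1 (↑c⁻¹ : R),
    ?_, ?_⟩, rfl⟩ <;>
    rw [SkewMonoidAlgebra.single_mul_single, one_smul, one_mul, ← hc]
  · rw [c.mul_inv]; rfl
  · rw [c.inv_mul]; rfl

/-- The families given by a filtered relation. -/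
theorem Coef.gr (C : Coef ι κ R) [C.Inv G] (I : κ) (F : GN.FR G Λ) :
    Gr (fun k => ctl (C.D I) (F.rel k)) (C.S G) where
  mono _ _ h _ _ _ hx g := ⟨(hx g).1, fun e => F.mono h ((hx g).2 e)⟩
  mul _ _ := ctl_mul (C.sca I).inv fun _ _ _ _ _ => F.comp
  cen := (C.sca I).cen
  stab a w hw _ := (C.sca I).stab _ a w hw

/-- The family given by a groupoid. -/
theorem Coef.good (C : Coef ι κ R) [C.Inv G] (I : κ) (B : Gpd G Λ) :
    Good (ctl (C.D I) B.r) (C.S G) :=
  ⟨ctl_mul (C.sca I).inv fun _ _ _ _ _ => B.trans, (C.sca I).cen, (C.sca I).stab _⟩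

theorem one_mem_ctl (D : Subring R) {r : Λ → G → Λ → Prop} {a : Λ} (h : r a 1 a) :
    (1 : SkewMonoidAlgebra R G) ∈ ctl D r a a := fun g => by
  classical
  rw [SkewMonoidAlgebra.one_def, SkewMonoidAlgebra.coeff_single_apply]
  split_ifs with e
  · exact ⟨one_mem D, fun _ => e ▸ h⟩
  · exact ⟨zero_mem D, fun c => absurd rfl c⟩

theorem Coef.isLoc (C : Coef ι κ R) (a : ι) (I : κ) : ∃ I', ∀ (Λ : Type) (r : Λ → G → Λ → Prop),
    IsLoc (ctl (C.D I) r) (C.S G a) (ctl (C.D I') r) := by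
  obtain ⟨I', h⟩ := C.loc a I
  refine ⟨I', fun Λ r i j x => ⟨fun hx => ?_, ?_⟩⟩
  · choose s hs using fun g => (h _).1 (hx g).1
    refine ⟨_, ⟨x.coeff.support.sup s, rfl⟩, fun g => ?_⟩
    beta_reduce
    rw [dg_pow, SkewMonoidAlgebra.coeff_single_one_mul]
    refine ⟨?_, fun e => (hx g).2 (right_ne_zero_of_mul e)⟩
    by_cases e : x.coeff g = 0
    · rw [e, mul_zero]
      exact zero_mem _
    · obtain ⟨m, hm⟩ := Nat.exists_eq_add_of_le' (Finset.le_sup (f := s) (Finsupp.mem_support_iff.2 e))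
      rw [hm, pow_add, mul_assoc]
      exact mul_mem (pow_mem (C.mem a I) m) (hs g)
  · rintro ⟨_, ⟨n, rfl⟩, hx⟩ g
    have e := hx g
    beta_reduce at e
    rw [dg_pow, SkewMonoidAlgebra.coeff_single_one_mul] at e
    exact ⟨(h _).2 ⟨n, e.1⟩, fun c => e.2 fun d => c (((C.unit a).pow n).mul_right_eq_zero.1 d)⟩

/-- Vanishing for a subgroup, inside the ring of the big group. -/
def NZs (C : Coef ι κ R) (H : Subgroup G) : Prop :=
  ∀ (I : κ) (K : Finset ι), NullAll (ctl (C.D I) fun (_ : Unit) (g : G) _ => g ∈ H) (C.S G) K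

/-- The property of a subgroup that is used for blocks and legs. -/
def QG (C : Coef ι κ R) [C.Inv G] (H : Subgroup G) : Prop :=
  (∀ I, TW.QQ (C.D I) H) ∧ ∀ H' ≤ H, NZs C H'

theorem QG.le {C : Coef ι κ R} [C.Inv G] {H H' : Subgroup G} (h : QG C H) (hH : H' ≤ H) :
    QG C H' :=
  ⟨fun I => (h.1 I).sub (Subgroup.inclusion hH) (Subgroup.inclusion_injective hH),
    fun _ c => h.2 _ (c.trans hH)⟩

variable (G) in
/-- Controlled standard forms over `N` spiders. -/
def SN (C : Coef ι κ R) [C.Inv G] (N : ℕ) : Prop :=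
  ∀ (I : κ) (k L : ℕ), ∃ k' : ℕ, ∀ (Λ : Type) (B : Gpd G Λ) (S : Fin N → Spi G Λ),
    (∀ a, QG C (B.grp a)) → ∀ X, Ok (ctl (C.D I) ((CR B S).rel k)) X → Bd L X →
      ∃ Y, Ok (ctl (C.D I) ((CR B S).rel k')) Y ∧ Std Y ∧ Bd (L + 1) Y ∧
        HE (ctl (C.D I) ((CR B S).rel k')) X Y

variable (G) in
/-- Controlled certificates over `N` spiders. -/
def QN (C : Coef ι κ R) [C.Inv G] (N : ℕ) : Prop :=
  ∀ (I : κ) (K : Finset ι) (k L : ℕ), ∃ k' L' : ℕ, ∀ (Λ : Type) (B : Gpd G Λ)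
    (S : Fin N → Spi G Λ), (∀ a, QG C (B.grp a)) →
      Qt (ctl (C.D I) ((CR B S).rel k)) (ctl (C.D I) ((CR B S).rel k')) (C.S G) K Std L L'

variable (G) in
/-- The vanishing statement for `N` spiders. -/
def VN (C : Coef ι κ R) [C.Inv G] (N : ℕ) : Prop :=
  ∀ (I : κ) (K : Finset ι) (k L : ℕ), ∃ r : ℕ, ∀ (Λ : Type) (S : Fin N → Spi G Λ),
    (∀ i a, 0 < (S i).ht a → QG C ((S i).leg.grp a)) → (∀ a, ∃ i, r ≤ (S i).ht a) →
      VV (C.D I) (C.S G) K Λ (fun a g b => ∀ i, (S i).rel k a g b) L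

end Pool.Agent.MP_f7db47_al.KN
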