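import Mathlib

/-!
Complexes with supports over labelled rings: definitions of the algebraic core.
-/

namespace Pool.Agent.MP_f7db47_al.KN

open Matrix

universe v w

/-- A family of additive subgroups of a ring, indexed by pairs of labels. -/
abbrev Fam (A : Type v) [Ring A] (Λ : Type) : Type v := Λ → Λ → AddSubgroup A

/-- Raw complexes: a finite index set with labels and degrees, and two matrices. -/
structure Cx (A : Type v) [Ring A] (Λ : Type) : Type (max 1 v) where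
  J : Type
  [fin : Fintype J]
  [dec : DecidableEq J]
  t : J → Λ × ℤ
  p : Matrix J J A
  D : Matrix J J A

attribute [instance] Cx.fin Cx.dec

variable {A : Type v} [Ring A] {Λ ι : Type}

/-- Matrices of degree `d` with entries in `H`. -/
def Hm (H : Fam A Λ) (d : ℤ) {I J : Type} (s : I → Λ × ℤ) (t : J → Λ × ℤ) (f : Matrix I J A) :
    Prop :=
  ∀ i j, f i j ∈ H (s i).1 (t j).1 ∧ (f i j ≠ 0 → (s i).2 = (t j).2 + d)

/-- The family is closed under products. -/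
def LR (H : Fam A Λ) : Prop := ∀ ⦃a b c : Λ⦄ ⦃x y : A⦄, x ∈ H a b → y ∈ H b c → x * y ∈ H a c

/-- All elements of the monoids are central. -/
def Cen (S : ι → Submonoid A) : Prop := ∀ a, ∀ w ∈ S a, ∀ x, w * x = x * w

/-- All elements of the monoids are units. -/
def Uni (S : ι → Submonoid A) : Prop := ∀ a, ∀ w ∈ S a, IsUnit w

/-- A labelled ring with central monoids that act on it. -/
structure Good (H : Fam A Λ) (S : ι → Submonoid A) : Prop where
  mul : LR H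
  cen : Cen S
  stab : ∀ a, ∀ w ∈ S a, ∀ ⦃i j : Λ⦄ ⦃x : A⦄, x ∈ H i j → w * x ∈ H i j

/-- A graded labelled ring. -/
structure Gr (H : ℕ → Fam A Λ) (S : ι → Submonoid A) : Prop where
  mono : ∀ ⦃k k' : ℕ⦄, k ≤ k' → H k ≤ H k'
  mul : ∀ ⦃k k' : ℕ⦄ ⦃a b c : Λ⦄ ⦃x y : A⦄, x ∈ H k a b → y ∈ H k' b c → x * y ∈ H (k + k') a c
  cen : Cen S
  stab : ∀ a, ∀ w ∈ S a, ∀ ⦃k : ℕ⦄ ⦃i j : Λ⦄ ⦃x : A⦄, x ∈ H k i j → w * x ∈ H k i j

/-- A complex over the idempotent completion of `H`. -/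
structure Ok (H : Fam A Λ) (X : Cx A Λ) : Prop where
  hp : Hm H 0 X.t X.t X.p
  hD : Hm H (-1) X.t X.t X.D
  pp : X.p * X.p = X.p
  pD : X.p * X.D = X.D
  Dp : X.D * X.p = X.D
  DD : X.D * X.D = 0

/-- A map of graded modules of degree `d` from `X` to `Y`. -/
structure Mp (H : Fam A Λ) (d : ℤ) (Y X : Cx A Λ) (f : Matrix Y.J X.J A) : Prop where
  hm : Hm H d Y.t X.t f
  pl : Y.p * f = f
  pr : f * X.p = f

/-- A chain map from `X` to `Y`. -/
structure Ch (H : Fam A Λ) (Y X : Cx A Λ) (f : Matrix Y.J X.J A) : Prop extends Mp H 0 Y X f where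
  cm : Y.D * f = f * X.D

/-- A twisting map for an extension with subcomplex `X` and quotient `Y`. -/
structure Tw (H : Fam A Λ) (X Y : Cx A Λ) (t : Matrix X.J Y.J A) : Prop
    extends Mp H (-1) X Y t where
  cm : X.D * t + t * Y.D = 0

/-- Multiplication by `w` is null-homotopic. -/
def Nul (H : Fam A Λ) (w : A) (X : Cx A Λ) : Prop :=
  ∃ h, Hm H 1 X.t X.t h ∧ X.D * h + h * X.D = w • X.p

/-- The data of a homotopy equivalence. -/
structure HEd (H : Fam A Λ) (X Y : Cx A Λ) (f : Matrix Y.J X.J A) (g : Matrix X.J Y.J A)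
    (h : Matrix X.J X.J A) (k : Matrix Y.J Y.J A) : Prop where
  hf : Ch H Y X f
  hg : Ch H X Y g
  hh : Hm H 1 X.t X.t h
  hk : Hm H 1 Y.t Y.t k
  gf : g * f + (X.D * h + h * X.D) = X.p
  fg : f * g + (Y.D * k + k * Y.D) = Y.p

/-- Homotopy equivalent complexes. -/
def HE (H : Fam A Λ) (X Y : Cx A Λ) : Prop := ∃ f g h k, HEd H X Y f g h k

/-- Torsion for all monoids in `K`. -/
def Tor (H : Fam A Λ) (S : ι → Submonoid A) (K : Finset ι) (X : Cx A Λ) : Prop :=
  ∀ a ∈ K, ∃ w ∈ S a, Nul H w X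

/-- The objects. -/
structure Obj (H : Fam A Λ) (S : ι → Submonoid A) (K : Finset ι) (X : Cx A Λ) : Prop where
  ok : Ok H X
  tor : Tor H S K X

/-- All degrees lie in `W`. -/
def Wd (W : Set ℤ) (X : Cx A Λ) : Prop := ∀ j, (X.t j).2 ∈ W

/-- All degrees are at most `L` in absolute value. -/
abbrev Bd (L : ℕ) (X : Cx A Λ) : Prop := Wd (Set.Icc (-(L : ℤ)) L) X

/-- The idempotent is supported in the degrees in `W`. -/
def InW (W : Set ℤ) (X : Cx A Λ) : Prop := ∀ i j, X.p i j ≠ 0 → (X.t i).2 ∈ W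

namespace Cx

/-- The extension with subcomplex `X`, quotient `Y` and twisting map `t`. -/
@[reducible] def ext (X Y : Cx A Λ) (t : Matrix X.J Y.J A) : Cx A Λ where
  J := X.J ⊕ Y.J
  t := Sum.elim X.t Y.t
  p := fromBlocks X.p 0 0 Y.p
  D := fromBlocks X.D t 0 Y.D

/-- The direct sum. -/
@[reducible] def sum (X Y : Cx A Λ) : Cx A Λ := X.ext Y 0

/-- The shift by `n` (used for `n = 1` and `n = -1`). -/
@[reducible] def sh (X : Cx A Λ) (n : ℤ) : Cx A Λ where
  J := X.J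
  t j := ((X.t j).1, (X.t j).2 + n)
  p := X.p
  D := -X.D

/-- The mapping cone of `f : X → Y`. -/
@[reducible] def cone (Y X : Cx A Λ) (f : Matrix Y.J X.J A) : Cx A Λ := Y.ext (X.sh 1) f

/-- The zero complex. -/
@[reducible] def zero (A : Type v) [Ring A] (Λ : Type) : Cx A Λ where
  J := Empty
  t := Empty.elim
  p := 0
  D := 0

/-- The same index set with other matrices. -/
@[reducible] def re (X : Cx A Λ) (p D : Matrix X.J X.J A) : Cx A Λ where
  J := X.J
  t := X.t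
  p := p
  D := D

/-- The subcomplex given by an idempotent `e`. -/
@[reducible] def sub (X : Cx A Λ) (e : Matrix X.J X.J A) : Cx A Λ := X.re e (X.D * e)

/-- The quotient by the subcomplex given by an idempotent `e`. -/
@[reducible] def quo (X : Cx A Λ) (e : Matrix X.J X.J A) : Cx A Λ :=
  X.re (X.p - e) ((X.p - e) * X.D)

/-- Restriction along a map of index sets. -/
@[reducible] def res (X : Cx A Λ) {I : Type} [Fintype I] [DecidableEq I] (e : I → X.J) :
    Cx A Λ where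
  J := I
  t i := X.t (e i)
  p := X.p.submatrix e e
  D := X.D.submatrix e e

/-- Entrywise image, with new labels. -/
@[reducible] def smap {A' : Type w} [Ring A'] {Λ' : Type} (X : Cx A Λ) (φ : A → A') (π : Λ → Λ') :
    Cx A' Λ' where
  J := X.J
  t j := (π (X.t j).1, (X.t j).2)
  p := X.p.map φ
  D := X.D.map φ

/-- The dual complex along an anti-homomorphism. -/
@[reducible] def op {A' : Type w} [Ring A'] (X : Cx A Λ) (τ : A → A') : Cx A' Λ where
  J := X.J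
  t j := ((X.t j).1, -(X.t j).2)
  p := (X.p.map τ)ᵀ
  D := (X.D.map τ)ᵀ

end Cx

/-- `X` is `X'` extended by zero. -/
def Sub (X' X : Cx A Λ) : Prop :=
  ∃ e : X'.J → X.J, Function.Injective e ∧ (∀ i, X'.t i = X.t (e i)) ∧
    X'.p = X.p.submatrix e e ∧ X'.D = X.D.submatrix e e ∧
    (∀ i j, X.p i j ≠ 0 → i ∈ Set.range e ∧ j ∈ Set.range e) ∧
    ∀ i j, X.D i j ≠ 0 → i ∈ Set.range e ∧ j ∈ Set.range e

/-- The idempotent `e` defines a subcomplex. -/
structure Cut (H : Fam A Λ) (X : Cx A Λ) (e : Matrix X.J X.J A) : Prop where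
  hm : Hm H 0 X.t X.t e
  ee : e * e = e
  pe : X.p * e = e
  ep : e * X.p = e
  De : e * X.D * e = X.D * e

/-- The data of a relation between `X` and `X'` in the Grothendieck group. -/
structure Simd (H : Fam A Λ) (S : ι → Submonoid A) (K : Finset ι) (W : Set ℤ)
    (P Q B : Cx A Λ) (t t' : Matrix P.J Q.J A) : Prop where
  oP : Obj H S K P
  oQ : Obj H S K Q
  oB : Obj H S K B
  wP : Wd W P
  wQ : Wd W Q
  wB : Wd W B
  ht : Tw H P Q t
  ht' : Tw H P Q t'

/-- Equal classes, with a certificate in the window `W`. -/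
def Sim (H : Fam A Λ) (S : ι → Submonoid A) (K : Finset ι) (W : Set ℤ) (X X' : Cx A Λ) : Prop :=
  ∃ P Q B t t', Simd H S K W P Q B t t' ∧ HE H (P.ext Q t) (X.sum B) ∧
    HE H (P.ext Q t') (X'.sum B)

/-- Trivial class, with a certificate in the window `W`. -/
def Cert (H : Fam A Λ) (S : ι → Submonoid A) (K : Finset ι) (W : Set ℤ) (X : Cx A Λ) : Prop :=
  ∃ P Q B t t', Simd H S K W P Q B t t' ∧ HE H (P.ext Q t) (X.sum B) ∧ HE H (P.ext Q t') B

/-- The Grothendieck group vanishes. -/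
def NullAll (H : Fam A Λ) (S : ι → Submonoid A) (K : Finset ι) : Prop :=
  ∀ X, Obj H S K X → Cert H S K Set.univ X

/-- The Grothendieck group of the objects in the window `W`. -/
structure KS (H : Fam A Λ) (S : ι → Submonoid A) (K : Finset ι) (W : Set ℤ) (M : Type w)
    [AddCommGroup M] where
  cls : Cx A Λ → M
  he : ∀ {X Y}, Obj H S K X → Obj H S K Y → Wd W X → Wd W Y → HE H X Y → cls X = cls Y
  ext : ∀ {X Y t}, Obj H S K X → Obj H S K Y → Wd W X → Wd W Y → Tw H X Y t →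
    cls (X.ext Y t) = cls X + cls Y
  zero_iff : ∀ {X}, Obj H S K X → Wd W X → (cls X = 0 ↔ Cert H S K W X)

/-- A matrix valued functor. -/
structure Fn {A' : Type w} [Ring A'] {Λ' : Type} (H : Fam A Λ) (H' : Fam A' Λ') where
  κ : Λ → Type
  [fin : ∀ a, Fintype (κ a)]
  [dec : ∀ a, DecidableEq (κ a)]
  lab : ∀ a, κ a → Λ'
  F : ∀ a b, A →+ Matrix (κ a) (κ b) A'
  mem : ∀ ⦃a b x⦄, x ∈ H a b → ∀ i j, F a b x i j ∈ H' (lab a i) (lab b j)
  mul : ∀ ⦃a b c x y⦄, x ∈ H a b → y ∈ H b c → F a c (x * y) = F a b x * F b c y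

attribute [instance] Fn.fin Fn.dec

namespace Fn

variable {A' : Type w} [Ring A'] {Λ' : Type} {H : Fam A Λ} {H' : Fam A' Λ'} (Φ : Fn H H')

/-- The image of a matrix. -/
def mat {I J : Type} (s : I → Λ × ℤ) (t : J → Λ × ℤ) (f : Matrix I J A) :
    Matrix (Σ i, Φ.κ (s i).1) (Σ j, Φ.κ (t j).1) A' :=
  fun x y => Φ.F (s x.1).1 (t y.1).1 (f x.1 y.1) x.2 y.2

/-- The image of a complex. -/
@[reducible] def obj (X : Cx A Λ) : Cx A' Λ' where
  J := Σ j, Φ.κ (X.t j).1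
  t x := (Φ.lab _ x.2, (X.t x.1).2)
  p := Φ.mat X.t X.t X.p
  D := Φ.mat X.t X.t X.D

/-- Compatibility with the monoids. -/
def Lin (S : ι → Submonoid A) (S' : ι → Submonoid A') : Prop :=
  ∀ a, ∀ w ∈ S a, ∃ w' ∈ S' a, ∀ ⦃i j x⦄, x ∈ H i j → Φ.F i j (w * x) = w' • Φ.F i j x

end Fn

/-- An entrywise functor. -/
structure Sf {A' : Type w} [Ring A'] {Λ' : Type} (H : Fam A Λ) (H' : Fam A' Λ')
    (S : ι → Submonoid A) (S' : ι → Submonoid A') (φ : A →+ A') (π : Λ → Λ') : Prop where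
  mem : ∀ ⦃a b x⦄, x ∈ H a b → φ x ∈ H' (π a) (π b)
  mul : ∀ ⦃a b c x y⦄, x ∈ H a b → y ∈ H b c → φ (x * y) = φ x * φ y
  lin : ∀ a, ∀ w ∈ S a, ∃ w' ∈ S' a, ∀ ⦃i j x⦄, x ∈ H i j → φ (w * x) = w' * φ x

/-- An entrywise contravariant functor. -/
structure Af {A' : Type w} [Ring A'] (H : Fam A Λ) (H' : Fam A' Λ)
    (S : ι → Submonoid A) (S' : ι → Submonoid A') (τ : A →+ A') : Prop where
  mem : ∀ ⦃a b x⦄, x ∈ H a b → τ x ∈ H' b a
  mul : ∀ x y, τ (x * y) = τ y * τ x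
  lin : ∀ a, ∀ w ∈ S a, ∃ w' ∈ S' a, ∀ x, τ (w * x) = w' * τ x

/-- `I` is a two-sided ideal of `H`. -/
structure Idl (I H : Fam A Λ) : Prop where
  le : I ≤ H
  left : ∀ ⦃a b c : Λ⦄ ⦃x y : A⦄, x ∈ H a b → y ∈ I b c → x * y ∈ I a c
  right : ∀ ⦃a b c : Λ⦄ ⦃x y : A⦄, x ∈ I a b → y ∈ H b c → x * y ∈ I a c

/-- Idempotent left units for finite sets. -/
def LU (I : Fam A Λ) : Prop :=
  ∀ (a : Λ) (T : Finset A), (∀ x ∈ T, ∃ b, x ∈ I a b) →
    ∃ e ∈ I a a, e * e = e ∧ ∀ x ∈ T, e * x = x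

/-- `H'` is the localisation of `H` at the monoid `T`. -/
def IsLoc (H : Fam A Λ) (T : Submonoid A) (H' : Fam A Λ) : Prop :=
  ∀ a b x, x ∈ H' a b ↔ ∃ w ∈ T, w * x ∈ H a b

/-- The Grothendieck groups of the localisations vanish for fewer monoids. -/
def NL (I : Fam A Λ) (S : ι → Submonoid A) (K : Finset ι) : Prop :=
  ∀ a ∈ K, ∃ I', IsLoc I (S a) I' ∧ ∀ K' : Finset ι, K' ⊆ K → a ∉ K' → NullAll I' S K'

/-- Multiplication by `w` is null-homotopic modulo `I`. -/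
def NulMod (H I : Fam A Λ) (w : A) (X : Cx A Λ) : Prop :=
  ∃ h, Hm H 1 X.t X.t h ∧ Hm I 0 X.t X.t (w • X.p - (X.D * h + h * X.D))

/-- The double of `F` along `I`. -/
def dbl (F I : Fam A Λ) : Fam (A × A) Λ := fun a b =>
  { carrier := {x | x.1 ∈ F a b ∧ x.2 ∈ F a b ∧ x.2 - x.1 ∈ I a b}
    zero_mem' := ⟨zero_mem _, zero_mem _, by simp⟩
    add_mem' := fun {x y} h h' => ⟨add_mem h.1 h'.1, add_mem h.2.1 h'.2.1, by
      have := add_mem h.2.2 h'.2.2
      rwa [← add_sub_add_comm] at this⟩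
    neg_mem' := fun {x} h => ⟨neg_mem h.1, neg_mem h.2.1, by
      have := neg_mem h.2.2
      rwa [neg_sub'] at this⟩ }

/-- The diagonal monoids. -/
def dS (S : ι → Submonoid A) : ι → Submonoid (A × A) := fun a =>
  (S a).map ((RingHom.id A).prod (RingHom.id A))

/-- Every complex is equivalent to a complex with the property `Fr`. -/
def Stdz (H : Fam A Λ) (Fr : Cx A Λ → Prop) : Prop :=
  ∀ X, Ok H X → ∃ Y, Ok H Y ∧ Fr Y ∧ HE H X Y

/-- The idempotent is diagonal with entries zero or one. -/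
def Std (X : Cx A Λ) : Prop := (∀ i j, i ≠ j → X.p i j = 0) ∧ ∀ i, X.p i i = 1 ∨ X.p i i = 0

/-- Objects over `H` of size `L` with the property `Fr` have certificates over `H'` of
size `L'`. -/
def Qt (H H' : Fam A Λ) (S : ι → Submonoid A) (K : Finset ι) (Fr : Cx A Λ → Prop) (L L' : ℕ) :
    Prop :=
  ∀ X, Obj H S K X → Bd L X → Fr X → Cert H' S K (Set.Icc (-(L' : ℤ)) L') X

end Pool.Agent.MP_f7db47_al.KN
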