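import Pool.Agent.MP_f7db47_al.KN.DF
import Pool.Agent.MP_f7db47_al.KN.A9

/-!
Fully faithful functors.
-/

namespace Pool.Agent.MP_f7db47_al.KN

open Matrix

universe v w

variable {A : Type v} [Ring A] {Λ Λ' ι : Type} {H H' : Fam A Λ} {S : ι → Submonoid A}
  {K : Finset ι} {W : Set ℤ} {X X' Y : Cx A Λ} {w : A}
  {A' : Type w} [Ring A'] {G : Fam A' Λ'} {Φ : Fn H G} {T : Fam A Λ}

section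

variable {d : ℤ} {J₁ J₂ : Type} {s : J₁ → Λ × ℤ} {t : J₂ → Λ × ℤ}

theorem Fn.FF.mat_inj (hΦ : Φ.FF T) {f g : Matrix J₁ J₂ A} {d' : ℤ} (hf : Hm T d s t f)
    (hg : Hm T d' s t g) (h : Φ.mat s t f = Φ.mat s t g) : f = g :=
  Matrix.ext fun i j => hΦ.inj (hf i j).1 (hg i j).1
    (Matrix.ext fun a b => congrFun₂ h ⟨i, a⟩ ⟨j, b⟩)

theorem Fn.FF.mat_mul (hΦ : Φ.FF T) [Fintype J₂] {J₃ : Type} {u : J₃ → Λ × ℤ} {d' : ℤ}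
    {f : Matrix J₁ J₂ A} {g : Matrix J₂ J₃ A} (hf : Hm T d s t f) (hg : Hm T d' t u g) :
    Φ.mat s u (f * g) = Φ.mat s t f * Φ.mat t u g := by
  ext x y
  rw [Matrix.mul_apply, Fintype.sum_sigma, Fn.mat, Matrix.mul_apply, map_sum, Matrix.sum_apply]
  refine Finset.sum_congr rfl fun j _ => ?_
  rw [hΦ.mul (hf x.1 j).1 (hg j y.1).1, Matrix.mul_apply]
  rfl

theorem Fn.FF.mat_surj (hΦ : Φ.FF T)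
    {M : Matrix (Σ i, Φ.κ (s i).1) (Σ j, Φ.κ (t j).1) A'}
    (hM : Hm G d (fun x : Σ i, Φ.κ (s i).1 => (Φ.lab _ x.2, (s x.1).2))
      (fun x : Σ i, Φ.κ (t i).1 => (Φ.lab _ x.2, (t x.1).2)) M) :
    ∃ f, Hm H d s t f ∧ Φ.mat s t f = M := by
  have h : ∀ i j, ∃ x, (x ∈ H (s i).1 (t j).1 ∧ (x ≠ 0 → (s i).2 = (t j).2 + d)) ∧
      ∀ a b, Φ.F (s i).1 (t j).1 x a b = M ⟨i, a⟩ ⟨j, b⟩ := fun i j => by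
    by_cases e : (s i).2 = (t j).2 + d
    · obtain ⟨x, h1, h2⟩ := hΦ.surj (s i).1 (t j).1 (Matrix.of fun a b => M ⟨i, a⟩ ⟨j, b⟩)
        fun a b => (hM ⟨i, a⟩ ⟨j, b⟩).1
      exact ⟨x, ⟨h1, fun _ => e⟩, fun a b => congrFun₂ h2 a b⟩
    · refine ⟨0, ⟨zero_mem _, fun h => absurd rfl h⟩, fun a b => ?_⟩
      rw [map_zero]
      exact (not_not.1 fun h => e ((hM ⟨i, a⟩ ⟨j, b⟩).2 h)).symm
  choose f h1 h2 using h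
  exact ⟨f, h1, Matrix.ext fun x y => h2 x.1 y.1 x.2 y.2⟩

theorem f1_hm (hΦ : Φ.FF T) [Fintype J₂] {J₃ : Type} {u : J₃ → Λ × ℤ} {d' e : ℤ}
    {f : Matrix J₁ J₂ A} {g : Matrix J₂ J₃ A} (hf : Hm H d s t f) (hg : Hm H d' t u g)
    (he : e = d + d') : Hm T e s u (f * g) := (hf.mono hΦ.le).mul hΦ.lr (hg.mono hΦ.le) he

theorem f1_eq (hΦ : Φ.FF T) [Fintype J₂] {J₃ : Type} {u : J₃ → Λ × ℤ} {d' e : ℤ}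
    {f : Matrix J₁ J₂ A} {g : Matrix J₂ J₃ A} {k : Matrix J₁ J₃ A} (hf : Hm H d s t f)
    (hg : Hm H d' t u g) (hk : Hm H e s u k) (h : Φ.mat s t f * Φ.mat t u g = Φ.mat s u k) :
    f * g = k :=
  hΦ.mat_inj (f1_hm hΦ hf hg rfl) (hk.mono hΦ.le) ((Φ.mat_mul hf hg).trans h)

end

theorem Ok.of_fn (hΦ : Φ.FF T) (hp : Hm H 0 X.t X.t X.p) (hD : Hm H (-1) X.t X.t X.D)
    (h : Ok G (Φ.obj X)) : Ok H X :=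
  ⟨hp, hD, f1_eq hΦ hp hp hp h.pp, f1_eq hΦ hp hD hD h.pD, f1_eq hΦ hD hp hD h.Dp,
    f1_eq (e := 0) hΦ hD hD (Hm.zero _ _) (h.DD.trans Φ.mat_zero.symm)⟩

theorem f1_mp (hΦ : Φ.FF T) (hX : Ok H X) (hY : Ok H Y) {d : ℤ}
    {t' : Matrix (Φ.obj X).J (Φ.obj Y).J A'} (h : Mp G d (Φ.obj X) (Φ.obj Y) t') :
    ∃ t, Mp H d X Y t ∧ Φ.mat X.t Y.t t = t' := by
  obtain ⟨t, h1, rfl⟩ := hΦ.mat_surj h.hm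
  exact ⟨t, ⟨h1, f1_eq hΦ hX.hp h1 h1 h.pl, f1_eq hΦ h1 hY.hp h1 h.pr⟩, rfl⟩

theorem f1_ch (hΦ : Φ.FF T) (hX : Ok H X) (hY : Ok H Y)
    {t' : Matrix (Φ.obj X).J (Φ.obj Y).J A'} (h : Ch G (Φ.obj X) (Φ.obj Y) t') :
    ∃ t, Ch H X Y t ∧ Φ.mat X.t Y.t t = t' := by
  obtain ⟨t, h1, rfl⟩ := f1_mp hΦ hX hY h.toMp
  refine ⟨t, ⟨h1, hΦ.mat_inj (f1_hm hΦ hX.hD h1.hm rfl) (f1_hm hΦ h1.hm hY.hD rfl) ?_⟩, rfl⟩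
  rw [Φ.mat_mul hX.hD h1.hm, Φ.mat_mul h1.hm hY.hD]
  exact h.cm

theorem f1_gf (hΦ : Φ.FF T) (hX : Ok H X) {f : Matrix Y.J X.J A} {g : Matrix X.J Y.J A}
    {h : Matrix X.J X.J A} (hf : Hm H 0 Y.t X.t f) (hg : Hm H 0 X.t Y.t g)
    (hh : Hm H 1 X.t X.t h) (e : Φ.mat X.t Y.t g * Φ.mat Y.t X.t f +
      ((Φ.obj X).D * Φ.mat X.t X.t h + Φ.mat X.t X.t h * (Φ.obj X).D) = (Φ.obj X).p) :
    g * f + (X.D * h + h * X.D) = X.p := by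
  refine hΦ.mat_inj ((f1_hm (e := 0) hΦ hg hf rfl).add
    ((f1_hm hΦ hX.hD hh rfl).add (f1_hm hΦ hh hX.hD rfl))) (hX.hp.mono hΦ.le) ?_
  rw [Φ.mat_add, Φ.mat_add, Φ.mat_mul hg hf, Φ.mat_mul hX.hD hh, Φ.mat_mul hh hX.hD]
  exact e

theorem Tw.of_fn (hΦ : Φ.FF T) (hX : Ok H X) (hY : Ok H Y)
    {t' : Matrix (Φ.obj X).J (Φ.obj Y).J A'} (h : Tw G (Φ.obj X) (Φ.obj Y) t') :
    ∃ t, Tw H X Y t ∧ Φ.mat X.t Y.t t = t' := by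
  obtain ⟨t, h1, rfl⟩ := f1_mp hΦ hX hY h.toMp
  refine ⟨t, ⟨h1, hΦ.mat_inj (d' := 0) ((f1_hm (e := -2) hΦ hX.hD h1.hm rfl).add
    (f1_hm hΦ h1.hm hY.hD rfl)) (Hm.zero _ _) ?_⟩, rfl⟩
  rw [Φ.mat_add, Φ.mat_mul hX.hD h1.hm, Φ.mat_mul h1.hm hY.hD, Φ.mat_zero]
  exact h.cm

theorem HE.of_fn (hΦ : Φ.FF T) (hX : Ok H X) (hY : Ok H Y) (h : HE G (Φ.obj X) (Φ.obj Y)) :
    HE H X Y := by
  obtain ⟨f', g', a', b', c⟩ := h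
  obtain ⟨f, hf, rfl⟩ := f1_ch hΦ hY hX c.hf
  obtain ⟨g, hg, rfl⟩ := f1_ch hΦ hX hY c.hg
  obtain ⟨a, ha, rfl⟩ := hΦ.mat_surj c.hh
  obtain ⟨b, hb, rfl⟩ := hΦ.mat_surj c.hk
  exact ⟨f, g, a, b, hf, hg, ha, hb, f1_gf hΦ hX hf.hm hg.hm ha c.gf,
    f1_gf hΦ hY hg.hm hf.hm hb c.fg⟩

theorem Nul.of_fn (hΦ : Φ.FF T) (hX : Ok H X) (hw : Sc H w) {w' : A'}
    (e : ∀ ⦃i j x⦄, x ∈ H i j → Φ.F i j (w * x) = w' • Φ.F i j x) (h : Nul G w' (Φ.obj X)) :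
    Nul H w X := by
  obtain ⟨s', h1, h2⟩ := h
  obtain ⟨s, hs, rfl⟩ := hΦ.mat_surj h1
  refine ⟨s, hs, hΦ.mat_inj ((f1_hm (e := 0) hΦ hX.hD hs rfl).add (f1_hm hΦ hs hX.hD rfl))
    ((hX.hp.smul hw).mono hΦ.le) ?_⟩
  rw [Φ.mat_add, Φ.mat_mul hX.hD hs, Φ.mat_mul hs hX.hD, a9_smul Φ hX.hp e]
  exact h2

theorem Cut.of_fn (hΦ : Φ.FF T) (hX : Ok H X) {e : Matrix X.J X.J A} (he : Hm H 0 X.t X.t e)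
    (h : Cut G (Φ.obj X) (Φ.mat X.t X.t e)) : Cut H X e := by
  have h1 := f1_hm hΦ he hX.hD rfl
  refine ⟨he, f1_eq hΦ he he he h.ee, f1_eq hΦ hX.hp he he h.pe, f1_eq hΦ he hX.hp he h.ep,
    hΦ.mat_inj (h1.mul hΦ.lr (he.mono hΦ.le) rfl) (f1_hm hΦ hX.hD he rfl) ?_⟩
  rw [hΦ.mat_mul h1 (he.mono hΦ.le), Φ.mat_mul he hX.hD, Φ.mat_mul hX.hD he]
  exact h.De

end Pool.Agent.MP_f7db47_al.KN
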