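import Pool.Agent.MP_f7db47_al.KN.F1

/-!
The folded families.
-/

namespace Pool.Agent.MP_f7db47_al.KN

open Matrix

universe v w

variable {A : Type v} [Ring A] {Λ Λ' ι : Type} {H H' : Fam A Λ} {S : ι → Submonoid A}
  {K : Finset ι} {W : Set ℤ} {X X' Y : Cx A Λ} {w : A} {Z : Cx (Opn A) (Lab Λ)}

theorem f2_mul {x : Opn A} (y : Opn A) {N : ℕ} (hx : ∀ m n, en x m n ≠ 0 → n < N) (i k : ℕ) :
    en (x * y) i k = ∑ j : Fin N, en x i j * en y j k := by
  rw [en_mul, Fin.sum_univ_eq_sum_range (fun j => en x i j * en y j k)]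
  refine finsum_eq_sum_of_support_subset _ fun j hj => ?_
  exact Finset.mem_coe.2 (Finset.mem_range.2 (hx i j (left_ne_zero_of_mul hj)))

theorem f2_mul3 {H₁ H₂ H₃ : Fam A Λ} (h : Mul3 H₁ H₂ H₃) :
    Mul3 (fold H₁) (fold H₂) (fold H₃) := by
  intro a b c x y hx hy
  have e := f2_mul y fun m n h => (hx.2 m n h).2
  refine ⟨fun i k => ?_, fun m n hne => ?_⟩
  · rw [e]
    exact sum_mem fun j _ => h (hx.1 i j) (hy.1 j k)
  · rw [e] at hne
    obtain ⟨j, -, hj⟩ := Finset.exists_ne_zero_of_sum_ne_zero hne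
    exact ⟨(hx.2 _ _ (left_ne_zero_of_mul hj)).1, (hy.2 _ _ (right_ne_zero_of_mul hj)).2⟩

theorem f2_mono (h : H ≤ H') : fold H ≤ fold H' :=
  fun _ _ _ hx => ⟨fun i j => h _ _ (hx.1 i j), hx.2⟩

theorem unf_ff (H : Fam A Λ) : (unfFn H).FF (fold ⊤) where
  lr := f2_mul3 fun _ _ _ _ _ _ _ => trivial
  le := f2_mono le_top
  mul := (unfFn (⊤ : Fam A Λ)).mul
  inj a b x y hx hy h := by
    refine en_inj (Matrix.ext fun m n => ?_)
    by_cases hmn : m < a.n ∧ n < b.n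
    · exact congrFun (congrFun h ⟨m, hmn.1⟩) ⟨n, hmn.2⟩
    · rw [not_not.1 (mt (hx.2 m n) hmn), not_not.1 (mt (hy.2 m n) hmn)]
  surj a b M hM := by
    obtain ⟨x, hx⟩ := exists_en (A := A)
      (Matrix.of fun m n => if h : m < a.n ∧ n < b.n then M ⟨m, h.1⟩ ⟨n, h.2⟩ else 0)
      fun j => (Set.finite_Iio a.n).subset fun i hi => by
        by_contra hc
        exact hi (dif_neg fun h => hc h.1)
    have e : ∀ (i : Fin a.n) (j : Fin b.n), en x i j = M i j := fun i j => by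
      rw [hx]
      exact dif_pos ⟨i.2, j.2⟩
    refine ⟨x, ⟨fun i j => e i j ▸ hM i j, fun m n hne => ?_⟩, Matrix.ext e⟩
    by_contra hc
    rw [hx] at hne
    exact hne (dif_neg hc)

theorem fold_mono (h : H ≤ H') : fold H ≤ fold H' := f2_mono h

theorem Mul3.fold {H₁ H₂ H₃ : Fam A Λ} (h : Mul3 H₁ H₂ H₃) :
    Mul3 (fold H₁) (fold H₂) (fold H₃) := f2_mul3 h

theorem f2_sc (x : Opn A) (w : A) (m n : ℕ) : en (x * sc A w) m n = en x m n * w := by
  have e : ∀ j, en (sc A w) j n = w * (1 : Matrix ℕ ℕ A) j n := fun j => by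
    rw [← en_one, ← en_sc, mul_one]
  rw [en_mul, finsum_eq_single _ n fun j hj => by rw [e, one_apply_ne hj, mul_zero, mul_zero], e,
    one_apply_eq, mul_one]

theorem Sc.fold (h : Sc H w) : Sc (fold H) (sc A w) :=
  ⟨fun x => en_inj (Matrix.ext fun m n => by rw [en_sc, f2_sc, h.1]),
    fun _ _ x hx => ⟨fun i j => h.2 (hx.1 i j), fun m n hne =>
      hx.2 m n (right_ne_zero_of_mul (a := w) hne)⟩⟩

theorem Gr.fold {𝓗 : ℕ → Fam A Λ} (h : Gr 𝓗 S) : Gr (fun k => fold (𝓗 k)) (fS S) where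
  mono _ _ hk := f2_mono (h.mono hk)
  mul k k' := f2_mul3 (h.mul (k := k) (k' := k'))
  cen := by
    rintro a _ ⟨w, hw, rfl⟩
    exact (h.sc hw 0).fold.1
  stab := by
    rintro a _ ⟨w, hw, rfl⟩ k
    exact (h.sc hw k).fold.2

theorem Uni.fold (h : Uni S) : Uni (fS S) := by
  rintro a _ ⟨w, hw, rfl⟩
  exact (h a w hw).map (sc A)

theorem unf_lin (H : Fam A Λ) (S : ι → Submonoid A) : (unfFn H).Lin (fS S) S := by
  rintro a _ ⟨w, hw, rfl⟩
  exact ⟨w, hw, fun _ _ _ _ => rfl⟩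

theorem f2_common {T : Submonoid A} (hS : ∀ w ∈ T, Sc H w) {κ : Type} (U : Finset κ)
    (a b : κ → Λ) (x : κ → A) (h : ∀ k, ∃ w ∈ T, w * x k ∈ H (a k) (b k)) :
    ∃ w ∈ T, ∀ k ∈ U, w * x k ∈ H (a k) (b k) := by
  classical
  induction U using Finset.induction_on with
  | empty => exact ⟨1, one_mem _, fun _ hk => absurd hk (Finset.notMem_empty _)⟩
  | insert k U _ ih =>
    obtain ⟨w, hw, e⟩ := ih
    obtain ⟨w', hw', e'⟩ := h k
    refine ⟨w * w', mul_mem hw hw', fun l hl => ?_⟩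
    rcases Finset.mem_insert.1 hl with rfl | hl
    · rw [mul_assoc]
      exact (hS w hw).2 e'
    · rw [(hS w hw).1, mul_assoc]
      exact (hS w' hw').2 (e l hl)

theorem IsLoc.fold (hS : ∀ a, ∀ w ∈ S a, Sc H w) (hU : Uni S) {a : ι} (h : IsLoc H (S a) H') :
    IsLoc (fold H) (fS S a) (fold H') := by
  intro b c x
  constructor
  · intro hx
    obtain ⟨w, hw, e⟩ := f2_common (hS a) (Finset.univ : Finset (Fin b.n × Fin c.n))
      (fun k => b.l k.1) (fun k => c.l k.2) (fun k => en x k.1 k.2)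
      fun k => (h _ _ _).1 (hx.1 k.1 k.2)
    exact ⟨_, ⟨w, hw, rfl⟩, fun i j => e (i, j) (Finset.mem_univ _), fun m n hne =>
      hx.2 m n (right_ne_zero_of_mul (a := w) hne)⟩
  · rintro ⟨_, ⟨w, hw, rfl⟩, hx⟩
    exact ⟨fun i j => (h _ _ _).2 ⟨w, hw, hx.1 i j⟩, fun m n hne =>
      hx.2 m n fun e => hne ((hU a w hw).mul_right_eq_zero.1 e)⟩

/-- Local units. -/
theorem fold_unit (h1 : ∀ a, (1 : A) ∈ H a a) (U : Set Λ) (a : Lab Λ) :
    ∃ e ∈ fold (rs H U) a a, e * e = e ∧ ∀ b, ∀ x ∈ fold (rs H U) a b, e * x = x := by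
  classical
  obtain ⟨e, he⟩ := exists_en (A := A)
    (diagonal fun m => if ∃ h : m < a.n, a.l ⟨m, h⟩ ∈ U then 1 else 0)
    fun j => (Set.finite_singleton j).subset fun i hi => by
      by_contra hc
      exact hi (diagonal_apply_ne _ hc)
  have e1 : ∀ m n, en e m n ≠ 0 → m = n ∧ ∃ h : m < a.n, a.l ⟨m, h⟩ ∈ U := fun m n hne => by
    rw [he] at hne
    have hmn : m = n := by
      by_contra hc
      exact hne (diagonal_apply_ne _ hc)
    subst hmn
    refine ⟨rfl, ?_⟩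
    by_contra hc
    exact hne ((diagonal_apply_eq _ _).trans (if_neg hc))
  have e2 : ∀ m, (∃ h : m < a.n, a.l ⟨m, h⟩ ∈ U) → en e m m = 1 := fun m hm => by
    rw [he]
    exact (diagonal_apply_eq _ _).trans (if_pos hm)
  have e3 : e ∈ fold (rs H U) a a := by
    refine ⟨fun i j => ?_, fun m n hne => ?_⟩
    · by_cases h0 : en e i j = 0
      · rw [h0]
        exact zero_mem _
      · obtain ⟨hij, hi⟩ := e1 _ _ h0
        obtain rfl : i = j := Fin.ext hij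
        rw [e2 _ hi]
        exact ⟨h1 _, fun _ => ⟨hi.2, hi.2⟩⟩
    · obtain ⟨rfl, hm, -⟩ := e1 _ _ hne
      exact ⟨hm, hm⟩
  have e4 : ∀ b, ∀ x ∈ fold (rs H U) a b, e * x = x := fun b x hx => by
    refine en_inj (Matrix.ext fun m n => ?_)
    rw [en_mul, finsum_eq_single _ m fun j hj => by
      rw [not_not.1 (mt (e1 m j) fun h => hj h.1.symm), zero_mul]]
    by_cases h0 : en x m n = 0
    · rw [h0, mul_zero]
    · have hb := hx.2 m n h0
      rw [e2 m ⟨hb.1, ((hx.1 ⟨m, hb.1⟩ ⟨n, hb.2⟩).2 h0).1⟩, one_mul]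
  exact ⟨e, e3, e4 a e e3, e4⟩

theorem obj_unf (hS : ∀ a, ∀ w ∈ S a, Sc H w) (hZ : Ok (fold H) Z) :
    Obj H S K (unf Z) ↔ Obj (fold H) (fS S) K Z := by
  refine ⟨fun h => ⟨hZ, fun a ha => ?_⟩, fun h => Obj.fn (unfFn H) (unf_lin H S) h⟩
  obtain ⟨w, hw, hn⟩ := h.tor a ha
  exact ⟨_, ⟨w, hw, rfl⟩,
    Nul.of_fn (unf_ff H) hZ (hS a w hw).fold (w' := w) (fun _ _ _ _ => rfl) hn⟩

theorem std_unf (hp : Hm (fold H) 0 Z.t Z.t Z.p) : Std (unf Z) ↔ StdE (CP A) Z := by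
  constructor
  · rintro ⟨h1, h2⟩
    have key : ∀ i j m n, en (Z.p i j) m n ≠ 0 → i = j ∧ m = n := fun i j m n hne => by
      have hb := (hp i j).1.2 m n hne
      have e := not_not.1 (mt (h1 ⟨i, m, hb.1⟩ ⟨j, n, hb.2⟩) hne)
      exact ⟨congrArg Sigma.fst e, congrArg (fun x : (unf Z).J => (x.2 : ℕ)) e⟩
    refine ⟨fun i j hij => en_inj (Matrix.ext fun m n => ?_), fun i m n => ⟨fun hmn => ?_, ?_⟩⟩
    · exact not_not.1 (mt (key i j m n) fun h => hij h.1)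
    · exact not_not.1 (mt (key i i m n) fun h => hmn h.2)
    · by_cases hm : m < (Z.t i).1.n
      · exact h2 ⟨i, m, hm⟩
      · exact Or.inr (not_not.1 (mt ((hp i i).1.2 m m) fun h => hm h.1))
  · rintro ⟨h1, h2⟩
    refine ⟨?_, fun x => (h2 x.1 x.2 x.2).2⟩
    rintro ⟨i, m⟩ ⟨j, n⟩ hne
    change en (Z.p i j) m n = 0
    by_cases hij : i = j
    · subst hij
      exact (h2 i m n).1 fun e => hne (by rw [Fin.ext e])
    · rw [h1 i j hij]
      rfl

theorem wd_unf (h : Wd W Z) : Wd W (unf Z) := fun x => h x.1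

end Pool.Agent.MP_f7db47_al.KN
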