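import Pool.Agent.MP_f7db47_al.KN.F2
import Pool.Agent.MP_f7db47_al.KN.F0

/-!
Complexes with one index in each degree.
-/

namespace Pool.Agent.MP_f7db47_al.KN

open Matrix

universe v w

variable {A : Type v} [Ring A] {Λ Λ' ι : Type} {H H' : Fam A Λ} {S : ι → Submonoid A}
  {K : Finset ι} {W : Set ℤ} {X X' Y : Cx A Λ} {w : A} {Z : Cx (Opn A) (Lab Λ)} {L : ℕ}

theorem exists_box (hX : Ok H X) (hL : Bd L X) :
    ∃ μ p D, Ok (fold H) (box L μ p D) ∧ Sub (unf (box L μ p D)) X ∧ Sub X (unf (box L μ p D)) := by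
  classical
  let deg : X.J → Bx L := fun j => ⟨(X.t j).2, hL j⟩
  let n : Bx L → ℕ := fun b => Fintype.card {j // deg j = b}
  let q : ∀ b, Fin (n b) ≃ {j // deg j = b} := fun b => (Fintype.equivFin _).symm
  let μ : Bx L → Lab Λ := fun b => ⟨n b, fun i => (X.t (q b i).1).1⟩
  let e : (Σ b, Fin (n b)) ≃ X.J := (Equiv.sigmaCongrRight q).trans (Equiv.sigmaFiberEquiv deg)
  let s : Bx L → Lab Λ × ℤ := fun b => (μ b, b.1)
  have ht : ∀ x : Σ b, Fin (n b), ((μ x.1).l x.2, (x.1 : ℤ)) = X.t (e x) := by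
    rintro ⟨b, i⟩
    exact Prod.ext rfl (congrArg Subtype.val (q b i).2).symm
  have key : ∀ (d : ℤ) (M : Matrix X.J X.J A), Hm H d X.t X.t M →
      ∃ f, Hm (fold H) d s s f ∧ (unfFn H).mat s s f = M.submatrix e e := fun d M hM =>
    (unf_ff H).mat_surj (s := s) (t := s) (M := M.submatrix e e) fun x y => by
      have h1 := hM (e x) (e y)
      rw [← ht x, ← ht y] at h1
      exact h1
  obtain ⟨p, hp, ep⟩ := key 0 X.p hX.hp
  obtain ⟨D, hD, eD⟩ := key (-1) X.D hX.hD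
  have c := Sub.of_equiv (X' := unf (box L μ p D)) (X := X) e ht ep eD
  exact ⟨μ, p, D, Ok.of_fn (X := box L μ p D) (unf_ff H) hp hD (c.1.ok_iff.2 hX), c⟩

theorem f3_of_ok {t : Matrix X.J Y.J A} (h : Ok H (X.ext Y t)) : Tw H X Y t := by
  have h1 := congrArg toBlocks₁₂ h.pD
  have h2 := congrArg toBlocks₁₂ h.Dp
  have h3 := congrArg toBlocks₁₂ h.DD
  simp only [fromBlocks_multiply, toBlocks_fromBlocks₁₂, Matrix.zero_mul, Matrix.mul_zero,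
    add_zero, zero_add] at h1 h2 h3
  exact ⟨⟨fun i j => h.hD (.inl i) (.inr j), h1, h2⟩, h3⟩

theorem f3_tw {P P' Q Q' : Cx A Λ} {t : Matrix P.J Q.J A} (hP : Ok H P) (hQ : Ok H Q)
    (h : Sub P' P) (h' : Sub Q' Q) (c : Tw H P Q t) :
    ∃ t', Tw H P' Q' t' ∧ Sub (P'.ext Q' t') (P.ext Q t) := by
  obtain ⟨e, he, ht, hp, hD, sp, sD⟩ := h
  obtain ⟨e', he', ht', hp', hD', sp', sD'⟩ := h'
  have st : ∀ i j, t i j ≠ 0 → i ∈ Set.range e ∧ j ∈ Set.range e' := fun i j d => by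
    constructor
    · rw [← c.pl, mul_apply] at d
      obtain ⟨k, -, hk⟩ := Finset.exists_ne_zero_of_sum_ne_zero d
      exact (sp _ _ (left_ne_zero_of_mul hk)).1
    · rw [← c.pr, mul_apply] at d
      obtain ⟨k, -, hk⟩ := Finset.exists_ne_zero_of_sum_ne_zero d
      exact (sp' _ _ (right_ne_zero_of_mul hk)).2
  have key : ∀ (M : Matrix P.J P.J A) (T : Matrix P.J Q.J A) (N : Matrix Q.J Q.J A),
      (∀ i j, M i j ≠ 0 → i ∈ Set.range e ∧ j ∈ Set.range e) →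
      (∀ i j, T i j ≠ 0 → i ∈ Set.range e ∧ j ∈ Set.range e') →
      (∀ i j, N i j ≠ 0 → i ∈ Set.range e' ∧ j ∈ Set.range e') → ∀ i j,
      fromBlocks M T 0 N i j ≠ 0 →
        i ∈ Set.range (Sum.map e e') ∧ j ∈ Set.range (Sum.map e e') := by
    rintro M T N hM hT hN (i | i) (j | j) d
    · obtain ⟨⟨a, rfl⟩, b, rfl⟩ := hM i j d
      exact ⟨⟨.inl a, rfl⟩, .inl b, rfl⟩
    · obtain ⟨⟨a, rfl⟩, b, rfl⟩ := hT i j d
      exact ⟨⟨.inl a, rfl⟩, .inr b, rfl⟩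
    · exact absurd rfl d
    · obtain ⟨⟨a, rfl⟩, b, rfl⟩ := hN i j d
      exact ⟨⟨.inr a, rfl⟩, .inr b, rfl⟩
  have s : Sub (P'.ext Q' (t.submatrix e e')) (P.ext Q t) := by
    refine ⟨Sum.map e e', he.sumMap he', ?_, ?_, ?_,
      key _ _ _ sp (fun _ _ d => absurd rfl d) sp', key _ _ _ sD st sD'⟩
    · rintro (i | i)
      exacts [ht i, ht' i]
    · simp only [hp, hp']
      ext (i | i) (j | j) <;> rfl
    · simp only [hD, hD']
      ext (i | i) (j | j) <;> rfl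
  exact ⟨_, f3_of_ok (s.ok_iff.2 (hP.ext hQ c)), s⟩

theorem f3_fold {P Q : Cx A Λ} {P' Q' : Cx (Opn A) (Lab Λ)} {t : Matrix P.J Q.J A} (hP : Ok H P)
    (hQ : Ok H Q) (oP : Ok (fold H) P') (oQ : Ok (fold H) Q') (h : Sub (unf P') P)
    (h' : Sub (unf Q') Q) (c : Tw H P Q t) :
    ∃ u, Tw (fold H) P' Q' u ∧ Sub (unf (P'.ext Q' u)) (P.ext Q t) := by
  obtain ⟨t', c', s⟩ := f3_tw hP hQ h h' c
  obtain ⟨u, hu, rfl⟩ := Tw.of_fn (unf_ff H) oP oQ (t' := t') c'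
  exact ⟨u, hu, (sub_fn_ext (unfFn H) u).1.trans s⟩

theorem certB_of (hS : ∀ a, ∀ w ∈ S a, Sc H w) (hZ : Ok (fold H) Z)
    (h : Cert H S K (Set.Icc (-(L : ℤ)) L) (unf Z)) : CertB (fold H) (fS S) K L Z := by
  obtain ⟨P, Q, B, t, t', c, e, e'⟩ := h
  obtain ⟨a, p, D, oP, sP, -⟩ := exists_box c.oP.ok c.wP
  obtain ⟨b, q, E, oQ, sQ, -⟩ := exists_box c.oQ.ok c.wQ
  obtain ⟨d, r, F, oB, sB, -⟩ := exists_box c.oB.ok c.wB
  obtain ⟨u, hu, s⟩ := f3_fold c.oP.ok c.oQ.ok oP oQ sP sQ c.ht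
  obtain ⟨u', hu', s'⟩ := f3_fold c.oP.ok c.oQ.ok oP oQ sP sQ c.ht'
  have s0 := (sub_fn_ext (unfFn H) (0 : Matrix Z.J (box L d r F).J (Opn A))).1
  rw [Fn.mat_zero] at s0
  have s1 : Sub (unf (Z.sum (box L d r F))) ((unf Z).sum B) :=
    Sub.trans s0 ((Sub.refl _).sum sB)
  exact ⟨a, b, d, p, D, q, E, r, F, u, u',
    ⟨(obj_unf hS oP).1 (sP.obj_iff.2 c.oP), (obj_unf hS oQ).1 (sQ.obj_iff.2 c.oQ),
      (obj_unf hS oB).1 (sB.obj_iff.2 c.oB), Wd.univ _, Wd.univ _, Wd.univ _, hu, hu'⟩,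
    HE.of_fn (unf_ff H) (oP.ext oQ hu) (hZ.sum oB) (s.he_left.2 (s1.he_right.2 e)),
    HE.of_fn (unf_ff H) (oP.ext oQ hu') oB (s'.he_left.2 (sB.he_right.2 e'))⟩

theorem std_box (hZ : Ok (fold H) Z) (hY : Ok H Y) (hs : Std Y) (hL : Bd L Y)
    (h : HE H (unf Z) Y) : ∃ μ p D, Ok (fold H) (box L μ p D) ∧ StdE (CP A) (box L μ p D) ∧
      HE (fold H) Z (box L μ p D) := by
  obtain ⟨μ, p, D, o, s, -⟩ := exists_box hY hL
  exact ⟨μ, p, D, o, (std_unf o.hp).1 (s.std hs), HE.of_fn (unf_ff H) hZ o (s.he_right.2 h)⟩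

end Pool.Agent.MP_f7db47_al.KN
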