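import Pool.Agent.MP_f7db47_al.KN.A6
import Pool.Agent.MP_f7db47_al.KN.A7
import Pool.Agent.MP_f7db47_al.KN.A10

/-!
Three general tools: additive invariants, lifting along functors, free models.
-/

namespace Pool.Agent.MP_f7db47_al.KN

open Matrix

universe v w

variable {A : Type v} [Ring A] {Λ ι : Type} {H : Fam A Λ} {S : ι → Submonoid A}
  {K : Finset ι} {W : Set ℤ} {X Y : Cx A Λ}

section Inv

variable {M : Type w} [AddCommGroup M] {κ : Cx A Λ → M}

theorem o1_he (hH : Good H S)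
    (hx : ∀ X Y t, Obj H S K X → Obj H S K Y → Tw H X Y t → κ (X.ext Y t) = κ X + κ Y)
    (h0 : ∀ X, Ok H X → Nul H 1 X → κ X = 0) (hX : Obj H S K X) (hY : Obj H S K Y)
    (e : HE H X Y) : κ X = κ Y := by
  obtain ⟨f, g, h, k, e⟩ := e
  have h1 := h0 _ (hY.ok.cone hX.ok e.hf) (cone_nul hH.mul hX.ok hY.ok e)
  have h2 := h0 _ (hX.ok.cone hX.ok (Ch.id hX.ok)) (by
    have := cone_smul hX.ok (Sc.one (H := H))
    rwa [one_smul] at this)
  rw [hx _ _ _ hY (hX.sh 1) e.hf.tw] at h1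
  rw [hx _ _ _ hX (hX.sh 1) (Ch.id hX.ok).tw] at h2
  exact add_right_cancel (h2.trans h1.symm)

/-- Additive invariants vanish on objects with a certificate. -/
theorem Cert.inv (hH : Good H S)
    (hx : ∀ X Y t, Obj H S K X → Obj H S K Y → Tw H X Y t → κ (X.ext Y t) = κ X + κ Y)
    (h0 : ∀ X, Ok H X → Nul H 1 X → κ X = 0) (hX : Obj H S K X) (h : Cert H S K W X) :
    κ X = 0 := by
  obtain ⟨P, Q, B, t, t', d, e, e'⟩ := h
  have h1 := o1_he hH hx h0 (d.oP.ext hH d.ht d.oQ) (hX.sum hH d.oB) e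
  have h2 := o1_he hH hx h0 (d.oP.ext hH d.ht' d.oQ) d.oB e'
  rw [hx _ _ _ d.oP d.oQ d.ht, hx _ _ _ hX d.oB (Tw.zero _ _)] at h1
  rw [hx _ _ _ d.oP d.oQ d.ht', h1] at h2
  exact add_eq_right.1 h2

end Inv

section Pull

variable {A' : Type w} [Ring A'] {G : Fam A' Λ} {S' : ι → Submonoid A'} {φ : A →+ A'}

theorem o1_lift (hi : ∀ a b, ∀ x ∈ H a b, φ x = 0 → x = 0)
    (hs : ∀ a b, ∀ y ∈ G a b, ∃ x ∈ H a b, φ x = y) {d : ℤ} {J : Type} {s : J → Λ × ℤ}
    {f : Matrix J J A'} (hf : Hm G d s s f) : ∃ f', Hm H d s s f' ∧ f'.map φ = f := by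
  choose f' h1 h2 using fun i j => hs _ _ _ (hf i j).1
  exact ⟨f', fun i j => ⟨h1 i j, fun c => (hf i j).2 fun e => c (hi _ _ _ (h1 i j)
    ((h2 i j).trans e))⟩, Matrix.ext h2⟩

theorem o1_inj (hi : ∀ a b, ∀ x ∈ H a b, φ x = 0 → x = 0) {d d' : ℤ} {J : Type} {s : J → Λ × ℤ}
    {f g : Matrix J J A} (hf : Hm H d s s f) (hg : Hm H d' s s g) (h : f.map φ = g.map φ) :
    f = g := Matrix.ext fun i j => sub_eq_zero.1 (hi _ _ _ (sub_mem (hf i j).1 (hg i j).1) (by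
      rw [map_sub, sub_eq_zero]
      exact congrFun (congrFun h i) j))

/-- Vanishing passes along a functor that is bijective on the families. -/
theorem NullAll.pull' (hH : Good H S) (hφ : Sf H G S S' φ id)
    (hi : ∀ a b, ∀ x ∈ H a b, φ x = 0 → x = 0) (hs : ∀ a b, ∀ y ∈ G a b, ∃ x ∈ H a b, φ x = y)
    (hS : ∀ a, ∀ w' ∈ S' a, ∃ w ∈ S a, ∀ ⦃i j x⦄, x ∈ H i j → φ (w * x) = w' * φ x)
    (h : NullAll H S K) : NullAll G S' K := by
  rintro ⟨J, t, p, D⟩ ⟨hY, hT⟩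
  obtain ⟨p, hp, rfl⟩ := o1_lift (s := t) (f := p) hi hs hY.hp
  obtain ⟨D, hD, rfl⟩ := o1_lift (s := t) (f := D) hi hs hY.hD
  let X : Cx A Λ := ⟨J, t, p, D⟩
  have hX : Ok H X := ⟨hp, hD,
    o1_inj hi (hp.mul hH.mul hp rfl) hp ((hφ.map_mul hp hp).trans hY.pp),
    o1_inj hi (hp.mul hH.mul hD rfl) hD ((hφ.map_mul hp hD).trans hY.pD),
    o1_inj hi (hD.mul hH.mul hp rfl) hD ((hφ.map_mul hD hp).trans hY.Dp),
    o1_inj hi (hD.mul hH.mul hD rfl) (Hm.zero (d := 0) _ _)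
      ((hφ.map_mul hD hD).trans (hY.DD.trans (Matrix.map_zero _ (map_zero φ)).symm))⟩
  refine Cert.sf hφ hX (h X ⟨hX, fun a ha => ?_⟩)
  obtain ⟨w', hw', k, hk, e⟩ := hT a ha
  obtain ⟨w, hw, hw2⟩ := hS a w' hw'
  obtain ⟨k, hk', rfl⟩ := o1_lift (s := t) (f := k) hi hs hk
  refine ⟨w, hw, k, hk', o1_inj hi ((hD.mul hH.mul hk' (e := 0) rfl).add
    (hk'.mul hH.mul hD rfl)) (hp.smul (hH.sc hw)) ?_⟩
  rw [Matrix.map_add _ (map_add φ), hφ.map_mul hD hk', hφ.map_mul hk' hD]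
  exact e.trans (Matrix.ext fun i j => (hw2 (hp i j).1).symm)

end Pull

section Free

/-- All idempotent matrices are stably free. -/
def SFree (H : Fam A Unit) : Prop :=
  ∀ (J : Type) [Fintype J] [DecidableEq J] (p : Matrix J J A), (∀ i j, p i j ∈ H () ()) →
    p * p = p → ∃ (E : Type) (_ : Fintype E) (_ : DecidableEq E) (r : ℕ)
      (f : Matrix (J ⊕ E) (Fin r) A) (g : Matrix (Fin r) (J ⊕ E) A), (∀ i j, f i j ∈ H () ()) ∧
      (∀ i j, g i j ∈ H () ()) ∧ f * g = fromBlocks p 0 0 1 ∧ g * f = 1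

variable {H : Fam A Unit} {X : Cx A Unit}

theorem o1_one (hH : LR H) (h1 : 1 ∈ H () ()) (hF : SFree H) (hX : Ok H X) {a : ℤ}
    (hW : ∀ j, (X.t j).2 = a) : ∃ Y, Ok H Y ∧ Y.p = 1 ∧ HE H X Y := by
  obtain ⟨E, _, _, r, f, g, hf, hg, e1, e2⟩ := hF X.J X.p (fun i j => (hX.hp i j).1) hX.pp
  have hD : X.D = 0 := Matrix.ext fun i j => by
    by_contra c
    have := (hX.hD i j).2 c
    rw [hW, hW] at this
    omega
  have ok : ∀ (E : Type) [Fintype E] [DecidableEq E], Ok H ⟨E, fun _ => ((), a), 1, 0⟩ :=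
    fun E _ _ => ⟨fun i j => ⟨by
      change (1 : Matrix E E A) i j ∈ _
      rw [Matrix.one_apply]
      split_ifs
      exacts [h1, zero_mem _], fun _ => (add_zero a).symm⟩, Hm.zero _ _, mul_one _, mul_zero _,
      zero_mul _, mul_zero _⟩
  let Z : Cx A Unit := ⟨E, fun _ => ((), a), 1, 0⟩
  let Y : Cx A Unit := ⟨Fin r, fun _ => ((), a), 1, 0⟩
  have hZ : Ok H Z := ok E
  have hY : Ok H Y := ok _
  have hd : ∀ j, ((X.sum Z).t j).2 = a := by
    rintro (j | j)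
    exacts [hW j, rfl]
  have hD' : (X.sum Z).D = 0 := by
    change fromBlocks X.D 0 0 0 = 0
    rw [hD, fromBlocks_zero]
  have e3 : HE H (X.sum Z) Y := HE.of_iso (f := g) (g := f)
    ⟨⟨fun i j => ⟨hg i j, fun _ => ((add_zero _).trans (hd j)).symm⟩, Matrix.one_mul _, by
      change g * fromBlocks X.p 0 0 1 = g
      rw [← e1, ← Matrix.mul_assoc, e2, Matrix.one_mul]⟩, by
      rw [hD', Matrix.mul_zero]
      exact Matrix.zero_mul _⟩
    ⟨⟨fun i j => ⟨hf i j, fun _ => (hd i).trans (add_zero _).symm⟩, by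
      change fromBlocks X.p 0 0 1 * f = f
      rw [← e1, Matrix.mul_assoc, e2, Matrix.mul_one], Matrix.mul_one _⟩, by
      rw [hD', Matrix.zero_mul]
      exact (Matrix.mul_zero _).symm⟩ e1 e2
  obtain ⟨k, hk, e4⟩ := cone_sum hH hX hZ hY e3.symm
  exact ⟨Y.cone Z k, hY.cone hZ hk, fromBlocks_one, e4.symm⟩

/-- Every complex is equivalent to a free complex. -/
theorem stdz_of (hH : LR H) (h1 : 1 ∈ H () ()) (hF : SFree H) : Stdz H fun Y => Y.p = 1 := by
  have key : ∀ (n : ℕ) (a : ℤ) (X : Cx A Unit), Ok H X → Wd (Set.Ico a (a + n)) X →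
      ∃ Y, Ok H Y ∧ Y.p = 1 ∧ HE H X Y := by
    intro n
    induction n with
    | zero =>
      intro a X hX hW
      exact o1_one hH h1 hF hX (a := a) fun j => by
        have := hW j
        simp at this
    | succ n ih =>
      intro a X hX hW
      obtain ⟨h2, h3, t, ht, e⟩ := tri_res hH hX (fun j => (X.t j).2 = a)
        (fun i j hi hj => by
          by_contra c
          exact hi (by rw [(hX.hp i j).2 c, hj, add_zero]))
        (fun i j _ hj => by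
          by_contra c
          have := (hX.hD i j).2 c
          have := (hW i).1
          omega)
      obtain ⟨Y, a1, a2, a3⟩ := o1_one hH h1 hF h2 (a := a) fun j => j.2
      obtain ⟨Y', b1, b2, b3⟩ := ih (a + 1) _ h3 fun j => by
        have c1 := hW j.1
        have c2 := j.2
        simp only [Set.mem_Ico] at c1 ⊢
        push_cast at c1
        omega
      obtain ⟨t', c1, c2⟩ := ext_congr hH h2 a1 h3 b1 a3 b3 ht
      refine ⟨_, a1.ext b1 c1, ?_, e.trans hH c2⟩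
      change fromBlocks Y.p 0 0 Y'.p = 1
      rw [a2, b2, fromBlocks_one]
  intro X hX
  obtain ⟨L, hL⟩ := exists_bd X
  exact key (2 * L + 1) (-L) X hX (hL.mono fun x hx => by
    simp only [Set.mem_Ico, Set.mem_Icc] at hx ⊢
    push_cast
    omega)

end Free

end Pool.Agent.MP_f7db47_al.KN
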