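import Pool.Agent.MP_f7db47_al.KN.XD
import Pool.Agent.MP_f7db47_al.GF.FHb

/-!
Control of tubes over the flow space.
-/

namespace Pool.Agent.MP_f7db47_al.KN

open GN GF Metric

theorem control2 {S : Sp} (h : S.Geo) {G : Type} [Group G] {ρ : G →* Equiv.Perm S.X}
    (hρ : S.Isom ρ) {C κ ε : ℝ} (hC : 0 ≤ C) (hκ : 0 < κ) (hε : 0 < ε) (r₀ : ℝ) :
    ∃ (r : ℕ) (L : ℝ), 0 < r ∧ r₀ ≤ r ∧ ∀ g, dist (ρ g S.o) S.o ≤ C →
      ∀ x ∈ closedBall S.o r, ∀ y ∈ closedBall S.o r, ∀ l : ℝ, 0 ≤ l → l ≤ 1 → 1 - C / r ≤ l →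
        dist x (h.ln S.o (ρ g y) l) ≤ ε → ∃ s : ℝ, |s| ≤ 8 * C ∧
          ∀ t, dist (h.ctl r L x (t + s)) (ρ g (h.ctl r L y t)) ≤ 4 * ε * Real.exp (κ * |t|) := by
  have hε2 : 0 < 2 * ε := by positivity
  have hL0 : 0 < 4 / (2 * ε * κ ^ 2) := by positivity
  obtain ⟨L, hL⟩ : ∃ L : ℝ, L = 4 / (2 * ε * κ ^ 2) + 8 * C := ⟨_, rfl⟩
  have hLp : 0 < L := by linarith
  obtain ⟨r, hr⟩ := exists_nat_ge (2 * L + 10 * C * L / ε + |r₀|)
  have hq : 0 ≤ 10 * C * L / ε := by positivity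
  have ha := abs_nonneg r₀
  have hr1 : 2 * L ≤ r := by linarith
  have hr0 : (0 : ℝ) < r := by linarith
  have hr2 : 10 * C * L ≤ ε * r := by
    have : 10 * C * L / ε ≤ r := by linarith
    rw [div_le_iff₀ hε] at this
    linarith
  refine ⟨r, L, by exact_mod_cast hr0, by linarith [le_abs_self r₀],
    fun g hg x hx y hy l l0 l1 hl hxy => ?_⟩
  have q0 : 1 - 4 * C / r ≤ l := by
    have a1 : 0 ≤ C / r := by positivity
    have a2 : 4 * C / r = 4 * (C / r) := by ring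
    linarith
  obtain ⟨s, hs, hst⟩ := FHb_num hC hr0 hL0.le hL hr1 hr2 q0 l1
  refine ⟨s, hs, fun t => ?_⟩
  rw [show 4 * ε = 2 * (2 * ε) by ring]
  refine FHb_tail (a := fun t => h.ctl r L x (t + s)) (b := fun t => ρ g (h.ctl r L y t)) hκ hε2
    (fun t => ?_) (fun t => ?_) (fun t ht => ?_) t
  · simpa using FHb_lip h hr0 L hx (t + s) (0 + s)
  · have := FHb_lip h hr0 L hy 0 t
    rw [← hρ.iso g] at this
    simpa using this
  · obtain ⟨ht0, ht1⟩ := abs_le.mp ht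
    have a0 : 0 ≤ ((r : ℝ) - L + t) / r := div_nonneg (by linarith) hr0.le
    have a1 : ((r : ℝ) - L + t) / r ≤ 1 := by rw [div_le_one hr0]; linarith
    obtain ⟨b0, b1, b2⟩ := hst t ht
    have hv : dist (ρ g S.o) (ρ g y) ≤ r := by
      rw [hρ.iso, dist_comm]
      exact hy
    have e1 := FHb_core h S.o S.o (ρ g S.o) (ρ g y) (((r : ℝ) - L + t) / r)
      (by rwa [dist_self]) hg hv zero_le_one le_rfl l0 l1 b0 b1
    rw [← h.ln_smul hρ g S.o y a0 a1, h.ln_one, one_mul] at e1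
    have e2 := h.ln_conv S.o x S.o (h.ln S.o (ρ g y) l) b0 b1
    rw [dist_self, mul_zero, zero_add] at e2
    have e3 := e2.trans ((mul_le_of_le_one_left dist_nonneg b1).trans hxy)
    have e4 := (dist_triangle _ _ _).trans (add_le_add e3 (e1.trans b2))
    rw [two_mul]
    exact e4

end Pool.Agent.MP_f7db47_al.KN
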