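import Pool.Agent.MP_f7db47_al.KN.XF2
import Pool.Agent.MP_f7db47_al.KN.XF3
import Pool.Agent.MP_f7db47_al.GF.FMain

/-!
The flow space theorem and the method of Farrell and Hsiang for abstract vanishing properties.
-/

namespace Pool.Agent.MP_f7db47_al.KN

open GN GF

variable {G : Type} [Group G] {Q : Subgroup G → Prop} (T : VT G Q)

theorem VT.van2 (hQ : ∀ H H' : Subgroup G, H' ≤ H → Q H → Q H') (N k L : ℕ) : ∃ r : ℕ,
    ∀ (Λ ι : Type) [Finite ι] (S : ι → Spi G Λ), (∀ a, {i | 0 < (S i).ht a}.ncard ≤ N) →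
      (∀ i a, 0 < (S i).ht a → Q ((S i).leg.grp a)) → (∀ a, ∃ i, r ≤ (S i).ht a) →
      T.V Λ (fun a g b => ∀ i, (S i).rel k a g b) L := by
  obtain ⟨r, hr⟩ := T.van N (4 * k) L
  refine ⟨N * r + 1, fun Λ ι _ S hN hS hc => ?_⟩
  refine T.pull id (fun a g b hg => ?_) le_rfl
    (hr Λ (Fin N) (fun q => FVan_S S id q) (by simp) (fun q j hj => ?_) fun j => ?_)
  · exact fun q => FVan_rel (l := id) hg q.1
  · have a1 : ¬ FVan_u (fun i => (S i).ht j) q ≤ FVan_u (fun i => (S i).ht j) (q + 1) :=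
      not_le.2 (Nat.sub_pos_iff_lt.1 hj)
    rw [FVan_le, not_le] at a1
    obtain ⟨i, hi⟩ := Set.nonempty_of_ncard_ne_zero (Nat.zero_lt_of_lt a1).ne'
    exact hQ _ _ (fun g hg => hg.2 i hi) (hS i j (Nat.zero_lt_of_lt hi))
  · obtain ⟨i, hi⟩ := hc j
    exact FVan_cover (hN j) hi

theorem VT.flow (hQ : ∀ H H' : Subgroup G, H' ≤ H → Q H → Q H') {Γ : Type} [Group Γ]
    {Fam : Set (Subgroup Γ)} (hP : HasPack Γ Fam) (f : G →* Γ)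
    (hc : ∀ (B : Subgroup Γ) (φ : B →* MZ), (∀ g, φ g = 1 → IsOfFinOrder g) → Q (B.comap f))
    (hF : ∀ B ∈ Fam, Q (B.comap f)) : T.All := by
  classical
  obtain ⟨S, hS, ⟨Pk⟩⟩ := hP
  intro S₀ L
  let ρ' : G →* Equiv.Perm S.X := Pk.ρ.comp f
  have hρ : S.Isom ρ' := ⟨fun γ x y => Pk.iso (f γ) x y, fun γ c hc => Pk.line (f γ) c hc⟩
  obtain ⟨C, hC0, hC1, -⟩ := FMain_bound S₀ fun g => dist (ρ' g S.o) S.o
  obtain ⟨Y, _, _, F, ev, hE⟩ := exists_flow hS Pk.toAct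
  obtain ⟨N, hN⟩ := Pack.spiders hS.geo Pk hE
  obtain ⟨n, hn⟩ := hS.fine
  obtain ⟨c, hc3⟩ := T.tr (n + 1)
  obtain ⟨r, hr⟩ := T.van2 hQ N 1 (L + (n + 1))
  have hcC : 0 ≤ (c : ℝ) * C := by positivity
  obtain ⟨ε, hε, ι, _, Tt, hT1, hT2, hT3, hT4⟩ := hN (8 * (c * C)) r (by positivity)
  obtain ⟨η, hη, hηε⟩ : ∃ η : ℝ, 0 < η ∧ ((c : ℝ) ^ 2 + 1) * η = ε / 4 :=
    ⟨ε / 4 / ((c : ℝ) ^ 2 + 1), by positivity, by field_simp⟩
  obtain ⟨r0, L0, hr0, hCr, hct⟩ := control2 hS.geo hρ hcC hE.pos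
    (show 0 < ε / 4 by positivity) (C * C / (2 * η))
  have hr0' : (0 : ℝ) < r0 := by exact_mod_cast hr0
  have hCr' : C * C ≤ 2 * η * r0 := by
    rw [div_le_iff₀ (by positivity)] at hCr
    linarith
  obtain ⟨W, _, K, Adj, pt, Fr, hTow, hpt, hrel1, hrel⟩ := tow_flow hS hn hρ hC0 hη hr0 hCr'
  have hk0 : ∀ x ∈ Metric.closedBall S.o (r0 : ℝ), ∃ y : Y, ev y = hS.geo.ctl r0 L0 x :=
    fun x hx => hE.surj _ (hS.geo.ctl_mem hr0' L0 hx).1 (hS.geo.ctl_mem hr0' L0 hx).2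
  have ho : S.o ∈ Metric.closedBall S.o (r0 : ℝ) := Metric.mem_closedBall_self hr0'.le
  have : Nonempty Y := ⟨(hk0 _ ho).choose⟩
  choose! k hk using hk0
  have hY := hr Y ι (fun i => (Tt i).pull f id) hT1 (fun i y hy => by
    obtain ⟨B₀, hB₀, hB⟩ := hT3 i y hy
    refine hQ (B₀.comap f) _ (fun x hx => hB₀ hx) ?_
    rcases hB with hB | ⟨φ, hφ⟩
    · exact hF B₀ hB
    · exact hc B₀ φ hφ) hT4
  have h4 : 4 * (ε / 4) = ε := by ring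
  refine T.pull (fun _ => ()) (fun _ g _ hg => hrel1 g (hC1 g hg)) le_rfl
    (hc3 Unit W Fr (fun _ => K) (fun _ => Adj) L hTow ?_)
  refine T.pull (fun x => k (pt (x.1.2.min' x.2.2))) (fun x g y hxy i => ?_) le_rfl hY
  have hx := hpt _ (x.2.1.1 (x.1.2.min'_mem x.2.2))
  have hy := hpt _ (y.2.1.1 (y.1.2.min'_mem y.2.2))
  obtain ⟨a1, l, a2, a3, a4, a5⟩ := hrel c x.1.2 g y.1.2 _ _ hxy y.2.1
    (x.1.2.min'_mem x.2.2) (y.1.2.min'_mem y.2.2)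
  obtain ⟨s, hs, hs'⟩ := hct g a1 _ hx _ hy l a2 a3 a4 (a5.trans hηε.le)
  refine hT2 i (k _) (f g) (k _) ⟨s, hs, ?_⟩
  rw [hE.dist_le]
  intro t
  rw [hE.flow, hE.smul, hk _ hx, hk _ hy, ← h4]
  exact hs' t

theorem VT.fh (hQ : ∀ H H' : Subgroup G, H' ≤ H → Q H → Q H') (N : ℕ)
    (h : ∀ (r : ℕ) (S₀ : Finset G) (π : ℕ), π.Prime → VC.FHD Q N r S₀ π) : T.All := by
  intro S₀ L
  obtain ⟨r, hr⟩ := T.van2 hQ N 1 L
  have key : ∀ {X : Type} (σ : G →* Equiv.Perm X), VC.Ctrl Q N r S₀ σ →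
      T.V X (fun x g y => g ∈ S₀ ∧ σ g y = x) L := by
    rintro X σ ⟨ι, _, S, c1, c2, c3, c4⟩
    refine T.pull id (fun x g y hg i => ?_) le_rfl (hr X ι S c1 c2 c3)
    obtain ⟨h1, rfl⟩ := hg
    exact c4 g h1 y i
  refine T.swan S₀ L fun π hπ => ?_
  obtain ⟨n, X₀, i₀, σ₀, X, i₁, σ, c0, c1, c2, c3⟩ := h r S₀ π hπ
  exact ⟨n, X₀, i₀, σ₀, X, i₁, σ, key σ₀ c0, fun i => key (σ i) (c1 i), c2, c3⟩

end Pool.Agent.MP_f7db47_al.KN
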