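import Pool.Agent.MP_f7db47_al.KN.XG2
import Pool.Agent.MP_f7db47_al.KN.XF4
import Pool.Agent.MP_f7db47_al.VC.VB

/-!
From abstract vanishing properties to properties of groups.
-/

namespace Pool.Agent.MP_f7db47_al.KN

open GN GF

variable {G₀ : Type} [Group G₀] {Q Q₀ : Pp G₀}

theorem XR_unit (hs : Q.Sub) {G : Type} [Group G] {i : G →* G₀} (h : Q G i) : Q PUnit.{1} 1 := by
  have h1 := hs (1 : PUnit.{1} →* G) (fun _ _ _ => Subsingleton.elim _ _) h
  rwa [show i.comp (1 : PUnit.{1} →* G) = 1 from MonoidHom.ext fun _ => map_one i] at h1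

theorem XR_le (hs : Q.Sub) {G : Type} [Group G] (i : G →* G₀) (H H' : Subgroup G) (h : H' ≤ H)
    (hq : Q.on i H) : Q.on i H' :=
  hs (Subgroup.inclusion h) (Subgroup.inclusion_injective h) hq

theorem Pp.Red.flow (hR : Q.Red Q₀) (hle : ∀ (G : Type) [Group G] (i : G →* G₀), Q G i → Q₀ G i)
    (hs : Q.Sub) (h0 : Q₀.Flow) : Q.Flow := by
  intro Γ G _ _ i Fam hP f hc hF
  refine hR (XR_unit hs (hc ⊥ 1 fun g _ => ?_)) G i
    (h0 hP f (fun B φ hφ => hle _ _ (hc B φ hφ)) fun B hB => hle _ _ (hF B hB))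
    fun Δ _ p hp T => ?_
  · rw [Subsingleton.elim g 1]
    exact IsOfFinOrder.one
  · exact T.flow (XR_le hs _) hP (f.comp p) (fun B φ hφ => hp _ (hc B φ hφ))
      fun B hB => hp _ (hF B hB)

theorem Pp.Red.lat2 (hR : Q.Red Q₀) (hle : ∀ (G : Type) [Group G] (i : G →* G₀), Q G i → Q₀ G i)
    (hs : Q.Sub) (h0 : Q₀.Lat2) : Q.Lat2 := by
  intro G _ i ι _ P n ρ F κ _ _ _ k f hE hH
  refine hR (XR_unit hs (hH ⊥ fun g hg => ?_)) G i
    (h0 P n ρ k f hE fun H h => hle _ _ (hH H h)) fun Δ _ p hp T => ?_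
  · rw [Subgroup.commutator_bot_left, Subgroup.mem_bot] at hg
    rw [hg, map_one, Matrix.trace_one]
    exact natCast_mem k _
  · refine T.nice P n (fun l => (ρ l).comp p) (d := Fintype.card κ * Fintype.card κ)
      ⟨fun K => Module.finrank F (GZ.spn (f.comp p) K), GZ.finrank_spn_bound _,
        fun s h => GZ.finrank_spn_le _ h, fun h hq => XR_le hs _ _ _ h hq,
        fun K K' S h1 h2 h3 h4 h5 h6 => ?_⟩
    refine XR_le hs _ _ _ (Subgroup.le_comap_map p _) (hp _ (hH _ ?_))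
    rw [← Subgroup.map_commutator]
    rintro _ ⟨g, hg, rfl⟩
    exact GZ.trace_commutator k (f.comp p) h1 h3 (fun x hx => hE (p x) (h2 x hx)) h4 h5 h6 g hg

theorem Pp.Red.fh (hR : Q.Red Q₀) (hle : ∀ (G : Type) [Group G] (i : G →* G₀), Q G i → Q₀ G i)
    (hs : Q.Sub) (h0 : Q₀.Fh) : Q.Fh := by
  classical
  intro h1 N G _ i h
  refine hR h1 G i (h0 (hle _ _ h1) N G i fun r S₀ π hπ => ?_) fun Δ _ p hp T => ?_
  · exact (h r S₀ π hπ).pull (MonoidHom.id G) (fun _ hg => hg) fun K hK => hle _ _ hK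
  · exact T.fh (XR_le hs _) N fun r S₀ π hπ =>
      (h r (S₀.image p) π hπ).pull p (fun _ hg => Finset.mem_image_of_mem p hg) hp

end Pool.Agent.MP_f7db47_al.KN
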