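import Pool.Agent.MP_f7db47_al.KN.XL2
import Pool.Agent.MP_f7db47_al.KN.XR
import Pool.Agent.MP_f7db47_al.TW.Vc
import Pool.Agent.MP_f7db47_al.VD.Main

/-!
The property given by invertible matrices over twisted group rings, and full theories.
-/

namespace Pool.Agent.MP_f7db47_al.KN

open GN GF Function

universe v

theorem polyZ_mz : PolyZ MZ :=
  PolyZ.ext _ (MonoidHom.id _) (PolyZ.triv _ ⟨fun a b => Subtype.ext (a.2.trans b.2.symm)⟩)

section

variable {G₀ : Type} [Group G₀]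

/-- Passage to products with the integers. -/
def Pp.ProdZ (Q : Pp G₀) : Prop :=
  ∀ {G : Type} [Group G] {i : G →* G₀}, Q G i → Q (G × MZ) (i.comp (MonoidHom.fst G MZ))

/-- Local sections on a finite set. -/
def Sec {G G' : Type} [Group G] [Group G'] (S : Finset G) (q : G' →* G) (s : G → G') : Prop :=
  (∀ g ∈ S, q (s g) = g) ∧ ∀ g ∈ S, ∀ h ∈ S, g * h ∈ S → s (g * h) = s g * s h

/-- Passage to colimits. -/
def Pp.Colim (Q : Pp G₀) : Prop :=
  ∀ {G : Type} [Group G] {i : G →* G₀},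
    (∀ S : Finset G, ∃ (G' : Type) (_ : Group G') (q : G' →* G) (s : G → G'),
      Sec S q s ∧ Q G' (i.comp q)) → Q G i

/-- The reduction to finite-by-cyclic subgroups. -/
theorem Pp.fj {Q : Pp G₀} (hs : Q.Sub) (hl : Q.Loc) (hf : Q.Flow) (h2 : Q.Lat2) (hh : Q.Fh)
    (hz : Q.ProdZ) (hc : Q.Colim) {Γ G : Type} [Group Γ] [Group G] (hΓ : VD.FJ Γ) (i : G →* G₀)
    (f : G →* Γ) (h : ∀ B : Subgroup Γ, (∃ φ : B →* Multiplicative ℤ, Finite φ.ker) →
      Q.on i (B.comap f)) : Q G i :=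
  hΓ G₀ ⟨Q, hs, hl, hf⟩ ⟨hh, gl_of hs hl hf h2, hz, fun h => hc fun S => by
    obtain ⟨G', _, q, s, h1, h2, h3⟩ := h S
    exact ⟨G', _, q, s, ⟨h1, h2⟩, h3⟩⟩ G i f h

variable {κ : Sort*} {Q : κ → Pp G₀}

theorem Pp.Sub.all (h : ∀ k, (Q k).Sub) : Pp.Sub fun G _ i => ∀ k, Q k G i :=
  fun f hf a k => h k f hf (a k)

theorem Pp.Loc.all (h : ∀ k, (Q k).Loc) : Pp.Loc fun G _ i => ∀ k, Q k G i :=
  fun a k => h k fun K hK => a K hK k

theorem Pp.Flow.all (h : ∀ k, (Q k).Flow) : Pp.Flow fun G _ i => ∀ k, Q k G i :=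
  fun hP f a b k => h k hP f (fun B φ hφ => a B φ hφ k) fun B hB => b B hB k

theorem Pp.Lat2.all (h : ∀ k, (Q k).Lat2) : Pp.Lat2 fun G _ i => ∀ k, Q k G i := by
  intro G _ i ι _ P n ρ F κ _ _ _ k₀ f hE hH k
  exact h k P n ρ k₀ f hE fun H a => hH H a k

theorem Pp.Fh.all (h : ∀ k, (Q k).Fh) : Pp.Fh fun G _ i => ∀ k, Q k G i :=
  fun h1 N G _ i a k => h k (h1 k) N G i fun r S₀ π hπ =>
    (a r S₀ π hπ).pull (MonoidHom.id G) (fun _ hg => hg) fun _ hK => hK k

theorem Pp.ProdZ.all (h : ∀ k, (Q k).ProdZ) : Pp.ProdZ fun G _ i => ∀ k, Q k G i :=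
  fun a k => h k (a k)

theorem Pp.Colim.all (h : ∀ k, (Q k).Colim) : Pp.Colim fun G _ i => ∀ k, Q k G i :=
  fun a k => h k fun S => by
    obtain ⟨G', _, q, s, h1, h2⟩ := a S
    exact ⟨G', _, q, s, h1, h2 k⟩

end

/-- Pulling back a local section to a subgroup of a product. -/
theorem Sec.pull {G G' P Δ : Type} [Group G] [Group G'] [Group P] [Group Δ] [DecidableEq G]
    (f : Δ →* G × P) (hf : Injective f) (S : Finset Δ) {q : G' →* G} {s : G → G'}
    (h : Sec (S.image fun x => (f x).1) q s) :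
    ∃ (Δ' : Type) (_ : Group Δ') (f' : Δ' →* G' × P) (q' : Δ' →* Δ) (s' : Δ → Δ'),
      Injective f' ∧ (∀ x, q (f' x).1 = (f (q' x)).1) ∧ Sec S q' s' := by
  classical
  let Δ' : Subgroup (Δ × G') := MonoidHom.eqLocus
    ((MonoidHom.fst G P).comp (f.comp (MonoidHom.fst Δ G'))) (q.comp (MonoidHom.snd Δ G'))
  have hm : ∀ x ∈ S, (x, s (f x).1) ∈ Δ' := fun x hx =>
    (h.1 _ (Finset.mem_image_of_mem _ hx)).symm
  refine ⟨Δ', inferInstance, ((MonoidHom.snd Δ G').comp Δ'.subtype).prod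
    ((MonoidHom.snd G P).comp (f.comp ((MonoidHom.fst Δ G').comp Δ'.subtype))),
    (MonoidHom.fst Δ G').comp Δ'.subtype, fun x => if hx : x ∈ S then ⟨_, hm x hx⟩ else 1,
    fun x y e => ?_, fun x => x.2.symm, fun g hg => ?_, fun g hg k hk hgk => ?_⟩
  · have e1 : x.1.2 = y.1.2 := congrArg Prod.fst e
    refine Subtype.ext (Prod.ext (hf (Prod.ext ?_ (congrArg Prod.snd e :))) e1)
    exact x.2.trans ((congrArg q e1).trans y.2.symm)
  · simp only [dif_pos hg]
    rfl
  · simp only [dif_pos hg, dif_pos hk, dif_pos hgk]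
    refine Subtype.ext (Prod.ext rfl ?_)
    have := h.2 _ (Finset.mem_image_of_mem _ hg) _ (Finset.mem_image_of_mem _ hk)
      (Finset.mem_image.2 ⟨_, hgk, by rw [map_mul]; rfl⟩)
    change s (f (g * k)).1 = _
    rw [map_mul]
    exact this

section Lift

variable {R : Type v} [Ring R] {G G' : Type} [Group G] [Group G'] [MulSemiringAction G R]
  [MulSemiringAction G' R] {S : Finset G} {q : G' →* G} {s : G → G'}

omit [Group G] [MulSemiringAction G R] in
theorem sup_ind {U : Set G} {motive : SkewMonoidAlgebra R G → Prop} {x : SkewMonoidAlgebra R G}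
    (hx : TW.Sup U x) (zero : motive 0) (add : ∀ x y, motive x → motive y → motive (x + y))
    (single : ∀ g ∈ U, ∀ r, motive (SkewMonoidAlgebra.single g r)) : motive x := by
  rw [← TW.Sk.sum_coeff_single x, Finsupp.sum]
  exact Finset.sum_induction _ _ add zero fun g hg => single g (hx g (Finsupp.mem_support_iff.1 hg)) _

theorem Sec.map_lift [TW.Cp R q] (h : Sec S q s) {x : SkewMonoidAlgebra R G}
    (hx : TW.Sup (S : Set G) x) : TW.mapR R q (SkewMonoidAlgebra.mapDomain s x) = x := by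
  refine sup_ind (motive := fun x => TW.mapR R q (SkewMonoidAlgebra.mapDomain s x) = x) hx
    (by simp) (fun x y hx hy => by rw [map_add, map_add, hx, hy]) fun g hg r => ?_
  rw [SkewMonoidAlgebra.mapDomain_single, TW.mapR_single, h.1 g hg]

theorem Sec.lift_mul [hq : TW.Cp R q] (h : Sec S q s) {U U' : Set G} (hU : U ⊆ S) (hU' : U' ⊆ S)
    (hm : ∀ g ∈ U, ∀ k ∈ U', g * k ∈ S) {x y : SkewMonoidAlgebra R G} (hx : TW.Sup U x)
    (hy : TW.Sup U' y) : SkewMonoidAlgebra.mapDomain s (x * y) =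
      SkewMonoidAlgebra.mapDomain s x * SkewMonoidAlgebra.mapDomain s y := by
  refine sup_ind (motive := fun x => SkewMonoidAlgebra.mapDomain s (x * y) =
    SkewMonoidAlgebra.mapDomain s x * SkewMonoidAlgebra.mapDomain s y) hx (by simp)
    (fun x y hx hy => by rw [add_mul, map_add, map_add, hx, hy, add_mul]) fun g hg r => ?_
  refine sup_ind (motive := fun y => SkewMonoidAlgebra.mapDomain s (_ * y) =
    SkewMonoidAlgebra.mapDomain s _ * SkewMonoidAlgebra.mapDomain s y) hy (by simp)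
    (fun x y hx hy => by rw [mul_add, map_add, map_add, hx, hy, mul_add]) fun k hk r' => ?_
  simp only [SkewMonoidAlgebra.single_mul_single, SkewMonoidAlgebra.mapDomain_single]
  rw [h.2 g (hU hg) k (hU' hk) (hm g hg k hk), hq.eq, h.1 g (hU hg)]

omit [MulSemiringAction G R] [MulSemiringAction G' R] in
theorem Sec.one (h : Sec S q s) (h1 : 1 ∈ S) : s 1 = 1 := by
  have := h.2 1 h1 1 h1 (by rwa [mul_one])
  rw [mul_one] at this
  exact left_eq_mul.1 this

omit [MulSemiringAction G R] [MulSemiringAction G' R] in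
theorem Sec.lift_one (h : Sec S q s) (h1 : 1 ∈ S) :
    SkewMonoidAlgebra.mapDomain s (1 : SkewMonoidAlgebra R G) = 1 := by
  rw [SkewMonoidAlgebra.one_def, SkewMonoidAlgebra.mapDomain_single, h.one h1]
  rfl

theorem g1_colim (h : ∀ S : Finset G, ∃ (G' : Type) (_ : Group G') (_ : MulSemiringAction G' R)
    (q : G' →* G) (_ : TW.Cp R q) (s : G → G'), Sec S q s ∧ TW.G1 R G') : TW.G1 R G := by
  classical
  intro J _ _ A B hAB hBA
  obtain ⟨a, ha, -⟩ := TW.exists_finset_msup A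
  obtain ⟨b, hb, -⟩ := TW.exists_finset_msup B
  obtain ⟨G', _, _, q, _, s, hs, hG⟩ := h (insert 1 (a ∪ b ∪ (Finset.image₂ (· * ·) a b ∪
    Finset.image₂ (· * ·) b a)))
  have e : ∀ {A B : Matrix J J (SkewMonoidAlgebra R G)} {a b c : Finset G}, TW.MSup (a : Set G) A →
      TW.MSup (b : Set G) B → A * B = 1 → Sec c q s → 1 ∈ c → a ⊆ c → b ⊆ c →
      Finset.image₂ (· * ·) a b ⊆ c →
      A.map (SkewMonoidAlgebra.mapDomain s) * B.map (SkewMonoidAlgebra.mapDomain s) = 1 := by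
    intro A B a b c ha hb hAB hs h1 h2 h3 h4
    rw [← Matrix.map_one _ (map_zero (SkewMonoidAlgebra.mapDomain s)) (hs.lift_one h1), ← hAB]
    ext1 i k
    simp only [Matrix.mul_apply, Matrix.map_apply, map_sum]
    exact Finset.sum_congr rfl fun j _ => (hs.lift_mul h2 h3
      (fun g hg k hk => h4 (Finset.mem_image₂_of_mem hg hk)) (ha i j) (hb j k)).symm
  have h1 : a ⊆ insert 1 (a ∪ b ∪ (Finset.image₂ (· * ·) a b ∪ Finset.image₂ (· * ·) b a)) :=
    fun x hx => by simp [hx]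
  have h2 : b ⊆ insert 1 (a ∪ b ∪ (Finset.image₂ (· * ·) a b ∪ Finset.image₂ (· * ·) b a)) :=
    fun x hx => by simp [hx]
  have := TW.T_map q (hG J _ _
    (e ha hb hAB hs (Finset.mem_insert_self _ _) h1 h2 fun x hx => by simp only
      [Finset.mem_insert, Finset.mem_union, hx, true_or, or_true])
    (e hb ha hBA hs (Finset.mem_insert_self _ _) h2 h1 fun x hx => by simp only
      [Finset.mem_insert, Finset.mem_union, hx, or_true]))
  rwa [show (A.map (SkewMonoidAlgebra.mapDomain s)).map (TW.mapR R q) = A from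
    Matrix.ext fun i j => hs.map_lift ((ha i j).mono h1)] at this

end Lift

variable (R : Type v) [Ring R] (G₀ : Type) [Group G₀] [MulSemiringAction G₀ R]

/-- The property given by invertible matrices. -/
def Q0 : Pp G₀ := fun G _ i => letI := MulSemiringAction.compHom R i; TW.QQ R G

variable {R G₀}

theorem q0_iff {G : Type} [Group G] [MulSemiringAction G R] {i : G →* G₀}
    (h : ∀ (g : G) (x : R), g • x = i g • x) : Q0 R G₀ G i ↔ TW.QQ R G :=
  ⟨fun a => @TW.QQ.sub' R _ G G _ (MulSemiringAction.compHom R i) _ _ a (MonoidHom.id G) h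
    injective_id, fun a => @TW.QQ.sub' R _ G G _ _ _ (MulSemiringAction.compHom R i) a
    (MonoidHom.id G) (fun g x => (h g x).symm) injective_id⟩

theorem q0_sub : (Q0 R G₀).Sub := by
  intro G H _ _ i f hf h
  let _ := MulSemiringAction.compHom R i
  let _ := MulSemiringAction.compHom R (i.comp f)
  exact TW.QQ.sub' h f (fun _ _ => rfl) hf

theorem q0_loc : (Q0 R G₀).Loc := by
  intro G _ i h
  let _ := MulSemiringAction.compHom R i
  exact TW.qq_loc h

theorem q0_prodZ : (Q0 R G₀).ProdZ := by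
  intro G _ i h
  let _ := MulSemiringAction.compHom R i
  exact TW.QQ.prod_poly h polyZ_mz

theorem q0_colim : (Q0 R G₀).Colim := by
  classical
  intro G _ i h
  let _ := MulSemiringAction.compHom R i
  intro P _ hP Δ _ _ f hc hf
  refine g1_colim fun S => ?_
  obtain ⟨G', _, q, s, h1, h2⟩ := h (S.image fun x => (f x).1)
  obtain ⟨Δ', _, f', q', s', a1, a2, a3⟩ := h1.pull f hf S
  let _ := MulSemiringAction.compHom R (i.comp q)
  let _ := MulSemiringAction.compHom R q'
  refine ⟨Δ', _, _, q', ⟨fun _ _ => rfl⟩, s', a3, @h2 P _ hP Δ' _ _ f' ⟨fun a x => ?_⟩ a1⟩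
  exact (hc.eq (q' a) x).trans (congrArg (fun g => i g • x) (a2 a).symm)

variable [TW.NR R]

theorem q0_flow : (Q0 R G₀).Flow := (TW.thyTW R G₀).flow

theorem q0_lat2 : (Q0 R G₀).Lat2 := by
  intro G _ i ι _ P n ρ F κ _ _ _ k f hE hH
  let _ := MulSemiringAction.compHom R i
  exact TW.qq_lat2 P n ρ k f hE hH

theorem q0_fh : (Q0 R G₀).Fh := fun h1 N G _ i h => by
  obtain ⟨r, hr⟩ := (TW.thyTW R G₀).fh h1 N
  exact hr G i (h r)

end Pool.Agent.MP_f7db47_al.KN
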