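import Pool.Agent.MP_f7db47_al.KN.DG
import Pool.Agent.MP_f7db47_al.KN.XQ
import Pool.Agent.MP_f7db47_al.KN.O1
import Pool.Agent.MP_f7db47_al.KN.A8a
import Pool.Agent.MP_f7db47_al.KN.A17
import Pool.Agent.MP_f7db47_al.TW.OFl

/-!
Vanishing over twisted group rings: change of groups, colimits, swindles and free models.
-/

namespace Pool.Agent.MP_f7db47_al.KN

open Matrix GN Function

universe v w

variable {ι : Type} {κ : Type w} {R : Type v} [Ring R] {G G' : Type} [Group G] [Group G']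
  [MulSemiringAction G R] [MulSemiringAction G' R] {Λ : Type} {D : Subring R}
  {r r' : Λ → G → Λ → Prop} {C : Coef ι κ R}

theorem g0_single {a b : Λ} {g : G} {c : R} (hc : c ∈ D) (hr : r a g b) :
    SkewMonoidAlgebra.single g c ∈ ctl D r a b := fun k => by
  classical
  rw [SkewMonoidAlgebra.coeff_single, Finsupp.single_apply]
  split_ifs with e
  exacts [⟨hc, fun _ => e ▸ hr⟩, ⟨zero_mem _, fun e => absurd rfl e⟩]

theorem g0_ind {a b : Λ} {motive : SkewMonoidAlgebra R G → Prop} {x : SkewMonoidAlgebra R G}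
    (hx : x ∈ ctl D r a b) (zero : motive 0) (add : ∀ x y, motive x → motive y → motive (x + y))
    (single : ∀ g, r a g b → ∀ c ∈ D, motive (SkewMonoidAlgebra.single g c)) : motive x := by
  rw [← TW.Sk.sum_coeff_single x, Finsupp.sum]
  exact Finset.sum_induction _ _ add zero fun g hg =>
    single g ((hx g).2 (Finsupp.mem_support_iff.1 hg)) _ (hx g).1

theorem g0_le (h : ∀ a g b, r a g b → r' a g b) : ctl D r ≤ ctl D r' :=
  fun _ _ _ hx g => ⟨(hx g).1, fun e => h _ _ _ ((hx g).2 e)⟩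

theorem g0_memS {a : ι} {w : SkewMonoidAlgebra R G} :
    w ∈ C.S G a ↔ ∃ n : ℕ, w = SkewMonoidAlgebra.single 1 (C.u a ^ n) :=
  ⟨fun ⟨n, e⟩ => ⟨n, e.symm.trans (dg_pow _ n)⟩, fun ⟨n, e⟩ => ⟨n, (dg_pow _ n).trans e.symm⟩⟩

theorem g0_fu [C.Inv G] (I : κ) : Good (ful G (C.D I)) (C.S G) := (C.sca I).good

theorem g0_lin (s : G → G') (c : R) (x : SkewMonoidAlgebra R G) :
    SkewMonoidAlgebra.mapDomain s (SkewMonoidAlgebra.single 1 c * x) =
      SkewMonoidAlgebra.single 1 c * SkewMonoidAlgebra.mapDomain s x := by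
  induction x using TW.Sk.induction_linear with
  | zero => simp
  | add x y hx hy => rw [mul_add, map_add, map_add, hx, hy, mul_add]
  | single g d => simp only [SkewMonoidAlgebra.single_mul_single,
      SkewMonoidAlgebra.mapDomain_single, one_mul, one_smul]

theorem g0_sf {q : Λ → G' → Λ → Prop} (s : G → G') (h : ∀ a g b, r a g b → q a (s g) b)
    (hm : ∀ ⦃a b c x y⦄, x ∈ ctl D r a b → y ∈ ctl D r b c → SkewMonoidAlgebra.mapDomain s (x * y) =
      SkewMonoidAlgebra.mapDomain s x * SkewMonoidAlgebra.mapDomain s y) :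
    Sf (ctl D r) (ctl D q) (C.S G) (C.S G') (SkewMonoidAlgebra.mapDomain s) id where
  mem a b _ hx := g0_ind (motive := fun x => SkewMonoidAlgebra.mapDomain s x ∈ ctl D q a b) hx
    (by rw [map_zero]; exact zero_mem _) (fun _ _ p q => by rw [map_add]; exact add_mem p q)
    fun g hg c hc => by
      rw [SkewMonoidAlgebra.mapDomain_single]
      exact g0_single hc (h _ _ _ hg)
  mul := hm
  lin a w hw := by
    obtain ⟨n, rfl⟩ := g0_memS.1 hw
    exact ⟨_, g0_memS.2 ⟨n, rfl⟩, fun _ _ x _ => g0_lin s _ x⟩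

theorem g0_sf_hom {q : Λ → G' → Λ → Prop} (f : G →* G') [TW.Cp R f]
    (h : ∀ a g b, r a g b → q a (f g) b) :
    Sf (ctl D r) (ctl D q) (C.S G) (C.S G') (SkewMonoidAlgebra.mapDomain f) id :=
  g0_sf f h fun _ _ _ x y _ _ => map_mul (TW.mapR R f) x y

theorem g0_hm_fin {d : ℤ} {J : Type} [Fintype J] {s : J → Λ × ℤ}
    {f : Matrix J J (SkewMonoidAlgebra R G)} (hf : Hm (ctl D r) d s s f) :
    ∃ T : Finset G, Hm (ctl D fun _ g _ => g ∈ T) d s s f := by
  obtain ⟨T, hT, -⟩ := TW.exists_finset_msup f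
  exact ⟨T, fun i j => ⟨fun g => ⟨((hf i j).1 g).1, hT i j g⟩, (hf i j).2⟩⟩

/-- Objects have finite support. -/
theorem g0_fin {S : ι → Submonoid (SkewMonoidAlgebra R G)} {K : Finset ι}
    {X : Cx (SkewMonoidAlgebra R G) Λ} (hX : Obj (ctl D r) S K X) :
    ∃ T : Finset G, Obj (ctl D fun _ g _ => g ∈ T) S K X := by
  classical
  obtain ⟨T₁, h1⟩ := g0_hm_fin hX.ok.hp
  obtain ⟨T₂, h2⟩ := g0_hm_fin hX.ok.hD
  choose w hw k hk e using fun a : K => hX.tor a.1 a.2
  choose T h3 using fun a : K => g0_hm_fin (hk a)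
  refine ⟨T₁ ∪ T₂ ∪ Finset.univ.biUnion T, ⟨h1.mono (g0_le fun _ _ _ c => by simp [c]),
    h2.mono (g0_le fun _ _ _ c => by simp [c]), hX.ok.pp, hX.ok.pD, hX.ok.Dp, hX.ok.DD⟩,
    fun a ha => ⟨_, hw ⟨a, ha⟩, _, (h3 ⟨a, ha⟩).mono (g0_le fun _ _ _ c => ?_), e _⟩⟩
  exact Finset.mem_union_right _ (Finset.mem_biUnion.2 ⟨_, Finset.mem_univ _, c⟩)

variable (C G) in
/-- Vanishing over the twisted group rings of `G`. -/
def NZ : Prop := ∀ (I : κ) (K : Finset ι), NullAll (ful G (C.D I)) (C.S G) K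

theorem nz_colim (h : ∀ S : Finset G, ∃ (G' : Type) (_ : Group G') (_ : MulSemiringAction G' R)
    (q : G' →* G) (_ : TW.Cp R q) (s : G → G'), Sec S q s ∧ NZ G' C) : NZ G C := by
  classical
  intro I K X hX
  obtain ⟨T, hT⟩ := g0_fin hX
  obtain ⟨G', _, _, q, _, s, hs, hG⟩ := h (T ∪ Finset.image₂ (· * ·) T T)
  have h1 : (T : Set G) ⊆ (T ∪ Finset.image₂ (· * ·) T T : Finset G) :=
    Finset.coe_subset.2 Finset.subset_union_left
  have h2 := hT.sf (g0_sf (C := C) (q := fun _ _ _ => True) s (fun _ _ _ _ => trivial)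
    fun _ _ _ _ _ hx hy => hs.lift_mul h1 h1
      (fun g hg k hk => Finset.mem_union_right _ (Finset.mem_image₂_of_mem hg hk))
      (fun g => (hx g).2) fun g => (hy g).2)
  have h3 := (hG I K _ h2).sf (g0_sf_hom (C := C) (q := fun _ _ _ => True) q
    fun _ _ _ _ => trivial) h2.ok
  have e : ∀ {d : ℤ} {f : Matrix X.J X.J (SkewMonoidAlgebra R G)},
      Hm (ctl (C.D I) fun _ g _ => g ∈ T) d X.t X.t f →
      (f.map (SkewMonoidAlgebra.mapDomain s)).map (SkewMonoidAlgebra.mapDomain q) = f :=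
    fun hf => Matrix.ext fun i j => hs.map_lift fun g c => h1 (((hf i j).1 g).2 c)
  refine (Sub.cert_iff (Sub.of_equiv (X' := X) ?_ ?_ ?_ ?_).1).2 h3
  exacts [Equiv.refl _, fun _ => rfl, (e hT.ok.hp).symm, (e hT.ok.hD).symm]

theorem NZ.nzs [C.Inv G'] (f : G' →* G) [TW.Cp R f] (hf : Injective f) (h : NZ G' C) :
    NZs C f.range := fun I K => by
  refine NullAll.pull (g0_sf_hom f fun _ g _ _ => ⟨g, rfl⟩) (TW.Sk.mapDomain_injective hf)
    (fun a b y hy => ⟨TW.Sk.comapDomain f hf y, fun g => ⟨(hy (f g)).1, fun _ => trivial⟩,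
      TW.Sk.mapDomain_comapDomain (fun g hg => (hy g).2 (Finsupp.mem_support_iff.1 hg)) hf⟩)
    (fun a w hw => ?_) (h I K)
  obtain ⟨n, rfl⟩ := g0_memS.1 hw
  exact ⟨_, g0_memS.2 ⟨n, rfl⟩, fun _ _ x _ => g0_lin f _ x⟩

section Incl

variable [IsInvariantSubring G D]

variable (G D) in
/-- The inclusion of twisted group rings. -/
noncomputable def incl : SkewMonoidAlgebra D G →+* SkewMonoidAlgebra R G :=
  SkewMonoidAlgebra.liftNCRingHom (SkewMonoidAlgebra.singleOneRingHom.comp D.subtype)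
    (SkewMonoidAlgebra.of R G) (by
      intro x y
      change SkewMonoidAlgebra.single 1 (y • (x : R)) * SkewMonoidAlgebra.single y 1 =
        SkewMonoidAlgebra.single y 1 * SkewMonoidAlgebra.single 1 (x : R)
      simp only [SkewMonoidAlgebra.single_mul_single, one_mul, mul_one, one_smul])

theorem incl_single (g : G) (d : D) :
    incl G D (SkewMonoidAlgebra.single g d) = SkewMonoidAlgebra.single g (d : R) := by
  refine (SkewMonoidAlgebra.liftNC_single _ _ _ _).trans ?_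
  change SkewMonoidAlgebra.single 1 (d : R) * SkewMonoidAlgebra.single g 1 = _
  simp only [SkewMonoidAlgebra.single_mul_single, one_mul, mul_one, one_smul]

theorem coeff_incl (x : SkewMonoidAlgebra D G) (g : G) : (incl G D x).coeff g = x.coeff g := by
  classical
  induction x using TW.Sk.induction_linear with
  | zero => simp
  | add x y hx hy => simp [hx, hy]
  | single k d =>
    rw [incl_single, SkewMonoidAlgebra.coeff_single, SkewMonoidAlgebra.coeff_single,
      Finsupp.single_apply, Finsupp.single_apply]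
    split_ifs <;> rfl

theorem incl_inj : Injective (incl G D) := fun x y h => SkewMonoidAlgebra.ext fun g =>
  Subtype.ext (by rw [← coeff_incl, ← coeff_incl, h])

theorem incl_mem (x : SkewMonoidAlgebra D G) : incl G D x ∈ ful G D () () :=
  fun g => ⟨coeff_incl x g ▸ (x.coeff g).2, fun _ => trivial⟩

theorem incl_surj {a b : Λ} {y : SkewMonoidAlgebra R G} (hy : y ∈ ctl D r a b) :
    ∃ x, incl G D x = y :=
  g0_ind (motive := fun y => ∃ x, incl G D x = y) hy ⟨0, map_zero _⟩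
    (fun _ _ ⟨x, p⟩ ⟨x', q⟩ => ⟨x + x', by rw [map_add, p, q]⟩)
    fun g _ c hc => ⟨_, incl_single g ⟨c, hc⟩⟩

end Incl

/-- Stable freeness along an injective homomorphism onto the family. -/
theorem sfree_of {B : Type v} [Ring B] [MulSemiringAction G B] {A : Type*} [Ring A]
    {H : Fam A Unit} (φ : SkewMonoidAlgebra B G →+* A) (hi : Injective φ)
    (hm : ∀ x, φ x ∈ H () ()) (hs : ∀ y ∈ H () (), ∃ x, φ x = y) (h : TW.G0 B G) : SFree H := by
  intro J _ _ p hp pp
  choose p' e using fun i j => hs _ (hp i j)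
  obtain rfl : (Matrix.of p').map φ = p := Matrix.ext e
  have hq : Matrix.of p' * Matrix.of p' = Matrix.of p' :=
    Matrix.map_injective hi (by simpa [Matrix.map_mul] using pp)
  obtain ⟨E, _, _, n, f, g, e1, e2⟩ := (h J _ hq).free hq
  refine ⟨E, inferInstance, inferInstance, n, f.map φ, g.map φ, fun _ _ => hm _, fun _ _ => hm _, ?_, ?_⟩
  · rw [← Matrix.map_mul, e1, fromBlocks_map, Matrix.map_zero _ (map_zero φ),
      Matrix.map_zero _ (map_zero φ), Matrix.map_one _ (map_zero φ) (map_one φ)]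
  · rw [← Matrix.map_mul, e2, Matrix.map_one _ (map_zero φ) (map_one φ)]

theorem stdz_fu [h : C.Inv G] (I : κ) (h0 : TW.G0 (C.D I) G) :
    Stdz (ful G (C.D I)) fun Y => Y.p = 1 :=
  stdz_of (g0_fu I).mul (g0_single (one_mem _) trivial)
    (sfree_of (incl G (C.D I)) incl_inj incl_mem (fun _ hy => incl_surj hy) h0)

/-- Vanishing for free objects with finite support suffices. -/
theorem nz_of_vv [C.Inv G] (h0 : ∀ I, TW.G0 (C.D I) G)
    (h : ∀ (I : κ) (K : Finset ι) (T : Finset G) (L : ℕ),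
      VV (C.D I) (C.S G) K Unit (fun _ g _ => g ∈ T) L) :
    NZ G C := fun I K X hX => by
  obtain ⟨Y, hY, hp, e⟩ := stdz_fu I (h0 I) X hX.ok
  obtain ⟨T, hT⟩ := g0_fin (hX.he (g0_fu I) hY e)
  obtain ⟨L, hL⟩ := exists_bd Y
  refine Cert.he (g0_fu I).mul ?_ e
  exact h I K T L Y hT hL ⟨fun i j c => by rw [hp, Matrix.one_apply_ne c],
    fun i => Or.inl (by rw [hp, Matrix.one_apply_eq])⟩

/-- A swindle that is compatible with the coefficients. -/
structure Coef.Fla (C : Coef ι κ R) (F : TW.Fl R) : Prop where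
  σ : ∀ I, ∀ x ∈ C.D I, F.σ x ∈ C.D I
  a₀ : ∀ I, F.a₀ ∈ C.D I
  b₀ : ∀ I, F.b₀ ∈ C.D I
  a₁ : ∀ I, F.a₁ ∈ C.D I
  b₁ : ∀ I, F.b₁ ∈ C.D I
  lin : ∀ a x, F.σ (C.u a * x) = C.u a * F.σ x

variable {F : TW.Fl R}

/-- The swindle on a subring. -/
def Coef.Fla.res (h : C.Fla F) (I : κ) : TW.Fl (C.D I) where
  σ := (F.σ.comp (C.D I).subtype.toAddMonoidHom).codRestrict (C.D I) fun x => h.σ I x x.2
  a₀ := ⟨_, h.a₀ I⟩
  b₀ := ⟨_, h.b₀ I⟩
  a₁ := ⟨_, h.a₁ I⟩
  b₁ := ⟨_, h.b₁ I⟩
  mul x y := Subtype.ext (F.mul x y)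
  h0 := Subtype.ext F.h0
  h1 := Subtype.ext F.h1
  h01 := Subtype.ext F.h01
  eq x := Subtype.ext (F.eq x)

theorem Coef.Fla.qq [C.Inv G] (h : C.Fla F) (hi : ∀ g : G, F.Inv fun x => g • x) (I : κ) :
    TW.QQ (C.D I) G :=
  (h.res I).qq fun g => ⟨fun x => Subtype.ext ((hi g).σ x), Subtype.ext (hi g).a₀,
    Subtype.ext (hi g).b₀, Subtype.ext (hi g).a₁, Subtype.ext (hi g).b₁⟩

theorem Coef.Fla.nz [C.Inv G] (h : C.Fla F) (hi : ∀ g : G, F.Inv fun x => g • x) : NZ G C := by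
  intro I K
  have e : ∀ (g : G) (c : R), (F.skew hi).σ (SkewMonoidAlgebra.single g c) =
      SkewMonoidAlgebra.single g (F.σ c) := fun g c => by
    refine (SkewMonoidAlgebra.liftNC_single _ _ _ _).trans ?_
    change SkewMonoidAlgebra.single 1 (F.σ c) * SkewMonoidAlgebra.single g 1 = _
    simp only [SkewMonoidAlgebra.single_mul_single, one_mul, mul_one, one_smul]
  have e' : ∀ (a : ι) (n : ℕ) (x : R), F.σ (C.u a ^ n * x) = C.u a ^ n * F.σ x := fun a n x => by
    induction n with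
    | zero => simp
    | succ n ih => rw [pow_succ', mul_assoc, h.lin, ih, mul_assoc]
  have m : ∀ c ∈ C.D I, ∀ ⦃i j x⦄, x ∈ ful G (C.D I) i j →
      SkewMonoidAlgebra.single 1 c * x ∈ ful G (C.D I) i j ∧
        x * SkewMonoidAlgebra.single 1 c ∈ ful G (C.D I) i j := fun c hc i j x hx =>
    ⟨(g0_fu I).mul (g0_single (a := i) (b := i) hc trivial) hx,
      (g0_fu I).mul hx (g0_single (a := j) (b := j) hc trivial)⟩
  refine swindle (g0_fu I) (σ := (F.skew hi).σ) ⟨fun a b x hx => ?_,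
    fun _ _ _ x y _ _ => (F.skew hi).mul x y, fun a w hw => ⟨w, hw, fun _ _ x hx => ?_⟩⟩
    (F.skew hi).mul ?_ (F.skew hi).h0 (F.skew hi).h1 (F.skew hi).h01 (F.skew hi).eq
  · exact g0_ind (motive := fun x => (F.skew hi).σ x ∈ ful G (C.D I) a b) hx
      (by rw [map_zero]; exact zero_mem _) (fun _ _ p q => by rw [map_add]; exact add_mem p q)
      fun g _ c hc => by rw [e]; exact g0_single (h.σ I c hc) trivial
  · obtain ⟨n, rfl⟩ := g0_memS.1 hw
    clear hx
    induction x using TW.Sk.induction_linear with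
    | zero => simp
    | add x y hx hy => rw [mul_add, map_add, map_add, hx, hy, mul_add]
    | single g d => simp only [SkewMonoidAlgebra.single_mul_single, e, e', one_mul, one_smul]
  · rintro _ (rfl | rfl | rfl | rfl)
    exacts [m _ (h.a₀ I), m _ (h.b₀ I), m _ (h.a₁ I), m _ (h.b₁ I)]

end Pool.Agent.MP_f7db47_al.KN
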