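import Pool.Agent.MP_f7db47_al.KN.G0

/-!
The full theory given by twisted group rings.
-/

namespace Pool.Agent.MP_f7db47_al.KN

open Matrix GN GF Function

universe v w

section

variable {G₀ : Type} [Group G₀] {Q : Pp G₀}

theorem Pp.Colim.loc (h : Q.Colim) : Q.Loc := by
  classical
  intro G _ i hK
  have e : ∀ {S : Finset G} {g : G}, g ∈ S → g ∈ Subgroup.closure (S : Set G) :=
    fun hg => Subgroup.subset_closure hg
  refine h fun S => ⟨Subgroup.closure (S : Set G), inferInstance, Subgroup.subtype _,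
    fun g => if c : g ∈ Subgroup.closure (S : Set G) then ⟨g, c⟩ else 1, ⟨fun g hg => ?_,
      fun g hg k hk hgk => ?_⟩, hK _ ⟨S, rfl⟩⟩
  · simp only [dif_pos (e hg)]
    rfl
  · simp only [dif_pos (e hg), dif_pos (e hk), dif_pos (e hgk)]
    rfl

end

variable {ι : Type} {κ : Type w} {R : Type v} [Ring R] (C : Coef ι κ R) (G₀ : Type) [Group G₀]
  [MulSemiringAction G₀ R]

/-- Vanishing for a group over `G₀`. -/
def NZp : Pp G₀ := fun G _ i => letI := MulSemiringAction.compHom R i; NZ G C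

variable [hC : C.Inv G₀]

/-- The property in low degrees, for all subrings. -/
def QA : Pp G₀ := fun G _ i => ∀ I, Q0 (C.D I) G₀ G i

/-- The full property. -/
def QF : Pp G₀ := fun G _ i => QA C G₀ G i ∧ ∀ (P : Type) [Group P], PolyZ P →
  ∀ (Δ : Type) [Group Δ] (f : Δ →* G × P), Injective f →
    NZp C G₀ Δ (i.comp ((MonoidHom.fst G P).comp f))

/-- Abstract vanishing properties exist. -/
def MkVT : Prop := ∀ (G : Type) [Group G] [MulSemiringAction G R] [C.Inv G] (I : κ) (K : Finset ι)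
  (Q : Subgroup G → Prop), (∀ H, Q H → QG C H) → ∃ T : VT G Q, T.V = VV (C.D I) (C.S G) K

variable {C G₀}

theorem inv_comp {G : Type} [Group G] (i : G →* G₀) :
    letI := MulSemiringAction.compHom R i; C.Inv G :=
  letI := MulSemiringAction.compHom R i
  ⟨fun I g => hC.D I (i g), fun a g => hC.u a (i g)⟩

theorem qa_sub : (QA C G₀).Sub := Pp.Sub.all fun _ => q0_sub

theorem qf_sub : (QF C G₀).Sub := fun f hf h => ⟨qa_sub f hf h.1, fun P _ hP Δ _ g hg =>
  h.2 P hP Δ ((f.prodMap (MonoidHom.id P)).comp g) ((hf.prodMap injective_id).comp hg)⟩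

theorem qa_prod {G P : Type} [Group G] [Group P] {i : G →* G₀} (h : QA C G₀ G i) (hP : PolyZ P) :
    QA C G₀ (G × P) (i.comp (MonoidHom.fst G P)) := fun I => by
  let _ := MulSemiringAction.compHom (C.D I) i
  exact TW.QQ.prod_poly (h I) hP

theorem qf_prod {G P : Type} [Group G] [Group P] {i : G →* G₀} (h : QF C G₀ G i) (hP : PolyZ P) :
    QF C G₀ (G × P) (i.comp (MonoidHom.fst G P)) := ⟨qa_prod h.1 hP, fun P' _ hP' Δ _ g hg =>
  h.2 (P × P') (polyZ_prod hP hP') Δ
    ((MulEquiv.prodAssoc (M := G) (N := P) (P := P')).toMonoidHom.comp g)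
    ((MulEquiv.prodAssoc (M := G) (N := P) (P := P')).injective.comp hg)⟩

theorem qf_prodZ : (QF C G₀).ProdZ := fun h => qf_prod h polyZ_mz

theorem qf_colim : (QF C G₀).Colim := by
  classical
  intro G _ i h
  refine ⟨Pp.Colim.all (fun _ => q0_colim) fun S => ?_, fun P _ hP Δ _ f hf => ?_⟩
  · obtain ⟨G', _, q, s, h1, h2⟩ := h S
    exact ⟨G', _, q, s, h1, h2.1⟩
  let _ := MulSemiringAction.compHom R (i.comp ((MonoidHom.fst G P).comp f))
  refine nz_colim fun S => ?_
  obtain ⟨G', _, q, s, h1, h2⟩ := h (S.image fun x => (f x).1)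
  obtain ⟨Δ', _, f', q', s', a1, a2, a3⟩ := h1.pull f hf S
  let a := MulSemiringAction.compHom R ((i.comp q).comp ((MonoidHom.fst G' P).comp f'))
  exact ⟨Δ', _, a, q', ⟨fun g x => congrArg (fun k => i k • x) (a2 g)⟩, s', a3, h2.2 P hP Δ' f' a1⟩

theorem QF.nz {G : Type} [Group G] {i : G →* G₀} (h : QF C G₀ G i) : NZp C G₀ G i :=
  h.2 PUnit (PolyZ.triv _ inferInstance) G (MonoidHom.inl _ _) fun _ _ e => congrArg Prod.fst e

theorem qf_qg {G : Type} [Group G] (i : G →* G₀) (H : Subgroup G) (h : (QF C G₀).on i H) :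
    letI := MulSemiringAction.compHom R i; haveI := inv_comp (C := C) i; QG C H := by
  let _ := MulSemiringAction.compHom R i
  have := inv_comp (C := C) i
  refine ⟨fun I => (q0_iff fun _ _ => rfl).1 (h.1 I), fun H' hH => ?_⟩
  have h2 : NZ H' C := (XR_le qf_sub i H H' hH h).nz
  have : C.Inv H' := inv_comp (C := C) (i.comp H'.subtype)
  have h3 := h2.nzs H'.subtype H'.subtype_injective
  rwa [Subgroup.range_subtype] at h3

theorem qf_red (hT : MkVT C) : (QF C G₀).Red (QA C G₀) := by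
  intro _ G _ i h0 h
  refine ⟨h0, fun P _ hP Δ _ f hf => ?_⟩
  let p : Δ →* G := (MonoidHom.fst G P).comp f
  let _ := MulSemiringAction.compHom R (i.comp p)
  have := inv_comp (C := C) (i.comp p)
  refine nz_of_vv (fun I => ((q0_iff fun _ _ => rfl).1 (qa_sub f hf (qa_prod h0 hP) I)).g0)
    fun I K S L => ?_
  obtain ⟨T, e⟩ := hT Δ I K _ (qf_qg (i.comp p))
  rw [← e]
  refine h Δ p (fun B hB => ?_) T S L
  exact qf_sub (((p.comp (B.comap p).subtype).codRestrict B fun x => x.2).prod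
    ((MonoidHom.snd G P).comp (f.comp (B.comap p).subtype)))
    (fun x y c => Subtype.ext (hf (Prod.ext (congrArg (fun z => (z.1 : G)) c)
      (congrArg (fun z => z.2) c)))) (qf_prod hB hP)

/-- The reduction to finite-by-cyclic subgroups. -/
theorem qf_fj (hT : MkVT C) (hN : ∀ I, TW.NR (C.D I)) {Γ G : Type} [Group Γ] [Group G]
    (hΓ : VD.FJ Γ) (i : G →* G₀) (f : G →* Γ)
    (h : ∀ B : Subgroup Γ, (∃ φ : B →* Multiplicative ℤ, Finite φ.ker) →
      (QF C G₀).on i (B.comap f)) : QF C G₀ G i :=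
  Pp.fj qf_sub (Pp.Colim.loc qf_colim)
    ((qf_red hT).flow (fun _ _ _ a => a.1) qf_sub (Pp.Flow.all fun _ => q0_flow))
    ((qf_red hT).lat2 (fun _ _ _ a => a.1) qf_sub (Pp.Lat2.all fun _ => q0_lat2))
    ((qf_red hT).fh (fun _ _ _ a => a.1) qf_sub (Pp.Fh.all fun _ => q0_fh))
    qf_prodZ qf_colim hΓ i f h

/-- Groups that preserve a swindle. -/
theorem qf_fla {F : TW.Fl R} (hF : C.Fla F) {G : Type} [Group G] {i : G →* G₀}
    (h : ∀ g : G, F.Inv fun x => i g • x) : QF C G₀ G i := by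
  refine ⟨fun I => ?_, fun P _ _ Δ _ f _ => ?_⟩
  · let _ := MulSemiringAction.compHom R i
    have := inv_comp (C := C) i
    exact (q0_iff fun _ _ => rfl).2 (hF.qq h I)
  · let _ := MulSemiringAction.compHom R (i.comp ((MonoidHom.fst G P).comp f))
    have := inv_comp (C := C) (i.comp ((MonoidHom.fst G P).comp f))
    exact hF.nz fun g => h (f g).1

/-- The group theoretic conclusion. -/
theorem nz_fj (hT : MkVT C) (hN : ∀ I, TW.NR (C.D I)) {Γ : Type} [Group Γ] (hΓ : VD.FJ Γ)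
    (f : G₀ →* Γ) (h : ∀ B : Subgroup Γ, (∃ φ : B →* Multiplicative ℤ, Finite φ.ker) →
      ∃ F : TW.Fl R, C.Fla F ∧ ∀ g, f g ∈ B → F.Inv fun x => g • x) :
    NZ G₀ C ∧ ∀ I, TW.QQ (C.D I) G₀ := by
  have := qf_fj hT hN hΓ (MonoidHom.id G₀) f fun B hB => by
    obtain ⟨F, h1, h2⟩ := h B hB
    exact qf_fla h1 fun g => h2 g g.2
  exact ⟨this.nz, fun I => (q0_iff fun _ _ => rfl).1 (this.1 I)⟩

end Pool.Agent.MP_f7db47_al.KN
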