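import Pool.Agent.MP_f7db47_al.KN.T5

/-!
Homotopy categories of additive categories, part 1: amplitude, cutting of complexes.
-/

set_option linter.unusedSectionVars false
set_option backward.isDefEq.respectTransparency false

open CategoryTheory Limits Pretriangulated ZeroObject Triangulated Category

universe u v u' v' w w'

namespace Pool.Agent.MP_f7db47_al.KN.TC

/-- Cochain complexes. -/
abbrev Cx (V : Type u) [Category.{v} V] [Preadditive V] := CochainComplex V ℤ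

/-- The homotopy category of cochain complexes. -/
abbrev HC (V : Type u) [Category.{v} V] [Preadditive V] := HomotopyCategory V (ComplexShape.up ℤ)

/-- The projection to the homotopy category. -/
abbrev qt (V : Type u) [Category.{v} V] [Preadditive V] : Cx V ⥤ HC V :=
  HomotopyCategory.quotient V (ComplexShape.up ℤ)

variable {V : Type u} [Category.{v} V] [Preadditive V]
  {V' : Type u'} [Category.{v'} V'] [Preadditive V']

/-- The functor on complexes. -/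
abbrev cx (F : V ⥤ V') [F.Additive] : Cx V ⥤ Cx V' := F.mapHomologicalComplex (ComplexShape.up ℤ)

/-- The functor on homotopy categories. -/
abbrev hc (F : V ⥤ V') [F.Additive] : HC V ⥤ HC V' := F.mapHomotopyCategory (ComplexShape.up ℤ)

/-- The complex is zero outside the degrees from `a` to `b`. -/
def Str (a b : ℤ) (K : Cx V) : Prop := ∀ i, i < a ∨ b < i → IsZero (K.X i)

/-- Objects of the homotopy category represented in the degrees from `a` to `b`. -/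
def Amp (a b : ℤ) (X : HC V) : Prop := ∃ K, Str a b K ∧ Nonempty ((qt V).obj K ≅ X)

theorem Str.amp {a b : ℤ} {K : Cx V} (h : Str a b K) : Amp a b ((qt V).obj K) :=
  ⟨K, h, ⟨Iso.refl _⟩⟩

theorem Str.map {a b : ℤ} {K : Cx V} (h : Str a b K) (F : V ⥤ V') [F.Additive] :
    Str a b ((cx F).obj K) := fun i hi => F.map_isZero (h i hi)

theorem Amp.map {a b : ℤ} {X : HC V} (h : Amp a b X) (F : V ⥤ V') [F.Additive] :
    Amp a b ((hc F).obj X) :=
  let ⟨K, hK, ⟨e⟩⟩ := h; ⟨(cx F).obj K, hK.map F, ⟨(hc F).mapIso e⟩⟩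

theorem hc_map (F : V ⥤ V') [F.Additive] {K L : Cx V} (f : K ⟶ L) :
    (hc F).map ((qt V).map f) = (qt V').map ((cx F).map f) := rfl

theorem qt_zero_of {K L : Cx V} (g : K ⟶ L) (h : ∀ i j, K.X i ⟶ L.X j)
    (e : ∀ i, g.f i = K.d i (i + 1) ≫ h (i + 1) i + h i (i - 1) ≫ L.d (i - 1) i) :
    (qt V).map g = 0 := by
  refine (HomotopyCategory.quotient_map_eq_zero_iff g).2 ⟨⟨fun i j => if j + 1 = i then h i j else 0,
    fun i j hij => if_neg hij, fun i => ?_⟩⟩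
  rw [dNext_eq _ (show (ComplexShape.up ℤ).Rel i (i + 1) from rfl),
    prevD_eq _ (show (ComplexShape.up ℤ).Rel (i - 1) i by simp), e i]
  simp

theorem of_qt_zero {K L : Cx V} {g : K ⟶ L} (hg : (qt V).map g = 0) :
    ∃ h : ∀ i j, K.X i ⟶ L.X j, (∀ i j, j + 1 ≠ i → h i j = 0) ∧
      ∀ i, g.f i = K.d i (i + 1) ≫ h (i + 1) i + h i (i - 1) ≫ L.d (i - 1) i := by
  obtain ⟨H⟩ := (HomotopyCategory.quotient_map_eq_zero_iff g).1 hg
  refine ⟨H.hom, H.zero, fun i => ?_⟩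
  have := H.comm i
  rw [dNext_eq _ (show (ComplexShape.up ℤ).Rel i (i + 1) from rfl),
    prevD_eq _ (show (ComplexShape.up ℤ).Rel (i - 1) i by simp)] at this
  simpa using this

/-- A complex built from another one through degreewise maps. -/
@[simps]
def mask (K : Cx V) (Y : ℤ → V) (ι : ∀ i, Y i ⟶ K.X i) (π : ∀ i, K.X i ⟶ Y i)
    (h : ∀ i j k, ι i ≫ K.d i j ≫ π j ≫ ι j ≫ K.d j k ≫ π k = 0) : Cx V where
  X := Y
  d i j := ι i ≫ K.d i j ≫ π j
  shape i j hij := by rw [K.shape i j hij, zero_comp, comp_zero]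
  d_comp_d' i j k _ _ := by simpa using h i j k

/-- A degreewise decomposition of a complex whose first summand is a subcomplex. -/
structure Dec (K : Cx V) where
  S : ℤ → V
  Q : ℤ → V
  ι : ∀ i, S i ⟶ K.X i
  ρ : ∀ i, K.X i ⟶ S i
  σ : ∀ i, Q i ⟶ K.X i
  π : ∀ i, K.X i ⟶ Q i
  ιρ : ∀ i, ι i ≫ ρ i = 𝟙 _
  σπ : ∀ i, σ i ≫ π i = 𝟙 _
  tot : ∀ i, ρ i ≫ ι i + π i ≫ σ i = 𝟙 _
  sub : ∀ i j, ι i ≫ K.d i j ≫ π j = 0
  ιπ : ∀ i, ι i ≫ π i = 0

namespace Dec
variable {K : Cx V} (T : Dec K)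

theorem d_ι (i j : ℤ) : T.ι i ≫ K.d i j ≫ T.ρ j ≫ T.ι j = T.ι i ≫ K.d i j := by
  rw [eq_sub_of_add_eq (T.tot j)]
  simp [reassoc_of% T.sub i j]

theorem π_d (i j : ℤ) : T.π i ≫ T.σ i ≫ K.d i j ≫ T.π j = K.d i j ≫ T.π j := by
  rw [← assoc, eq_sub_of_add_eq' (T.tot i)]
  simp [T.sub i j]

/-- The subcomplex. -/
def sc : Cx V := mask K T.S T.ι T.ρ fun i j k => by
  rw [reassoc_of% T.d_ι i j]; simp

/-- The quotient complex. -/
def qc : Cx V := mask K T.Q T.σ T.π fun i j k => by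
  rw [T.π_d j k]; simp

/-- The inclusion of the subcomplex. -/
def inc : T.sc ⟶ K where
  f := T.ι
  comm' i j _ := by simpa [sc] using (T.d_ι i j).symm

/-- The projection to the quotient complex. -/
def prj : K ⟶ T.qc where
  f := T.π
  comm' i j _ := by simpa [qc] using T.π_d i j

variable [HasZeroObject V] [HasBinaryBiproducts V]

theorem tri : Tri ((qt V).obj T.sc) ((qt V).obj K) ((qt V).obj T.qc) :=
  Tri.of _ ((HomotopyCategory.distinguished_iff_iso_trianglehOfDegreewiseSplit _).2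
    ⟨ShortComplex.mk T.inc T.prj (by ext i; exact T.ιπ i),
      fun i => ⟨T.ρ i, T.σ i, T.ιρ i, T.σπ i, T.tot i⟩, ⟨Iso.refl _⟩⟩)

end Dec

variable [HasZeroObject V] [HasBinaryBiproducts V]

theorem exists_dec (K : Cx V) (p : ℤ → Prop) (hp : ∀ i, p i → p (i + 1) ∨ IsZero (K.X (i + 1))) :
    ∃ T : Dec K, (∀ i, p i → IsZero (T.Q i) ∧ Nonempty (T.S i ≅ K.X i)) ∧
      ∀ i, ¬ p i → IsZero (T.S i) ∧ Nonempty (T.Q i ≅ K.X i) := by
  have : ∀ i, ∃ (S Q : V) (ι : S ⟶ K.X i) (ρ : K.X i ⟶ S) (σ : Q ⟶ K.X i) (π : K.X i ⟶ Q),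
      ι ≫ ρ = 𝟙 _ ∧ σ ≫ π = 𝟙 _ ∧ ρ ≫ ι + π ≫ σ = 𝟙 _ ∧ ι ≫ π = 0 ∧
      (p i → IsZero Q ∧ Nonempty (S ≅ K.X i)) ∧ (¬ p i → IsZero S ∧ Nonempty (Q ≅ K.X i)) := by
    intro i
    by_cases h : p i
    · exact ⟨K.X i, 0, 𝟙 _, 𝟙 _, 0, 0, by simp, (isZero_zero V).eq_of_src _ _, by simp, by simp,
        fun _ => ⟨isZero_zero V, ⟨Iso.refl _⟩⟩, fun h' => (h' h).elim⟩
    · exact ⟨0, K.X i, 0, 0, 𝟙 _, 𝟙 _, (isZero_zero V).eq_of_src _ _, by simp, by simp, by simp,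
        fun h' => (h h').elim, fun _ => ⟨isZero_zero V, ⟨Iso.refl _⟩⟩⟩
  choose S Q ι ρ σ π h1 h2 h3 h4 h5 h6 using this
  refine ⟨⟨S, Q, ι, ρ, σ, π, h1, h2, h3, fun i j => ?_, h4⟩, h5, h6⟩
  by_cases hij : i + 1 = j
  · subst hij
    by_cases hi : p i
    · rcases hp i hi with h | h
      · exact (h5 _ h).1.eq_of_tgt _ _
      · rw [h.eq_of_src (π _) 0, comp_zero, comp_zero]
    · exact (h6 _ hi).1.eq_of_src _ _
  · rw [K.shape i j hij, zero_comp, comp_zero]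

theorem wt_amp : Wt (Amp (V := V)) where
  iso e := fun ⟨K, h, ⟨i⟩⟩ => ⟨K, h, ⟨i ≪≫ e⟩⟩
  zero h := ⟨0, fun i _ => (HomologicalComplex.eval V _ i).map_isZero (isZero_zero _),
    ⟨((qt V).map_isZero (isZero_zero _)).iso h⟩⟩
  empty h := fun ⟨K, hK, ⟨i⟩⟩ => by
    refine IsZero.of_iso ((qt V).map_isZero ?_) i.symm
    rw [IsZero.iff_id_eq_zero]
    ext n
    exact (hK n (by omega)).eq_of_src _ _
  mono h h' := fun ⟨K, hK, i⟩ => ⟨K, fun n hn => hK n (by omega), i⟩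
  shift n := fun ⟨K, hK, ⟨i⟩⟩ => ⟨K⟦n⟧, fun m hm => hK (m + n) (by omega),
    ⟨((qt V).commShiftIso n).app K ≪≫ (shiftFunctor _ n).mapIso i⟩⟩
  ext := by
    rintro a b X Y Z t ⟨K, hK, ⟨i⟩⟩ ⟨L, hL, ⟨j⟩⟩
    obtain ⟨f, hf⟩ := (t.invRot.iso (((qt V).commShiftIso (-1 : ℤ)).app L ≪≫
      (shiftFunctor _ (-1 : ℤ)).mapIso j).symm i.symm (Iso.refl _)).cone
    obtain ⟨g, rfl⟩ := (qt V).map_surjective f
    refine ⟨CochainComplex.mappingCone g, fun n hn => ?_,
      Cone.uniq ⟨_, _, HomotopyCategory.mappingCone_triangleh_distinguished g⟩ hf⟩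
    rw [CochainComplex.mappingCone.isZero_X_iff]
    exact ⟨hL (n + 1 + -1) (by omega), hK n hn⟩
  top := by
    rintro a b X ⟨K, hK, ⟨i⟩⟩
    obtain ⟨T, h1, h2⟩ := exists_dec K (fun n => b ≤ n) fun n hn => Or.inl (by omega)
    refine ⟨_, _, T.tri.iso (Iso.refl _) i (Iso.refl _), Str.amp fun n hn => ?_,
      Str.amp fun n hn => ?_⟩
    · by_cases h : b ≤ n
      · exact (hK n (by omega)).of_iso (h1 n h).2.some
      · exact (h2 n h).1
    · by_cases h : b ≤ n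
      · exact (h1 n h).1
      · exact (hK n (by omega)).of_iso (h2 n h).2.some
  orth := by
    rintro a b c d X Y ⟨K, hK, ⟨i⟩⟩ ⟨L, hL, ⟨j⟩⟩ h f
    obtain ⟨g, hg⟩ := (qt V).map_surjective (i.hom ≫ f ≫ j.inv)
    have : g = 0 := by
      ext n
      by_cases hn : n < a
      · exact (hK n (Or.inl hn)).eq_of_src _ _
      · exact (hL n (by omega)).eq_of_tgt _ _
    rw [this, Functor.map_zero] at hg
    rw [← cancel_epi i.hom, ← cancel_mono j.inv, assoc, ← hg, comp_zero, zero_comp]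

theorem Str.d_zero {a : ℤ} {K : Cx V} (h : Str a a K) (i j : ℤ) : K.d i j = 0 := by
  by_cases hij : i + 1 = j
  · by_cases hi : i = a
    · exact (h j (by omega)).eq_of_tgt _ _
    · exact (h i (by omega)).eq_of_src _ _
  · exact K.shape i j hij

theorem idem_amp [IsIdempotentComplete V] (a : ℤ) : Idem (Amp (V := V) a a) := by
  rintro X ⟨K, hK, ⟨i⟩⟩ e he
  obtain ⟨g, hg⟩ := (qt V).map_surjective (i.hom ≫ e ≫ i.inv)
  have : g ≫ g = g := by
    obtain ⟨h, -, h2⟩ := of_qt_zero (g := g ≫ g - g) (by simp [hg, reassoc_of% he])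
    rw [← sub_eq_zero]
    ext n
    rw [h2 n, hK.d_zero, hK.d_zero]
    simp
  obtain ⟨Y, s, r, e1, e2⟩ := IsIdempotentComplete.idempotents_split K g this
  refine ⟨(qt V).obj Y, Str.amp fun n hn => ?_, (qt V).map s ≫ i.hom, i.inv ≫ (qt V).map r, ?_, ?_⟩
  · rw [IsZero.iff_id_eq_zero, ← HomologicalComplex.id_f, ← e1, HomologicalComplex.comp_f,
      (hK n hn).eq_of_src (r.f n) 0, comp_zero]
  · simp [← Functor.map_comp, e1]
  · rw [assoc, ← Functor.map_comp_assoc, e2, hg]; simp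

instance : (Bd (Amp (V := V))).IsClosedUnderIsomorphisms := wt_amp.bd_iso
instance : (Bd (Amp (V := V))).IsTriangulated := wt_amp.bd_tri

/-- A complex with terms in the image of a fully faithful functor is in the image. -/
theorem lift_cx (F : V ⥤ V') [F.Additive] [F.Full] [F.Faithful] (L : Cx V') (Y : ℤ → V)
    (e : ∀ i, F.obj (Y i) ≅ L.X i) : ∃ K : Cx V, K.X = Y ∧ Nonempty ((cx F).obj K ≅ L) := by
  refine ⟨⟨Y, fun i j => F.preimage ((e i).hom ≫ L.d i j ≫ (e j).inv), fun i j h => ?_,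
    fun i j k _ _ => ?_⟩, rfl, ⟨HomologicalComplex.Hom.isoOfComponents e fun i j _ => by simp⟩⟩
  · exact F.map_injective (by simp [L.shape i j h])
  · exact F.map_injective (by simp)

/-- The bounded complexes that come from the source of `F`. -/
abbrev Img (F : V' ⥤ V) [F.Additive] : ObjectProperty (HC V) :=
  ObjectProperty.map (Bd (Amp (V := V'))) (hc F)

theorem img_of_terms [HasZeroObject V'] [HasBinaryBiproducts V'] (F : V' ⥤ V) [F.Additive]
    [F.Full] [F.Faithful] {a b : ℤ} {L : Cx V} (hL : Str a b L)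
    (h : ∀ i, ∃ Y, Nonempty (F.obj Y ≅ L.X i)) : Img F ((qt V).obj L) := by
  choose Y e using h
  obtain ⟨K, rfl, ⟨k⟩⟩ := lift_cx F L Y fun i => (e i).some
  refine ⟨(qt V').obj K, ⟨a, b, Str.amp fun i hi => ?_⟩, ⟨(qt V).mapIso k⟩⟩
  rw [IsZero.iff_id_eq_zero]
  exact F.map_injective (((hL i hi).of_iso (e i).some).eq_of_src _ _)

end Pool.Agent.MP_f7db47_al.KN.TC
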