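import Pool.Agent.MP_f7db47_al.KN.DF

/-!
Germs of sequences of matrices.
-/

namespace Pool.Agent.MP_f7db47_al.KN

open Matrix Filter

universe v w

variable {B : Type v} [Ring B] {Λ : ℕ → Type} {ι : Type} {𝓗 𝓗' : ∀ ν, ℕ → Fam B (Λ ν)}
  {S : ι → Submonoid B} {K : Finset ι} {I J M : Type} {X Y : SX B Λ}

theorem g1_rep (x : Gm B) : ∃ f : ℕ → B, (↑f : Gm B) = x := Germ.inductionOn x fun f => ⟨f, rfl⟩

theorem g1_ev {P : ℕ → ℕ → Prop} (hP : ∀ k k' ν, k ≤ k' → P k ν → P k' ν) :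
    (∀ᶠ k in atTop, ∀ᶠ ν in atTop, P k ν) ↔ ∃ k, ∀ᶠ ν in atTop, P k ν :=
  ⟨fun h => h.exists, fun ⟨k, h⟩ =>
    (eventually_ge_atTop k).mono fun k' hk => h.mono fun ν => hP k k' ν hk⟩

theorem g1_and {P Q : ℕ → ℕ → Prop} (h : ∀ᶠ k in atTop, ∀ᶠ ν in atTop, P k ν)
    (h' : ∀ᶠ k in atTop, ∀ᶠ ν in atTop, Q k ν) :
    ∀ᶠ k in atTop, ∀ᶠ ν in atTop, P k ν ∧ Q k ν := (h.and h').mono fun _ c => c.1.and c.2

theorem gm_surj (f : Matrix I J (Gm B)) : ∃ g, gm g = f := by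
  choose g hg using fun i j => g1_rep (f i j)
  exact ⟨fun ν => Matrix.of fun i j => g i j ν, Matrix.ext hg⟩

theorem gm_eq [Finite I] [Finite J] {f g : ℕ → Matrix I J B} :
    gm f = gm g ↔ ∀ᶠ ν in atTop, f ν = g ν := by
  simp only [← Matrix.ext_iff, eventually_all]
  exact forall₂_congr fun i j => Germ.coe_eq

theorem gm_zero : gm (fun _ => (0 : Matrix I J B)) = 0 := rfl

theorem gm_add (f g : ℕ → Matrix I J B) : gm f + gm g = gm fun ν => f ν + g ν := rfl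

theorem gm_sub (f g : ℕ → Matrix I J B) : gm f - gm g = gm fun ν => f ν - g ν := rfl

theorem gm_mul [Fintype J] (f : ℕ → Matrix I J B) (g : ℕ → Matrix J M B) :
    gm f * gm g = gm fun ν => f ν * g ν := by
  ext i k
  have h := map_sum (Germ.coeRingHom (R := B) (atTop : Filter ℕ))
    (fun j => (fun ν => f ν i j) * fun ν => g ν j k) Finset.univ
  refine h.symm.trans (congrArg (fun u : ℕ → B => (↑u : Gm B)) (funext fun ν => ?_))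
  rw [Finset.sum_apply]
  rfl

theorem gm_smul (w : ℕ → B) (f : ℕ → Matrix I J B) :
    (↑w : Gm B) • gm f = gm fun ν => w ν • f ν := rfl

theorem g1_mem {a b : ∀ ν, Λ ν} {f : ℕ → B} :
    (↑f : Gm B) ∈ gH 𝓗 a b ↔ ∀ᶠ k in atTop, ∀ᶠ ν in atTop, f ν ∈ 𝓗 ν k (a ν) (b ν) :=
  ⟨fun ⟨_, e, h⟩ => h.mono fun _ c => (c.and (Germ.coe_eq.1 e)).mono fun _ d => d.2 ▸ d.1,
    fun h => ⟨f, rfl, h⟩⟩

theorem g1_memE {E : Set B} {f : ℕ → B} : (↑f : Gm B) ∈ gE E ↔ ∀ᶠ ν in atTop, f ν ∈ E :=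
  ⟨fun ⟨_, e, h⟩ => (h.and (Germ.coe_eq.1 e)).mono fun _ d => d.2 ▸ d.1, fun h => ⟨f, rfl, h⟩⟩

theorem g1_zero {f : ℕ → B} : (↑f : Gm B) = 0 ↔ ∀ᶠ ν in atTop, f ν = 0 :=
  Germ.coe_eq (g := 0)

theorem g1_hm [Finite I] [Finite J] {d : ℤ}
    {s : I → (∀ ν, Λ ν) × ℤ} {t : J → (∀ ν, Λ ν) × ℤ} {f : ℕ → Matrix I J B} :
    Hm (gH 𝓗) d s t (gm f) ↔ ∀ᶠ k in atTop, ∀ᶠ ν in atTop,
      Hm (𝓗 ν k) d (fun i => ((s i).1 ν, (s i).2)) (fun j => ((t j).1 ν, (t j).2)) (f ν) := by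
  simp only [Hm, eventually_all, eventually_and, eventually_const]
  refine forall₂_congr fun i j => and_congr g1_mem ?_
  by_cases e : (s i).2 = (t j).2 + d
  · simp [e]
  · simp only [e, imp_false, not_not]
    exact g1_zero

theorem hm_gm [Finite I] [Finite J] (hm : ∀ ν, Monotone (𝓗 ν)) {d : ℤ}
    {s : I → (∀ ν, Λ ν) × ℤ} {t : J → (∀ ν, Λ ν) × ℤ} {f : ℕ → Matrix I J B} :
    Hm (gH 𝓗) d s t (gm f) ↔ ∃ k, ∀ᶠ ν in atTop,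
      Hm (𝓗 ν k) d (fun i => ((s i).1 ν, (s i).2)) (fun j => ((t j).1 ν, (t j).2)) (f ν) :=
  g1_hm.trans (g1_ev fun _ _ ν c h => h.mono (hm ν c))

theorem SX.surj (Z : Cx (Gm B) (∀ ν, Λ ν)) : ∃ X : SX B Λ, X.germ = Z := by
  obtain ⟨p, hp⟩ := gm_surj Z.p
  obtain ⟨D, hD⟩ := gm_surj Z.D
  refine ⟨⟨Z.J, Z.t, p, D⟩, ?_⟩
  cases Z
  simp only [SX.germ, hp, hD]

theorem g1_blocks {I' J' : Type} (a : ℕ → Matrix I J B) (b : ℕ → Matrix I J' B)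
    (c : ℕ → Matrix I' J B) (d : ℕ → Matrix I' J' B) :
    (gm fun ν => fromBlocks (a ν) (b ν) (c ν) (d ν)) = fromBlocks (gm a) (gm b) (gm c) (gm d) := by
  ext (i | i) (j | j) <;> rfl

theorem SX.germ_ext (t : ℕ → Matrix X.J Y.J B) :
    (X.ext Y t).germ = X.germ.ext Y.germ (gm t) := by
  simp only [SX.germ, SX.ext, Cx.ext, g1_blocks, gm_zero]

theorem SX.tm_ext (t : ℕ → Matrix X.J Y.J B) (ν : ℕ) :
    (X.ext Y t).tm ν = (X.tm ν).ext (Y.tm ν) (t ν) := by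
  simp only [SX.tm, SX.ext, Cx.ext]
  congr 1
  funext j
  cases j <;> rfl

theorem g1_eq [Finite I] [Finite J] {f g : ℕ → Matrix I J B} :
    gm f = gm g ↔ ∀ᶠ _k : ℕ in atTop, ∀ᶠ ν in atTop, f ν = g ν := by
  rw [eventually_const, gm_eq]

theorem g1_ok : Ok (gH 𝓗) X.germ ↔ ∀ᶠ k in atTop, ∀ᶠ ν in atTop, Ok (𝓗 ν k) (X.tm ν) := by
  have e : ∀ {A : Type v} [Ring A] {L : Type} (H : Fam A L) (Z : Cx A L), Ok H Z ↔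
      Hm H 0 Z.t Z.t Z.p ∧ Hm H (-1) Z.t Z.t Z.D ∧ Z.p * Z.p = Z.p ∧ Z.p * Z.D = Z.D ∧
        Z.D * Z.p = Z.D ∧ Z.D * Z.D = 0 := fun H Z =>
    ⟨fun h => ⟨h.1, h.2, h.3, h.4, h.5, h.6⟩, fun ⟨a, b, c, d, e, f⟩ => ⟨a, b, c, d, e, f⟩⟩
  simp only [e, eventually_and, g1_hm, gm_mul, ← gm_zero, g1_eq]

theorem g1_mp {d : ℤ} {f : ℕ → Matrix X.J Y.J B} : Mp (gH 𝓗) d X.germ Y.germ (gm f) ↔
    ∀ᶠ k in atTop, ∀ᶠ ν in atTop, Mp (𝓗 ν k) d (X.tm ν) (Y.tm ν) (f ν) := by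
  have e : ∀ {A : Type v} [Ring A] {L : Type} (H : Fam A L) (Z W : Cx A L) f, Mp H d Z W f ↔
      Hm H d Z.t W.t f ∧ Z.p * f = f ∧ f * W.p = f := fun H Z W f =>
    ⟨fun h => ⟨h.1, h.2, h.3⟩, fun ⟨a, b, c⟩ => ⟨a, b, c⟩⟩
  simp only [e, eventually_and, g1_hm, gm_mul, g1_eq]

theorem g1_ch {f : ℕ → Matrix X.J Y.J B} : Ch (gH 𝓗) X.germ Y.germ (gm f) ↔
    ∀ᶠ k in atTop, ∀ᶠ ν in atTop, Ch (𝓗 ν k) (X.tm ν) (Y.tm ν) (f ν) := by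
  have e : ∀ {A : Type v} [Ring A] {L : Type} (H : Fam A L) (Z W : Cx A L) f, Ch H Z W f ↔
      Mp H 0 Z W f ∧ Z.D * f = f * W.D := fun H Z W f =>
    ⟨fun h => ⟨h.1, h.2⟩, fun ⟨a, b⟩ => ⟨a, b⟩⟩
  simp only [e, eventually_and, gm_mul, g1_eq]
  exact and_congr g1_mp Iff.rfl

theorem g1_hed {f : ℕ → Matrix Y.J X.J B} {g : ℕ → Matrix X.J Y.J B} {h : ℕ → Matrix X.J X.J B}
    {l : ℕ → Matrix Y.J Y.J B} : HEd (gH 𝓗) X.germ Y.germ (gm f) (gm g) (gm h) (gm l) ↔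
    ∀ᶠ k in atTop, ∀ᶠ ν in atTop, HEd (𝓗 ν k) (X.tm ν) (Y.tm ν) (f ν) (g ν) (h ν) (l ν) := by
  have e : ∀ {A : Type v} [Ring A] {L : Type} (H : Fam A L) (Z W : Cx A L) f g h l,
      HEd H Z W f g h l ↔ Ch H W Z f ∧ Ch H Z W g ∧ Hm H 1 Z.t Z.t h ∧ Hm H 1 W.t W.t l ∧
        g * f + (Z.D * h + h * Z.D) = Z.p ∧ f * g + (W.D * l + l * W.D) = W.p :=
    fun H Z W f g h l =>
    ⟨fun h => ⟨h.1, h.2, h.3, h.4, h.5, h.6⟩, fun ⟨a, b, c, d, e, f⟩ => ⟨a, b, c, d, e, f⟩⟩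
  simp only [e, eventually_and, g1_hm, gm_mul, gm_add, g1_eq]
  exact and_congr g1_ch (and_congr g1_ch Iff.rfl)

theorem g1_nul (hm : ∀ ν, Monotone (𝓗 ν)) {T : Set B} :
    (∃ w ∈ gE T, Nul (gH 𝓗) w X.germ) ↔
      ∀ᶠ k in atTop, ∀ᶠ ν in atTop, ∃ w ∈ T, Nul (𝓗 ν k) w (X.tm ν) := by
  constructor
  · rintro ⟨_, ⟨w, rfl, hw⟩, h, h1, h2⟩
    obtain ⟨h, rfl⟩ := gm_surj h
    simp only [gm_mul, gm_add, gm_smul, gm_eq] at h2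
    exact (g1_hm.1 h1).mono fun k c => (c.and (hw.and h2)).mono fun ν d =>
      ⟨w ν, d.2.1, h ν, d.1, d.2.2⟩
  · intro h
    obtain ⟨k, hk⟩ := h.exists
    have : Nonempty B := ⟨0⟩
    obtain ⟨w, hw⟩ := hk.choice
    have h2 : ∀ᶠ ν in atTop, ∃ h : Matrix X.J X.J B, Hm (𝓗 ν k) 1 (X.tm ν).t (X.tm ν).t h ∧
        X.D ν * h + h * X.D ν = w ν • X.p ν := hw.mono fun ν c => c.2
    obtain ⟨h, hh⟩ := h2.choice
    refine ⟨↑w, ⟨w, rfl, hw.mono fun _ c => c.1⟩, gm h,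
      (hm_gm hm).2 ⟨k, hh.mono fun _ c => c.1⟩, ?_⟩
    simp only [gm_mul, gm_add, gm_smul, gm_eq]
    exact hh.mono fun _ c => c.2

theorem ok_germ (hm : ∀ ν, Monotone (𝓗 ν)) :
    Ok (gH 𝓗) X.germ ↔ ∃ k, ∀ᶠ ν in atTop, Ok (𝓗 ν k) (X.tm ν) :=
  g1_ok.trans (g1_ev fun _ _ ν c h => h.mono (hm ν c))

theorem obj_germ (hm : ∀ ν, Monotone (𝓗 ν)) :
    Obj (gH 𝓗) (gS S) K X.germ ↔ ∃ k, ∀ᶠ ν in atTop, Obj (𝓗 ν k) S K (X.tm ν) := by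
  refine Iff.trans ?_ (g1_ev fun _ _ ν c h => h.mono (hm ν c))
  have e : ∀ {A : Type v} [Ring A] {L : Type} (H : Fam A L) (S : ι → Submonoid A) (Z : Cx A L),
      Obj H S K Z ↔ Ok H Z ∧ ∀ a ∈ K, ∃ w ∈ S a, Nul H w Z := fun H S Z =>
    ⟨fun h => ⟨h.1, h.2⟩, fun ⟨a, b⟩ => ⟨a, b⟩⟩
  simp only [e, eventually_and, g1_ok, eventually_all_finset]
  exact and_congr Iff.rfl (forall₂_congr fun a _ => g1_nul hm (T := S a))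

theorem tw_germ (hm : ∀ ν, Monotone (𝓗 ν)) {t : ℕ → Matrix X.J Y.J B} :
    Tw (gH 𝓗) X.germ Y.germ (gm t) ↔
      ∃ k, ∀ᶠ ν in atTop, Tw (𝓗 ν k) (X.tm ν) (Y.tm ν) (t ν) := by
  refine Iff.trans ?_ (g1_ev fun _ _ ν c h => h.mono (hm ν c))
  have e : ∀ {A : Type v} [Ring A] {L : Type} (H : Fam A L) (Z W : Cx A L) f, Tw H Z W f ↔
      Mp H (-1) Z W f ∧ Z.D * f + f * W.D = 0 := fun H Z W f =>
    ⟨fun h => ⟨h.1, h.2⟩, fun ⟨a, b⟩ => ⟨a, b⟩⟩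
  simp only [e, eventually_and, gm_mul, gm_add, ← gm_zero, g1_eq]
  exact and_congr g1_mp Iff.rfl

theorem cut_germ (hm : ∀ ν, Monotone (𝓗 ν)) {e : ℕ → Matrix X.J X.J B} :
    Cut (gH 𝓗) X.germ (gm e) ↔ ∃ k, ∀ᶠ ν in atTop, Cut (𝓗 ν k) (X.tm ν) (e ν) := by
  refine Iff.trans ?_ (g1_ev fun _ _ ν c h => ⟨h.1.mono (hm ν c), h.2, h.3, h.4, h.5⟩)
  have e : ∀ {A : Type v} [Ring A] {L : Type} (H : Fam A L) (Z : Cx A L) e, Cut H Z e ↔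
      Hm H 0 Z.t Z.t e ∧ e * e = e ∧ Z.p * e = e ∧ e * Z.p = e ∧ e * Z.D * e = Z.D * e :=
    fun H Z e => ⟨fun h => ⟨h.1, h.2, h.3, h.4, h.5⟩, fun ⟨a, b, c, d, e⟩ => ⟨a, b, c, d, e⟩⟩
  simp only [e, eventually_and, g1_hm, gm_mul, g1_eq]

theorem he_germ (hm : ∀ ν, Monotone (𝓗 ν)) :
    HE (gH 𝓗) X.germ Y.germ ↔ ∃ k, ∀ᶠ ν in atTop, HE (𝓗 ν k) (X.tm ν) (Y.tm ν) := by
  constructor
  · rintro ⟨f, g, h, l, H⟩
    obtain ⟨f, rfl⟩ := gm_surj f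
    obtain ⟨g, rfl⟩ := gm_surj g
    obtain ⟨h, rfl⟩ := gm_surj h
    obtain ⟨l, rfl⟩ := gm_surj l
    exact (g1_hed.1 H).exists.imp fun k c => c.mono fun ν d => ⟨_, _, _, _, d⟩
  · rintro ⟨k, H0⟩
    have H : ∀ᶠ ν in atTop, ∃ (f : Matrix Y.J X.J B) (g : Matrix X.J Y.J B)
      (h : Matrix X.J X.J B) (l : Matrix Y.J Y.J B), HEd (𝓗 ν k) (X.tm ν) (Y.tm ν) f g h l := H0
    obtain ⟨f, H⟩ := H.choice
    obtain ⟨g, H⟩ := H.choice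
    obtain ⟨h, H⟩ := H.choice
    obtain ⟨l, H⟩ := H.choice
    refine ⟨gm f, gm g, gm h, gm l, g1_hed.2 ((eventually_ge_atTop k).mono fun k' c =>
      H.mono fun ν d => ?_)⟩
    exact ⟨d.1.mono (hm ν c), d.2.mono (hm ν c), d.3.mono (hm ν c), d.4.mono (hm ν c), d.5, d.6⟩

theorem stdE_germ {E : Set B} : StdE (gE E) X.germ ↔ ∀ᶠ ν in atTop, StdE E (X.tm ν) := by
  simp only [StdE, eventually_and, eventually_all]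
  exact and_congr (forall₃_congr fun i j _ => g1_zero) (forall_congr' fun i => g1_memE)

end Pool.Agent.MP_f7db47_al.KN
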