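import Pool.Agent.MP_f7db47_al.KN.M1

/-!
Properties of the families of germs.
-/

namespace Pool.Agent.MP_f7db47_al.KN

open Matrix Filter

universe v w

variable {B : Type v} [Ring B] {Λ : ℕ → Type} {ι : Type} {𝓗 𝓗' : ∀ ν, ℕ → Fam B (Λ ν)}
  {S : ι → Submonoid B} {K : Finset ι} {I J M : Type} {X Y : SX B Λ}

theorem m2_choice {α : ℕ → Type w} [∀ ν, Nonempty (α ν)] {P : ∀ ν, α ν → Prop}
    (h : ∀ᶠ ν in atTop, ∃ a, P ν a) : ∃ f : ∀ ν, α ν, ∀ᶠ ν in atTop, P ν (f ν) :=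
  ⟨fun ν => Classical.epsilon (P ν), h.mono fun _ c => Classical.epsilon_spec c⟩

theorem m2_mem (hm : ∀ ν, Monotone (𝓗 ν)) {a b : ∀ ν, Λ ν} {f : ℕ → B} (k : ℕ)
    (h : ∀ᶠ ν in atTop, f ν ∈ 𝓗 ν k (a ν) (b ν)) : (f : Gm B) ∈ gH 𝓗 a b :=
  ⟨f, rfl, (eventually_ge_atTop k).mono fun _ c => h.mono fun ν d => hm ν c _ _ d⟩

theorem cert_germ [∀ ν, Nonempty (Λ ν)] (hm : ∀ ν, Monotone (𝓗 ν)) {k L : ℕ}
    (h : ∀ᶠ ν in atTop, CertB (𝓗 ν k) S K L (X.tm ν)) :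
    Cert (gH 𝓗) (gS S) K Set.univ X.germ := by
  obtain ⟨a, h⟩ := m2_choice h
  obtain ⟨b, h⟩ := m2_choice h
  obtain ⟨c, h⟩ := m2_choice h
  obtain ⟨p, h⟩ := m2_choice h
  obtain ⟨D, h⟩ := m2_choice h
  obtain ⟨q, h⟩ := m2_choice h
  obtain ⟨E, h⟩ := m2_choice h
  obtain ⟨r, h⟩ := m2_choice h
  obtain ⟨F, h⟩ := m2_choice h
  obtain ⟨t, h⟩ := m2_choice h
  obtain ⟨t', h⟩ := m2_choice h
  refine ⟨(SX.box L a p D).germ, (SX.box L b q E).germ, (SX.box L c r F).germ, gm t, gm t',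
    ⟨(obj_germ hm).2 ⟨k, h.mono fun _ e => e.1.oP⟩, (obj_germ hm).2 ⟨k, h.mono fun _ e => e.1.oQ⟩,
      (obj_germ hm).2 ⟨k, h.mono fun _ e => e.1.oB⟩, Wd.univ _, Wd.univ _, Wd.univ _,
      (tw_germ hm).2 ⟨k, h.mono fun _ e => e.1.ht⟩, (tw_germ hm).2 ⟨k, h.mono fun _ e => e.1.ht'⟩⟩,
    ?_, ?_⟩
  · have e1 : X.germ.sum (SX.box L c r F).germ = (X.ext (SX.box L c r F) fun _ => 0).germ := by
      rw [SX.germ_ext, gm_zero]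
    rw [e1, ← SX.germ_ext]
    refine (he_germ hm).2 ⟨k, h.mono fun ν e => ?_⟩
    rw [SX.tm_ext, SX.tm_ext]
    exact e.2.1
  · rw [← SX.germ_ext]
    refine (he_germ hm).2 ⟨k, h.mono fun ν e => ?_⟩
    rw [SX.tm_ext]
    exact e.2.2

theorem he_germ_box [∀ ν, Nonempty (Λ ν)] (hm : ∀ ν, Monotone (𝓗 ν)) {E : Set B} {k L : ℕ}
    (h : ∀ᶠ ν in atTop, ∃ μ p D, Ok (𝓗 ν k) (box L μ p D) ∧ StdE E (box L μ p D) ∧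
      HE (𝓗 ν k) (X.tm ν) (box L μ p D)) :
    ∃ Z, Ok (gH 𝓗) Z ∧ StdE (gE E) Z ∧ HE (gH 𝓗) X.germ Z := by
  obtain ⟨μ, h⟩ := m2_choice h
  obtain ⟨p, h⟩ := m2_choice h
  obtain ⟨D, h⟩ := m2_choice h
  exact ⟨(SX.box L μ p D).germ, (ok_germ hm).2 ⟨k, h.mono fun _ e => e.1⟩,
    stdE_germ.2 (h.mono fun _ e => e.2.1), (he_germ hm).2 ⟨k, h.mono fun _ e => e.2.2⟩⟩

theorem gH_le (hm : ∀ ν, Monotone (𝓗' ν)) (h : ∀ k, ∃ k', ∀ ν, 𝓗 ν k ≤ 𝓗' ν k') :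
    gH 𝓗 ≤ gH 𝓗' := by
  rintro a b _ ⟨f, rfl, hf⟩
  obtain ⟨k, hk⟩ := hf.exists
  obtain ⟨k', hk'⟩ := h k
  exact m2_mem hm k' (hk.mono fun ν c => hk' ν _ _ c)

theorem gH_mul3 {𝓗₁ 𝓗₂ 𝓗₃ : ∀ ν, ℕ → Fam B (Λ ν)} (hm : ∀ ν, Monotone (𝓗₃ ν))
    (h : ∀ k, ∃ k', ∀ ν, Mul3 (𝓗₁ ν k) (𝓗₂ ν k) (𝓗₃ ν k')) :
    Mul3 (gH 𝓗₁) (gH 𝓗₂) (gH 𝓗₃) := by
  rintro a b c _ _ ⟨f, rfl, hf⟩ ⟨g, rfl, hg⟩
  obtain ⟨k, h1, h2⟩ := (hf.and hg).exists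
  obtain ⟨k', hk'⟩ := h k
  exact m2_mem (f := f * g) hm k' ((h1.and h2).mono fun ν d => hk' ν d.1 d.2)

theorem gH_good (h : ∀ ν, Gr (𝓗 ν) S) : Good (gH 𝓗) (gS S) where
  mul := gH_mul3 (fun ν => (h ν).mono) fun k => ⟨k + k, fun ν => (h ν).mul (k := k) (k' := k)⟩
  cen := by
    rintro a _ ⟨f, rfl, hf⟩ x
    induction x using Germ.inductionOn with
    | h g => exact Germ.coe_eq.2 (hf.mono fun ν c => (h ν).cen a _ c (g ν))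
  stab := by
    rintro a _ ⟨f, rfl, hf⟩ i j _ ⟨g, rfl, hg⟩
    exact ⟨f * g, rfl, hg.mono fun _ c => (hf.and c).mono fun ν d => (h ν).stab a _ d.1 d.2⟩

theorem gS_uni (h : Uni S) : Uni (gS S) := by
  rintro a _ ⟨f, rfl, hf⟩
  obtain ⟨g, hg⟩ := m2_choice (hf.mono fun ν c => isUnit_iff_exists.1 (h a _ c))
  exact isUnit_iff_exists.2 ⟨(g : Gm B), Germ.coe_eq.2 (hg.mono fun _ c => c.1),
    Germ.coe_eq.2 (hg.mono fun _ c => c.2)⟩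

theorem gH_loc (hm : ∀ ν, Monotone (𝓗 ν)) {a : ι}
    (h : ∀ ν k, IsLoc (𝓗 ν k) (S a) (𝓗' ν k)) : IsLoc (gH 𝓗) (gS S a) (gH 𝓗') := by
  intro i j x
  constructor
  · rintro ⟨f, rfl, hf⟩
    obtain ⟨k, hk⟩ := hf.exists
    obtain ⟨w, hw⟩ := m2_choice (hk.mono fun ν c => (h ν k _ _ _).1 c)
    exact ⟨(w : Gm B), ⟨w, rfl, hw.mono fun _ c => c.1⟩,
      m2_mem (f := w * f) hm k (hw.mono fun _ c => c.2)⟩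
  · rintro ⟨_, ⟨w, rfl, hw⟩, g, e, hg⟩
    induction x using Germ.inductionOn with
    | h f =>
      have e1 : ∀ᶠ ν in atTop, w ν * f ν = g ν := Germ.coe_eq.1 e
      exact ⟨f, rfl, hg.mono fun k c => (hw.and (e1.and c)).mono fun ν d =>
        (h ν k _ _ _).2 ⟨w ν, d.1, d.2.1 ▸ d.2.2⟩⟩

theorem gH_lu (hm : ∀ ν, Monotone (𝓗 ν))
    (h : ∀ ν k a, ∃ e ∈ 𝓗 ν k a a, e * e = e ∧ ∀ b, ∀ x ∈ 𝓗 ν k a b, e * x = x) :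
    LU (gH 𝓗) := by
  intro a T hT
  have h1 : ∀ x ∈ T, ∀ᶠ k in atTop, ∃ (b : ∀ ν, Λ ν) (f : ℕ → B), x = ↑f ∧
      ∀ᶠ ν in atTop, f ν ∈ 𝓗 ν k (a ν) (b ν) := fun x hx => by
    obtain ⟨b, f, e, c⟩ := hT x hx
    exact c.mono fun _ d => ⟨b, f, e, d⟩
  obtain ⟨k, hk⟩ := ((eventually_all_finset T).2 h1).exists
  choose e h2 h3 h4 using fun ν => h ν k (a ν)
  refine ⟨(e : Gm B), m2_mem hm k (.of_forall h2), Germ.coe_eq.2 (.of_forall h3), fun x hx => ?_⟩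
  obtain ⟨b, f, rfl, c⟩ := hk x hx
  exact Germ.coe_eq.2 (c.mono fun ν d => h4 ν _ _ d)

end Pool.Agent.MP_f7db47_al.KN
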