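import Pool.Agent.MP_f7db47_al.KN.M2
import Pool.Agent.MP_f7db47_al.KN.F3
import Pool.Agent.MP_f7db47_al.KN.A8a

/-!
Germs of folded families.
-/

namespace Pool.Agent.MP_f7db47_al.KN

open Matrix Filter

universe v w

variable {A : Type v} [Ring A] {Λ : ℕ → Type} {ι : Type} {𝓗 : ∀ ν, ℕ → Fam A (Λ ν)}
  {S : ι → Submonoid A} {K : Finset ι} {U U₁ U₂ : ∀ ν, ℕ → Set (Λ ν)}

theorem m3_mono (hG : ∀ ν, Gr (𝓗 ν) S) (ν : ℕ) : Monotone fun k => fold (𝓗 ν k) :=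
  fun _ _ h => fold_mono ((hG ν).mono h)

theorem m3_rs (hG : ∀ ν, Gr (𝓗 ν) S) (hU : Reg 𝓗 U) (ν : ℕ) : Gr (rsq 𝓗 U ν) S :=
  (hG ν).rs (hU.mono ν)

theorem gstd (hG : ∀ ν, Gr (𝓗 ν) S) (h : SQ 𝓗) : Stdz (gF 𝓗) (StdE (gE (CP A))) := by
  intro X hX
  obtain ⟨X, rfl⟩ := SX.surj X
  obtain ⟨k, hk⟩ := (ok_germ (m3_mono hG)).1 hX
  obtain ⟨L, hL⟩ := exists_bd X.germ
  obtain ⟨k', L', hq⟩ := h k L
  refine he_germ_box (m3_mono hG) (k := max k k') (L := L') ((hk.and hq).mono fun ν c => ?_)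
  obtain ⟨Y, hY, hs, hb, e⟩ := c.2 (unf (X.tm ν)) (c.1.fn (unfFn _)) (wd_unf hL)
  exact std_box (c.1.mono (m3_mono hG ν (le_max_left k k')))
    (hY.mono ((hG ν).mono (le_max_right k k'))) hs hb (e.mono ((hG ν).mono (le_max_right k k')))

theorem gnull (hG : ∀ ν, Gr (𝓗 ν) S) (h : SQ 𝓗) (h' : CQ 𝓗 S K) :
    NullAll (gF 𝓗) (gS (fS S)) K := by
  intro X hX
  have hg : Good (gF 𝓗) (gS (fS S)) := gH_good fun ν => (hG ν).fold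
  obtain ⟨Y, hY, hs, e⟩ := gstd hG h X hX.ok
  have ho := hX.he hg hY e
  obtain ⟨Y, rfl⟩ := SX.surj Y
  obtain ⟨k, hk⟩ := (obj_germ (m3_mono hG)).1 ho
  obtain ⟨L, hL⟩ := exists_bd Y.germ
  obtain ⟨k', L', hq⟩ := h' k L
  refine Cert.he hg.mul (cert_germ (m3_mono hG) (k := max k k') (L := L')
    ((hk.and (hq.and (stdE_germ.1 hs))).mono fun ν c => ?_)) e
  refine certB_of (fun _ _ hw => (hG ν).sc hw _) (c.1.ok.mono (m3_mono hG ν (le_max_left k k')))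
    (Cert.mono ?_ ((hG ν).mono (le_max_right k k')) subset_rfl)
  exact c.2.1 _ ((obj_unf (fun _ _ hw => (hG ν).sc hw _) c.1.ok).2 c.1) (wd_unf hL)
    ((std_unf c.1.ok.hp).2 c.2.2)

theorem gF_good (hG : ∀ ν, Gr (𝓗 ν) S) : Good (gF 𝓗) (gS (fS S)) :=
  gH_good fun ν => (hG ν).fold

theorem gF_idl (hG : ∀ ν, Gr (𝓗 ν) S) (hU : Reg 𝓗 U) : Idl (gF (rsq 𝓗 U)) (gF 𝓗) := by
  refine ⟨gH_le (m3_mono hG) fun k => ⟨k, fun ν => fold_mono (rs_le _ _)⟩,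
    gH_mul3 (m3_mono (m3_rs hG hU)) fun k => ⟨k + k, fun ν => Mul3.fold ?_⟩,
    gH_mul3 (m3_mono (m3_rs hG hU)) fun k => ⟨k + k, fun ν => Mul3.fold ?_⟩⟩
  · intro a b c x y hx hy
    refine ⟨(hG ν).mul hx hy.1, fun e => ?_⟩
    have h1 := hy.2 (right_ne_zero_of_mul e)
    exact ⟨(hU.spread ν k k hx (left_ne_zero_of_mul e)).2 h1.1,
      hU.mono ν (Nat.le_add_right k k) h1.2⟩
  · intro a b c x y hx hy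
    refine ⟨(hG ν).mul hx.1 hy, fun e => ?_⟩
    have h1 := hx.2 (left_ne_zero_of_mul e)
    exact ⟨hU.mono ν (Nat.le_add_right k k) h1.1,
      (hU.spread ν k k hy (right_ne_zero_of_mul e)).1 h1.2⟩

theorem gF_lu (hG : ∀ ν, Gr (𝓗 ν) S) (hU : Reg 𝓗 U) (h1 : ∀ ν k a, (1 : A) ∈ 𝓗 ν k a a) :
    LU (gF (rsq 𝓗 U)) :=
  gH_lu (m3_mono (m3_rs hG hU)) fun ν k a => fold_unit (h1 ν k) (U ν k) a

theorem Reg.inter (h1 : Reg 𝓗 U₁) (h2 : Reg 𝓗 U₂) : Reg 𝓗 fun ν k => U₁ ν k ∩ U₂ ν k :=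
  ⟨fun ν _ _ h => Set.inter_subset_inter (h1.mono ν h) (h2.mono ν h), fun ν j k _ _ _ hx e =>
    ⟨fun c => ⟨(h1.spread ν j k hx e).1 c.1, (h2.spread ν j k hx e).1 c.2⟩,
      fun c => ⟨(h1.spread ν j k hx e).2 c.1, (h2.spread ν j k hx e).2 c.2⟩⟩⟩

theorem gF_cross (hG : ∀ ν, Gr (𝓗 ν) S) (h1 : Reg 𝓗 U₁) (h2 : Reg 𝓗 U₂) :
    Mul3 (gF (rsq 𝓗 U₂)) (gF (rsq 𝓗 U₁)) (gF (rsq 𝓗 fun ν k => U₁ ν k ∩ U₂ ν k)) := by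
  refine gH_mul3 (m3_mono (m3_rs hG (h1.inter h2))) fun k => ⟨k + k, fun ν => Mul3.fold ?_⟩
  intro a b c x y hx hy
  refine ⟨(hG ν).mul hx.1 hy.1, fun e => ?_⟩
  have e1 := left_ne_zero_of_mul e
  have e2 := right_ne_zero_of_mul e
  exact ⟨⟨(h1.spread ν k k hx.1 e1).2 (hy.2 e2).1, h2.mono ν (Nat.le_add_right k k) (hx.2 e1).1⟩,
    h1.mono ν (Nat.le_add_right k k) (hy.2 e2).2, (h2.spread ν k k hy.1 e2).1 (hx.2 e1).2⟩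

theorem gF_rs_le (hG : ∀ ν, Gr (𝓗 ν) S) (h2 : Reg 𝓗 U₂) (h : ∀ ν k, U₁ ν k ⊆ U₂ ν k) :
    gF (rsq 𝓗 U₁) ≤ gF (rsq 𝓗 U₂) :=
  gH_le (m3_mono (m3_rs hG h2)) fun k => ⟨k, fun ν => fold_mono (rs_mono le_rfl (h ν k))⟩

theorem gF_loc (hG : ∀ ν, Gr (𝓗 ν) S) (hu : Uni S) (hU : Reg 𝓗 U) {𝓗' : ∀ ν, ℕ → Fam A (Λ ν)}
    {a : ι} (h : ∀ ν k, IsLoc (𝓗 ν k) (S a) (𝓗' ν k)) :
    IsLoc (gF (rsq 𝓗 U)) (gS (fS S) a) (gF (rsq 𝓗' U)) :=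
  gH_loc (m3_mono (m3_rs hG hU)) fun ν k =>
    ((h ν k).rs hu _).fold (fun _ _ hw => (m3_rs hG hU ν).sc hw k) hu

end Pool.Agent.MP_f7db47_al.KN
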