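import Pool.Agent.MP_f7db47_al.TW.ODefs

/-!
Bounded complexes with supports over the obstruction category, and their Grothendieck group.
-/

namespace Pool.Agent.MP_f7db47_al.OB

universe v

/-- An object with a grading of its basis and two matrices. -/
structure Raw (R : Type v) [Ring R] (G : Type) [Group G] (V : Type) : Type (max 1 v) where
  M : Obj V
  deg : M.I → ℤ
  p : Matrix M.I M.I (MonoidAlgebra R G)
  D : Matrix M.I M.I (MonoidAlgebra R G)

variable {R : Type v} [Ring R] (Φ : ℕ → AddSubgroup R) {G : Type} [Group G] {V : Type}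
  [MulAction G V] {ι : Type} (u : ι → Rˣ)

/-- Controlled endomorphisms of degree `d`. -/
def Raw.Mor (X : Raw R G V) (d : ℤ) (a : Matrix X.M.I X.M.I (MonoidAlgebra R G)) : Prop :=
  Ctrl Φ X.M a ∧ ∀ i j, a i j ≠ 0 → X.deg i = X.deg j + d

/-- Multiplication by `w` is null-homotopic. -/
def Raw.Null (X : Raw R G V) (w : R) : Prop :=
  ∃ h, X.Mor Φ 1 h ∧ mulM X.D h + mulM h X.D = w • X.p

/-- Bounded complexes over the idempotent completion (the image of `p` with differential `D`) on
which a power of each `u i` is null-homotopic. -/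
structure Raw.IsN (X : Raw R G V) : Prop where
  bd : (Set.range X.deg).Finite
  hp : X.Mor Φ 0 X.p
  hD : X.Mor Φ (-1) X.D
  pp : mulM X.p X.p = X.p
  pD : mulM X.p X.D = X.D
  Dp : mulM X.D X.p = X.D
  DD : mulM X.D X.D = 0
  tor : ∀ i, ∃ s : ℕ, X.Null Φ ((u i : R) ^ s)

/-- `X'` is the restriction of `X` along a map of bases. -/
structure Raw.Res (X X' : Raw R G V) (e : X'.M.I → X.M.I) : Prop where
  t : ∀ i, X'.M.t i = X.M.t (e i)
  x : ∀ i, X'.M.x i = X.M.x (e i)
  deg : ∀ i, X'.deg i = X.deg (e i)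
  p : X'.p = X.p.submatrix e e
  D : X'.D = X.D.submatrix e e

/-- The basis of `X` is the disjoint union of the bases of `X'` and `X''`, `p` is block diagonal
and `D` is block triangular: `X'` is a subcomplex of `X` with quotient `X''`. -/
def Raw.IsExt (X' X X'' : Raw R G V) : Prop :=
  ∃ (e' : X'.M.I → X.M.I) (e'' : X''.M.I → X.M.I), Function.Bijective (Sum.elim e' e'') ∧
    X.Res X' e' ∧ X.Res X'' e'' ∧
    ∀ i j, X.p (e' i) (e'' j) = 0 ∧ X.p (e'' j) (e' i) = 0 ∧ X.D (e'' j) (e' i) = 0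

variable (G V) in
/-- The relations: extensions, and contractible complexes. -/
def Rel : Set (FreeAbelianGroup (Raw R G V)) :=
  {z | ∃ X' X X'' : Raw R G V, X'.IsN Φ u ∧ X.IsN Φ u ∧ X''.IsN Φ u ∧ X'.IsExt X X'' ∧
    z = FreeAbelianGroup.of X - FreeAbelianGroup.of X' - FreeAbelianGroup.of X''} ∪
  {z | ∃ X : Raw R G V, X.IsN Φ u ∧ X.Null Φ 1 ∧ z = FreeAbelianGroup.of X}

variable (G V) in
/-- The Grothendieck group of the complexes with supports vanishes. -/
def K0Zero : Prop :=
  ∀ X : Raw R G V, X.IsN Φ u → FreeAbelianGroup.of X ∈ AddSubgroup.closure (Rel Φ G V u)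

end Pool.Agent.MP_f7db47_al.OB
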