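import Pool.Agent.MP_f7db47_al.TW.OBack
import Pool.Agent.MP_f7db47_al.KN.G0

/-!
Scalars, localised filtrations and the coefficients given by controlled operators.
-/

set_option linter.unusedSectionVars false

namespace Pool.Agent.MP_f7db47_al.OB

open Function

universe v

variable {R : Type v} [Ring R] {Φ : ℕ → AddSubgroup R} {G : Type} [Group G] {V : Type}
  [MulAction G V] {c : R} {e : ℕ} {a b : FF R G V}

variable (G V) in
/-- Scalar operators. -/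
noncomputable def sc : R →+* FF R G V :=
  Module.toModuleEnd (MonoidAlgebra R G)ᵐᵒᵖ (Ix V →₀ MonoidAlgebra R G)

lemma op_sc (c : R) (z : Ix V →₀ MonoidAlgebra R G) : (sc G V c).op z = c • z := rfl

lemma ent_sc (c : R) (a : FF R G V) (i j : Ix V) :
    ent (sc G V c * a).op i j = c • ent a.op i j := rfl

lemma op_smul' (hc : ∀ x, c * x = x * c) {Y Z : Type} (a : Op (MonoidAlgebra R G) Y Z)
    (z : Z →₀ MonoidAlgebra R G) : a (c • z) = c • a z := by
  have e : ∀ {Y : Type} (z : Y →₀ MonoidAlgebra R G),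
      c • z = MulOpposite.op (MonoidAlgebra.single (1 : G) c) • z := fun z => by
    ext i g
    rw [Finsupp.smul_apply, Finsupp.smul_apply, op_smul_eq_mul, MonoidAlgebra.coeff_mul_single_one,
      MonoidAlgebra.coeff_smul, Finsupp.smul_apply, smul_eq_mul, hc]
  rw [e, e, map_smul]

lemma sc_cen (hc : ∀ x, c * x = x * c) (a : FF R G V) : sc G V c * a = a * sc G V c :=
  FF.ext fun z => (op_smul' hc a.op z).symm

lemma Sp.sc {E : Ix V → G → Ix V → Prop} (h : Sp E a.op) (c : R) : Sp E (sc G V c * a).op :=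
  fun i j g k => h i j g (right_ne_zero_of_mul k)

lemma sp_sc_iff {E : Ix V → G → Ix V → Prop} (hc : IsUnit c) :
    Sp E (sc G V c * a).op ↔ Sp E a.op := by
  obtain ⟨w, rfl⟩ := hc
  refine ⟨fun h => ?_, fun h => h.sc _⟩
  have := h.sc (↑w⁻¹ : R)
  rwa [← mul_assoc, ← map_mul, w.inv_mul, map_one, one_mul] at this

lemma sg_sc (hc : ∀ x, c * x = x * c) (v : V) (a : FF R G V) :
    sg v (sc G V c * a) = sc G V c * sg v a := FF.ext fun z => by
  have e : ∀ z, amp (sc G V c * a).op z = c • amp a.op z :=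
    amp_ext (a := amp (sc G V c * a).op) (b := DistribSMul.toLinearMap _ _ c ∘ₗ amp a.op)
      fun k z => by
        rw [LinearMap.comp_apply, amp_push, amp_push]
        exact op_smul' hc _ _
  change push _ (jx v) (amp (sc G V c * a).op _) = c • push _ (jx v) (amp a.op _)
  rw [e, op_smul' hc]

/-- The localised filtration. -/
def locF (Φ : ℕ → AddSubgroup R) (c : R) (e : ℕ) : ℕ → AddSubgroup R :=
  fun d => (Φ ((e + 1) * d)).comap (AddMonoidHom.mulLeft (c ^ d))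

lemma mem_locF {d : ℕ} {x : R} : x ∈ locF Φ c e d ↔ c ^ d * x ∈ Φ ((e + 1) * d) := Iff.rfl

variable [hΦ : Flt Φ]

lemma pow_mul_mem (he : c ∈ Φ e) (n : ℕ) {d : ℕ} {x : R} (hx : x ∈ Φ d) :
    c ^ n * x ∈ Φ (e * n + d) := by
  induction n with
  | zero => simpa using hx
  | succ n ih =>
    rw [pow_succ', mul_assoc]
    exact hΦ.mono (le_of_eq (by ring)) (hΦ.mul he ih)

lemma flt_loc (hc : ∀ x, c * x = x * c) (he : c ∈ Φ e) : Flt (locF Φ c e) where
  one := by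
    rw [mem_locF, pow_zero, one_mul]
    exact hΦ.one
  mul {d d' x y} hx hy := by
    have := hΦ.mul hx hy
    rw [mem_locF, mul_add, pow_add, mul_assoc, ← mul_assoc (c ^ d'),
      (Commute.pow_left (hc x) d').eq, mul_assoc, ← mul_assoc]
    exact this
  mono := monotone_nat_of_le_succ fun d x hx => by
    rw [mem_locF, pow_succ', mul_assoc]
    exact hΦ.mono (by nlinarith) (hΦ.mul he hx)

lemma le_loc (he : c ∈ Φ e) {d : ℕ} {x : R} (hx : x ∈ Φ d) : x ∈ locF Φ c e d :=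
  hΦ.mono (le_of_eq (by ring)) (pow_mul_mem he d hx)

lemma Bd.sc (he : c ∈ Φ e) (h : Bd Φ a.op) : Bd Φ (sc G V c * a).op := by
  obtain ⟨d, h⟩ := h
  exact ⟨e + d, fun i j g => hΦ.mul he (h i j g)⟩

lemma bd_loc (he : c ∈ Φ e) :
    Bd (locF Φ c e) a.op ↔ ∃ n : ℕ, Bd Φ (sc G V (c ^ n) * a).op := by
  refine ⟨fun ⟨d, h⟩ => ⟨d, _, fun i j g => h i j g⟩, fun ⟨n, d, h⟩ => ⟨d + n, fun i j g => ?_⟩⟩
  have := pow_mul_mem he d (h i j g)
  rw [mem_locF, pow_add, mul_assoc]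
  exact hΦ.mono (by nlinarith) this

lemma MM.sc (he : c ∈ Φ e) (h : MM Φ a) : MM Φ (sc G V c * a) :=
  ⟨⟨h.1.1.imp fun _ k => ⟨k.1, k.2.sc c⟩, h.1.2.sc he⟩, Sp.sc h.2 c⟩

lemma mm_sc (he : c ∈ Φ e) : MM Φ (sc G V c) :=
  mul_one (sc G V c) ▸ MM.sc he ⟨cg_one, dg_one⟩

lemma mm_loc (hu : IsUnit c) (he : c ∈ Φ e) :
    MM (locF Φ c e) a ↔ ∃ n : ℕ, MM Φ (sc G V (c ^ n) * a) := by
  constructor
  · rintro ⟨⟨⟨E, h1, h2⟩, h3⟩, h4⟩
    obtain ⟨n, h⟩ := (bd_loc he).1 h3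
    exact ⟨n, ⟨⟨E, h1, h2.sc _⟩, h⟩, Sp.sc h4 _⟩
  · rintro ⟨n, ⟨⟨E, h1, h2⟩, h3⟩, h4⟩
    exact ⟨⟨⟨E, h1, (sp_sc_iff (hu.pow n)).1 h2⟩, (bd_loc he).2 ⟨n, h3⟩⟩,
      (sp_sc_iff (hu.pow n)).1 h4⟩

lemma dd_loc (hu : IsUnit c) (he : c ∈ Φ e) [Flt (locF Φ c e)] (x : FF R G V × FF R G V) :
    x ∈ DD (locF Φ c e) G V ↔ ∃ n : ℕ, (sc G V c, sc G V c) ^ n * x ∈ DD Φ G V := by
  have e1 : ∀ n : ℕ, (sc G V c, sc G V c) ^ n * x =
      (sc G V (c ^ n) * x.1, sc G V (c ^ n) * x.2) := fun n => by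
    rw [map_pow]
    rfl
  have e2 : ∀ n : ℕ, c ^ n ∈ Φ (e * n + 0) := fun n => mul_one (c ^ n) ▸ pow_mul_mem he n hΦ.one
  simp only [e1]
  constructor
  · rintro ⟨h1, h2, S, h3, h4⟩
    obtain ⟨n, h1⟩ := (mm_loc hu he).1 h1
    obtain ⟨m, h2⟩ := (mm_loc hu he).1 h2
    refine ⟨m + n, ?_, ?_, S, h3, ?_⟩
    · have := h1.sc (e2 m)
      rwa [← mul_assoc, ← map_mul, ← pow_add] at this
    · have := h2.sc (e2 n)
      rwa [← mul_assoc, ← map_mul, ← pow_add, add_comm] at this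
    · have := h4.sc (c ^ (m + n))
      rwa [mul_sub] at this
  · rintro ⟨n, h1, h2, S, h3, h4⟩
    refine ⟨(mm_loc hu he).2 ⟨n, h1⟩, (mm_loc hu he).2 ⟨n, h2⟩, S, h3,
      (sp_sc_iff (hu.pow n)).1 ?_⟩
    rwa [mul_sub]

omit hΦ

noncomputable instance : MulSemiringAction G (FF R G V × FF R G V) where
  smul g x := (cj g x.1, cj g x.2)
  one_smul _ := Prod.ext (cj_one _) (cj_one _)
  mul_smul _ _ _ := Prod.ext (cj_cj _ _ _) (cj_cj _ _ _)
  smul_zero _ := Prod.ext (cj_eq (by simp)) (cj_eq (by simp))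
  smul_add _ _ _ := Prod.ext (cj_add _ _ _) (cj_add _ _ _)
  smul_one _ := Prod.ext (cj_eq (by simp)) (cj_eq (by simp))
  smul_mul _ _ _ := Prod.ext (cj_mul _ _ _) (cj_mul _ _ _)

variable {ι : Type}

/-- Filtrations that contain the given units. -/
structure Adm (u : ι → Rˣ) : Type v where
  Φ : ℕ → AddSubgroup R
  flt : Flt Φ
  mem : ∀ i, ∃ d, (u i : R) ∈ Φ d

attribute [instance] Adm.flt

variable (G V) in
/-- The doubles of the rings of controlled operators. -/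
noncomputable def coef {u : ι → Rˣ} (hu : ∀ i x, (u i : R) * x = x * u i) :
    KN.Coef ι (Adm u) (FF R G V × FF R G V) where
  D I := DD I.Φ G V
  u i := (sc G V (u i), sc G V (u i))
  unit i := ((u i).isUnit.map ((sc G V).prod (sc G V)) :)
  cen i _ := Prod.ext (sc_cen (hu i) _) (sc_cen (hu i) _)
  mem i I := (I.mem i).elim fun _ h => (dg _ (mm_sc h)).2
  loc i I := by
    obtain ⟨e, he⟩ := I.mem i
    have := flt_loc (hu i) he
    exact ⟨⟨locF I.Φ (u i) e, this, fun j => (I.mem j).imp fun _ h => le_loc he h⟩,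
      dd_loc (u i).isUnit he⟩

variable {u : ι → Rˣ} (hu : ∀ i x, (u i : R) * x = x * u i)

instance : (coef G V hu).Inv G where
  D I g x hx := (g • (⟨x, hx⟩ : DD I.Φ G V)).2
  u i g := Prod.ext (cj_eq (sc_cen (hu i) (ta R V g)).symm) (cj_eq (sc_cen (hu i) (ta R V g)).symm)

lemma coef_nr (I : Adm u) : TW.NR ((coef G V hu).D I) := inferInstanceAs (TW.NR (DD I.Φ G V))

variable (R G) in
/-- The swindle on pairs of operators. -/
noncomputable def fl2 (v : V) : TW.Fl (FF R G V × FF R G V) where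
  σ := AddMonoidHom.mk' (fun x => (sg v x.1, sg v x.2))
    fun _ _ => Prod.ext (sg_add v _ _) (sg_add v _ _)
  a₀ := (a0 R G v, a0 R G v)
  b₀ := (b0 R G v, b0 R G v)
  a₁ := (a1 R G v, a1 R G v)
  b₁ := (b1 R G v, b1 R G v)
  mul _ _ := Prod.ext (sg_mul v _ _) (sg_mul v _ _)
  h0 := Prod.ext (fl_h0 v) (fl_h0 v)
  h1 := Prod.ext (fl_h1 v) (fl_h1 v)
  h01 := Prod.ext (fl_h01 v) (fl_h01 v)
  eq x := Prod.ext (fl_eq v x.1) (fl_eq v x.2)

lemma fl2_fla (v : V) : (coef G V hu).Fla (fl2 R G v) where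
  σ I x hx := (sgD v (⟨x, hx⟩ : DD I.Φ G V)).2
  a₀ I := (fl I.Φ G v).a₀.2
  b₀ I := (fl I.Φ G v).b₀.2
  a₁ I := (fl I.Φ G v).a₁.2
  b₁ I := (fl I.Φ G v).b₁.2
  lin i _ := Prod.ext (sg_sc (hu i) v _) (sg_sc (hu i) v _)

lemma fl2_inv {v : V} {h : G} (hv : h • v = v) : (fl2 R G v).Inv fun x => h • x := by
  have hv' : h⁻¹ • v = v := inv_smul_eq_iff.2 hv.symm
  have e : ∀ a : FF R G V, sg v (cj h a) = cj h (sg v a) := fun a => FF.ext fun z => by
    simp only [sg, cj, FF.of_op, op_mul, op_ta, LinearMap.comp_apply, amp_comp, tau_push hv,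
      pull_tau hv']
  have : Flt (fun _ => (⊤ : AddSubgroup R)) := ⟨trivial, fun _ _ => trivial, monotone_const⟩
  have k := fl_inv (Φ := fun _ => (⊤ : AddSubgroup R)) hv
  exact ⟨fun x => Prod.ext (e x.1) (e x.2), congrArg Subtype.val k.a₀, congrArg Subtype.val k.b₀,
    congrArg Subtype.val k.a₁, congrArg Subtype.val k.b₁⟩

end Pool.Agent.MP_f7db47_al.OB
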