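import Pool.Agent.MP_f7db47_al.KN.O2
import Pool.Agent.MP_f7db47_al.KN.G1
import Pool.Agent.MP_f7db47_al.KN.A16

/-!
From the twisted group ring of the double to the ideal of small operators.
-/

set_option linter.unusedSectionVars false

namespace Pool.Agent.MP_f7db47_al.OB

open Function

universe v

variable {R : Type v} [Ring R] {Φ : ℕ → AddSubgroup R} [Flt Φ] {G : Type} [Group G] {V : Type}
  [MulAction G V] {a b : FF R G V} {ι : Type} {u : ι → Rˣ}

variable (Φ G V) in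
/-- Controlled operators, as a family with one label. -/
def cgF : KN.Fam (FF R G V) Unit := fun _ _ =>
  { carrier := {a | CG Φ a}
    add_mem' := CG.add
    zero_mem' := cg_zero
    neg_mem' := CG.neg }

variable (Φ G V) in
/-- Small controlled operators, as a family with one label. -/
def ssF : KN.Fam (FF R G V) Unit := fun _ _ => SS Φ G V

variable (G V u) in
/-- The monoids of scalars. -/
noncomputable def scS : ι → Submonoid (FF R G V) := fun i => Submonoid.powers (sc G V (u i))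

lemma ss_idl : KN.Idl (ssF Φ G V) (cgF Φ G V) :=
  ⟨fun _ _ _ h => h.1, fun _ _ _ _ _ h h' => ⟨CG.mul h h'.1, h'.2.left (And.left h)⟩,
    fun _ _ _ _ _ h h' => ⟨CG.mul h.1 h', h.2.right (And.left h')⟩⟩

lemma cg_scS (hm : ∀ i, ∃ d, (u i : R) ∈ Φ d) {i : ι} {w : FF R G V} (hw : w ∈ scS G V u i) :
    CG Φ w := by
  obtain ⟨n, rfl⟩ := hw
  obtain ⟨d, hd⟩ := hm i
  have := mm_sc (G := G) (V := V) (mul_one ((u i : R) ^ n) ▸ pow_mul_mem hd n Flt.one)
  rw [map_pow] at this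
  exact this.1

lemma cen_scS (hu : ∀ i x, (u i : R) * x = x * u i) : KN.Cen (scS G V u) := by
  rintro i _ ⟨n, rfl⟩ x
  exact (Commute.pow_left (sc_cen (hu i) x) n).eq

lemma cg_good (hu : ∀ i x, (u i : R) * x = x * u i) (hm : ∀ i, ∃ d, (u i : R) ∈ Φ d) :
    KN.Good (cgF Φ G V) (scS G V u) :=
  ⟨fun _ _ _ _ _ => CG.mul, cen_scS hu, fun _ _ hw _ _ _ => (cg_scS hm hw).mul⟩

lemma ss_good (hu : ∀ i x, (u i : R) * x = x * u i) (hm : ∀ i, ∃ d, (u i : R) ∈ Φ d) :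
    KN.Good (ssF Φ G V) (scS G V u) :=
  ⟨fun _ _ _ _ _ h => ss_idl.left (b := ()) h.1, cen_scS hu,
    fun _ _ hw _ _ _ => ss_idl.left (b := ()) (cg_scS hm hw)⟩

lemma sm_common (T : Finset (FF R G V)) (h : ∀ x ∈ T, Sm x) :
    ∃ U, Small U ∧ ∀ x ∈ T, Sp (fun i _ j => i ∈ U ∧ j ∈ U) x.op := by
  classical
  induction T using Finset.induction_on with
  | empty => exact ⟨∅, small_empty, fun _ c => absurd c (Finset.notMem_empty _)⟩
  | insert y T _ ih =>
    obtain ⟨U, h1, h2⟩ := ih fun x hx => h x (Finset.mem_insert_of_mem hx)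
    obtain ⟨S, h3, h4⟩ := h y (Finset.mem_insert_self _ _)
    refine ⟨_, h1.union h3, fun x hx => ?_⟩
    rcases Finset.mem_insert.1 hx with rfl | hx
    · exact h4.mono fun _ _ _ c => ⟨Or.inr c.1, Or.inr c.2⟩
    · exact (h2 x hx).mono fun _ _ _ c => ⟨Or.inl c.1, Or.inl c.2⟩

lemma ss_lu : KN.LU (ssF Φ G V) := fun _ T hT => by
  obtain ⟨U, h1, h2⟩ := sm_common T fun x hx => (hT x hx).choose_spec.2
  let q : FF R G V := .of (push _ (Subtype.val : U → Ix V) ∘ₗ pull _ Subtype.val_injective)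
  have hq : Sp (fun i g j => (g = 1 ∧ i = j) ∧ j ∈ U) q.op := by
    refine ((sp_push _).comp (sp_pull _)).mono ?_
    rintro _ _ _ ⟨k, _, _, ⟨rfl, rfl⟩, ⟨rfl, rfl⟩, rfl⟩
    exact ⟨⟨mul_one _, rfl⟩, k.2⟩
  refine ⟨q, ⟨⟨⟨_, good_smul 1, hq.mono fun _ _ _ c => ⟨c.1.1, by rw [one_smul, c.1.2]⟩⟩,
    (bd_push _).comp (bd_pull _)⟩, U, h1, hq.mono fun _ _ _ c => ⟨c.1.2 ▸ c.2, c.2⟩⟩,
    FF.ext fun z => ?_, fun x hx => FF.ext' fun j => ?_⟩
  · simp only [q, FF.of_op, op_mul, LinearMap.comp_apply, pull_push]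
  · refine Finsupp.mapDomain_comapDomain _ Subtype.val_injective _ fun i hi => ?_
    rw [Subtype.range_coe]
    by_contra c
    refine Finsupp.mem_support_iff.1 hi (MonoidAlgebra.coeff_injective (Finsupp.ext fun g => ?_))
    by_contra d
    exact c (h2 x hx i j g d).1

variable (R G V) in
/-- The evaluation. -/
noncomputable def ev : SkewMonoidAlgebra (FF R G V × FF R G V) G →+* FF R G V × FF R G V :=
  SkewMonoidAlgebra.liftNCRingHom (RingHom.id _) ((ta R V).prod (ta R V)) (by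
    intro x y
    exact Prod.ext (cj_tau y x.1) (cj_tau y x.2))

lemma ev_single (g : G) (x : FF R G V × FF R G V) :
    ev R G V (SkewMonoidAlgebra.single g x) = (x.1 * ta R V g, x.2 * ta R V g) :=
  SkewMonoidAlgebra.liftNC_single _ _ _ _

variable {x : SkewMonoidAlgebra (FF R G V × FF R G V) G}

lemma ev_mem {i j : Unit} (hx : x ∈ KN.ful G (DD Φ G V) i j) :
    ev R G V x ∈ KN.dbl (cgF Φ G V) (ssF Φ G V) i j := by
  refine KN.g0_ind (motive := fun x => ev R G V x ∈ KN.dbl (cgF Φ G V) (ssF Φ G V) i j) hx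
    (by rw [map_zero]; exact zero_mem _) (fun _ _ p q => by rw [map_add]; exact add_mem p q)
    fun g _ d hd => ?_
  rw [ev_single]
  have h1 := hd.1.1.mul (cg_tau g)
  have h2 := hd.2.1.1.mul (cg_tau g)
  refine ⟨h1, h2, h2.sub h1, ?_⟩
  have := hd.2.2.right (cg0_tau g)
  rwa [sub_mul] at this

lemma pt_ev {i j : Unit} (hx : x ∈ KN.ful G (DD Φ G V) i j) (g : G) :
    (pt g).prodMap (pt g) (ev R G V x) = x.coeff g * (ta R V g, ta R V g) := by
  refine KN.g0_ind (motive := fun x => (pt g).prodMap (pt g) (ev R G V x) =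
    x.coeff g * (ta R V g, ta R V g)) hx (by rw [map_zero, map_zero]; simp) (fun x y p q => by
      rw [map_add, map_add, p, q, SkewMonoidAlgebra.coeff_add, Finsupp.add_apply, add_mul])
    fun k _ d hd => ?_
  have h1 := hd.1.2.mul (dg_tau k)
  have h2 := hd.2.1.2.mul (dg_tau k)
  rw [one_mul] at h1 h2
  rw [ev_single, SkewMonoidAlgebra.coeff_single]
  by_cases c : k = g
  · subst c
    rw [Finsupp.single_eq_same]
    exact Prod.ext (part_eq h1) (part_eq h2)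
  · rw [Finsupp.single_eq_of_ne' c, zero_mul]
    exact Prod.ext (part_ne h1 c) (part_ne h2 c)

lemma ev_inj {i j : Unit} (hx : x ∈ KN.ful G (DD Φ G V) i j) (h : ev R G V x = 0) : x = 0 :=
  SkewMonoidAlgebra.ext fun g => by
    have := pt_ev hx g
    rw [h, map_zero] at this
    exact (((ta R V).prod (ta R V)).toHomUnits g).mul_left_eq_zero.1 this.symm

lemma ev_surj {i j : Unit} {y : FF R G V × FF R G V}
    (hy : y ∈ KN.dbl (cgF Φ G V) (ssF Φ G V) i j) :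
    ∃ x ∈ KN.ful G (DD Φ G V) i j, ev R G V x = y := by
  classical
  have c1 : ∀ {a : FF R G V}, CG Φ a → ∀ g, MM Φ (pt g a * ta R V g⁻¹) := fun {a} h g => by
    obtain ⟨⟨E, a1, a2⟩, a5⟩ := h
    exact ⟨CG.mul ⟨⟨E, a1, (a2.part g).mono fun _ _ _ c => c.2⟩, a5.part g⟩ (cg_tau _),
      mul_inv_cancel g ▸ Dg.mul (a := pt g a) ((a2.part g).mono fun _ _ _ c => c.1) (dg_tau g⁻¹)⟩
  have c2 : ∀ {a : FF R G V}, CG Φ a → ∃ F : Finset G, ∀ F', F ⊆ F' →
      ∑ g ∈ F', pt g a * ta R V g⁻¹ * ta R V g = a := fun {a} h => by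
    obtain ⟨⟨E, a1, a2⟩, -⟩ := h
    obtain ⟨F, b1, b2⟩ := a1.gfin
    refine ⟨b1.toFinset, fun F' hF => Eq.trans (Finset.sum_congr rfl fun g _ => ?_)
      (sum_part (a := a.op) (F := F') (a2.mono fun _ _ _ c =>
        hF (b1.mem_toFinset.2 (b2 _ _ _ c))))⟩
    rw [mul_assoc, tau_inv, mul_one]
    rfl
  obtain ⟨h1, h2, -, S, h3, h4⟩ := hy
  obtain ⟨F₁, d1⟩ := c2 h1
  obtain ⟨F₂, d2⟩ := c2 h2
  refine ⟨∑ g ∈ F₁ ∪ F₂, SkewMonoidAlgebra.single g
    (pt g y.1 * ta R V g⁻¹, pt g y.2 * ta R V g⁻¹), sum_mem fun g _ =>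
      KN.g0_single ⟨c1 h1 g, c1 h2 g, ?_⟩ trivial, ?_⟩
  · have : Sm (pt g (y.2 - y.1) * ta R V g⁻¹) :=
      Sm.right ⟨S, h3, (h4.part g).mono fun _ _ _ c => c.2⟩ (cg0_tau _)
    rwa [map_sub, sub_mul] at this
  · simp only [map_sum, ev_single]
    exact Prod.ext (Prod.fst_sum.trans (d1 _ Finset.subset_union_left))
      (Prod.snd_sum.trans (d2 _ Finset.subset_union_right))

/-- Vanishing over the ideal of small operators. -/
theorem ss_null (hu : ∀ i x, (u i : R) * x = x * u i) (h : KN.NZ G (coef G V hu)) (I : Adm u)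
    (h0 : TW.G0 ((coef G V hu).D I) G) (K : Finset ι) :
    KN.NullAll (ssF I.Φ G V) (scS G V u) K := by
  have e : ∀ (i : ι) (n : ℕ), ev R G V (SkewMonoidAlgebra.single 1 ((coef G V hu).u i ^ n)) =
      ((RingHom.id _).prod (RingHom.id _)) (sc G V (u i : R) ^ n) := fun i n => by
    rw [ev_single, map_one, mul_one, mul_one]
    rfl
  have hG := KN.dbl_good (cg_good (G := G) (V := V) hu I.mem) (ss_good hu I.mem) ss_idl
  refine KN.exc (cg_good hu I.mem) (ss_good hu I.mem) ss_idl ss_lu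
    (KN.stdz_of hG.mul ⟨cg_one, cg_one, (sub_self (1 : FF R G V)).symm ▸ zero_mem _⟩
      (KN.sfree_of ((ev R G V).comp (KN.incl G ((coef G V hu).D I))) ?_
        (fun x => ev_mem (KN.incl_mem x)) (fun y hy => ?_) h0))
    (KN.NullAll.pull' (φ := (ev R G V).toAddMonoidHom) (KN.g0_fu I) ⟨fun _ _ _ => ev_mem,
      fun _ _ _ x y _ _ => map_mul (ev R G V) x y, fun i w hw => ?_⟩ (fun _ _ _ => ev_inj)
      (fun _ _ _ => ev_surj) ?_ (h I K))
  · exact (injective_iff_map_eq_zero _).2 fun x hx =>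
      KN.incl_inj ((ev_inj (KN.incl_mem x) hx).trans (map_zero _).symm)
  · obtain ⟨x, h1, rfl⟩ := ev_surj hy
    obtain ⟨x, rfl⟩ := KN.incl_surj (D := (coef G V hu).D I) h1
    exact ⟨x, rfl⟩
  · obtain ⟨n, rfl⟩ := KN.g0_memS.1 hw
    exact ⟨_, ⟨_, ⟨n, rfl⟩, (e i n).symm⟩, fun _ _ x _ => map_mul (ev R G V) _ x⟩
  · rintro i _ ⟨_, ⟨n, rfl⟩, rfl⟩
    exact ⟨_, KN.g0_memS.2 ⟨n, rfl⟩, fun _ _ x _ =>
      (map_mul (ev R G V) _ x).trans (congrArg (· * _) (e i n))⟩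

/-- Vanishing for groups over a group with the fibred reduction property. -/
theorem ss_null_fj (hu : ∀ i x, (u i : R) * x = x * u i) (hT : KN.MkVT (coef G V hu))
    {Γ : Type} [Group Γ] (hΓ : VD.FJ Γ) (f : G →* Γ)
    (hV : ∀ (B : Subgroup Γ) (φ : B →* Multiplicative ℤ), Finite φ.ker →
      ∃ v : V, ∀ g, f g ∈ B → g • v = v) (I : Adm u) (K : Finset ι) :
    KN.NullAll (ssF I.Φ G V) (scS G V u) K := by
  obtain ⟨h1, h2⟩ := KN.nz_fj hT (coef_nr hu) hΓ f fun B ⟨φ, hφ⟩ => by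
    obtain ⟨v, hv⟩ := hV B φ hφ
    exact ⟨fl2 R G v, fl2_fla hu v, fun g hg => fl2_inv (hv g hg)⟩
  exact ss_null hu h1 I (h2 I).g0 K

end Pool.Agent.MP_f7db47_al.OB
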