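import Pool.Agent.MP_f7db47_al.KN.O3
import Pool.Agent.MP_f7db47_al.KN.O0
import Pool.Agent.MP_f7db47_al.TW.OMain

/-!
Complexes over the ideal of small operators and complexes over the obstruction category.
-/

set_option linter.unusedSectionVars false

namespace Pool.Agent.MP_f7db47_al.OB

open Function

universe v

variable {R : Type v} [Ring R] {Φ : ℕ → AddSubgroup R} [Flt Φ] {G : Type} [Group G] {V : Type}
  [MulAction G V] {ι : Type} {u : ι → Rˣ}

section Big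

variable {K I : Type} [Fintype K] [DecidableEq K] {A B : Matrix K K (FF R G V)}
  {e : I → K × Ix V}

lemma ne_coeff {x : MonoidAlgebra R G} (h : x ≠ 0) : ∃ g, x.coeff g ≠ 0 := by
  by_contra! d
  exact h (MonoidAlgebra.coeff_injective (Finsupp.ext d))

lemma ctrl_big (hA : ∀ k l, CG Φ (A k l)) {M : Obj V} {e : M.I → K × Ix V}
    (h2 : ∀ i, M.t i = (e i).2.t) (h3 : ∀ i, M.x i = (e i).2.p.1) :
    Ctrl Φ M ((big A).submatrix e e) := by
  choose E c1 c2 using fun k : K × K => (hA k.1 k.2).1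
  choose D c3 using fun k : K × K => (hA k.1 k.2).2
  have hE := good_fin c1
  have e1 : ∀ y g z, (big A y z).coeff g ≠ 0 → ∃ k, E k y.2 g z.2 :=
    fun y g z c => ⟨(y.1, z.1), c2 _ _ _ g c⟩
  refine ⟨⟨Finset.univ.sup D, fun i j g => Flt.mono (Finset.le_sup (Finset.mem_univ _))
    (c3 ((e i).1, (e j).1) _ _ g)⟩,
    hE.gfin.imp fun F c => ⟨c.1, fun i j g d => c.2 _ _ _ (e1 _ _ _ d)⟩, ?_, ?_⟩
  · obtain ⟨α, hα⟩ := hE.l.band
    obtain ⟨β, hβ⟩ := hE.r.band
    refine ⟨α + β, fun i j c => ?_⟩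
    obtain ⟨g, hg⟩ := ne_coeff c
    have f1 := hα _ _ ⟨g, e1 _ _ _ hg⟩
    have f2 := hβ _ _ ⟨g, e1 _ _ _ hg⟩
    rw [h2, h2]
    omega
  · refine fun ε hε => (hE.ctl ε hε).imp fun T c i j g d k => ?_
    rw [h3, h3]
    exact c _ _ _ (e1 _ _ _ d) (h2 i ▸ k)

/-- The matrix is supported on the range of `e`. -/
def Supp (e : I → K × Ix V) (A : Matrix K K (FF R G V)) : Prop :=
  ∀ y z, big A y z ≠ 0 → y ∈ Set.range e ∧ z ∈ Set.range e

lemma big_ne {y z : K × Ix V} (h : big (A * B) y z ≠ 0) :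
    ∃ w, big A y w ≠ 0 ∧ big B w z ≠ 0 := by
  by_contra! c
  refine h ((big_mul A B y z).trans (finsum_eq_zero_of_forall_eq_zero fun w => ?_))
  by_cases d : big A y w = 0
  · rw [d, zero_mul]
  · rw [c w d, mul_zero]

lemma Supp.mul (h : Supp e A) (h' : Supp e B) : Supp e (A * B) := fun _ _ c =>
  (big_ne c).elim fun _ d => ⟨(h _ _ d.1).1, (h' _ _ d.2).2⟩

lemma Supp.sand {p : Matrix K K (FF R G V)} (h : Supp e p) (h1 : p * A = A) (h2 : A * p = A) :
    Supp e A := fun _ _ c =>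
  ⟨(big_ne (h1.symm ▸ c)).elim fun _ d => (h _ _ d.1).1,
    (big_ne (h2.symm ▸ c)).elim fun _ d => (h _ _ d.2).2⟩

lemma Supp.add (h : Supp e A) (h' : Supp e B) : Supp e (A + B) := fun y z c => by
  by_cases d : big A y z = 0
  · exact h' y z fun k => c (by rw [big_add, Matrix.add_apply, d, k, add_zero])
  · exact h y z d

lemma supp_zero : Supp e (0 : Matrix K K (FF R G V)) := fun _ _ c => absurd rfl c

lemma big_sc (c : R) (A : Matrix K K (FF R G V)) : big (sc G V c • A) = c • big A := rfl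

lemma Supp.sc (h : Supp e A) (c : R) : Supp e (sc G V c • A) := fun y z d =>
  h y z fun k => d (by rw [big_sc, Matrix.smul_apply, k, smul_zero])

lemma Supp.ext (h : Supp e A) (h' : Supp e B)
    (k : (big A).submatrix e e = (big B).submatrix e e) : A = B := by
  have : ∀ y z, big A y z = big B y z := fun y z => by
    by_cases c : y ∈ Set.range e ∧ z ∈ Set.range e
    · obtain ⟨⟨i, rfl⟩, j, rfl⟩ := c
      exact congrFun (congrFun k i) j
    · exact (by_contra fun d => c (h y z d) : _ = _).trans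
        (by_contra fun d => c (h' y z d) : _ = _).symm
  exact Matrix.ext fun i j => ent_inj (Matrix.ext fun x y => this (i, x) (j, y))

lemma mul_big (he : Injective e) (h : Supp e A) (B : Matrix K K (FF R G V)) :
    mulM ((big A).submatrix e e) ((big B).submatrix e e) = (big (A * B)).submatrix e e := by
  ext1 i k
  rw [Matrix.submatrix_apply, big_mul, mulM]
  refine Eq.trans (finsum_mem_range (f := fun w => big A (e i) w * big B w (e k)) he).symm ?_
  rw [finsum_mem_def, Set.indicator_eq_self.2]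
  exact fun w hw => (h _ _ (left_ne_zero_of_mul hw)).2

end Big

/-- A presentation of a complex over the small operators. -/
structure Pres (X : KN.Cx (FF R G V) Unit) (Y : Raw R G V) (e : Y.M.I → X.J × Ix V) : Prop where
  inj : Injective e
  t : ∀ i, Y.M.t i = (e i).2.t
  x : ∀ i, Y.M.x i = (e i).2.p.1
  deg : ∀ i, Y.deg i = (X.t (e i).1).2
  p : Y.p = (big X.p).submatrix e e
  D : Y.D = (big X.D).submatrix e e
  sup : Supp e X.p

variable {X X' : KN.Cx (FF R G V) Unit} {Y Y' : Raw R G V} {e : Y.M.I → X.J × Ix V}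

lemma Pres.mor (h : Pres X Y e) {d : ℤ} {a : Matrix X.J X.J (FF R G V)}
    (ha : KN.Hm (ssF Φ G V) d X.t X.t a) : Y.Mor Φ d ((big a).submatrix e e) :=
  ⟨ctrl_big (fun k l => (ha k l).1.1) h.t h.x, fun i j c => by
    rw [h.deg, h.deg]
    exact (ha _ _).2 fun d => c (congrArg (fun a : FF R G V => ent a.op _ _) d)⟩

lemma Pres.null (h : Pres X Y e) (hX : KN.Ok (ssF Φ G V) X) {c : R} (hc : ∀ x, c * x = x * c)
    (k : KN.Nul (ssF Φ G V) (sc G V c) X) : Y.Null Φ c := by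
  obtain ⟨s, h1, h2⟩ := k.sand ss_idl.lr hX (sc_cen hc)
  refine ⟨_, h.mor h1.hm, ?_⟩
  rw [h.D, h.p, mul_big h.inj (h.sup.sand hX.pD hX.Dp), mul_big h.inj (h.sup.sand h1.pl h1.pr)]
  exact congrArg (fun A => (big A).submatrix e e) h2

lemma Pres.null_one (h : Pres X Y e) (hX : KN.Ok (ssF Φ G V) X) (k : KN.Nul (ssF Φ G V) 1 X) :
    Y.Null Φ 1 := h.null hX (fun x => by simp) (by rwa [map_one])

variable [Fintype ι] (hu : ∀ i x, (u i : R) * x = x * u i)

include hu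

lemma Pres.isN (h : Pres X Y e) (hX : KN.Obj (ssF Φ G V) (scS G V u) Finset.univ X) :
    Y.IsN Φ u where
  bd := (Set.finite_range fun j => (X.t j).2).subset (by
    rintro _ ⟨i, rfl⟩
    exact ⟨_, (h.deg i).symm⟩)
  hp := h.p ▸ h.mor hX.ok.hp
  hD := h.D ▸ h.mor hX.ok.hD
  pp := by rw [h.p, mul_big h.inj h.sup, hX.ok.pp]
  pD := by rw [h.p, h.D, mul_big h.inj h.sup, hX.ok.pD]
  Dp := by rw [h.p, h.D, mul_big h.inj (h.sup.sand hX.ok.pD hX.ok.Dp), hX.ok.Dp]
  DD := by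
    rw [h.D, mul_big h.inj (h.sup.sand hX.ok.pD hX.ok.Dp), hX.ok.DD]
    rfl
  tor i := by
    obtain ⟨_, ⟨n, rfl⟩, k⟩ := hX.tor i (Finset.mem_univ i)
    exact ⟨n, h.null hX.ok (fun x => (Commute.pow_left (hu i x) n).eq) (by rwa [map_pow])⟩

omit hu

/-- Restriction to a subset of the basis. -/
def Raw.res (Y : Raw R G V) (U : Set Y.M.I) : Raw R G V where
  M := { I := U
         t := fun i => Y.M.t i
         x := fun i => Y.M.x i
         fin := fun n => (Y.M.fin n).preimage Subtype.val_injective.injOn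
         nonneg := fun i => Y.M.nonneg i
         total := fun i => Y.M.total i
         cpt := Y.M.cpt.imp fun _ c => ⟨c.1, fun i => c.2 i⟩ }
  deg i := Y.deg i.1
  p := Y.p.submatrix Subtype.val Subtype.val
  D := Y.D.submatrix Subtype.val Subtype.val

variable (Φ u) in
/-- The class in the Grothendieck group. -/
noncomputable def cl (Y : Raw R G V) :
    FreeAbelianGroup (Raw R G V) ⧸ AddSubgroup.closure (Rel Φ G V u) :=
  QuotientAddGroup.mk (FreeAbelianGroup.of Y)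

lemma cl_ext {Y'' : Raw R G V} (h' : Y'.IsN Φ u) (h : Y.IsN Φ u) (h'' : Y''.IsN Φ u)
    (k : Y'.IsExt Y Y'') : cl Φ u Y = cl Φ u Y' + cl Φ u Y'' := by
  have := (QuotientAddGroup.eq_zero_iff _).2
    (AddSubgroup.subset_closure (k := Rel Φ G V u) (Or.inl ⟨_, _, _, h', h, h'', k, rfl⟩))
  rwa [sub_sub, QuotientAddGroup.mk_sub, QuotientAddGroup.mk_add, sub_eq_zero] at this

lemma cl_null (h : Y.IsN Φ u) (k : Y.Null Φ 1) : cl Φ u Y = 0 :=
  (QuotientAddGroup.eq_zero_iff _).2 (AddSubgroup.subset_closure (Or.inr ⟨_, h, k, rfl⟩))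

include hu

lemma cl_le {e' : Y'.M.I → X.J × Ix V} (h : Pres X Y e) (h' : Pres X Y' e')
    (hX : KN.Obj (ssF Φ G V) (scS G V u) Finset.univ X) (k : Set.range e' ⊆ Set.range e) :
    cl Φ u Y = cl Φ u Y' := by
  choose φ hφ using fun i => k ⟨i, rfl⟩
  have hD := h'.sup.sand hX.ok.pD hX.ok.Dp
  have z1 : ∀ {A : Matrix X.J X.J (FF R G V)}, Supp e' A → ∀ y z,
      y ∉ Set.range e' ∨ z ∉ Set.range e' → big A y z = 0 := fun hA y z c =>
    by_contra fun d => c.elim (fun c => c (hA y z d).1) fun c => c (hA y z d).2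
  have o1 : KN.Ok (ssF Φ G V) (X.re 0 0) :=
    ⟨KN.Hm.zero _ _, KN.Hm.zero _ _, mul_zero _, mul_zero _, mul_zero _, mul_zero _⟩
  have o2 : KN.Nul (ssF Φ G V) 1 (X.re 0 0) := ⟨0, KN.Hm.zero _ _, by simp⟩
  have hZ : Pres (X.re 0 0) (Y.res {j | e j ∉ Set.range e'}) fun j => e j.1 :=
    ⟨h.inj.comp Subtype.val_injective, fun i => h.t i.1, fun i => h.x i.1, fun i => h.deg i.1,
      Matrix.ext fun i j => (congrFun (congrFun h.p i.1) j.1).trans (z1 h'.sup _ _ (Or.inl i.2)),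
      Matrix.ext fun i j => (congrFun (congrFun h.D i.1) j.1).trans (z1 hD _ _ (Or.inl i.2)),
      supp_zero⟩
  have hφ' : e ∘ φ = e' := funext hφ
  rw [cl_ext (h'.isN hu hX) (h.isN hu hX) (hZ.isN hu ⟨o1, o2.tor⟩) ⟨φ, Subtype.val, ⟨?_, ?_⟩,
    ⟨fun i => by rw [h.t, h'.t, hφ], fun i => by rw [h.x, h'.x, hφ],
      fun i => by rw [h.deg, h'.deg, hφ], by rw [h.p, h'.p, Matrix.submatrix_submatrix, hφ'],
      by rw [h.D, h'.D, Matrix.submatrix_submatrix, hφ']⟩,
    ⟨fun _ => rfl, fun _ => rfl, fun _ => rfl, rfl, rfl⟩, fun i j => ?_⟩,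
    cl_null (hZ.isN hu ⟨o1, o2.tor⟩) (hZ.null_one o1 o2), add_zero]
  · exact Injective.sumElim (fun i j c => h'.inj (by rw [← hφ, ← hφ, c])) Subtype.val_injective
      fun i j c => j.2 ⟨i, by rw [← hφ, c]⟩
  · intro j
    by_cases c : e j ∈ Set.range e'
    · obtain ⟨i, hi⟩ := c
      exact ⟨Sum.inl i, h.inj ((hφ i).trans hi)⟩
    · exact ⟨Sum.inr ⟨j, c⟩, rfl⟩
  · rw [h.p, h.D]
    exact ⟨z1 h'.sup _ _ (Or.inr j.2), z1 h'.sup _ _ (Or.inl j.2), z1 hD _ _ (Or.inl j.2)⟩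

lemma cl_eq {e' : Y'.M.I → X.J × Ix V} (h : Pres X Y e) (h' : Pres X Y' e')
    (hX : KN.Obj (ssF Φ G V) (scS G V u) Finset.univ X) : cl Φ u Y = cl Φ u Y' := by
  have hZ : Pres X (Y.res {j | e j ∈ Set.range e'}) fun j => e j.1 :=
    ⟨h.inj.comp Subtype.val_injective, fun i => h.t i.1, fun i => h.x i.1, fun i => h.deg i.1,
      Matrix.ext fun i j => congrFun (congrFun h.p i.1) j.1,
      Matrix.ext fun i j => congrFun (congrFun h.D i.1) j.1, fun y z c => by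
        obtain ⟨⟨i, rfl⟩, j, rfl⟩ := h.sup y z c
        exact ⟨⟨⟨i, (h'.sup _ _ c).1⟩, rfl⟩, ⟨j, (h'.sup _ _ c).2⟩, rfl⟩⟩
  refine (cl_le hu h hZ hX ?_).trans (cl_le hu h' hZ hX ?_).symm
  · rintro _ ⟨i, rfl⟩
    exact ⟨_, rfl⟩
  · rintro _ ⟨i, rfl⟩
    exact i.2

omit hu

lemma exists_pres (hX : KN.Ok (ssF Φ G V) X) : ∃ Y e, Pres X Y e := by
  classical
  obtain ⟨U, h1, h2⟩ := sm_common (Finset.univ.image fun k : X.J × X.J => X.p k.1 k.2)
    fun x hx => by
      obtain ⟨k, -, rfl⟩ := Finset.mem_image.1 hx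
      exact (hX.hp _ _).1.2
  obtain ⟨K, c3, c4⟩ := h1.2
  refine ⟨⟨{  I := {y : X.J × Ix V // y.2 ∈ U}
              t := fun y => y.1.2.t
              x := fun y => y.1.2.p.1
              fin := fun n => ((Set.finite_univ.prod (h1.1 n)).preimage
                Subtype.val_injective.injOn).subset fun y c => ⟨trivial, y.2, c⟩
              nonneg := fun y => y.1.2.p.2.1
              total := fun y => y.1.2.p.2.2
              cpt := ⟨K, c3, fun y => c4 _ y.2⟩ }, fun y => (X.t y.1.1).2,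
      (big X.p).submatrix Subtype.val Subtype.val, (big X.D).submatrix Subtype.val Subtype.val⟩,
    Subtype.val, Subtype.val_injective,
    fun _ => rfl, fun _ => rfl, fun _ => rfl, rfl, rfl, fun y z c => ?_⟩
  obtain ⟨g, hg⟩ := ne_coeff c
  have := h2 _ (Finset.mem_image_of_mem _ (Finset.mem_univ (y.1, z.1))) _ _ g hg
  exact ⟨⟨⟨y, this.1⟩, rfl⟩, ⟨z, this.2⟩, rfl⟩

lemma Pres.ext {e' : Y'.M.I → X'.J × Ix V} (h : Pres X Y e) (h' : Pres X' Y' e')
    (t : Matrix X.J X'.J (FF R G V)) : ∃ W E, Pres (X.ext X' t) W E ∧ Y.IsExt W Y' := by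
  let E : (Y.M.sum Y'.M).I → (X.J ⊕ X'.J) × Ix V :=
    Sum.elim (Prod.map Sum.inl id ∘ e) (Prod.map Sum.inr id ∘ e')
  refine ⟨⟨Y.M.sum Y'.M, Sum.elim Y.deg Y'.deg, (big (X.ext X' t).p).submatrix E E,
    (big (X.ext X' t).D).submatrix E E⟩, E, ⟨?_, ?_, ?_, ?_, rfl, rfl, ?_⟩,
    Sum.inl, Sum.inr, Sum.elim_inl_inr ▸ bijective_id,
    ⟨fun _ => rfl, fun _ => rfl, fun _ => rfl, h.p, h.D⟩,
    ⟨fun _ => rfl, fun _ => rfl, fun _ => rfl, h'.p, h'.D⟩, fun _ _ => ⟨rfl, rfl, rfl⟩⟩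
  · exact Injective.sumElim ((Sum.inl_injective.prodMap injective_id).comp h.inj)
      ((Sum.inr_injective.prodMap injective_id).comp h'.inj)
      fun _ _ c => Sum.inl_ne_inr (congrArg Prod.fst c)
  · rintro (i | i)
    exacts [h.t i, h'.t i]
  · rintro (i | i)
    exacts [h.x i, h'.x i]
  · rintro (i | i)
    exacts [h.deg i, h'.deg i]
  · rintro ⟨k | k, y⟩ ⟨l | l, z⟩ c
    · obtain ⟨⟨i, a⟩, j, b⟩ := h.sup (k, y) (l, z) c
      exact ⟨⟨Sum.inl i, congrArg (Prod.map Sum.inl id) a⟩,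
        Sum.inl j, congrArg (Prod.map Sum.inl id) b⟩
    · exact absurd rfl c
    · exact absurd rfl c
    · obtain ⟨⟨i, a⟩, j, b⟩ := h'.sup (k, y) (l, z) c
      exact ⟨⟨Sum.inr i, congrArg (Prod.map Sum.inr id) a⟩,
        Sum.inr j, congrArg (Prod.map Sum.inr id) b⟩

end Pool.Agent.MP_f7db47_al.OB
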