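import Pool.Agent.MP_f7db47_al.KN.XS
import Pool.Agent.MP_f7db47_al.KN.DG

/-!
The vanishing property for complexes with supports.
-/

namespace Pool.Agent.MP_f7db47_al.KN

open Matrix GN

universe v w

variable {R : Type v} [Ring R] {G : Type} [Group G] [MulSemiringAction G R] {ι : Type}
  {D : Subring R} {S : ι → Submonoid (SkewMonoidAlgebra R G)} {K : Finset ι}

theorem xw_hm {I J : Type} [Fintype I] [Fintype J] (M : Matrix I J (SkewMonoidAlgebra R G)) :
    ∃ T : Finset G, ∀ T' : Finset G, T ⊆ T' → ∀ (d : ℤ) (s : I → Unit × ℤ) (t : J → Unit × ℤ),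
      Hm (ful G D) d s t M → Hm (ctl D fun _ g _ => g ∈ T') d s t M := by
  classical
  refine ⟨Finset.univ.biUnion fun x : I × J => (M x.1 x.2).coeff.support,
    fun T' hT d s t h i j => ⟨fun g => ⟨((h i j).1 g).1, fun e => hT ?_⟩, (h i j).2⟩⟩
  exact Finset.mem_biUnion.2 ⟨(i, j), Finset.mem_univ _, Finsupp.mem_support_iff.2 e⟩

/-- An object uses only finitely many group elements. -/
theorem Obj.fin {X : Cx (SkewMonoidAlgebra R G) Unit} (h : Obj (ful G D) S K X) :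
    ∃ T : Finset G, Obj (ctl D fun _ g _ => g ∈ T) S K X := by
  classical
  obtain ⟨T₁, h1⟩ := xw_hm (D := D) X.p
  obtain ⟨T₂, h2⟩ := xw_hm (D := D) X.D
  choose w hw s hs e using h.tor
  choose T₃ h3 using fun a : K => xw_hm (D := D) (s a a.2)
  refine ⟨T₁ ∪ T₂ ∪ Finset.univ.biUnion T₃, ⟨h1 _ (fun x hx => by simp [hx]) _ _ _ h.ok.hp,
    h2 _ (fun x hx => by simp [hx]) _ _ _ h.ok.hD, h.ok.pp, h.ok.pD, h.ok.Dp, h.ok.DD⟩,
    fun a ha => ⟨w a ha, hw a ha, s a ha, h3 ⟨a, ha⟩ _ (fun x hx => ?_) _ _ _ (hs a ha), e a ha⟩⟩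
  exact Finset.mem_union_right _ (Finset.mem_biUnion.2 ⟨_, Finset.mem_univ _, hx⟩)

theorem VV.nullAll (hS : Sca D S) (hz : Stdz (ful G D) Std)
    (h : ∀ (T : Finset G) (L : ℕ), VV D S K Unit (fun _ g _ => g ∈ T) L) :
    NullAll (ful G D) S K := fun X hX => by
  obtain ⟨Y, h1, h2, h3⟩ := hz X hX.ok
  obtain ⟨T, hT⟩ := (hX.he hS.good h1 h3).fin
  obtain ⟨L, hL⟩ := exists_bd Y
  exact Cert.he hS.good.mul (h T L Y hT hL h2) h3

variable (D S K) in
/-- Vanishing over spiders. -/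
def Van (Q : Subgroup G → Prop) : Prop :=
  ∀ N k L : ℕ, ∃ r : ℕ, ∀ (Λ κ : Type) [Fintype κ] (P : κ → Spi G Λ),
    Fintype.card κ ≤ N → (∀ i a, 0 < (P i).ht a → Q ((P i).leg.grp a)) →
    (∀ a, ∃ i, r ≤ (P i).ht a) → VV D S K Λ (fun a g b => ∀ i, (P i).rel k a g b) L

/-- The vanishing property for complexes with supports. -/
def mkVT (hS : Sca D S) {Q : Subgroup G → Prop} (h : Van D S K Q) : VT G Q where
  V := VV D S K
  pull := VV.pull
  tr n := (VV.tr.{v} n).imp fun _ hc => hc R G ι D S K hS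
  van := h
  swan := VV.swan hS

theorem nullAll_of_vt (hS : Sca D S) (hz : Stdz (ful G D) Std) {Q : Subgroup G → Prop}
    (h : Van D S K Q) (hT : ∀ T : VT G Q, T.All) : NullAll (ful G D) S K :=
  VV.nullAll hS hz (hT (mkVT hS h))

theorem van_of_vn {κ : Type w} {C : Coef ι κ R} [C.Inv G] (h : ∀ N, VN G C N)
    {Q : Subgroup G → Prop} (hQ : ∀ H, Q H → QG C H) (I : κ) (K : Finset ι) :
    Van (C.D I) (C.S G) K Q := fun N k L => by
  choose r hr using fun n => h n I K k L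
  refine ⟨(Finset.range (N + 1)).sup r, fun Λ κ' _ P h1 h2 h3 => ?_⟩
  let e := Fintype.equivFin κ'
  refine VV.pull id (fun a g b c i => c (e.symm i)) le_rfl
    (hr _ Λ (fun i => P (e.symm i)) (fun i a c => hQ _ (h2 _ a c)) fun a => ?_)
  obtain ⟨i, hi⟩ := h3 a
  refine ⟨e i, ?_⟩
  rw [e.symm_apply_apply]
  exact (Finset.le_sup (f := r) (Finset.mem_range.2 (Nat.lt_succ_of_le h1))).trans hi

/-- The form that is used for the reduction `Pp.Red`. -/
theorem nullAll_of_vn {κ : Type w} {C : Coef ι κ R} [C.Inv G] (h : ∀ N, VN G C N)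
    {Q : Subgroup G → Prop} (hQ : ∀ H, Q H → QG C H) (hT : ∀ T : VT G Q, T.All) (I : κ)
    (hz : Stdz (ful G (C.D I)) Std) (K : Finset ι) : NullAll (ful G (C.D I)) (C.S G) K :=
  nullAll_of_vt (C.sca I) hz (van_of_vn h hQ I K) hT

end Pool.Agent.MP_f7db47_al.KN
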