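import Pool.Agent.MP_f7db47_al.KN.O4
import Pool.Agent.MP_f7db47_al.KN.XW

/-!
Vanishing of the Grothendieck group of complexes with supports.
-/

set_option linter.unusedSectionVars false

namespace Pool.Agent.MP_f7db47_al.OB

open Function

universe v

variable {R : Type v} [Ring R] {Φ : ℕ → AddSubgroup R} [Flt Φ] {G : Type} [Group G] {V : Type}
  [MulAction G V] {ι : Type} {u : ι → Rˣ}

lemma Ctrl.le {M : Obj V} {a b : Matrix M.I M.I (MonoidAlgebra R G)} (h : Ctrl Φ M a)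
    (k : ∀ i j, b i j = a i j ∨ b i j = 0) : Ctrl Φ M b := by
  have k1 : ∀ {i j g}, (b i j).coeff g ≠ 0 → (a i j).coeff g ≠ 0 := fun {i j g} c =>
    (k i j).elim (fun d => d ▸ c) fun d => absurd (by rw [d]; rfl) c
  obtain ⟨⟨d, h1⟩, ⟨F, h2, h3⟩, ⟨α, h4⟩, h5⟩ := h
  refine ⟨⟨d, fun i j g => (k i j).elim (fun c => c ▸ h1 i j g) fun c => c ▸ zero_mem _⟩,
    ⟨F, h2, fun i j g c => h3 i j g (k1 c)⟩, ⟨α, fun i j c => h4 i j ?_⟩,
    fun ε hε => (h5 ε hε).imp fun _ c i j g e => c i j g (k1 e)⟩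
  exact (k i j).elim (fun d => d ▸ c) fun d => absurd d c

lemma ss_hat' {M : Obj V} {e : M.I → Ix V} (he : Injective e) (ht : ∀ i, M.t i = (e i).t)
    (hx : ∀ i, M.x i = (e i).p.1) {a : Matrix M.I M.I (MonoidAlgebra R G)} (ha : Ctrl Φ M a) :
    hat he (opOf a ha.fin) ∈ SS Φ G V := by
  have h0 : Ctrl Φ M (0 : Matrix M.I M.I (MonoidAlgebra R G)) := ha.le fun _ _ => Or.inr rfl
  have := sub_mem (ss_hat he ht hx ha) (ss_hat he ht hx h0)
  rwa [sub_sub_sub_cancel_right, show opOf _ h0.fin = 0 from ent_inj (ent_opOf _ _),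
    show hat he (0 : Op (MonoidAlgebra R G) M.I M.I) = 0 from FF.ext fun _ => map_zero (push _ e),
    sub_zero] at this

lemma exists_blk {Y : Raw R G V} {J : Type} [Fintype J] [DecidableEq J] (s : J → Unit × ℤ)
    {δ : Y.M.I → J} (hδ : ∀ i, Y.deg i = (s (δ i)).2) {e : Y.M.I → Ix V} (he : Injective e)
    (ht : ∀ i, Y.M.t i = (e i).t) (hx : ∀ i, Y.M.x i = (e i).p.1) {d : ℤ}
    {a : Matrix Y.M.I Y.M.I (MonoidAlgebra R G)} (ha : Y.Mor Φ d a) :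
    ∃ A, KN.Hm (ssF Φ G V) d s s A ∧ Supp (fun i => (δ i, e i)) A ∧
      (big A).submatrix (fun i => (δ i, e i)) (fun i => (δ i, e i)) = a := by
  have h1 : ∀ n m : J, Ctrl Φ Y.M (Matrix.of fun i j => if δ i = n ∧ δ j = m then a i j else 0) :=
    fun n m => ha.1.le fun i j => by
      rw [Matrix.of_apply]
      split_ifs
      exacts [Or.inl rfl, Or.inr rfl]
  let A : Matrix J J (FF R G V) := fun n m => hat he (opOf _ (h1 n m).fin)
  have h2 : ∀ n m i j, big A (n, e i) (m, e j) = if δ i = n ∧ δ j = m then a i j else 0 :=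
    fun n m i j => (ent_hat he _ i j).trans (congrFun (congrFun (ent_opOf _ _) i) j)
  have h3 : ∀ y z, big A y z ≠ 0 → ∃ i j, (δ i, e i) = y ∧ (δ j, e j) = z ∧ a i j ≠ 0 := by
    rintro ⟨n, y⟩ ⟨m, z⟩ c
    obtain ⟨g, hg⟩ := ne_coeff c
    obtain ⟨i, j, rfl, rfl, -⟩ :=
      Sp.hat he (E := fun _ _ _ => True) (fun _ _ _ _ => trivial) y z g hg
    rw [h2] at c
    split_ifs at c with k
    · exact ⟨i, j, by rw [k.1], by rw [k.2], c⟩
    · exact absurd rfl c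
  refine ⟨A, fun n m => ⟨ss_hat' he ht hx (h1 n m), fun c => ?_⟩, fun y z c => ?_,
    Matrix.ext fun i j => (h2 _ _ i j).trans (if_pos ⟨rfl, rfl⟩)⟩
  · by_contra k
    refine c (ent_inj (Matrix.ext fun y z => by_contra fun l => k ?_))
    obtain ⟨i, j, a1, a2, a3⟩ := h3 (n, y) (m, z) l
    rw [← (Prod.mk.inj a1).1, ← (Prod.mk.inj a2).1, ← hδ, ← hδ]
    exact ha.2 i j a3
  · obtain ⟨i, j, a1, a2, -⟩ := h3 y z c
    exact ⟨⟨i, a1⟩, j, a2⟩

variable [Fintype ι]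

lemma exists_cx {Y : Raw R G V} (hY : Y.IsN Φ u) :
    ∃ X e, KN.Obj (ssF Φ G V) (scS G V u) Finset.univ X ∧ Pres X Y e := by
  obtain ⟨e, he, ht, hx⟩ := exists_emb Y.M
  let δ : Y.M.I → hY.bd.toFinset := fun i => ⟨Y.deg i, hY.bd.mem_toFinset.2 ⟨i, rfl⟩⟩
  let s : hY.bd.toFinset → Unit × ℤ := fun n => ((), n.1)
  have hE : Injective fun i => (δ i, e i) := fun _ _ c => he (congrArg Prod.snd c)
  obtain ⟨p, p1, p2, p3⟩ := exists_blk s (δ := δ) (fun _ => rfl) he ht hx hY.hp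
  obtain ⟨D, d1, d2, d3⟩ := exists_blk s (δ := δ) (fun _ => rfl) he ht hx hY.hD
  refine ⟨⟨hY.bd.toFinset, s, p, D⟩, _, ⟨⟨p1, d1, (p2.mul p2).ext p2 ?_, (p2.mul d2).ext d2 ?_,
    (d2.mul p2).ext d2 ?_, (d2.mul d2).ext supp_zero ?_⟩, fun i _ => ?_⟩,
    hE, ht, hx, fun _ => rfl, p3.symm, d3.symm, p2⟩
  · rw [← mul_big hE p2, p3, hY.pp]
  · rw [← mul_big hE p2, p3, d3, hY.pD]
  · rw [← mul_big hE d2, p3, d3, hY.Dp]
  · rw [← mul_big hE d2, d3, hY.DD]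
    rfl
  · obtain ⟨n, k, k1, k2⟩ := hY.tor i
    obtain ⟨h, h1, h2, h3⟩ := exists_blk s (δ := δ) (fun _ => rfl) he ht hx k1
    refine ⟨_, ⟨n, (map_pow _ _ _).symm⟩, h, h1,
      ((d2.mul h2).add (h2.mul d2)).ext (p2.sc _) ?_⟩
    rw [big_add, Matrix.submatrix_add, Pi.add_apply, Pi.add_apply, ← mul_big hE d2,
      ← mul_big hE h2, d3, h3, k2, ← p3]
    rfl

/-- Vanishing over the small operators gives vanishing over the obstruction category. -/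
theorem k0zero (hu : ∀ i x, (u i : R) * x = x * u i) (hm : ∀ i, ∃ d, (u i : R) ∈ Φ d)
    (h : KN.NullAll (ssF Φ G V) (scS G V u) Finset.univ) : K0Zero Φ G V u := by
  classical
  let κ : KN.Cx (FF R G V) Unit → _ := fun X =>
    if c : ∃ Y e, Pres X Y e then cl Φ u c.choose else 0
  have k : ∀ {X Y e}, KN.Obj (ssF Φ G V) (scS G V u) Finset.univ X → Pres X Y e →
      κ X = cl Φ u Y := fun {X Y e} hX c => by
    have c' : ∃ Y e, Pres X Y e := ⟨Y, e, c⟩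
    exact (dif_pos c').trans (cl_eq hu c'.choose_spec.choose_spec c hX)
  intro Y hY
  obtain ⟨X, e, hX, c⟩ := exists_cx hY
  refine (QuotientAddGroup.eq_zero_iff _).1 ((k hX c).symm.trans
    ((h X hX).inv (ss_good hu hm) (fun X X' t a b ht => ?_) (fun X a b => ?_) hX))
  · obtain ⟨Y, e, c⟩ := exists_pres a.ok
    obtain ⟨Y', e', c'⟩ := exists_pres b.ok
    obtain ⟨W, E, d, d'⟩ := c.ext c' t
    have o := a.ext (ss_good hu hm) ht b
    rw [k a c, k b c', k o d, cl_ext (c.isN hu a) (d.isN hu o) (c'.isN hu b) d']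
  · obtain ⟨Y, e, c⟩ := exists_pres a
    rw [k ⟨a, b.tor⟩ c, cl_null (c.isN hu ⟨a, b.tor⟩) (c.null_one a b)]

/-- The conclusion, from the vanishing theorem over spiders. -/
theorem k0zero_fj (hu : ∀ i x, (u i : R) * x = x * u i) (hm : ∀ i, ∃ d, (u i : R) ∈ Φ d)
    (hv : ∀ (Δ : Type) [Group Δ] [MulSemiringAction Δ (FF R G V × FF R G V)]
      [(coef G V hu).Inv Δ] (N : ℕ), KN.VN Δ (coef G V hu) N)
    {Γ : Type} [Group Γ] (hΓ : VD.FJ Γ) (f : G →* Γ)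
    (hV : ∀ (B : Subgroup Γ) (φ : B →* Multiplicative ℤ), Finite φ.ker →
      ∃ v : V, ∀ g, f g ∈ B → g • v = v) : K0Zero Φ G V u :=
  k0zero hu hm (ss_null_fj hu (fun Δ _ _ _ I K _ hQ =>
    ⟨KN.mkVT ((coef G V hu).sca I) (KN.van_of_vn (hv Δ) hQ I K), rfl⟩) hΓ f hV
    ⟨Φ, inferInstance, hm⟩ _)

end Pool.Agent.MP_f7db47_al.OB
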