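import Mathlib

/-!
Triangulated core, part 1: triangles, torsion objects, Koszul extension, additive invariants.
-/

set_option linter.unusedSectionVars false
set_option backward.isDefEq.respectTransparency false

open CategoryTheory Limits Pretriangulated ZeroObject Triangulated Category

universe u v u' v' w

namespace Pool.Agent.MP_f7db47_al.KN.TC

section tri

variable {D : Type u} [Category.{v} D] [Preadditive D] [HasZeroObject D] [HasShift D ℤ]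
  [∀ n : ℤ, (shiftFunctor D n).Additive] [Pretriangulated D]

/-- `Z` is a cone of `f`. -/
def Cone {X Y : D} (f : X ⟶ Y) (Z : D) : Prop :=
  ∃ (g : Y ⟶ Z) (h : Z ⟶ X⟦(1 : ℤ)⟧), Triangle.mk f g h ∈ distTriang D

/-- `X` is a fibre of `g`. -/
def Fib {Y Z : D} (g : Y ⟶ Z) (X : D) : Prop :=
  ∃ (f : X ⟶ Y) (h : Z ⟶ X⟦(1 : ℤ)⟧), Triangle.mk f g h ∈ distTriang D

/-- There is a distinguished triangle with vertices `X, Y, Z`. -/
def Tri (X Y Z : D) : Prop :=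
  ∃ (f : X ⟶ Y) (g : Y ⟶ Z) (h : Z ⟶ X⟦(1 : ℤ)⟧), Triangle.mk f g h ∈ distTriang D

section api
variable {X Y Z X' Y' Z' V : D} {f : X ⟶ Y} {g : Y ⟶ Z} {h : Z ⟶ X⟦(1 : ℤ)⟧}
  {f' : X' ⟶ Y'} {g' : Y' ⟶ Z'} {h' : Z' ⟶ X'⟦(1 : ℤ)⟧}

/-- Abbreviation for distinguished triangles. -/
abbrev DT (f : X ⟶ Y) (g : Y ⟶ Z) (h : Z ⟶ X⟦(1 : ℤ)⟧) : Prop :=
  Triangle.mk f g h ∈ distTriang D

theorem DT.z12 (t : DT f g h) : f ≫ g = 0 := comp_distTriang_mor_zero₁₂ _ t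
theorem DT.z23 (t : DT f g h) : g ≫ h = 0 := comp_distTriang_mor_zero₂₃ _ t
theorem DT.z31 (t : DT f g h) : h ≫ f⟦(1 : ℤ)⟧' = 0 := comp_distTriang_mor_zero₃₁ _ t
theorem DT.co2 (t : DT f g h) (a : V ⟶ Y) (ha : a ≫ g = 0) : ∃ q : V ⟶ X, a = q ≫ f :=
  Triangle.coyoneda_exact₂ _ t a ha
theorem DT.co3 (t : DT f g h) (a : V ⟶ Z) (ha : a ≫ h = 0) : ∃ q : V ⟶ Y, a = q ≫ g :=
  Triangle.coyoneda_exact₃ _ t a ha
theorem DT.co1 (t : DT f g h) (a : V ⟶ X⟦(1 : ℤ)⟧) (ha : a ≫ f⟦(1 : ℤ)⟧' = 0) :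
    ∃ q : V ⟶ Z, a = q ≫ h := Triangle.coyoneda_exact₁ _ t a ha
theorem DT.yo2 (t : DT f g h) (a : Y ⟶ V) (ha : f ≫ a = 0) : ∃ q : Z ⟶ V, a = g ≫ q :=
  Triangle.yoneda_exact₂ _ t a ha
theorem DT.yo3 (t : DT f g h) (a : Z ⟶ V) (ha : g ≫ a = 0) :
    ∃ q : X⟦(1 : ℤ)⟧ ⟶ V, a = h ≫ q := Triangle.yoneda_exact₃ _ t a ha
theorem DT.rot (t : DT f g h) : DT g h (-f⟦(1 : ℤ)⟧') := rot_of_distTriang _ t
theorem DT.cm3 (t : DT f g h) (t' : DT f' g' h') (a : X ⟶ X') (b : Y ⟶ Y') (e : f ≫ b = a ≫ f') :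
    ∃ c : Z ⟶ Z', g ≫ c = b ≫ g' ∧ h ≫ a⟦(1 : ℤ)⟧' = c ≫ h' :=
  complete_distinguished_triangle_morphism _ _ t t' a b e
theorem DT.cm2 (t : DT f g h) (t' : DT f' g' h') (a : X ⟶ X') (c : Z ⟶ Z')
    (e : h ≫ a⟦(1 : ℤ)⟧' = c ≫ h') : ∃ b : Y ⟶ Y', f ≫ b = a ≫ f' ∧ g ≫ c = b ≫ g' :=
  complete_distinguished_triangle_morphism₂ _ _ t t' a c e
theorem DT.cm1 (t : DT f g h) (t' : DT f' g' h') (b : Y ⟶ Y') (c : Z ⟶ Z')
    (e : g ≫ c = b ≫ g') : ∃ a : X ⟶ X', f ≫ b = a ≫ f' ∧ h ≫ a⟦(1 : ℤ)⟧' = c ≫ h' :=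
  complete_distinguished_triangle_morphism₁ _ _ t t' b c e
theorem DT.iso2 (t : DT f g h) (t' : DT f' g' h') (a : X ⟶ X') (b : Y ⟶ Y') (c : Z ⟶ Z')
    (e₁ : f ≫ b = a ≫ f') (e₂ : g ≫ c = b ≫ g') (e₃ : h ≫ a⟦(1 : ℤ)⟧' = c ≫ h')
    (ha : IsIso a) (hc : IsIso c) : IsIso b :=
  isIso₂_of_isIso₁₃ (Triangle.homMk (Triangle.mk f g h) (Triangle.mk f' g' h') a b c e₁ e₂ e₃)
    t t' ha hc

end api

theorem Tri.of (T : Triangle D) (hT : T ∈ distTriang D) : Tri T.obj₁ T.obj₂ T.obj₃ :=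
  ⟨T.mor₁, T.mor₂, T.mor₃, hT⟩

theorem Cone.tri {X Y Z : D} {f : X ⟶ Y} (h : Cone f Z) : Tri X Y Z :=
  let ⟨g, k, hT⟩ := h; ⟨f, g, k, hT⟩

theorem Fib.tri {X Y Z : D} {g : Y ⟶ Z} (h : Fib g X) : Tri X Y Z :=
  let ⟨f, k, hT⟩ := h; ⟨f, g, k, hT⟩

theorem Tri.cone {X Y Z : D} (h : Tri X Y Z) : ∃ f : X ⟶ Y, Cone f Z :=
  let ⟨f, g, k, hT⟩ := h; ⟨f, g, k, hT⟩

theorem Tri.fib {X Y Z : D} (h : Tri X Y Z) : ∃ g : Y ⟶ Z, Fib g X :=
  let ⟨f, g, k, hT⟩ := h; ⟨g, f, k, hT⟩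

theorem exists_cone {X Y : D} (f : X ⟶ Y) : ∃ Z, Cone f Z :=
  distinguished_cocone_triangle f

theorem exists_fib {Y Z : D} (g : Y ⟶ Z) : ∃ X, Fib g X :=
  distinguished_cocone_triangle₁ g

theorem Cone.iso {X Y Z Z' : D} {f : X ⟶ Y} (h : Cone f Z) (e : Z ≅ Z') : Cone f Z' := by
  obtain ⟨g, k, hT⟩ := h
  exact ⟨g ≫ e.hom, e.inv ≫ k, isomorphic_distinguished _ hT _
    (Triangle.isoMk _ _ (Iso.refl _) (Iso.refl _) e.symm)⟩

theorem Cone.arrow {X Y X' Y' Z : D} {f : X ⟶ Y} {f' : X' ⟶ Y'} (h : Cone f Z) (a : X' ≅ X)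
    (b : Y' ≅ Y) (c : f' ≫ b.hom = a.hom ≫ f) : Cone f' Z := by
  obtain ⟨g, k, hT⟩ := h
  refine ⟨b.hom ≫ g, k ≫ a.inv⟦(1 : ℤ)⟧', isomorphic_distinguished _ hT _
    (Triangle.isoMk _ _ a b (Iso.refl _) c (by simp) ?_)⟩
  simp [← Functor.map_comp]

theorem Cone.uniq {X Y Z Z' : D} {f : X ⟶ Y} (h : Cone f Z) (h' : Cone f Z') :
    Nonempty (Z ≅ Z') := by
  obtain ⟨g, k, hT⟩ := h
  obtain ⟨g', k', hT'⟩ := h'
  obtain ⟨e, -⟩ := exists_iso_of_arrow_iso _ _ hT hT' (Iso.refl _)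
  exact ⟨Triangle.π₃.mapIso e⟩

theorem Fib.cone {X Y Z : D} {g : Y ⟶ Z} (h : Fib g X) : Cone g (X⟦(1 : ℤ)⟧) := by
  obtain ⟨f, k, hT⟩ := h
  exact ⟨_, _, rot_of_distTriang _ hT⟩

theorem Cone.fib {Y Z W : D} {g : Y ⟶ Z} (h : Cone g W) : Fib g (W⟦(-1 : ℤ)⟧) := by
  obtain ⟨f, k, hT⟩ := h
  exact ⟨_, _, inv_rot_of_distTriang _ hT⟩

theorem Tri.iso {X Y Z X' Y' Z' : D} (h : Tri X Y Z) (a : X ≅ X') (b : Y ≅ Y') (c : Z ≅ Z') :
    Tri X' Y' Z' := by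
  obtain ⟨f, hf⟩ := h.cone
  exact ((hf.iso c).arrow (f' := a.inv ≫ f ≫ b.hom) a.symm b.symm (by simp)).tri

theorem Tri.rot {X Y Z : D} (h : Tri X Y Z) : Tri Y Z (X⟦(1 : ℤ)⟧) :=
  let ⟨_, _, _, hT⟩ := h; Tri.of _ (rot_of_distTriang _ hT)

theorem Tri.invRot {X Y Z : D} (h : Tri X Y Z) : Tri (Z⟦(-1 : ℤ)⟧) X Y :=
  let ⟨_, _, _, hT⟩ := h; Tri.of _ (inv_rot_of_distTriang _ hT)

theorem Tri.shift {X Y Z : D} (h : Tri X Y Z) (n : ℤ) : Tri (X⟦n⟧) (Y⟦n⟧) (Z⟦n⟧) :=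
  let ⟨_, _, _, hT⟩ := h; Tri.of _ (Triangle.shift_distinguished _ hT n)

theorem Tri.right {X Z : D} (hZ : IsZero Z) : Tri X X Z :=
  (Tri.of _ (contractible_distinguished X)).iso (Iso.refl _) (Iso.refl _) hZ.isoZero.symm

theorem Tri.left {X Z : D} (hZ : IsZero Z) : Tri Z X X :=
  (Tri.of _ (contractible_distinguished₁ X)).iso hZ.isoZero.symm (Iso.refl _) (Iso.refl _)

theorem Tri.mid {X Z : D} (hZ : IsZero Z) : Tri X Z (X⟦(1 : ℤ)⟧) := (Tri.right hZ).rot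

theorem Tri.biprod (X Z : D) : Tri X (X ⊞ Z) Z :=
  Tri.of _ (binaryBiproductTriangle_distinguished X Z)

/-- A product indexed by `Bool` is a biproduct. -/
noncomputable def piBool (f : Bool → D) : ∏ᶜ f ≅ f true ⊞ f false where
  hom := biprod.lift (Pi.π f true) (Pi.π f false)
  inv := Pi.lift (fun b => match b with
    | true => biprod.fst
    | false => biprod.snd)
  hom_inv_id := by
    ext b
    cases b <;> simp
  inv_hom_id := by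
    apply biprod.hom_ext <;> simp

theorem Tri.sum {X Y Z X' Y' Z' : D} (h : Tri X Y Z) (h' : Tri X' Y' Z') :
    Tri (X ⊞ X') (Y ⊞ Y') (Z ⊞ Z') := by
  obtain ⟨f, g, k, hT⟩ := h
  obtain ⟨f', g', k', hT'⟩ := h'
  let T : Bool → Triangle D := fun b => match b with
    | true => Triangle.mk f g k
    | false => Triangle.mk f' g' k'
  have := productTriangle_distinguished T (fun b => by cases b <;> assumption)
  exact (Tri.of _ this).iso (piBool fun b => (T b).obj₁) (piBool fun b => (T b).obj₂)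
    (piBool fun b => (T b).obj₃)

theorem Cone.oct [IsTriangulated D] {X₁ X₂ X₃ A B E : D} {f : X₁ ⟶ X₂} {g : X₂ ⟶ X₃}
    (h₁ : Cone f A) (h₂ : Cone g E) (h₃ : Cone (f ≫ g) B) : Tri A B E := by
  obtain ⟨_, _, t₁⟩ := h₁
  obtain ⟨_, _, t₂⟩ := h₂
  obtain ⟨_, _, t₃⟩ := h₃
  exact ⟨_, _, _, (someOctahedron rfl t₁ t₂ t₃).mem⟩

theorem Fib.oct [IsTriangulated D] {X₁ X₂ X₃ A B E : D} {f : X₁ ⟶ X₂} {g : X₂ ⟶ X₃}
    (h₁ : Fib f A) (h₂ : Fib g E) (h₃ : Fib (f ≫ g) B) : Tri A B E := by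
  obtain ⟨_, _, t₁⟩ := h₁
  obtain ⟨_, _, t₂⟩ := h₂
  obtain ⟨_, _, t₃⟩ := h₃
  exact ⟨_, _, _, (someOctahedron' rfl t₁ t₂ t₃).mem⟩

section
variable (P : ObjectProperty D) [P.IsTriangulated] [P.IsClosedUnderIsomorphisms] {X Y Z : D}

theorem Tri.p₁ (h : Tri X Y Z) (hY : P Y) (hZ : P Z) : P X :=
  let ⟨_, _, _, hT⟩ := h; P.ext_of_isTriangulatedClosed₁ _ hT hY hZ

theorem Tri.p₂ (h : Tri X Y Z) (hX : P X) (hZ : P Z) : P Y :=
  let ⟨_, _, _, hT⟩ := h; P.ext_of_isTriangulatedClosed₂ _ hT hX hZ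

theorem Tri.p₃ (h : Tri X Y Z) (hX : P X) (hY : P Y) : P Z :=
  let ⟨_, _, _, hT⟩ := h; P.ext_of_isTriangulatedClosed₃ _ hT hX hY

theorem p_zero (hZ : IsZero Z) : P Z := P.prop_of_isZero hZ

theorem p_shift (hX : P X) (n : ℤ) : P (X⟦n⟧) := P.le_shift n _ hX

theorem p_sum (hX : P X) (hY : P Y) : P (X ⊞ Y) := (Tri.biprod X Y).p₂ P hX hY

end

/-- Constructor for triangulated subcategories. -/
theorem isTri_mk (P : ObjectProperty D) [P.IsClosedUnderIsomorphisms] (h0 : P 0)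
    (hs : ∀ X (n : ℤ), P X → P (X⟦n⟧)) (he : ∀ X Y Z, Tri X Y Z → P X → P Z → P Y) :
    P.IsTriangulated where
  exists_zero := ⟨0, isZero_zero D, h0⟩
  isStableUnderShiftBy n := ⟨fun X hX => hs X n hX⟩
  toIsTriangulatedClosed₂ := .mk' fun T hT => he _ _ _ (Tri.of T hT)

/-- A retract is a direct summand. -/
theorem retract_summand {X Y : D} (s : X ⟶ Y) (r : Y ⟶ X) (h : s ≫ r = 𝟙 X) :
    ∃ Z, Cone s Z ∧ Nonempty (Y ≅ X ⊞ Z) := by
  obtain ⟨Z, g, k, hT⟩ := exists_cone s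
  have : Mono s := ⟨fun a b hab => by
    rw [← comp_id a, ← comp_id b, ← h, reassoc_of% hab]⟩
  obtain ⟨e, -⟩ := exists_iso_binaryBiproduct_of_distTriang _ hT
    (Triangle.mor₃_eq_zero_of_mono₁ _ hT this)
  exact ⟨Z, ⟨g, k, hT⟩, ⟨e⟩⟩

/-! ### additive invariants -/

/-- `φ` is additive on the distinguished triangles with three vertices in `P`. -/
def Adv (P : D → Prop) {W : Type w} [AddCommGroup W] (φ : D → W) : Prop :=
  ∀ X Y Z, Tri X Y Z → P X → P Y → P Z → φ Y = φ X + φ Z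

/-- The relations of the Grothendieck group of `P`. -/
def rel (P : D → Prop) : AddSubgroup (FreeAbelianGroup D) :=
  AddSubgroup.closure {x | ∃ X Y Z, Tri X Y Z ∧ P X ∧ P Y ∧ P Z ∧
    x = FreeAbelianGroup.of Y - FreeAbelianGroup.of X - FreeAbelianGroup.of Z}

/-- The class of `X` in the Grothendieck group of `P` is zero. -/
def Triv (P : D → Prop) (X : D) : Prop := FreeAbelianGroup.of X ∈ rel P

/-- The Grothendieck group of `P` is zero. -/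
def Null (P : D → Prop) : Prop := ∀ X, P X → Triv P X

theorem Triv.elim {P : D → Prop} {X : D} (h : Triv P X) {W : Type w} [AddCommGroup W]
    {φ : D → W} (hφ : Adv P φ) : φ X = 0 := by
  have : rel P ≤ (FreeAbelianGroup.lift φ).ker := by
    refine (AddSubgroup.closure_le _).2 ?_
    rintro _ ⟨X, Y, Z, t, a, b, c, rfl⟩
    simp [hφ X Y Z t a b c]
  simpa using this h

theorem add_cls (P : D → Prop) :
    Adv P (fun X => (QuotientAddGroup.mk (FreeAbelianGroup.of X) : FreeAbelianGroup D ⧸ rel P)) := by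
  intro X Y Z t a b c
  rw [← QuotientAddGroup.mk_add, eq_comm, QuotientAddGroup.eq]
  refine AddSubgroup.subset_closure ⟨X, Y, Z, t, a, b, c, ?_⟩
  abel

theorem Triv.intro {P : D → Prop} {X : D}
    (h : ∀ (W : Type u) [AddCommGroup W] (φ : D → W), Adv P φ → φ X = 0) : Triv P X :=
  (QuotientAddGroup.eq_zero_iff _).1 (h _ _ (add_cls P))

section
variable {P : ObjectProperty D} [P.IsTriangulated] [P.IsClosedUnderIsomorphisms]
  {W : Type w} [AddCommGroup W] {φ : D → W} {X Y Z : D}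

theorem Adv.zero (h : Adv P φ) (hZ : IsZero Z) : φ Z = 0 := by
  have := h Z Z Z (Tri.right hZ) (p_zero P hZ) (p_zero P hZ) (p_zero P hZ)
  simpa using this

theorem Adv.iso (h : Adv P φ) (hX : P X) (e : X ≅ Y) : φ Y = φ X := by
  have := h X Y 0 ((Tri.right (isZero_zero D)).iso (Iso.refl _) e (Iso.refl _)) hX
    (P.prop_of_iso e hX) (p_zero P (isZero_zero D))
  simpa [h.zero (isZero_zero D)] using this

theorem Adv.sum (h : Adv P φ) (hX : P X) (hY : P Y) : φ (X ⊞ Y) = φ X + φ Y :=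
  h _ _ _ (Tri.biprod X Y) hX (p_sum P hX hY) hY

theorem Adv.shift (h : Adv P φ) (hX : P X) : φ (X⟦(1 : ℤ)⟧) = -φ X := by
  have := h _ _ _ (Tri.mid (X := X) (isZero_zero D)) hX (p_zero P (isZero_zero D))
    (p_shift P hX 1)
  rw [h.zero (isZero_zero D)] at this
  exact (neg_eq_of_add_eq_zero_right this.symm).symm

theorem Triv.iso (h : Triv P X) (hX : P X) (e : X ≅ Y) : Triv P Y :=
  Triv.intro fun _ _ _ hφ => by rw [hφ.iso hX e, h.elim hφ]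

theorem Triv.zero (hZ : IsZero Z) : Triv P Z := Triv.intro fun _ _ _ hφ => hφ.zero hZ

theorem Triv.p₂ (t : Tri X Y Z) (a : P X) (c : P Z) (hX : Triv P X) (hZ : Triv P Z) : Triv P Y :=
  Triv.intro fun _ _ _ hφ => by
    rw [hφ _ _ _ t a (t.p₂ P a c) c, hX.elim hφ, hZ.elim hφ, add_zero]

theorem Triv.p₁ (t : Tri X Y Z) (b : P Y) (c : P Z) (hY : Triv P Y) (hZ : Triv P Z) : Triv P X :=
  Triv.intro fun _ _ _ hφ => by
    have := hφ _ _ _ t (t.p₁ P b c) b c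
    rwa [hY.elim hφ, hZ.elim hφ, add_zero, eq_comm] at this

theorem Triv.p₃ (t : Tri X Y Z) (a : P X) (b : P Y) (hX : Triv P X) (hY : Triv P Y) : Triv P Z :=
  Triv.intro fun _ _ _ hφ => by
    have := hφ _ _ _ t a b (t.p₃ P a b)
    rwa [hX.elim hφ, hY.elim hφ, zero_add, eq_comm] at this

/-- Swindle: `X ⊞ S ≅ S`. -/
theorem Triv.swindle {S : D} (a : P X) (b : P S) (e : X ⊞ S ≅ S) : Triv P X :=
  Triv.intro fun _ _ _ hφ => by
    have := hφ.iso (p_sum P a b) e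
    rw [hφ.sum a b] at this
    simpa using this

end

theorem Triv.mono {P Q : D → Prop} (h : ∀ X, P X → Q X) {X : D} (hX : Triv P X) : Triv Q X :=
  Triv.intro fun _ _ _ hφ => hX.elim fun A B E t a b c => hφ A B E t (h _ a) (h _ b) (h _ c)

section map
variable {D' : Type u'} [Category.{v'} D'] [Preadditive D'] [HasZeroObject D'] [HasShift D' ℤ]
  [∀ n : ℤ, (shiftFunctor D' n).Additive] [Pretriangulated D']
  (F : D ⥤ D') [F.CommShift ℤ] [F.IsTriangulated]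

theorem Cone.map {X Y Z : D} {f : X ⟶ Y} (h : Cone f Z) : Cone (F.map f) (F.obj Z) :=
  let ⟨_, _, hT⟩ := h; ⟨_, _, F.map_distinguished _ hT⟩

theorem Tri.map {X Y Z : D} (h : Tri X Y Z) : Tri (F.obj X) (F.obj Y) (F.obj Z) :=
  let ⟨_, hf⟩ := h.cone; (hf.map F).tri

theorem Adv.comap {P : D → Prop} {Q : D' → Prop} (h : ∀ X, P X → Q (F.obj X))
    {W : Type w} [AddCommGroup W] {φ : D' → W} (hφ : Adv Q φ) : Adv P (fun X => φ (F.obj X)) :=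
  fun _ _ _ t a b c => hφ _ _ _ (t.map F) (h _ a) (h _ b) (h _ c)

theorem Triv.map {P : D → Prop} {Q : D' → Prop} (h : ∀ X, P X → Q (F.obj X)) {X : D}
    (hX : Triv P X) : Triv Q (F.obj X) :=
  Triv.intro fun _ _ _ hφ => hX.elim (hφ.comap F h)

end map

/-! ### torsion objects -/

variable {C : Type w} [CommRing C] [Linear C D] [∀ n : ℤ, (shiftFunctor D n).Linear C]

/-- Some element of `M` kills the identity of `X`. -/
def Nil (M : Submonoid C) (X : D) : Prop := ∃ m ∈ M, m • 𝟙 X = 0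

/-- Objects that are torsion for each member of the list. -/
def Tor (K : List (Submonoid C)) : ObjectProperty D := fun X => ∀ M ∈ K, Nil M X

theorem smul_eq_zero_left {X Y : D} {a : C} (h : a • 𝟙 X = 0) (f : X ⟶ Y) : a • f = 0 := by
  rw [← id_comp f, ← Linear.smul_comp, h, zero_comp]

theorem smul_eq_zero_right {X Y : D} {a : C} (h : a • 𝟙 Y = 0) (f : X ⟶ Y) : a • f = 0 := by
  rw [← comp_id f, ← Linear.comp_smul, h, comp_zero]

theorem Tri.smul₂ {X Y Z : D} (t : Tri X Y Z) {a b : C} (ha : a • 𝟙 X = 0) (hb : b • 𝟙 Z = 0) :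
    (a * b) • 𝟙 Y = 0 := by
  obtain ⟨f, g, k, hT⟩ := t
  obtain ⟨q, hq⟩ := DT.co2 hT (b • 𝟙 Y) (by simpa using smul_eq_zero_right hb g)
  rw [mul_smul, hq, ← Linear.smul_comp, smul_eq_zero_right ha, zero_comp]

theorem Nil.retract {M : Submonoid C} {X Y : D} (h : Nil M Y) (s : X ⟶ Y) (r : Y ⟶ X)
    (e : s ≫ r = 𝟙 X) : Nil M X := by
  obtain ⟨m, hm, h⟩ := h
  exact ⟨m, hm, by rw [← e, ← Linear.smul_comp, smul_eq_zero_right h, zero_comp]⟩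

theorem Tor.retract {K : List (Submonoid C)} {X Y : D} (h : Tor K Y) (s : X ⟶ Y) (r : Y ⟶ X)
    (e : s ≫ r = 𝟙 X) : Tor K X := fun M hM => (h M hM).retract s r e

instance (K : List (Submonoid C)) : (Tor K : ObjectProperty D).IsClosedUnderIsomorphisms :=
  ⟨fun e h => h.retract e.inv e.hom e.inv_hom_id⟩

theorem Nil.shift {M : Submonoid C} {X : D} (h : Nil M X) (n : ℤ) : Nil M (X⟦n⟧) := by
  obtain ⟨m, hm, h⟩ := h
  exact ⟨m, hm, by rw [← (shiftFunctor D n).map_id, ← Functor.map_smul, h, Functor.map_zero]⟩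

theorem Nil.ext {M : Submonoid C} {X Y Z : D} (t : Tri X Y Z) (a : Nil M X) (c : Nil M Z) :
    Nil M Y :=
  let ⟨m, hm, h⟩ := a; let ⟨m', hm', h'⟩ := c; ⟨m * m', M.mul_mem hm hm', t.smul₂ h h'⟩

instance (K : List (Submonoid C)) : (Tor K : ObjectProperty D).IsTriangulated :=
  isTri_mk _ (fun M _ => ⟨1, M.one_mem, (isZero_zero D).eq_of_src _ _⟩)
    (fun _ n h M hM => (h M hM).shift n) (fun _ _ _ t a c M hM => (a M hM).ext t (c M hM))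

theorem tor_cons {M : Submonoid C} {K : List (Submonoid C)} {X : D} :
    Tor (M :: K) X ↔ Nil M X ∧ Tor K X := by
  simp [Tor]

theorem tor_nil (X : D) : Tor ([] : List (Submonoid C)) X := fun _ h => by simp at h

/-- A map with two-sided inverses up to scalars has a torsion cone. -/
theorem Cone.ghost {X Y Z : D} {g : X ⟶ Y} (h : Cone g Z) (a b : Y ⟶ X) {x y : C}
    (ha : g ≫ a = x • 𝟙 X) (hb : b ≫ g = y • 𝟙 Y) : (x * y) • 𝟙 Z = 0 := by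
  obtain ⟨p, k, hT⟩ := h
  have h1 := DT.z12 hT
  have h3 := DT.z31 hT
  obtain ⟨c, hc⟩ := DT.yo3 hT (y • 𝟙 Z) (by
    have : (y • 𝟙 Y) ≫ p = 0 := by rw [← hb, assoc, h1, comp_zero]
    simpa using this)
  have h4 : x • k = 0 := by
    have : k ≫ (g ≫ a)⟦(1 : ℤ)⟧' = 0 := by rw [Functor.map_comp, reassoc_of% h3, zero_comp]
    simpa [ha, Functor.map_smul] using this
  rw [mul_smul, hc, ← Linear.smul_comp, h4, zero_comp]

theorem Cone.tor_kos {M : Submonoid C} {K : List (Submonoid C)} {W W' : D} {x : C} (hx : x ∈ M)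
    (h : Cone (x • 𝟙 W) W') (hW : Tor K W) : Tor (M :: K) W' :=
  tor_cons.2 ⟨⟨x * x, M.mul_mem hx hx, h.ghost (𝟙 W) (𝟙 W) (by simp) (by simp)⟩,
    h.tri.p₃ (Tor K) hW hW⟩

/-- Koszul extension: a map to a torsion object extends over iterated cones of scalars. -/
theorem kos_ind {W₀ : D} (R : List (Submonoid C) → ∀ W : D, (W₀ ⟶ W) → Prop)
    (h0 : R [] W₀ (𝟙 _))
    (hs : ∀ K M W ι x, x ∈ M → ∀ W' (j : W ⟶ W') (k : W' ⟶ W⟦(1 : ℤ)⟧),
      DT (x • 𝟙 W) j k → R K W ι → R (M :: K) W' (ι ≫ j))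
    (K : List (Submonoid C)) {X : D} (hX : Tor K X) (f : W₀ ⟶ X) :
    ∃ (W : D) (ι : W₀ ⟶ W) (f' : W ⟶ X), R K W ι ∧ ι ≫ f' = f := by
  induction K with
  | nil => exact ⟨W₀, 𝟙 _, f, h0, id_comp _⟩
  | cons M K ih =>
    obtain ⟨⟨x, hx, h⟩, hK⟩ := tor_cons.1 hX
    obtain ⟨W, ι, f', hR, e⟩ := ih hK
    obtain ⟨W', j, k, hT⟩ := exists_cone (x • 𝟙 W)
    obtain ⟨q, hq⟩ := DT.yo2 hT f' (by simpa using smul_eq_zero_right h f')
    exact ⟨W', ι ≫ j, q, hs K M W ι x hx W' j k hT hR, by rw [← e, hq]; simp⟩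

theorem kos (P : ObjectProperty D) [P.IsTriangulated] [P.IsClosedUnderIsomorphisms]
    (K : List (Submonoid C)) {W₀ X : D} (hW : P W₀) (hX : Tor K X) (f : W₀ ⟶ X) :
    ∃ (W : D) (ι : W₀ ⟶ W) (f' : W ⟶ X), (P W ∧ Tor K W) ∧ ι ≫ f' = f :=
  kos_ind (fun K W _ => P W ∧ Tor K W) ⟨hW, tor_nil _⟩
    (fun _ _ _ _ _ hx _ j k hT h => ⟨(Tri.of _ hT).p₃ P h.1 h.1,
      Cone.tor_kos hx ⟨j, k, hT⟩ h.2⟩) K hX f

section map
variable {D' : Type u'} [Category.{v'} D'] [Preadditive D'] [Linear C D'] (F : D ⥤ D')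
  [F.Additive] [F.Linear C]

theorem Nil.map {M : Submonoid C} {X : D} (h : Nil M X) :
    ∃ m ∈ M, m • 𝟙 (F.obj X) = 0 := by
  obtain ⟨m, hm, h⟩ := h
  exact ⟨m, hm, by rw [← F.map_id, ← Functor.map_smul, h, Functor.map_zero]⟩

end map

end tri

end Pool.Agent.MP_f7db47_al.KN.TC
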