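import Pool.Agent.MP_f7db47_al.KN.T1

/-!
Triangulated core, part 2: certificates for vanishing classes and dense subcategories.
-/

set_option linter.unusedSectionVars false
set_option backward.isDefEq.respectTransparency false

open CategoryTheory Limits Pretriangulated ZeroObject Triangulated Category

universe u v u' v' w

namespace Pool.Agent.MP_f7db47_al.KN.TC

theorem gadget {M : Type u} [AddCommMonoid M] (R : AddSubmonoid (M × M))
    (hR : ∀ z, (z, z) ∈ R) :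
    ∃ (G : Type u) (_ : AddCommGroup G) (f : M →+ G), (∀ r ∈ R, f r.1 = f r.2) ∧
      ∀ x y, f x = f y → ∃ r ∈ R, ∃ r' ∈ R, x + r.1 + r'.2 = y + r.2 + r'.1 := by
  let c : AddCon M :=
    { r := fun x y => ∃ r ∈ R, ∃ r' ∈ R, x + r.1 + r'.2 = y + r.2 + r'.1
      iseqv := ⟨fun x => ⟨0, R.zero_mem, 0, R.zero_mem, rfl⟩,
        fun ⟨r, hr, r', hr', e⟩ => ⟨r', hr', r, hr, by
          rw [add_right_comm, ← e, add_right_comm]⟩,
        fun {x y z} ⟨r, hr, r', hr', e⟩ ⟨s, hs, s', hs', e'⟩ =>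
          ⟨r + s, R.add_mem hr hs, r' + s', R.add_mem hr' hs', by
            simp only [Prod.fst_add, Prod.snd_add]
            calc x + (r.1 + s.1) + (r'.2 + s'.2) = (x + r.1 + r'.2) + (s.1 + s'.2) := by abel
              _ = (y + s.1 + s'.2) + (r.2 + r'.1) := by rw [e]; abel
              _ = _ := by rw [e']; abel⟩⟩
      add' := fun {x y z t} ⟨r, hr, r', hr', e⟩ ⟨s, hs, s', hs', e'⟩ =>
          ⟨r + s, R.add_mem hr hs, r' + s', R.add_mem hr' hs', by
            simp only [Prod.fst_add, Prod.snd_add]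
            calc x + z + (r.1 + s.1) + (r'.2 + s'.2)
                = (x + r.1 + r'.2) + (z + s.1 + s'.2) := by abel
              _ = _ := by rw [e, e']; abel⟩ }
  refine ⟨Algebra.GrothendieckAddGroup c.Quotient, inferInstance,
    Algebra.GrothendieckAddGroup.of.comp c.mk', fun r hr => ?_, fun x y h => ?_⟩
  · have : c.mk' r.1 = c.mk' r.2 := c.eq.2 ⟨0, R.zero_mem, r, hr, by simp [add_comm]⟩
    simp only [AddMonoidHom.comp_apply, this]
  · obtain ⟨⟨z, hz0⟩, hz⟩ := ((AddLocalization.addMonoidOf ⊤).eq_iff_exists).1 h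
    obtain ⟨z, rfl⟩ := c.mk'_surjective z
    simp only [← map_add] at hz
    obtain ⟨r, hr, r', hr', e⟩ := c.eq.1 hz
    refine ⟨r + (z, z), R.add_mem hr (hR z), r', hr', ?_⟩
    simp only [Prod.fst_add, Prod.snd_add]
    calc x + (r.1 + z) + r'.2 = z + x + r.1 + r'.2 := by abel
      _ = _ := by rw [e]; abel

section tri

variable {D : Type u} [Category.{v} D] [Preadditive D] [HasZeroObject D] [HasShift D ℤ]
  [∀ n : ℤ, (shiftFunctor D n).Additive] [Pretriangulated D]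

/-- Isomorphism classes of objects. -/
def Cls (D : Type u) [Category.{v} D] : Type u := Quotient (isIsomorphicSetoid D)

/-- The isomorphism class of an object. -/
def cl (X : D) : Cls D := Quotient.mk _ X

theorem cl_eq {X Y : D} : cl X = cl Y ↔ Nonempty (X ≅ Y) := Quotient.eq

noncomputable instance : Add (Cls D) :=
  ⟨Quotient.map₂ (fun X Y => X ⊞ Y) fun _ _ ⟨e⟩ _ _ ⟨e'⟩ => ⟨biprod.mapIso e e'⟩⟩

noncomputable instance : Zero (Cls D) := ⟨cl 0⟩

noncomputable instance : AddCommMonoid (Cls D) where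
  nsmul := nsmulRec
  add_assoc := by
    rintro ⟨X⟩ ⟨Y⟩ ⟨Z⟩
    exact cl_eq.2 ⟨biprod.associator X Y Z⟩
  zero_add := by
    rintro ⟨X⟩
    exact cl_eq.2 ⟨(isoZeroBiprod (isZero_zero D)).symm⟩
  add_zero := by
    rintro ⟨X⟩
    exact cl_eq.2 ⟨(isoBiprodZero (isZero_zero D)).symm⟩
  add_comm := by
    rintro ⟨X⟩ ⟨Y⟩
    exact cl_eq.2 ⟨biprod.braiding X Y⟩

theorem cl_sum (X Y : D) : cl (X ⊞ Y) = cl X + cl Y := rfl

theorem cl_zero {Z : D} (h : IsZero Z) : cl Z = 0 := cl_eq.2 ⟨h.isoZero⟩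

/-- Certificate that `X` has zero class in the Grothendieck group of `W`. -/
def Cert (W : D → Prop) (X : D) : Prop :=
  ∃ A B E A' B' E' : D, Tri A B E ∧ Tri A' B' E' ∧ W A ∧ W B ∧ W E ∧ W A' ∧ W B' ∧ W E' ∧
    Nonempty (X ⊞ (A ⊞ E) ⊞ B' ≅ B ⊞ A' ⊞ E')

/-- Classes closed under isomorphism and finite sums. -/
structure SumCl (W : D → Prop) : Prop where
  iso : ∀ {X Y}, (X ≅ Y) → W X → W Y
  zero : W 0
  sum : ∀ {X Y}, W X → W Y → W (X ⊞ Y)

theorem heller {W : D → Prop} (hW : SumCl W) :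
    ∃ (G : Type u) (_ : AddCommGroup G) (φ : D → G), Adv W φ ∧
      ∀ X, W X → φ X = 0 → Cert W X := by
  classical
  let S : AddSubmonoid (Cls D) :=
    { carrier := {x | ∃ X, W X ∧ cl X = x}
      zero_mem' := ⟨0, hW.zero, rfl⟩
      add_mem' := by
        rintro _ _ ⟨X, hX, rfl⟩ ⟨Y, hY, rfl⟩
        exact ⟨X ⊞ Y, hW.sum hX hY, rfl⟩ }
  let R : AddSubmonoid (S × S) :=
    { carrier := {r | ∃ A B E, Tri A B E ∧ W A ∧ W B ∧ W E ∧ r.1.1 = cl A + cl E ∧ r.2.1 = cl B}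
      zero_mem' := ⟨0, 0, 0, Tri.right (isZero_zero D), hW.zero, hW.zero, hW.zero,
        by simp [cl_zero (isZero_zero D)], rfl⟩
      add_mem' := by
        rintro r s ⟨A, B, E, t, a, b, e, h1, h2⟩ ⟨A', B', E', t', a', b', e', h1', h2'⟩
        refine ⟨_, _, _, t.sum t', hW.sum a a', hW.sum b b', hW.sum e e', ?_, ?_⟩
        · simp only [Prod.fst_add, AddSubmonoid.coe_add, h1, h1', cl_sum]; abel
        · simp only [Prod.snd_add, AddSubmonoid.coe_add, h2, h2', cl_sum] }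
  obtain ⟨G, _, f, h1, h2⟩ := gadget R (by
    rintro ⟨_, Z, hZ, rfl⟩
    exact ⟨Z, Z, 0, Tri.right (isZero_zero D), hZ, hZ, hW.zero,
      by simp [cl_zero (isZero_zero D)], rfl⟩)
  refine ⟨G, inferInstance, fun X => if h : W X then f ⟨cl X, X, h, rfl⟩ else 0, ?_, ?_⟩
  · intro X Y Z t a b c
    simp only [a, b, c, dif_pos]
    rw [← map_add]
    exact (h1 (⟨cl X, X, a, rfl⟩ + ⟨cl Z, Z, c, rfl⟩, ⟨cl Y, Y, b, rfl⟩)
      ⟨X, Y, Z, t, a, b, c, rfl, rfl⟩).symm
  · intro X hX h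
    simp only [hX, dif_pos] at h
    obtain ⟨r, ⟨A, B, E, t, a, b, e, p1, p2⟩, s, ⟨A', B', E', t', a', b', e', q1, q2⟩, k⟩ :=
      h2 _ 0 (h.trans (map_zero f).symm)
    refine ⟨A, B, E, A', B', E', t, t', a, b, e, a', b', e', cl_eq.1 ?_⟩
    have := congrArg Subtype.val k
    simp only [AddSubmonoid.coe_add, p1, p2, q1, q2, zero_add] at this
    simp only [cl_sum, ← add_assoc] at this ⊢
    exact this

theorem sumCl_of_tri (P : ObjectProperty D) [P.IsTriangulated] [P.IsClosedUnderIsomorphisms] :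
    SumCl P := ⟨fun e h => P.prop_of_iso e h, p_zero P (isZero_zero D), p_sum P⟩

theorem Triv.cert {W : D → Prop} (hW : SumCl W) {X : D} (hX : W X) (h : Triv W X) : Cert W X := by
  obtain ⟨G, _, φ, h1, h2⟩ := heller hW
  exact h2 X hX (h.elim h1)

theorem Cert.triv {P : ObjectProperty D} [P.IsTriangulated] [P.IsClosedUnderIsomorphisms]
    {X : D} (hX : P X) (h : Cert P X) : Triv P X := by
  obtain ⟨A, B, E, A', B', E', t, t', a, b, e, a', b', e', ⟨k⟩⟩ := h
  refine Triv.intro fun _ _ φ hφ => ?_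
  have := hφ.iso (p_sum P hX (p_sum P (p_sum P a e) b')) k
  rw [hφ.sum hX (p_sum P (p_sum P a e) b'), hφ.sum (p_sum P a e) b', hφ.sum a e,
    hφ.sum b (p_sum P a' e'), hφ.sum a' e', hφ _ _ _ t a b e, hφ _ _ _ t' a' b' e'] at this
  simpa using this

/-- An object with zero class lies in every dense triangulated subcategory. -/
theorem thomason (P Q : ObjectProperty D) [P.IsTriangulated] [P.IsClosedUnderIsomorphisms]
    [Q.IsTriangulated] [Q.IsClosedUnderIsomorphisms]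
    (hd : ∀ X, P X → ∃ X', Q (X ⊞ X')) {X : D} (hX : P X) (h : Triv P X) : Q X := by
  obtain ⟨A, B, E, A', B', E', t, t', a, -, e, a', -, e', k⟩ := h.cert (sumCl_of_tri P) hX
  have key : ∀ {A B E : D}, Tri A B E → P A → P E →
      ∃ U, Q ((A ⊞ E) ⊞ U) ∧ Q (B ⊞ U) := by
    intro A B E t a e
    obtain ⟨A₁, h1⟩ := hd A a
    obtain ⟨E₁, h2⟩ := hd E e
    refine ⟨A₁ ⊞ E₁, Q.prop_of_iso (cl_eq.1 ?_).some (p_sum Q h1 h2),
      (t.sum (Tri.biprod A₁ E₁)).p₂ Q h1 h2⟩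
    simp only [cl_sum]; abel
  obtain ⟨U, u1, u2⟩ := key t a e
  obtain ⟨U', v1, v2⟩ := key t' a' e'
  refine (Tri.biprod X (((A ⊞ E) ⊞ U) ⊞ B' ⊞ U')).p₁ Q
    (Q.prop_of_iso (cl_eq.1 ?_).some (p_sum Q u2 v1)) (p_sum Q u1 v2)
  have := cl_eq.2 k
  simp only [cl_sum] at this ⊢
  calc cl B + cl U + (cl A' + cl E' + cl U') = cl B + (cl A' + cl E') + (cl U + cl U') := by abel
    _ = _ := by rw [← this]; abel

end tri

end Pool.Agent.MP_f7db47_al.KN.TC
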