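import Pool.Agent.MP_f7db47_al.KN.T2

/-!
Triangulated core, part 3: approximation by torsion objects.
-/

set_option linter.unusedSectionVars false
set_option backward.isDefEq.respectTransparency false

open CategoryTheory Limits Pretriangulated ZeroObject Triangulated Category

universe u v u' v' w

namespace Pool.Agent.MP_f7db47_al.KN.TC

variable {D : Type u} [Category.{v} D] [Preadditive D] [HasZeroObject D] [HasShift D ℤ]
  [∀ n : ℤ, (shiftFunctor D n).Additive] [Pretriangulated D]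
  {C : Type w} [CommRing C] [Linear C D] [∀ n : ℤ, (shiftFunctor D n).Linear C]

/-- Some element of `M` acts on `Q` through an object of `Z`. -/
def FacNil (Z : D → Prop) (M : Submonoid C) (Q : D) : Prop :=
  ∃ m ∈ M, ∃ B, Z B ∧ ∃ (a : Q ⟶ B) (b : B ⟶ Q), a ≫ b = m • 𝟙 Q

/-- Idempotents up to `M` split up to `M` among the `K`-torsion objects of `Z`. -/
def HSplit (Z : D → Prop) (M : Submonoid C) (K : List (Submonoid C)) : Prop :=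
  ∀ B, Z B → Tor K B → ∀ (q : B ⟶ B), ∀ m ∈ M, q ≫ q = m • q →
    ∃ B', Z B' ∧ Tor K B' ∧ ∃ (α : B' ⟶ B) (β : B ⟶ B'), ∃ x ∈ M, ∃ y ∈ M, ∃ z ∈ M,
      α ≫ β = x • 𝟙 B' ∧ y • (β ≫ α) = z • q

section approx
variable [IsTriangulated D] (Z : ObjectProperty D) [Z.IsTriangulated]
  [Z.IsClosedUnderIsomorphisms]

theorem FacNil.persist {M : Submonoid C} {Q Q' : D} (h : FacNil Z M Q) {α : Q ⟶ Q'}
    (hα : Z.trW α) : FacNil Z M Q' := by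
  obtain ⟨m, hm, B, hB, a, b, e⟩ := h
  obtain ⟨E, g, k, hT, hE⟩ := hα
  obtain ⟨Y, t, _, t1⟩ := exists_cone (b ≫ α)
  obtain ⟨q, hq⟩ := DT.yo2 hT (m • t) (by
    have := DT.z12 t1
    rw [Linear.comp_smul, ← Linear.smul_comp, ← id_comp α, ← Linear.smul_comp, ← e, assoc, assoc,
      ← assoc b, this, comp_zero])
  obtain ⟨Y', t', _, t2⟩ := exists_cone q
  have : Z.trW (t ≫ t') := Z.trW.comp_mem _ _ (ObjectProperty.trW.mk' Z t1 hB)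
    (ObjectProperty.trW.mk' Z t2 hE)
  obtain ⟨F, f, _, t3, hF⟩ := (Z.trW_iff' _).1 this
  obtain ⟨q', hq'⟩ := DT.co2 t3 (m • 𝟙 Q') (by
    rw [Linear.smul_comp, id_comp, ← Linear.smul_comp, hq, assoc, DT.z12 t2, comp_zero])
  exact ⟨m, hm, F, hF, q', f, hq'.symm⟩

theorem approx_step {M : Submonoid C} {K : List (Submonoid C)} (hH : HSplit Z M K) {Q : D}
    (hQ : Tor K Q) (h : FacNil Z M Q) : ∃ (Q' : D) (α : Q ⟶ Q'), Z.trW α ∧ Tor (M :: K) Q' := by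
  obtain ⟨m, hm, B₀, hB₀, a₀, b₀, e⟩ := h
  obtain ⟨B, ι, b, ⟨hB, tB⟩, e'⟩ := kos Z K hB₀ hQ b₀
  have e1 : (a₀ ≫ ι) ≫ b = m • 𝟙 Q := by rw [assoc, e', e]
  generalize a₀ ≫ ι = a at e1
  obtain ⟨B', hB', tB', α, β, x, hx, y, hy, z, hz, h1, h2⟩ := hH B hB tB (b ≫ a) m hm (by
    rw [assoc, ← assoc a, e1]; simp)
  obtain ⟨Q', p, k, t⟩ := exists_cone (α ≫ b)
  refine ⟨Q', p, ObjectProperty.trW.mk' Z t hB', tor_cons.2 ⟨⟨(y * x * x) * (z * m * m),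
    M.mul_mem (M.mul_mem (M.mul_mem hy hx) hx) (M.mul_mem (M.mul_mem hz hm) hm), ?_⟩,
    (Tri.of _ t).p₃ (Tor K) tB' hQ⟩⟩
  refine Cone.ghost ⟨p, k, t⟩ (z • (a ≫ β)) (y • (a ≫ β)) ?_ ?_
  · calc (α ≫ b) ≫ (z • (a ≫ β)) = α ≫ (z • (b ≫ a)) ≫ β := by simp
      _ = y • ((α ≫ β) ≫ (α ≫ β)) := by rw [← h2]; simp
      _ = _ := by rw [h1]; simp [mul_smul]
  · calc (y • (a ≫ β)) ≫ α ≫ b = a ≫ (y • (β ≫ α)) ≫ b := by simp
      _ = z • ((a ≫ b) ≫ (a ≫ b)) := by rw [h2]; simp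
      _ = _ := by rw [e1]; simp [mul_smul]

/-- An object that is torsion modulo `Z` becomes torsion after attaching an object of `Z`. -/
theorem approx (K : List (Submonoid C))
    (hH : ∀ K₁ M K', K = K₁ ++ M :: K' → HSplit Z M K') {Q : D}
    (h : ∀ M ∈ K, FacNil Z M Q) : ∃ (Q' : D) (α : Q ⟶ Q'), Z.trW α ∧ Tor K Q' := by
  induction K with
  | nil => exact ⟨Q, 𝟙 Q, Z.trW.id_mem Q, tor_nil _⟩
  | cons M K ih =>
    obtain ⟨Q₁, α, hα, h1⟩ := ih (fun K₁ M' K' e => hH (M :: K₁) M' K' (by simp [e]))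
      (fun M' hM => h M' (List.mem_cons_of_mem _ hM))
    obtain ⟨Q₂, β, hβ, h2⟩ := approx_step Z (hH [] M K rfl) h1
      ((h M List.mem_cons_self).persist Z hα)
    exact ⟨Q₂, α ≫ β, Z.trW.comp_mem _ _ hα hβ, h2⟩

/-- Cutting a torsion object into two torsion pieces. -/
theorem cut_tri (K : List (Submonoid C))
    (hH : ∀ K₁ M K', K = K₁ ++ M :: K' → HSplit Z M K') {S X Q : D} (t : Tri S X Q)
    (hX : Tor K X) (h : ∀ M ∈ K, FacNil Z M Q) :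
    ∃ S' Q' B : D, Z B ∧ Tor K S' ∧ Tor K Q' ∧ Tri S' X Q' ∧ Tri S S' B ∧ Tri B Q Q' := by
  obtain ⟨Q', α, hα, h1⟩ := approx Z K hH h
  obtain ⟨B, f, k, t1, hB⟩ := (Z.trW_iff' _).1 hα
  obtain ⟨g, hg⟩ := t.fib
  obtain ⟨S', hS⟩ := exists_fib (g ≫ α)
  exact ⟨S', Q', B, hB, hS.tri.p₁ (Tor K) hX h1, h1, hS.tri, hg.oct ⟨f, k, t1⟩ hS, Tri.of _ t1⟩

end approx

variable {D' : Type u'} [Category.{v'} D'] [Preadditive D'] [HasZeroObject D'] [HasShift D' ℤ]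
  [∀ n : ℤ, (shiftFunctor D' n).Additive] [Pretriangulated D']
  [Linear C D'] [∀ n : ℤ, (shiftFunctor D' n).Linear C]
  (F : D ⥤ D') [F.Additive] [F.Linear C]

theorem Tor.map {K : List (Submonoid C)} {X : D} (h : Tor K X) : Tor K (F.obj X) :=
  fun M hM => (h M hM).map F

theorem Tor.of_map [F.Faithful] {K : List (Submonoid C)} {X : D} (h : Tor K (F.obj X)) :
    Tor K X := fun M hM => by
  obtain ⟨m, hm, e⟩ := h M hM
  exact ⟨m, hm, F.map_injective (by simpa [Functor.map_smul] using e)⟩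

theorem HSplit.map [F.Full] [F.Faithful] {P : ObjectProperty D} {M : Submonoid C}
    {K : List (Submonoid C)} (h : HSplit P M K) : HSplit (P.map F) M K := by
  rintro B ⟨B₀, hB, ⟨e⟩⟩ tB q m hm hq
  obtain ⟨q₀, h0⟩ := F.map_surjective (e.hom ≫ q ≫ e.inv)
  obtain ⟨B', h1, h2, α, β, x, hx, y, hy, z, hz, e1, e2⟩ := h B₀ hB
    (Tor.of_map F ((Tor K).prop_of_iso e.symm tB)) q₀ m hm (F.map_injective (by
      simp [Functor.map_smul, h0, reassoc_of% hq]))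
  refine ⟨F.obj B', ⟨B', h1, ⟨Iso.refl _⟩⟩, h2.map F, F.map α ≫ e.hom, e.inv ≫ F.map β,
    x, hx, y, hy, z, hz, ?_, ?_⟩
  · simp [← Functor.map_comp, e1, Functor.map_smul]
  · have := congrArg (fun k => e.inv ≫ F.map k ≫ e.hom) e2
    simpa [Functor.map_smul, h0] using this

/-- `F` is a localisation at `M` on the objects of `P`. -/
structure IsLoc (P : D → Prop) (P' : D' → Prop) (M : Submonoid C) : Prop where
  obj : ∀ X, P X → P' (F.obj X)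
  inv : ∀ m ∈ M, ∀ X', P' X' → IsIso (m • 𝟙 X')
  full : ∀ X Y, P X → P Y → ∀ f : F.obj X ⟶ F.obj Y, ∃ m ∈ M, ∃ g : X ⟶ Y, F.map g = m • f
  ker : ∀ X Y, P X → P Y → ∀ g : X ⟶ Y, F.map g = 0 → ∃ m ∈ M, m • g = 0

variable [F.CommShift ℤ] [F.IsTriangulated]

theorem IsLoc.img_tri {P : D → Prop} {P' : D' → Prop} {M : Submonoid C} (hL : IsLoc F P P' M)
    (R : ObjectProperty D) [R.IsTriangulated] [R.IsClosedUnderIsomorphisms]
    (hR : ∀ X, R X → P X) : (R.map F).IsTriangulated := by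
  have hs : ∀ X (n : ℤ), R.map F X → R.map F (X⟦n⟧) := by
    rintro X n ⟨Y, hY, ⟨e⟩⟩
    exact ⟨Y⟦n⟧, p_shift R hY n, ⟨(F.commShiftIso n).app _ ≪≫ (shiftFunctor D' n).mapIso e⟩⟩
  refine isTri_mk _ ⟨0, p_zero R (isZero_zero D), ⟨F.mapZeroObject⟩⟩ hs ?_
  intro X Y Z t hX hZ
  obtain ⟨A, hA, ⟨a⟩⟩ := hs _ (-1) hZ
  obtain ⟨B, hB, ⟨b⟩⟩ := hX
  obtain ⟨f, hf⟩ := (t.invRot.iso a.symm b.symm (Iso.refl _)).cone
  obtain ⟨m, hm, g, hg⟩ := hL.full A B (hR _ hA) (hR _ hB) f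
  obtain ⟨E, hE⟩ := exists_cone g
  have := hL.inv m hm _ (hL.obj A (hR _ hA))
  have h2 : Cone (F.map g) Y := hf.arrow (asIso (m • 𝟙 (F.obj A))) (Iso.refl _) (by simp [hg])
  exact ⟨E, hE.tri.p₃ R hA hB, (hE.map F).uniq h2⟩

theorem hsplit_of_loc {P : ObjectProperty D} {P' : ObjectProperty D'} [P.IsTriangulated]
    [P.IsClosedUnderIsomorphisms] [P'.IsTriangulated] [P'.IsClosedUnderIsomorphisms]
    {M : Submonoid C} {K : List (Submonoid C)} (hL : IsLoc F P P' M)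
    (ret : ∀ X', P' X' → ∃ Y, P Y ∧ ∃ (s : X' ⟶ F.obj Y) (r : F.obj Y ⟶ X'), s ≫ r = 𝟙 X')
    (idem : ∀ X', P' X' → ∀ e : X' ⟶ X', e ≫ e = e →
      ∃ Y', P' Y' ∧ ∃ (s : Y' ⟶ X') (r : X' ⟶ Y'), s ≫ r = 𝟙 Y' ∧ r ≫ s = e)
    (null : Null (P' ⊓ Tor K : ObjectProperty D')) : HSplit P M K := by
  have := hL.img_tri F (P ⊓ Tor K) (fun _ h => h.1)
  have dense : ∀ X', (P' ⊓ Tor K : ObjectProperty D') X' →
      ∃ X'', (P ⊓ Tor K : ObjectProperty D).map F (X' ⊞ X'') := by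
    intro X' hX
    obtain ⟨Y, hY, s, r, e⟩ := ret X' hX.1
    obtain ⟨W, ι, r', hW, e'⟩ := kos_ind (W₀ := F.obj Y)
      (fun K W _ => ∃ Y', (P Y' ∧ Tor K Y') ∧ Nonempty (F.obj Y' ≅ W))
      ⟨Y, ⟨hY, tor_nil _⟩, ⟨Iso.refl _⟩⟩ (by
        rintro K M W ι x hx W' j k t ⟨Y', ⟨h1, h2⟩, ⟨i⟩⟩
        obtain ⟨E, hE⟩ := exists_cone (x • 𝟙 Y')
        refine ⟨E, ⟨hE.tri.p₃ P h1 h1, hE.tor_kos hx h2⟩, (hE.map F).uniq ?_⟩
        exact Cone.arrow ⟨j, k, t⟩ i i (by simp [Functor.map_smul])) K hX.2 r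
    obtain ⟨X'', -, ⟨i⟩⟩ := retract_summand (s ≫ ι) r' (by rw [assoc, e', e])
    exact ⟨X'', ObjectProperty.prop_of_iso _ i hW⟩
  intro B hB tB q m hm hq
  have i1 := hL.inv m hm _ (hL.obj B hB)
  have hc : F.map q ≫ inv (m • 𝟙 (F.obj B)) = inv (m • 𝟙 (F.obj B)) ≫ F.map q := by
    rw [IsIso.comp_inv_eq, assoc, IsIso.eq_inv_comp]; simp
  obtain ⟨B'', h1, s, r, e1, e2⟩ := idem _ (hL.obj B hB) (F.map q ≫ inv (m • 𝟙 (F.obj B))) (by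
    rw [assoc, ← assoc (inv _), ← hc, assoc, ← assoc, ← F.map_comp, hq, ← assoc]
    congr 1
    rw [IsIso.comp_inv_eq]
    simp [Functor.map_smul])
  have h2 : (P' ⊓ Tor K : ObjectProperty D') B'' := ⟨h1, (tB.map F).retract s r e1⟩
  obtain ⟨B', ⟨p1, p2⟩, ⟨i⟩⟩ := thomason _ _ dense h2 (null _ h2)
  obtain ⟨w₁, m1, α, hα⟩ := hL.full B' B p1 hB (i.hom ≫ s)
  obtain ⟨w₂, m2, β, hβ⟩ := hL.full B B' hB p1 (r ≫ i.inv)
  obtain ⟨w₃, m3, h3⟩ := hL.ker B' B' p1 p1 (α ≫ β - (w₁ * w₂) • 𝟙 B') (by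
    simp [Functor.map_smul, hα, hβ, reassoc_of% e1, mul_smul, smul_comm w₁ w₂])
  obtain ⟨w₄, m4, h4⟩ := hL.ker B B hB hB (m • (β ≫ α) - (w₁ * w₂) • q) (by
    have : m • (r ≫ s) = F.map q := by
      rw [e2, ← comp_id (F.map q ≫ _), ← Linear.comp_smul, assoc, IsIso.inv_hom_id, comp_id]
    simp [Functor.map_smul, hα, hβ, ← this, mul_smul, smul_comm w₁ w₂, smul_comm m])
  refine ⟨B', p1, p2, w₃ • α, β, w₃ * (w₁ * w₂), M.mul_mem m3 (M.mul_mem m1 m2), w₄ * m,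
    M.mul_mem m4 hm, w₃ * (w₄ * (w₁ * w₂)), M.mul_mem m3 (M.mul_mem m4 (M.mul_mem m1 m2)), ?_, ?_⟩
  · rw [smul_sub, sub_eq_zero] at h3
    rw [Linear.smul_comp, h3, mul_smul w₃]
  · rw [smul_sub, sub_eq_zero] at h4
    rw [Linear.comp_smul, smul_comm, mul_smul w₄, h4, mul_smul w₃, mul_smul w₄]

end Pool.Agent.MP_f7db47_al.KN.TC
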