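import Pool.Agent.MP_f7db47_al.KN.T3

/-!
Triangulated core, part 4: amplitude classes, splitting of idempotents.
-/

set_option linter.unusedSectionVars false
set_option backward.isDefEq.respectTransparency false

open CategoryTheory Limits Pretriangulated ZeroObject Triangulated Category

universe u v u' v' w

namespace Pool.Agent.MP_f7db47_al.KN.TC

variable {D : Type u} [Category.{v} D] [Preadditive D] [HasZeroObject D] [HasShift D ℤ]
  [∀ n : ℤ, (shiftFunctor D n).Additive] [Pretriangulated D]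

/-- `A a b X` : the object `X` lives in the degrees between `a` and `b`. -/
structure Wt (A : ℤ → ℤ → D → Prop) : Prop where
  iso : ∀ {a b X Y}, (X ≅ Y) → A a b X → A a b Y
  zero : ∀ {a b X}, IsZero X → A a b X
  empty : ∀ {a b X}, b < a → A a b X → IsZero X
  mono : ∀ {a b a' b' X}, a' ≤ a → b ≤ b' → A a b X → A a' b' X
  shift : ∀ {a b X} (n : ℤ), A a b X → A (a - n) (b - n) (X⟦n⟧)
  ext : ∀ {a b X Y Z}, Tri X Y Z → A a b X → A a b Z → A a b Y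
  top : ∀ {a b X}, A a b X → ∃ H X', Tri H X X' ∧ A b b H ∧ A a (b - 1) X'
  orth : ∀ {a b c d X Y}, A a b X → A c d Y → d < a → ∀ f : X ⟶ Y, f = 0

/-- Idempotents on objects of `P` split in `P`. -/
def Idem (P : D → Prop) : Prop :=
  ∀ X, P X → ∀ e : X ⟶ X, e ≫ e = e →
    ∃ Y, P Y ∧ ∃ (s : Y ⟶ X) (r : X ⟶ Y), s ≫ r = 𝟙 Y ∧ r ≫ s = e

/-- Bounded objects. -/
def Bd (A : ℤ → ℤ → D → Prop) : ObjectProperty D := fun X => ∃ a b, A a b X

theorem Idem.retract {P : D → Prop} (h : Idem P) (hi : ∀ {X Y}, (X ≅ Y) → P X → P Y) {X Y : D}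
    (hY : P Y) (s : X ⟶ Y) (r : Y ⟶ X) (e : s ≫ r = 𝟙 X) : P X := by
  obtain ⟨Y', h1, s', r', e1, e2⟩ := h Y hY (r ≫ s) (by rw [assoc, reassoc_of% e])
  refine hi ⟨s' ≫ r, s ≫ r', ?_, ?_⟩ h1
  · rw [assoc, ← assoc r, ← e2, assoc, reassoc_of% e1, e1]
  · rw [assoc, ← assoc r', e2, assoc, e, comp_id, e]

namespace Wt
variable {A : ℤ → ℤ → D → Prop} (hA : Wt A)
include hA

theorem bd_iso : (Bd A).IsClosedUnderIsomorphisms :=
  ⟨fun e ⟨a, b, h⟩ => ⟨a, b, hA.iso e h⟩⟩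

theorem bd_tri : (Bd A).IsTriangulated :=
  have := hA.bd_iso
  isTri_mk _ ⟨0, 0, hA.zero (isZero_zero D)⟩ (fun _ n ⟨_, _, h⟩ => ⟨_, _, hA.shift n h⟩)
    fun _ _ _ t ⟨a, b, h⟩ ⟨c, d, h'⟩ => ⟨min a c, max b d,
      hA.ext t (hA.mono (min_le_left _ _) (le_max_left _ _) h)
        (hA.mono (min_le_right _ _) (le_max_right _ _) h')⟩

theorem sum {a b : ℤ} {X Y : D} (h : A a b X) (h' : A a b Y) : A a b (X ⊞ Y) :=
  hA.ext (Tri.biprod X Y) h h'

theorem p₃ {a b c d e f : ℤ} {X Y Z : D} (t : Tri X Y Z) (h : A a b X) (h' : A c d Y)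
    (h1 : e ≤ a - 1) (h2 : e ≤ c) (h3 : b - 1 ≤ f) (h4 : d ≤ f) : A e f Z :=
  hA.ext t.rot (hA.mono h2 h4 h') (hA.mono h1 h3 (hA.shift 1 h))

theorem p₁ {a b c d e f : ℤ} {X Y Z : D} (t : Tri X Y Z) (h : A a b Y) (h' : A c d Z)
    (h1 : e ≤ a) (h2 : e ≤ c + 1) (h3 : b ≤ f) (h4 : d + 1 ≤ f) : A e f X :=
  hA.ext t.invRot (hA.mono (by omega) (by omega) (hA.shift (-1) h')) (hA.mono h1 h3 h)

/-- Induction over the length. -/
theorem ind (R : D → Prop) {a b : ℤ} (h0 : ∀ X, IsZero X → R X)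
    (h1 : ∀ c H, a ≤ c → c ≤ b → A c c H → R H)
    (h2 : ∀ X Y Z, Tri X Y Z → A a b X → A a b Z → R X → R Z → R Y) {X : D} (hX : A a b X) :
    R X := by
  have : ∀ n : ℕ, a + n - 1 ≤ b → ∀ X, A a (a + n - 1) X → R X := by
    intro n
    induction n with
    | zero => exact fun _ X h => h0 X (hA.empty (by omega) h)
    | succ n ih =>
      intro hb X h
      obtain ⟨H, X', t, p, q⟩ := hA.top h
      push_cast at hb p q
      exact h2 _ _ _ t (hA.mono (by omega) (by omega) p) (hA.mono le_rfl (by omega) q)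
        (h1 _ H (by omega) (by omega) p) (ih (by omega) X' (hA.mono le_rfl (by omega) q))
  by_cases hab : a ≤ b
  · exact this (b - a + 1).toNat (by omega) X (hA.mono le_rfl (by omega) hX)
  · exact h0 X (hA.empty (by omega) hX)

theorem fold (hI : ∀ a, Idem (A a a)) {a b a' b' : ℤ} (hab : a ≤ b) {X : D} (h : A a' b X)
    (h' : A a b' X) : A a b X := by
  obtain ⟨n, rfl⟩ : ∃ n : ℕ, b = a + n := ⟨(b - a).toNat, by omega⟩
  clear hab
  induction n generalizing X b' with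
  | zero =>
    obtain ⟨H, X', ⟨f, g, k, t⟩, p, q⟩ := hA.top h
    simp only [Nat.cast_zero, add_zero] at p q ⊢
    obtain ⟨s, hs⟩ := DT.co2 t (𝟙 X) (hA.orth h' q (by omega) _)
    exact (hI a).retract hA.iso p s f hs.symm
  | succ n ih =>
    obtain ⟨H, X', t, p, q⟩ := hA.top h
    push_cast at p q ⊢
    have q1 : A a' (a + n) X' := hA.mono le_rfl (by omega) q
    have q2 : A a (max b' (a + n)) X' := hA.p₃ t p h' (by omega) le_rfl (by omega) (by omega)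
    exact hA.ext t (hA.mono (by omega) le_rfl p) (hA.mono le_rfl (by omega) (ih q2 q1))

end Wt

/-- Two out of three for the splitting of idempotents. -/
theorem split_mid {X Y Z X₁ Z₁ : D} {f : X ⟶ Y} {g : Y ⟶ Z} {h : Z ⟶ X⟦(1 : ℤ)⟧} (t : DT f g h)
    (e : Y ⟶ Y) (he : e ≫ e = e) (s : X₁ ⟶ X) (r : X ⟶ X₁) (s' : Z₁ ⟶ Z) (r' : Z ⟶ Z₁)
    (h1 : s ≫ r = 𝟙 _) (h2 : s' ≫ r' = 𝟙 _) (c1 : f ≫ e = (r ≫ s) ≫ f)
    (c2 : g ≫ r' ≫ s' = e ≫ g) (c3 : h ≫ (r ≫ s)⟦(1 : ℤ)⟧' = (r' ≫ s') ≫ h) :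
    ∃ Y₁, Tri X₁ Y₁ Z₁ ∧ ∃ (σ : Y₁ ⟶ Y) (ρ : Y ⟶ Y₁), σ ≫ ρ = 𝟙 _ ∧ ρ ≫ σ = e := by
  obtain ⟨Y₁, f₁, g₁, t₁⟩ := distinguished_cocone_triangle₂ (s' ≫ h ≫ r⟦(1 : ℤ)⟧')
  have k1 : (s' ≫ h ≫ r⟦(1 : ℤ)⟧') ≫ s⟦(1 : ℤ)⟧' = s' ≫ h := by
    rw [assoc, assoc, ← Functor.map_comp, c3, assoc, reassoc_of% h2]
  have k2 : h ≫ r⟦(1 : ℤ)⟧' = r' ≫ s' ≫ h ≫ r⟦(1 : ℤ)⟧' := by
    rw [← assoc, ← assoc, ← c3, assoc, ← Functor.map_comp, assoc, h1, comp_id]
  obtain ⟨σ, a1, a2⟩ := DT.cm2 t₁ t s s' k1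
  obtain ⟨ρ, b1, b2⟩ := DT.cm2 t t₁ r r' k2
  have d1 : f₁ ≫ σ ≫ e ≫ ρ = f₁ := by
    rw [reassoc_of% a1, reassoc_of% c1, reassoc_of% h1, b1, reassoc_of% h1]
  have d2 : σ ≫ e ≫ ρ ≫ g₁ = g₁ := by
    rw [← b2, ← reassoc_of% c2, h2, comp_id, ← reassoc_of% a2, h2, comp_id]
  have hi : IsIso (σ ≫ e ≫ ρ) := DT.iso2 t₁ t₁ (𝟙 _) _ (𝟙 _) (by simpa using d1)
    (by simpa using d2.symm) (by simp) inferInstance inferInstance
  set u := σ ≫ e ≫ ρ with hu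
  have n1 : (σ ≫ e) ≫ e ≫ ρ ≫ inv u = 𝟙 _ := by
    rw [assoc, reassoc_of% he, ← assoc e, ← assoc σ, ← assoc σ, assoc σ e, ← hu, IsIso.hom_inv_id]
  refine ⟨Y₁, Tri.of _ t₁, σ ≫ e, e ≫ ρ ≫ inv u, n1, ?_⟩
  have d1' : f₁ ≫ inv u = f₁ := by rw [IsIso.comp_inv_eq, d1]
  have d2' : inv u ≫ g₁ = g₁ := by rw [IsIso.inv_comp_eq, hu, assoc, assoc, d2]
  set e₁ := (e ≫ ρ ≫ inv u) ≫ σ ≫ e with he₁
  have m1 : e ≫ e₁ = e₁ := by simp only [he₁, assoc, reassoc_of% he]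
  have m2 : e₁ ≫ e = e₁ := by simp only [he₁, assoc, he]
  have m3 : e₁ ≫ e₁ = e₁ := by rw [he₁, assoc, ← assoc (σ ≫ e), n1, id_comp]
  have z1 : f ≫ (e - e₁) = 0 := by
    rw [Preadditive.comp_sub, he₁, assoc, assoc, reassoc_of% c1, reassoc_of% b1, reassoc_of% h1,
      reassoc_of% d1', reassoc_of% a1, c1, assoc, reassoc_of% h1, sub_self]
  have z2 : (e - e₁) ≫ g = 0 := by
    have : e ≫ ρ ≫ g₁ ≫ s' = e ≫ g := by rw [← reassoc_of% b2, c2, reassoc_of% he]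
    rw [Preadditive.sub_comp, he₁, assoc, assoc, assoc, assoc, ← c2, ← reassoc_of% a2,
      reassoc_of% h2, reassoc_of% d2', this, c2, sub_self]
  obtain ⟨q, hq⟩ := DT.co2 t _ z2
  have : (e - e₁) ≫ (e - e₁) = 0 := by
    nth_rw 1 [hq]
    rw [assoc, z1, comp_zero]
  simp only [Preadditive.sub_comp, Preadditive.comp_sub, he, m1, m2, m3, sub_self, sub_zero] at this
  exact (sub_eq_zero.1 this).symm

theorem idem_fix {R : Type*} [Ring R] (x : R) (h : (x * x - x) * (x * x - x) = 0) :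
    (x * x + x * x + x * x - (x * x * x + x * x * x)) *
      (x * x + x * x + x * x - (x * x * x + x * x * x)) =
      x * x + x * x + x * x - (x * x * x + x * x * x) := by
  have : (x * x + x * x + x * x - (x * x * x + x * x * x)) *
      (x * x + x * x + x * x - (x * x * x + x * x * x)) -
      (x * x + x * x + x * x - (x * x * x + x * x * x)) =
        (4 * (x * x - x) - 3) * ((x * x - x) * (x * x - x)) := by
    noncomm_ring
  rw [← sub_eq_zero, this, h, mul_zero]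

/-- The third map of an endomorphism of a triangle can be chosen idempotent. -/
theorem idem_third {X Y Z : D} {f : X ⟶ Y} {g : Y ⟶ Z} {h : Z ⟶ X⟦(1 : ℤ)⟧} (t : DT f g h)
    (a : X ⟶ X) (e : Y ⟶ Y) (ha : a ≫ a = a) (he : e ≫ e = e) (c1 : f ≫ e = a ≫ f) :
    ∃ c : Z ⟶ Z, c ≫ c = c ∧ g ≫ c = e ≫ g ∧ h ≫ a⟦(1 : ℤ)⟧' = c ≫ h := by
  obtain ⟨c, c2, c3⟩ := DT.cm3 t t a e c1
  have g2 : g ≫ c ≫ c = e ≫ g := by rw [reassoc_of% c2, c2, reassoc_of% he]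
  have h2 : c ≫ c ≫ h = c ≫ h := by
    rw [← c3, ← reassoc_of% c3, ← Functor.map_comp, ha]
  obtain ⟨q, hq⟩ := DT.co3 t (c ≫ c - c) (by rw [Preadditive.sub_comp, assoc, h2, sub_self])
  have z : (c ≫ c - c) ≫ (c ≫ c - c) = 0 := by
    nth_rw 1 [hq]
    rw [assoc, Preadditive.comp_sub, g2, c2, sub_self, comp_zero]
  refine ⟨c ≫ c + c ≫ c + c ≫ c - (c ≫ c ≫ c + c ≫ c ≫ c), idem_fix (R := End Z) c z, ?_, ?_⟩
  · simp only [Preadditive.comp_sub, Preadditive.comp_add, reassoc_of% c2, c2, reassoc_of% he]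
    abel
  · rw [c3]
    simp only [Preadditive.sub_comp, Preadditive.add_comp, assoc, h2]
    abel

namespace Wt
variable [IsTriangulated D] {A : ℤ → ℤ → D → Prop} (hA : Wt A)
include hA

theorem idem (hI : ∀ a, Idem (A a a)) (a b : ℤ) : Idem (A a b) := by
  by_cases hab : b < a
  · intro X hX e _
    have := hA.empty hab hX
    exact ⟨X, hX, 𝟙 _, 𝟙 _, by simp, this.eq_of_src _ _⟩
  obtain ⟨n, rfl⟩ : ∃ n : ℕ, b = a + n := ⟨(b - a).toNat, by omega⟩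
  clear hab
  induction n with
  | zero => simpa using hI a
  | succ n ih =>
    intro X hX e he
    obtain ⟨H, X', t, p, q⟩ := hA.top hX
    push_cast at p q ⊢
    obtain ⟨i, hi⟩ := t.cone
    obtain ⟨B, g, k, t'⟩ := exists_cone (biprod.desc (i ≫ e) (i - i ≫ e))
    obtain ⟨E, -, ⟨j⟩⟩ := retract_summand (biprod.lift (𝟙 H) (𝟙 H)) biprod.fst (by simp)
    have hE : Cone (biprod.lift (𝟙 H) (𝟙 H)) H := by
      have : Cone (biprod.inl : H ⟶ H ⊞ H) H := ⟨_, _, binaryBiproductTriangle_distinguished H H⟩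
      exact this.arrow (Iso.refl _) ⟨biprod.lift biprod.fst (biprod.snd - biprod.fst),
        biprod.lift biprod.fst (biprod.snd + biprod.fst), by ext <;> simp, by ext <;> simp⟩
        (by ext <;> simp)
    have t2 : Tri H X' B := hE.oct ⟨g, k, t'⟩ (by simpa using hi)
    have hB : A a (a + n) B := hA.p₃ t2 p q (by omega) le_rfl (by omega) (by omega)
    have c1 : biprod.desc (i ≫ e) (i - i ≫ e) ≫ e =
        (biprod.fst ≫ biprod.inl) ≫ biprod.desc (i ≫ e) (i - i ≫ e) := by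
      ext <;> simp [he]
    obtain ⟨c, hc, c2, c3⟩ := idem_third t' (biprod.fst ≫ biprod.inl) e (by simp) he c1
    obtain ⟨Z₁, hZ, s', r', h2, rfl⟩ := ih B hB c hc
    obtain ⟨Y₁, t₁, σ, ρ, e1, e2⟩ := split_mid t' e he biprod.inl biprod.fst s' r' (by simp) h2
      c1 c2 c3
    exact ⟨Y₁, hA.ext t₁ (hA.mono (by omega) le_rfl p) (hA.mono le_rfl (by omega) hZ), σ, ρ, e1, e2⟩

theorem idem_bd (hI : ∀ a, Idem (A a a)) : Idem (Bd A) := by
  rintro X ⟨a, b, hX⟩ e he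
  obtain ⟨Y, hY, h⟩ := hA.idem hI a b X hX e he
  exact ⟨Y, ⟨a, b, hY⟩, h⟩

omit [IsTriangulated D] in
/-- If the objects in one degree are retracts of objects of `Q`, so are all bounded objects. -/
theorem ret (Q : ObjectProperty D) [Q.IsTriangulated] [Q.IsClosedUnderIsomorphisms]
    (h : ∀ a X, A a a X → Q.retractClosure X) {X : D} (hX : Bd A X) : Q.retractClosure X := by
  obtain ⟨a, b, hX⟩ := hX
  refine hA.ind Q.retractClosure (fun X h => Q.le_retractClosure _ (p_zero Q h))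
    (fun c H _ _ => h c H) ?_ hX
  rintro X Y Z ⟨f, g, k, t⟩ - - p q
  exact ObjectProperty.monotone_retractClosure
    (ObjectProperty.extensionProduct_le_of_isTriangulatedClosed₂ le_rfl le_rfl) _
    (ObjectProperty.extensionProduct_retractClosure_retractClosure_le Q Q Y ⟨_, _, f, g, k, t, p, q⟩)

end Wt

end Pool.Agent.MP_f7db47_al.KN.TC
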