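import Pool.Agent.MP_f7db47_al.KN.T4

/-!
Triangulated core, part 5: windows of degrees and products.
-/

set_option linter.unusedSectionVars false
set_option backward.isDefEq.respectTransparency false

open CategoryTheory Limits Pretriangulated ZeroObject Triangulated Category

universe u v u' v' w w'

namespace Pool.Agent.MP_f7db47_al.KN.TC

variable {D : Type u} [Category.{v} D] [Preadditive D] [HasZeroObject D] [HasShift D ℤ]
  [∀ n : ℤ, (shiftFunctor D n).Additive] [Pretriangulated D]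

theorem cone_inl (X Y : D) : Cone (biprod.inl : X ⟶ X ⊞ Y) Y :=
  ⟨_, _, binaryBiproductTriangle_distinguished X Y⟩

theorem cone_inr (X Y : D) : Cone (biprod.inr : Y ⟶ X ⊞ Y) X :=
  (cone_inl Y X).arrow (Iso.refl _) (biprod.braiding X Y) (by ext <;> simp)

theorem Cone.id_zero {X E : D} (h : Cone (𝟙 X) E) : IsZero E :=
  let ⟨_, _, t⟩ := h; Triangle.isZero₃_of_isIso₁ _ t (IsIso.id X)

theorem rel_mono {P Q : D → Prop} (h : ∀ X, P X → Q X) : rel P ≤ rel Q :=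
  AddSubgroup.closure_mono fun _ ⟨X, Y, Z, t, a, b, c, e⟩ => ⟨X, Y, Z, t, h _ a, h _ b, h _ c, e⟩

section sumcl
variable {P : D → Prop} (hP : SumCl P) {W : Type w'} [AddCommGroup W] {φ : D → W} {X Y Z : D}
include hP

theorem Adv.zero' (h : Adv P φ) (hZ : IsZero Z) : φ Z = 0 := by
  have p := hP.iso hZ.isoZero.symm hP.zero
  simpa using h Z Z Z (Tri.right hZ) p p p

theorem Adv.iso' (h : Adv P φ) (hX : P X) (e : X ≅ Y) : φ Y = φ X := by
  have := h X Y 0 ((Tri.right (isZero_zero D)).iso (Iso.refl _) e (Iso.refl _)) hX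
    (hP.iso e hX) hP.zero
  simpa [h.zero' hP (isZero_zero D)] using this

theorem Adv.shift' (h : Adv P φ) (hX : P X) (hX' : P (X⟦(1 : ℤ)⟧)) : φ (X⟦(1 : ℤ)⟧) = -φ X := by
  have := h _ _ _ (Tri.mid (X := X) (isZero_zero D)) hX hP.zero hX'
  rw [h.zero' hP (isZero_zero D)] at this
  exact (neg_eq_of_add_eq_zero_right this.symm).symm

end sumcl

variable {C : Type w} [CommRing C] [Linear C D] [∀ n : ℤ, (shiftFunctor D n).Linear C]

/-- Torsion objects in a window of degrees. -/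
def Win (A : ℤ → ℤ → D → Prop) (K : List (Submonoid C)) (a b : ℤ) (X : D) : Prop :=
  A a b X ∧ Tor K X

/-- Bounded torsion objects. -/
abbrev NN (A : ℤ → ℤ → D → Prop) (K : List (Submonoid C)) : ObjectProperty D := Bd A ⊓ Tor K

namespace Wt
variable [IsTriangulated D] {A : ℤ → ℤ → D → Prop} (hA : Wt A) {K : List (Submonoid C)}
include hA

theorem nn_iso : (NN A K).IsClosedUnderIsomorphisms :=
  have := hA.bd_iso; inferInstance

theorem nn_tri : (NN A K).IsTriangulated :=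
  have := hA.bd_iso; have := hA.bd_tri; inferInstance

theorem win_sum (a b : ℤ) : SumCl (Win A K a b) :=
  ⟨fun e h => ⟨hA.iso e h.1, (Tor K).prop_of_iso e h.2⟩,
    ⟨hA.zero (isZero_zero D), p_zero (Tor K) (isZero_zero D)⟩,
    fun h h' => ⟨hA.sum h.1 h'.1, p_sum (Tor K) h.2 h'.2⟩⟩

theorem win_mono {a b a' b' : ℤ} (h1 : a' ≤ a) (h2 : b ≤ b') {X : D} (h : Win A K a b X) :
    Win A K a' b' X := ⟨hA.mono h1 h2 h.1, h.2⟩

theorem win_shift {a b : ℤ} (n : ℤ) {X : D} (h : Win A K a b X) :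
    Win A K (a - n) (b - n) (X⟦n⟧) := ⟨hA.shift n h.1, p_shift (Tor K) h.2 n⟩

theorem win_ext {a b : ℤ} {X Y Z : D} (t : Tri X Y Z) (h : Win A K a b X) (h' : Win A K a b Z) :
    Win A K a b Y := ⟨hA.ext t h.1 h'.1, t.p₂ (Tor K) h.2 h'.2⟩

theorem resol {a b : ℤ} (hab : a + K.length ≤ b) {X : D} (hX : Win A K (a - 1) b X) :
    ∃ (Y Z : D) (g : Z ⟶ X), Fib g Y ∧ Win A K a b Y ∧ Win A K a b Z := by
  obtain ⟨H, X', t, p, q⟩ := hA.top hX.1
  obtain ⟨i, hi⟩ := t.cone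
  obtain ⟨Z, ι, g, ⟨h1, h2, h3⟩, e⟩ := kos_ind (W₀ := H) (fun K W ι => A (b - K.length) b W ∧
      Tor K W ∧ ∀ E, Cone ι E → A (b - K.length) (b - 1) E)
    ⟨by simpa using p, tor_nil _, fun E h => hA.zero h.id_zero⟩ (by
      rintro K M W ι x hx W' j k t ⟨h1, h2, h3⟩
      refine ⟨hA.p₃ (Tri.of _ t) h1 h1 (by simp) (by simp; omega) (by omega) le_rfl,
        Cone.tor_kos hx ⟨j, k, t⟩ h2, fun E hE => ?_⟩
      obtain ⟨E₀, h0⟩ := exists_cone ι
      exact hA.ext (h0.oct ⟨_, _, t.rot⟩ hE) (hA.mono (by simp; omega) le_rfl (h3 _ h0))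
        (hA.mono (by simp) le_rfl (hA.shift 1 h1))) K hX.2 i
  obtain ⟨Y, hY⟩ := exists_fib g
  obtain ⟨E₀, h0⟩ := exists_cone ι
  have t2 := h0.oct hY.cone (e ▸ hi)
  have h4 : A (a - 1) (b - 1) (Y⟦(1 : ℤ)⟧) :=
    hA.p₃ t2 (h3 _ h0) q (by omega) le_rfl (by omega) le_rfl
  refine ⟨Y, Z, g, hY, ⟨?_, hY.tri.p₁ (Tor K) h2 hX.2⟩, hA.mono (by omega) le_rfl h1, h2⟩
  exact hA.iso (shiftShiftNeg Y (1 : ℤ)) (hA.mono (by omega) (by omega) (hA.shift (-1) h4))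

theorem schanuel {a b : ℤ} {G : Type w'} [AddCommGroup G] {φ : D → G} (hφ : Adv (Win A K a b) φ)
    {X Y Z Y' Z' : D} (t : Tri Y Z X) (t' : Tri Y' Z' X) (y : Win A K a b Y) (z : Win A K a b Z)
    (y' : Win A K a b Y') (z' : Win A K a b Z') : φ Z - φ Y = φ Z' - φ Y' := by
  obtain ⟨g, hg⟩ := t.fib
  obtain ⟨g', hg'⟩ := t'.fib
  obtain ⟨P, hP⟩ := exists_fib (biprod.desc g g')
  have t1 : Tri Y' P Z := ((cone_inr Z Z').fib.oct hP (by simpa using hg')).rot.iso (Iso.refl _)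
    (Iso.refl _) (shiftNegShift Z (1 : ℤ))
  have t2 : Tri Y P Z' := ((cone_inl Z Z').fib.oct hP (by simpa using hg)).rot.iso (Iso.refl _)
    (Iso.refl _) (shiftNegShift Z' (1 : ℤ))
  have e1 := hφ _ _ _ t1 y' (hA.win_ext t1 y' z) z
  have e2 := hφ _ _ _ t2 y (hA.win_ext t1 y' z) z'
  rw [sub_eq_sub_iff_add_eq_add, add_comm, ← e1, e2, add_comm]

theorem extend (hI : ∀ a, Idem (A a a)) {a b : ℤ} (hab : a + K.length ≤ b) {G : Type w'}
    [AddCommGroup G] {φ : D → G} (hφ : Adv (Win A K a b) φ) :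
    ∃ ψ : D → G, Adv (Win A K (a - 1) b) ψ ∧ ∀ X, Win A K a b X → ψ X = φ X := by
  classical
  have : ∀ X : D, ∃ x : G, ∀ Y Z, Tri Y Z X → Win A K a b Y → Win A K a b Z → x = φ Z - φ Y := by
    intro X
    by_cases h : ∃ Y Z, Tri Y Z X ∧ Win A K a b Y ∧ Win A K a b Z
    · obtain ⟨Y, Z, t, y, z⟩ := h
      exact ⟨φ Z - φ Y, fun Y' Z' t' y' z' => hA.schanuel hφ t t' y z y' z'⟩
    · exact ⟨0, fun Y Z t y z => (h ⟨Y, Z, t, y, z⟩).elim⟩
  choose ψ hψ using this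
  refine ⟨ψ, fun X₁ X₂ X₃ t x₁ x₂ x₃ => ?_, fun X hX => ?_⟩
  · obtain ⟨Y, Z, g, hg, y, z⟩ := hA.resol hab x₂
    obtain ⟨p, hp⟩ := t.fib
    obtain ⟨F, hF⟩ := exists_fib (g ≫ p)
    have t1 := hg.oct hp hF
    have f1 := hA.win_ext t1 (hA.win_mono (by omega) le_rfl y) x₁
    have f2 : Win A K a b F := ⟨hA.fold hI (by omega) f1.1
      (hA.p₁ hF.tri z.1 x₃.1 le_rfl (by omega) (f := b + 1) (by omega) le_rfl), f1.2⟩
    rw [hψ _ _ _ hg.tri y z, hψ _ _ _ t1 y f2, hψ _ _ _ hF.tri f2 z]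
    abel
  · rw [hψ X 0 X (Tri.left (isZero_zero D)) (hA.win_sum a b).zero hX,
      hφ.zero' (hA.win_sum a b) (isZero_zero D), sub_zero]

theorem triv_up (hI : ∀ a, Idem (A a a)) {a b : ℤ} (hab : a + K.length ≤ b) {X : D}
    (hX : Win A K a b X) (k : ℕ) (h : Triv (Win A K (a - k) b) X) : Triv (Win A K a b) X := by
  induction k with
  | zero => simpa using h
  | succ k ih =>
    refine ih (Triv.intro fun G _ φ hφ => ?_)
    obtain ⟨ψ, h1, h2⟩ := hA.extend hI (by omega) hφ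
    rw [← h2 X (hA.win_mono (by omega) le_rfl hX)]
    refine Triv.elim ?_ h1
    rwa [show a - k - 1 = a - (k + 1 : ℕ) by push_cast; ring]

theorem triv_down {a b : ℤ} {X : D} (hX : Win A K a b X) (k : ℕ) {a' : ℤ} (ha : a' ≤ a)
    (h : Triv (Win A K a' (b + k)) X) : Triv (Win A K (a' - k) b) X := by
  induction k generalizing a' with
  | zero => simpa using h
  | succ k ih =>
    rw [show a' - (k + 1 : ℕ) = a' - 1 - k by push_cast; ring]
    refine ih (by omega) (Triv.intro fun G _ φ hφ => ?_)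
    have h1 : Adv (Win A K a' (b + (k + 1 : ℕ))) (fun Y => φ (Y⟦(1 : ℤ)⟧)) :=
      fun _ _ _ t x y z => hφ _ _ _ (t.shift 1)
        (hA.win_mono le_rfl (by push_cast; omega) (hA.win_shift 1 x))
        (hA.win_mono le_rfl (by push_cast; omega) (hA.win_shift 1 y))
        (hA.win_mono le_rfl (by push_cast; omega) (hA.win_shift 1 z))
    have h2 := h.elim h1
    rw [hφ.shift' (hA.win_sum _ _) (hA.win_mono (by omega) (by omega) hX)
      (hA.win_mono (by omega) (by omega) (hA.win_shift 1 hX))] at h2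
    exact neg_eq_zero.1 h2

/-- A vanishing class has a certificate inside every large enough window. -/
theorem window (hI : ∀ a, Idem (A a a)) {a b : ℤ} (hab : a + K.length ≤ b) {X : D}
    (hX : Win A K a b X) (h : Triv (NN A K) X) : Cert (Win A K a b) X := by
  have : ∀ x ∈ rel (NN A K), ∃ k : ℕ, x ∈ rel (Win A K (a - k) (b + k)) := by
    intro x hx
    have m : ∀ {k k' : ℕ}, k ≤ k' → rel (Win A K (a - k) (b + k)) ≤
        rel (Win A K (a - k') (b + k')) :=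
      fun h => rel_mono fun _ => hA.win_mono (by omega) (by omega)
    induction hx using AddSubgroup.closure_induction with
    | mem x hx =>
      obtain ⟨X, Y, Z, t, ⟨⟨a₁, b₁, p⟩, p'⟩, ⟨⟨a₂, b₂, q⟩, q'⟩, ⟨⟨a₃, b₃, r⟩, r'⟩, e⟩ := hx
      exact ⟨(a - a₁).natAbs + (a - a₂).natAbs + (a - a₃).natAbs + (b - b₁).natAbs +
        (b - b₂).natAbs + (b - b₃).natAbs, AddSubgroup.subset_closure ⟨X, Y, Z, t,
        ⟨hA.mono (by omega) (by omega) p, p'⟩, ⟨hA.mono (by omega) (by omega) q, q'⟩,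
        ⟨hA.mono (by omega) (by omega) r, r'⟩, e⟩⟩
    | zero => exact ⟨0, zero_mem _⟩
    | add x y _ _ hx hy =>
      obtain ⟨k, hk⟩ := hx
      obtain ⟨l, hl⟩ := hy
      exact ⟨max k l, add_mem (m (le_max_left _ _) hk) (m (le_max_right _ _) hl)⟩
    | neg x _ hx => exact ⟨hx.choose, neg_mem hx.choose_spec⟩
  obtain ⟨k, hk⟩ := this _ h
  have h2 := hA.triv_down hX k (by omega) hk
  refine (hA.triv_up hI hab hX (k + k) ?_).cert (hA.win_sum a b) hX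
  rwa [show a - (k + k : ℕ) = a - k - k by push_cast; ring]

end Wt

section cls
variable {D' : Type u'} [Category.{v'} D'] [Preadditive D'] [HasZeroObject D'] [HasShift D' ℤ]
  [∀ n : ℤ, (shiftFunctor D' n).Additive] [Pretriangulated D']

theorem cl_map_sum (F : D ⥤ D') [F.Additive] (X Y : D) :
    cl (F.obj (X ⊞ Y)) = cl (F.obj X) + cl (F.obj Y) :=
  have := preservesBinaryBiproducts_of_preservesBiproducts F
  cl_eq.2 ⟨F.mapBiprod X Y⟩

theorem Null.image (F : D ⥤ D') [F.CommShift ℤ] [F.IsTriangulated] {P : D → Prop}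
    {Q : ObjectProperty D'} [Q.IsTriangulated] [Q.IsClosedUnderIsomorphisms]
    (h : ∀ X, P X → Q (F.obj X)) (hs : ∀ Y, Q Y → ∃ X, P X ∧ Nonempty (F.obj X ≅ Y))
    (hP : Null P) : Null Q := fun Y hY => by
  obtain ⟨X, hX, ⟨e⟩⟩ := hs Y hY
  exact ((hP X hX).map F h).iso (h X hX) e

end cls

/-- Products: certificates in a common window can be assembled. -/
theorem null_prod [IsTriangulated D] {ι : Type*} {E : ι → Type u'} [∀ i, Category.{v'} (E i)]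
    [∀ i, Preadditive (E i)] [∀ i, HasZeroObject (E i)] [∀ i, HasShift (E i) ℤ]
    [∀ i (n : ℤ), (shiftFunctor (E i) n).Additive] [∀ i, Pretriangulated (E i)]
    [∀ i, IsTriangulated (E i)] {B : ι → Type w'} [∀ i, CommRing (B i)] [∀ i, Linear (B i) (E i)]
    [∀ i (n : ℤ), (shiftFunctor (E i) n).Linear (B i)] (ev : ∀ i, D ⥤ E i)
    [∀ i, (ev i).CommShift ℤ] [∀ i, (ev i).IsTriangulated]
    {A : ℤ → ℤ → D → Prop} (hA : Wt A) {A' : ∀ i, ℤ → ℤ → E i → Prop} (hA' : ∀ i, Wt (A' i))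
    (hI : ∀ i a, Idem (A' i a a)) {K : List (Submonoid C)} {K' : ∀ i, List (Submonoid (B i))}
    (n : ℕ) (hn : ∀ i, (K' i).length ≤ n)
    (j1 : ∀ a b (Y : ∀ i, E i), (∀ i, A' i a b (Y i)) →
      ∃ X, A a b X ∧ ∀ i, Nonempty ((ev i).obj X ≅ Y i))
    (j2 : ∀ X X' (f : ∀ i, (ev i).obj X ⟶ (ev i).obj X'), Bd A X → Bd A X' →
      ∃ g : X ⟶ X', ∀ i, (ev i).map g = f i)
    (j3 : ∀ X X' (g : X ⟶ X'), Bd A X → Bd A X' → (∀ i, (ev i).map g = 0) → g = 0)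
    (j4 : ∀ X, Bd A X → (Tor K X ↔ ∀ i, Tor (K' i) ((ev i).obj X)))
    (j5 : ∀ a b X i, A a b X → A' i a b ((ev i).obj X))
    (h : ∀ i, Null (NN (A' i) (K' i))) : Null (NN A K) := by
  have := hA.nn_iso (K := K)
  have := hA.nn_tri (K := K)
  have := hA.bd_iso
  have := hA.bd_tri
  have iso : ∀ X X', Bd A X → Bd A X' → (∀ i, Nonempty ((ev i).obj X ≅ (ev i).obj X')) →
      Nonempty (X ≅ X') := by
    intro X X' b b' e
    obtain ⟨f, hf⟩ := j2 X X' (fun i => (e i).some.hom) b b'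
    obtain ⟨g, hg⟩ := j2 X' X (fun i => (e i).some.inv) b' b
    exact ⟨f, g, sub_eq_zero.1 (j3 _ _ _ b b fun i => by simp [hf, hg]),
      sub_eq_zero.1 (j3 _ _ _ b' b' fun i => by simp [hf, hg])⟩
  rintro X ⟨⟨a, b, hX⟩, tX⟩
  have bX : Bd A X := ⟨a, b, hX⟩
  have obj : ∀ Y : ∀ i, E i, (∀ i, Win (A' i) (K' i) (min a (b - n)) b (Y i)) →
      ∃ X, NN A K X ∧ ∀ i, Nonempty ((ev i).obj X ≅ Y i) := by
    intro Y hY
    obtain ⟨X, h1, h2⟩ := j1 _ _ Y fun i => (hY i).1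
    exact ⟨X, ⟨⟨_, _, h1⟩, (j4 X ⟨_, _, h1⟩).2 fun i =>
      (Tor (K' i)).prop_of_iso (h2 i).some.symm (hY i).2⟩, h2⟩
  have tri : ∀ P Q R : D, Bd A P → Bd A Q → Bd A R →
      (∀ i, Tri ((ev i).obj P) ((ev i).obj Q) ((ev i).obj R)) → Tri P Q R := by
    intro P Q R p q r t
    choose f hf using fun i => (t i).cone
    obtain ⟨g, hg⟩ := j2 P Q f p q
    obtain ⟨R', hR⟩ := exists_cone g
    obtain ⟨e⟩ := iso R' R (hR.tri.p₃ (Bd A) p q) r fun i => (hR.map (ev i)).uniq (hg i ▸ hf i)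
    exact (hR.iso e).tri
  have c := fun i => (hA' i).window (hI i) (a := min a (b - n)) (b := b) (K := K' i)
    (by have := hn i; omega) ⟨(hA' i).mono (min_le_left _ _) le_rfl (j5 _ _ _ i hX),
      (j4 X bX).1 tX i⟩ (h i _ ⟨⟨_, _, j5 _ _ _ i hX⟩, (j4 X bX).1 tX i⟩)
  choose P Q R P' Q' R' t t' p q r p' q' r' e using c
  obtain ⟨P₀, p0, p1⟩ := obj P p
  obtain ⟨Q₀, q0, q1⟩ := obj Q q
  obtain ⟨R₀, r0, r1⟩ := obj R r
  obtain ⟨P₁, p2, p3⟩ := obj P' p'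
  obtain ⟨Q₁, q2, q3⟩ := obj Q' q'
  obtain ⟨R₁, r2, r3⟩ := obj R' r'
  refine Cert.triv ⟨bX, tX⟩ ⟨P₀, Q₀, R₀, P₁, Q₁, R₁,
    tri _ _ _ p0.1 q0.1 r0.1 fun i =>
      (t i).iso (p1 i).some.symm (q1 i).some.symm (r1 i).some.symm,
    tri _ _ _ p2.1 q2.1 r2.1 fun i =>
      (t' i).iso (p3 i).some.symm (q3 i).some.symm (r3 i).some.symm,
    p0, q0, r0, p2, q2, r2, iso _ _ (p_sum _ bX (p_sum _ (p_sum _ p0.1 r0.1) q2.1))
      (p_sum _ q0.1 (p_sum _ p2.1 r2.1)) fun i => cl_eq.1 ?_⟩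
  have := cl_eq.2 (e i)
  simp only [cl_sum, cl_map_sum, cl_eq.2 (p1 i), cl_eq.2 (q1 i), cl_eq.2 (r1 i), cl_eq.2 (p3 i),
    cl_eq.2 (q3 i), cl_eq.2 (r3 i)] at this ⊢
  exact this

end Pool.Agent.MP_f7db47_al.KN.TC
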