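import Pool.Agent.MP_f7db47_al.TW.Pr
import Pool.Agent.MP_f7db47_al.GN.DA

/-!
The extension lemma for matrices over twisted group rings.
-/

namespace Pool.Agent.MP_f7db47_al.TW

open Matrix

universe v

section Act

variable {I M N : Type*} [Fintype I] [AddCommGroup M] [AddCommGroup N]

/-- Integer matrices act on vectors. -/
def XA_act (Z : Matrix I I ℤ) (v : I → M) : I → M := fun z => ∑ x, Z z x • v x

theorem XA_mul (Z Z' : Matrix I I ℤ) (v : I → M) :
    XA_act (Z * Z') v = XA_act Z (XA_act Z' v) := by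
  funext z
  simp only [XA_act, Matrix.mul_apply, Finset.sum_smul, Finset.smul_sum, mul_smul]
  exact Finset.sum_comm

theorem XA_add (Z Z' : Matrix I I ℤ) (v : I → M) :
    XA_act (Z + Z') v = XA_act Z v + XA_act Z' v := by
  funext z
  simp only [XA_act, Matrix.add_apply, add_smul, Finset.sum_add_distrib, Pi.add_apply]

theorem XA_zero (Z : Matrix I I ℤ) : XA_act Z (0 : I → M) = 0 := by
  funext z
  simp [XA_act]

theorem XA_map (φ : M →+ N) (Z : Matrix I I ℤ) (v : I → M) :
    XA_act Z (fun x => φ (v x)) = fun z => φ (XA_act Z v z) := by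
  funext z
  simp only [XA_act, map_sum, map_zsmul]

theorem XA_sum {ι : Type*} (s : Finset ι) (Z : Matrix I I ℤ) (v : ι → I → M) :
    XA_act Z (∑ g ∈ s, v g) = ∑ g ∈ s, XA_act Z (v g) := by
  funext z
  simp only [XA_act, Finset.sum_apply, Finset.smul_sum]
  exact Finset.sum_comm

end Act

variable {R : Type v} [Ring R] {G : Type} [Group G] [MulSemiringAction G R] {I : Type} [Fintype I]
  [DecidableEq I]

/-- Cells with a boundary matrix and a tower of carriers. -/
structure XCx (F : GN.FR G I) (β : I → ℤ) (f : I → ℕ) (d : Matrix I I ℤ) (n : ℕ) : Prop where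
  dd : d * d = 0
  sup : ∀ x y, d x y ≠ 0 → F.rel 0 x 1 y ∧ β x = β y ∧ f x + 1 = f y
  dim : ∀ x, f x ≤ n
  fill : ∀ t y g, f y ≠ 0 → ∃ Z : Matrix I I ℤ, ∀ x, F.rel t x g y →
    (∀ z, Z z x ≠ 0 → F.rel (t + 1) z g y ∧ β z = β x ∧ f z = f x + 1) ∧
      ∀ z, (d * Z + Z * d) z x = (1 : Matrix I I ℤ) z x

variable (R G) in
/-- An integer matrix, read over the twisted group ring. -/
noncomputable def zm (d : Matrix I I ℤ) : Matrix I I (SkewMonoidAlgebra R G) :=
  (Int.castRingHom _).mapMatrix d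

theorem zm_mul_apply (d : Matrix I I ℤ) (M : Matrix I I (SkewMonoidAlgebra R G)) (x y : I) :
    (zm R G d * M) x y = XA_act d (fun z => M z y) x := by
  simp [zm, XA_act, Matrix.mul_apply]

theorem mul_zm_apply (d : Matrix I I ℤ) (M : Matrix I I (SkewMonoidAlgebra R G)) (x y : I) :
    (M * zm R G d) x y = ∑ z, d z y • M x z := by
  simp only [zm, Matrix.mul_apply, RingHom.mapMatrix_apply, Matrix.map_apply, eq_intCast,
    zsmul_eq_mul]
  exact Finset.sum_congr rfl fun z _ => (Int.cast_comm _ _).symm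

theorem XA_sup {S : Set G} {x : SkewMonoidAlgebra R G} {k : ℤ} (h : k ≠ 0 → Sup S x) :
    Sup S (k • x) := by
  by_cases h0 : k = 0
  · rw [h0, zero_zsmul]
    exact sup_zero _
  · let K : AddSubgroup (SkewMonoidAlgebra R G) :=
      { carrier := {x | Sup S x}
        add_mem' := fun hx hy => Sup.add hx hy
        zero_mem' := sup_zero _
        neg_mem' := fun hx => Sup.neg hx }
    exact K.zsmul_mem (h h0) k

theorem zm_sup {S : I → I → Set G} {d : Matrix I I ℤ} (h : ∀ x y, d x y ≠ 0 → 1 ∈ S x y) :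
    MSup2 S (zm R G d) := fun x y => by
  have e : zm R G d x y = d x y • (1 : SkewMonoidAlgebra R G) := by simp [zm]
  rw [e]
  exact XA_sup fun h0 => sup_one (h x y h0)

variable {F : GN.FR G I} {β : I → ℤ} {f : I → ℕ} {d : Matrix I I ℤ} {n : ℕ}

theorem XCx.col (h : XCx F β f d n) {t : ℕ} {y : I} (hy : f y ≠ 0) {b c : ℤ}
    {v : I → SkewMonoidAlgebra R G}
    (hv : ∀ x, Sup {g | F.rel t x g y ∧ β x = β y + b ∧ (f x : ℤ) = f y + c} (v x))
    (h0 : XA_act d v = 0) : ∃ w : I → SkewMonoidAlgebra R G, XA_act d w = v ∧ ∀ x,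
      Sup {g | (F.rel (t + 1) x g y ∧ β x = β y + b ∧ (f x : ℤ) = f y + (c + 1)) ∧ f x ≠ 0}
        (w x) := by
  classical
  choose Z hZ using fun g => h.fill t y g hy
  have hne : ∀ g x, pr {g} (v x) ≠ 0 → (v x).coeff g ≠ 0 := fun g x h1 h2 => h1 (by
    ext k
    rw [coeff_pr]
    split_ifs with h3
    · rw [Set.mem_singleton_iff.1 h3, h2]
      rfl
    · rfl)
  refine ⟨∑ g ∈ Finset.univ.biUnion fun x => (v x).coeff.support,
    XA_act (Z g) fun x => pr {g} (v x), ?_, fun z => ?_⟩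
  · rw [XA_sum]
    have e : ∀ g, XA_act d (XA_act (Z g) fun x => pr {g} (v x)) = fun x => pr {g} (v x) := by
      intro g
      have e1 : XA_act (Z g * d) (fun x => pr {g} (v x)) = 0 := by
        rw [XA_mul, XA_map, h0]
        simp only [Pi.zero_apply, map_zero]
        exact XA_zero (Z g)
      rw [← XA_mul, ← add_zero (XA_act _ _), ← e1, ← XA_add]
      funext z
      rw [XA_act, Finset.sum_congr rfl fun x _ => show _ = (1 : Matrix I I ℤ) z x • pr {g} (v x) by
        by_cases h1 : pr {g} (v x) = 0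
        · rw [h1, zsmul_zero, zsmul_zero]
        · rw [(hZ g x (hv x g (hne g x h1)).1).2 z]]
      simp [Matrix.one_apply]
    simp only [e]
    funext x
    ext k
    rw [Finset.sum_apply, show ∀ y : SkewMonoidAlgebra R G, y.coeff =
      SkewMonoidAlgebra.coeffAddEquiv y from fun _ => rfl, map_sum, Finsupp.finsetSum_apply]
    change ∑ c ∈ _, (pr {c} (v x)).coeff k = (v x).coeff k
    simp only [coeff_pr, Set.mem_singleton_iff, Finset.sum_ite_eq, Finset.mem_biUnion,
      Finset.mem_univ, true_and, Finsupp.mem_support_iff, ite_eq_left_iff]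
    exact fun h1 => (not_not.1 fun h2 => h1 ⟨x, h2⟩).symm
  · rw [Finset.sum_apply]
    refine sup_sum _ _ fun g _ => sup_sum _ _ fun x _ => XA_sup fun h1 k hk => ?_
    obtain rfl : k = g := sup_pr {g} _ k hk
    obtain ⟨a1, a2, a3⟩ := (hv x).pr k hk
    obtain ⟨b1, b2, b3⟩ := (hZ k x a1).1 z h1
    exact ⟨⟨b1, by omega, by omega⟩, by omega⟩

/-- Homogeneous matrices of level `t` that vanish on the cells of dimension zero. -/
def Lv (F : GN.FR G I) (β : I → ℤ) (f : I → ℕ) (t : ℕ) (b c : ℤ)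
    (M : Matrix I I (SkewMonoidAlgebra R G)) : Prop :=
  MSup2 (fun x y => {g | (F.rel t x g y ∧ β x = β y + b ∧ (f x : ℤ) = f y + c) ∧ f y ≠ 0}) M

theorem XCx.ext_aux (h : XCx F β f d n) (b c : ℤ) (m : ℕ) : ∀ (t : ℕ)
    (ψ : Matrix I I (SkewMonoidAlgebra R G)), Lv F β f t b c ψ → zm R G d * ψ = ψ * zm R G d →
    (∀ x y, f y + m ≤ n → ψ x y = 0) → ∃ X, Lv F β f (t + m) b (c + 1) X ∧
      (∀ x y, f x = 0 → X x y = 0) ∧ zm R G d * X + X * zm R G d = ψ := by
  induction m with
  | zero =>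
    intro t ψ _ _ h0
    refine ⟨0, msup2_zero _, fun _ _ _ => rfl, ?_⟩
    ext1 x y
    rw [h0 x y (h.dim y), Matrix.mul_zero, Matrix.zero_mul, add_zero]
    rfl
  | succ m ih =>
    intro t ψ hψ hc h0
    have key : ∀ y, ∃ w : I → SkewMonoidAlgebra R G,
        (f y + m = n → XA_act d w = fun x => ψ x y) ∧ ∀ x,
        Sup {g | ((F.rel (t + 1) x g y ∧ β x = β y + b ∧ (f x : ℤ) = f y + (c + 1)) ∧ f y ≠ 0) ∧
          f x ≠ 0 ∧ f y + m = n} (w x) := by
      intro y
      by_cases h1 : f y + m = n ∧ f y ≠ 0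
      · obtain ⟨w, h2, h3⟩ := h.col h1.2 (v := fun x => ψ x y)
          (fun x => (hψ x y).mono fun g hg => hg.1) (funext fun x => by
            rw [← zm_mul_apply, hc, mul_zm_apply]
            refine Finset.sum_eq_zero fun z _ => ?_
            by_cases h4 : d z y = 0
            · rw [h4, zero_zsmul]
            · rw [h0 x z (by have := (h.sup z y h4).2.2; omega), zsmul_zero])
        exact ⟨w, fun _ => h2, fun x => (h3 x).mono fun g hg => ⟨⟨hg.1, h1.2⟩, hg.2, h1.1⟩⟩
      · refine ⟨0, fun h2 => ?_, fun _ => sup_zero _⟩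
        rw [XA_zero]
        funext x
        exact ((hψ x y).eq_zero (sup_univ _) fun g hg _ => h1 ⟨h2, hg.2⟩).symm
    choose w hw1 hw2 using key
    let W : Matrix I I (SkewMonoidAlgebra R G) := fun x y => w y x
    have hW0 : ∀ x y, f x = 0 ∨ f y + m ≠ n → W x y = 0 := fun x y h1 =>
      (hw2 y x).eq_zero (sup_univ _) fun g hg _ => h1.elim hg.2.1 fun h2 => h2 hg.2.2
    have hW : Lv F β f (t + 1) b (c + 1) W := fun x y => (hw2 y x).mono fun g hg => hg.1
    have hd : MSup2 (fun x y => {g | F.rel 0 x g y ∧ β x = β y ∧ f x + 1 = f y}) (zm R G d) :=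
      zm_sup h.sup
    have hdd : zm R G d * zm R G d = 0 := by rw [zm, ← map_mul, h.dd, map_zero]
    obtain ⟨X, h1, h2, h3⟩ := ih (t + 1) (ψ - (zm R G d * W + W * zm R G d))
      (MSup2.sub (hψ.mono fun x y g hg => ⟨⟨F.mono (Nat.le_succ t) hg.1.1, hg.1.2⟩, hg.2⟩)
        (MSup2.add (hd.mul hW fun x y z g hg g' hg' =>
          ⟨⟨F.mono (by omega) (F.comp hg.1 hg'.1.1), by have := hg.2.1; have := hg'.1.2.1; omega,
            by have := hg.2.2; have := hg'.1.2.2; omega⟩, hg'.2⟩)
          (MSup2.mul hW hd fun x y z g hg g' hg' =>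
          ⟨⟨F.mono (by omega) (F.comp hg.1.1 hg'.1), by have := hg.1.2.1; have := hg'.2.1; omega,
            by have := hg.1.2.2; have := hg'.2.2; omega⟩, by have := hg'.2.2; omega⟩)))
      (by
        rw [mul_sub, sub_mul, hc, mul_add, add_mul, ← mul_assoc, hdd, mul_assoc W, hdd, zero_mul,
          mul_zero, zero_add, add_zero, mul_assoc])
      (fun x y hy => by
        have e : (W * zm R G d) x y = 0 := by
          rw [mul_zm_apply]
          refine Finset.sum_eq_zero fun z _ => ?_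
          by_cases h4 : d z y = 0
          · rw [h4, zero_zsmul]
          · rw [hW0 x z (Or.inr (by have := (h.sup z y h4).2.2; omega)), zsmul_zero]
        rw [Matrix.sub_apply, Matrix.add_apply, e, add_zero, zm_mul_apply, sub_eq_zero]
        by_cases h4 : f y + m = n
        · exact (congrFun (hw1 y h4) x).symm
        · rw [h0 x y (by omega), show (fun z => W z y) = 0 from
            funext fun z => hW0 z y (Or.inr h4), XA_zero]
          rfl)
    refine ⟨W + X, MSup2.add (hW.mono fun x y g hg =>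
      ⟨⟨F.mono (by omega) hg.1.1, hg.1.2⟩, hg.2⟩) (h1.mono fun x y g hg =>
      ⟨⟨F.mono (by omega) hg.1.1, hg.1.2⟩, hg.2⟩), fun x y hx => ?_, ?_⟩
    · rw [Matrix.add_apply, hW0 x y (Or.inl hx), h2 x y hx, add_zero]
    · rw [mul_add, add_mul, add_add_add_comm, h3, add_sub_cancel]

theorem XCx.ext (h : XCx F β f d n) {b c : ℤ} {t : ℕ} {ψ : Matrix I I (SkewMonoidAlgebra R G)}
    (hψ : Lv F β f t b c ψ) (hc : zm R G d * ψ = ψ * zm R G d) :
    ∃ X, Lv F β f (t + n) b (c + 1) X ∧ (∀ x y, f x = 0 → X x y = 0) ∧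
      zm R G d * X + X * zm R G d = ψ :=
  h.ext_aux b c n t ψ hψ hc fun x y hy =>
    (hψ x y).eq_zero (sup_univ _) fun g hg _ => hg.2 (by omega)

end Pool.Agent.MP_f7db47_al.TW
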