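import Pool.Agent.MP_f7db47_al.KN.XA

/-!
Perturbation of the boundary matrix.
-/

namespace Pool.Agent.MP_f7db47_al.TW

open Matrix

universe v

variable {R : Type v} [Ring R] {G : Type} [Group G] [MulSemiringAction G R] {I : Type} [Fintype I]
  [DecidableEq I]

/-- Filtered matrices of level `t`, with a further condition `c`. -/
def Fi (F : GN.FR G I) (β : I → ℤ) (f : I → ℕ) (c : I → I → Prop) (t : ℕ) (b e : ℤ)
    (M : Matrix I I (SkewMonoidAlgebra R G)) : Prop :=
  MSup2 (fun x y => {g | (F.rel t x g y ∧ β x ≤ β y + b ∧ β x + f x = β y + f y + e) ∧ c x y}) M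

variable {F : GN.FR G I} {β : I → ℤ} {f : I → ℕ} {d : Matrix I I ℤ} {n : ℕ}
  {c c' c'' : I → I → Prop} {t t' t'' : ℕ} {b b' b'' e e' e'' : ℤ}
  {M M' : Matrix I I (SkewMonoidAlgebra R G)}

omit [Fintype I] [DecidableEq I] in
theorem Fi.mono (h : Fi F β f c t b e M) (ht : t ≤ t') (hb : b ≤ b') (hc : ∀ x y, c x y → c' x y) :
    Fi F β f c' t' b' e M :=
  MSup2.mono h fun x y _ hg =>
    ⟨⟨F.mono ht hg.1.1, by have := hg.1.2.1; omega, hg.1.2.2⟩, hc x y hg.2⟩

omit [DecidableEq I] in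
theorem Fi.mul (h : Fi F β f c t b e M) (h' : Fi F β f c' t' b' e' M') (ht : t + t' ≤ t'')
    (hb : b + b' ≤ b'') (he : e + e' = e'') (hc : ∀ x y z, c x y → c' y z → c'' x z) :
    Fi F β f c'' t'' b'' e'' (M * M') :=
  MSup2.mul h h' fun x y z _ hg _ hg' =>
    ⟨⟨F.mono ht (F.comp hg.1.1 hg'.1.1), by have := hg.1.2.1; have := hg'.1.2.1; omega,
      by have := hg.1.2.2; have := hg'.1.2.2; omega⟩, hc x y z hg.2 hg'.2⟩

omit [Fintype I] [DecidableEq I] in
theorem Fi.eq_zero (h : Fi F β f c t b e M) (hn : ∀ x, f x ≤ n) (hb : b + n < e) : M = 0 := by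
  ext1 x y
  exact (h x y).eq_zero (sup_univ _) fun g hg _ => by
    have := hg.1.2.1
    have := hg.1.2.2
    have := hn x
    omega

theorem XCx.step (h : XCx F β f d n) {N E : Matrix I I (SkewMonoidAlgebra R G)}
    (hN : Fi F β f c t' (-1) e' N) (hE : Fi F β f (fun _ y => f y ≠ 0) t b e E)
    (hc : (zm R G d + N) * E = E * (zm R G d + N)) :
    ∃ X, Fi F β f (fun x y => f x ≠ 0 ∧ f y ≠ 0) (t + n) b (e + 1) X ∧
      Fi F β f (fun _ y => f y ≠ 0) t (b - 1) e (E - (zm R G d * X + X * zm R G d)) := by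
  let ψ : Matrix I I (SkewMonoidAlgebra R G) := fun x y => if β x = β y + b then E x y else 0
  have hψ : Lv F β f t b (e - b) ψ := fun x y => by
    simp only [ψ]
    split_ifs with h1
    · exact (hE x y).mono fun g hg => ⟨⟨hg.1.1, h1, by have := hg.1.2.2; omega⟩, hg.2⟩
    · exact sup_zero _
  obtain ⟨X, h1, h2, h3⟩ := h.ext hψ (by
    ext1 x y
    have e1 : (zm R G d * ψ) x y = if β x = β y + b then (zm R G d * E) x y else 0 := by
      rw [zm_mul_apply, zm_mul_apply, XA_act, XA_act, ← Finset.sum_const_zero (s := (Finset.univ : Finset I)),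
        ← Finset.sum_ite_irrel]
      refine Finset.sum_congr rfl fun z _ => ?_
      by_cases h4 : d x z = 0
      · rw [h4, zero_zsmul, zero_zsmul, ite_self]
      · simp only [ψ, (h.sup x z h4).2.1]
        split_ifs
        · rfl
        · exact zsmul_zero _
    have e2 : (ψ * zm R G d) x y = if β x = β y + b then (E * zm R G d) x y else 0 := by
      rw [mul_zm_apply, mul_zm_apply, ← Finset.sum_const_zero (s := (Finset.univ : Finset I)),
        ← Finset.sum_ite_irrel]
      refine Finset.sum_congr rfl fun z _ => ?_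
      by_cases h4 : d z y = 0
      · rw [h4, zero_zsmul, zero_zsmul, ite_self]
      · simp only [ψ, (h.sup z y h4).2.1]
        split_ifs
        · rfl
        · exact zsmul_zero _
    rw [e1, e2]
    split_ifs with h4
    · have e3 : zm R G d * E - E * zm R G d = E * N - N * E := by
        rw [add_mul, mul_add] at hc
        rw [sub_eq_sub_iff_add_eq_add, hc, add_comm]
      have e4 : Fi F β f (fun _ _ => True) (t + t') (b - 1) (e + e') (E * N - N * E) :=
        MSup2.sub (hE.mul hN le_rfl (by omega) rfl fun _ _ _ _ _ => trivial)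
          (hN.mul hE (by omega) (by omega) (add_comm _ _) fun _ _ _ _ _ => trivial)
      rw [← sub_eq_zero, ← Matrix.sub_apply, e3]
      exact (e4 x y).eq_zero (sup_univ _) fun g hg _ => by have := hg.1.2.1; omega
    · rfl)
  refine ⟨X, fun x y g hg => ?_, fun x y => ?_⟩
  · obtain ⟨⟨a1, a2, a3⟩, a4⟩ := h1 x y g hg
    exact ⟨⟨a1, a2.le, by omega⟩, fun h4 => hg (by rw [h2 x y h4]; rfl), a4⟩
  · rw [h3, Matrix.sub_apply]
    simp only [ψ]
    split_ifs with h4
    · rw [sub_self]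
      exact sup_zero _
    · rw [sub_zero]
      exact (hE x y).mono fun g hg => ⟨⟨hg.1.1, by have := hg.1.2.1; omega, hg.1.2.2⟩, hg.2⟩

theorem XCx.fi (h : XCx F β f d n) :
    Fi F β f (fun _ y => f y ≠ 0) 0 0 (-1) (zm R G d) :=
  zm_sup fun x y h1 => by
    obtain ⟨a1, a2, a3⟩ := h.sup x y h1
    exact ⟨⟨a1, by omega, by omega⟩, by omega⟩

/-- The levels. -/
def XB_lv (n : ℕ) : ℕ → ℕ
  | 0 => 1
  | k + 1 => 2 * (XB_lv n k + n)

theorem XB_one (n k : ℕ) : 1 ≤ XB_lv n k := by
  induction k with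
  | zero => exact le_rfl
  | succ k ih => rw [XB_lv]; omega

omit [DecidableEq I] in
theorem XB_zero (h : Fi F β f c t b e M) (h' : Fi F β f c' t' b' e' M')
    (hc : ∀ x y z, c x y → c' y z → False) : M * M' = 0 := by
  ext1 x y
  exact (h.mul h' le_rfl le_rfl rfl (c'' := fun _ _ => False) hc x y).eq_zero (sup_univ _)
    fun g hg _ => hg.2

theorem XCx.diff (h : XCx F β f d n) {D : Matrix I I (SkewMonoidAlgebra R G)}
    (hD : Fi F β f (fun x y => f x = 0 ∧ f y = 0) 1 (-1) (-1) D) (hDD : D * D = 0) (k : ℕ) :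
    ∃ X, Fi F β f (fun x y => f x ≠ 0 ∧ f y ≠ 0) (XB_lv n k) (-1) (-1) X ∧
      Fi F β f (fun _ y => f y ≠ 0) (XB_lv n k) (-1 - k) (-2)
        ((zm R G d + (D + X)) * (zm R G d + (D + X))) := by
  induction k with
  | zero =>
    refine ⟨0, msup2_zero _, ?_⟩
    have hdd : zm R G d * zm R G d = 0 := by rw [zm, ← map_mul, h.dd, map_zero]
    rw [add_zero, add_mul, mul_add, mul_add, hdd, hDD,
      XB_zero h.fi hD fun _ _ _ a1 a2 => a1 a2.1, add_zero, add_zero, zero_add]
    exact hD.mul h.fi le_rfl (by omega) rfl fun _ _ _ _ a => a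
  | succ k ih =>
    obtain ⟨X, h1, h2⟩ := ih
    have h0 := XB_one n k
    have hN : Fi F β f (fun x y => f y = 0 → f x = 0) (XB_lv n k) (-1) (-1) (D + X) :=
      MSup2.add (hD.mono h0 le_rfl fun _ _ a _ => a.1)
        (h1.mono le_rfl le_rfl fun _ _ a a' => absurd a' a.2)
    obtain ⟨Y, h3, h4⟩ := h.step hN h2 (mul_assoc _ _ _).symm
    rw [XB_lv]
    refine ⟨X - Y, MSup2.sub (h1.mono (by omega) le_rfl fun _ _ a => a)
      (h3.mono (by omega) (by omega) fun _ _ a => a), ?_⟩
    have e1 : (zm R G d + (D + (X - Y))) * (zm R G d + (D + (X - Y))) =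
        (zm R G d + (D + X)) * (zm R G d + (D + X)) - (zm R G d * Y + Y * zm R G d) -
          (D + X) * Y - Y * (D + X) + Y * Y := by noncomm_ring
    rw [e1]
    exact MSup2.add (MSup2.sub (MSup2.sub (h4.mono (by omega) (by omega) fun _ _ a => a)
      (hN.mul h3 (by omega) (by omega) rfl fun _ _ _ _ a => a.2))
      (h3.mul hN (by omega) (by omega) rfl fun _ _ _ a a' a'' => a.2 (a' a'')))
      (h3.mul h3 (by omega) (by omega) rfl fun _ _ _ _ a => a.2)

theorem XCx.htpy (h : XCx F β f d n) {N H W : Matrix I I (SkewMonoidAlgebra R G)}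
    (hN : Fi F β f (fun x y => f y = 0 → f x = 0) t' (-1) (-1) N)
    (hT : (zm R G d + N) * (zm R G d + N) = 0) (hW : (zm R G d + N) * W = W * (zm R G d + N))
    (hE : Fi F β f (fun _ y => f y ≠ 0) 1 1 0 ((zm R G d + N) * H + H * (zm R G d + N) - W))
    (k : ℕ) : ∃ Y, Fi F β f (fun x y => f x ≠ 0 ∧ f y ≠ 0) (1 + k * (n + t')) 1 1 Y ∧
      Fi F β f (fun _ y => f y ≠ 0) (1 + k * (n + t')) (1 - k) 0
        ((zm R G d + N) * (H + Y) + (H + Y) * (zm R G d + N) - W) := by
  induction k with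
  | zero => exact ⟨0, msup2_zero _, by simpa using hE⟩
  | succ k ih =>
    obtain ⟨X, h1, h2⟩ := ih
    obtain ⟨Y, h3, h4⟩ := h.step hN h2 (by
      rw [mul_sub, sub_mul, hW, mul_add _ (_ * _), add_mul (_ * _), ← mul_assoc, hT,
        mul_assoc (H + X), hT, zero_mul, mul_zero, zero_add, add_zero, mul_assoc])
    rw [add_mul k, one_mul]
    refine ⟨X - Y, MSup2.sub (h1.mono (by omega) le_rfl fun _ _ a => a)
      (h3.mono (by omega) (by omega) fun _ _ a => a), ?_⟩
    have e1 : (zm R G d + N) * (H + (X - Y)) + (H + (X - Y)) * (zm R G d + N) - W =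
        (zm R G d + N) * (H + X) + (H + X) * (zm R G d + N) - W -
          (zm R G d * Y + Y * zm R G d) - N * Y - Y * N := by noncomm_ring
    rw [e1]
    exact MSup2.sub (MSup2.sub (h4.mono (by omega) (by omega) fun _ _ a => a)
      (hN.mul h3 (by omega) (by omega) rfl fun _ _ _ _ a => a.2))
      (h3.mul hN (by omega) (by omega) rfl fun _ _ _ a a' a'' => a.2 (a' a''))

theorem XB_contr {T s₀ : Matrix I I (SkewMonoidAlgebra R G)}
    (hT : T * T = 0) (h0 : Fi F β f (fun _ _ => True) 0 0 1 s₀)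
    (hE : Fi F β f (fun _ _ => True) 0 (-1) 0 (T * s₀ + s₀ * T - 1)) (k : ℕ) :
    ∃ s, Fi F β f (fun _ _ => True) 0 0 1 s ∧
      Fi F β f (fun _ _ => True) 0 (-1 - k) 0 (T * s + s * T - 1) := by
  induction k with
  | zero => exact ⟨s₀, h0, by simpa using hE⟩
  | succ k ih =>
    obtain ⟨s, h1, h2⟩ := ih
    refine ⟨s - s * (T * s + s * T - 1),
      MSup2.sub h1 (h1.mul h2 le_rfl (by omega) rfl fun _ _ _ _ _ => trivial), ?_⟩
    have e1 : T * (s - s * (T * s + s * T - 1)) + (s - s * (T * s + s * T - 1)) * T - 1 =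
        -((T * s + s * T - 1) * (T * s + s * T - 1)) + (s * (T * T) * s - s * s * (T * T)) := by
      noncomm_ring
    rw [e1, hT, mul_zero, mul_zero, zero_mul, sub_zero, add_zero]
    exact MSup2.neg (h2.mul h2 le_rfl (by omega) rfl fun _ _ _ _ _ => trivial)

end Pool.Agent.MP_f7db47_al.TW
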