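import Pool.Agent.MP_f7db47_al.KN.XD
import Pool.Agent.MP_f7db47_al.GN.NCar
import Pool.Agent.MP_f7db47_al.GF.FTr2

/-!
The tower of boxes.
-/

namespace Pool.Agent.MP_f7db47_al.KN

open GN GN.Pl

variable {G : Type} [Group G] {bl : Bl G} {C : ℕ} {P : Pl} {n : ℕ}

/-- All members of `τ` lie in the box around `σ`, with a common shift. -/
def XG1_R (bl : Bl G) (m e : ℕ) (c : ℤ) (g : G) (τ σ : Finset (G → ℤ)) : Prop :=
  ∃ δ : ℤ, ∀ x ∈ τ, ∀ s ∈ bl.B (m - e), g⁻¹ * s ∈ bl.B (m - e) →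
    (∃ η ∈ σ, η (g⁻¹ * s) ≤ x s + δ) ∧ ∃ η ∈ σ, x s + δ ≤ η (g⁻¹ * s) + c

theorem XG1_face {m e : ℕ} {τ σ : Finset (G → ℤ)} (h : τ ⊆ σ) : XG1_R bl m e 0 1 τ σ :=
  ⟨0, fun x hx s _ _ => ⟨⟨x, h hx, by simp⟩, x, h hx, by simp⟩⟩

theorem XG1_mono {m e e' : ℕ} {c c' : ℤ} {g : G} {τ σ : Finset (G → ℤ)} (he : e ≤ e')
    (hc : c ≤ c') (h : XG1_R bl m e c g τ σ) : XG1_R bl m e' c' g τ σ := by
  obtain ⟨δ, h⟩ := h
  have h3 : m - e' ≤ m - e := by omega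
  refine ⟨δ, fun x hx s s1 s2 => ?_⟩
  obtain ⟨h1, η, b1, b2⟩ := h x hx s (bl.mono h3 s1) (bl.mono h3 s2)
  exact ⟨h1, η, b1, by omega⟩

theorem XG1_comp {m e e' : ℕ} {c c' : ℤ} {g g' : G} {τ σ ρ : Finset (G → ℤ)} (he : e + e' ≤ m)
    (hg : g ∈ bl.B e) (hg' : g' ∈ bl.B e') (h : XG1_R bl m e c g τ σ)
    (h' : XG1_R bl m e' c' g' σ ρ) : XG1_R bl m (e + e') (c + c') (g * g') τ ρ := by
  obtain ⟨δ, h⟩ := h
  obtain ⟨δ', h'⟩ := h'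
  refine ⟨δ + δ', fun x hx s s1 s2 => ?_⟩
  have e1 : g'⁻¹ * (g⁻¹ * s) = (g * g')⁻¹ * s := by group
  have e2 : g⁻¹ * s = g' * ((g * g')⁻¹ * s) := by group
  obtain ⟨⟨η₁, d1, d2⟩, η₂, d3, d4⟩ := h x hx s (bl.mono (by omega) s1)
    (e2 ▸ bl.mono (by omega) (bl.mul hg' s2))
  have s3 : g⁻¹ * s ∈ bl.B (m - e') := bl.mono (by omega) (bl.mul (bl.inv hg) s1)
  have s4 : g'⁻¹ * (g⁻¹ * s) ∈ bl.B (m - e') := e1 ▸ bl.mono (by omega) s2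
  obtain ⟨⟨η₃, d5, d6⟩, -⟩ := h' η₁ d1 _ s3 s4
  obtain ⟨-, η₄, d7, d8⟩ := h' η₂ d3 _ s3 s4
  rw [e1] at d6 d8
  exact ⟨⟨η₃, d5, by omega⟩, η₄, d7, by omega⟩

theorem XG1_sub {m e : ℕ} {c : ℤ} {g : G} {K τ σ : Finset (G → ℤ)} (hK : τ ⊆ K)
    (h : XG1_R bl m e c g τ σ) : τ ⊆ NCar_Box bl m K g e c σ := by
  obtain ⟨δ, h⟩ := h
  exact fun x hx => NCar_mem_Box.2 ⟨hK hx, δ, fun s hs =>
    h x hx s (NCar_mem_Fx.1 hs).1 (NCar_mem_Fx.1 hs).2⟩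

theorem XG1_clq (a : Ac G bl C P n) {q m e : ℕ} (hq : 0 < q) {W : P.S n} {c : ℤ} {g : G}
    {ρ σ : Finset (G → ℤ)} (h : Clq (AdjT (bl.B m)) (NCar_Box bl m (a.Kv q W m) g e c σ) ρ)
    (hne : ρ.Nonempty) : XG1_R bl m e (c + 1) g ρ σ := by
  obtain ⟨η₀, c1, c2⟩ := NCar_least a hq ⟨h.1.trans NCar_Box_sub, h.2⟩ hne
  obtain ⟨-, δ, c3⟩ := NCar_mem_Box.1 (h.1 c1)
  refine ⟨δ, fun x hx s s1 s2 => ?_⟩
  obtain ⟨⟨η₁, d1, d2⟩, η₂, d3, d4⟩ := c3 s (NCar_mem_Fx.2 ⟨s1, s2⟩)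
  have f1 := c2 x hx s (bl.mono (Nat.sub_le _ _) s1)
  exact ⟨⟨η₁, d1, by omega⟩, η₂, d3, by omega⟩

theorem XG1_contr {V : Type} [LinearOrder V] {Adj : V → V → Prop} {K : Finset V}
    (h : Acyc Adj K) : ∃ s : Finset V → (Finset V →₀ ℤ), ∀ σ, Clq Adj K σ →
      Ch Adj K (σ.card + 1) (s σ) ∧ bd (s σ) + lin s (bd1 σ) = Finsupp.single σ 1 := by
  obtain ⟨o, s, ⟨h1, h2⟩, h3⟩ := GF.FTr2_contr h
  refine ⟨s, fun σ hσ => ?_⟩
  rcases σ.eq_empty_or_nonempty with rfl | hne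
  · rw [h2]
    refine ⟨CExt_ch_single ⟨Finset.singleton_subset_iff.2 h1, by simp⟩ rfl, ?_⟩
    rw [CExt_bd_single, CExt_bd1_empty, map_zero, add_zero]
    simp [bd1, Finset.filter_singleton]
  · exact h3 σ hσ hne

theorem tow_gn (a : Ac G bl C P n) (o : LinearOrder (G → ℤ)) {J : Type} (F : GN.FR G J)
    (hF : F.Good bl) (h : J → ℕ) (W : J → P.S n) {q m U k : ℕ} (hq : 0 < q) (hk : 0 < k)
    (hl : ∀ {t x g y}, F.rel t x g y → h y ≤ h x + t) (hm : ∀ x, 2 * h x ≤ m) (hU : m ≤ U)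
    (hW : ∀ x, 0 < h x → W x ≠ ⊥)
    (htr : ∀ {t x g y}, F.rel t x g y → t < h x → t < h y → ∃ u, a.Tr U g (W x) (W y) u) :
    ∃ F' : GN.FR G (J × Finset (G → ℤ)),
      @Tow G J (G → ℤ) _ o F' (fun j => a.Kn q m (h j) (W j)) (fun _ => AdjT (bl.B m)) (n + 1) ∧
      (∀ i g j, F.rel k i g j → F'.rel 1 (i, ∅) g (j, ∅)) ∧
      ∀ t i τ g j σ x y, F'.rel t (i, τ) g (j, σ) →
        Clq (AdjT (bl.B m)) (a.Kn q m (h j) (W j)) σ → x ∈ τ → y ∈ σ →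
        F.rel ((t + 1) * k) i g j ∧ ((t + 1) * k < h i → (t + 1) * k < h j →
          ∃ δ, HC bl m ((t + 1) * k) g x y δ) := by
  have hac : ∀ j, @Acyc (G → ℤ) o (AdjT (bl.B m)) (a.Kn q m (h j) (W j)) := fun j =>
    @Dism.acyc _ o _ (adjT_symm _) _ (NCar_dism_Kn a hq (hW j))
  have h0 : ∀ j, F.rel (0 * k) j 1 j := fun j => F.mono (Nat.zero_le _) (F.refl j)
  refine ⟨⟨fun t x g y => F.rel (t * k) x.1 g y.1 ∧
    (t * k < h x.1 → t * k < h y.1 → XG1_R bl m (t * k) t g x.2 y.2),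
    fun x => ⟨h0 _, fun _ _ => XG1_face subset_rfl⟩, fun {t t' x g y} ht h1 => ?_,
    fun {t t' x g y g' z} h1 h2 => ?_⟩, ?_, fun i g j h1 => ?_,
    fun t i τ g j σ x y h1 h2 hx hy => ?_⟩
  · have e := Nat.mul_le_mul_right k ht
    exact ⟨F.mono e h1.1, fun a1 a2 => XG1_mono e (by exact_mod_cast ht)
      (h1.2 (by omega) (by omega))⟩
  · rw [add_mul, Nat.cast_add]
    refine ⟨F.comp h1.1 h2.1, fun a1 a2 => ?_⟩
    have b1 := hl (hF.symm h1.1)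
    have b2 := hl h2.1
    have b3 := hm x.1
    exact XG1_comp (by omega) (hF.ball h1.1) (hF.ball h2.1) (h1.2 (by omega) (by omega))
      (h2.2 (by omega) (by omega))
  · refine @Tow.mk G J (G → ℤ) _ o _ _ _ _ (fun j σ h1 => ?_) hac
      (fun j σ τ h1 => ⟨h0 _, fun _ _ => XG1_face h1⟩) fun t i g j σ h2 h3 => ?_
    · by_cases h0 : 0 < h j
      · rw [NCar_Kn a _ h0] at h1
        exact (a.clq_card hq h1).trans (Nat.le_succ n)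
      · have h2 := h1.1
        rw [Ac.Kn, if_neg h0] at h2
        exact (Finset.card_le_card h2).trans (by simp)
    · have e : (t + 1) * k = t * k + k := Nat.succ_mul t k
      by_cases h4 : F.rel (t * k) i g j ∧ t * k < h i ∧ t * k < h j
      · obtain ⟨h1, a1, a2⟩ := h4
        obtain ⟨u, hu⟩ := htr h1 a1 a2
        have h5 := hm i
        rw [NCar_Kn a _ (by omega)] at h2 ⊢
        obtain ⟨s, hs⟩ := @XG1_contr _ o _ _ (@Dism.acyc _ o _ (adjT_symm _) _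
          (NCar_dism_box a hq hU (hW i (by omega)) hu (e := t * k)
            (bl.mono (by omega) (hF.ball h1)) h2.1 h3 (Int.natCast_nonneg t)))
        refine ⟨s, fun τ c1 c2 => ?_⟩
        obtain ⟨c3, c4⟩ := hs τ ⟨XG1_sub c1.1 (c2.2 a1 a2), c1.2⟩
        refine ⟨fun ρ hρ => ?_, c4⟩
        obtain ⟨c5, c6⟩ := c3 ρ hρ
        have c7 : ρ.Nonempty := Finset.card_pos.1 (by omega)
        exact ⟨⟨c5.1.trans NCar_Box_sub, c5.2⟩, c6, F.mono (by omega) h1, fun _ _ =>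
          XG1_mono (by omega) (by push_cast; rfl) (XG1_clq a hq c5 c7)⟩
      · obtain ⟨s, hs⟩ := @XG1_contr _ o _ _ (hac i)
        refine ⟨s, fun τ c1 c2 => ⟨fun ρ hρ => ?_, (hs τ c1).2⟩⟩
        obtain ⟨c5, c6⟩ := (hs τ c1).1 ρ hρ
        exact ⟨c5, c6, F.mono (by omega) c2.1, fun a1 a2 =>
          absurd ⟨c2.1, lt_of_le_of_lt (by omega) a1, lt_of_le_of_lt (by omega) a2⟩ h4⟩
  · exact ⟨F.mono (one_mul k).ge h1, fun _ _ => ⟨0, fun x hx => absurd hx (by simp)⟩⟩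
  · have e : (t + 1) * k = t * k + k := Nat.succ_mul t k
    have e2 : t + 1 ≤ (t + 1) * k := Nat.le_mul_of_pos_right _ hk
    refine ⟨F.mono (by omega) h1.1, fun a1 a2 => ?_⟩
    rw [NCar_Kn a _ (by omega)] at h2
    obtain ⟨η₀, -, c2⟩ := NCar_least a hq h2 ⟨y, hy⟩
    obtain ⟨δ, x2⟩ := XG1_mono (e' := (t + 1) * k) (by omega) le_rfl
      (h1.2 (lt_of_le_of_lt (by omega) a1) (lt_of_le_of_lt (by omega) a2))
    refine ⟨-δ, fun s s1 s2 => ?_⟩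
    obtain ⟨⟨η₁, d1, d2⟩, η₂, d3, d4⟩ := x2 x hx s s1 s2
    have s3 := bl.mono (Nat.sub_le _ _) s2
    have f1 := c2 η₁ d1 _ s3
    have f2 := c2 η₂ d3 _ s3
    have f3 := c2 y hy _ s3
    rw [abs_le]
    generalize (t + 1) * k = r at e2 ⊢
    omega

end Pool.Agent.MP_f7db47_al.KN
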