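import Pool.Agent.MP_f7db47_al.KN.XB
import Pool.Agent.MP_f7db47_al.KN.XG1
import Pool.Agent.MP_f7db47_al.GN.CMain

/-!
The transfer of complexes along a tower of carriers.
-/

namespace Pool.Agent.MP_f7db47_al.TW

open Matrix GN KN

universe v

section Cells

variable {J W : Type} [Fintype J] [DecidableEq J] [LinearOrder W] (K : J → Finset W)
  (Adj : J → W → W → Prop)

/-- All cliques, the empty ones first. -/
def XC_cel : J ⊕ CMainP K Adj → J × Finset W := Sum.elim (fun j => (j, ∅)) Subtype.val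

variable {K Adj}

theorem XC_clq (x : J ⊕ CMainP K Adj) :
    Clq (Adj (XC_cel K Adj x).1) (K (XC_cel K Adj x).1) (XC_cel K Adj x).2 := by
  rcases x with j | x
  · exact ⟨Finset.empty_subset _, fun _ h => absurd h (Finset.notMem_empty _)⟩
  · exact (CMain_P x).1

theorem XC_inj : Function.Injective (XC_cel K Adj) := by
  rintro (i | x) (j | y) h
  · exact congrArg Sum.inl (congrArg Prod.fst h)
  · exact absurd (congrArg Prod.snd h).symm (CMain_P y).2.ne_empty
  · exact absurd (congrArg Prod.snd h) (CMain_P x).2.ne_empty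
  · exact congrArg Sum.inr (Subtype.ext h)

theorem XC_mul (c c' : J → Finset W → (Finset W →₀ ℤ)) (x y : J ⊕ CMainP K Adj)
    (h : ∀ σ, c' (XC_cel K Adj y).1 (XC_cel K Adj y).2 σ ≠ 0 →
      Clq (Adj (XC_cel K Adj y).1) (K (XC_cel K Adj y).1) σ) :
    (CMainB ℤ (XC_cel K Adj) (XC_cel K Adj) c * CMainB ℤ (XC_cel K Adj) (XC_cel K Adj) c') x y =
      CMainB ℤ (XC_cel K Adj) (XC_cel K Adj) (fun j σ => lin (c j) (c' j σ)) x y := by
  classical
  have h0 : ∀ j, (∅ : Finset W) ∉ CMainS (Adj j) (K j) := fun j h1 => by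
    simpa using (CMain_mem_S.1 h1).2
  have hq : CMainSum ℤ (XC_cel K Adj) fun j => insert ∅ (CMainS (Adj j) (K j)) := fun F => by
    rw [Fintype.sum_sum_type]
    simp only [Finset.sum_insert (h0 _), Finset.sum_add_distrib]
    exact congrArg _ (CMain_sum_P ℤ F)
  rw [CMainB_mul_B hq]
  simp only [CMainB, Matrix.sum_apply, CMainE]
  refine Finset.sum_congr rfl fun j _ => ?_
  split_ifs with h1
  · obtain ⟨-, rfl⟩ := h1
    have h2 := CMain_C (c (XC_cel K Adj y).1) _ _ h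
    rw [eq_sub_iff_add_eq'] at h2
    rw [← h2, CMainC, CMainC, Finset.sum_insert (h0 _)]
  · rfl

theorem XC_htpy (s : J → Finset W → (Finset W →₀ ℤ)) (x : J ⊕ CMainP K Adj)
    (h1 : ∀ σ, s (XC_cel K Adj x).1 (XC_cel K Adj x).2 σ ≠ 0 →
      Clq (Adj (XC_cel K Adj x).1) (K (XC_cel K Adj x).1) σ)
    (h2 : bd (s (XC_cel K Adj x).1 (XC_cel K Adj x).2) + lin (s (XC_cel K Adj x).1)
      (bd1 (XC_cel K Adj x).2) = Finsupp.single (XC_cel K Adj x).2 1) (z : J ⊕ CMainP K Adj) :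
    ((CMainB ℤ (XC_cel K Adj) (XC_cel K Adj) fun _ => bd1) *
      CMainB ℤ (XC_cel K Adj) (XC_cel K Adj) s + CMainB ℤ (XC_cel K Adj) (XC_cel K Adj) s *
      CMainB ℤ (XC_cel K Adj) (XC_cel K Adj) fun _ => bd1) z x = (1 : Matrix _ _ ℤ) z x := by
  rw [Matrix.add_apply, XC_mul _ _ _ _ h1,
    XC_mul _ _ _ _ fun σ hσ => CMain_clq_sub (XC_clq x) (CMain_bd1 hσ).1, ← Matrix.add_apply,
    CMainB_add, ← CMainB_one (A := ℤ) XC_inj]
  simp only [CMainB, Matrix.sum_apply, CMainE]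
  refine Finset.sum_congr rfl fun j _ => ?_
  split_ifs with h3
  · obtain ⟨-, rfl⟩ := h3
    rw [← h2]
    rfl
  · rfl

end Cells

variable {G Λ W : Type} [Group G] [LinearOrder W] {F : GN.FR G (Λ × Finset W)} {K : Λ → Finset W}
  {Adj : Λ → W → W → Prop} {n : ℕ} {J : Type} [Fintype J] [DecidableEq J]

theorem XC_cx (hT : Tow F K Adj n) (l : J → Λ) (deg : J → ℤ) :
    XCx (F.pull fun x => Prod.map l id (XC_cel (fun j => K (l j)) (fun j => Adj (l j)) x))
      (fun x => deg (XC_cel _ _ x).1) (fun x => (XC_cel _ _ x).2.card)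
      (CMainB ℤ (XC_cel _ _) (XC_cel _ _) fun _ => bd1) n where
  dd := by
    ext x y
    rw [XC_mul _ (fun _ => bd1) _ _ fun σ hσ => CMain_clq_sub (XC_clq y) (CMain_bd1 hσ).1,
      ← CMainB_zero (p := XC_cel _ _) (q := XC_cel _ _)]
    refine congrFun (congrFun (CMainB_congr fun j x y _ _ => ?_) x) y
    rw [← CMain_bd_single]
    exact congrArg (fun c : Finset W →₀ ℤ => c _) (bd_bd _)
  sup := CMainZ_B fun j x y h1 h2 h3 => by
    obtain ⟨h4, h5⟩ := CMain_bd1 h3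
    refine ⟨?_, by rw [h1, h2], h5⟩
    have h6 := hT.face (l j) _ _ h4
    nth_rewrite 1 [← h1] at h6
    rw [← h2] at h6
    exact h6
  dim x := hT.dim _ _ (XC_clq x)
  fill t y g hy := by
    choose s hs using fun j => hT.fill t (l j) g _ _ (XC_clq y)
      (Finset.card_pos.1 (Nat.pos_of_ne_zero hy))
    refine ⟨CMainB ℤ (XC_cel _ _) (XC_cel _ _) s, fun x hx => ?_⟩
    obtain ⟨h1, h2⟩ := hs _ _ (XC_clq x) hx
    refine ⟨fun z hz => ?_, XC_htpy s x (fun σ hσ => (h1 σ hσ).1) h2⟩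
    obtain ⟨h3, h4⟩ := CMainZ_B (Q := fun z x => (XC_cel _ _ z).1 = (XC_cel _ _ x).1 ∧
      s (XC_cel _ _ x).1 (XC_cel _ _ x).2 (XC_cel _ _ z).2 ≠ 0)
      (fun j z x a1 a2 a3 => ⟨a1.trans a2.symm, a2 ▸ a3⟩) z x hz
    obtain ⟨-, h5, h6⟩ := h1 _ h4
    refine ⟨?_, by rw [h3], h5⟩
    rw [← h3] at h6
    exact h6

variable {R : Type v} [Ring R] [MulSemiringAction G R]

omit [Group G] [Fintype J] [DecidableEq J] [MulSemiringAction G R] in
theorem XC_blocks {I : Type} {X : Matrix (J ⊕ I) (J ⊕ I) (SkewMonoidAlgebra R G)}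
    (h1 : ∀ i y, X (Sum.inl i) y = 0) (h2 : ∀ x j, X x (Sum.inl j) = 0) :
    X = fromBlocks 0 0 0 X.toBlocks₂₂ := by
  ext1 (x | x) (y | y)
  · exact h1 _ _
  · exact h1 _ _
  · exact h2 _ _
  · rfl

theorem transferN (n : ℕ) : ∃ c : ℕ, ∀ (R : Type v) [Ring R] (G : Type) [Group G]
    [MulSemiringAction G R] (Λ W : Type) [LinearOrder W] (F : GN.FR G (Λ × Finset W))
    (K : Λ → Finset W) (Adj : Λ → W → W → Prop), Tow F K Adj n →
    ∀ (J : Type) [Fintype J] [DecidableEq J] (l : J → Λ) (deg : J → ℤ)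
      (D : Matrix J J (SkewMonoidAlgebra R G)), D * D = 0 →
      MSup2 (fun i j => {g | F.rel 1 (l i, ∅) g (l j, ∅) ∧ deg i = deg j + -1}) D →
      ∃ (J' : Type) (_ : Fintype J') (_ : DecidableEq J') (l' : J' → Cel K Adj) (deg' : J' → ℤ)
        (D' : Matrix J' J' (SkewMonoidAlgebra R G)) (ε : Matrix J J' (SkewMonoidAlgebra R G))
        (s : Matrix (J ⊕ J') (J ⊕ J') (SkewMonoidAlgebra R G)),
        (∀ x, ∃ j, deg j ≤ deg' x ∧ deg' x ≤ deg j + n) ∧
        MSup2 (fun x y => {g | F.rel c (l' x).1 g (l' y).1 ∧ deg' x = deg' y + -1}) D' ∧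
        MSup2 (fun i y => {_g | deg i = deg' y + -1}) ε ∧
        MSup2 (fun x y => {_g | Sum.elim deg deg' x = Sum.elim deg deg' y + 1}) s ∧
        D' * D' = 0 ∧ D * ε + ε * D' = 0 ∧
        fromBlocks D ε 0 D' * s + s * fromBlocks D ε 0 D' = 1 ∧
        ∀ (w : SkewMonoidAlgebra R G) (h : Matrix J J (SkewMonoidAlgebra R G)),
          (∀ x, w * x = x * w) → Sup {1} w →
          MSup2 (fun i j => {g | F.rel 1 (l i, ∅) g (l j, ∅) ∧ deg i = deg j + 1}) h →
          D * h + h * D = w • 1 → ∃ h' : Matrix J' J' (SkewMonoidAlgebra R G),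
            MSup2 (fun x y => {g | F.rel c (l' x).1 g (l' y).1 ∧ deg' x = deg' y + 1}) h' ∧
            D' * h' + h' * D' = w • 1 := by
  refine ⟨1 + (n + 2) * (n + XB_lv n (n + 2)), ?_⟩
  intro R _ G _ _ Λ W _ F K Adj hT J _ _ l deg D hDD hD
  have hC := XC_cx hT l deg
  choose s₀ hs₀ using fun j => XG1_contr (hT.acyc (l j))
  have hs1 := fun z x => XC_htpy (K := fun j => K (l j)) (Adj := fun j => Adj (l j)) s₀ x (fun σ hσ => ((hs₀ _ _ (XC_clq x)).1 σ hσ).1)
    (hs₀ _ _ (XC_clq x)).2 z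
  have hs2 := CMainZ_B (A := ℤ) (p := XC_cel (fun j => K (l j)) fun j => Adj (l j))
    (q := XC_cel (fun j => K (l j)) fun j => Adj (l j)) (c := s₀)
    (Q := fun z x => deg (XC_cel _ _ z).1 = deg (XC_cel _ _ x).1 ∧
      (XC_cel _ _ z).2.card = (XC_cel _ _ x).2.card + 1) fun j z x a1 a2 a3 =>
      ⟨by rw [a1, a2], ((hs₀ _ _ (XC_clq x)).1 _ (a2 ▸ a3)).2⟩
  generalize CMainB ℤ (XC_cel (fun j => K (l j)) fun j => Adj (l j)) (XC_cel _ _) s₀ = s₁
    at hs1 hs2
  generalize (CMainB ℤ (XC_cel (fun j => K (l j)) fun j => Adj (l j)) (XC_cel _ _)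
    fun _ => bd1) = d at hC hs1
  set F' := F.pull fun x => Prod.map l id (XC_cel (fun j => K (l j)) (fun j => Adj (l j)) x)
  set β := fun x => deg (XC_cel (fun j => K (l j)) (fun j => Adj (l j)) x).1
  set f := fun x => (XC_cel (fun j => K (l j)) (fun j => Adj (l j)) x).2.card
  replace hs2 : ∀ z x, s₁ z x ≠ 0 → β z = β x ∧ f z = f x + 1 := hs2
  have hb : ∀ (b : ℤ) (M : Matrix J J (SkewMonoidAlgebra R G)),
      MSup2 (fun i j => {g | F.rel 1 (l i, ∅) g (l j, ∅) ∧ deg i = deg j + b}) M →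
      Fi F' β f (fun x y => f x = 0 ∧ f y = 0) 1 b b (fromBlocks M 0 0 0) := by
    rintro b M hM (x | x) (y | y)
    · exact (hM x y).mono fun g hg => ⟨⟨hg.1, hg.2.le, by
        change deg x + ((0 : ℕ) : ℤ) = deg y + ((0 : ℕ) : ℤ) + b
        have := hg.2
        omega⟩, rfl, rfl⟩
    all_goals exact sup_zero _
  have hz : ∀ {t b e} {X : Matrix _ _ (SkewMonoidAlgebra R G)},
      Fi F' β f (fun x y => f x ≠ 0 ∧ f y ≠ 0) t b e X → X = fromBlocks 0 0 0 X.toBlocks₂₂ :=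
    fun hX => XC_blocks (fun i y => (hX _ _).eq_zero (sup_univ _) fun _ hg _ => hg.2.1 rfl)
      fun x j => (hX _ _).eq_zero (sup_univ _) fun _ hg _ => hg.2.2 rfl
  have hD0 := hb _ D hD
  obtain ⟨X, hX, hTT⟩ := hC.diff hD0 (by simp [fromBlocks_multiply, hDD]) (n + 2)
  replace hTT := hTT.eq_zero hC.dim (by omega)
  have h0 := XB_one n (n + 2)
  have hN : Fi F' β f (fun x y => f y = 0 → f x = 0) (XB_lv n (n + 2)) (-1) (-1)
      (fromBlocks D 0 0 0 + X) :=
    MSup2.add (hD0.mono h0 le_rfl fun _ _ a _ => a.1)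
      (hX.mono le_rfl le_rfl fun _ _ a a' => absurd a' a.2)
  have hc : XB_lv n (n + 2) ≤ 1 + (n + 2) * (n + XB_lv n (n + 2)) := by nlinarith
  have hTc : Fi F' β f (fun _ _ => True) (1 + (n + 2) * (n + XB_lv n (n + 2))) 0 (-1)
      (zm R G d + (fromBlocks D 0 0 0 + X)) :=
    MSup2.add (hC.fi.mono (Nat.zero_le _) le_rfl fun _ _ _ => trivial)
      (hN.mono hc (by omega) fun _ _ _ => trivial)
  obtain ⟨s, hs3, hs4⟩ := XB_contr (β := β) (f := f)
    (F := ⟨fun _ _ _ _ => True, fun _ => trivial, fun _ _ => trivial, fun _ _ => trivial⟩)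
    (s₀ := zm R G s₁) hTT (zm_sup fun x y a => ⟨⟨trivial, by have := (hs2 x y a).1; omega,
      by have := hs2 x y a; omega⟩, trivial⟩) (by
      have e1 : zm R G d * zm R G s₁ + zm R G s₁ * zm R G d = 1 := by
        rw [zm, zm, ← map_mul, ← map_mul, ← map_add, Matrix.ext hs1]
        exact RingHom.map_one _
      rw [add_mul, mul_add, add_add_add_comm, e1, add_sub_cancel_left]
      exact MSup2.add
        (MSup2.mul hN (zm_sup (S := fun x y => {_g | β x = β y ∧ f x = f y + 1}) hs2)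
          fun x y z _ a _ a' => ⟨⟨trivial, by have := a.1.2.1; have := a'.1; omega,
            by have := a.1.2.2; have := a'.1; have := a'.2; omega⟩, trivial⟩)
        (MSup2.mul (zm_sup (S := fun x y => {_g | β x = β y ∧ f x = f y + 1}) hs2) hN
          fun x y z _ a' _ a => ⟨⟨trivial, by have := a.1.2.1; have := a'.1; omega,
            by have := a.1.2.2; have := a'.1; have := a'.2; omega⟩, trivial⟩)) n
  replace hs4 := sub_eq_zero.1 (hs4.eq_zero hC.dim (by omega))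
  have hd0 : ∀ x j, zm R G d x (Sum.inl j) = 0 := fun x j =>
    (hC.fi _ _).eq_zero (sup_univ _) fun _ hg _ => hg.2 rfl
  obtain ⟨T, hT'⟩ : ∃ T, T = zm R G d + (fromBlocks D 0 0 0 + X) := ⟨_, rfl⟩
  have hTb : T = fromBlocks D T.toBlocks₁₂ 0 T.toBlocks₂₂ := by
    ext1 (x | x) (y | y)
    · rw [hT', hz hX]
      simp [hd0]
    · rfl
    · rw [hT', hz hX]
      simp [hd0]
    · rfl
  have hTT' := hTT
  rw [← hT', hTb, fromBlocks_multiply, ← fromBlocks_zero, fromBlocks_inj] at hTT'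
  have hdg : ∀ x, Sum.elim deg (fun x => β (Sum.inr x) + f (Sum.inr x)) x = β x + f x := by
    rintro (x | x)
    · exact (add_zero _).symm
    · rfl
  refine ⟨CMainP (fun j => K (l j)) fun j => Adj (l j), inferInstance, inferInstance,
    fun x => ⟨(l x.1.1, x.1.2), CMain_P x⟩, fun x => β (Sum.inr x) + f (Sum.inr x),
    T.toBlocks₂₂, T.toBlocks₁₂, s, fun x => ⟨x.1.1, ?_, ?_⟩, fun x y => ?_, fun x y => ?_,
    fun x y => (hs3 x y).mono fun g hg => ?_, by simpa using hTT'.2.2.2, hTT'.2.1,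
    by rw [← hTb, hT', hs4], fun w h hw hw1 hh hDh => ?_⟩
  · exact le_add_of_nonneg_right (Int.natCast_nonneg _)
  · exact add_le_add le_rfl (Int.ofNat_le.2 (hC.dim _))
  · exact ((hT' ▸ hTc) (Sum.inr x) (Sum.inr y)).mono fun g hg => ⟨hg.1.1, hg.1.2.2⟩
  · exact ((hT' ▸ hTc) (Sum.inl x) (Sum.inr y)).mono fun g hg =>
      (hdg (Sum.inl x)).trans hg.1.2.2
  · change _ = _
    rw [hdg, hdg]
    exact hg.1.2.2
  have hH := hb _ h hh
  obtain ⟨Y, hY, hE⟩ := hC.htpy (H := fromBlocks h 0 0 0) (W := w • 1) hN hTT (by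
      ext1 x y
      rw [smul_one_eq_diagonal, mul_diagonal, diagonal_mul, hw]) (by
      have e1 : fromBlocks D 0 0 0 * fromBlocks h 0 0 0 + fromBlocks h 0 0 0 * fromBlocks D 0 0 0 +
          fromBlocks 0 0 0 (w • 1) = w • (1 : Matrix (J ⊕ CMainP (fun j => K (l j))
            fun j => Adj (l j)) (J ⊕ CMainP (fun j => K (l j)) fun j => Adj (l j))
            (SkewMonoidAlgebra R G)) := by
        rw [← fromBlocks_one, fromBlocks_smul]
        simp [fromBlocks_multiply, fromBlocks_add, hDh]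
      rw [add_mul, add_mul, mul_add, mul_add, XB_zero hC.fi hH fun _ _ _ a a' => a a'.1,
        XB_zero hX hH fun _ _ _ a a' => a.2 a'.1, XB_zero hH hX fun _ _ _ a a' => a'.1 a.2, ← e1]
      have e2 : ∀ a b c e : Matrix (J ⊕ CMainP (fun j => K (l j)) fun j => Adj (l j))
          (J ⊕ CMainP (fun j => K (l j)) fun j => Adj (l j)) (SkewMonoidAlgebra R G),
          0 + (a + 0) + (b + (c + 0)) - (a + c + e) = b - e := fun _ _ _ _ => by abel
      rw [e2]
      refine MSup2.sub (hH.mul hC.fi le_rfl le_rfl rfl fun _ _ _ _ a => a) ?_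
      rintro (x | x) (y | y)
      iterate 3 exact sup_zero _
      by_cases e3 : x = y
      · subst e3
        simp only [fromBlocks_apply₂₂, Matrix.smul_apply, Matrix.one_apply_eq, smul_eq_mul, mul_one]
        refine hw1.mono fun g hg => ?_
        obtain rfl : g = 1 := hg
        exact ⟨⟨F'.mono zero_le_one (F'.refl _), by omega, by omega⟩,
          (CMain_P x).2.card_pos.ne'⟩
      · simp only [fromBlocks_apply₂₂, Matrix.smul_apply, Matrix.one_apply_ne e3, smul_zero]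
        exact sup_zero _) (n + 2)
  replace hE := sub_eq_zero.1 (hE.eq_zero hC.dim (by omega))
  refine ⟨Y.toBlocks₂₂, fun x y => (hY (Sum.inr x) (Sum.inr y)).mono fun g hg =>
    ⟨hg.1.1, hg.1.2.2⟩, ?_⟩
  rw [← hT', hTb, hz hY, fromBlocks_add, fromBlocks_multiply, fromBlocks_multiply, fromBlocks_add,
    ← fromBlocks_one, fromBlocks_smul, fromBlocks_inj] at hE
  simpa using hE.2.2.2

end Pool.Agent.MP_f7db47_al.TW
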