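import Pool.Agent.MP_f7db47_al.VC.DV
import Pool.Agent.MP_f7db47_al.GZ.WD

/-!
Transfers in all degrees: definitions.
-/

namespace Pool.Agent.MP_f7db47_al.KN

open GN GF

/-- The nonempty cliques. -/
def Cel {Λ V : Type} (K : Λ → Finset V) (Adj : Λ → V → V → Prop) : Type :=
  {x : Λ × Finset V // Clq (Adj x.1) (K x.1) x.2 ∧ x.2.Nonempty}

/-- A tower of carriers: cycles of level `t` bound in level `t + 1`. -/
structure Tow {G Λ V : Type} [Group G] [LinearOrder V] (F : GN.FR G (Λ × Finset V))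
    (K : Λ → Finset V) (Adj : Λ → V → V → Prop) (n : ℕ) : Prop where
  dim : ∀ a σ, Clq (Adj a) (K a) σ → σ.card ≤ n
  acyc : ∀ a, Acyc (Adj a) (K a)
  face : ∀ a σ τ, τ ⊆ σ → F.rel 0 (a, τ) 1 (a, σ)
  fill : ∀ t a g b σ, Clq (Adj b) (K b) σ → σ.Nonempty →
    ∃ s : Finset V → (Finset V →₀ ℤ), ∀ τ, Clq (Adj a) (K a) τ → F.rel t (a, τ) g (b, σ) →
      (∀ ρ, s τ ρ ≠ 0 → Clq (Adj a) (K a) ρ ∧ ρ.card = τ.card + 1 ∧
        F.rel (t + 1) (a, ρ) g (b, σ)) ∧ bd (s τ) + lin s (bd1 τ) = Finsupp.single τ 1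

/-- An abstract vanishing property. `V Λ r L` says that all objects with labels in `Λ`, control
`r` and length at most `L` are trivial. -/
structure VT (G : Type) [Group G] (Q : Subgroup G → Prop) where
  V : ∀ Λ : Type, (Λ → G → Λ → Prop) → ℕ → Prop
  pull : ∀ {Λ Λ' : Type} {r : Λ → G → Λ → Prop} {r' : Λ' → G → Λ' → Prop} {L L' : ℕ}
    (π : Λ' → Λ), (∀ a g b, r' a g b → r (π a) g (π b)) → L' ≤ L → V Λ r L → V Λ' r' L'
  tr : ∀ n : ℕ, ∃ c : ℕ, ∀ (Λ W : Type) [LinearOrder W] (F : GN.FR G (Λ × Finset W))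
    (K : Λ → Finset W) (Adj : Λ → W → W → Prop) (L : ℕ), Tow F K Adj n →
    V (Cel K Adj) (fun x g y => F.rel c x.1 g y.1) (L + n) →
    V Λ (fun a g b => F.rel 1 (a, ∅) g (b, ∅)) L
  van : ∀ N k L : ℕ, ∃ r : ℕ, ∀ (Λ ι : Type) [Fintype ι] (S : ι → Spi G Λ),
    Fintype.card ι ≤ N → (∀ i a, 0 < (S i).ht a → Q ((S i).leg.grp a)) →
    (∀ a, ∃ i, r ≤ (S i).ht a) → V Λ (fun a g b => ∀ i, (S i).rel k a g b) L
  swan : ∀ (S : Finset G) (L : ℕ), (∀ π : ℕ, π.Prime → ∃ (s : ℕ) (X₀ : Type) (_ : Finite X₀)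
    (σ₀ : G →* Equiv.Perm X₀) (X : Fin s → Type) (_ : ∀ i, Finite (X i))
    (σ : ∀ i, G →* Equiv.Perm (X i)), V X₀ (fun x g y => g ∈ S ∧ σ₀ g y = x) L ∧
    (∀ i, V (X i) (fun x g y => g ∈ S ∧ σ i g y = x) L) ∧ (∀ i, ¬ π ∣ Nat.card (X i)) ∧
    ∀ g, (∃! x, σ₀ g x = x) ∨ ∃ i, σ i g = 1) → V Unit (fun _ g _ => g ∈ S) L

/-- All objects are trivial. -/
def VT.All {G : Type} [Group G] {Q : Subgroup G → Prop} (T : VT G Q) : Prop :=
  ∀ (S : Finset G) (L : ℕ), T.V Unit (fun _ g _ => g ∈ S) L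

/-- Properties of groups over `G₀`. -/
abbrev Pp (G₀ : Type) [Group G₀] : Type 1 := ∀ (G : Type) [Group G], (G →* G₀) → Prop

variable {G₀ : Type} [Group G₀]

/-- The property for a subgroup. -/
abbrev Pp.on (Q : Pp G₀) {G : Type} [Group G] (i : G →* G₀) (H : Subgroup G) : Prop :=
  Q H (i.comp H.subtype)

/-- Passage to subgroups. -/
def Pp.Sub (Q : Pp G₀) : Prop :=
  ∀ {G H : Type} [Group G] [Group H] {i : H →* G₀} (f : G →* H), Function.Injective f →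
    Q H i → Q G (i.comp f)

/-- Passage from finitely generated subgroups. -/
def Pp.Loc (Q : Pp G₀) : Prop :=
  ∀ {G : Type} [Group G] {i : G →* G₀}, (∀ K : Subgroup G, K.FG → Q.on i K) → Q G i

/-- The statement on flow spaces. -/
def Pp.Flow (Q : Pp G₀) : Prop :=
  ∀ {Γ G : Type} [Group Γ] [Group G] {i : G →* G₀} {Fam : Set (Subgroup Γ)},
    HasPack Γ Fam → ∀ f : G →* Γ, (∀ (B : Subgroup Γ) (φ : B →* MZ),
      (∀ g, φ g = 1 → IsOfFinOrder g) → Q.on i (B.comap f)) →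
    (∀ B ∈ Fam, Q.on i (B.comap f)) → Q G i

/-- The statement on actions on lattices. -/
def Pp.Lat2 (Q : Pp G₀) : Prop :=
  ∀ {G : Type} [Group G] {i : G →* G₀} {ι : Type} [Fintype ι] (P : ι → Pl) (n : ℕ)
    (ρ : ∀ l, G →* (P l).A n) {F κ : Type} [Field F] [Fintype κ] [DecidableEq κ]
    (k : Subfield F) (f : G →* Matrix κ κ F),
    (∀ g : G, (∀ l, ∃ Y, Pl.Lat Y ∧ Pl.ac (ρ l g) Y = Y) → (f g).trace ∈ k) →
    (∀ H : Subgroup G, (∀ g ∈ ⁅H, H⁆, (f g).trace ∈ k) → Q.on i H) → Q G i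

/-- The statement of Farrell and Hsiang. -/
def Pp.Fh (Q : Pp G₀) : Prop :=
  Q PUnit.{1} 1 → ∀ (N : ℕ) (G : Type) [Group G] (i : G →* G₀),
    (∀ (r : ℕ) (S₀ : Finset G) (π : ℕ), π.Prime → VC.FHD (Q.on i) N r S₀ π) → Q G i

/-- The statement on abelian quotients. -/
def Pp.Abq (Q : Pp G₀) : Prop :=
  ∀ {G A : Type} [Group G] [CommGroup A] {i : G →* G₀}, (∀ q : A, IsOfFinOrder q → q = 1) →
    ∀ φ : G →* A, (∀ (H : Subgroup G) (ψ : H →* MZ), (∀ x : H, ψ x = 1 → φ x = 1) → Q.on i H) →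
    Q G i

/-- The statement on linear groups. -/
def Pp.Gl (Q : Pp G₀) : Prop :=
  ∀ {G A : Type} [Group G] [CommRing A] {i : G →* G₀} {n : ℕ} (f : G →* GL (Fin n) A),
    (∀ (H : Subgroup G) (φ : H →* MZ), (∀ g : H, φ g = 1 → QU (f g).val) → Q.on i H) → Q G i

/-- The property `Q` can be reduced to an abstract vanishing property when `Q₀` holds. -/
def Pp.Red (Q Q₀ : Pp G₀) : Prop :=
  Q PUnit.{1} 1 → ∀ (G : Type) [Group G] (i : G →* G₀), Q₀ G i →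
    (∀ (Δ : Type) [Group Δ] (p : Δ →* G),
      (∀ K : Subgroup G, Q.on i K → Q.on (i.comp p) (K.comap p)) →
      ∀ T : VT Δ (Q.on (i.comp p)), T.All) → Q G i

end Pool.Agent.MP_f7db47_al.KN
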