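import Pool.Agent.MP_f7db47_al.KN.XD
import Pool.Agent.MP_f7db47_al.GF.FChain
import Pool.Agent.MP_f7db47_al.GF.FTr2

/-!
Chain contractions along a family of homotopies.
-/

namespace Pool.Agent.MP_f7db47_al.KN

open GN GF

theorem XF1_uc {X : Type} [MetricSpace X] {D : Set X} (hc : IsCompact D) {H : X → ℝ → X → X}
    (hH : ContinuousOn (fun z : X × ℝ × X => H z.1 z.2.1 z.2.2) (D ×ˢ Set.Icc 0 1 ×ˢ D))
    {e : ℝ} (he : 0 < e) : ∃ d, (0 < d ∧ d ≤ e) ∧ ∀ p ∈ D, ∀ u ∈ Set.Icc (0 : ℝ) 1,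
      ∀ u' ∈ Set.Icc (0 : ℝ) 1, ∀ y ∈ D, ∀ y' ∈ D, |u - u'| ≤ d → dist y y' ≤ d →
        dist (H p u y) (H p u' y') ≤ e := by
  obtain ⟨δ, hδ, h⟩ := Metric.uniformContinuousOn_iff_le.1
    ((hc.prod (isCompact_Icc.prod hc)).uniformContinuousOn_of_continuous hH) e he
  refine ⟨min δ e, ⟨lt_min hδ he, min_le_right _ _⟩, fun p hp u hu u' hu' y hy y' hy' h1 h2 => ?_⟩
  refine h (p, u, y) ⟨hp, hu, hy⟩ (p, u', y') ⟨hp, hu', hy'⟩ ?_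
  exact max_le (by rw [dist_self]; exact hδ.le) ((max_le h1 h2).trans (min_le_left _ _))

theorem XF1_glue {V : Type} [LinearOrder V] {K B : Finset V} {Adj : V → V → Prop}
    {C : Finset V → Finset V} {ψ : Finset V → (Finset V →₀ ℤ)} (hB : Acyc Adj B)
    (hψ : FChain_Ap K Adj (fun _ => B) ψ)
    (hh : FChain_Hp K Adj C ψ fun σ => Finsupp.single σ 1) :
    ∃ s : Finset V → (Finset V →₀ ℤ), ∀ τ, Clq Adj K τ →
      (∀ ρ, s τ ρ ≠ 0 → ρ.card = τ.card + 1 ∧ (Clq Adj B ρ ∨ (τ.Nonempty ∧ Clq Adj (C τ) ρ))) ∧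
      bd (s τ) + lin s (bd1 τ) = Finsupp.single τ 1 := by
  obtain ⟨o, s0, ⟨ho, hs0⟩, hs⟩ := FTr2_contr hB
  obtain ⟨h, h0, hh⟩ := hh
  have hs' : ∀ σ, Clq Adj B σ → Ch Adj B (σ.card + 1) (s0 σ) ∧
      bd (s0 σ) = Finsupp.single σ 1 + (-1 : ℤ) • lin s0 (bd1 σ) := by
    intro σ hσ
    rcases σ.eq_empty_or_nonempty with rfl | hne
    · rw [hs0]
      refine ⟨CExt_ch_single ⟨Finset.singleton_subset_iff.2 ho, by simp⟩ rfl, ?_⟩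
      rw [CExt_bd_single, CExt_bd1_empty, map_zero, smul_zero, add_zero]
      simp [bd1, Finset.filter_singleton]
    · refine ⟨(hs σ hσ hne).1, ?_⟩
      rw [← (hs σ hσ hne).2, neg_one_smul, add_neg_cancel_right]
  have hψ' : ∀ τ, Clq Adj K τ → Ch Adj B τ.card (ψ τ) ∧ bd (ψ τ) = lin ψ (bd1 τ) := by
    intro τ hτ
    rcases τ.eq_empty_or_nonempty with rfl | hne
    · rw [hψ.1]
      refine ⟨CExt_ch_single ⟨Finset.empty_subset _, by simp⟩ rfl, ?_⟩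
      rw [CExt_bd_single, CExt_bd1_empty, map_zero]
    · exact hψ.2 τ hτ hne
  have hh' : ∀ τ, Clq Adj K τ → bd (h τ) + lin h (bd1 τ) = Finsupp.single τ 1 - ψ τ := by
    intro τ hτ
    rcases τ.eq_empty_or_nonempty with rfl | hne
    · rw [h0, CExt_bd1_empty, map_zero, map_zero, hψ.1, sub_self, add_zero]
    · exact (hh τ hτ hne).2
  refine ⟨fun τ => h τ + (1 : ℤ) • lin s0 (ψ τ), fun τ hτ => ⟨fun ρ hρ => ?_, ?_⟩⟩
  · by_cases h1 : h τ ρ = 0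
    · have h2 : lin s0 (ψ τ) ρ ≠ 0 := fun h2 => hρ (by simp [h1, h2])
      have h3 : Ch Adj B (τ.card + 1) (lin s0 (ψ τ)) := CExt_ch_lin fun σ hσ => by
        obtain ⟨h4, h5⟩ := (hψ' τ hτ).1 σ hσ
        rw [← h5]
        exact (hs' σ h4).1
      exact ⟨(h3 ρ h2).2, Or.inl (h3 ρ h2).1⟩
    · rcases τ.eq_empty_or_nonempty with rfl | hne
      · exact absurd (by rw [h0]; rfl) h1
      · exact ⟨((hh τ hτ hne).1 ρ h1).2, Or.inr ⟨hne, ((hh τ hτ hne).1 ρ h1).1⟩⟩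
  · have h4 : bd (lin s0 (ψ τ)) =
        lin (fun σ => Finsupp.single σ 1) (ψ τ) + (-1 : ℤ) • lin s0 (bd (ψ τ)) :=
      CExt_bd_lin fun σ hσ => (hs' σ ((hψ' τ hτ).1 σ hσ).1).2
    rw [CExt_lin_add_smul, map_add, one_smul, one_smul, add_add_add_comm, hh' τ hτ, h4,
      CExt_lin_id, (hψ' τ hτ).2, ← CExt_map_lin, neg_one_smul, neg_add_cancel_right,
      sub_add_cancel]

theorem XF1_core {F : Type} [Fintype F] {D : Set (F → ℝ)} (hc : IsCompact D)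
    (hne : D.Nonempty) {n : ℕ} (hT : TropC D n) {H : (F → ℝ) → ℝ → (F → ℝ) → F → ℝ}
    (hm : ∀ p ∈ D, ∀ u ∈ Set.Icc (0 : ℝ) 1, ∀ y ∈ D, H p u y ∈ D)
    (hH : ContinuousOn (fun z : (F → ℝ) × ℝ × (F → ℝ) => H z.1 z.2.1 z.2.2)
      (D ×ˢ Set.Icc 0 1 ×ˢ D))
    (h0 : ∀ p ∈ D, ∀ y ∈ D, H p 0 y = p) (h1 : ∀ p ∈ D, ∀ y ∈ D, H p 1 y = y) {η : ℝ}
    (hη : 0 < η) :
    ∃ (V : Type) (_ : LinearOrder V) (K : Finset V) (Adj : V → V → Prop) (pt : V → F → ℝ),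
      (∀ σ, Clq Adj K σ → σ.card ≤ n + 1) ∧ Acyc Adj K ∧ (∀ x ∈ K, pt x ∈ D) ∧
      (∀ x ∈ K, ∀ y ∈ K, Adj x y → dist (pt x) (pt y) ≤ η) ∧
      ∀ p ∈ D, ∃ s : Finset V → (Finset V →₀ ℤ), ∀ τ, Clq Adj K τ →
        (∀ ρ, s τ ρ ≠ 0 → Clq Adj K ρ ∧ ρ.card = τ.card + 1 ∧ ∀ z ∈ ρ, dist (pt z) p ≤ η ∨
          ∃ y ∈ τ, ∃ u ∈ Set.Icc (0 : ℝ) 1, dist (pt z) (H p u (pt y)) ≤ η) ∧
        bd (s τ) + lin s (bd1 τ) = Finsupp.single τ 1 := by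
  classical
  obtain ⟨d, ⟨hd0, hd1⟩, hd⟩ := XF1_uc hc hH (e := η / 3) (by positivity)
  obtain ⟨ρ, ⟨hρ0, hρ1⟩, hρ⟩ := XF1_uc hc hH (half_pos hd0)
  obtain ⟨V, _, K, Adj, pt, hG⟩ := exists_grid hc.isBounded hT ρ hρ0
  have z0 : (0 : ℝ) ∈ Set.Icc (0 : ℝ) 1 := ⟨le_rfl, zero_le_one⟩
  have hclq : ∀ σ, Clq Adj K σ → ∀ y ∈ σ, ∀ y' ∈ σ, dist (pt y) (pt y') ≤ ρ := by
    intro σ hσ y hy y' hy'
    rcases eq_or_ne y y' with rfl | e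
    · rw [dist_self]
      exact hρ0.le
    · exact hG.adj y (hσ.1 hy) y' (hσ.1 hy') (hσ.2 y hy y' hy' e)
  refine ⟨V, inferInstance, K, Adj, pt, hG.dim, ?_, hG.mem,
    fun x hx y hy h => (hG.adj x hx y hy h).trans (by linarith), fun p hp => ?_⟩
  · obtain ⟨R, hR⟩ := hc.isBounded.exists_norm_le
    obtain ⟨x, hx⟩ := hne
    obtain ⟨z, hz, -⟩ := hG.near x hx
    exact hG.box (fun _ => -R) (fun _ => R) K (fun z => ⟨fun h => ⟨h, fun i =>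
      abs_le.1 ((norm_le_pi_norm (pt z) i).trans (hR _ (hG.mem z h)))⟩, fun h => h.1⟩) ⟨z, hz⟩
  have hosc : ∀ u ∈ Set.Icc (0 : ℝ) 1, ∀ σ, Clq Adj K σ → ∀ y ∈ σ, ∀ y' ∈ σ,
      dist (H p u (pt y)) (H p u (pt y')) ≤ d / 2 := fun u hu σ hσ y hy y' hy' =>
    hρ p hp u hu u hu _ (hG.mem y (hσ.1 hy)) _ (hG.mem y' (hσ.1 hy'))
      (by rw [sub_self, abs_zero]; exact hρ0.le) (hclq σ hσ y hy y' hy')
  have hex : ∀ u ∈ Set.Icc (0 : ℝ) 1,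
      ∃ ψ, FChain_Ap K Adj (FChain_B K pt (fun y => H p u (pt y)) d) ψ := by
    intro u hu
    obtain ⟨ψ, h⟩ := FChain_ex hG hρ0.le (fun y hy => hm p hp u hu _ (hG.mem y hy)) (hosc u hu)
    exact ⟨ψ, FChain_ap_mono h fun σ hσ _ => FChain_B_le hσ.1 fun y _ => by
      rw [dist_self]
      linarith⟩
  obtain ⟨ψ0, hψ0⟩ := hex 0 z0
  obtain ⟨C, hC⟩ : ∃ C : Finset V → Finset V, ∀ σ x, x ∈ C σ ↔ x ∈ K ∧ ∀ y ∈ σ,
      ∃ u ∈ Set.Icc (0 : ℝ) 1, dist (pt x) (H p u (pt y)) ≤ η :=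
    ⟨fun σ => K.filter _, fun σ x => Finset.mem_filter⟩
  have hBC : ∀ u ∈ Set.Icc (0 : ℝ) 1, ∀ r ≤ η, ∀ σ,
      FChain_B K pt (fun y => H p u (pt y)) r σ ⊆ C σ :=
    fun u hu r hr σ z hz => (hC _ _).2 ⟨(FChain_mem_B.1 hz).1, fun y hy =>
      ⟨u, hu, ((FChain_mem_B.1 hz).2 y hy).trans hr⟩⟩
  have hstep : ∀ u ∈ Set.Icc (0 : ℝ) 1, ∀ u' ∈ Set.Icc (0 : ℝ) 1,
      |u' - u| ≤ d → ∀ χ ψ, FChain_Ap K Adj (FChain_B K pt (fun y => H p u' (pt y)) d) χ →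
        FChain_Ap K Adj (FChain_B K pt (fun y => H p u (pt y)) (d + η / 3)) ψ →
          FChain_Hp K Adj C χ ψ := fun u hu u' hu' h χ ψ h2 h3 =>
    FChain_hp_mono (FChain_hp hG hρ0.le (fun y hy => hm p hp u hu _ (hG.mem y hy))
      (hosc u hu) (by linarith) (FChain_ap_mono h2 fun σ hσ _ =>
        FChain_B_le hσ.1 fun y hy => add_le_add le_rfl (hd p hp u' hu' u hu _ (hG.mem y hy)
          _ (hG.mem y hy) h (by rw [dist_self]; exact hd0.le))) h3)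
      fun σ _ _ => hBC u hu _ (by linarith) σ
  have hind : ∀ m : ℕ, ∀ u ∈ Set.Icc (0 : ℝ) 1, u ≤ m * d →
      ∀ ψ, FChain_Ap K Adj (FChain_B K pt (fun y => H p u (pt y)) (d + η / 3)) ψ →
        FChain_Hp K Adj C ψ0 ψ := by
    intro m
    induction m with
    | zero =>
      intro u hu h ψ hψ
      rw [Nat.cast_zero, zero_mul] at h
      exact hstep u hu 0 z0 (abs_le.2 ⟨by linarith, by linarith [hu.1]⟩) _ _ hψ0 hψ
    | succ m ih =>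
      intro u hu h ψ hψ
      rw [Nat.cast_succ, add_mul, one_mul] at h
      have hu' : max (u - d) 0 ∈ Set.Icc (0 : ℝ) 1 :=
        ⟨le_max_right _ _, max_le (by linarith [hu.2]) zero_le_one⟩
      obtain ⟨χ, hχ⟩ := hex _ hu'
      refine FChain_hp_trans (ih _ hu' (max_le (by linarith) (by positivity)) χ
        (FChain_ap_mono hχ fun σ hσ _ => FChain_B_le hσ.1 fun y _ => ?_))
        (hstep u hu _ hu' (abs_le.2 ⟨?_, ?_⟩) χ ψ hχ hψ)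
      · rw [dist_self]
        linarith
      · linarith [le_max_left (u - d) 0]
      · linarith [max_le (by linarith : u - d ≤ u) hu.1]
  obtain ⟨m, hm'⟩ := exists_nat_ge (1 / d)
  have hh := hind m 1 ⟨zero_le_one, le_rfl⟩ ((div_le_iff₀ hd0).1 hm') _
    (FChain_ap_id fun σ hσ z hz => FChain_mem_B.2 ⟨hσ.1 hz, fun y hy => by
      rw [h1 p hp _ (hG.mem y (hσ.1 hy))]
      linarith [hclq σ hσ z hz y hy]⟩)
  obtain ⟨z₀, hz₀, -⟩ := hG.near p hp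
  have hB : Acyc Adj (FChain_Car K pt (fun _ => p) d {z₀}) :=
    FChain_car_acyc hG (fun _ _ => hp) (by linarith) _
      ⟨Finset.singleton_subset_iff.2 hz₀, by simp⟩ (Finset.singleton_nonempty _)
  have hB' : ∀ z ∈ FChain_Car K pt (fun _ => p) d {z₀}, z ∈ K ∧ dist (pt z) p ≤ η := by
    intro z hz
    have h := FChain_mem_B.1 (FChain_car_sub (w := 0) hd0.le (fun _ _ _ _ => (dist_self _).le) hz)
    exact ⟨h.1, (h.2 z₀ (Finset.mem_singleton_self _)).trans (by linarith)⟩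
  obtain ⟨s, hs⟩ := XF1_glue hB (FChain_ap_mono hψ0 fun σ hσ ⟨y, hy⟩ z hz => by
    have h := FChain_mem_B.1 hz
    refine FChain_mem h.1 (Finset.mem_singleton_self z₀) ?_
    have h2 := h.2 y hy
    rwa [h0 p hp _ (hG.mem y (hσ.1 hy))] at h2) hh
  refine ⟨s, fun τ hτ => ⟨fun ρ' hρ' => ?_, (hs τ hτ).2⟩⟩
  obtain ⟨h2, h3 | ⟨⟨y, hy⟩, h3⟩⟩ := (hs τ hτ).1 ρ' hρ'
  · exact ⟨⟨fun z hz => (hB' z (h3.1 hz)).1, h3.2⟩, h2, fun z hz => Or.inl (hB' z (h3.1 hz)).2⟩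
  · exact ⟨⟨fun z hz => ((hC _ _).1 (h3.1 hz)).1, h3.2⟩, h2,
      fun z hz => Or.inr ⟨y, hy, ((hC _ _).1 (h3.1 hz)).2 y hy⟩⟩

theorem exists_contr {X F : Type} [MetricSpace X] [Fintype F] {D : Set X} (hc : IsCompact D)
    (hne : D.Nonempty) {e : X → F → ℝ} (he : ContinuousOn e D) (hinj : Set.InjOn e D) {n : ℕ}
    (hT : TropC (e '' D) n) {H : X → ℝ → X → X}
    (hm : ∀ p ∈ D, ∀ u ∈ Set.Icc (0 : ℝ) 1, ∀ y ∈ D, H p u y ∈ D)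
    (hH : ContinuousOn (fun z : X × ℝ × X => H z.1 z.2.1 z.2.2) (D ×ˢ Set.Icc 0 1 ×ˢ D))
    (h0 : ∀ p ∈ D, ∀ y ∈ D, H p 0 y = p) (h1 : ∀ p ∈ D, ∀ y ∈ D, H p 1 y = y) {η : ℝ}
    (hη : 0 < η) :
    ∃ (V : Type) (_ : LinearOrder V) (K : Finset V) (Adj : V → V → Prop) (pt : V → X),
      (∀ σ, Clq Adj K σ → σ.card ≤ n + 1) ∧ Acyc Adj K ∧ (∀ x ∈ K, pt x ∈ D) ∧
      (∀ x ∈ K, ∀ y ∈ K, Adj x y → dist (pt x) (pt y) ≤ η) ∧
      ∀ p ∈ D, ∃ s : Finset V → (Finset V →₀ ℤ), ∀ τ, Clq Adj K τ →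
        (∀ ρ, s τ ρ ≠ 0 → Clq Adj K ρ ∧ ρ.card = τ.card + 1 ∧ ∀ z ∈ ρ, dist (pt z) p ≤ η ∨
          ∃ y ∈ τ, ∃ u ∈ Set.Icc (0 : ℝ) 1, dist (pt z) (H p u (pt y)) ≤ η) ∧
        bd (s τ) + lin s (bd1 τ) = Finsupp.single τ 1 := by
  have : Nonempty X := hne.nonempty
  obtain ⟨inv, hinv⟩ : ∃ inv : (F → ℝ) → X, ∀ x ∈ D, inv (e x) = x :=
    ⟨Function.invFunOn e D, fun x hx => hinj.leftInvOn_invFunOn hx⟩
  have hmi : ∀ y ∈ e '' D, inv y ∈ D := by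
    rintro _ ⟨x, hx, rfl⟩
    rwa [hinv x hx]
  have hei : ∀ y ∈ e '' D, e (inv y) = y := by
    rintro _ ⟨x, hx, rfl⟩
    rw [hinv x hx]
  have hD' : IsCompact (e '' D) := hc.image_of_continuousOn he
  have hci : ContinuousOn inv (e '' D) := by
    refine continuousOn_iff_isClosed.2 fun t ht => ⟨e '' (t ∩ D),
      ((hc.inter_left ht).image_of_continuousOn (he.mono Set.inter_subset_right)).isClosed, ?_⟩
    ext y
    constructor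
    · rintro ⟨h, x, hx, rfl⟩
      rw [Set.mem_preimage, hinv x hx] at h
      exact ⟨⟨x, ⟨h, hx⟩, rfl⟩, x, hx, rfl⟩
    · rintro ⟨⟨x, hx, rfl⟩, h⟩
      exact ⟨by rw [Set.mem_preimage, hinv x hx.2]; exact hx.1, h⟩
  obtain ⟨δ, hδ, hu⟩ :=
    Metric.uniformContinuousOn_iff_le.1 (hD'.uniformContinuousOn_of_continuous hci) η hη
  have hcont : ContinuousOn (fun z : (F → ℝ) × ℝ × (F → ℝ) => e (H (inv z.1) z.2.1 (inv z.2.2)))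
      ((e '' D) ×ˢ Set.Icc 0 1 ×ˢ (e '' D)) := by
    refine he.comp (f := fun z : (F → ℝ) × ℝ × (F → ℝ) => H (inv z.1) z.2.1 (inv z.2.2)) ?_
      fun z hz => hm _ (hmi _ hz.1) _ hz.2.1 _ (hmi _ hz.2.2)
    exact hH.comp (f := fun z : (F → ℝ) × ℝ × (F → ℝ) => (inv z.1, z.2.1, inv z.2.2))
      ((hci.comp continuousOn_fst fun z hz => hz.1).prodMk
        ((continuous_fst.comp continuous_snd).continuousOn.prodMk
          (hci.comp (continuous_snd.comp continuous_snd).continuousOn fun z hz => hz.2.2)))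
      fun z hz => ⟨hmi _ hz.1, hz.2.1, hmi _ hz.2.2⟩
  obtain ⟨V, _, K, Adj, pt, hdim, hac, hpt, hadj, hs⟩ := XF1_core hD' (hne.image e) hT
    (H := fun p u y => e (H (inv p) u (inv y)))
    (fun p hp u hu' y hy => ⟨_, hm _ (hmi p hp) u hu' _ (hmi y hy), rfl⟩) hcont
    (fun p hp y hy => by rw [h0 _ (hmi p hp) _ (hmi y hy), hei p hp])
    (fun p hp y hy => by rw [h1 _ (hmi p hp) _ (hmi y hy), hei y hy]) hδ
  have hn : ∀ z ∈ K, ∀ x ∈ D, dist (pt z) (e x) ≤ δ → dist (inv (pt z)) x ≤ η := by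
    intro z hz x hx h
    have h2 := hu _ (hpt z hz) _ ⟨x, hx, rfl⟩ h
    rwa [hinv x hx] at h2
  refine ⟨V, inferInstance, K, Adj, fun x => inv (pt x), hdim, hac, fun x hx => hmi _ (hpt x hx),
    fun x hx y hy h => hu _ (hpt x hx) _ (hpt y hy) (hadj x hx y hy h), fun p hp => ?_⟩
  obtain ⟨s, hs⟩ := hs (e p) ⟨p, hp, rfl⟩
  refine ⟨s, fun τ hτ => ⟨fun ρ hρ => ?_, (hs τ hτ).2⟩⟩
  obtain ⟨h2, h3, h4⟩ := (hs τ hτ).1 ρ hρ
  refine ⟨h2, h3, fun z hz => ?_⟩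
  rcases h4 z hz with h5 | ⟨y, hy, u, hu', h5⟩
  · exact Or.inl (hn z (h2.1 hz) p hp h5)
  · rw [hinv p hp] at h5
    exact Or.inr ⟨y, hy, u, hu',
      hn z (h2.1 hz) _ (hm p hp u hu' _ (hmi _ (hpt y (hτ.1 hy)))) h5⟩

end Pool.Agent.MP_f7db47_al.KN
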