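import Pool.Agent.MP_f7db47_al.KN.XF1
import Pool.Agent.MP_f7db47_al.GF.FHb

/-!
The tower of tubes.
-/

namespace Pool.Agent.MP_f7db47_al.KN

open GN GF Metric

/-- The point `x` is near the ray from the base point to `w`. -/
def XF2_near {S : Sp} (h : S.Geo) (a b : ℝ) (x w : S.X) : Prop :=
  ∃ l : ℝ, 0 ≤ l ∧ l ≤ 1 ∧ 1 - a ≤ l ∧ dist x (h.ln S.o w l) ≤ b

theorem XF2_near.mono {S : Sp} {h : S.Geo} {a b a' b' : ℝ} {x w : S.X}
    (hx : XF2_near h a b x w) (ha : a ≤ a') (hb : b ≤ b') : XF2_near h a' b' x w := by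
  obtain ⟨l, l0, l1, l2, l3⟩ := hx
  exact ⟨l, l0, l1, by linarith, l3.trans hb⟩

theorem XF2_near.move {S : Sp} {h : S.Geo} {a b d : ℝ} {x w w' : S.X}
    (hx : XF2_near h a b x w) (hw : dist w w' ≤ d) : XF2_near h a (b + d) x w' := by
  obtain ⟨l, l0, l1, l2, l3⟩ := hx
  refine ⟨l, l0, l1, l2, ?_⟩
  have e1 := h.ln_conv S.o w S.o w' l0 l1
  rw [dist_self, mul_zero, zero_add] at e1
  have e2 : l * dist w w' ≤ dist w w' := mul_le_of_le_one_left dist_nonneg l1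
  have e3 := dist_triangle x (h.ln S.o w l) (h.ln S.o w' l)
  linarith

theorem XF2_comp {S : Sp} {h : S.Geo} {G : Type} [Group G] {ρ : G →* Equiv.Perm S.X}
    (hρ : S.Isom ρ) (g : G) {a b a' b' d : ℝ} {x y w : S.X} (hd : dist (ρ g S.o) S.o ≤ d)
    (hx : XF2_near h a b x (ρ g y)) (hy : XF2_near h a' b' y w) :
    XF2_near h (a + a') (b + (b' + a' * d)) x (ρ g w) := by
  obtain ⟨m, m0, m1, m2, m3⟩ := hy
  have e1 : dist (ρ g y) (h.ln (ρ g S.o) (ρ g w) m) ≤ b' := by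
    rw [← h.ln_smul hρ g _ _ m0 m1, hρ.iso]
    exact m3
  have e2 := h.ln_conv (ρ g S.o) (ρ g w) S.o (ρ g w) m0 m1
  rw [dist_self, mul_zero, add_zero] at e2
  have e3 : (1 - m) * dist (ρ g S.o) S.o ≤ a' * d :=
    mul_le_mul (by linarith) hd dist_nonneg (by linarith)
  have e4 := dist_triangle (ρ g y) (h.ln (ρ g S.o) (ρ g w) m) (h.ln S.o (ρ g w) m)
  obtain ⟨l, l0, l1, l2, l3⟩ :=
    hx.move (w' := h.ln S.o (ρ g w) m) (d := b' + a' * d) (by linarith)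
  rw [h.ln_ln _ _ m l0 l1] at l3
  refine ⟨m * l, mul_nonneg m0 l0, mul_le_one₀ m1 l0 l1, ?_, l3⟩
  nlinarith [mul_nonneg (sub_nonneg.2 m1) (sub_nonneg.2 l1)]

theorem XF2_mid {S : Sp} {h : S.Geo} {a b d l0 u : ℝ} {x w z : S.X} (h0 : 0 ≤ l0) (h1 : l0 ≤ 1)
    (h2 : 1 - a ≤ l0) (hx : XF2_near h a b x w) (u0 : 0 ≤ u) (u1 : u ≤ 1)
    (hz : dist z (h.ln (h.ln S.o w l0) x u) ≤ d) : XF2_near h a (d + b) z w := by
  obtain ⟨l, a0, a1, a2, a3⟩ := hx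
  have e1 := h.ln_eq (h.aff _ (h.ln_mem S.o w) (l - l0) l0) u0 u1
  simp only [mul_zero, zero_add, mul_one, sub_add_cancel] at e1
  have e2 := h.ln_conv (h.ln S.o w l0) x (h.ln S.o w l0) (h.ln S.o w l) u0 u1
  rw [dist_self, mul_zero, zero_add, e1] at e2
  have e3 : u * dist x (h.ln S.o w l) ≤ dist x (h.ln S.o w l) :=
    mul_le_of_le_one_left dist_nonneg u1
  have e4 := dist_triangle z (h.ln (h.ln S.o w l0) x u) (h.ln S.o w ((l - l0) * u + l0))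
  have v := sub_nonneg.2 u1
  refine ⟨(l - l0) * u + l0, ?_, ?_, ?_, by linarith⟩
  · nlinarith [mul_nonneg a0 u0, mul_nonneg h0 v]
  · nlinarith [mul_nonneg (sub_nonneg.2 a1) u0, mul_nonneg (sub_nonneg.2 h1) v]
  · nlinarith [mul_nonneg (sub_nonneg.2 a2) u0, mul_nonneg (sub_nonneg.2 h2) v]

/-- The filtered relation of tubes. -/
def XF2_FR {S : Sp} (h : S.Geo) {G : Type} [Group G] {ρ : G →* Equiv.Perm S.X} (hρ : S.Isom ρ)
    {C η r : ℝ} (hC : 0 ≤ C) (hη : 0 < η) (hr : 0 < r) (hCr : C * C ≤ 2 * η * r) {V : Type}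
    (pt : V → S.X) : GN.FR G (Unit × Finset V) where
  rel t a g b := dist (ρ g S.o) S.o ≤ t * C ∧
    ∀ x ∈ a.2, ∃ y ∈ b.2, XF2_near h (t * C / r) (t ^ 2 * η) (pt x) (ρ g (pt y))
  refl a := by
    refine ⟨by simp, fun x hx => ⟨x, hx, 1, zero_le_one, le_rfl, by simp, ?_⟩⟩
    simp [h.ln_one]
  mono := by
    intro k k' a g b hk hab
    have hk' : (k : ℝ) ≤ k' := by exact_mod_cast hk
    have e1 : (k : ℝ) * C ≤ k' * C := mul_le_mul_of_nonneg_right hk' hC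
    refine ⟨hab.1.trans e1, fun x hx => ?_⟩
    obtain ⟨y, hy, hxy⟩ := hab.2 x hx
    exact ⟨y, hy, hxy.mono (div_le_div_of_nonneg_right e1 hr.le) (by gcongr)⟩
  comp := by
    intro k k' a g b g' c hab hbc
    refine ⟨?_, fun x hx => ?_⟩
    · have e1 := dist_triangle (ρ g (ρ g' S.o)) (ρ g S.o) S.o
      rw [hρ.iso] at e1
      rw [map_mul, Equiv.Perm.mul_apply, Nat.cast_add]
      linarith [hab.1, hbc.1]
    · obtain ⟨y, hy, hxy⟩ := hab.2 x hx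
      obtain ⟨z, hz, hyz⟩ := hbc.2 y hy
      refine ⟨z, hz, ?_⟩
      rw [map_mul, Equiv.Perm.mul_apply, Nat.cast_add]
      refine (XF2_comp hρ g hab.1 hxy hyz).mono (le_of_eq (by ring)) ?_
      have e1 : C * C / r ≤ 2 * η := by rwa [div_le_iff₀ hr]
      have e2 : (k' : ℝ) * C / r * (k * C) = k * k' * (C * C / r) := by ring
      have e3 : (k : ℝ) * k' * (C * C / r) ≤ k * k' * (2 * η) :=
        mul_le_mul_of_nonneg_left e1 (by positivity)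
      rw [e2]
      linarith

theorem XF2_ball {S : Sp} (h : S.Geo) {r d : ℝ} (hr : 0 < r) {w : S.X}
    (hw : dist w S.o ≤ r + d) : h.ln S.o w (max 0 (1 - d / r)) ∈ closedBall S.o r := by
  rw [mem_closedBall, FHa_dist h _ (le_max_left _ _)]
  rcases le_total 0 (1 - d / r) with h1 | h1
  · rw [max_eq_right h1]
    refine (mul_le_mul_of_nonneg_left hw h1).trans ?_
    have e1 : (1 - d / r) * (r + d) = r - d ^ 2 / r := by
      field_simp
      ring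
    have e2 : 0 ≤ d ^ 2 / r := by positivity
    linarith
  · rw [max_eq_left h1, zero_mul]
    exact hr.le

theorem tow_flow {S : Sp} (hS : S.Good) {n : ℕ} (hn : S.Fine n) {G : Type} [Group G]
    {ρ : G →* Equiv.Perm S.X} (hρ : S.Isom ρ) {C η : ℝ} {r : ℕ} (hC : 0 ≤ C) (hη : 0 < η)
    (hr : 0 < r) (hCr : C * C ≤ 2 * η * r) :
    ∃ (V : Type) (_ : LinearOrder V) (K : Finset V) (Adj : V → V → Prop) (pt : V → S.X)
      (F : GN.FR G (Unit × Finset V)), Tow F (fun _ => K) (fun _ => Adj) (n + 1) ∧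
      (∀ x ∈ K, pt x ∈ closedBall S.o r) ∧
      (∀ g, dist (ρ g S.o) S.o ≤ C → F.rel 1 ((), ∅) g ((), ∅)) ∧
      ∀ (t : ℕ) τ g σ x y, F.rel t ((), τ) g ((), σ) → Clq Adj K σ → x ∈ τ → y ∈ σ →
        dist (ρ g S.o) S.o ≤ t * C ∧ ∃ l : ℝ, 0 ≤ l ∧ l ≤ 1 ∧ 1 - t * C / r ≤ l ∧
          dist (pt x) (hS.geo.ln S.o (ρ g (pt y)) l) ≤ (t ^ 2 + 1) * η := by
  have h := hS.geo
  have hr' : (0 : ℝ) < r := by exact_mod_cast hr
  obtain ⟨F, _, e, he, hinj, hT⟩ := hn r hr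
  obtain ⟨V, _, K, Adj, pt, hdim, hac, hpt, hadj, hs⟩ := exists_contr (hS.cpt S.o r)
    ⟨S.o, mem_closedBall_self hr'.le⟩ he hinj hT (H := fun p u y => hS.geo.ln p y u)
    (fun p hp u hu y hy => by
      have e1 := hS.geo.ln_pt p y S.o hu.1 hu.2
      rw [mem_closedBall] at hp hy ⊢
      have e2 := mul_le_mul_of_nonneg_left hp (sub_nonneg.2 hu.2)
      have e3 := mul_le_mul_of_nonneg_left hy hu.1
      linarith)
    (hS.geo.ln_cont.comp (f := fun z : S.X × ℝ × S.X => ((z.1, z.2.2), z.2.1))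
      (Continuous.continuousOn (by fun_prop)) fun z hz => ⟨Set.mem_univ _, hz.2.1⟩)
    (fun p _ y _ => hS.geo.ln_zero p y) (fun p _ y _ => hS.geo.ln_one p y) (half_pos hη)
  have hcl : ∀ σ, Clq Adj K σ → ∀ g, ∀ y ∈ σ, ∀ y' ∈ σ,
      dist (ρ g (pt y)) (ρ g (pt y')) ≤ η / 2 := by
    intro σ hσ g y hy y' hy'
    rw [hρ.iso]
    by_cases hyy : y = y'
    · rw [hyy, dist_self]
      exact (half_pos hη).le
    · exact hadj y (hσ.1 hy) y' (hσ.1 hy') (hσ.2 y hy y' hy' hyy)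
  refine ⟨V, inferInstance, K, Adj, pt, XF2_FR hS.geo hρ hC hη hr' hCr pt,
    ⟨fun _ => hdim, fun _ => hac, ?_, ?_⟩, hpt, ?_, ?_⟩
  · intro a σ τ hτ
    have e1 := (XF2_FR hS.geo hρ hC hη hr' hCr pt).refl (a, τ)
    refine ⟨e1.1, fun x hx => ?_⟩
    obtain ⟨y, hy, hxy⟩ := e1.2 x hx
    exact ⟨y, hτ hy, hxy⟩
  · rintro t a g b σ hσ ⟨y0, hy0⟩
    by_cases hg : dist (ρ g S.o) S.o ≤ t * C
    swap
    · exact ⟨0, fun τ _ hτ => absurd hτ.1 hg⟩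
    have hw : dist (ρ g (pt y0)) S.o ≤ r + t * C := by
      have e1 := dist_triangle (ρ g (pt y0)) (ρ g S.o) S.o
      rw [hρ.iso] at e1
      have e2 := mem_closedBall.1 (hpt y0 (hσ.1 hy0))
      linarith
    have ht : (0 : ℝ) ≤ t := Nat.cast_nonneg t
    have hq : 0 ≤ (t : ℝ) * C / r := by positivity
    have hl1 : max 0 (1 - (t : ℝ) * C / r) ≤ 1 := max_le zero_le_one (by linarith)
    have hc1 : (t : ℝ) * C ≤ ((t + 1 : ℕ) : ℝ) * C := by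
      rw [Nat.cast_succ]
      linarith
    have hc2 : η / 2 + ((t : ℝ) ^ 2 * η + η / 2) ≤ ((t + 1 : ℕ) : ℝ) ^ 2 * η := by
      rw [Nat.cast_succ]
      nlinarith [mul_nonneg ht hη.le]
    obtain ⟨s, hs⟩ := hs _ (XF2_ball hS.geo hr' hw)
    refine ⟨s, fun τ hτ hrel => ⟨fun π hπ => ?_, (hs τ hτ).2⟩⟩
    obtain ⟨p1, p2, p3⟩ := (hs τ hτ).1 π hπ
    refine ⟨p1, p2, hg.trans hc1, fun z hz => ⟨y0, hy0, ?_⟩⟩
    refine XF2_near.mono (a := t * C / r) ?_ (div_le_div_of_nonneg_right hc1 hr'.le) hc2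
    rcases p3 z hz with p4 | ⟨x, hx, u, hu, p4⟩
    · refine ⟨_, le_max_left _ _, hl1, le_max_right _ _, p4.trans ?_⟩
      have : 0 ≤ (t : ℝ) ^ 2 * η := by positivity
      linarith
    · obtain ⟨y, hy, hxy⟩ := hrel.2 x hx
      exact XF2_mid (le_max_left _ _) hl1 (le_max_right _ _)
        (hxy.move (hcl σ hσ g y hy y0 hy0)) hu.1 hu.2 p4
  · intro g hg
    exact ⟨by simpa using hg, fun x hx => absurd hx (Finset.notMem_empty x)⟩
  · intro t τ g σ x y hrel hσ hx hy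
    obtain ⟨y', hy', hxy⟩ := hrel.2 x hx
    exact ⟨hrel.1, (hxy.move (hcl σ hσ g y' hy' y hy)).mono le_rfl (by linarith)⟩

end Pool.Agent.MP_f7db47_al.KN
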