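import Pool.Agent.MP_f7db47_al.KN.XD
import Pool.Agent.MP_f7db47_al.TW.Lin
import Pool.Agent.MP_f7db47_al.VC.Vab

/-!
Abelian quotients and rational linear groups.
-/

namespace Pool.Agent.MP_f7db47_al.KN

open GN GF

variable {G₀ : Type} [Group G₀] {Q : Pp G₀}

theorem XL1_sub (hs : Q.Sub) {G H : Type} [Group G] [Group H] {i : H →* G₀} {i' : G →* G₀}
    (f : G →* H) (hf : Function.Injective f) (e : ∀ x, i' x = i (f x)) (h : Q H i) : Q G i' := by
  have : i' = i.comp f := MonoidHom.ext e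
  rw [this]
  exact hs f hf h

/-- The translations. -/
def XL1_tr (r : ℕ) : Multiplicative (Fin r → ℤ) →* VC.Wr (Fin r) :=
  MonoidHom.mk' (fun x => ⟨x.toAdd, 1⟩) fun _ _ => VC.Wr.ext rfl (mul_one _).symm

theorem abq_of (hs : Q.Sub) (hl : Q.Loc) (hf : Q.Flow) : Q.Abq := by
  intro G A _ _ i hA φ h
  refine hl fun K hK => ?_
  have : Group.FG K := (Group.fg_iff_subgroup_fg K).2 hK
  let χ : K →* A := φ.comp K.subtype
  have : Group.FG χ.range := Group.fg_range χ
  obtain ⟨r, e, he⟩ := PT.ZAbq_emb (K := χ.range) fun g hg =>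
    Subtype.ext (hA g (χ.range.subtype.isOfFinOrder hg))
  let f : K →* VC.Wr (Fin r) := (XL1_tr r).comp (e.comp χ.rangeRestrict)
  refine hf (VC.wr_pack (Fin r)) f (fun B ψ hψ => ?_) fun B hB => hB.elim
  let t : B.comap f →* B := (f.comp (B.comap f).subtype).codRestrict B fun g => g.2
  let u : B.comap f ≃* (B.comap f).map K.subtype :=
    (B.comap f).equivMapOfInjective K.subtype K.subtype_injective
  refine XL1_sub hs u.toMonoidHom u.injective (fun _ => rfl)
    (h ((B.comap f).map K.subtype) ((ψ.comp t).comp u.symm.toMonoidHom) fun x hx => ?_)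
  obtain ⟨x, rfl⟩ := u.surjective x
  have h1 : ψ (t x) = 1 := by simpa using hx
  have h2 : f x.1 = 1 := VC.Vab_tors rfl (B.subtype.isOfFinOrder (hψ _ h1))
  have h3 : e (χ.rangeRestrict x.1) = 1 :=
    Multiplicative.toAdd.injective (congrArg VC.Wr.b h2)
  exact congrArg Subtype.val (he (h3.trans (map_one e).symm))

section

open Matrix

variable (Q) in
/-- The hypothesis of the induction. -/
def XL1_Hyp {G A : Type} [Group G] [Ring A] (i : G →* G₀) (ρ : G →* A) : Prop :=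
  ∀ (H : Type) [Group H] (j : H →* G), Function.Injective j → ∀ φ : H →* GN.MZ,
    (∀ g, φ g = 1 → BMainQ (ρ (j g))) → Q H (i.comp j)

theorem XL1_comp {G H A : Type} [Group G] [Group H] [Ring A] {i : G →* G₀} {ρ : G →* A}
    (h : XL1_Hyp Q i ρ) (j : H →* G) (hj : Function.Injective j) :
    XL1_Hyp Q (i.comp j) (ρ.comp j) :=
  fun K _ k hk φ hφ => h K (j.comp k) (hj.comp hk) φ hφ

theorem XL1_red (ha : Q.Abq) {d : ℕ}
    (ih : ∀ (V : Type) [AddCommGroup V] [Module ℚ V] [FiniteDimensional ℚ V],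
      Module.finrank ℚ V ≤ d → ∀ (G : Type) [Group G] (i : G →* G₀) (ρ : G →* Module.End ℚ V),
        XL1_Hyp Q i ρ → Q G i)
    {V : Type} [AddCommGroup V] [Module ℚ V] [FiniteDimensional ℚ V]
    (hV : Module.finrank ℚ V ≤ d + 1) {H : Type} [Group H] (i : H →* G₀)
    (ρ : H →* Module.End ℚ V) (hρ : XL1_Hyp Q i ρ) (W : Submodule ℚ V) (hb : W ≠ ⊥) (ht : W ≠ ⊤)
    (hW : ∀ g, W ≤ W.comap (ρ g)) : Q H i := by
  have d₁ : Module.finrank ℚ W ≤ d := by
    have := Submodule.finrank_lt ht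
    omega
  have d₂ : Module.finrank ℚ (V ⧸ W) ≤ d := by
    have h1 := W.finrank_quotient_add_finrank
    have h2 : Module.finrank ℚ W ≠ 0 := fun e => hb (Submodule.finrank_eq_zero.1 e)
    omega
  let ρ₁ : H →* Module.End ℚ W := Representation.subrepresentation ρ W hW
  let ρ₂ : H →* Module.End ℚ (V ⧸ W) := Representation.quotient ρ W hW
  refine ih W d₁ H i ρ₁ fun H₁ _ j₁ i₁ φ₁ q₁ => ?_
  refine ih (V ⧸ W) d₂ H₁ _ (ρ₂.comp j₁) fun H₂ _ j₂ i₂ φ₂ q₂ => ?_
  refine ha BMain_tf ((φ₁.comp j₂).prod φ₂) fun H₃ ψ hψ => ?_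
  refine hρ H₃ (j₁.comp (j₂.comp H₃.subtype)) (i₁.comp (i₂.comp H₃.subtype_injective)) ψ
    fun g hg => ?_
  have e := hψ g hg
  exact BMain_blk W _ (ρ₁ (j₁ (j₂ g))) (ρ₂ (j₁ (j₂ g))) (fun _ => rfl) (fun _ => rfl)
    (q₁ _ (congrArg Prod.fst e)) (q₂ _ (congrArg Prod.snd e))

theorem XL1_ind (hs : Q.Sub) (hl : Q.Loc) (hF : Q.Flow) (d : ℕ) :
    ∀ (V : Type) [AddCommGroup V] [Module ℚ V] [FiniteDimensional ℚ V],
      Module.finrank ℚ V ≤ d → ∀ (G : Type) [Group G] (i : G →* G₀) (ρ : G →* Module.End ℚ V),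
        XL1_Hyp Q i ρ → Q G i := by
  have z : ∀ (V : Type) [AddCommGroup V] [Module ℚ V] [FiniteDimensional ℚ V],
      Module.finrank ℚ V = 0 → ∀ (G : Type) [Group G] (i : G →* G₀) (ρ : G →* Module.End ℚ V),
        XL1_Hyp Q i ρ → Q G i := by
    intro V _ _ _ hV G _ i ρ hρ
    have : Subsingleton V := Module.finrank_zero_iff.1 hV
    exact hρ G (MonoidHom.id G) Function.injective_id 1 fun g _ =>
      ⟨1, one_pos, 1, LinearMap.ext fun u => Subsingleton.elim _ _⟩
  induction d with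
  | zero => intro V _ _ _ hV; exact z V (Nat.le_zero.1 hV)
  | succ d ih =>
    intro V _ _ _ hV G _ i₀ ρ₀ hρ₀
    rcases Nat.eq_zero_or_pos (Module.finrank ℚ V) with h0 | h0
    · exact z V h0 G i₀ ρ₀ hρ₀
    obtain ⟨n, hn⟩ : ∃ n, Module.finrank ℚ V = n + 1 := ⟨_, (Nat.succ_pred_eq_of_pos h0).symm⟩
    refine hl fun K hK => ?_
    have hρ := XL1_comp hρ₀ K.subtype K.subtype_injective
    change Q K (i₀.comp K.subtype)
    generalize ρ₀.comp K.subtype = ρ at hρ
    generalize i₀.comp K.subtype = i at hρ ⊢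
    let b : Module.Basis (Fin (n + 1)) ℚ V := Module.finBasisOfFinrankEq ℚ V hn
    let e := LinearMap.toMatrixAlgEquiv b
    let f₀ : K →* GL (Fin (n + 1)) ℚ :=
      ((e : Module.End ℚ V →* Matrix (Fin (n + 1)) (Fin (n + 1)) ℚ).comp ρ).toHomUnits
    have hf₀ : ∀ g, (f₀ g).val = e (ρ g) := fun g => rfl
    obtain ⟨F, hFZ⟩ := BMain_land ((Group.fg_iff_subgroup_fg K).2 hK) f₀
    obtain ⟨Z, hZ, hpk⟩ := packStmt n F
    let f : K →* GLZ Z (Fin (n + 1)) × GN.MZ := (f₀.codRestrict _ (hFZ Z hZ)).prod 1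
    have hf : ∀ g, (f g).1.1.val = e (ρ g) := fun g => rfl
    refine hF hpk f (fun B φ hφ => ?_) (fun B hB => ?_)
    · let r : B.comap f →* B := (f.comp (B.comap f).subtype).codRestrict B fun g => g.2
      refine hρ _ (B.comap f).subtype (B.comap f).subtype_injective (φ.comp r) fun g hg => ?_
      obtain ⟨k, hk, ek⟩ := isOfFinOrder_iff_pow_eq_one.1 (hφ _ hg)
      have e1 : f (g.1 ^ k) = 1 := by
        rw [map_pow]
        exact congrArg Subtype.val ek
      have e2 : e (ρ (g.1 ^ k)) = e 1 := by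
        rw [← hf, e1, map_one]
        rfl
      refine ⟨k, hk, ?_⟩
      have e3 := e.injective e2
      rw [map_pow] at e3
      change IsNilpotent (ρ g.1 ^ k - 1)
      rw [e3, sub_self]
      exact IsNilpotent.zero
    · obtain ⟨W₀, hb, ht, hW⟩ := hB
      refine XL1_red (abq_of hs hl hF) ih hV _ (ρ.comp (B.comap f).subtype)
        (XL1_comp hρ _ (B.comap f).subtype_injective)
        (W₀.comap (b.equivFun : V →ₗ[ℚ] (Fin (n + 1) → ℚ))) ?_ ?_ ?_
      · intro h
        apply hb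
        rw [eq_bot_iff] at h ⊢
        intro u hu
        have : b.equivFun.symm u ∈ W₀.comap (b.equivFun : V →ₗ[ℚ] (Fin (n + 1) → ℚ)) := by
          change b.equivFun (b.equivFun.symm u) ∈ W₀
          rwa [LinearEquiv.apply_symm_apply]
        have h2 := h this
        rw [Submodule.mem_bot] at h2 ⊢
        exact b.equivFun.symm.map_eq_zero_iff.1 h2
      · intro h
        apply ht
        rw [eq_top_iff] at h ⊢
        intro u _
        have h2 : b.equivFun (b.equivFun.symm u) ∈ W₀ :=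
          h (Submodule.mem_top (x := b.equivFun.symm u))
        rwa [LinearEquiv.apply_symm_apply] at h2
      · intro g u hu
        have h1 := hW (f g.1) g.2 _ hu
        rw [hf] at h1
        have h2 : e (ρ g.1) *ᵥ b.repr u = b.repr (ρ g.1 u) :=
          LinearMap.toMatrix_mulVec_repr b b _ u
        change b.equivFun (ρ g.1 u) ∈ W₀
        rw [Module.Basis.equivFun_apply, ← h2]
        exact h1

end

theorem glQ_of (hs : Q.Sub) (hl : Q.Loc) (hf : Q.Flow) {G : Type} [Group G] {i : G →* G₀} {n : ℕ}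
    (f : G →* GL (Fin n) ℚ)
    (h : ∀ (H : Subgroup G) (φ : H →* MZ), (∀ g : H, φ g = 1 → QU (f g).val) → Q.on i H) :
    Q G i := by
  let e : Matrix (Fin n) (Fin n) ℚ ≃ₐ[ℚ] Module.End ℚ (Fin n → ℚ) := Matrix.toLinAlgEquiv'
  let ρ : G →* Module.End ℚ (Fin n → ℚ) :=
    (e : Matrix (Fin n) (Fin n) ℚ →* Module.End ℚ (Fin n → ℚ)).comp ((Units.coeHom _).comp f)
  refine XL1_ind hs hl hf _ (Fin n → ℚ) le_rfl G i ρ fun H _ j hj φ hφ => ?_
  let t := MonoidHom.ofInjective hj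
  refine XL1_sub hs t.toMonoidHom t.injective (fun _ => rfl)
    (h j.range (φ.comp t.symm.toMonoidHom) fun g hg => ?_)
  obtain ⟨m, hm, hn⟩ := hφ _ hg
  refine ⟨m, hm, ?_⟩
  have e1 : j (t.symm g) = g.1 := MonoidHom.apply_ofInjective_symm hj g
  have e2 : ρ (j (t.symm.toMonoidHom g)) ^ m - 1 = e ((f g).val ^ m - 1) := by
    rw [map_sub, map_pow, map_one]
    change e (f (j (t.symm g))).val ^ m - 1 = _
    rw [e1]
  rw [e2] at hn
  exact (IsNilpotent.map_iff e.injective).1 hn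

end Pool.Agent.MP_f7db47_al.KN
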