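import Pool.Agent.MP_f7db47_al.KN.XL1

/-!
Linear groups over commutative rings.
-/

namespace Pool.Agent.MP_f7db47_al.KN

open GN GF

variable {G₀ : Type} [Group G₀] {Q : Pp G₀}

section aux

open Function Matrix GS

theorem XL2_sub (hs : Q.Sub) {G H : Type} [Group G] [Group H] {i : H →* G₀} {a : G →* G₀}
    (h : Q H i) (f : G →* H) (e : ∀ g, i (f g) = a g) (hf : Injective f) : Q G a := by
  have h1 := hs f hf h
  rwa [show i.comp f = a from MonoidHom.ext e] at h1

theorem XL2_tf {A : Type} [CommGroup A] [IsMulTorsionFree A] (q : A) (hq : IsOfFinOrder q) :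
    q = 1 :=
  by_contra fun e => isMulTorsionFree_iff_not_isOfFinOrder.1 inferInstance e hq

theorem XL2_glnF (hs : Q.Sub) (hl : Q.Loc) (h2 : Q.Lat2) {G : Type} [Group G] {a : G →* G₀}
    {K : Type} [Field K] [CharZero K] {n : ℕ} (f : G →* GL (Fin n) K)
    (h : ∀ H : Subgroup G, (∀ g ∈ ⁅H, H⁆, IsAlgebraic ℤ (f g).val.trace) → Q.on a H) :
    Q G a := by
  refine hl fun M hM => ?_
  obtain ⟨A₀, f₀, hA, hf⟩ := GN.exists_fg_subring ((Group.fg_iff_subgroup_fg M).2 hM) K n
    (f.comp M.subtype)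
  obtain ⟨ι, _, P, ρ, hρ⟩ := GZ.glnF_places A₀ hA n
  have hk : ∀ x : K, x ∈ (algebraicClosure ℚ K).toSubfield ↔ IsAlgebraic ℤ x := fun x =>
    (mem_algebraicClosure_iff (F := ℚ)).trans (IsFractionRing.isAlgebraic_iff ℤ ℚ K).symm
  refine h2 P n (fun l => (ρ l).comp f₀) (algebraicClosure ℚ K).toSubfield
    ((Units.coeHom _).comp (f.comp M.subtype)) (fun g hg => (hk _).2 ?_) fun H hH => ?_
  · have h1 := (hρ (f₀ g) hg).algHom A₀.subtype.toIntAlgHom
    have h2 : A₀.subtype (f₀ g).val.trace = (f g).val.trace := by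
      rw [AddMonoidHom.map_trace A₀.subtype]
      exact congrArg (fun u : GL (Fin n) K => u.val.trace) (hf g)
    exact h2 ▸ h1
  · refine XL2_sub hs (h (H.map M.subtype) ?_)
      (H.equivMapOfInjective _ M.subtype_injective).toMonoidHom (fun _ => rfl)
      (MulEquiv.injective _)
    rw [← Subgroup.map_commutator]
    rintro _ ⟨g, hg, rfl⟩
    exact (hk _).1 (hH g hg)

theorem XL2_iso (hq : Q.Abq) {G : Type} [Group G] (H : Subgroup G) {a : H →* G₀}
    (h : ∀ (L : Subgroup H) (ψ : L →* MZ),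
      (∀ x : L, ψ x = 1 → ∃ k : ℕ, 0 < k ∧ ((x : H) : G) ^ k ∈ ⁅H, H⁆) → Q.on a L) : Q H a := by
  refine hq (A := Abelianization H ⧸ CommGroup.torsion (Abelianization H)) XL2_tf
    ((QuotientGroup.mk' _).comp Abelianization.of) fun L ψ hψ => h L ψ fun x hx => ?_
  have h1 : IsOfFinOrder (Abelianization.of (x : H)) := (QuotientGroup.eq_one_iff _).1 (hψ x hx)
  obtain ⟨k, hk, h2⟩ := isOfFinOrder_iff_pow_eq_one.1 h1
  refine ⟨k, hk, ?_⟩
  rw [← H.map_subtype_commutator]
  refine ⟨(x : H) ^ k, ?_, rfl⟩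
  rw [← Abelianization.ker_of]
  exact (map_pow _ _ _).trans h2

theorem XL2_glQU (hs : Q.Sub) (hl : Q.Loc) (hf : Q.Flow) (h2 : Q.Lat2) {G K : Type} [Group G]
    {a : G →* G₀} [Field K] [CharZero K] {n : ℕ} (f : G →* GL (Fin n) K)
    (h : ∀ (H : Subgroup G) (φ : H →* MZ), (∀ g : H, φ g = 1 → QU (f g).val) → Q.on a H) :
    Q G a := by
  have h' : ∀ (M : Type) [Group M] (i : M →* G), Injective i → ∀ φ : M →* MZ,
      (∀ g, φ g = 1 → QU (f (i g)).val) → Q M (a.comp i) := fun M _ i hi φ hφ => by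
    let e := MonoidHom.ofInjective hi
    refine XL2_sub hs (h i.range (φ.comp e.symm.toMonoidHom) fun g hg => ?_) e.toMonoidHom
      (fun _ => rfl) e.injective
    obtain ⟨x, rfl⟩ := e.surjective g
    exact hφ x (by simpa using hg)
  refine XL2_glnF hs hl h2 f fun H hH => hl fun M hM => ?_
  let i : M →* G := H.subtype.comp M.subtype
  have hi : Injective i := H.subtype_injective.comp M.subtype_injective
  obtain ⟨A, f₀, hA, hf₀⟩ :=
    GN.exists_fg_subring ((Group.fg_iff_subgroup_fg M).2 hM) K n (f.comp i)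
  obtain ⟨L, _, _, ⟨ev⟩⟩ := Uni1_ev A hA
  obtain ⟨N, Ψ, hΨ⟩ := Lin_res L n
  have e : ∀ g, (f (i g)).val = A.subtype.mapMatrix (f₀ g).val := fun g =>
    congrArg Units.val (hf₀ g).symm
  refine glQ_of hs hl hf ((Units.map (Ψ.comp ev.mapMatrix).toMonoidHom).comp f₀)
    fun M₁ φ hφ => ?_
  let T := Abelianization H ⧸ CommGroup.torsion (Abelianization H)
  let π : H →* T := (QuotientGroup.mk' _).comp Abelianization.of
  refine abq_of hs hl hf (A := Multiplicative ℤ × T) XL2_tf
    (φ.prod (π.comp (M.subtype.comp M₁.subtype))) fun M₂ ψ hψ => ?_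
  refine h' M₂ (i.comp (M₁.subtype.comp M₂.subtype))
    (hi.comp (M₁.subtype_injective.comp M₂.subtype_injective)) ψ fun x hx => ?_
  have h0 := Prod.ext_iff.1 (hψ x hx)
  have h1 : IsOfFinOrder (Abelianization.of (x.1.1 : H)) := (QuotientGroup.eq_one_iff _).1 h0.2
  obtain ⟨k, hk, h2⟩ := isOfFinOrder_iff_pow_eq_one.1 h1
  have h3 : i (x.1.1 ^ k) ∈ ⁅H, H⁆ := by
    rw [← H.map_subtype_commutator]
    refine ⟨(x.1.1 : H) ^ k, ?_, rfl⟩
    rw [← Abelianization.ker_of]
    exact (map_pow _ _ _).trans h2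
  obtain ⟨m, hm, h4⟩ := Lin_qu A ev (f₀.comp (M₁.subtype.comp (zpowersHom M₁ (x.1 ^ k))))
    (fun j => by
      have h5 := hH _ (Subgroup.zpow_mem _ h3 j.toAdd)
      rw [← map_zpow, e, RingHom.mapMatrix_apply, ← AddMonoidHom.map_trace] at h5
      exact (isAlgebraic_algHom_iff A.subtype.toIntAlgHom A.subtype_injective).1 h5)
    (fun j => by
      obtain ⟨m, hm, h5⟩ := hφ ((x.1 ^ k) ^ j.toAdd) (by
        rw [map_zpow, map_pow, show φ x.1 = 1 from h0.1, one_pow, _root_.one_zpow])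
      refine ⟨m, hm, (IsNilpotent.map_iff hΨ).1 ?_⟩
      rw [map_sub, map_pow, map_one]
      exact h5) (Multiplicative.ofAdd 1)
  refine ⟨k * m, Nat.mul_pos hk hm, ?_⟩
  change IsNilpotent ((f (i x.1.1)).val ^ (k * m) - 1)
  rw [pow_mul, ← Units.val_pow_eq_pow_val, ← map_pow, ← map_pow, e]
  simpa using h4

variable {G : Type} [Group G]

variable (Q) in
/-- Reduction to extensions by subgroups of `ℤ` of groups whose elements satisfy `P`. -/
def XL2_Red (P : G → Prop) : Prop :=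
  ∀ (M : Type) [Group M] (a : M →* G₀) (i : M →* G), (∀ (H : Type) [Group H] (j : H →* M),
    Injective j → ∀ φ : H →* MZ, (∀ g, φ g = 1 → P (i (j g))) → Q H (a.comp j)) → Q M a

variable (Q) in
/-- Reduction to groups whose commutator subgroup satisfies `P`. -/
def XL2_Red2 (P : G → Prop) : Prop :=
  ∀ (M : Type) [Group M] (a : M →* G₀) (i : M →* G),
    (∀ H : Subgroup M, (∀ g ∈ ⁅H, H⁆, P (i g)) → Q.on a H) → Q M a

theorem XL2_mono {P P' : G → Prop} (h : XL2_Red Q P) (hP : ∀ g, P g → P' g) : XL2_Red Q P' :=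
  fun M _ a i hM => h M a i fun H _ j hj φ hφ => hM H j hj φ fun g hg => hP _ (hφ g hg)

theorem XL2_mono2 {P P' : G → Prop} (h : XL2_Red2 Q P) (hP : ∀ g, P g → P' g) : XL2_Red2 Q P' :=
  fun M _ a i hM => h M a i fun H hH => hM H fun g hg => hP _ (hH g hg)

theorem XL2_and (hq : Q.Abq) {P P' : G → Prop} (h : XL2_Red Q P) (h' : XL2_Red Q P') :
    XL2_Red Q fun g => P g ∧ P' g :=
  fun M _ a i hM => h M a i fun H _ j hj φ hφ => h' H (a.comp j) (i.comp j)
    fun _ _ j₂ hj₂ φ₂ hφ₂ => hq (A := Multiplicative ℤ × Multiplicative ℤ) XL2_tf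
      ((φ.comp j₂).prod φ₂) fun H₃ ψ hψ =>
      hM H₃ (j.comp (j₂.comp H₃.subtype)) (hj.comp (hj₂.comp H₃.subtype_injective)) ψ fun g hg =>
        ⟨hφ _ (congrArg Prod.fst (hψ g hg)), hφ₂ _ (congrArg Prod.snd (hψ g hg))⟩

theorem XL2_and2 (hs : Q.Sub) {P P' : G → Prop} (h : XL2_Red2 Q P) (h' : XL2_Red2 Q P') :
    XL2_Red2 Q fun g => P g ∧ P' g :=
  fun M _ a i hM => h M a i fun H hH => h' H (a.comp H.subtype) (i.comp H.subtype) fun H₂ hH₂ =>
    XL2_sub hs (hM (H₂.map H.subtype) fun g hg => ⟨hH g (Subgroup.commutator_mono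
      (Subgroup.map_subtype_le _) (Subgroup.map_subtype_le _) hg), by
        rw [← Subgroup.map_commutator] at hg
        obtain ⟨x, hx, rfl⟩ := hg
        exact hH₂ x hx⟩) (H₂.equivMapOfInjective _ H.subtype_injective).toMonoidHom
      (fun _ => rfl) (MulEquiv.injective _)

theorem XL2_all (hq : Q.Abq) {ι : Type} {P : ι → G → Prop} (h : ∀ a, XL2_Red Q (P a))
    (s : Finset ι) : XL2_Red Q fun g => ∀ a ∈ s, P a g := by
  classical
  induction s using Finset.induction_on with
  | empty =>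
    exact fun M _ _ i hM => hM M (MonoidHom.id _) injective_id 1 fun _ _ _ h => by simp at h
  | insert a s _ ih => exact XL2_mono (XL2_and hq (h a) ih) fun g hg => by simpa using hg

theorem XL2_all2 (hs : Q.Sub) {ι : Type} {P : ι → G → Prop} (h : ∀ a, XL2_Red2 Q (P a))
    (s : Finset ι) : XL2_Red2 Q fun g => ∀ a ∈ s, P a g := by
  classical
  induction s using Finset.induction_on with
  | empty =>
    exact fun M _ _ i hM => XL2_sub hs (hM ⊤ fun _ _ _ h => by simp at h)
      Subgroup.topEquiv.symm.toMonoidHom (fun _ => rfl) (MulEquiv.injective _)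
  | insert a s _ ih => exact XL2_mono2 (XL2_and2 hs (h a) ih) fun g hg => by simpa using hg

theorem XL2_red (hq : Q.Abq) {P : G → Prop} (h : XL2_Red2 Q P) :
    XL2_Red Q fun g => ∃ k, 0 < k ∧ P (g ^ k) :=
  fun M _ a i hM => h M a i fun H hH => XL2_iso hq H fun L ψ hψ =>
    hM L (H.subtype.comp L.subtype) (H.subtype_injective.comp L.subtype_injective) ψ fun g hg => by
      obtain ⟨k, hk, h1⟩ := hψ g hg
      exact ⟨k, hk, map_pow i _ k ▸ hH _ h1⟩

theorem XL2_coeff (hL : Q.Lat2) (p : ℕ) [Fact p.Prime] {A : Type} [CommRing A] [IsDomain A]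
    [Algebra (ZMod p) A] [Algebra.FiniteType (ZMod p) A] {n : ℕ} (f : G →* GL (Fin n) A)
    (c : ℕ) : XL2_Red2 Q fun g => IsIntegral (ZMod p) ((f g).val.charpoly.coeff c) := by
  intro M _ a i hM
  obtain ⟨L, _, φ, m, w, hφ, h1, h2⟩ := PT.exists_vals p A
  choose P ρ hρ using fun l => GN.exists_place (w l) (h1 l) n
  obtain ⟨κ, _, _, Λ, hΛ⟩ := exists_compound L n c
  let _ : Algebra (ZMod p) L := (φ.comp (algebraMap (ZMod p) A)).toAlgebra
  let φ' : A →ₐ[ZMod p] L := { φ with commutes' := fun _ => rfl }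
  have hk : ∀ x : GL (Fin n) A, (Λ (φ.mapMatrix x.val)).trace ∈
      (algebraicClosure (ZMod p) L).toSubfield ↔ IsIntegral (ZMod p) (x.val.charpoly.coeff c) :=
    fun x => by
      have h3 : (φ.mapMatrix x.val).charpoly.coeff c = φ' (x.val.charpoly.coeff c) := by
        rw [RingHom.mapMatrix_apply, charpoly_map, Polynomial.coeff_map]; rfl
      rw [← isIntegral_algHom_iff φ' hφ, ← h3, ← mem_algebraicClosure_iff']
      rcases hΛ (φ.mapMatrix x.val) with e | e <;> rw [e]
      · rfl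
      · exact neg_mem_iff
  refine hL P n (fun l => (ρ l).comp ((GeneralLinearGroup.map φ).comp (f.comp i)))
    (algebraicClosure (ZMod p) L).toSubfield
    (Λ.comp (φ.mapMatrix.toMonoidHom.comp ((Units.coeHom _).comp (f.comp i))))
    (fun g hg => (hk _).2 (h2 _ fun l => ?_)) fun H hH => hM H fun g hg => (hk _).1 (hH g hg)
  have h3 : (GeneralLinearGroup.map φ (f (i g))).val.charpoly = (f (i g)).val.charpoly.map φ :=
    charpoly_map _ φ
  have := hρ l _ (hg l) c
  rwa [MonoidHom.comp_apply, MonoidHom.comp_apply, h3, Polynomial.coeff_map] at this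

theorem XL2_domain (hs : Q.Sub) (hl : Q.Loc) (hf : Q.Flow) (h2 : Q.Lat2) {A : Type} [CommRing A]
    [IsDomain A] (hA : Algebra.FiniteType ℤ A) {n : ℕ} (f : G →* GL (Fin n) A) :
    XL2_Red Q fun g => QU (f g).val := by
  have hc : CharP A (ringChar A) := ringChar.charP _
  rcases CharP.char_is_prime_or_zero A (ringChar A) with hp | hp
  · have : Fact (ringChar A).Prime := ⟨hp⟩
    let _ := ZMod.algebra A (ringChar A)
    have : Algebra.FiniteType (ZMod (ringChar A)) A :=
      Algebra.FiniteType.of_restrictScalars_finiteType ℤ _ _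
    refine XL2_mono (XL2_red (abq_of hs hl hf)
      (XL2_all2 hs (XL2_coeff h2 (ringChar A) f) (Finset.range (n + 1)))) ?_
    rintro g ⟨k, hk, h⟩
    obtain ⟨m, hm, h1⟩ := isOfFinOrder_iff_pow_eq_one.1
      (GN.finOrder_of_integral (ringChar A) A n (f (g ^ k)) fun c => by
        by_cases hc : c < n + 1
        · exact h c (Finset.mem_range.2 hc)
        · rw [Polynomial.coeff_eq_zero_of_natDegree_lt (by
            rw [charpoly_natDegree_eq_dim, Fintype.card_fin]; omega)]
          exact isIntegral_zero)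
    refine ⟨k * m, Nat.mul_pos hk hm, ?_⟩
    rw [← Units.val_pow_eq_pow_val, pow_mul, ← map_pow f g k, h1, Units.val_one, sub_self]
    exact IsNilpotent.zero
  · rw [hp] at hc
    have := CharP.charP_to_charZero A
    have hi := IsFractionRing.injective A (FractionRing A)
    have : CharZero (FractionRing A) := charZero_of_injective_algebraMap hi
    intro M _ a i hM
    refine XL2_glQU hs hl hf h2
      ((GeneralLinearGroup.map (algebraMap A (FractionRing A))).comp (f.comp i))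
      fun H φ hφ => hM H H.subtype H.subtype_injective φ fun g hg => ?_
    obtain ⟨m, hm, h1⟩ := hφ g hg
    refine ⟨m, hm, (IsNilpotent.map_iff (f := (algebraMap A (FractionRing A)).mapMatrix)
      (Matrix.map_injective hi)).1 ?_⟩
    rw [map_sub, map_pow, map_one]
    exact h1

end aux

theorem gl_of (hs : Q.Sub) (hl : Q.Loc) (hf : Q.Flow) (h2 : Q.Lat2) : Q.Gl := by
  intro G A _ _ a n f h
  refine hl fun M hM => ?_
  obtain ⟨A₀, f₀, hA, hf₀⟩ :=
    GN.exists_fg_subring ((Group.fg_iff_subgroup_fg M).2 hM) A n (f.comp M.subtype)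
  have : IsNoetherianRing A₀ := Algebra.FiniteType.isNoetherianRing ℤ A₀
  have : Finite (minimalPrimes A₀) := (minimalPrimes.finite_of_isNoetherianRing A₀).to_subtype
  have := Fintype.ofFinite (minimalPrimes A₀)
  refine XL2_all (abq_of hs hl hf) (fun T : minimalPrimes A₀ =>
    have := Ideal.minimalPrimes_isPrime T.2
    XL2_domain hs hl hf h2 (hA.of_surjective (Ideal.Quotient.mk T.1).toIntAlgHom
      Ideal.Quotient.mk_surjective)
      ((Matrix.GeneralLinearGroup.map (Ideal.Quotient.mk T.1)).comp f₀)) Finset.univ M _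
    (MonoidHom.id _) fun H _ j hj φ hφ => ?_
  have hi : Function.Injective (M.subtype.comp j) := M.subtype_injective.comp hj
  let e := MonoidHom.ofInjective hi
  refine XL2_sub hs (h _ (φ.comp e.symm.toMonoidHom) fun g hg => ?_) e.toMonoidHom
    (fun _ => rfl) e.injective
  obtain ⟨x, rfl⟩ := e.surjective g
  obtain ⟨m, hm, h1⟩ := GS.qu_of_primes (f₀ (j x)).val fun T =>
    hφ x (by simpa using hg) T (Finset.mem_univ T)
  have h3 := h1.map A₀.subtype.mapMatrix
  rw [map_sub, map_pow, map_one] at h3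
  have h4 : A₀.subtype.mapMatrix (f₀ (j x)).val = (f (j x)).val := congrArg Units.val (hf₀ (j x))
  exact ⟨m, hm, h4 ▸ h3⟩

end Pool.Agent.MP_f7db47_al.KN
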