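import Pool.Agent.MP_f7db47_al.KN.XT
import Pool.Agent.MP_f7db47_al.KN.DG
import Pool.Agent.MP_f7db47_al.TW.AQb

/-!
Controlled standard forms.
-/

namespace Pool.Agent.MP_f7db47_al.KN

open Matrix GN

universe v w

theorem xn_core {A : Type v} [Ring A] {Λ ι : Type} {𝓗 : ℕ → Fam A Λ} {S : ι → Submonoid A}
    (hH : Gr 𝓗 S) {k k₀ : ℕ} {X : Cx A Λ} (hX : Ok (𝓗 k) X) {E M : Type} [Fintype E]
    [DecidableEq E] [Fintype M] [DecidableEq M] {tE : E → Λ × ℤ} {tM : M → Λ × ℤ}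
    {e : Matrix E E A} {m : Matrix M M A} {f : Matrix M (X.J ⊕ E) A} {g : Matrix (X.J ⊕ E) M A}
    (he : Hm (𝓗 0) 0 tE tE e) (hm : Hm (𝓗 0) 0 tM tM m)
    (hf : Hm (𝓗 k₀) 0 tM (Sum.elim X.t tE) f) (hg : Hm (𝓗 k₀) 0 (Sum.elim X.t tE) tM g)
    (gf : g * f = fromBlocks X.p 0 0 e) (fg : f * g = m) (fp : f * fromBlocks X.p 0 0 e = f)
    (pg : fromBlocks X.p 0 0 e * g = g) :
    ∃ D, Ok (𝓗 (k₀ + k + k₀)) ⟨M ⊕ E, Sum.elim tM fun i => ((tE i).1, (tE i).2 + 1),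
        fromBlocks m 0 0 e, D⟩ ∧ HE (𝓗 (k₀ + k + k₀)) X
        ⟨M ⊕ E, Sum.elim tM fun i => ((tE i).1, (tE i).2 + 1), fromBlocks m 0 0 e, D⟩ := by
  obtain ⟨a, b, rfl⟩ : ∃ a b, f = fromCols a b := ⟨_, _, (fromCols_toCols f).symm⟩
  obtain ⟨c, d, rfl⟩ : ∃ c d, g = fromRows c d := ⟨_, _, (fromRows_toRows g).symm⟩
  rw [fromRows_mul_fromCols, fromBlocks_inj] at gf
  obtain ⟨ca, cb, da, db⟩ := gf
  rw [fromCols_mul_fromRows] at fg
  simp only [fromCols_mul_fromBlocks, fromBlocks_mul_fromRows, Matrix.mul_zero, Matrix.zero_mul,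
    add_zero, zero_add, fromCols_ext_iff, fromRows_ext_iff] at fp pg
  obtain ⟨ap, be⟩ := fp
  obtain ⟨pc, ed⟩ := pg
  have ha : Hm (𝓗 k₀) 0 tM X.t a := fun i j => hf i (.inl j)
  have hb : Hm (𝓗 k₀) 0 tM tE b := fun i j => hf i (.inr j)
  have hc : Hm (𝓗 k₀) 0 X.t tM c := fun i j => hg (.inl i) j
  have hd : Hm (𝓗 k₀) 0 tE tM d := fun i j => hg (.inr i) j
  have m0 := hH.mono (Nat.zero_le (k₀ + k + k₀))
  have m1 := hH.mono (Nat.le_add_left k₀ (k₀ + k))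
  have ca' : ∀ {I : Type} (x : Matrix X.J I A), c * (a * x) = X.p * x := fun x => by
    rw [← Matrix.mul_assoc, ca]
  have da' : ∀ {I : Type} (x : Matrix X.J I A), d * (a * x) = 0 := fun x => by
    rw [← Matrix.mul_assoc, da, Matrix.zero_mul]
  have pD : ∀ {I : Type} (x : Matrix X.J I A), X.p * (X.D * x) = X.D * x := fun x => by
    rw [← Matrix.mul_assoc, hX.pD]
  have DD : ∀ {I : Type} (x : Matrix X.J I A), X.D * (X.D * x) = 0 := fun x => by
    rw [← Matrix.mul_assoc, hX.DD, Matrix.zero_mul]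
  have cb' : ∀ {I : Type} (x : Matrix E I A), c * (b * x) = 0 := fun x => by
    rw [← Matrix.mul_assoc, cb, Matrix.zero_mul]
  have db' : ∀ {I : Type} (x : Matrix E I A), d * (b * x) = e * x := fun x => by
    rw [← Matrix.mul_assoc, db]
  have ee : e * e = e := by rw [← db' e, be, db]
  subst fg
  refine ⟨fromBlocks (a * X.D * c) b 0 0, ⟨Hm.blocks (hm.mono m0) (Hm.zero _ _) (Hm.zero _ _)
    ((he.mono m0).shift 1 1 (by omega)), Hm.blocks (Hm.mul_gr hH (Hm.mul_gr hH ha hX.hD rfl le_rfl)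
    hc (by omega) le_rfl) ((hb.mono m1).shift_right 1 (by omega)) (Hm.zero _ _) (Hm.zero _ _),
    ?_, ?_, ?_, ?_⟩, fromRows a 0, fromCols c 0, 0, fromBlocks 0 0 d 0,
    ⟨⟨Hm.rows (ha.mono m1) (Hm.zero _ _), ?_, ?_⟩, ?_⟩,
    ⟨⟨Hm.cols (hc.mono m1) (Hm.zero _ _), ?_, ?_⟩, ?_⟩, Hm.zero _ _,
    Hm.blocks (Hm.zero _ _) (Hm.zero _ _) ((hd.mono m1).shift_left 1 (by omega)) (Hm.zero _ _),
    ?_, ?_⟩ <;>
  first
  | (rw [fromRows_mul_fromCols]
     simp [fromBlocks_multiply, fromBlocks_add, Matrix.mul_assoc, db, da'])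
  | simp [fromBlocks_multiply, fromBlocks_mul_fromRows, fromCols_mul_fromBlocks, fromRows_mul,
      mul_fromCols, fromCols_mul_fromRows, Matrix.mul_add, Matrix.add_mul, Matrix.mul_assoc, ca,
      cb, da, db, ca', da', cb', db', pD, DD, ee, ap, be, pc, ed, hX.Dp]

variable {ι : Type} {κ : Type w} {R : Type v} [Ring R] {G : Type} [Group G]
  [MulSemiringAction G R]

theorem xn_std {D : Subring R} [IsInvariantSubring G D] {Λ Λ' I : Type} {l : I → Λ'}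
    {e : Matrix I I (SkewMonoidAlgebra D G)} (h : TW.Std l e) {r : Λ → G → Λ → Prop}
    (hr : ∀ a, r a 1 a) (t : I → Λ × ℤ) : Hm (ctl D r) 0 t t (e.map (incD D)) ∧
      (∀ i j, i ≠ j → e.map (incD D) i j = 0) ∧
      ∀ i, e.map (incD D) i i = 1 ∨ e.map (incD D) i i = 0 := by
  have h1 : ∀ i j, i ≠ j → e.map (incD D) i j = 0 := fun i j c => by
    rw [Matrix.map_apply, h.1 i j c, map_zero]
  have h2 : ∀ i, e.map (incD D) i i = 1 ∨ e.map (incD D) i i = 0 := fun i =>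
    (h.2 i).imp (fun c => by rw [Matrix.map_apply, c, map_one])
      fun c => by rw [Matrix.map_apply, c, map_zero]
  refine ⟨fun i j => ?_, h1, h2⟩
  by_cases c : i = j
  · subst c
    refine ⟨?_, fun _ => by simp⟩
    rcases h2 i with c | c <;> rw [c]
    exacts [one_mem_ctl D (hr _), zero_mem _]
  · rw [h1 i j c]
    exact ⟨zero_mem _, fun c => absurd rfl c⟩

theorem sn (C : Coef ι κ R) [C.Inv G] (N : ℕ) : SN G C N := fun I k L => by
  obtain ⟨k₀, h⟩ := TW.exists_q0 (R := C.D I) N k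
  refine ⟨k₀ + k + k₀, fun Λ B S hB X hX hL => ?_⟩
  let B' : Gpd G (Λ × Set.Icc (-(L : ℤ)) L) :=
    { r := fun x g y => B.r x.1 g y.1 ∧ x.2 = y.2
      refl := fun x => ⟨B.refl _, rfl⟩
      symm := fun c => ⟨B.symm c.1, c.2.symm⟩
      trans := fun c c' => ⟨B.trans c.1 c'.1, c.2.trans c'.2⟩ }
  obtain ⟨p, e0, hp⟩ := xt_lift hX.hp
  obtain ⟨E, M, _, _, _, _, lE, lM, e, m, f, g, he, hm, hi⟩ :=
    h G _ B' (fun i => (S i).pull (MonoidHom.id G) Prod.fst)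
      (fun a => ((hB a.1).1 I).sub (Subgroup.inclusion fun _ hx => hx.1)
        (Subgroup.inclusion_injective _)) X.J (fun j => ((X.t j).1, ⟨(X.t j).2, hL j⟩)) p
      (xt_inj (by rw [Matrix.map_mul, e0, hX.pp]))
      fun i j => (hp i j).mono fun _ c => ⟨⟨c.1.1, Subtype.ext (by simpa using c.2)⟩, c.1.2⟩
  obtain ⟨e1, e2, e3⟩ := xn_std he (CR B S).refl fun i => ((lE i).1, ((lE i).2 : ℤ))
  obtain ⟨m1, m2, m3⟩ := xn_std hm (CR B S).refl fun i => ((lM i).1, ((lM i).2 : ℤ))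
  have e4 : (fromBlocks p 0 0 e).map (incD (C.D I)) = fromBlocks X.p 0 0 (e.map (incD _)) := by
    rw [fromBlocks_map, e0, Matrix.map_zero _ (map_zero _), Matrix.map_zero _ (map_zero _)]
  obtain ⟨D, h1, h2⟩ := xn_core (C.gr I (CR B S)) (k₀ := k₀) hX e1 m1 (f := f.map (incD _))
    (g := g.map (incD _))
    (xt_back fun i j => (hi.cf i j).mono fun _ c => by
      rcases j with j | j <;>
        exact ⟨⟨c.1.1, c.2⟩, (congrArg Subtype.val c.1.2).trans (add_zero _).symm⟩)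
    (xt_back fun i j => (hi.cg i j).mono fun _ c => by
      rcases i with i | i <;>
        exact ⟨⟨c.1.1, c.2⟩, (congrArg Subtype.val c.1.2).trans (add_zero _).symm⟩)
    (by rw [← Matrix.map_mul, hi.gf, e4]) (by rw [← Matrix.map_mul, hi.fg])
    (by rw [← e4, ← Matrix.map_mul, hi.fp]) (by rw [← e4, ← Matrix.map_mul, hi.pg])
  refine ⟨_, h1, ⟨?_, ?_⟩, ?_, h2⟩
  · rintro (i | i) (j | j) c
    exacts [m2 i j fun d => c (congrArg _ d), rfl, rfl, e2 i j fun d => c (congrArg _ d)]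
  · rintro (i | i)
    exacts [m3 i, e3 i]
  · rintro (i | i)
    · obtain ⟨c1, c2⟩ := (lM i).2.2
      change ((lM i).2 : ℤ) ∈ Set.Icc _ _
      constructor <;> push_cast <;> omega
    · obtain ⟨c1, c2⟩ := (lE i).2.2
      change ((lE i).2 : ℤ) + 1 ∈ Set.Icc _ _
      constructor <;> push_cast <;> omega

end Pool.Agent.MP_f7db47_al.KN
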