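import Pool.Agent.MP_f7db47_al.KN.XT
import Pool.Agent.MP_f7db47_al.TW.ZLat
import Pool.Agent.MP_f7db47_al.VC.SwG

/-!
Induction for complexes with supports.
-/

namespace Pool.Agent.MP_f7db47_al.KN

open Matrix TW VC

universe v w

variable {R : Type v} [Ring R] {G : Type} [Group G] [MulSemiringAction G R] {ι Λ Λ' : Type}
  {D : Subring R} {S : ι → Submonoid (SkewMonoidAlgebra R G)} {K : Finset ι}
  {r : Λ → G → Λ → Prop} {r' : Λ' → G → Λ' → Prop} {m m' : Type}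

theorem xs_hm {d : ℤ} {J : Type} {s : J → Λ × ℤ} {M : Matrix J J (SkewMonoidAlgebra R G)}
    (h : Hm (ctl D r) d s s M) (φ : G → Matrix m m' ℤ) (l : m → Λ') (l' : m' → Λ')
    (hr : ∀ a g b x y, r a g b → φ g x y ≠ 0 → r' (l x) g (l' y)) :
    Hm (ctl D r') d (fun x : J × m => (l x.2, (s x.1).2)) (fun y : J × m' => (l' y.2, (s y.1).2))
      (ZLat_Tw φ M) := fun x y => by
  refine ⟨fun g => ?_, fun e => (h x.1 y.1).2 fun e1 => e (by rw [ZLat_Tw, e1, map_zero])⟩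
  rw [ZLat_Tw, ZLat_coeff]
  exact ⟨zsmul_mem ((h x.1 y.1).1 g).1 _, fun e => hr _ _ _ _ _
    (((h x.1 y.1).1 g).2 (right_ne_zero_of_smul e)) (left_ne_zero_of_smul e)⟩

theorem xs_ful {d : ℤ} {J : Type} {s : J → Unit × ℤ} {M : Matrix J J (SkewMonoidAlgebra R G)}
    (h : Hm (ful G D) d s s M) (φ : G → Matrix m m' ℤ) :
    Hm (ful G D) d (fun x : J × m => ((), (s x.1).2)) (fun y : J × m' => ((), (s y.1).2))
      (ZLat_Tw φ M) := xs_hm h φ (fun _ => ()) (fun _ => ()) fun _ _ _ _ _ _ _ => trivial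

omit [Group G] [MulSemiringAction G R] in
theorem xs_zero {J : Type} (φ : G → Matrix m m' ℤ) :
    ZLat_Tw φ (0 : Matrix J J (SkewMonoidAlgebra R G)) = 0 :=
  Matrix.ext fun _ _ => map_zero (ZLat_wt _)

omit [Group G] [MulSemiringAction G R] in
theorem xs_add {J : Type} (φ : G → Matrix m m' ℤ) (A B : Matrix J J (SkewMonoidAlgebra R G)) :
    ZLat_Tw φ (A + B) = ZLat_Tw φ A + ZLat_Tw φ B :=
  Matrix.ext fun _ _ => map_add (ZLat_wt _) _ _

theorem xs_smul {J : Type} (φ : G → Matrix m m' ℤ) (c : R)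
    (A : Matrix J J (SkewMonoidAlgebra R G)) :
    ZLat_Tw φ (SkewMonoidAlgebra.single (1 : G) c • A) =
      SkewMonoidAlgebra.single (1 : G) c • ZLat_Tw φ A := by
  ext x y g
  simp only [ZLat_Tw, Matrix.smul_apply, smul_eq_mul, ZLat_coeff,
    SkewMonoidAlgebra.coeff_single_one_mul, mul_smul_comm]

variable [Fintype m] [DecidableEq m] [Fintype m'] [DecidableEq m']

/-- The twist of a free complex by an integral representation. -/
@[reducible] noncomputable def Cx.tw (X : Cx (SkewMonoidAlgebra R G) Λ) (a : G → Matrix m m ℤ)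
    (l : m → Λ') : Cx (SkewMonoidAlgebra R G) Λ' where
  J := X.J × m
  t x := (l x.2, (X.t x.1).2)
  p := 1
  D := ZLat_Tw a X.D

theorem Obj.tw {X : Cx (SkewMonoidAlgebra R G) Λ} (hS : Sca D S) (h : Obj (ctl D r) S K X)
    (hp : X.p = 1) (a : G →* Matrix m m ℤ) (l : m → Λ')
    (hr : ∀ b g c x y, r b g c → a g x y ≠ 0 → r' (l x) g (l y)) :
    Obj (ctl D r') S K (X.tw a l) := by
  have h1 : ZLat_Tw a X.p = 1 := by rw [hp, ZLat_Tw_one (map_one a)]
  refine ⟨⟨(h1 ▸ xs_hm h.ok.hp a l l hr :), xs_hm h.ok.hD a l l hr, mul_one _, one_mul _, mul_one _,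
    ?_⟩, fun i hi => ?_⟩
  · rw [ZLat_Tw_mul (map_mul a), h.ok.DD, xs_zero]
  · obtain ⟨w, hw, s, h2, h3⟩ := h.tor i hi
    refine ⟨w, hw, ZLat_Tw a s, xs_hm h2 a l l hr, ?_⟩
    obtain ⟨c, -, rfl⟩ := hS.sc i w hw
    rw [ZLat_Tw_mul (map_mul a), ZLat_Tw_mul (map_mul a), ← xs_add, h3, xs_smul, h1]

/-- The invariant given by twisting a fixed free complex. -/
noncomputable def xs_swan (hS : Sca D S) {M : Type w} [AddCommGroup M]
    (E : KS (ful G D) S K Set.univ M) {X : Cx (SkewMonoidAlgebra R G) Unit}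
    (hX : Obj (ful G D) S K X) (hp : X.p = 1) : Swan G M where
  κ a := E.cls (X.tw a fun _ => ())
  conj {m m'} _ _ _ _ a b T T' h1 h2 h := by
    have h' : ∀ g, T' * b g = a g * T' := fun g => by
      rw [← Matrix.mul_one (T' * b g), ← h1, ← Matrix.mul_assoc, Matrix.mul_assoc T', ← h,
        ← Matrix.mul_assoc, h2, Matrix.one_mul]
    have key : ∀ {m m' : Type} [Fintype m] [DecidableEq m] [Fintype m'] [DecidableEq m']
        (a : G →* Matrix m m ℤ) (b : G →* Matrix m' m' ℤ) (T : Matrix m' m ℤ),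
        (∀ g, T * a g = b g * T) → Ch (ful G D) (X.tw b fun _ => ()) (X.tw a fun _ => ())
          (ZLat_Tw (fun g => T * a g) X.p) := fun a b T h => by
      refine ⟨⟨xs_ful hX.ok.hp _, Matrix.one_mul _, Matrix.mul_one _⟩, ?_⟩
      rw [ZLat_Tw_mul (φ := fun g => T * a g), ZLat_Tw_mul (φ := fun g => T * a g), hX.ok.Dp,
        hX.ok.pD]
      · intro g k
        rw [map_mul, Matrix.mul_assoc]
      · intro g k
        rw [← Matrix.mul_assoc, ← h, map_mul, Matrix.mul_assoc]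
    refine E.he (hX.tw hS hp a _ fun _ _ _ _ _ _ _ => trivial)
      (hX.tw hS hp b _ fun _ _ _ _ _ _ _ => trivial) (Wd.univ _) (Wd.univ _)
      (HE.of_iso (key a b T h) (key b a T' h') ?_ ?_)
    · rw [ZLat_Tw_mul (φ := a), hp, mul_one, ZLat_Tw_one (map_one a)]
      intro g k
      rw [h', Matrix.mul_assoc, ← Matrix.mul_assoc T', h2, Matrix.one_mul, map_mul]
    · rw [ZLat_Tw_mul (φ := b), hp, mul_one, ZLat_Tw_one (map_one b)]
      intro g k
      rw [h, Matrix.mul_assoc, ← Matrix.mul_assoc T, h1, Matrix.one_mul, map_mul]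
  block {m m'} _ _ _ _ c a d b h := by
    have hc := hX.tw (r' := fun (_ : Unit) _ _ => True) hS hp c (fun _ => ())
      fun _ _ _ _ _ _ _ => trivial
    have ha := hX.tw (r' := fun (_ : Unit) _ _ => True) hS hp a (fun _ => ())
      fun _ _ _ _ _ _ _ => trivial
    have hd := hX.tw (r' := fun (_ : Unit) _ _ => True) hS hp d (fun _ => ())
      fun _ _ _ _ _ _ _ => trivial
    have hs := (Sub.of_equiv (X' := X.tw c fun _ => ())
      (X := (X.tw a fun _ => ()).ext (X.tw d fun _ => ()) (ZLat_Tw b X.D))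
      (Equiv.prodSumDistrib X.J m m') (by rintro ⟨i, x | x⟩ <;> rfl)
      (by simp only [fromBlocks_one, submatrix_one_equiv]) (by
        rw [show (c : G → _) = _ from funext h]
        ext1 ⟨i, x | x⟩ ⟨j, y | y⟩
        · rfl
        · rfl
        · exact ZLat_wt_zero _
        · rfl)).1
    have ho := hs.obj_iff.1 hc
    have ht : Tw (ful G D) (X.tw a fun _ => ()) (X.tw d fun _ => ()) (ZLat_Tw b X.D) := by
      refine ⟨⟨xs_ful hX.ok.hD _, Matrix.one_mul _, Matrix.mul_one _⟩, ?_⟩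
      have h1 := ho.ok.DD
      rw [fromBlocks_multiply, ← fromBlocks_zero, fromBlocks_inj] at h1
      exact h1.2.1
    rw [E.he hc ho (Wd.univ _) (Wd.univ _) (hs.he ho.ok), E.ext ha hd (Wd.univ _) (Wd.univ _) ht]

theorem VV.swan (hS : Sca D S) (T : Finset G) (L : ℕ) (h : ∀ π : ℕ, π.Prime →
    ∃ (s : ℕ) (X₀ : Type) (_ : Finite X₀) (σ₀ : G →* Equiv.Perm X₀) (X : Fin s → Type)
      (_ : ∀ i, Finite (X i)) (σ : ∀ i, G →* Equiv.Perm (X i)),
      VV D S K X₀ (fun x g y => g ∈ T ∧ σ₀ g y = x) L ∧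
      (∀ i, VV D S K (X i) (fun x g y => g ∈ T ∧ σ i g y = x) L) ∧
      (∀ i, ¬ π ∣ Nat.card (X i)) ∧ ∀ g, (∃! x, σ₀ g x = x) ∨ ∃ i, σ i g = 1) :
    VV D S K Unit (fun _ g _ => g ∈ T) L := by
  refine VV.of_one fun Y hY hB hp => ?_
  obtain ⟨M, _, ⟨E⟩⟩ := exists_KS hS.good K Set.univ
  have hY' : Obj (ful G D) S K Y := hY.lab ctl_ful
  have key : ∀ {X : Type} (σ : G →* Equiv.Perm X),
      VV D S K X (fun x g y => g ∈ T ∧ σ g y = x) L →
      ∀ (Z : Type) [Fintype Z] [DecidableEq Z] (τ : G →* Equiv.Perm Z) (u : Z → X),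
        (∀ g z, u (τ g z) = σ g (u z)) → (xs_swan hS E hY' hp).κ (permRep τ) = 0 := by
    intro X σ hV Z _ _ τ u he
    have h1 := hY.tw (r' := fun x g y => g ∈ T ∧ σ g y = x) hS hp (permRep τ) u
      fun _ g _ x y h1 h2 => ⟨h1, by
        rw [← he]
        exact congrArg u (by_contra fun e => h2 (if_neg e))⟩
    exact (E.zero_iff (h1.lab ctl_ful) (Wd.univ _)).2 (hV _ h1 (fun x => hB x.1) (std_one rfl))
  change Cert _ _ _ _ Y
  rw [← E.zero_iff hY' (Wd.univ _), ← AddMonoid.addOrderOf_eq_one_iff,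
    Nat.eq_one_iff_not_exists_prime_dvd]
  intro π hπ hd
  obtain ⟨n, X₀, _, σ₀, X, _, σ, c0, c1, c2, c3⟩ := h π hπ
  have h2 := swan_fh (xs_swan hS E hY' hp) σ₀ σ (key σ₀ c0) (fun i => key (σ i) (c1 i)) c3
  have h3 : (xs_swan hS E hY' hp).κ (1 : G →* Matrix Unit Unit ℤ) = E.cls Y :=
    E.he (hY'.tw hS hp (1 : G →* Matrix Unit Unit ℤ) _ fun _ _ _ _ _ _ _ => trivial) hY' (Wd.univ _) (Wd.univ _)
      ((Sub.of_equiv (X' := Y.tw (1 : G →* Matrix Unit Unit ℤ) fun _ => ())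
        (Equiv.prodUnique Y.J Unit) (fun _ => rfl) (by rw [hp, submatrix_one_equiv])
        (Matrix.ext fun _ _ => ZLat_wt_one _)).1.he hY'.ok)
  rw [h3] at h2
  obtain ⟨i, -, hi⟩ := (hπ.prime.dvd_finsetProd_iff _).1
    (hπ.dvd_of_dvd_pow (hd.trans (addOrderOf_dvd_of_nsmul_eq_zero h2)))
  exact c2 i hi

end Pool.Agent.MP_f7db47_al.KN
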