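import Pool.Agent.MP_f7db47_al.KN.XV
import Pool.Agent.MP_f7db47_al.KN.XC
import Pool.Agent.MP_f7db47_al.KN.A8

/-!
The transfer for complexes with supports.
-/

namespace Pool.Agent.MP_f7db47_al.KN

open Matrix

universe v

variable {R : Type v} [Ring R] {G : Type} [Group G] [MulSemiringAction G R] {ι Λ : Type}

section Inc

variable (D : Subring R) [IsInvariantSubring G D]

/-- The additive inclusion of twisted group rings. -/
noncomputable def xt_add : SkewMonoidAlgebra D G →+ SkewMonoidAlgebra R G where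
  toFun x := SkewMonoidAlgebra.ofCoeff (x.coeff.mapRange Subtype.val rfl)
  map_zero' := by ext; simp
  map_add' x y := by ext; simp

omit [Group G] [MulSemiringAction G R] [IsInvariantSubring G D] in
theorem xt_single (g : G) (c : D) :
    xt_add D (SkewMonoidAlgebra.single g c) = SkewMonoidAlgebra.single g (c : R) :=
  congrArg SkewMonoidAlgebra.ofCoeff Finsupp.mapRange_single

/-- The inclusion of twisted group rings. -/
noncomputable def incD : SkewMonoidAlgebra D G →+* SkewMonoidAlgebra R G where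
  __ := xt_add D
  map_one' := xt_single D 1 1
  map_mul' x y := by
    change xt_add D (x * y) = xt_add D x * xt_add D y
    induction x using TW.Sk.induction_linear with
    | zero => simp
    | add x x' hx hx' => simp only [map_add, add_mul, hx, hx']
    | single g r =>
      induction y using TW.Sk.induction_linear with
      | zero => simp
      | add y y' hy hy' => simp only [map_add, mul_add, hy, hy']
      | single k s =>
        simp only [SkewMonoidAlgebra.single_mul_single, xt_single]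
        rfl

theorem coeff_incD (x : SkewMonoidAlgebra D G) (g : G) : (incD D x).coeff g = x.coeff g := rfl

theorem incD_single (g : G) (c : D) :
    incD D (SkewMonoidAlgebra.single g c) = SkewMonoidAlgebra.single g (c : R) := xt_single D g c

theorem incD_inj : Function.Injective (incD (G := G) D) := fun x y h =>
  SkewMonoidAlgebra.ext fun g => Subtype.ext (by rw [← coeff_incD, h, coeff_incD])

variable {D}

theorem exists_incD {x : SkewMonoidAlgebra R G} (h : ∀ g, x.coeff g ∈ D) : ∃ y, incD D y = x :=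
  ⟨SkewMonoidAlgebra.ofCoeff (Finsupp.onFinset x.coeff.support (fun g => ⟨x.coeff g, h g⟩)
    fun _ hg => Finsupp.mem_support_iff.2 fun e => hg (Subtype.ext e)),
    SkewMonoidAlgebra.ext fun _ => rfl⟩

variable {r : Λ → G → Λ → Prop} {d : ℤ} {I J : Type} {s : I → Λ × ℤ} {t : J → Λ × ℤ}

theorem xt_lift {M : Matrix I J (SkewMonoidAlgebra R G)} (h : Hm (ctl D r) d s t M) :
    ∃ M₀ : Matrix I J (SkewMonoidAlgebra D G), M₀.map (incD D) = M ∧
      TW.MSup2 (fun i j => {g | r (s i).1 g (t j).1 ∧ (s i).2 = (t j).2 + d}) M₀ := by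
  choose M₀ hM using fun i j => exists_incD fun g => ((h i j).1 g).1
  refine ⟨M₀, Matrix.ext hM, fun i j g hg => ?_⟩
  have h1 : (M i j).coeff g ≠ 0 := by
    rw [← hM, coeff_incD]
    exact fun e => hg (Subtype.ext e)
  exact ⟨((h i j).1 g).2 h1, (h i j).2 fun e => h1 (by rw [e]; rfl)⟩

theorem xt_back {M₀ : Matrix I J (SkewMonoidAlgebra D G)}
    (h : TW.MSup2 (fun i j => {g | r (s i).1 g (t j).1 ∧ (s i).2 = (t j).2 + d}) M₀) :
    Hm (ctl D r) d s t (M₀.map (incD D)) := fun i j => by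
  have h1 : ∀ g, (incD D (M₀ i j)).coeff g ≠ 0 → _ := fun g hg =>
    h i j g fun e => hg (by rw [coeff_incD, e]; rfl)
  refine ⟨fun g => ⟨((M₀ i j).coeff g).2, fun e => (h1 g e).1⟩, fun e => ?_⟩
  by_contra h2
  exact e (SkewMonoidAlgebra.ext fun g => by_contra fun e1 => h2 (h1 g e1).2)

theorem xt_inj {M N : Matrix I J (SkewMonoidAlgebra D G)} (h : M.map (incD D) = N.map (incD D)) :
    M = N := Matrix.map_injective (incD_inj D) h

theorem xt_htpy [Fintype I] [DecidableEq I] (w : SkewMonoidAlgebra D G)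
    (M h : Matrix I I (SkewMonoidAlgebra D G)) : M * h + h * M = w • 1 ↔
      M.map (incD D) * h.map (incD D) + h.map (incD D) * M.map (incD D) = incD D w • 1 := by
  have h1 : (w • (1 : Matrix I I (SkewMonoidAlgebra D G))).map (incD D) = incD D w • 1 := by
    ext1 i j
    simp only [Matrix.map_apply, Matrix.smul_apply, smul_eq_mul, map_mul, Matrix.one_apply]
    split_ifs <;> simp
  rw [← h1, ← Matrix.map_mul, ← Matrix.map_mul, ← Matrix.map_add _ (map_add _)]
  exact ⟨fun e => by rw [e], xt_inj⟩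

end Inc

theorem hm_one {D : Subring R} {r : Λ → G → Λ → Prop} {I : Type} [DecidableEq I] {s : I → Λ × ℤ}
    (h : ∀ i, r (s i).1 1 (s i).1) : Hm (ctl D r) 0 s s 1 := fun i j => by
  classical
  rw [Matrix.one_apply]
  split_ifs with e
  · subst e
    refine ⟨fun g => ?_, fun _ => by simp⟩
    rw [SkewMonoidAlgebra.coeff_one, Finsupp.single_apply]
    split_ifs with e1
    · exact ⟨one_mem D, fun _ => e1 ▸ h i⟩
    · exact ⟨zero_mem D, fun e2 => absurd rfl e2⟩
  · exact ⟨zero_mem _, fun e2 => absurd rfl e2⟩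

theorem std_one {A : Type v} [Ring A] {X : Cx A Λ} (h : X.p = 1) : Std X :=
  ⟨fun _ _ e => by rw [h, Matrix.one_apply_ne e], fun _ => Or.inl (by rw [h, Matrix.one_apply_eq])⟩

/-- It suffices to consider free complexes. -/
theorem VV.of_one {D : Subring R} {S : ι → Submonoid (SkewMonoidAlgebra R G)} {K : Finset ι}
    {r : Λ → G → Λ → Prop} {L : ℕ} (h : ∀ X, Obj (ctl D r) S K X → Bd L X → X.p = 1 →
      Cert (ful G D) S K Set.univ (X.lab fun _ => ())) : VV D S K Λ r L := fun X hX hB hS => by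
  obtain ⟨Y, hs, hp⟩ := hS.trim hX.ok
  exact (hs.lab _).cert_iff.1 (h Y (hs.obj_iff.2 hX) (hs.wd hB) hp)

theorem VV.tr (n : ℕ) : ∃ c : ℕ, ∀ (R : Type v) [Ring R] (G : Type) [Group G]
    [MulSemiringAction G R] (ι : Type) (D : Subring R) (S : ι → Submonoid (SkewMonoidAlgebra R G))
    (K₀ : Finset ι), Sca D S → ∀ (Λ W : Type) [LinearOrder W] (F : GN.FR G (Λ × Finset W))
    (K : Λ → Finset W) (Adj : Λ → W → W → Prop) (L : ℕ), Tow F K Adj n →
    VV D S K₀ (Cel K Adj) (fun x g y => F.rel c x.1 g y.1) (L + n) →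
    VV D S K₀ Λ (fun a g b => F.rel 1 (a, ∅) g (b, ∅)) L := by
  obtain ⟨c, hc⟩ := TW.transferN.{v} n
  refine ⟨c, fun R _ G _ _ ι D S K₀ hS Λ W _ F K Adj L hT hV => VV.of_one fun X hX hB hp => ?_⟩
  have : IsInvariantSubring G D := ⟨fun g _ hx => hS.inv g _ hx⟩
  obtain ⟨D₀, e0, hD₀⟩ := xt_lift hX.ok.hD
  obtain ⟨J', _, _, l', deg', D', ε, s, c1, c2, c3, c4, c5, c6, c7, c8⟩ :=
    hc D G Λ W F K Adj hT X.J (fun j => (X.t j).1) (fun j => (X.t j).2) D₀
      (xt_inj (by rw [Matrix.map_mul, e0, hX.ok.DD, Matrix.map_zero _ (map_zero _)])) hD₀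
  let Y : Cx (SkewMonoidAlgebra R G) (Cel K Adj) :=
    { J := J', t := fun x => (l' x, deg' x), p := 1, D := D'.map (incD D) }
  have hY : Obj (ctl D fun x g y => F.rel c x.1 g y.1) S K₀ Y := by
    refine ⟨⟨hm_one fun _ => F.mono (Nat.zero_le _) (F.refl _), xt_back c2, mul_one _, one_mul _,
      mul_one _, ?_⟩, fun a ha => ?_⟩
    · change D'.map (incD D) * D'.map (incD D) = 0
      rw [← Matrix.map_mul, c5, Matrix.map_zero _ (map_zero _)]
    · obtain ⟨w, hw, h, h1, h2⟩ := hX.tor a ha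
      obtain ⟨u, hu, e1⟩ := hS.sc a w hw
      obtain ⟨h₀, e2, h3⟩ := xt_lift h1
      have e3 : incD D (SkewMonoidAlgebra.single (1 : G) (⟨u, hu⟩ : D)) = w := by
        rw [incD_single, e1]
      obtain ⟨h', h4, h5⟩ := c8 (SkewMonoidAlgebra.single 1 ⟨u, hu⟩) h₀
        (fun x => incD_inj D (by rw [map_mul, map_mul, e3, hS.cen a w hw]))
        (fun g hg => by
          classical
          rw [SkewMonoidAlgebra.coeff_single, Finsupp.single_apply] at hg
          exact by_contra fun e => hg (if_neg fun e' => e e'.symm))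
        h3 ((xt_htpy _ _ _).2 (by rw [e0, e2, e3, h2, hp]))
      exact ⟨w, hw, h'.map (incD D), xt_back h4, e3 ▸ (xt_htpy _ _ _).1 h5⟩
  have hC := hV Y hY (fun x => by
    obtain ⟨j, h1, h2⟩ := c1 x
    obtain ⟨h3, h4⟩ := hB j
    change deg' x ∈ Set.Icc _ _
    constructor <;> push_cast <;> omega) (std_one rfl)
  obtain ⟨M, _, ⟨E⟩⟩ := exists_KS hS.good K₀ Set.univ
  have hX' := hX.lab ctl_ful
  have hY' := hY.lab ctl_ful
  have ht : Tw (ful G D) (X.lab fun _ => ()) (Y.lab fun _ => ()) (ε.map (incD D)) := by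
    refine ⟨⟨xt_back fun i j => (c3 i j).mono fun _ h => ⟨trivial, h⟩, ?_, Matrix.mul_one _⟩, ?_⟩
    · change X.p * ε.map (incD D) = _
      rw [hp, Matrix.one_mul]
    · change X.D * ε.map (incD D) + ε.map (incD D) * D'.map (incD D) = 0
      rw [← e0, ← Matrix.map_mul, ← Matrix.map_mul, ← Matrix.map_add _ (map_add _), c6,
        Matrix.map_zero _ (map_zero _)]
  have h0 := E.nul (hX'.ok.ext hY'.ok ht) (Wd.univ _) (by
    refine ⟨s.map (incD D), xt_back fun i j => (c4 i j).mono fun _ h => ⟨trivial, ?_⟩, ?_⟩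
    · rcases i with i | i <;> rcases j with j | j <;> exact h
    · have h1 := (xt_htpy 1 _ _).1 (c7.trans (one_smul _ _).symm)
      rw [Matrix.fromBlocks_map, e0, Matrix.map_zero _ (map_zero _), map_one] at h1
      refine h1.trans ?_
      change _ = (1 : SkewMonoidAlgebra R G) • fromBlocks X.p 0 0 1
      rw [hp, fromBlocks_one])
  rw [E.ext hX' hY' (Wd.univ _) (Wd.univ _) ht, (E.zero_iff hY' (Wd.univ _)).2 hC, add_zero] at h0
  exact (E.zero_iff hX' (Wd.univ _)).1 h0

end Pool.Agent.MP_f7db47_al.KN
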