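import Pool.Agent.MP_f7db47_al.KN.A1

/-!
Controlled families over twisted group rings with coefficients in a subring.
-/

namespace Pool.Agent.MP_f7db47_al.KN

open Matrix

universe v

section Lab

variable {A : Type v} [Ring A] {Λ Λ' ι : Type} {H : Fam A Λ} {H' : Fam A Λ'}
  {S : ι → Submonoid A} {K : Finset ι} {π : Λ → Λ'} {X Y : Cx A Λ}

/-- The same complex with new labels. -/
@[reducible] def Cx.lab (X : Cx A Λ) (π : Λ → Λ') : Cx A Λ' where
  J := X.J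
  t j := (π (X.t j).1, (X.t j).2)
  p := X.p
  D := X.D

theorem Hm.lab (hπ : ∀ ⦃a b x⦄, x ∈ H a b → x ∈ H' (π a) (π b)) {d : ℤ} {I J : Type}
    {s : I → Λ × ℤ} {t : J → Λ × ℤ} {f : Matrix I J A} (h : Hm H d s t f) :
    Hm H' d (fun i => (π (s i).1, (s i).2)) (fun j => (π (t j).1, (t j).2)) f :=
  fun i j => ⟨hπ (h i j).1, (h i j).2⟩

theorem Ok.lab (hπ : ∀ ⦃a b x⦄, x ∈ H a b → x ∈ H' (π a) (π b)) (h : Ok H X) :
    Ok H' (X.lab π) := ⟨h.hp.lab hπ, h.hD.lab hπ, h.pp, h.pD, h.Dp, h.DD⟩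

theorem Nul.lab (hπ : ∀ ⦃a b x⦄, x ∈ H a b → x ∈ H' (π a) (π b)) {w : A} (h : Nul H w X) :
    Nul H' w (X.lab π) := h.imp fun _ c => ⟨c.1.lab hπ, c.2⟩

theorem Obj.lab (hπ : ∀ ⦃a b x⦄, x ∈ H a b → x ∈ H' (π a) (π b)) (h : Obj H S K X) :
    Obj H' S K (X.lab π) :=
  ⟨h.ok.lab hπ, fun a ha => (h.tor a ha).imp fun _ c => ⟨c.1, c.2.lab hπ⟩⟩

theorem Sub.lab (h : Sub X Y) (π : Λ → Λ') : Sub (X.lab π) (Y.lab π) := by
  obtain ⟨e, h1, h2, h3⟩ := h
  exact ⟨e, h1, fun i => by simp only [h2], h3⟩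

end Lab

variable {R : Type v} [Ring R] {G : Type} [Group G] [MulSemiringAction G R] {ι Λ Λ' : Type}

/-- The elements with coefficients in `D` whose support is controlled by `r`. -/
def ctl (D : Subring R) (r : Λ → G → Λ → Prop) : Fam (SkewMonoidAlgebra R G) Λ := fun a b =>
  { carrier := {x | ∀ g, x.coeff g ∈ D ∧ (x.coeff g ≠ 0 → r a g b)}
    zero_mem' := fun _ => ⟨zero_mem D, fun h => absurd rfl h⟩
    add_mem' := fun {x y} h h' g => by
      rw [SkewMonoidAlgebra.coeff_add, Finsupp.add_apply]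
      refine ⟨add_mem (h g).1 (h' g).1, fun e => ?_⟩
      by_cases e1 : x.coeff g = 0
      · exact (h' g).2 fun e2 => e (by rw [e1, e2, add_zero])
      · exact (h g).2 e1
    neg_mem' := fun {x} h g => ⟨neg_mem (h g).1, fun e => (h g).2 fun e1 => e (by
      rw [SkewMonoidAlgebra.coeff_neg, Finsupp.neg_apply, e1, neg_zero])⟩ }

theorem mem_ctl {D : Subring R} {r : Λ → G → Λ → Prop} {a b : Λ} {x : SkewMonoidAlgebra R G} :
    x ∈ ctl D r a b ↔ ∀ g, x.coeff g ∈ D ∧ (x.coeff g ≠ 0 → r a g b) := Iff.rfl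

variable (G) in
/-- The twisted group ring of `D`, as a family with one label. -/
abbrev ful (D : Subring R) : Fam (SkewMonoidAlgebra R G) Unit := ctl D fun _ _ _ => True

theorem ctl_lab {D : Subring R} {r : Λ → G → Λ → Prop} {r' : Λ' → G → Λ' → Prop} {π : Λ' → Λ}
    (h : ∀ a g b, r' a g b → r (π a) g (π b)) ⦃a b : Λ'⦄ ⦃x : SkewMonoidAlgebra R G⦄
    (hx : x ∈ ctl D r' a b) : x ∈ ctl D r (π a) (π b) :=
  fun g => ⟨(hx g).1, fun e => h _ _ _ ((hx g).2 e)⟩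

theorem ctl_ful {D : Subring R} {r : Λ → G → Λ → Prop} ⦃a b : Λ⦄ ⦃x : SkewMonoidAlgebra R G⦄
    (hx : x ∈ ctl D r a b) : x ∈ ful G D ((fun _ => ()) a) ((fun _ => ()) b) :=
  fun g => ⟨(hx g).1, fun _ => trivial⟩

/-- An invariant subring that contains monoids of central scalars. -/
structure Sca (D : Subring R) (S : ι → Submonoid (SkewMonoidAlgebra R G)) : Prop where
  inv : ∀ (g : G), ∀ x ∈ D, g • x ∈ D
  cen : Cen S
  sc : ∀ a, ∀ w ∈ S a, ∃ c ∈ D, w = SkewMonoidAlgebra.single 1 c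

variable {D : Subring R} {S : ι → Submonoid (SkewMonoidAlgebra R G)} {K : Finset ι}

theorem ctl_mul (hD : ∀ (g : G), ∀ x ∈ D, g • x ∈ D) {r₁ r₂ r₃ : Λ → G → Λ → Prop}
    (h : ∀ a g b k c, r₁ a g b → r₂ b k c → r₃ a (g * k) c) ⦃a b c : Λ⦄
    ⦃x y : SkewMonoidAlgebra R G⦄ (hx : x ∈ ctl D r₁ a b) (hy : y ∈ ctl D r₂ b c) :
    x * y ∈ ctl D r₃ a c := fun g => by
  rw [SkewMonoidAlgebra.coeff_mul_left, SkewMonoidAlgebra.sum_def']
  refine ⟨sum_mem fun k _ => mul_mem (hx k).1 (hD _ _ (hy _).1), fun e => ?_⟩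
  obtain ⟨k, -, hk⟩ := Finset.exists_ne_zero_of_sum_ne_zero e
  have h1 := h _ _ _ _ _ ((hx k).2 (left_ne_zero_of_mul hk))
    ((hy (k⁻¹ * g)).2 fun e2 => hk (by rw [e2, smul_zero, mul_zero]))
  rwa [mul_inv_cancel_left] at h1

theorem Sca.stab (h : Sca D S) (r : Λ → G → Λ → Prop) (a : ι) (w : SkewMonoidAlgebra R G)
    (hw : w ∈ S a) ⦃i j : Λ⦄ ⦃x : SkewMonoidAlgebra R G⦄ (hx : x ∈ ctl D r i j) :
    w * x ∈ ctl D r i j := fun g => by
  obtain ⟨c, hc, rfl⟩ := h.sc a w hw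
  rw [SkewMonoidAlgebra.coeff_single_one_mul]
  exact ⟨mul_mem hc (hx g).1, fun e => (hx g).2 (right_ne_zero_of_mul e)⟩

theorem Sca.good (h : Sca D S) : Good (ful G D) S :=
  ⟨ctl_mul h.inv fun _ _ _ _ _ _ _ => trivial, h.cen, h.stab _⟩

variable (D S K) in
/-- All free objects with labels in `Λ`, control `r` and size at most `L` have trivial class
over the twisted group ring of `D`. -/
def VV (Λ : Type) (r : Λ → G → Λ → Prop) (L : ℕ) : Prop :=
  ∀ X, Obj (ctl D r) S K X → Bd L X → Std X →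
    Cert (ful G D) S K Set.univ (X.lab fun _ => ())

theorem VV.pull {r : Λ → G → Λ → Prop} {r' : Λ' → G → Λ' → Prop} {L L' : ℕ} (π : Λ' → Λ)
    (h : ∀ a g b, r' a g b → r (π a) g (π b)) (hL : L' ≤ L) (hV : VV D S K Λ r L) :
    VV D S K Λ' r' L' := fun X hX hB hS =>
  hV (X.lab π) (hX.lab (ctl_lab h))
    (Wd.mono (X := X.lab π) hB (Set.Icc_subset_Icc (by omega) (by omega))) hS

end Pool.Agent.MP_f7db47_al.KN
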